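import Mathlib

/-!
# ParamInt: parametric integrals over a fixed interval, fundamental theorem

* `contDiff_paramInt`: induction on the order with `contDiff_succ_iff_fderiv_apply` (finite
  dimension) and `intervalIntegral.hasFDerivAt_integral_of_dominated_of_fderiv_le` (continuity on
  compact sets gives the domination), `contDiff_infty`.
* `hasDerivAt_int`, `hasDerivAt_int_loc`: `intervalIntegral.hasDerivAt_integral_of_dominated_loc_of_deriv_le`,
  the derivative is bounded on a compact neighbourhood.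
* `ftc`: `intervalIntegral.integral_eq_sub_of_hasDerivAt_of_le`.
-/

namespace H72GS

open Set MeasureTheory intervalIntegral
open scoped ContDiff

private theorem ParamInt_hasFDerivAt {E : Type*} [NormedAddCommGroup E] [NormedSpace ℝ E]
    [FiniteDimensional ℝ E] {F : E × ℝ → ℝ} (hF : ContDiff ℝ 1 F) (a b : ℝ) (x : E) :
    HasFDerivAt (fun x => ∫ s in a..b, F (x, s))
      (∫ s in a..b, (fderiv ℝ F (x, s)) ∘L ContinuousLinearMap.inl ℝ E ℝ) x := by
  have : ProperSpace E := FiniteDimensional.proper ℝ E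
  have hFc : Continuous F := hF.continuous
  have hF'c : Continuous (fun p : E × ℝ => (fderiv ℝ F p) ∘L ContinuousLinearMap.inl ℝ E ℝ) :=
    (hF.continuous_fderiv one_ne_zero).clm_comp continuous_const
  have hcomp : IsCompact (Metric.closedBall x 1 ×ˢ uIcc a b) :=
    (isCompact_closedBall x 1).prod isCompact_uIcc
  obtain ⟨M, hM⟩ := hcomp.exists_bound_of_continuousOn hF'c.continuousOn
  apply intervalIntegral.hasFDerivAt_integral_of_dominated_of_fderiv_le (𝕜 := ℝ)
    (F := fun y s => F (y, s))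
    (F' := fun y s => (fderiv ℝ F (y, s)) ∘L ContinuousLinearMap.inl ℝ E ℝ)
    (s := Metric.ball x 1) (bound := fun _ => M) (Metric.ball_mem_nhds x one_pos)
  · refine Filter.Eventually.of_forall fun y => ?_
    exact (hFc.comp (by fun_prop : Continuous fun s : ℝ => (y, s))).aestronglyMeasurable
  · exact (hFc.comp (by fun_prop : Continuous fun s : ℝ => (x, s))).intervalIntegrable _ _
  · exact (hF'c.comp (by fun_prop : Continuous fun s : ℝ => (x, s))).aestronglyMeasurable
  · refine ae_of_all _ fun t ht y hy => ?_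
    exact hM (y, t) ⟨Metric.ball_subset_closedBall hy, uIoc_subset_uIcc ht⟩
  · exact intervalIntegrable_const
  · refine ae_of_all _ fun t ht y hy => ?_
    have hd : HasFDerivAt F (fderiv ℝ F (y, t)) (y, t) :=
      (hF.differentiable one_ne_zero _).hasFDerivAt
    exact hd.comp y (hasFDerivAt_prodMk_left y t)

private theorem ParamInt_fderiv {E : Type*} [NormedAddCommGroup E] [NormedSpace ℝ E]
    [FiniteDimensional ℝ E] {F : E × ℝ → ℝ} (hF : ContDiff ℝ 1 F) (a b : ℝ) (x v : E) :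
    fderiv ℝ (fun x => ∫ s in a..b, F (x, s)) x v = ∫ s in a..b, fderiv ℝ F (x, s) (v, 0) := by
  rw [(ParamInt_hasFDerivAt hF a b x).fderiv]
  have hF'c : Continuous (fun p : E × ℝ => (fderiv ℝ F p) ∘L ContinuousLinearMap.inl ℝ E ℝ) :=
    (hF.continuous_fderiv one_ne_zero).clm_comp continuous_const
  have h1 : IntervalIntegrable (fun s => (fderiv ℝ F (x, s)) ∘L ContinuousLinearMap.inl ℝ E ℝ)
      volume a b :=
    (hF'c.comp (by fun_prop : Continuous fun s : ℝ => (x, s))).intervalIntegrable _ _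
  rw [ContinuousLinearMap.intervalIntegral_apply h1 v]
  rfl

private theorem ParamInt_nat {E : Type*} [NormedAddCommGroup E] [NormedSpace ℝ E]
    [FiniteDimensional ℝ E] (a b : ℝ) (n : ℕ) : ∀ {F : E × ℝ → ℝ} (_ : ContDiff ℝ n F),
    ContDiff ℝ n (fun x => ∫ s in a..b, F (x, s)) := by
  induction n with
  | zero =>
    intro F hF
    simp only [Nat.cast_zero, contDiff_zero] at hF ⊢
    exact intervalIntegral.continuous_parametric_intervalIntegral_of_continuous'
      (f := fun x s => F (x, s)) hF a b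
  | succ n ih =>
    intro F hF
    have h1 : ContDiff ℝ 1 F := hF.of_le (by norm_cast; omega)
    push_cast at hF ⊢
    rw [contDiff_succ_iff_fderiv_apply]
    refine ⟨fun x => (ParamInt_hasFDerivAt h1 a b x).differentiableAt, by simp, ?_⟩
    intro y
    have h2 : (fun x => fderiv ℝ (fun x => ∫ s in a..b, F (x, s)) x y) =
        fun x => ∫ s in a..b, fderiv ℝ F (x, s) (y, 0) := by
      funext x
      exact ParamInt_fderiv h1 a b x y
    rw [h2]
    apply ih (F := fun p => fderiv ℝ F p (y, 0))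
    exact (hF.fderiv_right le_rfl).clm_apply contDiff_const

/-- parametric integrals over a fixed interval are smooth -/
theorem contDiff_paramInt {E : Type*} [NormedAddCommGroup E] [NormedSpace ℝ E]
    [FiniteDimensional ℝ E] {F : E × ℝ → ℝ} (hF : ContDiff ℝ ∞ F) (a b : ℝ) :
    ContDiff ℝ ∞ (fun x => ∫ s in a..b, F (x, s)) := by
  rw [contDiff_infty] at hF ⊢
  intro n
  exact ParamInt_nat a b n (hF n)

theorem fderiv_paramInt {E : Type*} [NormedAddCommGroup E] [NormedSpace ℝ E]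
    [FiniteDimensional ℝ E] {F : E × ℝ → ℝ} (hF : ContDiff ℝ ∞ F) (a b : ℝ) (x v : E) :
    fderiv ℝ (fun x => ∫ s in a..b, F (x, s)) x v = ∫ s in a..b, fderiv ℝ F (x, s) (v, 0) :=
  ParamInt_fderiv (hF.of_le (by exact_mod_cast le_top)) a b x v

private theorem ParamInt_core {F F' : ℝ → ℝ → ℝ} {a b t0 δ : ℝ} (hδ : 0 < δ)
    (hF : ∀ t ∈ Ioo (t0 - δ) (t0 + δ), ContinuousOn (F t) (uIcc a b))
    (hF' : ContinuousOn (fun p : ℝ × ℝ => F' p.1 p.2) (Ioo (t0 - δ) (t0 + δ) ×ˢ uIcc a b))
    (h : ∀ t ∈ Ioo (t0 - δ) (t0 + δ), ∀ r ∈ uIcc a b, HasDerivAt (fun s => F s r) (F' t r) t) :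
    HasDerivAt (fun s => ∫ r in a..b, F s r) (∫ r in a..b, F' t0 r) t0 := by
  have hsub : Icc (t0 - δ/2) (t0 + δ/2) ×ˢ uIcc a b ⊆ Ioo (t0 - δ) (t0 + δ) ×ˢ uIcc a b := by
    refine Set.prod_mono ?_ le_rfl
    intro x hx
    exact ⟨by linarith [hx.1], by linarith [hx.2]⟩
  obtain ⟨M, hM⟩ := ((isCompact_Icc (a := t0 - δ/2) (b := t0 + δ/2)).prod
    (isCompact_uIcc (a := a) (b := b))).exists_bound_of_continuousOn (hF'.mono hsub)
  have hs : Ioo (t0 - δ/2) (t0 + δ/2) ∈ nhds t0 :=
    Ioo_mem_nhds (by linarith) (by linarith)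
  have hin : ∀ t ∈ Ioo (t0 - δ/2) (t0 + δ/2), t ∈ Ioo (t0 - δ) (t0 + δ) := fun x hx =>
    ⟨by linarith [hx.1], by linarith [hx.2]⟩
  have ht0 : t0 ∈ Ioo (t0 - δ) (t0 + δ) := ⟨by linarith, by linarith⟩
  refine (intervalIntegral.hasDerivAt_integral_of_dominated_loc_of_deriv_le (𝕜 := ℝ)
    (F := F) (F' := F') (s := Ioo (t0 - δ/2) (t0 + δ/2)) (bound := fun _ => M) hs ?_ ?_ ?_ ?_ ?_ ?_).2
  · filter_upwards [hs] with t ht
    exact ((hF t (hin t ht)).mono uIoc_subset_uIcc).aestronglyMeasurable measurableSet_uIoc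
  · exact (hF t0 ht0).intervalIntegrable
  · have : ContinuousOn (F' t0) (uIcc a b) := by
      refine hF'.comp (f := fun r => (t0, r)) (by fun_prop) ?_
      intro r hr
      exact ⟨ht0, hr⟩
    exact (this.mono uIoc_subset_uIcc).aestronglyMeasurable measurableSet_uIoc
  · refine ae_of_all _ fun r hr t ht => ?_
    exact hM (t, r) ⟨⟨ht.1.le, ht.2.le⟩, uIoc_subset_uIcc hr⟩
  · exact intervalIntegrable_const
  · refine ae_of_all _ fun r hr t ht => ?_
    exact h t (hin t ht) r (uIoc_subset_uIcc hr)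

/-- derivative of an integral over a fixed interval -/
theorem hasDerivAt_int {F F' : ℝ → ℝ → ℝ} (hF : ∀ t, Continuous (F t))
    (hF' : Continuous (fun p : ℝ × ℝ => F' p.1 p.2))
    (h : ∀ t r, HasDerivAt (fun s => F s r) (F' t r) t) (a b t : ℝ) :
    HasDerivAt (fun s => ∫ r in a..b, F s r) (∫ r in a..b, F' t r) t :=
  ParamInt_core one_pos (fun t _ => (hF t).continuousOn) hF'.continuousOn (fun t _ r _ => h t r)

/-- local version: everything only near the time `t0` and for `r ∈ [a,b]` -/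
theorem hasDerivAt_int_loc {F F' : ℝ → ℝ → ℝ} {a b t0 δ : ℝ} (hab : a ≤ b) (hδ : 0 < δ)
    (hF : ∀ t ∈ Ioo (t0 - δ) (t0 + δ), ContinuousOn (F t) (Icc a b))
    (hF' : ContinuousOn (fun p : ℝ × ℝ => F' p.1 p.2) (Ioo (t0 - δ) (t0 + δ) ×ˢ Icc a b))
    (h : ∀ t ∈ Ioo (t0 - δ) (t0 + δ), ∀ r ∈ Icc a b, HasDerivAt (fun s => F s r) (F' t r) t) :
    HasDerivAt (fun s => ∫ r in a..b, F s r) (∫ r in a..b, F' t0 r) t0 := by
  rw [← uIcc_of_le hab] at hF hF' h
  exact ParamInt_core hδ hF hF' h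

/-- fundamental theorem: derivative on the open interval only, continuity on the closed one -/
theorem ftc {F F' : ℝ → ℝ} {a b : ℝ} (hab : a ≤ b) (hF : ContinuousOn F (Icc a b))
    (hF' : ContinuousOn F' (Icc a b)) (h : ∀ r ∈ Ioo a b, HasDerivAt F (F' r) r) :
    ∫ r in a..b, F' r = F b - F a := by
  refine intervalIntegral.integral_eq_sub_of_hasDerivAt_of_le hab hF h ?_
  apply ContinuousOn.intervalIntegrable
  rw [uIcc_of_le hab]
  exact hF'

end H72GS
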