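import Mathlib

/-!
# The gauged sigma model on `ℝ^{2,1}`: definitions

Space-time points are `p : Fin 3 → ℝ`, `p 0 = t`, `(p 1, p 2) = x`; the metric is `diag(1,-1,-1)`.
-/

namespace H72GS

open Set MeasureTheory Filter Topology
open scoped ContDiff Matrix

noncomputable section

/-- space-time points `(x⁰, x¹, x²)` -/
abbrev Pt := Fin 3 → ℝ

/-- coordinate derivative `∂_μ u` of a real function on space-time -/
def pd (μ : Fin 3) (u : Pt → ℝ) (p : Pt) : ℝ := fderiv ℝ u p (Pi.single μ 1)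

/-- the unit vector `n = (0,0,1)` of the target `ℝ³` -/
def nn : Fin 3 → ℝ := ![0, 0, 1]

/-- diagonal entries of the metric -/
def sg : Fin 3 → ℝ := ![1, -1, -1]

/-- a configuration: the map `φ` (with values in `ℝ³`) and the gauge field `A = (A₀, A₁, A₂)` -/
structure Config where
  φ : Pt → Fin 3 → ℝ
  A : Fin 3 → Pt → ℝ

/-- covariant derivative `D_μ V = ∂_μ V + A_μ (n × V)` of a field `V` with values in `ℝ³` -/
def Config.D (c : Config) (μ : Fin 3) (V : Pt → Fin 3 → ℝ) (p : Pt) : Fin 3 → ℝ :=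
  fun i => pd μ (fun q => V q i) p + c.A μ p * crossProduct nn (V p) i

/-- field strength `F_{μν} = ∂_μ A_ν - ∂_ν A_μ` -/
def Config.F (c : Config) (μ ν : Fin 3) (p : Pt) : ℝ := pd μ (c.A ν) p - pd ν (c.A μ) p

/-- The Euler-Lagrange equations of
`L = -(1/4) F_{μν} F^{μν} + (1/2) D_μ φ · D^μ φ - (1/2) (1 - n·φ)²` at the point `p`:
* the constraint `|φ| = 1`;
* `D^μ D_μ φ - (1 - n·φ) n` is parallel to `φ` (variation of `φ` under the constraint);
* `∂^ν F_{μν} = n · (φ × D_μ φ)` for `μ = 0, 1, 2` (variation of `A`). -/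
structure Config.SolvesAt (c : Config) (p : Pt) : Prop where
  sphere : c.φ p ⬝ᵥ c.φ p = 1
  phiEq : crossProduct (c.φ p)
    ((∑ μ, sg μ • c.D μ (c.D μ c.φ) p) - (1 - nn ⬝ᵥ c.φ p) • nn) = 0
  maxwell : ∀ μ, ∑ ν, sg ν * pd ν (c.F μ ν) p = nn ⬝ᵥ crossProduct (c.φ p) (c.D μ c.φ p)

/-- the open time slab `a < t < b` -/
def slab (a b : ℝ) : Set Pt := {p | a < p 0 ∧ p 0 < b}

/-- the half open time slab `0 ≤ t < b` -/
def hslab (b : ℝ) : Set Pt := {p | 0 ≤ p 0 ∧ p 0 < b}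

/-- smooth (`C^∞`) on a set -/
def Config.SmoothOn (c : Config) (S : Set Pt) : Prop :=
  (∀ i, ContDiffOn ℝ ∞ (fun p => c.φ p i) S) ∧ ∀ μ, ContDiffOn ℝ ∞ (c.A μ) S

/-- initial configuration `(φ, ∂_t φ, A, ∂_t A)` at `t = 0`, functions of `(x¹, x²)` -/
structure InitData where
  φ0 : ℝ → ℝ → Fin 3 → ℝ
  φ1 : ℝ → ℝ → Fin 3 → ℝ
  a0 : Fin 3 → ℝ → ℝ → ℝ
  a1 : Fin 3 → ℝ → ℝ → ℝ

/-- a configuration whose first order Taylor expansion at `t = 0` is the given datum (an auxiliary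
configuration, used only to evaluate expressions in the datum and its first derivatives) -/
def InitData.toConfig (d : InitData) : Config where
  φ := fun p i => d.φ0 (p 1) (p 2) i + p 0 * d.φ1 (p 1) (p 2) i
  A := fun μ p => d.a0 μ (p 1) (p 2) + p 0 * d.a1 μ (p 1) (p 2)

/-- the point `(0, x, y)` -/
def pt0 (x y : ℝ) : Pt := ![0, x, y]

/-- smoothness of the datum -/
structure InitData.Smooth (d : InitData) : Prop where
  φ0 : ∀ i, ContDiff ℝ ∞ (fun z : ℝ × ℝ => d.φ0 z.1 z.2 i)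
  φ1 : ∀ i, ContDiff ℝ ∞ (fun z : ℝ × ℝ => d.φ1 z.1 z.2 i)
  a0 : ∀ μ, ContDiff ℝ ∞ (fun z : ℝ × ℝ => d.a0 μ z.1 z.2)
  a1 : ∀ μ, ContDiff ℝ ∞ (fun z : ℝ × ℝ => d.a1 μ z.1 z.2)

/-- the map takes values in the sphere and its time derivative is tangential -/
def InitData.OnSphere (d : InitData) : Prop :=
  ∀ x y, d.φ0 x y ⬝ᵥ d.φ0 x y = 1 ∧ d.φ0 x y ⬝ᵥ d.φ1 x y = 0

/-- the Gauss law (the component `μ = 0` of the Maxwell equations) at `t = 0` -/
def InitData.Gauss (d : InitData) : Prop :=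
  ∀ x y, ∑ ν, sg ν * pd ν (d.toConfig.F 0 ν) (pt0 x y) =
    nn ⬝ᵥ crossProduct (d.toConfig.φ (pt0 x y)) (d.toConfig.D 0 d.toConfig.φ (pt0 x y))

/-- energy density at a point -/
def Config.energyDensity (c : Config) (p : Pt) : ℝ :=
  (1 / 2) * ((∑ μ, c.D μ c.φ p ⬝ᵥ c.D μ c.φ p) + (1 - nn ⬝ᵥ c.φ p) ^ 2
    + c.F 0 1 p ^ 2 + c.F 0 2 p ^ 2 + c.F 1 2 p ^ 2)

/-- finite energy -/
def InitData.FiniteEnergy (d : InitData) : Prop :=
  Integrable (fun z : ℝ × ℝ => d.toConfig.energyDensity (pt0 z.1 z.2))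

/-- boundary condition `n · φ → 1` at spatial infinity -/
def InitData.Boundary (d : InitData) : Prop :=
  Tendsto (fun z : ℝ × ℝ => nn ⬝ᵥ d.φ0 z.1 z.2) (cocompact (ℝ × ℝ)) (𝓝 1)

/-- rotation of the target about the axis `n` -/
def Rot (θ : ℝ) (V : Fin 3 → ℝ) : Fin 3 → ℝ :=
  ![Real.cos θ * V 0 - Real.sin θ * V 1, Real.sin θ * V 0 + Real.cos θ * V 1, V 2]

/-- The configuration `c` starts, at `t = 0` and up to gauge, from the datum `d`: for a
differentiable function `θ(x)` the gauge covariant Cauchy data `φ, D₀φ, A₁, A₂, F₀₁, F₀₂` of `c` at `t = 0` are those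
of `d` transformed by `θ`: `φ ↦ Rot(-θ) φ`, `D₀ φ ↦ Rot(-θ) D₀ φ`, `A_i ↦ A_i + ∂_i θ`,
`F_{0i} ↦ F_{0i}`.  (`A₀` and `∂_t A₀` at `t = 0` are then unrestricted: they change by `∂_t θ`,
`∂_t² θ` under a gauge transformation.) -/
def Config.StartsFrom (c : Config) (d : InitData) : Prop :=
  ∃ θ : ℝ → ℝ → ℝ, Differentiable ℝ (fun z : ℝ × ℝ => θ z.1 z.2) ∧ ∀ x y,
    c.φ (pt0 x y) = Rot (-θ x y) (d.toConfig.φ (pt0 x y)) ∧
    c.D 0 c.φ (pt0 x y) = Rot (-θ x y) (d.toConfig.D 0 d.toConfig.φ (pt0 x y)) ∧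
    (∀ i : Fin 3, i ≠ 0 →
      c.A i (pt0 x y) = d.toConfig.A i (pt0 x y) + pd i (fun p => θ (p 1) (p 2)) (pt0 x y) ∧
      c.F 0 i (pt0 x y) = d.toConfig.F 0 i (pt0 x y))

/-- `c` is a smooth solution for `0 ≤ t < T` which starts, up to gauge, from `d`: the fields are
smooth up to and including the initial surface `t = 0` (they are smooth on an open slab
`-ε < t < T`), the equations hold for `0 < t < T`. -/
def IsSolutionFrom (d : InitData) (T : ℝ) (c : Config) : Prop :=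
  (∃ ε > 0, c.SmoothOn (slab (-ε) T)) ∧ (∀ p ∈ slab 0 T, c.SolvesAt p) ∧ c.StartsFrom d

end

end H72GS
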