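import Pool.Agent.H72.GS.ParamInt

/-!
# Api: smooth functions of two variables, Hadamard quotients, parametric integrals

* `Sm u`: `u t r` is jointly `C^∞`.
* `Q u t r = ∫_0^1 (∂_r u)(t, s r) ds`, so `r * Q u t r = u t r` if `u t 0 = 0`.
* smoothness of `Q u` from `contDiff_paramInt` (`ParamInt.lean`), `dt_Q` from `fderiv_paramInt` or
  `hasDerivAt_int`.
-/

namespace H72GS

open Set MeasureTheory intervalIntegral
open scoped ContDiff

noncomputable section

/-- `u` is a smooth function of `(t,r)` -/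
def Sm (u : ℝ → ℝ → ℝ) : Prop := ContDiff ℝ ∞ (fun p : ℝ × ℝ => u p.1 p.2)

/-- time derivative -/
def dt (u : ℝ → ℝ → ℝ) : ℝ → ℝ → ℝ := fun t r => deriv (fun s => u s r) t

/-- radial derivative -/
def dr (u : ℝ → ℝ → ℝ) : ℝ → ℝ → ℝ := fun t r => deriv (fun x => u t x) r

/-- Hadamard quotient -/
def Q (u : ℝ → ℝ → ℝ) : ℝ → ℝ → ℝ := fun t r => ∫ s in (0 : ℝ)..1, dr u t (s * r)

variable {u v : ℝ → ℝ → ℝ}

theorem Sm.cont (h : Sm u) : Continuous (fun p : ℝ × ℝ => u p.1 p.2) := by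
  exact ContDiff.continuous h

theorem Sm.cont_r (h : Sm u) (t : ℝ) : Continuous (u t) := by
  exact h.cont.comp (Continuous.prodMk_right t)

theorem Sm.cont_t (h : Sm u) (r : ℝ) : Continuous (fun t => u t r) := by
  exact h.cont.comp (Continuous.prodMk_left r)

theorem Api_hasDerivAt_t (h : Sm u) (t r : ℝ) :
    HasDerivAt (fun s => u s r) (fderiv ℝ (fun p : ℝ × ℝ => u p.1 p.2) (t, r) (1, 0)) t := by
  have hd : HasFDerivAt (fun p : ℝ × ℝ => u p.1 p.2)
      (fderiv ℝ (fun p : ℝ × ℝ => u p.1 p.2) (t, r)) (t, r) :=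
    ((ContDiff.differentiable h (by simp)) (t, r)).hasFDerivAt
  have hg : HasDerivAt (fun s : ℝ => ((s, r) : ℝ × ℝ)) (1, 0) t :=
    (hasDerivAt_id t).prodMk (hasDerivAt_const t r)
  exact hd.comp_hasDerivAt t hg

theorem Api_hasDerivAt_r (h : Sm u) (t r : ℝ) :
    HasDerivAt (u t) (fderiv ℝ (fun p : ℝ × ℝ => u p.1 p.2) (t, r) (0, 1)) r := by
  have hd : HasFDerivAt (fun p : ℝ × ℝ => u p.1 p.2)
      (fderiv ℝ (fun p : ℝ × ℝ => u p.1 p.2) (t, r)) (t, r) :=
    ((ContDiff.differentiable h (by simp)) (t, r)).hasFDerivAt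
  have hg : HasDerivAt (fun s : ℝ => ((t, s) : ℝ × ℝ)) (0, 1) r :=
    (hasDerivAt_const r t).prodMk (hasDerivAt_id r)
  exact hd.comp_hasDerivAt r hg

theorem Api_dt_eq (h : Sm u) : (fun p : ℝ × ℝ => dt u p.1 p.2) =
    fun p => fderiv ℝ (fun p : ℝ × ℝ => u p.1 p.2) p (1, 0) := by
  funext p
  exact (Api_hasDerivAt_t h p.1 p.2).deriv

theorem Api_dr_eq (h : Sm u) : (fun p : ℝ × ℝ => dr u p.1 p.2) =
    fun p => fderiv ℝ (fun p : ℝ × ℝ => u p.1 p.2) p (0, 1) := by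
  funext p
  exact (Api_hasDerivAt_r h p.1 p.2).deriv

theorem Sm.hasDerivAt_t (h : Sm u) (t r : ℝ) : HasDerivAt (fun s => u s r) (dt u t r) t := by
  exact (Api_hasDerivAt_t h t r).differentiableAt.hasDerivAt

theorem Sm.hasDerivAt_r (h : Sm u) (t r : ℝ) : HasDerivAt (u t) (dr u t r) r := by
  exact (Api_hasDerivAt_r h t r).differentiableAt.hasDerivAt

theorem Sm.dt (h : Sm u) : Sm (dt u) := by
  have h1 : ContDiff ℝ ∞ (fun p : ℝ × ℝ => H72GS.dt u p.1 p.2) := by
    rw [Api_dt_eq h]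
    exact (ContDiff.fderiv_right (m := ∞) h (by simp)).clm_apply contDiff_const
  exact h1

theorem Sm.dr (h : Sm u) : Sm (dr u) := by
  have h1 : ContDiff ℝ ∞ (fun p : ℝ × ℝ => H72GS.dr u p.1 p.2) := by
    rw [Api_dr_eq h]
    exact (ContDiff.fderiv_right (m := ∞) h (by simp)).clm_apply contDiff_const
  exact h1

/-- mixed derivatives commute -/
theorem Sm.comm (h : Sm u) : H72GS.dt (H72GS.dr u) = H72GS.dr (H72GS.dt u) := by
  have hF : ContDiff ℝ ∞ (fun p : ℝ × ℝ => u p.1 p.2) := h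
  have hF' : ContDiff ℝ ∞ (fderiv ℝ (fun p : ℝ × ℝ => u p.1 p.2)) :=
    ContDiff.fderiv_right (m := ∞) hF (by simp)
  funext t r
  have hdd := (hF'.differentiable (by simp)) (t, r)
  have e1 : H72GS.dt (H72GS.dr u) t r =
      fderiv ℝ (fun p : ℝ × ℝ => H72GS.dr u p.1 p.2) (t, r) (1, 0) :=
    (Api_hasDerivAt_t h.dr t r).deriv
  have e2 : H72GS.dr (H72GS.dt u) t r =
      fderiv ℝ (fun p : ℝ × ℝ => H72GS.dt u p.1 p.2) (t, r) (0, 1) :=
    (Api_hasDerivAt_r h.dt t r).deriv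
  rw [e1, e2, Api_dr_eq h, Api_dt_eq h, fderiv_clm_apply hdd (differentiableAt_const _),
    fderiv_clm_apply hdd (differentiableAt_const _)]
  have hs : IsSymmSndFDerivAt ℝ (fun p : ℝ × ℝ => u p.1 p.2) (t, r) :=
    (hF.contDiffAt).isSymmSndFDerivAt (by
      rw [minSmoothness_of_isRCLikeNormedField]; exact WithTop.coe_le_coe.2 le_top)
  simpa using (hs (1, 0) (0, 1))

theorem Sm.add (hu : Sm u) (hv : Sm v) : Sm (fun t r => u t r + v t r) := by
  exact ContDiff.add hu hv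

theorem Sm.sub (hu : Sm u) (hv : Sm v) : Sm (fun t r => u t r - v t r) := by
  exact ContDiff.sub hu hv

theorem Sm.mul (hu : Sm u) (hv : Sm v) : Sm (fun t r => u t r * v t r) := by
  exact ContDiff.mul hu hv

theorem Sm.neg (hu : Sm u) : Sm (fun t r => -u t r) := by
  exact ContDiff.neg hu

theorem Sm.pow (hu : Sm u) (n : ℕ) : Sm (fun t r => u t r ^ n) := by
  exact ContDiff.pow hu n

theorem Sm.const (c : ℝ) : Sm (fun _ _ => c) := by
  exact contDiff_const

theorem Sm.idr : Sm (fun _ r => r) := by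
  exact contDiff_snd

theorem Sm.idt : Sm (fun t _ => t) := by
  exact contDiff_fst

theorem Sm.sin (hu : Sm u) : Sm (fun t r => Real.sin (u t r)) := by
  exact Real.contDiff_sin.comp hu

theorem Sm.cos (hu : Sm u) : Sm (fun t r => Real.cos (u t r)) := by
  exact Real.contDiff_cos.comp hu

theorem Sm.Q (h : Sm u) : Sm (Q u) := by
  have h1 : ContDiff ℝ ∞ (fun q : (ℝ × ℝ) × ℝ => H72GS.dr u q.1.1 (q.2 * q.1.2)) := by
    have h2 : ContDiff ℝ ∞ (fun p : ℝ × ℝ => H72GS.dr u p.1 p.2) := h.dr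
    have h3 : ContDiff ℝ ∞ (fun q : (ℝ × ℝ) × ℝ => (q.1.1, q.2 * q.1.2)) := by fun_prop
    exact h2.comp h3
  exact contDiff_paramInt h1 0 1

theorem mul_Q (h : Sm u) {t : ℝ} (h0 : u t 0 = 0) (r : ℝ) : r * Q u t r = u t r := by
  have hc : Continuous (fun s : ℝ => r * H72GS.dr u t (s * r)) := by
    have := h.dr.cont_r t
    fun_prop
  have hd : ∀ s ∈ Set.uIcc (0 : ℝ) 1,
      HasDerivAt (fun s => u t (s * r)) (r * H72GS.dr u t (s * r)) s := by
    intro s _
    have h1 := (h.hasDerivAt_r t (s * r)).comp s ((hasDerivAt_id s).mul_const r)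
    refine h1.congr_deriv ?_
    ring
  have h2 := intervalIntegral.integral_eq_sub_of_hasDerivAt hd (hc.intervalIntegrable 0 1)
  simp only [one_mul, zero_mul, h0, sub_zero] at h2
  rw [← h2, Q, ← intervalIntegral.integral_const_mul]

/-- `dt (Q u) = Q (dt u)` -/
theorem dt_Q (h : Sm u) : H72GS.dt (Q u) = Q (H72GS.dt u) := by
  funext t r
  have hF : ∀ s, Continuous (fun x => H72GS.dr u s (x * r)) := by
    intro s
    have := h.dr.cont_r s
    fun_prop
  have hF' : Continuous (fun p : ℝ × ℝ => H72GS.dt (H72GS.dr u) p.1 (p.2 * r)) := by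
    have h1 := h.dr.dt.cont
    exact h1.comp (by fun_prop : Continuous (fun p : ℝ × ℝ => (p.1, p.2 * r)))
  have h1 := hasDerivAt_int (F := fun s x => H72GS.dr u s (x * r))
    (F' := fun s x => H72GS.dt (H72GS.dr u) s (x * r)) hF hF'
    (fun s x => h.dr.hasDerivAt_t s (x * r)) 0 1 t
  have h2 : H72GS.dt (Q u) t r = ∫ x in (0 : ℝ)..1, H72GS.dt (H72GS.dr u) t (x * r) := h1.deriv
  rw [h2, h.comm]
  rfl

/-- value at the origin -/
theorem Q_zero (t : ℝ) : Q u t 0 = H72GS.dr u t 0 := by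
  simp [Q]

/-- cancellation of a factor `r`, by continuity at `0` -/
theorem cancel_r {f g : ℝ → ℝ} (hf : Continuous f) (hg : Continuous g)
    (h : ∀ r, r * f r = r * g r) : f = g := by
  refine Continuous.ext_on (dense_compl_singleton (0 : ℝ)) hf hg ?_
  intro r hr
  exact mul_left_cancel₀ (Set.mem_compl_singleton_iff.1 hr) (h r)

/-- an identity for `r > 0` extends to `r ≥ 0` -/
theorem eq_of_pos {f g : ℝ → ℝ} (hf : Continuous f) (hg : Continuous g)
    (h : ∀ r, 0 < r → f r = g r) : ∀ r, 0 ≤ r → f r = g r := by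
  have h1 : Set.Ioi (0 : ℝ) ⊆ {r | f r = g r} := fun r hr => h r hr
  have h2 := (isClosed_eq hf hg).closure_subset_iff.2 h1
  rw [closure_Ioi] at h2
  exact fun r hr => h2 hr

end

end H72GS
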