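import Pool.Agent.H72.GS.Inv
import Pool.Agent.H72.GS.Api

/-!
# Axis1: restriction to the half line `x = (r,0)`, the angle

`AP, AZ, AB` are `φ₀, φ₂, A₂` at `(t,r,0)`.
* reflection at `p 2 = 0`: `φ₁ = -φ₁ = 0`, `A₁ = 0`.
* rotation by `β = π` (`4β = 4π`): `AP, AZ` even in `r`, `AB` odd, so `AP_r(t,0) = 0`, `AB(t,0) = 0`.
* rotation by `β = π/4` at the origin: `AP(t,0) = -AP(t,0) = 0` (`4β = π`), so `AZ(t,0)² = 1`;
  continuity in `t` and `south`: `AZ(t,0) = -1` for `t ∈ [0,b)`.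
* `fh t r = π + ∫_0^r (AZ AP_r - AP AZ_r)(t,s) ds = π + r ∫_0^1 (...)(t, r s) ds`: smooth;
  `U = AP cos fh - AZ sin fh`, `V = AP sin fh + AZ cos fh` have zero `r`-derivative
  (`AP_r = AZ fh_r`, `AZ_r = -AP fh_r` from `AP² + AZ² = 1`), `U(t,0) = 0`, `V(t,0) = 1`.
-/

namespace H72GS

open Set
open scoped ContDiff

noncomputable section

/-- `φ₀` on the axis -/
def AP (c : Config) (t r : ℝ) : ℝ := c.φ ![t, r, 0] 0
/-- `φ₂` on the axis -/
def AZ (c : Config) (t r : ℝ) : ℝ := c.φ ![t, r, 0] 2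
/-- `A₂` on the axis -/
def AB (c : Config) (t r : ℝ) : ℝ := c.A 2 ![t, r, 0]

variable {c : Config} {b : ℝ}

private lemma Axis1_emb : ContDiff ℝ ∞ (fun p : ℝ × ℝ => (![p.1, p.2, 0] : Pt)) := by
  rw [contDiff_pi]
  intro i
  fin_cases i
  · exact contDiff_fst
  · exact contDiff_snd
  · exact contDiff_const

theorem AP_sm (h : SymConf c b) : Sm (AP c) := (h.temp.hφ 0).comp Axis1_emb
theorem AZ_sm (h : SymConf c b) : Sm (AZ c) := (h.temp.hφ 2).comp Axis1_emb
theorem AB_sm (h : SymConf c b) : Sm (AB c) := (h.temp.hA 2).comp Axis1_emb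

private lemma Axis1_mem {t : ℝ} (ht : t ∈ Ico 0 b) (r : ℝ) : (![t, r, 0] : Pt) ∈ hslab b := ht

private lemma Axis1_ref (t r : ℝ) : refPt ![t, r, 0] = ![t, r, 0] := by
  ext i
  fin_cases i <;> simp [refPt]

theorem phi1_axis (h : SymConf c b) {t : ℝ} (ht : t ∈ Ico 0 b) (r : ℝ) :
    c.φ ![t, r, 0] 1 = 0 ∧ c.A 1 ![t, r, 0] = 0 := by
  obtain ⟨h1, h2⟩ := h.refl _ (Axis1_mem ht r)
  have h3 := congrFun h1 1
  have h4 := h2 1
  simp only [Config.refl, Axis1_ref, Matrix.cons_val_one, Matrix.cons_val_zero] at h3 h4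
  constructor <;> linarith

theorem AP_AZ (h : SymConf c b) {t : ℝ} (ht : t ∈ Ico 0 b) (r : ℝ) :
    AP c t r ^ 2 + AZ c t r ^ 2 = 1 := by
  have h1 : ∀ p ∈ slab 0 b, c.φ p 0 ^ 2 + c.φ p 1 ^ 2 + c.φ p 2 ^ 2 = (fun _ => (1 : ℝ)) p := by
    intro p hp
    have := (h.temp.sol p hp).sphere
    simp only [dotProduct, Fin.sum_univ_three] at this
    simp only
    rw [← this]
    ring
  have hc : ∀ i, Continuous (fun p => c.φ p i) := fun i => (h.temp.hφ i).continuous
  have h2 := eq_hslab (F := fun p => c.φ p 0 ^ 2 + c.φ p 1 ^ 2 + c.φ p 2 ^ 2)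
    (G := fun _ => (1 : ℝ)) ((((hc 0).pow 2).add ((hc 1).pow 2)).add ((hc 2).pow 2))
    continuous_const h1 _ (Axis1_mem ht r)
  simp only [(phi1_axis h ht r).1] at h2
  simp only [AP, AZ]
  rw [← h2]
  ring

private lemma Axis1_rotpi (t r : ℝ) : rotPt (-1) 0 ![t, r, 0] = ![t, -r, 0] := by
  ext i
  fin_cases i <;> simp [rotPt]

private lemma Axis1_even (h : SymConf c b) {t : ℝ} (ht : t ∈ Ico 0 b) (r : ℝ) :
    AP c t (-r) = AP c t r ∧ AB c t (-r) = -AB c t r := by
  obtain ⟨h1, h2⟩ := h.rot Real.pi _ (Axis1_mem ht r)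
  have e1 : Real.cos (4 * Real.pi) = 1 := by
    rw [show 4 * Real.pi = ((2 : ℕ) : ℝ) * (2 * Real.pi) by push_cast; ring]
    exact Real.cos_nat_mul_two_pi 2
  have e2 : Real.sin (4 * Real.pi) = 0 := by
    have := Real.sin_nat_mul_pi 4
    exact_mod_cast this
  rw [Real.cos_pi, Real.sin_pi, e1, e2] at h1 h2
  have h3 := congrFun h1 0
  have h4 := h2 2
  simp only [Config.rot, Axis1_rotpi, Matrix.cons_val_zero, Matrix.cons_val_two, Matrix.tail_cons,
    Matrix.head_cons] at h3 h4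
  simp only [AP, AB]
  constructor <;> linarith

theorem axis_zero (h : SymConf c b) {t : ℝ} (ht : t ∈ Ico 0 b) :
    AP c t 0 = 0 ∧ AZ c t 0 = -1 ∧ AB c t 0 = 0 ∧ dr (AP c) t 0 = 0 := by
  have hAP0 : ∀ τ ∈ Ico 0 b, AP c τ 0 = 0 := by
    intro τ hτ
    obtain ⟨h1, -⟩ := h.rot (Real.pi / 4) _ (Axis1_mem hτ 0)
    have e0 : 4 * (Real.pi / 4) = Real.pi := by ring
    rw [e0, Real.cos_pi, Real.sin_pi] at h1
    have h3 := congrFun h1 0
    have e1 : ∀ x y : ℝ, rotPt x y ![τ, 0, 0] = ![τ, 0, 0] := by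
      intro x y
      ext i
      fin_cases i <;> simp [rotPt]
    simp only [Config.rot, e1, Matrix.cons_val_zero] at h3
    simp only [AP]
    linarith
  have hAZ : ∀ τ ∈ Ico 0 b, AZ c τ 0 ^ 2 = 1 := by
    intro τ hτ
    have := AP_AZ h hτ 0
    rw [hAP0 τ hτ] at this
    linarith
  refine ⟨hAP0 t ht, ?_, ?_, ?_⟩
  · have hpre : IsPreconnected (Ico 0 b) := isPreconnected_Ico
    have hcont : ContinuousOn (fun τ => AZ c τ 0) (Ico 0 b) :=
      ((AZ_sm h).cont_t 0).continuousOn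
    have key := hpre.eq_or_eq_neg_of_sq_eq (f := fun τ => AZ c τ 0) (g := fun _ => (-1 : ℝ))
      hcont continuousOn_const (fun τ hτ => by
        simp only [Pi.pow_apply]
        rw [hAZ τ hτ]; norm_num) (fun _ => by norm_num)
    have h0 : (0 : ℝ) ∈ Ico 0 b := ⟨le_rfl, lt_of_le_of_lt ht.1 ht.2⟩
    rcases key with key | key
    · exact key ht
    · exfalso
      have h1 := key h0
      have h2 : AZ c 0 0 = -1 := h.south
      simp only [Pi.neg_apply] at h1
      rw [h2] at h1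
      norm_num at h1
  · have := (Axis1_even h ht 0).2
    rw [neg_zero] at this
    linarith
  · have h1 := (AP_sm h).hasDerivAt_r t 0
    have h2 : HasDerivAt (fun r => AP c t (-r)) (-(dr (AP c) t 0)) 0 := by
      have h3 : HasDerivAt (AP c t) (dr (AP c) t 0) (-0) := by rw [neg_zero]; exact h1
      have h4 := h3.comp (0 : ℝ) (hasDerivAt_neg (0 : ℝ))
      rw [mul_neg, mul_one] at h4
      exact h4
    have h5 : (fun r => AP c t (-r)) = AP c t := by
      funext r
      exact (Axis1_even h ht r).1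
    rw [h5] at h2
    have := h1.unique h2
    linarith

/-- lift of the angle -/
def fh (c : Config) (t r : ℝ) : ℝ :=
  Real.pi + ∫ s in (0 : ℝ)..r, (AZ c t s * dr (AP c) t s - AP c t s * dr (AZ c) t s)

private def Axis1_G (c : Config) (t r : ℝ) : ℝ :=
  AZ c t r * dr (AP c) t r - AP c t r * dr (AZ c) t r

private lemma Axis1_G_sm (h : SymConf c b) : Sm (Axis1_G c) :=
  ((AZ_sm h).mul (AP_sm h).dr).sub ((AP_sm h).mul (AZ_sm h).dr)

theorem fh_sm (h : SymConf c b) : Sm (fh c) := by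
  have h1 : fh c = fun t r => Real.pi + r * ∫ s in (0 : ℝ)..1, Axis1_G c t (r * s) := by
    funext t r
    have := intervalIntegral.smul_integral_comp_mul_left (a := 0) (b := 1) (fun s => Axis1_G c t s) r
    rw [mul_zero, mul_one, smul_eq_mul] at this
    rw [this]
    rfl
  rw [h1]
  have h2 : ContDiff ℝ ∞ (fun q : (ℝ × ℝ) × ℝ => Axis1_G c q.1.1 (q.1.2 * q.2)) :=
    (Axis1_G_sm h).comp (g := fun p : ℝ × ℝ => Axis1_G c p.1 p.2)
      (f := fun q : (ℝ × ℝ) × ℝ => (q.1.1, q.1.2 * q.2)) (by fun_prop)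
  have h3 : Sm (fun t r => ∫ s in (0 : ℝ)..1, Axis1_G c t (r * s)) := contDiff_paramInt h2 0 1
  exact (Sm.const Real.pi).add (Sm.idr.mul h3)

theorem fh_zero (c : Config) (t : ℝ) : fh c t 0 = Real.pi := by
  simp [fh]

private lemma Axis1_dfh (h : SymConf c b) (t r : ℝ) :
    HasDerivAt (fh c t) (Axis1_G c t r) r := by
  have hc : Continuous (Axis1_G c t) := (Axis1_G_sm h).cont_r t
  exact (intervalIntegral.integral_hasDerivAt_right (hc.intervalIntegrable _ _)
    (hc.stronglyMeasurableAtFilter _ _) hc.continuousAt).const_add Real.pi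

theorem fh_r_zero (h : SymConf c b) {t : ℝ} (ht : t ∈ Ico 0 b) :
    dr (fh c) t 0 = 0 := by
  have h1 : dr (fh c) t 0 = Axis1_G c t 0 := (Axis1_dfh h t 0).deriv
  obtain ⟨e1, e2, -, e4⟩ := axis_zero h ht
  rw [h1, Axis1_G, e1, e2, e4]
  ring

theorem sin_fh (h : SymConf c b) {t : ℝ} (ht : t ∈ Ico 0 b) (r : ℝ) :
    Real.sin (fh c t r) = AP c t r ∧ Real.cos (fh c t r) = AZ c t r := by
  have hP := fun r => (AP_sm h).hasDerivAt_r t r
  have hZ := fun r => (AZ_sm h).hasDerivAt_r t r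
  have hF := fun r => Axis1_dfh h t r
  have hrel : ∀ r, AP c t r * dr (AP c) t r + AZ c t r * dr (AZ c) t r = 0 := by
    intro r
    have h1 := ((hP r).pow 2).add ((hZ r).pow 2)
    have h2 : (AP c t ^ 2 + AZ c t ^ 2 : ℝ → ℝ) = fun _ => 1 := by
      funext x
      exact AP_AZ h ht x
    rw [h2] at h1
    have h3 := h1.unique (hasDerivAt_const r (1 : ℝ))
    have e1 : (2 - 1 : ℕ) = 1 := rfl
    simp only [Nat.cast_ofNat, e1, pow_one] at h3
    linarith
  have hsq := fun r => AP_AZ h ht r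
  have k1 : ∀ r, AZ c t r * Axis1_G c t r = dr (AP c) t r := by
    intro r
    have e1 := hrel r
    have e2 := hsq r
    simp only [Axis1_G]
    linear_combination (-AP c t r) * e1 + dr (AP c) t r * e2
  have k2 : ∀ r, AP c t r * Axis1_G c t r = -dr (AZ c) t r := by
    intro r
    have e1 := hrel r
    have e2 := hsq r
    simp only [Axis1_G]
    linear_combination (AZ c t r) * e1 - dr (AZ c) t r * e2
  have hU : ∀ r, HasDerivAt (fun x => AP c t x * Real.cos (fh c t x) -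
      AZ c t x * Real.sin (fh c t x)) 0 r := by
    intro r
    have h1 := ((hP r).mul (hF r).cos).sub ((hZ r).mul (hF r).sin)
    refine h1.congr_deriv ?_
    have e1 := k1 r
    have e2 := k2 r
    linear_combination (-Real.cos (fh c t r)) * e1 + (-Real.sin (fh c t r)) * e2
  have hV : ∀ r, HasDerivAt (fun x => AP c t x * Real.sin (fh c t x) +
      AZ c t x * Real.cos (fh c t x)) 0 r := by
    intro r
    have h1 := ((hP r).mul (hF r).sin).add ((hZ r).mul (hF r).cos)
    refine h1.congr_deriv ?_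
    have e1 := k1 r
    have e2 := k2 r
    linear_combination (-Real.sin (fh c t r)) * e1 + (Real.cos (fh c t r)) * e2
  have hUc := is_const_of_deriv_eq_zero (fun x => (hU x).differentiableAt)
    (fun x => (hU x).deriv) r 0
  have hVc := is_const_of_deriv_eq_zero (fun x => (hV x).differentiableAt)
    (fun x => (hV x).deriv) r 0
  obtain ⟨z1, z2, -, -⟩ := axis_zero h ht
  simp only [z1, z2, fh_zero, Real.sin_pi, Real.cos_pi] at hUc hVc
  have hs := Real.sin_sq_add_cos_sq (fh c t r)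
  constructor
  · linear_combination (-Real.cos (fh c t r)) * hUc - Real.sin (fh c t r) * hVc +
      AP c t r * hs
  · linear_combination (Real.sin (fh c t r)) * hUc - Real.cos (fh c t r) * hVc +
      AZ c t r * hs

end

end H72GS
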