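import Pool.Agent.H72.GS.Axis1

/-!
# Axis2a: derivatives across the axis

Differentiate the rotation invariance in `β` at `0` at the point `(t,r,0)`, `r > 0`
(`φ(t, R_β x) = Rot(4β) φ(t,x)`, `A(t,R_β x) = R_β A(t,x)`): `r ∂_2 φ = 4 n × φ`,
`r² ∂_2² φ - r ∂_1 φ = 16 n×(n×φ)`, `r ∂_2 A₁ = -A₂`, `r ∂_2 A₂ = A₁ = 0`.  On the axis `φ₁ = 0`,
`A₁ = 0`, so also `∂_1 A₁ = 0`.
For the second derivative: `G(β) = φ_i(t, r cos β, r sin β)` has
`G'(β) = r (-sin β ∂_1 φ_i + cos β ∂_2 φ_i)`, `G''(0) = r² ∂_2² φ_i - r ∂_1 φ_i`.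
-/

namespace H72GS

open Set
open scoped ContDiff

variable {c : Config} {b : ℝ}

/-- the rotated axis point -/
noncomputable def Axis2a_g (t r β : ℝ) : Pt := ![t, r * Real.cos β, -(r * Real.sin β)]

theorem Axis2a_g_zero (t r : ℝ) : Axis2a_g t r 0 = ![t, r, 0] := by
  simp [Axis2a_g]

theorem Axis2a_rotPt (t r β : ℝ) :
    rotPt (Real.cos β) (Real.sin β) ![t, r, 0] = Axis2a_g t r β := by
  simp only [rotPt, Axis2a_g]
  funext i
  fin_cases i <;> simp <;> ring

theorem Axis2a_hd {u : Pt → ℝ} (hu : ContDiff ℝ ∞ u) (t r β : ℝ) :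
    HasDerivAt (fun β => u (Axis2a_g t r β))
      (-(r * Real.sin β) * pd 1 u (Axis2a_g t r β) -
        r * Real.cos β * pd 2 u (Axis2a_g t r β)) β := by
  have hg : HasDerivAt (fun β => Axis2a_g t r β)
      (![0, -(r * Real.sin β), -(r * Real.cos β)] : Pt) β := by
    rw [hasDerivAt_pi]
    intro i
    fin_cases i
    · simpa [Axis2a_g] using hasDerivAt_const β t
    · simpa [Axis2a_g] using (Real.hasDerivAt_cos β).const_mul r
    · have h0 : HasDerivAt (fun β => -(r * Real.sin β)) (-(r * Real.cos β)) β :=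
        ((Real.hasDerivAt_sin β).const_mul r).neg
      simpa [Axis2a_g] using h0
  have hd : HasFDerivAt u (fderiv ℝ u (Axis2a_g t r β)) (Axis2a_g t r β) :=
    ((ContDiff.differentiable hu (by simp)) _).hasFDerivAt
  have h := hd.comp_hasDerivAt β hg
  refine h.congr_deriv ?_
  have hv : (![0, -(r * Real.sin β), -(r * Real.cos β)] : Pt) =
      (-(r * Real.sin β)) • (Pi.single 1 1 : Pt) - (r * Real.cos β) • (Pi.single 2 1 : Pt) := by
    funext i
    fin_cases i <;> simp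
  rw [hv, map_sub, map_smul, map_smul]
  rfl

theorem Axis2a_mem {t r : ℝ} (ht : t ∈ Ico 0 b) : (![t, r, 0] : Pt) ∈ hslab b := ht

/-- second derivative at the axis -/
theorem Axis2a_hd2 {u : Pt → ℝ} (hu : ContDiff ℝ ∞ u) (t r : ℝ) :
    HasDerivAt (fun β => -(r * Real.sin β) * pd 1 u (Axis2a_g t r β) -
        r * Real.cos β * pd 2 u (Axis2a_g t r β))
      (r ^ 2 * pd 2 (pd 2 u) ![t, r, 0] - r * pd 1 u ![t, r, 0]) 0 := by
  have h1 := Axis2a_hd (pd_smooth hu 1) t r 0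
  have h2 := Axis2a_hd (pd_smooth hu 2) t r 0
  have h3 : HasDerivAt (fun β => -(r * Real.sin β)) (-(r * Real.cos 0)) 0 :=
    ((Real.hasDerivAt_sin 0).const_mul r).neg
  have h4 := (Real.hasDerivAt_cos 0).const_mul r
  refine ((h3.mul h1).sub (h4.mul h2)).congr_deriv ?_
  simp only [Real.sin_zero, Real.cos_zero, Axis2a_g_zero, mul_zero, neg_zero, zero_mul, mul_one,
    zero_sub, zero_add, add_zero, neg_mul]
  ring

theorem Axis2a_sin4 (β : ℝ) : HasDerivAt (fun β => Real.sin (4 * β)) (4 * Real.cos (4 * β)) β := by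
  have h := (Real.hasDerivAt_sin (4 * β)).comp β ((hasDerivAt_id β).const_mul 4)
  refine h.congr_deriv ?_
  simp; ring

theorem Axis2a_cos4 (β : ℝ) :
    HasDerivAt (fun β => Real.cos (4 * β)) (-(4 * Real.sin (4 * β))) β := by
  have h := (Real.hasDerivAt_cos (4 * β)).comp β ((hasDerivAt_id β).const_mul 4)
  refine h.congr_deriv ?_
  simp; ring

/-- invariance of `φ` at the axis point -/
theorem Axis2a_phi (h : SymConf c b) {t : ℝ} (ht : t ∈ Ico 0 b) (r β : ℝ) :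
    Real.cos (4 * β) * c.φ (Axis2a_g t r β) 0 - Real.sin (4 * β) * c.φ (Axis2a_g t r β) 1 =
      c.φ ![t, r, 0] 0 ∧
    Real.sin (4 * β) * c.φ (Axis2a_g t r β) 0 + Real.cos (4 * β) * c.φ (Axis2a_g t r β) 1 =
      c.φ ![t, r, 0] 1 ∧
    c.φ (Axis2a_g t r β) 2 = c.φ ![t, r, 0] 2 := by
  have h1 := (h.rot β ![t, r, 0] (Axis2a_mem ht)).1
  have e0 := congrFun h1 0
  have e1 := congrFun h1 1
  have e2 := congrFun h1 2
  simp only [Config.rot, Axis2a_rotPt, Matrix.cons_val_zero, Matrix.cons_val_one,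
    Matrix.cons_val] at e0 e1 e2
  exact ⟨e0, e1, e2⟩

theorem Axis2a_A (h : SymConf c b) {t : ℝ} (ht : t ∈ Ico 0 b) (r β : ℝ) :
    Real.cos β * c.A 1 (Axis2a_g t r β) - Real.sin β * c.A 2 (Axis2a_g t r β) =
      c.A 1 ![t, r, 0] ∧
    Real.sin β * c.A 1 (Axis2a_g t r β) + Real.cos β * c.A 2 (Axis2a_g t r β) =
      c.A 2 ![t, r, 0] := by
  have h1 := (h.rot β ![t, r, 0] (Axis2a_mem ht)).2
  have e1 := h1 1
  have e2 := h1 2
  simp only [Config.rot, Axis2a_rotPt, Matrix.cons_val_zero, Matrix.cons_val_one,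
    Matrix.cons_val] at e1 e2
  exact ⟨e1, e2⟩

/-- first derivative of the first relation -/
theorem Axis2a_first (h : SymConf c b) {t : ℝ} (ht : t ∈ Ico 0 b) (r β : ℝ) :
    -(4 * Real.sin (4 * β)) * c.φ (Axis2a_g t r β) 0 + Real.cos (4 * β) *
      (-(r * Real.sin β) * pd 1 (fun q => c.φ q 0) (Axis2a_g t r β) -
        r * Real.cos β * pd 2 (fun q => c.φ q 0) (Axis2a_g t r β)) -
      (4 * Real.cos (4 * β) * c.φ (Axis2a_g t r β) 1 + Real.sin (4 * β) *
      (-(r * Real.sin β) * pd 1 (fun q => c.φ q 1) (Axis2a_g t r β) -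
        r * Real.cos β * pd 2 (fun q => c.φ q 1) (Axis2a_g t r β))) = 0 := by
  have h1 := (Axis2a_cos4 β).mul (Axis2a_hd (h.temp.hφ 0) t r β)
  have h2 := (Axis2a_sin4 β).mul (Axis2a_hd (h.temp.hφ 1) t r β)
  have h3 := h1.sub h2
  have h4 : HasDerivAt (fun _ : ℝ => c.φ ![t, r, 0] 0) 0 β := hasDerivAt_const β _
  have h5 : (fun β => Real.cos (4 * β) * c.φ (Axis2a_g t r β) 0 -
      Real.sin (4 * β) * c.φ (Axis2a_g t r β) 1) = fun _ => c.φ ![t, r, 0] 0 := by
    funext β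
    exact (Axis2a_phi h ht r β).1
  have h6 := h3.unique (h4.congr_of_eventuallyEq (Filter.Eventually.of_forall fun β =>
    (Axis2a_phi h ht r β).1))
  exact h6

theorem cross_phi (h : SymConf c b) {t : ℝ} (ht : t ∈ Ico 0 b) {r : ℝ} (hr : 0 < r) :
    pd 2 (fun q => c.φ q 0) ![t, r, 0] = 0 ∧ r * pd 2 (fun q => c.φ q 1) ![t, r, 0] = 4 * AP c t r ∧
    pd 2 (fun q => c.φ q 2) ![t, r, 0] = 0 := by
  have hphi1 := (phi1_axis h ht r).1
  refine ⟨?_, ?_, ?_⟩
  · have h1 := Axis2a_first h ht r 0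
    simp only [mul_zero, Real.sin_zero, Real.cos_zero, Axis2a_g_zero, hphi1, neg_zero, zero_mul,
      zero_add, one_mul, zero_sub, mul_one, sub_zero, neg_eq_zero] at h1
    simpa [hr.ne'] using h1
  · have h1 := (Axis2a_sin4 0).mul (Axis2a_hd (h.temp.hφ 0) t r 0)
    have h2 := (Axis2a_cos4 0).mul (Axis2a_hd (h.temp.hφ 1) t r 0)
    have h3 := h1.add h2
    have h4 : HasDerivAt (fun _ : ℝ => c.φ ![t, r, 0] 1) 0 0 := hasDerivAt_const 0 _
    have h6 := h3.unique (h4.congr_of_eventuallyEq (Filter.Eventually.of_forall fun β =>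
      (Axis2a_phi h ht r β).2.1))
    simp only [mul_zero, Real.sin_zero, Real.cos_zero, Axis2a_g_zero, hphi1, neg_zero, zero_mul,
      zero_add, one_mul, zero_sub, mul_one, sub_zero, add_zero] at h6
    simp only [AP]
    linarith
  · have h1 := Axis2a_hd (h.temp.hφ 2) t r 0
    have h4 : HasDerivAt (fun _ : ℝ => c.φ ![t, r, 0] 2) 0 0 := hasDerivAt_const 0 _
    have h6 := h1.unique (h4.congr_of_eventuallyEq (Filter.Eventually.of_forall fun β =>
      (Axis2a_phi h ht r β).2.2))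
    simp only [Real.sin_zero, Real.cos_zero, Axis2a_g_zero, mul_zero, neg_zero, zero_mul, mul_one,
      zero_sub, neg_eq_zero] at h6
    simpa [hr.ne'] using h6

theorem Axis2a_dr {u : Pt → ℝ} (hu : ContDiff ℝ ∞ u) (t r : ℝ) :
    dr (fun t r => u ![t, r, 0]) t r = pd 1 u ![t, r, 0] := by
  have h := hasDerivAt_pd hu 1 ![t, 0, 0] r
  have e : ∀ x : ℝ, Function.update (![t, 0, 0] : Pt) 1 x = ![t, x, 0] := by
    intro x
    funext i
    fin_cases i <;> simp
  simp only [e] at h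
  exact h.deriv

theorem cross_phi2 (h : SymConf c b) {t : ℝ} (ht : t ∈ Ico 0 b) {r : ℝ} (hr : 0 < r) :
    r ^ 2 * pd 2 (pd 2 (fun q => c.φ q 0)) ![t, r, 0] = r * dr (AP c) t r - 16 * AP c t r ∧
    r ^ 2 * pd 2 (pd 2 (fun q => c.φ q 2)) ![t, r, 0] = r * dr (AZ c) t r := by
  have hphi1 := (phi1_axis h ht r).1
  have hd0 : dr (AP c) t r = pd 1 (fun q => c.φ q 0) ![t, r, 0] := Axis2a_dr (h.temp.hφ 0) t r
  have hd2 : dr (AZ c) t r = pd 1 (fun q => c.φ q 2) ![t, r, 0] := Axis2a_dr (h.temp.hφ 2) t r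
  constructor
  · have a1 := (Axis2a_sin4 0).const_mul 4
    have a2 := Axis2a_cos4 0
    have a3 := (Axis2a_cos4 0).const_mul 4
    have a4 := Axis2a_sin4 0
    have b0 := Axis2a_hd (h.temp.hφ 0) t r 0
    have b1 := Axis2a_hd2 (h.temp.hφ 0) t r
    have c0 := Axis2a_hd (h.temp.hφ 1) t r 0
    have c1 := Axis2a_hd2 (h.temp.hφ 1) t r
    have h3 := ((a1.neg.mul b0).add (a2.mul b1)).sub ((a3.mul c0).add (a4.mul c1))
    have h4 : HasDerivAt (fun _ : ℝ => (0 : ℝ)) 0 0 := hasDerivAt_const 0 _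
    have h6 := h3.unique (h4.congr_of_eventuallyEq (Filter.Eventually.of_forall fun β =>
      Axis2a_first h ht r β))
    have hp2 := (cross_phi h ht hr).2.1
    have hp1 := (cross_phi h ht hr).1
    simp only [mul_zero, Real.sin_zero, Real.cos_zero, Axis2a_g_zero, hphi1, neg_zero, zero_mul,
      zero_add, one_mul, zero_sub, mul_one, sub_zero, add_zero, hp1] at h6
    rw [hd0]
    simp only [AP] at hp2 ⊢
    linarith
  · have b1 := Axis2a_hd2 (h.temp.hφ 2) t r
    have hz : ∀ β, -(r * Real.sin β) * pd 1 (fun q => c.φ q 2) (Axis2a_g t r β) -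
        r * Real.cos β * pd 2 (fun q => c.φ q 2) (Axis2a_g t r β) = 0 := by
      intro β
      have h1 := Axis2a_hd (h.temp.hφ 2) t r β
      have h4 : HasDerivAt (fun _ : ℝ => c.φ ![t, r, 0] 2) 0 β := hasDerivAt_const β _
      exact h1.unique (h4.congr_of_eventuallyEq (Filter.Eventually.of_forall fun β =>
        (Axis2a_phi h ht r β).2.2))
    have h4 : HasDerivAt (fun _ : ℝ => (0 : ℝ)) 0 0 := hasDerivAt_const 0 _
    have h6 := b1.unique (h4.congr_of_eventuallyEq (Filter.Eventually.of_forall hz))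
    rw [hd2]
    linarith

theorem cross_A (h : SymConf c b) {t : ℝ} (ht : t ∈ Ico 0 b) {r : ℝ} (hr : 0 < r) :
    r * pd 2 (c.A 1) ![t, r, 0] = -AB c t r ∧ pd 2 (c.A 2) ![t, r, 0] = 0 ∧
    pd 1 (c.A 1) ![t, r, 0] = 0 := by
  have hA1 := (phi1_axis h ht r).2
  refine ⟨?_, ?_, ?_⟩
  · have h1 := (Real.hasDerivAt_cos 0).mul (Axis2a_hd (h.temp.hA 1) t r 0)
    have h2 := (Real.hasDerivAt_sin 0).mul (Axis2a_hd (h.temp.hA 2) t r 0)
    have h3 := h1.sub h2
    have h4 : HasDerivAt (fun _ : ℝ => c.A 1 ![t, r, 0]) 0 0 := hasDerivAt_const 0 _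
    have h6 := h3.unique (h4.congr_of_eventuallyEq (Filter.Eventually.of_forall fun β =>
      (Axis2a_A h ht r β).1))
    simp only [mul_zero, Real.sin_zero, Real.cos_zero, Axis2a_g_zero, hA1, neg_zero, zero_mul,
      zero_add, one_mul, zero_sub, mul_one, sub_zero, add_zero] at h6
    simp only [AB]
    linarith
  · have h1 := (Real.hasDerivAt_sin 0).mul (Axis2a_hd (h.temp.hA 1) t r 0)
    have h2 := (Real.hasDerivAt_cos 0).mul (Axis2a_hd (h.temp.hA 2) t r 0)
    have h3 := h1.add h2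
    have h4 : HasDerivAt (fun _ : ℝ => c.A 2 ![t, r, 0]) 0 0 := hasDerivAt_const 0 _
    have h6 := h3.unique (h4.congr_of_eventuallyEq (Filter.Eventually.of_forall fun β =>
      (Axis2a_A h ht r β).2))
    simp only [mul_zero, Real.sin_zero, Real.cos_zero, Axis2a_g_zero, hA1, neg_zero, zero_mul,
      zero_add, one_mul, zero_sub, mul_one, sub_zero, add_zero, neg_eq_zero] at h6
    simpa [hr.ne'] using h6
  · rw [← Axis2a_dr (h.temp.hA 1) t r]
    have : (fun x => c.A 1 ![t, x, 0]) = fun _ => 0 := by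
      funext x
      exact (phi1_axis h ht x).2
    simp [dr, this]

end H72GS
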