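import Pool.Agent.H72.GS.Axis2a

/-!
# Axis2b: the radial equations on the axis

The equations hold at points with `t > 0` (`solvesAt_iff`, `DD_zero`, `DD_two`); the case `t = 0` by
continuity in `t` (both sides are continuous functions of `t` by `Sm`).
`D_1D_1φ = (AP_rr, *, AZ_rr)`,
`D_2D_2φ = (AP_r/r - (4 + r AB)² AP/r², *, AZ_r/r)` (`cross_phi2`, `cross_phi`, `cross_A`); second
component of `φ × W = 0`: `AZ W₀ - AP W₂ = 0`.  Maxwell `μ = 2`: `-∂_t²A₂ + ∂_1 F_{12} = J_2`,
`F_{12} = AB_r + AB/r` on the axis (for `r > 0`), `J_2 = AP² (4 + r AB)/r`.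
`pd 0`, `pd 1` on the axis are `dt`, `dr` of `AP, AZ, AB`.
`fh_eq`: with `AP = sin fh`, `AZ = cos fh` for `t ∈ [0,b)`: `AZ AP_tt - AP AZ_tt = fh_tt` etc. (first for
`t > 0`, then `t = 0` by continuity).
-/

namespace H72GS

open Set
open scoped ContDiff

variable {c : Config} {b : ℝ}

theorem Axis2b_ax_dt {u : Pt → ℝ} (hu : ContDiff ℝ ∞ u) (t r : ℝ) :
    pd 0 u ![t, r, 0] = dt (fun t r => u ![t, r, 0]) t r := by
  have h := hasDerivAt_pd hu 0 ![t, r, 0] t
  have e : ∀ x : ℝ, Function.update (![t, r, 0] : Pt) 0 x = ![x, r, 0] := by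
    intro x
    funext i
    fin_cases i <;> simp [Function.update]
  simp only [e] at h
  exact h.deriv.symm

theorem Axis2b_ax_dr {u : Pt → ℝ} (hu : ContDiff ℝ ∞ u) (t r : ℝ) :
    pd 1 u ![t, r, 0] = dr (fun t r => u ![t, r, 0]) t r := by
  have h := hasDerivAt_pd hu 1 ![t, r, 0] r
  have e : ∀ x : ℝ, Function.update (![t, r, 0] : Pt) 1 x = ![t, x, 0] := by
    intro x
    funext i
    fin_cases i <;> simp [Function.update]
  simp only [e] at h
  exact h.deriv.symm

theorem Axis2b_ax_dtt {u : Pt → ℝ} (hu : ContDiff ℝ ∞ u) (t r : ℝ) :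
    pd 0 (pd 0 u) ![t, r, 0] = dt (dt (fun t r => u ![t, r, 0])) t r := by
  rw [Axis2b_ax_dt (pd_smooth hu 0)]
  have : (fun t r => pd 0 u ![t, r, 0]) = dt (fun t r => u ![t, r, 0]) := by
    funext t r
    exact Axis2b_ax_dt hu t r
  rw [this]

theorem Axis2b_ax_drr {u : Pt → ℝ} (hu : ContDiff ℝ ∞ u) (t r : ℝ) :
    pd 1 (pd 1 u) ![t, r, 0] = dr (dr (fun t r => u ![t, r, 0])) t r := by
  rw [Axis2b_ax_dr (pd_smooth hu 1)]
  have : (fun t r => pd 1 u ![t, r, 0]) = dr (fun t r => u ![t, r, 0]) := by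
    funext t r
    exact Axis2b_ax_dr hu t r
  rw [this]

/-- a continuous function vanishing on `(0,b)` vanishes on `[0,b)` -/
theorem Axis2b_ext {F : ℝ → ℝ} (hF : Continuous F) {b : ℝ} (h : ∀ t ∈ Ioo 0 b, F t = 0) :
    ∀ t ∈ Ico 0 b, F t = 0 := by
  intro t ht
  have hb : (0 : ℝ) ≠ b := (lt_of_le_of_lt ht.1 ht.2).ne
  have h1 : Ioo 0 b ⊆ {t | F t = 0} := fun s hs => h s hs
  have h2 := (isClosed_eq hF continuous_const).closure_subset_iff.2 h1
  rw [closure_Ioo hb] at h2
  exact h2 ⟨ht.1, ht.2.le⟩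

theorem Axis2b_mem {t r : ℝ} (ht : t ∈ Ioo 0 b) : (![t, r, 0] : Pt) ∈ slab 0 b :=
  ⟨by simpa using ht.1, by simpa using ht.2⟩

theorem phi_eq_axis (h : SymConf c b) {t : ℝ} (ht : t ∈ Ico 0 b) {r : ℝ} (hr : 0 < r) :
    AZ c t r * (r ^ 2 * dt (dt (AP c)) t r - r ^ 2 * dr (dr (AP c)) t r - r * dr (AP c) t r
        + (4 + r * AB c t r) ^ 2 * AP c t r)
      - AP c t r * (r ^ 2 * dt (dt (AZ c)) t r - r ^ 2 * dr (dr (AZ c)) t r - r * dr (AZ c) t r
        - r ^ 2 * (1 - AZ c t r)) = 0 := by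
  revert t
  have hAP := AP_sm h
  have hAZ := AZ_sm h
  have hAB := AB_sm h
  refine Axis2b_ext (F := fun t => AZ c t r * (r ^ 2 * dt (dt (AP c)) t r
        - r ^ 2 * dr (dr (AP c)) t r - r * dr (AP c) t r + (4 + r * AB c t r) ^ 2 * AP c t r)
      - AP c t r * (r ^ 2 * dt (dt (AZ c)) t r - r ^ 2 * dr (dr (AZ c)) t r - r * dr (AZ c) t r
        - r ^ 2 * (1 - AZ c t r))) ?_ ?_
  · have h1 := hAP.cont_t r
    have h2 := hAZ.cont_t r
    have h3 := hAB.cont_t r
    have h4 := hAP.dt.dt.cont_t r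
    have h5 := hAP.dr.dr.cont_t r
    have h6 := hAP.dr.cont_t r
    have h7 := hAZ.dt.dt.cont_t r
    have h8 := hAZ.dr.dr.cont_t r
    have h9 := hAZ.dr.cont_t r
    fun_prop
  · intro t ht
    have ht' : t ∈ Ico 0 b := ⟨ht.1.le, ht.2⟩
    have hs := (solvesAt_iff c _).1 (h.temp.sol _ (Axis2b_mem (r := r) ht))
    have hφ := h.temp.hφ
    have hA := h.temp.hA
    have e1 := hs.2.1.2.1
    obtain ⟨hφ1, hA1⟩ := phi1_axis h ht' r
    have hA0 := h.temp.A0 ![t, r, 0]
    obtain ⟨c1, c2, c3⟩ := cross_phi h ht' hr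
    obtain ⟨d1, d2⟩ := cross_phi2 h ht' hr
    have w00 : c.D 0 (c.D 0 c.φ) ![t, r, 0] 0 = dt (dt (AP c)) t r := by
      rw [DD_zero hφ hA, hA0, hφ1, Axis2b_ax_dtt (hφ 0)]
      simp only [mul_zero, zero_mul, sub_zero, ne_eq, OfNat.ofNat_ne_zero, not_false_eq_true,
        zero_pow]
      rfl
    have w10 : c.D 1 (c.D 1 c.φ) ![t, r, 0] 0 = dr (dr (AP c)) t r := by
      rw [DD_zero hφ hA, hA1, hφ1, Axis2b_ax_drr (hφ 0)]
      simp only [mul_zero, zero_mul, sub_zero, ne_eq, OfNat.ofNat_ne_zero, not_false_eq_true,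
        zero_pow]
      rfl
    have w20 : r ^ 2 * c.D 2 (c.D 2 c.φ) ![t, r, 0] 0 =
        r * dr (AP c) t r - (4 + r * AB c t r) ^ 2 * AP c t r := by
      rw [DD_zero hφ hA, hφ1]
      have e3 : c.A 2 ![t, r, 0] = AB c t r := rfl
      have e4 : c.φ ![t, r, 0] 0 = AP c t r := rfl
      rw [e3, e4]
      linear_combination d1 - 2 * r * AB c t r * c2
    have w02 : c.D 0 (c.D 0 c.φ) ![t, r, 0] 2 = dt (dt (AZ c)) t r := by
      rw [DD_two, Axis2b_ax_dtt (hφ 2)]
      rfl
    have w12 : c.D 1 (c.D 1 c.φ) ![t, r, 0] 2 = dr (dr (AZ c)) t r := by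
      rw [DD_two, Axis2b_ax_drr (hφ 2)]
      rfl
    have w22 : r ^ 2 * c.D 2 (c.D 2 c.φ) ![t, r, 0] 2 = r * dr (AZ c) t r := by
      rw [DD_two]
      exact d2
    have e5 : c.φ ![t, r, 0] 2 = AZ c t r := rfl
    have e6 : c.φ ![t, r, 0] 0 = AP c t r := rfl
    unfold Wf at e1
    rw [w00, w10, w02, w12, e5, e6] at e1
    simp only [if_true, show ((0 : Fin 3) = 2) = False by simp, if_false, sub_zero] at e1
    linear_combination r ^ 2 * e1 + AZ c t r * w20 - AP c t r * w22

theorem A_eq_axis (h : SymConf c b) {t : ℝ} (ht : t ∈ Ico 0 b) {r : ℝ} (hr : 0 < r) :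
    r ^ 2 * dt (dt (AB c)) t r = r ^ 2 * dr (dr (AB c)) t r + r * dr (AB c) t r - AB c t r
      - r * (4 + r * AB c t r) * AP c t r ^ 2 := by
  rw [← sub_eq_zero]
  revert t
  have hAP := AP_sm h
  have hAB := AB_sm h
  refine Axis2b_ext (F := fun t => r ^ 2 * dt (dt (AB c)) t r - (r ^ 2 * dr (dr (AB c)) t r
      + r * dr (AB c) t r - AB c t r - r * (4 + r * AB c t r) * AP c t r ^ 2)) ?_ ?_
  · have h1 := hAP.cont_t r
    have h3 := hAB.cont_t r
    have h4 := hAB.dt.dt.cont_t r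
    have h5 := hAB.dr.dr.cont_t r
    have h6 := hAB.dr.cont_t r
    fun_prop
  · intro t ht
    have ht' : t ∈ Ico 0 b := ⟨ht.1.le, ht.2⟩
    have hs := (solvesAt_iff c _).1 (h.temp.sol _ (Axis2b_mem (r := r) ht))
    have hφ := h.temp.hφ
    have hA := h.temp.hA
    have e1 := hs.2.2 2
    obtain ⟨hφ1, hA1⟩ := phi1_axis h ht' r
    obtain ⟨c1, c2, c3⟩ := cross_phi h ht' hr
    have hA0 : c.A 0 = fun _ => 0 := funext fun p => h.temp.A0 p
    have z0 : ∀ (μ : Fin 3) (p : Pt), pd μ (fun _ => (0 : ℝ)) p = 0 := by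
      intro μ p
      simp [pd]
    -- F 2 0
    have f20 : pd 0 (c.F 2 0) ![t, r, 0] = - dt (dt (AB c)) t r := by
      have e : c.F 2 0 = fun q => (fun _ => (0 : ℝ)) q - pd 0 (c.A 2) q := by
        funext q
        unfold Config.F
        rw [hA0, z0]
      rw [e, pd_sub contDiff_const (pd_smooth (hA 2) 0), z0, Axis2b_ax_dtt (hA 2), zero_sub]
      rfl
    have f22 : pd 2 (c.F 2 2) ![t, r, 0] = 0 := by
      have e : c.F 2 2 = fun _ => 0 := by
        funext q
        unfold Config.F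
        ring
      rw [e, z0]
    have f21 : r ^ 2 * pd 1 (c.F 2 1) ![t, r, 0] =
        - r * dr (AB c) t r + AB c t r - r ^ 2 * dr (dr (AB c)) t r := by
      have e : c.F 2 1 = fun q => pd 2 (c.A 1) q - pd 1 (c.A 2) q := rfl
      rw [e, pd_sub (pd_smooth (hA 1) 2) (pd_smooth (hA 2) 1), Axis2b_ax_drr (hA 2)]
      have e2 : (fun t r => c.A 2 ![t, r, 0]) = AB c := rfl
      rw [e2]
      -- the function X
      set X : ℝ → ℝ := fun s => pd 2 (c.A 1) ![t, s, 0] with hX
      have hXd : HasDerivAt X (pd 1 (pd 2 (c.A 1)) ![t, r, 0]) r := by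
        have hh := hasDerivAt_pd (pd_smooth (hA 1) 2) 1 ![t, r, 0] r
        have e : ∀ x : ℝ, Function.update (![t, r, 0] : Pt) 1 x = ![t, x, 0] := by
          intro x
          funext i
          fin_cases i <;> simp [Function.update]
        simp only [e] at hh
        exact hh
      have h1 : HasDerivAt (fun s => s * X s) (1 * X r + r * pd 1 (pd 2 (c.A 1)) ![t, r, 0]) r :=
        (hasDerivAt_id r).mul hXd
      have h2 : HasDerivAt (fun s => - AB c t s) (-(dr (AB c) t r)) r :=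
        (hAB.hasDerivAt_r t r).neg
      have h3 : (fun s => s * X s) =ᶠ[nhds r] fun s => - AB c t s := by
        filter_upwards [lt_mem_nhds hr] with s hs
        exact (cross_A h ht' hs).1
      have h4 : HasDerivAt (fun s => s * X s) (-(dr (AB c) t r)) r := h2.congr_of_eventuallyEq h3
      have h5 := h1.unique h4
      have h6 : r * X r = - AB c t r := (cross_A h ht' hr).1
      linear_combination r * h5 - h6
    have d2 : r * c.D 2 c.φ ![t, r, 0] 1 = (4 + r * AB c t r) * AP c t r := by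
      rw [D_one]
      have e3 : c.A 2 ![t, r, 0] = AB c t r := rfl
      have e4 : c.φ ![t, r, 0] 0 = AP c t r := rfl
      rw [e3, e4]
      linear_combination c2
    have e6 : c.φ ![t, r, 0] 0 = AP c t r := rfl
    rw [f20, f22, hφ1, e6] at e1
    show r ^ 2 * dt (dt (AB c)) t r - (r ^ 2 * dr (dr (AB c)) t r
      + r * dr (AB c) t r - AB c t r - r * (4 + r * AB c t r) * AP c t r ^ 2) = 0
    linear_combination (-r ^ 2) * e1 - f21 - r * AP c t r * d2

/-- equation for the angle -/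
theorem fh_eq (h : SymConf c b) {t : ℝ} (ht : t ∈ Ico 0 b) {r : ℝ} (hr : 0 < r) :
    r ^ 2 * dt (dt (fh c)) t r = r ^ 2 * dr (dr (fh c)) t r + r * dr (fh c) t r
      - (4 + r * AB c t r) ^ 2 * Real.sin (fh c t r) * Real.cos (fh c t r)
      - r ^ 2 * (1 - Real.cos (fh c t r)) * Real.sin (fh c t r) := by
  rw [← sub_eq_zero]
  revert t
  have hf := fh_sm h
  have hAB := AB_sm h
  refine Axis2b_ext (F := fun t => r ^ 2 * dt (dt (fh c)) t r - (r ^ 2 * dr (dr (fh c)) t r
      + r * dr (fh c) t r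
      - (4 + r * AB c t r) ^ 2 * Real.sin (fh c t r) * Real.cos (fh c t r)
      - r ^ 2 * (1 - Real.cos (fh c t r)) * Real.sin (fh c t r))) ?_ ?_
  · have h1 := hf.cont_t r
    have h3 := hAB.cont_t r
    have h4 := hf.dt.dt.cont_t r
    have h5 := hf.dr.dr.cont_t r
    have h6 := hf.dr.cont_t r
    have h7 : Continuous fun t => Real.sin (fh c t r) := Real.continuous_sin.comp h1
    have h8 : Continuous fun t => Real.cos (fh c t r) := Real.continuous_cos.comp h1
    fun_prop
  · intro t ht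
    have ht' : t ∈ Ico 0 b := ⟨ht.1.le, ht.2⟩
    have key := phi_eq_axis h ht' hr
    -- derivatives of sine and cosine of the angle
    set f := fh c with hfdef
    have hfs : Sm f := hf
    have S_t : ∀ t r, dt (fun t r => Real.sin (f t r)) t r = Real.cos (f t r) * dt f t r :=
      fun t r => (hfs.hasDerivAt_t t r).sin.deriv
    have C_t : ∀ t r, dt (fun t r => Real.cos (f t r)) t r = -Real.sin (f t r) * dt f t r :=
      fun t r => (hfs.hasDerivAt_t t r).cos.deriv
    have S_r : ∀ t r, dr (fun t r => Real.sin (f t r)) t r = Real.cos (f t r) * dr f t r :=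
      fun t r => (hfs.hasDerivAt_r t r).sin.deriv
    have C_r : ∀ t r, dr (fun t r => Real.cos (f t r)) t r = -Real.sin (f t r) * dr f t r :=
      fun t r => (hfs.hasDerivAt_r t r).cos.deriv
    have S_tt : dt (dt (fun t r => Real.sin (f t r))) t r =
        -Real.sin (f t r) * dt f t r * dt f t r + Real.cos (f t r) * dt (dt f) t r := by
      have e : dt (fun t r => Real.sin (f t r)) = fun t r => Real.cos (f t r) * dt f t r := by
        funext t r
        exact S_t t r
      rw [e]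
      exact ((hfs.hasDerivAt_t t r).cos.mul (hfs.dt.hasDerivAt_t t r)).deriv
    have C_tt : dt (dt (fun t r => Real.cos (f t r))) t r =
        (-Real.cos (f t r) * dt f t r) * dt f t r + -Real.sin (f t r) * dt (dt f) t r := by
      have e : dt (fun t r => Real.cos (f t r)) = fun t r => -Real.sin (f t r) * dt f t r := by
        funext t r
        exact C_t t r
      rw [e]
      have := ((hfs.hasDerivAt_t t r).sin.neg.mul (hfs.dt.hasDerivAt_t t r)).deriv
      rw [← neg_mul] at this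
      exact this
    have S_rr : dr (dr (fun t r => Real.sin (f t r))) t r =
        -Real.sin (f t r) * dr f t r * dr f t r + Real.cos (f t r) * dr (dr f) t r := by
      have e : dr (fun t r => Real.sin (f t r)) = fun t r => Real.cos (f t r) * dr f t r := by
        funext t r
        exact S_r t r
      rw [e]
      exact ((hfs.hasDerivAt_r t r).cos.mul (hfs.dr.hasDerivAt_r t r)).deriv
    have C_rr : dr (dr (fun t r => Real.cos (f t r))) t r =
        (-Real.cos (f t r) * dr f t r) * dr f t r + -Real.sin (f t r) * dr (dr f) t r := by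
      have e : dr (fun t r => Real.cos (f t r)) = fun t r => -Real.sin (f t r) * dr f t r := by
        funext t r
        exact C_r t r
      rw [e]
      have := ((hfs.hasDerivAt_r t r).sin.neg.mul (hfs.dr.hasDerivAt_r t r)).deriv
      rw [← neg_mul] at this
      exact this
    -- identification near t
    have loc_t : ∀ u v : ℝ → ℝ → ℝ, (∀ s ∈ Ioo 0 b, ∀ r, u s r = v s r) →
        ∀ s ∈ Ioo 0 b, ∀ r, dt u s r = dt v s r := by
      intro u v huv s hs r
      have : (fun x => u x r) =ᶠ[nhds s] fun x => v x r := by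
        filter_upwards [isOpen_Ioo.mem_nhds hs] with x hx
        exact huv x hx r
      exact this.deriv_eq
    have loc_r : ∀ u v : ℝ → ℝ → ℝ, (∀ s ∈ Ioo 0 b, ∀ r, u s r = v s r) →
        ∀ s ∈ Ioo 0 b, ∀ r, dr u s r = dr v s r := by
      intro u v huv s hs r
      have : u s = v s := funext fun x => huv s hs x
      unfold dr
      rw [this]
    have eP : ∀ s ∈ Ioo 0 b, ∀ r, AP c s r = (fun t r => Real.sin (f t r)) s r :=
      fun s hs r => (sin_fh h ⟨hs.1.le, hs.2⟩ r).1.symm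
    have eZ : ∀ s ∈ Ioo 0 b, ∀ r, AZ c s r = (fun t r => Real.cos (f t r)) s r :=
      fun s hs r => (sin_fh h ⟨hs.1.le, hs.2⟩ r).2.symm
    have k1 := loc_t _ _ (loc_t _ _ eP) t ht r
    have k2 := loc_t _ _ (loc_t _ _ eZ) t ht r
    have k3 := loc_r _ _ (loc_r _ _ eP) t ht r
    have k4 := loc_r _ _ (loc_r _ _ eZ) t ht r
    have k5 := loc_r _ _ eP t ht r
    have k6 := loc_r _ _ eZ t ht r
    rw [S_tt] at k1
    rw [C_tt] at k2
    rw [S_rr] at k3
    rw [C_rr] at k4
    rw [S_r] at k5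
    rw [C_r] at k6
    have eP' := eP t ht r
    have eZ' := eZ t ht r
    simp only at eP' eZ'
    rw [k1, k2, k3, k4, k5, k6, eP', eZ'] at key
    have hsc := Real.sin_sq_add_cos_sq (f t r)
    show r ^ 2 * dt (dt f) t r - (r ^ 2 * dr (dr f) t r
      + r * dr f t r
      - (4 + r * AB c t r) ^ 2 * Real.sin (f t r) * Real.cos (f t r)
      - r ^ 2 * (1 - Real.cos (f t r)) * Real.sin (f t r)) = 0
    linear_combination key - (r ^ 2 * dt (dt f) t r - r ^ 2 * dr (dr f) t r - r * dr f t r) * hsc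

end H72GS
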