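import Pool.Agent.H72.GS.GaugeA
import Pool.Agent.H72.GS.ParamInt

/-!
# GaugeB: transformation to the temporal gauge

* `theta_smooth`: the `θ` of `StartsFrom` is smooth because its derivatives
  `∂_i θ = c.A i (0,x) - a_i(x)` are (`contDiff_infty_iff_fderiv`).
* `to_temporal`: with `θ` from `StartsFrom`, `Λ(t,x) = -θ(x) - ∫_0^t A_0(s,x) ds
  = -θ(x) - t ∫_0^1 A_0(t s, x) ds` (smooth by `contDiff_paramInt`, `∂_t Λ = -A_0`).
  `c' = c.gauge Λ`.  At `t = 0`: `φ' = Rot(θ) Rot(-θ) φ_0`, `D_0 φ' = φ_1`, and `A'_0 = 0` gives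
  `∂_t φ' = D_0 φ'`; `A'_i = 0`; `∂_t A'_i = F'_{0i} + ∂_i A'_0 = F_{0i} = 0`.
-/

namespace H72GS

open Set
open scoped ContDiff

noncomputable section

/-- projection to the space coordinates -/
private def GaugeB_P : Pt →L[ℝ] ℝ × ℝ :=
  (ContinuousLinearMap.proj (R := ℝ) (φ := fun _ : Fin 3 => ℝ) 1).prod
    (ContinuousLinearMap.proj (R := ℝ) (φ := fun _ : Fin 3 => ℝ) 2)

private lemma GaugeB_P_apply (p : Pt) : GaugeB_P p = (p 1, p 2) := rfl

private lemma GaugeB_pd_comp {Θ : ℝ × ℝ → ℝ} (h : Differentiable ℝ Θ) (μ : Fin 3) (p : Pt) :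
    pd μ (fun q => Θ (q 1, q 2)) p = fderiv ℝ Θ (p 1, p 2) (GaugeB_P (Pi.single μ 1)) := by
  have h1 : HasFDerivAt (fun q : Pt => Θ (GaugeB_P q))
      ((fderiv ℝ Θ (GaugeB_P p)).comp GaugeB_P) p :=
    ((h (GaugeB_P p)).hasFDerivAt).comp p GaugeB_P.hasFDerivAt
  have h2 := h1.fderiv
  show fderiv ℝ (fun q : Pt => Θ (GaugeB_P q)) p (Pi.single μ 1) = _
  rw [h2]
  rfl

private lemma GaugeB_P0 : GaugeB_P (Pi.single 0 1) = 0 := by
  rw [GaugeB_P_apply]
  simp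

private lemma GaugeB_P1 : GaugeB_P (Pi.single 1 1) = (1, 0) := by
  rw [GaugeB_P_apply]
  simp

private lemma GaugeB_P2 : GaugeB_P (Pi.single 2 1) = (0, 1) := by
  rw [GaugeB_P_apply]
  simp

private lemma GaugeB_pt0_smooth : ContDiff ℝ ∞ (fun z : ℝ × ℝ => pt0 z.1 z.2) := by
  rw [contDiff_pi]
  intro i
  fin_cases i
  · exact contDiff_const
  · exact contDiff_fst
  · exact contDiff_snd

/-- a function on the plane whose derivatives are restrictions of smooth functions is smooth -/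
theorem theta_smooth {θ : ℝ → ℝ → ℝ} (hθ : Differentiable ℝ (fun z : ℝ × ℝ => θ z.1 z.2))
    {G1 G2 : Pt → ℝ} (h1 : ContDiff ℝ ∞ G1) (h2 : ContDiff ℝ ∞ G2)
    (e1 : ∀ x y, pd 1 (fun p => θ (p 1) (p 2)) (pt0 x y) = G1 (pt0 x y))
    (e2 : ∀ x y, pd 2 (fun p => θ (p 1) (p 2)) (pt0 x y) = G2 (pt0 x y)) :
    ContDiff ℝ ∞ (fun z : ℝ × ℝ => θ z.1 z.2) := by
  set Θ : ℝ × ℝ → ℝ := fun z => θ z.1 z.2 with hΘ
  have f1 : ∀ x y, fderiv ℝ Θ (x, y) (1, 0) = G1 (pt0 x y) := by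
    intro x y
    rw [← e1 x y, ← GaugeB_P1]
    exact (GaugeB_pd_comp hθ 1 (pt0 x y)).symm
  have f2 : ∀ x y, fderiv ℝ Θ (x, y) (0, 1) = G2 (pt0 x y) := by
    intro x y
    rw [← e2 x y, ← GaugeB_P2]
    exact (GaugeB_pd_comp hθ 2 (pt0 x y)).symm
  have f3 : fderiv ℝ Θ = fun z => G1 (pt0 z.1 z.2) • ContinuousLinearMap.fst ℝ ℝ ℝ +
      G2 (pt0 z.1 z.2) • ContinuousLinearMap.snd ℝ ℝ ℝ := by
    funext z
    obtain ⟨x, y⟩ := z
    ext
    · simp only [ContinuousLinearMap.comp_apply, ContinuousLinearMap.inl_apply]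
      rw [f1]
      simp
    · simp only [ContinuousLinearMap.comp_apply, ContinuousLinearMap.inr_apply]
      rw [f2]
      simp
  rw [contDiff_infty_iff_fderiv]
  refine ⟨hθ, ?_⟩
  rw [f3]
  exact ((h1.comp GaugeB_pt0_smooth).smul contDiff_const).add
    ((h2.comp GaugeB_pt0_smooth).smul contDiff_const)

private lemma GaugeB_Rot (t : ℝ) (V : Fin 3 → ℝ) : Rot t (Rot (-t) V) = V := by
  have h := Real.sin_sq_add_cos_sq t
  funext i
  fin_cases i
  · simp only [Rot, Real.cos_neg, Real.sin_neg, Fin.zero_eta, Matrix.cons_val_zero,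
      Matrix.cons_val_one]
    linear_combination (V 0) * h
  · simp only [Rot, Real.cos_neg, Real.sin_neg, Fin.mk_one, Matrix.cons_val_zero,
      Matrix.cons_val_one]
    linear_combination (V 1) * h
  · rfl

private lemma GaugeB_Rot_smooth {L : Pt → ℝ} {V : Pt → Fin 3 → ℝ} (hL : ContDiff ℝ ∞ L)
    (hV : ∀ i, ContDiff ℝ ∞ (fun p => V p i)) (i : Fin 3) :
    ContDiff ℝ ∞ (fun p => Rot (-L p) (V p) i) := by
  have hc : ContDiff ℝ ∞ (fun p => Real.cos (-L p)) := Real.contDiff_cos.comp hL.neg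
  have hs : ContDiff ℝ ∞ (fun p => Real.sin (-L p)) := Real.contDiff_sin.comp hL.neg
  fin_cases i
  · exact (hc.mul (hV 0)).sub (hs.mul (hV 1))
  · exact (hs.mul (hV 0)).add (hc.mul (hV 1))
  · exact hV 2

/-- the time integral of `A_0` -/
private def GaugeB_I (A : Pt → ℝ) (p : Pt) : ℝ :=
  ∫ s in (0 : ℝ)..1, A ![s * p 0, p 1, p 2]

private lemma GaugeB_I_smooth {A : Pt → ℝ} (hA : ContDiff ℝ ∞ A) : ContDiff ℝ ∞ (GaugeB_I A) := by
  have h1 : ContDiff ℝ ∞ (fun q : Pt × ℝ => (![q.2 * q.1 0, q.1 1, q.1 2] : Pt)) := by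
    have hp : ∀ i : Fin 3, ContDiff ℝ ∞ (fun q : Pt × ℝ => q.1 i) := fun i =>
      (contDiff_apply ℝ ℝ i).comp contDiff_fst
    rw [contDiff_pi]
    intro i
    fin_cases i
    · exact contDiff_snd.mul (hp 0)
    · exact hp 1
    · exact hp 2
  exact contDiff_paramInt (F := fun q : Pt × ℝ => A ![q.2 * q.1 0, q.1 1, q.1 2]) (hA.comp h1) 0 1

private lemma GaugeB_coord (i : Fin 3) : ContDiff ℝ ∞ (fun p : Pt => p i) :=
  contDiff_apply ℝ ℝ i

private lemma GaugeB_pd_coord (μ : Fin 3) (p : Pt) :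
    pd μ (fun q : Pt => q 0) p = (Pi.single μ (1 : ℝ) : Pt) 0 := by
  have : HasFDerivAt (fun q : Pt => q 0)
      (ContinuousLinearMap.proj (R := ℝ) (φ := fun _ : Fin 3 => ℝ) 0) p :=
    (ContinuousLinearMap.proj (R := ℝ) (φ := fun _ : Fin 3 => ℝ) 0).hasFDerivAt
  unfold pd
  rw [this.fderiv]
  rfl

private lemma GaugeB_pd_J {A : Pt → ℝ} (hA : ContDiff ℝ ∞ A) (p : Pt) :
    pd 0 (fun q => q 0 * GaugeB_I A q) p = A p := by
  have hJ : ContDiff ℝ ∞ (fun q : Pt => q 0 * GaugeB_I A q) :=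
    (GaugeB_coord 0).mul (GaugeB_I_smooth hA)
  have h1 := hasDerivAt_pd hJ 0 p (p 0)
  have e : ∀ x : ℝ, (fun q : Pt => q 0 * GaugeB_I A q) (Function.update p 0 x) =
      ∫ u in (0 : ℝ)..x, A ![u, p 1, p 2] := by
    intro x
    show (Function.update p 0 x) 0 * GaugeB_I A (Function.update p 0 x) = _
    unfold GaugeB_I
    have a0 : (Function.update p 0 x : Pt) 0 = x := by simp
    have a1 : (Function.update p 0 x : Pt) 1 = p 1 := by simp
    have a2 : (Function.update p 0 x : Pt) 2 = p 2 := by simp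
    rw [a0, a1, a2]
    have := intervalIntegral.mul_integral_comp_mul_right (f := fun u => A ![u, p 1, p 2])
      (a := 0) (b := 1) (c := x)
    simpa using this
  have hc : Continuous (fun u : ℝ => A ![u, p 1, p 2]) := by
    refine hA.continuous.comp ?_
    refine continuous_pi fun i => ?_
    fin_cases i
    · exact continuous_id
    · exact continuous_const
    · exact continuous_const
  have h2 : HasDerivAt (fun x : ℝ => ∫ u in (0 : ℝ)..x, A ![u, p 1, p 2]) (A ![p 0, p 1, p 2])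
      (p 0) := intervalIntegral.integral_hasDerivAt_right (hc.intervalIntegrable _ _)
        (hc.stronglyMeasurableAtFilter _ _) hc.continuousAt
  have h3 : (fun x : ℝ => (fun q : Pt => q 0 * GaugeB_I A q) (Function.update p 0 x)) =
      fun x : ℝ => ∫ u in (0 : ℝ)..x, A ![u, p 1, p 2] := funext e
  rw [h3] at h1
  have h4 := h1.unique h2
  have e5 : Function.update p 0 (p 0) = p := Function.update_eq_self 0 p
  have e6 : (![p 0, p 1, p 2] : Pt) = p := by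
    funext i
    fin_cases i <;> rfl
  rw [e5, e6] at h4
  exact h4

private lemma GaugeB_pd_zero (μ : Fin 3) (p : Pt) : pd μ (fun _ => (0 : ℝ)) p = 0 := by
  unfold pd
  simp

theorem to_temporal {c : Config} {b : ℝ} (hφ : ∀ i, ContDiff ℝ ∞ (fun p => c.φ p i))
    (hA : ∀ μ, ContDiff ℝ ∞ (c.A μ)) (hsol : ∀ p ∈ slab 0 b, c.SolvesAt p) {d : InitData}
    (hd : d.Smooth) (h0 : ∀ μ x y, d.a0 μ x y = 0) (h1 : ∀ μ x y, d.a1 μ x y = 0)
    (hst : c.StartsFrom d) :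
    ∃ c' : Config, c'.Temporal b ∧
      (∀ x y i, c'.φ (pt0 x y) i = d.φ0 x y i ∧
        pd 0 (fun p => c'.φ p i) (pt0 x y) = d.φ1 x y i) ∧
      (∀ μ x y, c'.A μ (pt0 x y) = 0 ∧ pd 0 (c'.A μ) (pt0 x y) = 0) := by
  obtain ⟨θ, hθ, hs⟩ := hst
  have hdA : ∀ μ, d.toConfig.A μ = fun _ => 0 := by
    intro μ
    funext p
    show d.a0 μ (p 1) (p 2) + p 0 * d.a1 μ (p 1) (p 2) = 0
    rw [h0, h1]
    ring
  have hth : ∀ i : Fin 3, i ≠ 0 → ∀ x y, pd i (fun p => θ (p 1) (p 2)) (pt0 x y) =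
      c.A i (pt0 x y) := by
    intro i hi x y
    have := ((hs x y).2.2 i hi).1
    rw [hdA i] at this
    rw [this]
    ring
  have hθs : ContDiff ℝ ∞ (fun z : ℝ × ℝ => θ z.1 z.2) :=
    theta_smooth hθ (hA 1) (hA 2) (hth 1 (by decide)) (hth 2 (by decide))
  have hθ3 : ContDiff ℝ ∞ (fun p : Pt => θ (p 1) (p 2)) :=
    hθs.comp ((GaugeB_coord 1).prodMk (GaugeB_coord 2))
  have hJ : ContDiff ℝ ∞ (fun q : Pt => q 0 * GaugeB_I (c.A 0) q) :=
    (GaugeB_coord 0).mul (GaugeB_I_smooth (hA 0))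
  have hzero : ContDiff ℝ ∞ (fun _ : Pt => (0 : ℝ)) := contDiff_const
  set L : Pt → ℝ := fun p => (0 - θ (p 1) (p 2)) - p 0 * GaugeB_I (c.A 0) p with hL
  have hLs : ContDiff ℝ ∞ L := (hzero.sub hθ3).sub hJ
  have pdL : ∀ μ p, pd μ L p = (0 - pd μ (fun p : Pt => θ (p 1) (p 2)) p) -
      pd μ (fun q : Pt => q 0 * GaugeB_I (c.A 0) q) p := by
    intro μ p
    have e1 := pd_sub (hzero.sub hθ3) hJ μ p
    have e2 := pd_sub hzero hθ3 μ p
    rw [GaugeB_pd_zero] at e2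
    rw [← e2]
    exact e1
  have pd0θ : ∀ p, pd 0 (fun p : Pt => θ (p 1) (p 2)) p = 0 := by
    intro p
    have := GaugeB_pd_comp (Θ := fun z : ℝ × ℝ => θ z.1 z.2) hθ 0 p
    rw [GaugeB_P0, map_zero] at this
    exact this
  have hL0 : ∀ x y, L (pt0 x y) = -θ x y := by
    intro x y
    show (0 - θ x y) - 0 * GaugeB_I (c.A 0) (pt0 x y) = _
    ring
  -- the new configuration
  have hA0 : ∀ p, (c.gauge L).A 0 p = 0 := by
    intro p
    show c.A 0 p + pd 0 L p = 0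
    rw [pdL, pd0θ, GaugeB_pd_J (hA 0)]
    ring
  have hA0f : (c.gauge L).A 0 = fun _ => 0 := funext hA0
  have hAi : ∀ i : Fin 3, i ≠ 0 → ∀ x y, (c.gauge L).A i (pt0 x y) = 0 := by
    intro i hi x y
    show c.A i (pt0 x y) + pd i L (pt0 x y) = 0
    rw [pdL, hth i hi]
    have e1 := pd_mul (GaugeB_coord 0) (GaugeB_I_smooth (hA 0)) i (pt0 x y)
    rw [GaugeB_pd_coord] at e1
    have e2 : (Pi.single i (1 : ℝ) : Pt) 0 = 0 := by
      rw [Pi.single_apply, if_neg (fun h => hi h.symm)]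
    have e3 : pt0 x y 0 = 0 := rfl
    rw [e2, e3] at e1
    have e4 : pd i (fun q : Pt => q 0 * GaugeB_I (c.A 0) q) (pt0 x y) = 0 := by
      rw [e1]; ring
    rw [e4]
    ring
  refine ⟨c.gauge L, ⟨?_, ?_, hA0, ?_⟩, ?_, ?_⟩
  · exact fun i => GaugeB_Rot_smooth hLs hφ i
  · exact fun μ => (hA μ).add (pd_smooth hLs μ)
  · exact fun p hp => gauge_solves hLs hφ hA (hsol p hp)
  · intro x y i
    have hx := hs x y
    constructor
    · show Rot (-L (pt0 x y)) (c.φ (pt0 x y)) i = d.φ0 x y i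
      rw [hL0, neg_neg, hx.1, GaugeB_Rot]
      show d.φ0 x y i + 0 * d.φ1 x y i = d.φ0 x y i
      ring
    · have e1 := congrFun (gauge_D (c := c) hLs hφ 0 (pt0 x y)) i
      rw [hL0, neg_neg, hx.2.1, GaugeB_Rot] at e1
      have e2 : (c.gauge L).D 0 (fun q => Rot (-L q) (c.φ q)) (pt0 x y) i =
          pd 0 (fun p => (c.gauge L).φ p i) (pt0 x y) := by
        show pd 0 (fun q => Rot (-L q) (c.φ q) i) (pt0 x y) + (c.gauge L).A 0 (pt0 x y) * _ = _
        rw [hA0]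
        rw [zero_mul, add_zero]
        rfl
      rw [← e2, e1]
      show pd 0 (fun p => d.φ0 (p 1) (p 2) i + p 0 * d.φ1 (p 1) (p 2) i) (pt0 x y) +
        d.toConfig.A 0 (pt0 x y) * _ = _
      rw [hdA 0, zero_mul, add_zero]
      have s0 : ContDiff ℝ ∞ (fun p : Pt => d.φ0 (p 1) (p 2) i) :=
        (hd.φ0 i).comp ((GaugeB_coord 1).prodMk (GaugeB_coord 2))
      have s1 : ContDiff ℝ ∞ (fun p : Pt => d.φ1 (p 1) (p 2) i) :=
        (hd.φ1 i).comp ((GaugeB_coord 1).prodMk (GaugeB_coord 2))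
      rw [pd_add s0 ((GaugeB_coord 0).mul s1), pd_mul (GaugeB_coord 0) s1, GaugeB_pd_coord]
      have z0 : pd 0 (fun p : Pt => d.φ0 (p 1) (p 2) i) (pt0 x y) = 0 := by
        have := GaugeB_pd_comp (Θ := fun z : ℝ × ℝ => d.φ0 z.1 z.2 i)
          ((hd.φ0 i).differentiable (by simp)) 0 (pt0 x y)
        rw [GaugeB_P0, map_zero] at this
        exact this
      rw [z0]
      have e3 : (Pi.single (0 : Fin 3) (1 : ℝ) : Pt) 0 = 1 := by simp
      have e4 : pt0 x y 0 = 0 := rfl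
      have e5 : pt0 x y 1 = x := rfl
      have e6 : pt0 x y 2 = y := rfl
      rw [e3, e4, e5, e6]
      ring
  · intro μ x y
    by_cases hμ : μ = 0
    · subst hμ
      refine ⟨hA0 _, ?_⟩
      rw [hA0f]
      exact GaugeB_pd_zero 0 _
    · refine ⟨hAi μ hμ x y, ?_⟩
      have e1 := gauge_F (c := c) hLs hA 0 μ (pt0 x y)
      rw [((hs x y).2.2 μ hμ).2] at e1
      have e2 : d.toConfig.F 0 μ (pt0 x y) = 0 := by
        show pd 0 (d.toConfig.A μ) (pt0 x y) - pd μ (d.toConfig.A 0) (pt0 x y) = 0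
        rw [hdA μ, hdA 0, GaugeB_pd_zero, GaugeB_pd_zero]
        ring
      rw [e2] at e1
      have e3 : (c.gauge L).F 0 μ (pt0 x y) = pd 0 ((c.gauge L).A μ) (pt0 x y) -
        pd μ ((c.gauge L).A 0) (pt0 x y) := rfl
      rw [e3, hA0f, GaugeB_pd_zero, sub_zero] at e1
      exact e1

end

end H72GS
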