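import Pool.Agent.H72.GS.Comp

/-!
# Glob: cut off in time

Let `T' < b < T`.  Choose a smooth `κ : ℝ → ℝ` with `κ = 1` on a neighbourhood of `[0,b]` and
`tsupport κ ⊆ (-ε, T)` (`Real.smoothTransition` or `exists_contDiff...`), and put
`φ' p i = κ(p 0) φ p i`, `A' μ p = κ(p 0) A μ p`: globally smooth (near points outside the slab it is
`0`), equal to `c` on the slab `(-δ, b+δ)`.  `SolvesAt` and `StartsFrom` only depend on the germ:
use `Filter.EventuallyEq.fderiv_eq` (twice for the second derivatives).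
-/

namespace H72GS

open Set
open scoped ContDiff

/-- the coordinate derivative depends only on the germ -/
theorem Glob_pd {u v : Pt → ℝ} {S : Set Pt} (hS : IsOpen S) (h : ∀ p ∈ S, u p = v p) (μ : Fin 3) :
    ∀ p ∈ S, pd μ u p = pd μ v p := by
  intro p hp
  have h1 : u =ᶠ[nhds p] v := by
    filter_upwards [hS.mem_nhds hp] with q hq using h q hq
  unfold pd
  rw [h1.fderiv_eq]

theorem Glob_D {c c' : Config} {S : Set Pt} (hS : IsOpen S)
    (hA : ∀ p ∈ S, ∀ μ, c'.A μ p = c.A μ p) {V V' : Pt → Fin 3 → ℝ} (hV : ∀ p ∈ S, V' p = V p)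
    (μ : Fin 3) : ∀ p ∈ S, c'.D μ V' p = c.D μ V p := by
  intro p hp
  funext i
  unfold Config.D
  rw [Glob_pd hS (u := fun q => V' q i) (v := fun q => V q i) (fun q hq => by rw [hV q hq]) μ p hp,
    hA p hp, hV p hp]

theorem Glob_F {c c' : Config} {S : Set Pt} (hS : IsOpen S)
    (hA : ∀ p ∈ S, ∀ μ, c'.A μ p = c.A μ p) (μ ν : Fin 3) : ∀ p ∈ S, c'.F μ ν p = c.F μ ν p := by
  intro p hp
  unfold Config.F
  rw [Glob_pd hS (fun q hq => hA q hq ν) μ p hp, Glob_pd hS (fun q hq => hA q hq μ) ν p hp]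

/-- `SolvesAt` depends only on the germ -/
theorem SolvesAt_congr {c c' : Config} {S : Set Pt} (hS : IsOpen S) (hφ : ∀ p ∈ S, c'.φ p = c.φ p)
    (hA : ∀ p ∈ S, ∀ μ, c'.A μ p = c.A μ p) {p : Pt} (hp : p ∈ S) (h : c.SolvesAt p) :
    c'.SolvesAt p := by
  have h1 : ∀ μ, ∀ q ∈ S, c'.D μ c'.φ q = c.D μ c.φ q := fun μ => Glob_D hS hA hφ μ
  refine ⟨?_, ?_, ?_⟩
  · rw [hφ p hp]
    exact h.sphere
  · have h2 : ∀ μ, c'.D μ (c'.D μ c'.φ) p = c.D μ (c.D μ c.φ) p := fun μ =>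
      Glob_D hS hA (h1 μ) μ p hp
    simp only [h2, hφ p hp]
    exact h.phiEq
  · intro μ
    have h2 : ∀ ν, pd ν (c'.F μ ν) p = pd ν (c.F μ ν) p := fun ν =>
      Glob_pd hS (Glob_F hS hA μ ν) ν p hp
    simp only [h2, h1 μ p hp, hφ p hp]
    exact h.maxwell μ

theorem Glob_isOpen_slab (a b : ℝ) : IsOpen (slab a b) := by
  have h : slab a b = (fun p : Pt => p 0) ⁻¹' Ioo a b := rfl
  rw [h]
  exact isOpen_Ioo.preimage (continuous_apply 0)

theorem StartsFrom_congr {c c' : Config} {a b : ℝ} (ha : a < 0) (hb : 0 < b)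
    (hφ : ∀ p ∈ slab a b, c'.φ p = c.φ p) (hA : ∀ p ∈ slab a b, ∀ μ, c'.A μ p = c.A μ p)
    {d : InitData} (h : c.StartsFrom d) : c'.StartsFrom d := by
  obtain ⟨θ, hθ, h⟩ := h
  refine ⟨θ, hθ, fun x y => ?_⟩
  obtain ⟨h1, h2, h3⟩ := h x y
  have hS := Glob_isOpen_slab a b
  have hp : pt0 x y ∈ slab a b := ⟨by simpa [pt0] using ha, by simpa [pt0] using hb⟩
  refine ⟨?_, ?_, fun i hi => ⟨?_, ?_⟩⟩
  · rw [hφ _ hp, h1]
  · rw [Glob_D hS hA hφ 0 _ hp, h2]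
  · rw [hA _ hp, (h3 i hi).1]
  · rw [Glob_F hS hA 0 i _ hp, (h3 i hi).2]

/-- cut off in time of a function that is smooth in a slab -/
theorem Glob_cut {u : Pt → ℝ} {a b : ℝ} {κ : ℝ → ℝ} (hκ : ContDiff ℝ ∞ κ)
    (hs : tsupport κ ⊆ Ioo a b) (hu : ContDiffOn ℝ ∞ u (slab a b)) :
    ContDiff ℝ ∞ (fun p => κ (p 0) * u p) := by
  rw [contDiff_iff_contDiffAt]
  intro p
  by_cases hp : p ∈ slab a b
  · have h1 : ContDiffAt ℝ ∞ u p := hu.contDiffAt ((Glob_isOpen_slab a b).mem_nhds hp)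
    have h2 : ContDiff ℝ ∞ (fun q : Pt => κ (q 0)) := hκ.comp (contDiff_apply ℝ ℝ 0)
    exact h2.contDiffAt.mul h1
  · have h1 : p 0 ∉ tsupport κ := fun h => hp (hs h)
    have h2 : ∀ᶠ q : Pt in nhds p, κ (q 0) = 0 := by
      have h3 : ∀ᶠ t in nhds (p 0), κ t = 0 := notMem_tsupport_iff_eventuallyEq.1 h1
      exact (continuous_apply (0 : Fin 3)).continuousAt.eventually h3
    have h3 : (fun q : Pt => κ (q 0) * u q) =ᶠ[nhds p] fun _ => (0 : ℝ) := by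
      filter_upwards [h2] with q hq
      rw [hq, zero_mul]
    exact contDiffAt_const.congr_of_eventuallyEq h3

theorem Glob_bump {ε T b : ℝ} (hε : 0 < ε) (hb : 0 < b) (hbT : b < T) :
    ∃ κ : ℝ → ℝ, ContDiff ℝ ∞ κ ∧ tsupport κ ⊆ Ioo (-ε) T ∧
      ∀ t ∈ Ioo (-(ε / 2)) b, κ t = 1 := by
  set η := min (ε / 4) ((T - b) / 2) with hη
  have hη0 : 0 < η := lt_min (by linarith) (by linarith)
  have hη1 : η ≤ ε / 4 := min_le_left _ _
  have hη2 : η ≤ (T - b) / 2 := min_le_right _ _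
  let f : ContDiffBump ((b - ε / 2) / 2) :=
    { rIn := (b + ε / 2) / 2
      rOut := (b + ε / 2) / 2 + η
      rIn_pos := by linarith
      rIn_lt_rOut := by linarith }
  refine ⟨f, f.contDiff, ?_, fun t ht => ?_⟩
  · rw [f.tsupport_eq, Real.closedBall_eq_Icc]
    intro t ht
    have h1 : (b - ε / 2) / 2 - ((b + ε / 2) / 2 + η) ≤ t := ht.1
    have h2 : t ≤ (b - ε / 2) / 2 + ((b + ε / 2) / 2 + η) := ht.2
    constructor <;> linarith
  · apply f.one_of_mem_closedBall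
    rw [Real.closedBall_eq_Icc]
    change t ∈ Icc ((b - ε / 2) / 2 - (b + ε / 2) / 2) ((b - ε / 2) / 2 + (b + ε / 2) / 2)
    constructor <;> linarith [ht.1, ht.2]

theorem glob {c : Config} {d : InitData} {T T' : ℝ} (hT' : 0 < T') (hTT : T' < T)
    (h : IsSolutionFrom d T c) :
    ∃ (c' : Config) (b : ℝ), T' < b ∧ (∀ i, ContDiff ℝ ∞ (fun p => c'.φ p i)) ∧
      (∀ μ, ContDiff ℝ ∞ (c'.A μ)) ∧ (∀ p ∈ slab 0 b, c'.SolvesAt p) ∧ c'.StartsFrom d := by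
  obtain ⟨⟨ε, hε, hsm⟩, hsol, hst⟩ := h
  obtain ⟨κ, hκ, hκs, hκ1⟩ := Glob_bump (b := (T' + T) / 2) hε (by linarith)
    (show (T' + T) / 2 < T by linarith)
  let c' : Config :=
    { φ := fun p i => κ (p 0) * c.φ p i
      A := fun μ p => κ (p 0) * c.A μ p }
  have hφ : ∀ p ∈ slab (-(ε / 2)) ((T' + T) / 2), c'.φ p = c.φ p := by
    intro p hp
    funext i
    change κ (p 0) * c.φ p i = c.φ p i
    rw [hκ1 (p 0) hp, one_mul]
  have hA : ∀ p ∈ slab (-(ε / 2)) ((T' + T) / 2), ∀ μ, c'.A μ p = c.A μ p := by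
    intro p hp μ
    change κ (p 0) * c.A μ p = c.A μ p
    rw [hκ1 (p 0) hp, one_mul]
  refine ⟨c', (T' + T) / 2, by linarith, fun i => ?_, fun μ => ?_, fun p hp => ?_, ?_⟩
  · exact Glob_cut hκ hκs (hsm.1 i)
  · exact Glob_cut hκ hκs (hsm.2 μ)
  · refine SolvesAt_congr (Glob_isOpen_slab _ _) hφ hA ⟨by linarith [hp.1], hp.2⟩ (hsol p ⟨hp.1, ?_⟩)
    linarith [hp.2]
  · exact StartsFrom_congr (by linarith) (by linarith) hφ hA hst

end H72GS
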