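import Pool.Agent.H72.GS.K

/-!
# Gauged sigma model: time slices of an equivariant solution and the functionals

`Pre` collects the functions of `r` attached to an equivariant configuration at a fixed time:
angle `f`, `a` (angular potential, `μ = 4 + a`), `g = f_t`, `e = a_t / r`,
`w = f_r + μ sin f / r`, `y = a_r / r + 1 - cos f`, the time derivatives `wt, gt, yt`, the
`r`-derivatives `wr, yr`, and the quotients `w1 = w / r`, `g1 = g / r`, `s1 = sin f / r`.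
`IsSlice R1 p` are the relations between them; everything vanishes at `r = R1`.
-/

namespace H72GS

open Set intervalIntegral

noncomputable section

/-- functions of `r` at a fixed time -/
structure Pre where
  f : ℝ → ℝ
  a : ℝ → ℝ
  g : ℝ → ℝ
  e : ℝ → ℝ
  w : ℝ → ℝ
  y : ℝ → ℝ
  wt : ℝ → ℝ
  wr : ℝ → ℝ
  gt : ℝ → ℝ
  yt : ℝ → ℝ
  yr : ℝ → ℝ
  w1 : ℝ → ℝ
  g1 : ℝ → ℝ
  s1 : ℝ → ℝ

/-- `A = 1 + μ² - 2 μ cos f` -/
def Pre.A (p : Pre) (r : ℝ) : ℝ :=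
  1 + (4 + p.a r) ^ 2 - 2 * (4 + p.a r) * Real.cos (p.f r)

/-- first order energy -/
def Pre.En (p : Pre) (R1 : ℝ) : ℝ :=
  ∫ r in (0 : ℝ)..R1, r * (p.g r ^ 2 + p.e r ^ 2 + p.w r ^ 2 + p.y r ^ 2)

/-- second order energy -/
def Pre.X (p : Pre) (R1 : ℝ) : ℝ :=
  ∫ r in (0 : ℝ)..R1, r * (p.wt r ^ 2 + p.wr r ^ 2
    + (p.A r + r ^ 2 * (1 - Real.cos (p.f r))) * p.w1 r ^ 2)

/-- time derivative of `X` -/
def Pre.dX (p : Pre) (R1 : ℝ) : ℝ :=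
  ∫ r in (0 : ℝ)..R1, (2 * (4 + p.a r) * Real.sin (p.f r) * p.g r * r * p.w1 r ^ 2
    + 2 * ((4 + p.a r) - Real.cos (p.f r)) * p.e r * p.w r ^ 2
    + r * Real.sin (p.f r) * p.g r * p.w r ^ 2
    + 2 * p.wt r * ((4 + p.a r) * Real.sin (p.f r) * (p.w r ^ 2 - p.g r ^ 2)
      + 2 * r * Real.cos (p.f r) * (p.e r * p.g r - p.w r * p.y r)))

/-- correction term -/
def Pre.D (p : Pre) (R1 : ℝ) : ℝ :=
  ∫ r in (0 : ℝ)..R1, p.w r * (4 + p.a r) * Real.sin (p.f r) * p.g r ^ 2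

/-- time derivative of `D` -/
def Pre.dD (p : Pre) (R1 : ℝ) : ℝ :=
  ∫ r in (0 : ℝ)..R1, (p.wt r * (4 + p.a r) * Real.sin (p.f r) * p.g r ^ 2
    + p.w r * (r * p.e r * Real.sin (p.f r) * p.g r ^ 2
      + (4 + p.a r) * Real.cos (p.f r) * p.g r ^ 3
      + 2 * (4 + p.a r) * Real.sin (p.f r) * p.g r * p.gt r))

/-- Morawetz functional with scale `L` -/
def Pre.M (p : Pre) (R1 L : ℝ) : ℝ :=
  ∫ r in (0 : ℝ)..R1, p.wt r * (r ^ 2 / (r + L) * p.wr r + r / (2 * (r + L)) * p.w r)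

/-- coefficient of `w1²` in the derivative of `M` -/
def Pre.m3 (p : Pre) (L r : ℝ) : ℝ :=
  (1 / 4) * r ^ 2 * (r - L) / (r + L) ^ 3
    + (1 / 2) * ((2 * ((4 + p.a r) - Real.cos (p.f r)) * r ^ 2 * (p.y r - 1 + Real.cos (p.f r))
        + 2 * (4 + p.a r) * Real.sin (p.f r) * (r * p.w r - (4 + p.a r) * Real.sin (p.f r))
        - 2 * p.A r
        + r ^ 2 * Real.sin (p.f r) * (r * p.w r - (4 + p.a r) * Real.sin (p.f r))) * (r / (r + L))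
      + (r * p.A r + r ^ 3 * (1 - Real.cos (p.f r))) * (L / (r + L) ^ 2))

/-- time derivative of `M` along a time dependent scale with value `L` and derivative `L'` -/
def Pre.dM (p : Pre) (R1 L L' : ℝ) : ℝ :=
  ∫ r in (0 : ℝ)..R1, (-(1 / 2) * (r * L / (r + L) ^ 2) * (p.wt r ^ 2 + p.wr r ^ 2)
    + p.m3 L r * p.w1 r ^ 2
    + ((4 + p.a r) * Real.sin (p.f r) * (p.w r ^ 2 - p.g r ^ 2)
        + 2 * r * Real.cos (p.f r) * (p.e r * p.g r - p.w r * p.y r))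
      * (r / (r + L) * p.wr r + p.w r / (2 * (r + L)))
    - L' * (r / (r + L) ^ 2) * (r * p.wt r * p.wr r + (1 / 2) * p.wt r * p.w r))

/-- local part of the second order energy -/
def Pre.Xl (p : Pre) (L : ℝ) : ℝ :=
  ∫ r in (0 : ℝ)..L, r * (p.wt r ^ 2 + p.wr r ^ 2 + p.w1 r ^ 2)

/-- size of the soliton -/
def Pre.N (p : Pre) (R1 : ℝ) : ℝ :=
  ∫ r in (0 : ℝ)..R1, r * Th (p.f r) * Real.sin (p.f r)

/-- momentum -/
def Pre.P (p : Pre) (R1 : ℝ) : ℝ :=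
  ∫ r in (0 : ℝ)..R1, r * p.g r * Th (p.f r)

/-- time derivative of `N` -/
def Pre.dN (p : Pre) (R1 : ℝ) : ℝ :=
  ∫ r in (0 : ℝ)..R1, r * p.g r * (2 * Th (p.f r) * Real.cos (p.f r) - Xi (p.f r))

/-- time derivative of `P` -/
def Pre.dP (p : Pre) (R1 : ℝ) : ℝ :=
  ∫ r in (0 : ℝ)..R1, (r * Thd (p.f r) * (p.g r ^ 2 - p.w r ^ 2)
    - (4 + p.a r) * p.w r * Xi (p.f r) - r * p.y r * Real.sin (p.f r) * Th (p.f r))

/-- second order energy of the gauge part -/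
def Pre.Ey (p : Pre) (R1 : ℝ) : ℝ :=
  ∫ r in (0 : ℝ)..R1, (1 / 2) * r * (p.yt r ^ 2 + p.yr r ^ 2 + Real.sin (p.f r) ^ 2 * p.y r ^ 2)

/-- time derivative of `Ey` -/
def Pre.dEy (p : Pre) (R1 : ℝ) : ℝ :=
  ∫ r in (0 : ℝ)..R1, (r * Real.sin (p.f r) * Real.cos (p.f r) * p.g r * p.y r ^ 2
    + r * p.yt r * Real.cos (p.f r) * (p.g r ^ 2 - p.w r ^ 2))

/-- relations at a fixed time -/
structure IsSlice (R1 : ℝ) (p : Pre) : Prop where
  R1pos : 0 < R1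
  R1le : R1 ≤ 1 / 1000
  R1ge : 1 / 10 ^ 50 ≤ R1
  cf : Continuous p.f
  ca : Continuous p.a
  cg : Continuous p.g
  ce : Continuous p.e
  cw : Continuous p.w
  cy : Continuous p.y
  cwt : Continuous p.wt
  cwr : Continuous p.wr
  cgt : Continuous p.gt
  cyt : Continuous p.yt
  cyr : Continuous p.yr
  cw1 : Continuous p.w1
  cg1 : Continuous p.g1
  cs1 : Continuous p.s1
  df : ∀ r, 0 < r → HasDerivAt p.f (p.w r - (4 + p.a r) * Real.sin (p.f r) / r) r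
  da : ∀ r, 0 < r → HasDerivAt p.a (r * (p.y r - 1 + Real.cos (p.f r))) r
  dg : ∀ r, 0 < r → HasDerivAt p.g
    (p.wt r - p.e r * Real.sin (p.f r) - (4 + p.a r) * Real.cos (p.f r) * p.g r / r) r
  dw : ∀ r, HasDerivAt p.w (p.wr r) r
  dy : ∀ r, HasDerivAt p.y (p.yr r) r
  de : ∀ r, HasDerivAt (fun x => x * p.e x) (r * (p.yt r - p.g r * Real.sin (p.f r))) r
  hgt : ∀ r, 0 ≤ r → p.gt r = p.wr r + (1 - (4 + p.a r) * Real.cos (p.f r)) * p.w1 r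
    - p.y r * Real.sin (p.f r)
  hw1 : ∀ r, p.w r = r * p.w1 r
  hg1 : ∀ r, p.g r = r * p.g1 r
  hs1 : ∀ r, Real.sin (p.f r) = r * p.s1 r
  f0 : p.f 0 = Real.pi
  a0 : p.a 0 = 0
  fR : p.f R1 = 0
  gR : p.g R1 = 0
  eR : p.e R1 = 0
  wR : p.w R1 = 0
  yR : p.y R1 = 0

/-- bootstrap hypotheses at a fixed time; `om` is the collapse rate -/
structure Hyp (R1 : ℝ) (p : Pre) (om : ℝ) : Prop where
  en : p.En R1 ≤ eps ^ 2
  Npos : 0 < p.N R1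
  hP : p.P R1 = -4 * om * p.N R1
  hom : 10 ^ 60 ≤ om
  h3 : 1 ≤ om ^ 3 * p.N R1
  hEy : p.Ey R1 ≤ om
  hX : p.X R1 ≤ Gam ^ 2 * om ^ 4 * p.N R1

end

end H72GS
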