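import Pool.Agent.H72.GS.Api
import Pool.Agent.H72.GS.Pre

/-!
# Rad: smooth equivariant solutions, and the functions attached to them

`Rad T R0`: `f, al` globally smooth, `a = r al`, the radial equations hold for `t ∈ [0,T]`, `r > 0`:
`f_tt = f_rr + f_r/r - μ² sin f cos f / r² - (1 - cos f) sin f`,
`a_tt = a_rr - a_r / r - μ sin² f`, `μ = 4 + a`; the data are vacuum for `r ≥ R0`, `al = al_t = 0` at
`t = 0`.

Derived functions: `s = sin f`, `c = cos f`, `S1 = s/r`, `μ`, `g = f_t`, `e = al_t`,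
`w = f_r + μ S1`, `y = a_r/r + 1 - c = al1 + al_r + 1 - c`, `al1 = al/r`, `w1 = w/r`, `g1 = g/r`,
`e1 = e/r`.
-/

namespace H72GS

open Set MeasureTheory intervalIntegral

noncomputable section

/-- smooth equivariant solution on `[0,T]`, vacuum initially for `r ≥ R0` -/
structure Rad (T R0 : ℝ) where
  f : ℝ → ℝ → ℝ
  al : ℝ → ℝ → ℝ
  hT : 0 < T
  hR0 : 0 < R0
  sf : Sm f
  sal : Sm al
  f0 : ∀ t, f t 0 = Real.pi
  fr0 : ∀ t, dr f t 0 = 0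
  al0 : ∀ t, al t 0 = 0
  eqf : ∀ t ∈ Icc 0 T, ∀ r > 0, r ^ 2 * dt (dt f) t r = r ^ 2 * dr (dr f) t r + r * dr f t r
    - (4 + r * al t r) ^ 2 * Real.sin (f t r) * Real.cos (f t r)
    - r ^ 2 * (1 - Real.cos (f t r)) * Real.sin (f t r)
  eqa : ∀ t ∈ Icc 0 T, ∀ r > 0, r ^ 2 * dt (dt al) t r = r ^ 2 * dr (dr al) t r + r * dr al t r
    - al t r - r * (4 + r * al t r) * Real.sin (f t r) ^ 2
  f_init : ∀ r, R0 ≤ r → f 0 r = 0
  g_init : ∀ r, R0 ≤ r → dt f 0 r = 0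
  al_init : ∀ r, al 0 r = 0
  e_init : ∀ r, dt al 0 r = 0

namespace Rad

variable {T R0 : ℝ} (R : Rad T R0)

def s (t r : ℝ) : ℝ := Real.sin (R.f t r)
def c (t r : ℝ) : ℝ := Real.cos (R.f t r)
def S1 : ℝ → ℝ → ℝ := Q R.s
def mu (t r : ℝ) : ℝ := 4 + r * R.al t r
def g : ℝ → ℝ → ℝ := dt R.f
def e : ℝ → ℝ → ℝ := dt R.al
def w (t r : ℝ) : ℝ := dr R.f t r + R.mu t r * R.S1 t r
def al1 : ℝ → ℝ → ℝ := Q R.al
def y (t r : ℝ) : ℝ := R.al1 t r + dr R.al t r + 1 - R.c t r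
def w1 : ℝ → ℝ → ℝ := Q R.w
def g1 : ℝ → ℝ → ℝ := Q R.g
def e1 : ℝ → ℝ → ℝ := Q R.e

/-- time slice -/
def pre (t : ℝ) : Pre where
  f := R.f t
  a := fun r => r * R.al t r
  g := R.g t
  e := R.e t
  w := R.w t
  y := R.y t
  wt := dt R.w t
  wr := dr R.w t
  gt := dt R.g t
  yt := dt R.y t
  yr := dr R.y t
  w1 := R.w1 t
  g1 := R.g1 t
  s1 := R.S1 t

end Rad

end

end H72GS
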