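import Pool.Agent.H72.GS.Axis2b
import Pool.Agent.H72.GS.Glob
import Pool.Agent.H72.GS.GaugeB
import Pool.Agent.H72.GS.Rad

/-!
# Axis3: from a solution for `0 ≤ t < T` to `Rad`

`glob`, `to_temporal`, `symConf_of_data` give a symmetric `c` with some `b > T'`.  Put
`f t r = fh t r - r * dr fh t 0`, `al t r = AB t r - AB t 0`.  The corrections are smooth functions of
`t` which vanish on `[0,b)` (`fh_r_zero`, `axis_zero`), so their time derivatives vanish there as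
well; the equations for `t ∈ (0,b)` are `fh_eq`, `A_eq_axis`, and extend to `t = 0` by continuity.
`f t 0 = π`, `dr f t 0 = 0`, `al t 0 = 0` for all `t`.
At `t = 0`: `sin f = AP = dphi ell r 0 0`, `cos f = dphi ell r 0 2`,
`g = AZ AP_t - AP AZ_t = -4 om0 AP` (`φ1`; differentiate `sin fh = AP`, `cos fh = AZ` for `t > 0`,
then `t → 0`), `al = al_t = 0`.
`f_init`: for `r ≥ R00`, `AZ = 1`, so `f ∈ 2πℤ`; `sin f = AP(0,r) ≥ 0` for all `r ≥ 0`, so by continuity
`f(0,r) ∈ [0,π]` for all `r ≥ 0` (start at `π`), hence `f = 0`.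
-/

namespace H72GS

open Set
open scoped ContDiff

/-- a differentiable function vanishing on `[0,b)` has vanishing derivative there -/
theorem Axis3_deriv_zero {K : ℝ → ℝ} {b : ℝ} (hK : Differentiable ℝ K)
    (h : ∀ t ∈ Ico 0 b, K t = 0) {t : ℝ} (ht : t ∈ Ico 0 b) : deriv K t = 0 := by
  have h1 : HasDerivWithinAt K (deriv K t) (Ico 0 b) t := (hK t).hasDerivAt.hasDerivWithinAt
  have h2 : HasDerivWithinAt K 0 (Ico 0 b) t :=
    (hasDerivWithinAt_const t (Ico 0 b) (0 : ℝ)).congr h (h t ht)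
  exact (uniqueDiffOn_Ico 0 b t ht).eq_deriv _ h1 h2

/-- two functions which agree on `[0,b)` have the same derivative there -/
theorem Axis3_deriv_congr {K L : ℝ → ℝ} {b : ℝ} (hK : Differentiable ℝ K) (hL : Differentiable ℝ L)
    (h : ∀ t ∈ Ico 0 b, K t = L t) {t : ℝ} (ht : t ∈ Ico 0 b) : deriv K t = deriv L t := by
  have h1 : HasDerivWithinAt K (deriv K t) (Ico 0 b) t := (hK t).hasDerivAt.hasDerivWithinAt
  have h2 : HasDerivWithinAt K (deriv L t) (Ico 0 b) t :=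
    (hL t).hasDerivAt.hasDerivWithinAt.congr h (h t ht)
  exact (uniqueDiffOn_Ico 0 b t ht).eq_deriv _ h1 h2

theorem Axis3_sm_diff_t {u : ℝ → ℝ → ℝ} (h : Sm u) (r : ℝ) : Differentiable ℝ (fun t => u t r) :=
  fun t => (h.hasDerivAt_t t r).differentiableAt

/-- freezing the second variable at `0` -/
theorem Axis3_freeze {u : ℝ → ℝ → ℝ} (h : Sm u) : Sm (fun t _ => u t 0) := by
  have h1 : ContDiff ℝ ∞ (fun p : ℝ × ℝ => u p.1 p.2) := h
  have h2 : ContDiff ℝ ∞ (fun p : ℝ × ℝ => (p.1, (0 : ℝ))) := by fun_prop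
  exact h1.comp h2

/-- `fh - r fh_r(t,0)` -/
noncomputable def Axis3_F (c : Config) (t r : ℝ) : ℝ := fh c t r - r * dr (fh c) t 0

/-- `AB - AB(t,0)` -/
noncomputable def Axis3_al (c : Config) (t r : ℝ) : ℝ := AB c t r - AB c t 0

variable {c : Config} {b : ℝ}

theorem Axis3_F_sm (h : SymConf c b) : Sm (Axis3_F c) :=
  (fh_sm h).sub (Sm.idr.mul (Axis3_freeze (fh_sm h).dr))

theorem Axis3_al_sm (h : SymConf c b) : Sm (Axis3_al c) :=
  (AB_sm h).sub (Axis3_freeze (AB_sm h))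

theorem Axis3_F_eq (h : SymConf c b) {t : ℝ} (ht : t ∈ Ico 0 b) (r : ℝ) :
    Axis3_F c t r = fh c t r := by
  rw [Axis3_F, fh_r_zero h ht]; ring

theorem Axis3_al_eq (h : SymConf c b) {t : ℝ} (ht : t ∈ Ico 0 b) (r : ℝ) :
    Axis3_al c t r = AB c t r := by
  rw [Axis3_al, (axis_zero h ht).2.2.1]; ring

/-- derivatives of functions that agree on `[0,b) × ℝ` agree -/
theorem Axis3_dt_congr {u v : ℝ → ℝ → ℝ} (hu : Sm u) (hv : Sm v)
    (h : ∀ t ∈ Ico 0 b, ∀ r, u t r = v t r) : ∀ t ∈ Ico 0 b, ∀ r, dt u t r = dt v t r :=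
  fun _ ht r => Axis3_deriv_congr (Axis3_sm_diff_t hu r) (Axis3_sm_diff_t hv r)
    (fun t ht => h t ht r) ht

theorem Axis3_dr_congr {u v : ℝ → ℝ → ℝ}
    (h : ∀ t ∈ Ico 0 b, ∀ r, u t r = v t r) : ∀ t ∈ Ico 0 b, ∀ r, dr u t r = dr v t r := by
  intro t ht r
  have : (fun x => u t x) = fun x => v t x := funext fun x => h t ht x
  simp only [dr, this]

theorem Axis3_eqf (h : SymConf c b) {t : ℝ} (ht : t ∈ Ico 0 b) {r : ℝ} (hr : 0 < r) :
    r ^ 2 * dt (dt (Axis3_F c)) t r = r ^ 2 * dr (dr (Axis3_F c)) t r + r * dr (Axis3_F c) t r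
      - (4 + r * Axis3_al c t r) ^ 2 * Real.sin (Axis3_F c t r) * Real.cos (Axis3_F c t r)
      - r ^ 2 * (1 - Real.cos (Axis3_F c t r)) * Real.sin (Axis3_F c t r) := by
  have h0 : ∀ t ∈ Ico 0 b, ∀ r, Axis3_F c t r = fh c t r := fun t ht r => Axis3_F_eq h ht r
  have h1 := Axis3_dt_congr (Axis3_F_sm h) (fh_sm h) h0
  have h2 := Axis3_dt_congr (Axis3_F_sm h).dt (fh_sm h).dt h1
  have h3 := Axis3_dr_congr h0
  have h4 := Axis3_dr_congr h3
  rw [h2 t ht r, h4 t ht r, h3 t ht r, h0 t ht r, Axis3_al_eq h ht]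
  exact fh_eq h ht hr

theorem Axis3_eqa (h : SymConf c b) {t : ℝ} (ht : t ∈ Ico 0 b) {r : ℝ} (hr : 0 < r) :
    r ^ 2 * dt (dt (Axis3_al c)) t r = r ^ 2 * dr (dr (Axis3_al c)) t r + r * dr (Axis3_al c) t r
      - Axis3_al c t r - r * (4 + r * Axis3_al c t r) * Real.sin (Axis3_F c t r) ^ 2 := by
  have h0 : ∀ t ∈ Ico 0 b, ∀ r, Axis3_al c t r = AB c t r := fun t ht r => Axis3_al_eq h ht r
  have h1 := Axis3_dt_congr (Axis3_al_sm h) (AB_sm h) h0
  have h2 := Axis3_dt_congr (Axis3_al_sm h).dt (AB_sm h).dt h1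
  have h3 := Axis3_dr_congr h0
  have h4 := Axis3_dr_congr h3
  rw [h2 t ht r, h4 t ht r, h3 t ht r, h0 t ht r, Axis3_F_eq h ht, (sin_fh h ht r).1]
  exact A_eq_axis h ht hr

theorem Axis3_update (t r s : ℝ) : Function.update (![t, r, 0] : Pt) 0 s = ![s, r, 0] := by
  funext i
  fin_cases i <;> simp [Function.update]

theorem Axis3_pd0 {u : Pt → ℝ} (hu : ContDiff ℝ ∞ u) (t r : ℝ) :
    deriv (fun s => u ![s, r, 0]) t = pd 0 u ![t, r, 0] := by
  have h := hasDerivAt_pd hu 0 ![t, r, 0] t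
  simp only [Axis3_update] at h
  exact h.deriv

/-- the time derivative of the angle -/
theorem Axis3_fh_t (h : SymConf c b) {t : ℝ} (ht : t ∈ Ico 0 b) (r : ℝ) :
    dt (fh c) t r = AZ c t r * dt (AP c) t r - AP c t r * dt (AZ c) t r := by
  have e1 := Axis3_dt_congr (fh_sm h).sin (AP_sm h) (fun t ht r => (sin_fh h ht r).1) t ht r
  have e2 := Axis3_dt_congr (fh_sm h).cos (AZ_sm h) (fun t ht r => (sin_fh h ht r).2) t ht r
  have d1 : dt (fun t r => Real.sin (fh c t r)) t r = Real.cos (fh c t r) * dt (fh c) t r :=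
    ((fh_sm h).hasDerivAt_t t r).sin.deriv
  have d2 : dt (fun t r => Real.cos (fh c t r)) t r = -Real.sin (fh c t r) * dt (fh c) t r :=
    ((fh_sm h).hasDerivAt_t t r).cos.deriv
  rw [← e1, ← e2, d1, d2, ← (sin_fh h ht r).1, ← (sin_fh h ht r).2]
  linear_combination (-dt (fh c) t r) * Real.sin_sq_add_cos_sq (fh c t r)

/-- an angle starting at `π` with nonnegative sine stays in `[0,π]` -/
theorem Axis3_range {f : ℝ → ℝ} (hf : Continuous f) (h0 : f 0 = Real.pi)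
    (hs : ∀ r, 0 ≤ r → 0 ≤ Real.sin (f r)) {r : ℝ} (hr : 0 ≤ r) : 0 ≤ f r ∧ f r ≤ Real.pi := by
  have hpi := Real.pi_pos
  constructor
  · by_contra hlt
    push Not at hlt
    have h1 : max (f r) (-Real.pi / 2) ∈ uIcc (f 0) (f r) := by
      rw [h0, uIcc_of_ge (by linarith)]
      exact ⟨le_max_left _ _, max_le (by linarith) (by linarith)⟩
    obtain ⟨s, hs1, hs2⟩ := intermediate_value_uIcc (a := 0) (b := r) hf.continuousOn h1
    rw [uIcc_of_le hr] at hs1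
    have h2 := hs s hs1.1
    have h3 : Real.sin (f s) < 0 := by
      apply Real.sin_neg_of_neg_of_neg_pi_lt
      · rw [hs2]; exact max_lt hlt (by linarith)
      · rw [hs2]; exact lt_max_of_lt_right (by linarith)
    linarith
  · by_contra hlt
    push Not at hlt
    have h1 : min (f r) (3 * Real.pi / 2) ∈ uIcc (f 0) (f r) := by
      rw [h0, uIcc_of_le hlt.le]
      exact ⟨le_min hlt.le (by linarith), min_le_left _ _⟩
    obtain ⟨s, hs1, hs2⟩ := intermediate_value_uIcc (a := 0) (b := r) hf.continuousOn h1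
    rw [uIcc_of_le hr] at hs1
    have h2 := hs s hs1.1
    have h3 : 0 < Real.sin (f s - Real.pi) := by
      apply Real.sin_pos_of_pos_of_lt_pi
      · rw [hs2]; have := lt_min hlt (by linarith : Real.pi < 3 * Real.pi / 2); linarith
      · rw [hs2]; have := min_le_right (f r) (3 * Real.pi / 2); linarith
    rw [Real.sin_sub_pi] at h3
    linarith

theorem Axis3_dphi1 (ell r : ℝ) : dphi ell r 0 1 = 0 := by
  simp [dphi]

theorem Axis3_dphi_far {ell r : ℝ} (hr : R00 ≤ r) : dphi ell r 0 0 = 0 ∧ dphi ell r 0 2 = 1 := by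
  have hR : (0 : ℝ) < R00 := by unfold R00; norm_num
  have hk : kap (r ^ 2 + 0 ^ 2) = 0 := by
    apply kap_zero
    nlinarith
  have hr0 : 0 < r := lt_of_lt_of_le hR hr
  constructor
  · simp only [dphi, Matrix.cons_val_zero, hk]; simp
  · simp only [dphi, den, hk]
    simp only [Matrix.cons_val]
    have : (r ^ 2 + 0 ^ 2) ^ 4 ≠ 0 := by positivity
    field_simp
    ring

theorem Axis3_dphi0_nonneg {ell : ℝ} (hl : 0 < ell) (r : ℝ) : 0 ≤ dphi ell r 0 0 := by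
  have h1 := kap_nonneg (r ^ 2 + 0 ^ 2)
  have h2 := den_pos hl (ρ := r ^ 2 + 0 ^ 2) (by positivity)
  have h3 : dphi ell r 0 0 = 2 * kap (r ^ 2 + 0 ^ 2) * ell * r ^ 4 / den ell (r ^ 2 + 0 ^ 2) := by
    simp only [dphi, Matrix.cons_val_zero]
    congr 1
    ring
  rw [h3]
  positivity

theorem exists_rad {om0 ell T T' : ℝ} (hl : 0 < ell) (hT' : 0 < T') (hTT : T' < T)
    {c : Config} (hc : IsSolutionFrom (dat om0 ell) T c) :
    ∃ R : Rad T' R00, (∀ r, 0 ≤ r → Real.sin (R.f 0 r) = dphi ell r 0 0 ∧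
        Real.cos (R.f 0 r) = dphi ell r 0 2) ∧
      ∀ r, R.g 0 r = -4 * om0 * Real.sin (R.f 0 r) := by
  obtain ⟨c1, b, hb, hφ, hA, hsol, hst⟩ := glob hT' hTT hc
  obtain ⟨c2, htemp, hd1, hd2⟩ := to_temporal hφ hA hsol (dat_smooth hl) (fun _ _ _ => rfl)
    (fun _ _ _ => rfl) hst
  have h : SymConf c2 b := symConf_of_data hl htemp hd1 hd2
  have hb0 : 0 < b := hT'.trans hb
  have h0b : (0 : ℝ) ∈ Ico 0 b := ⟨le_rfl, hb0⟩
  have hsub : ∀ t ∈ Icc 0 T', t ∈ Ico 0 b := fun t ht => ⟨ht.1, lt_of_le_of_lt ht.2 hb⟩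
  -- the data on the axis
  have hAP : ∀ r, AP c2 0 r = dphi ell r 0 0 := fun r => (hd1 r 0 0).1
  have hAZ : ∀ r, AZ c2 0 r = dphi ell r 0 2 := fun r => (hd1 r 0 2).1
  have hAPt : ∀ r, dt (AP c2) 0 r = -4 * om0 * (dphi ell r 0 2 * dphi ell r 0 0) := by
    intro r
    have := Axis3_pd0 (htemp.hφ 0) 0 r
    exact this.trans (hd1 r 0 0).2
  have hAZt : ∀ r, dt (AZ c2) 0 r = 4 * om0 * (dphi ell r 0 0 ^ 2 + dphi ell r 0 1 ^ 2) := by
    intro r
    have := Axis3_pd0 (htemp.hφ 2) 0 r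
    exact this.trans (hd1 r 0 2).2
  have hfht : ∀ r, dt (fh c2) 0 r = -4 * om0 * AP c2 0 r := by
    intro r
    have hn := AP_AZ h h0b r
    rw [Axis3_fh_t h h0b, hAPt, hAZt, Axis3_dphi1, ← hAP, ← hAZ]
    linear_combination (-4 * om0 * AP c2 0 r) * hn
  have hdtF : ∀ r, dt (Axis3_F c2) 0 r = dt (fh c2) 0 r := fun r =>
    Axis3_dt_congr (Axis3_F_sm h) (fh_sm h) (fun t ht r => Axis3_F_eq h ht r) 0 h0b r
  have hF0 : ∀ r, Axis3_F c2 0 r = fh c2 0 r := fun r => Axis3_F_eq h h0b r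
  have hsin : ∀ r, Real.sin (Axis3_F c2 0 r) = dphi ell r 0 0 := fun r => by
    rw [hF0, (sin_fh h h0b r).1, hAP]
  have hcos : ∀ r, Real.cos (Axis3_F c2 0 r) = dphi ell r 0 2 := fun r => by
    rw [hF0, (sin_fh h h0b r).2, hAZ]
  have hg : ∀ r, dt (Axis3_F c2) 0 r = -4 * om0 * Real.sin (Axis3_F c2 0 r) := fun r => by
    rw [hdtF, hfht, hAP, hsin]
  have hfinit : ∀ r, R00 ≤ r → Axis3_F c2 0 r = 0 := by
    intro r hr
    have hR : (0 : ℝ) < R00 := by unfold R00; norm_num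
    have hr0 : 0 ≤ r := hR.le.trans hr
    have hrange := Axis3_range (f := Axis3_F c2 0) ((Axis3_F_sm h).cont_r 0)
      (by rw [hF0, fh_zero]) (fun r _ => by rw [hsin]; exact Axis3_dphi0_nonneg hl r) hr0
    have hcr : Real.cos (Axis3_F c2 0 r) = 1 := by rw [hcos, (Axis3_dphi_far hr).2]
    have hpi := Real.pi_pos
    exact (Real.cos_eq_one_iff_of_lt_of_lt (by linarith [hrange.1]) (by linarith [hrange.2])).1 hcr
  have hginit : ∀ r, R00 ≤ r → dt (Axis3_F c2) 0 r = 0 := by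
    intro r hr
    rw [hg, hsin, (Axis3_dphi_far hr).1, mul_zero]
  have halinit : ∀ r, Axis3_al c2 0 r = 0 := by
    intro r
    rw [Axis3_al_eq h h0b]
    exact (hd2 2 r 0).1
  have heinit : ∀ r, dt (Axis3_al c2) 0 r = 0 := by
    intro r
    rw [Axis3_dt_congr (Axis3_al_sm h) (AB_sm h) (fun t ht r => Axis3_al_eq h ht r) 0 h0b r]
    exact (Axis3_pd0 (htemp.hA 2) 0 r).trans (hd2 2 r 0).2
  refine ⟨{ f := Axis3_F c2, al := Axis3_al c2, hT := hT', hR0 := by unfold R00; norm_num,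
            sf := Axis3_F_sm h, sal := Axis3_al_sm h,
            f0 := fun t => by rw [Axis3_F, fh_zero]; ring,
            fr0 := ?_, al0 := fun t => by rw [Axis3_al]; ring,
            eqf := fun t ht r hr => Axis3_eqf h (hsub t ht) hr,
            eqa := fun t ht r hr => Axis3_eqa h (hsub t ht) hr,
            f_init := hfinit, g_init := hginit, al_init := halinit, e_init := heinit }, ?_, ?_⟩
  · intro t
    have h1 : HasDerivAt (fun r => fh c2 t r - r * dr (fh c2) t 0)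
        (dr (fh c2) t 0 - 1 * dr (fh c2) t 0) 0 :=
      ((fh_sm h).hasDerivAt_r t 0).sub ((hasDerivAt_id (0 : ℝ)).mul_const _)
    have h2 : dr (Axis3_F c2) t 0 = dr (fh c2) t 0 - 1 * dr (fh c2) t 0 := h1.deriv
    rw [h2]; ring
  · intro r _
    exact ⟨hsin r, hcos r⟩
  · intro r
    exact hg r

end H72GS
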