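import Pool.Agent.H72.GS.K

/-!
# Boot: the continuity argument (pure real analysis)

`G(t)` := `10^60 ≤ om ∧ 1 ≤ om³ N ∧ Ey ≤ om ∧ X ≤ Gam² om⁴ N`.  Let `S` be the set of `t ∈ [0,T]` with
`G` on `[0,t]`; `S` is closed (continuity).  For `t ∈ S`, on `[0,t]`:
`om' ≥ 0.99 om² > 0`, `(om³ N)' ≥ om⁴ N (2.97 - 2.01) > 0`, `(om - Ey)' > 0`,
`(Gam1² om⁴ N - Y)' ≥ om⁵ N (10¹⁴ · (3.96 - 2.01) - 9·10¹³) > 0`, so at `t` all of
`om > 10^60`, `om³ N > 1`, `Ey < om`, `Y < Gam1² om⁴ N` are strict and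
`X ≤ (10/7)(Y + 10^10 om⁴ N) < Gam² om⁴ N`; by continuity `G` holds slightly beyond `t`.
Hence `G` on `[0,T]` and `(1/om)' ≤ -0.99`: `0 < 1/om(T) ≤ 1/om(0) - 0.99 T`, contradiction.
(`IsClosed.Icc_subset_of_forall_mem_nhdsWithin`.)
-/

namespace H72GS

open Set Filter Topology

private lemma Boot_mono {φ : ℝ → ℝ} {t : ℝ} (ht : 0 ≤ t)
    (h : ∀ u ∈ Icc 0 t, ∃ d, HasDerivAt φ d u ∧ 0 ≤ d) : φ 0 ≤ φ t := by
  rcases eq_or_lt_of_le ht with h0 | h0
  · rw [← h0]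
  · choose! d hd1 hd2 using h
    obtain ⟨c, hc, hc2⟩ := exists_hasDerivAt_eq_slope φ d h0
      (fun x hx => (hd1 x hx).continuousAt.continuousWithinAt)
      (fun x hx => hd1 x ⟨hx.1.le, hx.2.le⟩)
    have h1 := hd2 c ⟨hc.1.le, hc.2.le⟩
    rw [hc2, sub_zero] at h1
    have h2 : 0 ≤ φ t - φ 0 := by
      by_contra hcon
      push Not at hcon
      have := div_neg_of_neg_of_pos hcon h0
      linarith
    linarith

theorem boot {T : ℝ} (hT : 0 < T) {N om X Y Ey : ℝ → ℝ}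
    (cN : ContinuousOn N (Icc 0 T)) (com : ContinuousOn om (Icc 0 T))
    (cX : ContinuousOn X (Icc 0 T)) (cEy : ContinuousOn Ey (Icc 0 T))
    (Npos : ∀ t ∈ Icc 0 T, 0 < N t)
    (hst : ∀ t ∈ Icc 0 T, 10 ^ 60 ≤ om t → 1 ≤ om t ^ 3 * N t → Ey t ≤ om t →
      X t ≤ Gam ^ 2 * om t ^ 4 * N t →
      (∃ N', HasDerivAt N N' t ∧ |N' + 2 * om t * N t| ≤ om t * N t / 100) ∧
      (∃ om', HasDerivAt om om' t ∧ |om' - om t ^ 2| ≤ om t ^ 2 / 100) ∧
      (∃ Ey', HasDerivAt Ey Ey' t ∧ Ey' ≤ om t ^ 2 / 100) ∧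
      (∃ Y', HasDerivAt Y Y' t ∧ Y' ≤ 9 * 10 ^ 13 * om t ^ 5 * N t) ∧
      7 / 10 * X t ≤ Y t + 10 ^ 10 * om t ^ 4 * N t)
    (i1 : 10 ^ 60 < om 0) (i2 : 1 < om 0 ^ 3 * N 0) (i3 : Ey 0 < om 0)
    (i4 : X 0 < Gam ^ 2 * om 0 ^ 4 * N 0) (i5 : Y 0 < Gam1 ^ 2 * om 0 ^ 4 * N 0)
    (hlong : 11 / 10 ≤ T * om 0) : False := by
  have hGam : Gam ^ 2 = 169 * 10 ^ 12 := by unfold Gam; norm_num
  have hGam1 : Gam1 ^ 2 = 10 ^ 14 := by unfold Gam1; norm_num
  rw [hGam] at hst i4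
  rw [hGam1] at i5
  -- the good property
  let Gd : ℝ → Prop := fun t => 10 ^ 60 ≤ om t ∧ 1 ≤ om t ^ 3 * N t ∧ Ey t ≤ om t ∧
    X t ≤ 169 * 10 ^ 12 * om t ^ 4 * N t
  -- the strict consequences at the end of a good interval
  have strict : ∀ t ∈ Icc 0 T, (∀ u ∈ Icc 0 t, Gd u) →
      10 ^ 60 < om t ∧ 1 < om t ^ 3 * N t ∧ Ey t < om t ∧
      X t < 169 * 10 ^ 12 * om t ^ 4 * N t := by
    intro t ht hgood
    have hd : ∀ u ∈ Icc 0 t, 0 < om u ∧ 0 < N u ∧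
        (∃ N', HasDerivAt N N' u ∧ |N' + 2 * om u * N u| ≤ om u * N u / 100) ∧
        (∃ om', HasDerivAt om om' u ∧ |om' - om u ^ 2| ≤ om u ^ 2 / 100) ∧
        (∃ Ey', HasDerivAt Ey Ey' u ∧ Ey' ≤ om u ^ 2 / 100) ∧
        (∃ Y', HasDerivAt Y Y' u ∧ Y' ≤ 9 * 10 ^ 13 * om u ^ 5 * N u) ∧
        7 / 10 * X u ≤ Y u + 10 ^ 10 * om u ^ 4 * N u := by
      intro u hu
      have huT : u ∈ Icc 0 T := ⟨hu.1, hu.2.trans ht.2⟩
      obtain ⟨g1, g2, g3, g4⟩ := hgood u hu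
      have h := hst u huT g1 g2 g3 g4
      exact ⟨lt_of_lt_of_le (by norm_num) g1, Npos u huT, h⟩
    have m1 : om 0 ≤ om t := by
      refine Boot_mono ht.1 ?_
      intro u hu
      obtain ⟨h1, h2, -, ⟨o', ho1, ho2⟩, -⟩ := hd u hu
      refine ⟨o', ho1, ?_⟩
      have := (abs_le.1 ho2).1
      have h3 : 0 ≤ om u ^ 2 := sq_nonneg _
      linarith
    have m2 : om 0 ^ 3 * N 0 ≤ om t ^ 3 * N t := by
      refine Boot_mono (φ := fun s => om s ^ 3 * N s) ht.1 ?_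
      intro u hu
      obtain ⟨h1, h2, ⟨n', hn1, hn2⟩, ⟨o', ho1, ho2⟩, -⟩ := hd u hu
      refine ⟨_, (ho1.pow 3).mul hn1, ?_⟩
      have a1 := (abs_le.1 ho2).1
      have a2 := (abs_le.1 hn2).1
      have b1 : 99 / 100 * om u ^ 2 ≤ o' := by linarith
      have b2 : -(201 / 100) * (om u * N u) ≤ n' := by linarith
      have c1 : (3 * om u ^ 2 * N u) * (99 / 100 * om u ^ 2) ≤ (3 * om u ^ 2 * N u) * o' :=
        mul_le_mul_of_nonneg_left b1 (by positivity)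
      have c2 : om u ^ 3 * (-(201 / 100) * (om u * N u)) ≤ om u ^ 3 * n' :=
        mul_le_mul_of_nonneg_left b2 (by positivity)
      have c3 : 0 ≤ om u ^ 4 * N u := by positivity
      have e : ((3 : ℕ) : ℝ) * om u ^ (3 - 1) * o' * N u + om u ^ 3 * n' =
        (3 * om u ^ 2 * N u) * o' + om u ^ 3 * n' := by
        norm_num
        ring
      simp only [Pi.pow_apply]
      rw [e]
      nlinarith
    have m3 : om 0 - Ey 0 ≤ om t - Ey t := by
      refine Boot_mono (φ := fun s => om s - Ey s) ht.1 ?_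
      intro u hu
      obtain ⟨h1, h2, -, ⟨o', ho1, ho2⟩, ⟨e', he1, he2⟩, -⟩ := hd u hu
      refine ⟨_, ho1.sub he1, ?_⟩
      have a1 := (abs_le.1 ho2).1
      have h3 : 0 ≤ om u ^ 2 := sq_nonneg _
      linarith
    have m4 : 10 ^ 14 * om 0 ^ 4 * N 0 - Y 0 ≤ 10 ^ 14 * om t ^ 4 * N t - Y t := by
      refine Boot_mono (φ := fun s => 10 ^ 14 * om s ^ 4 * N s - Y s) ht.1 ?_
      intro u hu
      obtain ⟨h1, h2, ⟨n', hn1, hn2⟩, ⟨o', ho1, ho2⟩, -, ⟨y', hy1, hy2⟩, -⟩ := hd u hu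
      refine ⟨_, (((ho1.pow 4).const_mul (10 ^ 14)).mul hn1).sub hy1, ?_⟩
      have a1 := (abs_le.1 ho2).1
      have a2 := (abs_le.1 hn2).1
      have b1 : 99 / 100 * om u ^ 2 ≤ o' := by linarith
      have b2 : -(201 / 100) * (om u * N u) ≤ n' := by linarith
      have c1 : (4 * om u ^ 3 * N u) * (99 / 100 * om u ^ 2) ≤ (4 * om u ^ 3 * N u) * o' :=
        mul_le_mul_of_nonneg_left b1 (by positivity)
      have c2 : om u ^ 4 * (-(201 / 100) * (om u * N u)) ≤ om u ^ 4 * n' :=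
        mul_le_mul_of_nonneg_left b2 (by positivity)
      have c3 : 0 ≤ om u ^ 5 * N u := by positivity
      have e : 10 ^ 14 * (((4 : ℕ) : ℝ) * om u ^ (4 - 1) * o') * N u + 10 ^ 14 * om u ^ 4 * n' - y' =
        10 ^ 14 * ((4 * om u ^ 3 * N u) * o' + om u ^ 4 * n') - y' := by
        norm_num
        ring
      simp only [Pi.pow_apply]
      rw [e]
      have c4 : (4 * om u ^ 3 * N u) * (99 / 100 * om u ^ 2) +
        om u ^ 4 * (-(201 / 100) * (om u * N u)) = (195 / 100) * (om u ^ 5 * N u) := by ring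
      have c5 : (195 / 100) * (om u ^ 5 * N u) ≤ (4 * om u ^ 3 * N u) * o' + om u ^ 4 * n' := by
        linarith
      have c6 : y' ≤ 9 * 10 ^ 13 * (om u ^ 5 * N u) := by
        rw [← mul_assoc]; exact hy2
      linarith
    obtain ⟨h1, h2, -, -, -, -, hX⟩ := hd t ⟨ht.1, le_refl _⟩
    refine ⟨by linarith, by linarith, by linarith, ?_⟩
    have c1 : 0 < om t ^ 4 * N t := by positivity
    have c2 : Y t < 10 ^ 14 * (om t ^ 4 * N t) := by
      have : 10 ^ 14 * (om t ^ 4 * N t) = 10 ^ 14 * om t ^ 4 * N t := by ring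
      linarith
    have c3 : 7 / 10 * X t ≤ Y t + 10 ^ 10 * (om t ^ 4 * N t) := by
      have : 10 ^ 10 * (om t ^ 4 * N t) = 10 ^ 10 * om t ^ 4 * N t := by ring
      linarith
    have c4 : 169 * 10 ^ 12 * om t ^ 4 * N t = 169 * 10 ^ 12 * (om t ^ 4 * N t) := by ring
    rw [c4]
    linarith
  -- continuity
  have cC : IsClosed (Icc 0 T ∩ {t | Gd t}) := by
    have e : Icc 0 T ∩ {t | Gd t} = (((Icc 0 T ∩ om ⁻¹' (Ici (10 ^ 60))) ∩
        (Icc 0 T ∩ (fun t => om t ^ 3 * N t) ⁻¹' (Ici 1))) ∩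
        (Icc 0 T ∩ (fun t => om t - Ey t) ⁻¹' (Ici 0))) ∩
        (Icc 0 T ∩ (fun t => 169 * 10 ^ 12 * om t ^ 4 * N t - X t) ⁻¹' (Ici 0)) := by
      ext t
      simp only [mem_inter_iff, mem_preimage, mem_Ici, mem_ofPred_eq, sub_nonneg, Gd]
      tauto
    rw [e]
    refine ((?_ : IsClosed _).inter ?_ |>.inter ?_).inter ?_
    · exact com.preimage_isClosed_of_isClosed isClosed_Icc isClosed_Ici
    · exact ((com.pow 3).mul cN).preimage_isClosed_of_isClosed isClosed_Icc isClosed_Ici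
    · exact (com.sub cEy).preimage_isClosed_of_isClosed isClosed_Icc isClosed_Ici
    · exact (((continuousOn_const.mul (com.pow 4)).mul cN).sub cX).preimage_isClosed_of_isClosed
        isClosed_Icc isClosed_Ici
  have hall : Icc 0 T ⊆ {t | ∀ u ∈ Icc 0 t, Gd u} := by
    refine IsClosed.Icc_subset_of_forall_mem_nhdsWithin ?_ ?_ ?_
    · apply IsSeqClosed.isClosed
      intro x t hx hlim
      have ht : t ∈ Icc 0 T := isClosed_Icc.mem_of_tendsto hlim (Eventually.of_forall fun n => (hx n).2)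
      refine ⟨?_, ht⟩
      intro u hu
      rcases eq_or_lt_of_le hu.2 with h | h
      · rw [h]
        have : t ∈ Icc 0 T ∩ {t | Gd t} := by
          refine cC.mem_of_tendsto hlim (Eventually.of_forall fun n => ?_)
          exact ⟨(hx n).2, (hx n).1 (x n) ⟨(hx n).2.1, le_refl _⟩⟩
        exact this.2
      · obtain ⟨n, hn⟩ := (hlim.eventually (lt_mem_nhds h)).exists
        exact (hx n).1 u ⟨hu.1, hn.le⟩
    · intro u hu
      have : u = 0 := le_antisymm hu.2 hu.1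
      rw [this]
      exact ⟨i1.le, i2.le, i3.le, i4.le⟩
    · rintro t ⟨hg, ht⟩
      have htT : t ∈ Icc 0 T := ⟨ht.1, ht.2.le⟩
      obtain ⟨s1, s2, s3, s4⟩ := strict t htT hg
      have e1 : ∀ᶠ v in 𝓝[Icc 0 T] t, 10 ^ 60 < om v :=
        (com t htT).eventually (lt_mem_nhds s1)
      have e2 : ∀ᶠ v in 𝓝[Icc 0 T] t, 1 < om v ^ 3 * N v :=
        (((com.pow 3).mul cN) t htT).eventually (lt_mem_nhds s2)
      have e3 : ∀ᶠ v in 𝓝[Icc 0 T] t, 0 < om v - Ey v :=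
        ((com.sub cEy) t htT).eventually (lt_mem_nhds (sub_pos.2 s3))
      have e4 : ∀ᶠ v in 𝓝[Icc 0 T] t, 0 < 169 * 10 ^ 12 * om v ^ 4 * N v - X v :=
        ((((continuousOn_const.mul (com.pow 4)).mul cN).sub cX) t htT).eventually
          (lt_mem_nhds (sub_pos.2 s4))
      have e5 : ∀ᶠ v in 𝓝[Icc 0 T] t, Gd v := by
        filter_upwards [e1, e2, e3, e4] with v h1 h2 h3 h4
        exact ⟨h1.le, h2.le, (sub_pos.1 h3).le, (sub_pos.1 h4).le⟩
      rw [eventually_nhdsWithin_iff, Metric.eventually_nhds_iff] at e5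
      obtain ⟨δ, hδ, h5⟩ := e5
      have hmem : Ioo t (min (t + δ) T) ∈ 𝓝[>] t :=
        Ioo_mem_nhdsGT (lt_min (by linarith) ht.2)
      refine mem_of_superset hmem ?_
      intro v hv u hu
      rcases le_total u t with h | h
      · exact hg u ⟨hu.1, h⟩
      · have hv1 : v < t + δ := lt_of_lt_of_le hv.2 (min_le_left _ _)
        have hv2 : v < T := lt_of_lt_of_le hv.2 (min_le_right _ _)
        apply h5
        · rw [Real.dist_eq, abs_of_nonneg (by linarith)]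
          linarith [hu.2]
        · exact ⟨hu.1, hu.2.trans hv2.le⟩
  -- conclusion
  have hT1 : T ∈ Icc 0 T := ⟨hT.le, le_refl _⟩
  have hgT := hall hT1
  have fin : -(om 0)⁻¹ - 99 / 100 * 0 ≤ -(om T)⁻¹ - 99 / 100 * T := by
    refine Boot_mono (φ := fun s => -(om s)⁻¹ - 99 / 100 * s) hT.le ?_
    intro u hu
    obtain ⟨g1, g2, g3, g4⟩ := hgT u hu
    obtain ⟨-, ⟨o', ho1, ho2⟩, -⟩ := hst u hu g1 g2 g3 g4
    have h1 : 0 < om u := lt_of_lt_of_le (by norm_num) g1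
    refine ⟨_, ((ho1.inv h1.ne').neg).sub ((hasDerivAt_id u).const_mul (99 / 100)), ?_⟩
    have a1 := (abs_le.1 ho2).1
    have b1 : 99 / 100 * om u ^ 2 ≤ o' := by linarith
    have h2 : 0 < om u ^ 2 := by positivity
    have h3 : 99 / 100 ≤ o' / om u ^ 2 := by
      rw [le_div_iff₀ h2]
      linarith
    have e : -(-o' / om u ^ 2) - 99 / 100 * 1 = o' / om u ^ 2 - 99 / 100 := by ring
    rw [e]
    linarith
  have h0 : 0 < om 0 := lt_trans (by norm_num) i1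
  have hT2 : 0 < om T := lt_of_lt_of_le (by norm_num) (hgT T hT1).1
  have h1 : 0 < (om T)⁻¹ := inv_pos.2 hT2
  have h2 : 99 / 100 * T < (om 0)⁻¹ := by linarith
  have h3 : 99 / 100 * T * om 0 < 1 := by
    have := mul_lt_mul_of_pos_right h2 h0
    rwa [inv_mul_cancel₀ h0.ne'] at this
  linarith

end H72GS
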