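import Pool.Agent.H72.GS.Defs

/-!
# Comp: component formulas, temporal gauge

`nn × V = (-V₁, V₀, 0)`, `nn · V = V₂`, `nn · (φ × W) = φ₀ W₁ - φ₁ W₀` (components 0,1,2).
-/

namespace H72GS

open Set
open scoped ContDiff Matrix

noncomputable section

theorem cross_nn (V : Fin 3 → ℝ) : crossProduct nn V = ![-V 1, V 0, 0] := by
  rw [cross_apply]
  simp [nn]

theorem nn_dot (V : Fin 3 → ℝ) : nn ⬝ᵥ V = V 2 := by
  simp [nn, dotProduct, Fin.sum_univ_three]

theorem nn_dot_cross (V W : Fin 3 → ℝ) : nn ⬝ᵥ crossProduct V W = V 0 * W 1 - V 1 * W 0 := by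
  rw [nn_dot, cross_apply]
  simp

theorem D_zero (c : Config) (μ : Fin 3) (V : Pt → Fin 3 → ℝ) (p : Pt) :
    c.D μ V p 0 = pd μ (fun q => V q 0) p - c.A μ p * V p 1 := by
  unfold Config.D
  rw [cross_nn]
  simp only [Matrix.cons_val_zero]
  ring

theorem D_one (c : Config) (μ : Fin 3) (V : Pt → Fin 3 → ℝ) (p : Pt) :
    c.D μ V p 1 = pd μ (fun q => V q 1) p + c.A μ p * V p 0 := by
  unfold Config.D
  rw [cross_nn]
  simp

theorem D_two (c : Config) (μ : Fin 3) (V : Pt → Fin 3 → ℝ) (p : Pt) :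
    c.D μ V p 2 = pd μ (fun q => V q 2) p := by
  unfold Config.D
  rw [cross_nn]
  simp

/-- the coordinate derivative of a smooth function is smooth -/
theorem pd_smooth {u : Pt → ℝ} (hu : ContDiff ℝ ∞ u) (μ : Fin 3) : ContDiff ℝ ∞ (pd μ u) := by
  have h1 : ContDiff ℝ ∞ (fderiv ℝ u) := hu.fderiv_right (m := ∞) (by simp)
  exact h1.clm_apply contDiff_const

theorem pd_comm {u : Pt → ℝ} (hu : ContDiff ℝ ∞ u) (μ ν : Fin 3) (p : Pt) :
    pd μ (pd ν u) p = pd ν (pd μ u) p := by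
  have h1 : ContDiff ℝ ∞ (fderiv ℝ u) := hu.fderiv_right (m := ∞) (by simp)
  have hd : DifferentiableAt ℝ (fderiv ℝ u) p := (h1.differentiable (by simp)).differentiableAt
  have key : ∀ α β : Fin 3, pd α (pd β u) p =
      fderiv ℝ (fderiv ℝ u) p (Pi.single α 1) (Pi.single β 1) := by
    intro α β
    unfold pd
    rw [fderiv_clm_apply hd (differentiableAt_const _)]
    simp
  rw [key, key]
  have h2 : (2 : WithTop ℕ∞) ≤ ∞ := ENat.LEInfty.out
  have hs : IsSymmSndFDerivAt ℝ u p := hu.contDiffAt.isSymmSndFDerivAt (by simpa using h2)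
  exact hs.eq _ _

theorem pd_add {u v : Pt → ℝ} (hu : ContDiff ℝ ∞ u) (hv : ContDiff ℝ ∞ v) (μ : Fin 3) (p : Pt) :
    pd μ (fun q => u q + v q) p = pd μ u p + pd μ v p := by
  unfold pd
  rw [fderiv_fun_add (hu.differentiable (by simp)).differentiableAt
    (hv.differentiable (by simp)).differentiableAt]
  rfl

theorem pd_sub {u v : Pt → ℝ} (hu : ContDiff ℝ ∞ u) (hv : ContDiff ℝ ∞ v) (μ : Fin 3) (p : Pt) :
    pd μ (fun q => u q - v q) p = pd μ u p - pd μ v p := by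
  unfold pd
  rw [fderiv_fun_sub (hu.differentiable (by simp)).differentiableAt
    (hv.differentiable (by simp)).differentiableAt]
  rfl

theorem pd_mul {u v : Pt → ℝ} (hu : ContDiff ℝ ∞ u) (hv : ContDiff ℝ ∞ v) (μ : Fin 3) (p : Pt) :
    pd μ (fun q => u q * v q) p = pd μ u p * v p + u p * pd μ v p := by
  unfold pd
  rw [fderiv_fun_mul (hu.differentiable (by simp)).differentiableAt
    (hv.differentiable (by simp)).differentiableAt]
  simp only [add_apply, smul_apply, smul_eq_mul]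
  ring

/-- derivative along a coordinate line -/
theorem hasDerivAt_pd {u : Pt → ℝ} (hu : ContDiff ℝ ∞ u) (μ : Fin 3) (p : Pt) (s : ℝ) :
    HasDerivAt (fun x => u (Function.update p μ x)) (pd μ u (Function.update p μ s)) s := by
  have h1 : HasFDerivAt u (fderiv ℝ u (Function.update p μ s)) (Function.update p μ s) :=
    (hu.differentiable (by simp)).differentiableAt.hasFDerivAt
  exact h1.comp_hasDerivAt s (hasDerivAt_update p μ s)

/-- chain rule for a linear change of coordinates `q = M p` -/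
theorem pd_comp_linear {u : Pt → ℝ} (hu : ContDiff ℝ ∞ u) (M : Matrix (Fin 3) (Fin 3) ℝ)
    (μ : Fin 3) (p : Pt) :
    pd μ (fun q => u (M.mulVec q)) p = ∑ ν, M ν μ * pd ν u (M.mulVec p) := by
  have h1 : HasFDerivAt u (fderiv ℝ u (M.mulVec p)) (M.mulVec p) :=
    (hu.differentiable (by simp)).differentiableAt.hasFDerivAt
  have h2 : HasFDerivAt (fun q : Pt => M.mulVec q)
      (LinearMap.toContinuousLinearMap (Matrix.mulVecLin M)) p :=
    (LinearMap.toContinuousLinearMap (Matrix.mulVecLin M)).hasFDerivAt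
  have h3 := (h1.comp p h2).fderiv
  have h4 : fderiv ℝ (fun q => u (M.mulVec q)) p = (fderiv ℝ u (M.mulVec p)).comp
      (LinearMap.toContinuousLinearMap (Matrix.mulVecLin M)) := h3
  unfold pd
  rw [h4]
  have h5 : (LinearMap.toContinuousLinearMap (Matrix.mulVecLin M)) (Pi.single μ (1 : ℝ))
      = ∑ ν, M ν μ • (Pi.single ν (1 : ℝ) : Pt) := by
    ext i
    simp only [LinearMap.coe_toContinuousLinearMap', Matrix.mulVecLin_apply,
      Matrix.mulVec_single_one, Matrix.col_apply, Finset.sum_apply, Pi.smul_apply, smul_eq_mul]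
    rw [Finset.sum_eq_single i]
    · simp
    · intro j _ hj
      rw [Pi.single_eq_of_ne hj.symm, mul_zero]
    · intro h; exact absurd (Finset.mem_univ _) h
  rw [ContinuousLinearMap.comp_apply, h5, map_sum]
  simp

/-- equality on the open slab `0 < t < b` extends to `0 ≤ t < b` -/
theorem eq_hslab {F G : Pt → ℝ} (hF : Continuous F) (hG : Continuous G) {b : ℝ}
    (h : ∀ p ∈ slab 0 b, F p = G p) : ∀ p ∈ hslab b, F p = G p := by
  intro p hp
  obtain ⟨h0, h1⟩ := hp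
  have hcl : p ∈ closure (slab 0 b) := by
    have hlim : Filter.Tendsto (fun s : ℝ => p + s • (Pi.single 0 1 : Pt))
        (nhdsWithin 0 (Ioi 0)) (nhds p) := by
      have hc : Continuous (fun s : ℝ => p + s • (Pi.single 0 1 : Pt)) := by fun_prop
      have h2 := (hc.tendsto 0).mono_left (nhdsWithin_le_nhds (s := Ioi (0 : ℝ)))
      simpa using h2
    refine mem_closure_of_tendsto hlim ?_
    have h3 : ∀ᶠ s : ℝ in nhdsWithin 0 (Ioi 0), s < b - p 0 :=
      nhdsWithin_le_nhds (Iio_mem_nhds (by linarith))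
    filter_upwards [h3, self_mem_nhdsWithin] with s hs hs0
    have hs0' : (0 : ℝ) < s := hs0
    constructor
    · simp only [Pi.add_apply, Pi.smul_apply, Pi.single_eq_same, smul_eq_mul, mul_one]
      linarith
    · simp only [Pi.add_apply, Pi.smul_apply, Pi.single_eq_same, smul_eq_mul, mul_one]
      linarith
  exact (Set.EqOn.closure (s := slab 0 b) (fun q hq => h q hq) hF hG) hcl

/-- globally smooth configuration in temporal gauge which solves the equations for `0 < t < b` -/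
structure Config.Temporal (c : Config) (b : ℝ) : Prop where
  hφ : ∀ i, ContDiff ℝ ∞ (fun p => c.φ p i)
  hA : ∀ μ, ContDiff ℝ ∞ (c.A μ)
  A0 : ∀ p, c.A 0 p = 0
  sol : ∀ p ∈ slab 0 b, c.SolvesAt p

/-- `W = D^μ D_μ φ - (1 - φ₂) n`, componentwise -/
def Wf (c : Config) (p : Pt) (i : Fin 3) : ℝ :=
  c.D 0 (c.D 0 c.φ) p i - c.D 1 (c.D 1 c.φ) p i - c.D 2 (c.D 2 c.φ) p i
    - (if i = 2 then 1 - c.φ p 2 else 0)

/-- the equations at a point, componentwise (any configuration) -/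
theorem solvesAt_iff (c : Config) (p : Pt) : c.SolvesAt p ↔
    (c.φ p 0 ^ 2 + c.φ p 1 ^ 2 + c.φ p 2 ^ 2 = 1) ∧
    (c.φ p 1 * Wf c p 2 - c.φ p 2 * Wf c p 1 = 0 ∧ c.φ p 2 * Wf c p 0 - c.φ p 0 * Wf c p 2 = 0 ∧
      c.φ p 0 * Wf c p 1 - c.φ p 1 * Wf c p 0 = 0) ∧
    (∀ μ, pd 0 (c.F μ 0) p - pd 1 (c.F μ 1) p - pd 2 (c.F μ 2) p =
      c.φ p 0 * c.D μ c.φ p 1 - c.φ p 1 * c.D μ c.φ p 0) := by
  have hW : ∀ i, ((∑ μ, sg μ • c.D μ (c.D μ c.φ) p) - (1 - nn ⬝ᵥ c.φ p) • nn) i = Wf c p i := by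
    intro i
    unfold Wf
    rw [Fin.sum_univ_three, nn_dot]
    fin_cases i
    · simp [sg, nn]
      ring
    · simp [sg, nn]
      ring
    · simp [sg, nn]
      ring
  have h1 : c.φ p ⬝ᵥ c.φ p = c.φ p 0 ^ 2 + c.φ p 1 ^ 2 + c.φ p 2 ^ 2 := by
    simp [dotProduct, Fin.sum_univ_three, sq]
  have h2 : crossProduct (c.φ p)
      ((∑ μ, sg μ • c.D μ (c.D μ c.φ) p) - (1 - nn ⬝ᵥ c.φ p) • nn) = 0 ↔
      (c.φ p 1 * Wf c p 2 - c.φ p 2 * Wf c p 1 = 0 ∧ c.φ p 2 * Wf c p 0 - c.φ p 0 * Wf c p 2 = 0 ∧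
      c.φ p 0 * Wf c p 1 - c.φ p 1 * Wf c p 0 = 0) := by
    rw [cross_apply, hW 0, hW 1, hW 2]
    constructor
    · intro h
      refine ⟨?_, ?_, ?_⟩
      · simpa using congrFun h 0
      · simpa using congrFun h 1
      · simpa using congrFun h 2
    · rintro ⟨ha, hb, hc⟩
      rw [ha, hb, hc]
      ext i
      fin_cases i <;> rfl
  have h3 : ∀ μ, (∑ ν, sg ν * pd ν (c.F μ ν) p = nn ⬝ᵥ crossProduct (c.φ p) (c.D μ c.φ p)) ↔
      (pd 0 (c.F μ 0) p - pd 1 (c.F μ 1) p - pd 2 (c.F μ 2) p =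
      c.φ p 0 * c.D μ c.φ p 1 - c.φ p 1 * c.D μ c.φ p 0) := by
    intro μ
    rw [nn_dot_cross, Fin.sum_univ_three]
    have : sg 0 * pd 0 (c.F μ 0) p + sg 1 * pd 1 (c.F μ 1) p + sg 2 * pd 2 (c.F μ 2) p
        = pd 0 (c.F μ 0) p - pd 1 (c.F μ 1) p - pd 2 (c.F μ 2) p := by
      simp [sg]
      ring
    rw [this]
  constructor
  · rintro ⟨ha, hb, hc⟩
    exact ⟨h1 ▸ ha, h2.1 hb, fun μ => (h3 μ).1 (hc μ)⟩
  · rintro ⟨ha, hb, hc⟩
    exact ⟨h1.trans ha, h2.2 hb, fun μ => (h3 μ).2 (hc μ)⟩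

/-- second covariant derivatives in components -/
theorem DD_zero {c : Config} (hφ : ∀ i, ContDiff ℝ ∞ (fun p => c.φ p i))
    (hA : ∀ μ, ContDiff ℝ ∞ (c.A μ)) (μ : Fin 3) (p : Pt) :
    c.D μ (c.D μ c.φ) p 0 = pd μ (pd μ (fun q => c.φ q 0)) p
      - 2 * c.A μ p * pd μ (fun q => c.φ q 1) p - pd μ (c.A μ) p * c.φ p 1
      - c.A μ p ^ 2 * c.φ p 0 := by
  rw [D_zero, D_one]
  have h1 : (fun q => c.D μ c.φ q 0) =
      fun q => pd μ (fun q => c.φ q 0) q - c.A μ q * c.φ q 1 := by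
    funext q
    exact D_zero c μ c.φ q
  rw [h1, pd_sub (pd_smooth (hφ 0) μ) ((hA μ).mul (hφ 1)), pd_mul (hA μ) (hφ 1)]
  ring

theorem DD_one {c : Config} (hφ : ∀ i, ContDiff ℝ ∞ (fun p => c.φ p i))
    (hA : ∀ μ, ContDiff ℝ ∞ (c.A μ)) (μ : Fin 3) (p : Pt) :
    c.D μ (c.D μ c.φ) p 1 = pd μ (pd μ (fun q => c.φ q 1)) p
      + 2 * c.A μ p * pd μ (fun q => c.φ q 0) p + pd μ (c.A μ) p * c.φ p 0
      - c.A μ p ^ 2 * c.φ p 1 := by
  rw [D_one, D_zero]
  have h1 : (fun q => c.D μ c.φ q 1) =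
      fun q => pd μ (fun q => c.φ q 1) q + c.A μ q * c.φ q 0 := by
    funext q
    exact D_one c μ c.φ q
  rw [h1, pd_add (pd_smooth (hφ 1) μ) ((hA μ).mul (hφ 0)), pd_mul (hA μ) (hφ 0)]
  ring

theorem DD_two (c : Config) (μ : Fin 3) (p : Pt) :
    c.D μ (c.D μ c.φ) p 2 = pd μ (pd μ (fun q => c.φ q 2)) p := by
  rw [D_two]
  have h1 : (fun q => c.D μ c.φ q 2) = pd μ (fun q => c.φ q 2) := by
    funext q
    exact D_two c μ c.φ q
  rw [h1]

end

end H72GS
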