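import Pool.Agent.H72.GS.SuppD

/-! # DerD: time derivatives of `D` and `Ey`

`D`: integrand `w μ s g²`, `μ_t = r e`, `s_t = c g`; no integration by parts.
`Ey`: `(1/2) r (yt² + yr² + s² y²)`: `r yt ytt + r yr (yt)_r + r s c g y² + r s² y yt`, insert
`ytt_eq`: `r yt ytt + r yr (yt)_r = (r yr yt)_r - r s² y yt + r c yt (g² - w²)`. -/

namespace H72GS

open Set MeasureTheory intervalIntegral

namespace Rad

variable {T R0 : ℝ} (R : Rad T R0)

theorem hasDerivAt_D {t : ℝ} (ht : t ∈ Icc 0 T) :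
    HasDerivAt (fun τ => (R.pre τ).D (R0 + T)) ((R.pre t).dD (R0 + T)) t := by
  have hw := R.w_sm
  have hmu := R.mu_sm
  have hss := R.s_sm
  have hg := R.g_sm
  have hF : Sm (fun t r => R.w t r * R.mu t r * R.s t r * R.g t r ^ 2) :=
    ((hw.mul hmu).mul hss).mul (hg.pow 2)
  have h1 := hasDerivAt_int (F := fun t r => R.w t r * R.mu t r * R.s t r * R.g t r ^ 2)
    (F' := dt (fun t r => R.w t r * R.mu t r * R.s t r * R.g t r ^ 2))
    (fun t => hF.cont_r t) hF.dt.cont hF.hasDerivAt_t 0 (R0 + T) t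
  have h2 : (R.pre t).dD (R0 + T) = ∫ r in (0 : ℝ)..(R0 + T),
      dt (fun t r => R.w t r * R.mu t r * R.s t r * R.g t r ^ 2) t r := by
    unfold Pre.dD
    apply intervalIntegral.integral_congr
    intro r _
    have h3 := (((hw.hasDerivAt_t t r).mul (hmu.hasDerivAt_t t r)).mul
      (hss.hasDerivAt_t t r)).mul ((hg.hasDerivAt_t t r).pow 2)
    have h4 : dt (fun t r => R.w t r * R.mu t r * R.s t r * R.g t r ^ 2) t r = _ := h3.deriv
    rw [h4, R.dt_mu, R.dt_s]
    change dt R.w t r * R.mu t r * R.s t r * R.g t r ^ 2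
      + R.w t r * (r * R.e t r * R.s t r * R.g t r ^ 2
      + R.mu t r * R.c t r * R.g t r ^ 3
      + 2 * R.mu t r * R.s t r * R.g t r * dt R.g t r) = _
    simp only [Nat.cast_ofNat, Pi.mul_apply, Pi.pow_apply]
    ring
  rw [h2]
  exact h1

theorem DerD_Ey_int {t : ℝ} (ht : t ∈ Icc 0 T) {r : ℝ} (hr : 0 < r) :
    dt (fun t r => (1 / 2 : ℝ) * r * (dt R.y t r ^ 2 + dr R.y t r ^ 2
      + R.s t r ^ 2 * R.y t r ^ 2)) t r =
      (dr R.y t r * dt R.y t r + r * (dr (dr R.y) t r * dt R.y t r + dr R.y t r * dr (dt R.y) t r))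
      + (r * R.s t r * R.c t r * R.g t r * R.y t r ^ 2
        + r * dt R.y t r * R.c t r * (R.g t r ^ 2 - R.w t r ^ 2)) := by
  have hy := R.y_sm
  have hss := R.s_sm
  have h3 := ((((hy.dt.hasDerivAt_t t r).pow 2).add ((hy.dr.hasDerivAt_t t r).pow 2)).add
    (((hss.hasDerivAt_t t r).pow 2).mul ((hy.hasDerivAt_t t r).pow 2))).const_mul ((1 / 2 : ℝ) * r)
  have h4 : dt (fun t r => (1 / 2 : ℝ) * r * (dt R.y t r ^ 2 + dr R.y t r ^ 2
      + R.s t r ^ 2 * R.y t r ^ 2)) t r = _ := h3.deriv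
  have h5 : dt (dr R.y) t r = dr (dt R.y) t r := by rw [hy.comm]
  rw [h4, R.dt_s, h5]
  have h6 := R.ytt_eq ht hr
  simp only [Nat.cast_ofNat, Pi.mul_apply, Pi.pow_apply]
  linear_combination (dt R.y t r) * h6

theorem hasDerivAt_Ey {t : ℝ} (ht : t ∈ Icc 0 T) :
    HasDerivAt (fun τ => (R.pre τ).Ey (R0 + T)) ((R.pre t).dEy (R0 + T)) t := by
  have hy := R.y_sm
  have hss := R.s_sm
  have hcc := R.c_sm
  have hg := R.g_sm
  have hw := R.w_sm
  have hR1 : 0 ≤ R0 + T := by linarith [R.hT, R.hR0]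
  have hF : Sm (fun t r => (1 / 2 : ℝ) * r * (dt R.y t r ^ 2 + dr R.y t r ^ 2
      + R.s t r ^ 2 * R.y t r ^ 2)) :=
    ((Sm.const (1 / 2)).mul Sm.idr).mul (((hy.dt.pow 2).add (hy.dr.pow 2)).add
      ((hss.pow 2).mul (hy.pow 2)))
  have h1 := hasDerivAt_int (F := fun t r => (1 / 2 : ℝ) * r * (dt R.y t r ^ 2 + dr R.y t r ^ 2
      + R.s t r ^ 2 * R.y t r ^ 2))
    (F' := dt (fun t r => (1 / 2 : ℝ) * r * (dt R.y t r ^ 2 + dr R.y t r ^ 2
      + R.s t r ^ 2 * R.y t r ^ 2)))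
    (fun t => hF.cont_r t) hF.dt.cont hF.hasDerivAt_t 0 (R0 + T) t
  -- boundary term
  have hB : Sm (fun t r => r * (dr R.y t r * dt R.y t r)) := Sm.idr.mul (hy.dr.mul hy.dt)
  have hBd : ∀ r, HasDerivAt (fun r => r * (dr R.y t r * dt R.y t r))
      (dr R.y t r * dt R.y t r + r * (dr (dr R.y) t r * dt R.y t r
        + dr R.y t r * dr (dt R.y) t r)) r := by
    intro r
    have h := (hasDerivAt_id r).mul ((hy.dr.hasDerivAt_r t r).mul (hy.dt.hasDerivAt_r t r))
    refine h.congr_deriv ?_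
    simp only [id, one_mul, Pi.mul_apply]
  have cB : Continuous (fun r => dr R.y t r * dt R.y t r + r * (dr (dr R.y) t r * dt R.y t r
        + dr R.y t r * dr (dt R.y) t r)) := by
    have a1 := hy.dr.cont_r t
    have a2 := hy.dt.cont_r t
    have a3 := hy.dr.dr.cont_r t
    have a4 := hy.dt.dr.cont_r t
    exact (a1.mul a2).add (continuous_id.mul ((a3.mul a2).add (a1.mul a4)))
  have cE : Continuous (fun r => r * R.s t r * R.c t r * R.g t r * R.y t r ^ 2
        + r * dt R.y t r * R.c t r * (R.g t r ^ 2 - R.w t r ^ 2)) := by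
    have a1 := hss.cont_r t
    have a2 := hcc.cont_r t
    have a3 := hg.cont_r t
    have a4 := hy.cont_r t
    have a5 := hy.dt.cont_r t
    have a6 := hw.cont_r t
    exact ((((continuous_id.mul a1).mul a2).mul a3).mul (a4.pow 2)).add
      (((continuous_id.mul a5).mul a2).mul ((a3.pow 2).sub (a6.pow 2)))
  have hBint : ∫ r in (0 : ℝ)..(R0 + T), (dr R.y t r * dt R.y t r
      + r * (dr (dr R.y) t r * dt R.y t r + dr R.y t r * dr (dt R.y) t r)) = 0 := by
    rw [intervalIntegral.integral_eq_sub_of_hasDerivAt (fun r _ => hBd r)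
      (cB.intervalIntegrable _ _)]
    obtain ⟨_, _, h3, _⟩ := R.supp_deriv ht (le_refl (R0 + T))
    rw [h3]
    ring
  have h2 : (R.pre t).dEy (R0 + T) = ∫ r in (0 : ℝ)..(R0 + T),
      dt (fun t r => (1 / 2 : ℝ) * r * (dt R.y t r ^ 2 + dr R.y t r ^ 2
      + R.s t r ^ 2 * R.y t r ^ 2)) t r := by
    have h3 : ∫ r in (0 : ℝ)..(R0 + T),
      dt (fun t r => (1 / 2 : ℝ) * r * (dt R.y t r ^ 2 + dr R.y t r ^ 2
      + R.s t r ^ 2 * R.y t r ^ 2)) t r = ∫ r in (0 : ℝ)..(R0 + T),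
        ((dr R.y t r * dt R.y t r
          + r * (dr (dr R.y) t r * dt R.y t r + dr R.y t r * dr (dt R.y) t r))
        + (r * R.s t r * R.c t r * R.g t r * R.y t r ^ 2
        + r * dt R.y t r * R.c t r * (R.g t r ^ 2 - R.w t r ^ 2))) := by
      apply intervalIntegral.integral_congr_ae
      filter_upwards with r hr
      rw [uIoc_of_le hR1] at hr
      exact R.DerD_Ey_int ht hr.1
    rw [h3, intervalIntegral.integral_add (cB.intervalIntegrable _ _) (cE.intervalIntegrable _ _),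
      hBint, zero_add]
    rfl
  rw [h2]
  exact h1

end Rad

end H72GS
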