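import Pool.Agent.H72.GS.SuppD

/-! # DerM: the Morawetz identity

`M = ∫ wt (r²/(r+L) wr + r w/(2(r+L)))`, `L = L(τ)` differentiable at `t`, `L t > 0`.
`t`-derivative of the integrand at fixed `L`:
`wtt (r²/(r+L) wr + r w/(2(r+L))) + wt (r²/(r+L) (wt)_r + r wt/(2(r+L)))`, and the derivative in `L`:
`-L' wt (r² wr + r w/2)/(r+L)²`.  Insert `wtt_eq` (`r wtt = (r wr)_r - (A + r²(1-c)) w1 + S'`):
with `ζ = r/(r+L)`, `β = 1/(2(r+L)) = ζ/(2r)`:
* `(r wr)_r ζ wr = (1/2)(r ζ wr²)_r + (1/2) ζ wr² - (1/2) r ζ' wr²`,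
* `(r wr)_r β w = (r wr β w)_r - r β wr² - (1/2)(r β' w²)_r + (1/2)(r β')_r w²`,
* `-(A + r²(1-c)) w1 ζ wr = -(1/2)(V r ζ w²)_r + (1/2)(V r ζ)_r w²`, `V = A/r² + 1 - c`,
* `r wt (wt)_r ζ + β r wt² = (1/2)(r ζ wt²)_r - (1/2) r ζ' wt²`.
The coefficient of `w²` is `m3/r²`; all total derivatives vanish at `0` (`w = r w1`) and at `R0+T`
(`supp`, `supp_deriv`).  To avoid division use `w = r w1` in the primitives
(`V r ζ w² = (A + r²(1-c)) r²/(r+L) w1²·...`).  The final formula `dM` was checked numerically.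
Use `hasDerivAt_int_loc` (near `t`, `L > L(t)/2 > 0` by continuity is not available for `L'` at other
times: so first prove `M(τ, ℓ)` is differentiable jointly, e.g. write
`M(τ,L(τ)) = M(τ,L(t)) + (M(τ,L(τ)) - M(τ,L(t)))` and use
`1/(r+L(τ)) - 1/(r+L(t)) = -(L(τ)-L(t))/((r+L(τ))(r+L(t)))` with continuity of the rest). -/

namespace H72GS

open Set MeasureTheory intervalIntegral Filter Topology

/-- algebraic identity behind `DerM` -/
private lemma DerM_key (r ℓ wt wr wrr wtr w w1 c s μ g e y fr X : ℝ) (hD : r + ℓ ≠ 0)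
    (hw : w = r * w1) (hfr : r * fr = r * w - μ * s)
    (hX : r * X = wr + r * wrr - ((1 + μ ^ 2 - 2 * μ * c) + r ^ 2 * (1 - c)) * w1
      + μ * s * (w ^ 2 - g ^ 2) + 2 * r * c * (e * g - w * y)) :
    (X * (r ^ 2 * wr + r / 2 * w) + wt * (r ^ 2 * wtr + r / 2 * wt)) / (r + ℓ) -
      (-(1 / 2) * (r * ℓ / (r + ℓ) ^ 2) * (wt ^ 2 + wr ^ 2)
    + ((1 / 4) * r ^ 2 * (r - ℓ) / (r + ℓ) ^ 3
    + (1 / 2) * ((2 * (μ - c) * r ^ 2 * (y - 1 + c)
        + 2 * μ * s * (r * w - μ * s)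
        - 2 * (1 + μ ^ 2 - 2 * μ * c)
        + r ^ 2 * s * (r * w - μ * s)) * (r / (r + ℓ))
      + (r * (1 + μ ^ 2 - 2 * μ * c) + r ^ 3 * (1 - c)) * (ℓ / (r + ℓ) ^ 2))) * w1 ^ 2
    + (μ * s * (w ^ 2 - g ^ 2) + 2 * r * c * (e * g - w * y))
      * (r / (r + ℓ) * wr + w / (2 * (r + ℓ)))) =
    ((r * (wr ^ 2 + wt ^ 2) + r ^ 2 * (wr * wrr + wt * wtr)
      + (1 / 2) * (wr * w + r * wrr * w + r * wr * wr)
      - (1 / 2) * (2 * (μ - c) * (r * (y - 1 + c)) + 2 * μ * s * fr + 2 * r * (1 - c)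
        + r ^ 2 * s * fr) * w ^ 2
      - ((1 + μ ^ 2 - 2 * μ * c) + r ^ 2 * (1 - c)) * w * wr) * (r + ℓ)
      - ((1 / 2) * r ^ 2 * (wr ^ 2 + wt ^ 2) + (1 / 2) * r * wr * w
      - (1 / 2) * ((1 + μ ^ 2 - 2 * μ * c) + r ^ 2 * (1 - c)) * w ^ 2)) / (r + ℓ) ^ 2
      + ((1 / 4) * (w ^ 2 + 2 * r * w * wr) * (r + ℓ) ^ 2
        - (1 / 4) * r * w ^ 2 * (2 * (r + ℓ))) / ((r + ℓ) ^ 2) ^ 2 := by
  subst hw
  have hD2 : (r + ℓ) ^ 2 ≠ 0 := pow_ne_zero 2 hD
  field_simp
  linear_combination (4 * r * (2 * wr + w1)) * (r + ℓ) ^ 2 * hX +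
    4 * (2 * μ * s + r ^ 2 * s) * r * w1 ^ 2 * (r + ℓ) ^ 2 * hfr


/-- product with a function vanishing at the point -/
private lemma DerM_mul_zero {f K : ℝ → ℝ} {f' t : ℝ} (hf : HasDerivAt f f' t) (h0 : f t = 0)
    (hK : ContinuousAt K t) : HasDerivAt (fun x => f x * K x) (f' * K t) t := by
  rw [hasDerivAt_iff_tendsto_slope] at hf ⊢
  have h1 : Tendsto (fun x => slope f t x * K x) (𝓝[≠] t) (𝓝 (f' * K t)) :=
    hf.mul (hK.tendsto.mono_left nhdsWithin_le_nhds)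
  refine h1.congr (fun x => ?_)
  simp only [slope_def_field, h0, zero_mul, sub_zero]
  ring

/-- continuity of a parametric integral with a moving pole -/
private lemma DerM_cont {U : ℝ → ℝ → ℝ} (hU : Continuous (fun p : ℝ × ℝ => U p.1 p.2))
    {L : ℝ → ℝ} {t b : ℝ} (hb : 0 ≤ b) (hL : ContinuousAt L t) (hL0 : 0 < L t) :
    ContinuousAt (fun τ => ∫ r in (0 : ℝ)..b, U τ r / ((r + L τ) * (r + L t))) t := by
  set a : ℝ := L t / 2 with ha
  have ha0 : 0 < a := by rw [ha]; linarith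
  have hG : Continuous (fun q : ℝ × ℝ => ∫ r in (0 : ℝ)..b,
      U q.1 r / ((max r 0 + max q.2 a) * (max r 0 + L t))) := by
    apply intervalIntegral.continuous_parametric_intervalIntegral_of_continuous'
    have h1 : Continuous (fun p : (ℝ × ℝ) × ℝ => U p.1.1 p.2) :=
      hU.comp ((continuous_fst.comp continuous_fst).prodMk continuous_snd)
    refine h1.div ?_ ?_
    · exact (((continuous_snd.max continuous_const).add
        ((continuous_snd.comp continuous_fst).max continuous_const)).mul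
        ((continuous_snd.max continuous_const).add continuous_const))
    · intro p
      have h2 : 0 < max p.2 0 + max p.1.2 a :=
        add_pos_of_nonneg_of_pos (le_max_right _ _) (lt_of_lt_of_le ha0 (le_max_right _ _))
      have h3 : 0 < max p.2 0 + L t := add_pos_of_nonneg_of_pos (le_max_right _ _) hL0
      exact (mul_pos h2 h3).ne'
  have hcomp : ContinuousAt (fun τ => ∫ r in (0 : ℝ)..b,
      U τ r / ((max r 0 + max (L τ) a) * (max r 0 + L t))) t :=
    ContinuousAt.comp (f := fun τ => (τ, L τ)) hG.continuousAt (continuousAt_id.prodMk hL)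
  refine hcomp.congr ?_
  have hev : ∀ᶠ τ in 𝓝 t, a < L τ := hL.eventually (lt_mem_nhds (by rw [ha]; linarith))
  filter_upwards [hev] with τ hτ
  apply intervalIntegral.integral_congr
  intro r hr
  rw [uIcc_of_le hb] at hr
  simp only
  rw [max_eq_left hr.1, max_eq_left hτ.le]

namespace Rad

variable {T R0 : ℝ} (R : Rad T R0)

private noncomputable def DerM_U (t r : ℝ) : ℝ := dt R.w t r * (r ^ 2 * dr R.w t r + r / 2 * R.w t r)

private lemma DerM_U_sm : Sm R.DerM_U := by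
  have h := R.w_sm.dt.mul (((Sm.idr.pow 2).mul R.w_sm.dr).add
    ((Sm.idr.mul (Sm.const (1 / 2))).mul R.w_sm))
  have e : (fun t r => dt R.w t r * (r ^ 2 * dr R.w t r + r * (1 / 2) * R.w t r)) =
      R.DerM_U := by
    funext t r
    simp only [DerM_U]
    ring
  rw [← e]
  exact h

private lemma DerM_dtU (t r : ℝ) : dt R.DerM_U t r =
    dt (dt R.w) t r * (r ^ 2 * dr R.w t r + r / 2 * R.w t r) +
      dt R.w t r * (r ^ 2 * dr (dt R.w) t r + r / 2 * dt R.w t r) := by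
  have h1 := R.w_sm.dt.hasDerivAt_t t r
  have h2 := R.w_sm.dr.hasDerivAt_t t r
  have h3 := R.w_sm.hasDerivAt_t t r
  rw [R.w_sm.comm] at h2
  exact (h1.mul ((h2.const_mul (r ^ 2)).add (h3.const_mul (r / 2)))).deriv

/-- potential -/
private noncomputable def DerM_V (t r : ℝ) : ℝ :=
  (1 + R.mu t r ^ 2 - 2 * R.mu t r * R.c t r) + r ^ 2 * (1 - R.c t r)

private lemma DerM_dV (t r : ℝ) : HasDerivAt (R.DerM_V t)
    (2 * (R.mu t r - R.c t r) * (r * (R.y t r - 1 + R.c t r)) +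
      2 * R.mu t r * R.s t r * dr R.f t r + 2 * r * (1 - R.c t r) +
      r ^ 2 * R.s t r * dr R.f t r) r := by
  have hm := R.mu_sm.hasDerivAt_r t r
  rw [R.dr_mu] at hm
  have hc := R.c_sm.hasDerivAt_r t r
  rw [R.dr_c] at hc
  have h := (((hm.pow 2).const_add 1).sub ((hm.const_mul 2).mul hc)).add
    (((hasDerivAt_id r).pow 2).mul (hc.const_sub 1))
  refine (h.congr_deriv ?_)
  simp only [id, Pi.pow_apply, Nat.cast_ofNat]
  ring

/-- primitive -/
private noncomputable def DerM_G (t ℓ r : ℝ) : ℝ :=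
  ((1 / 2) * r ^ 2 * (dr R.w t r ^ 2 + dt R.w t r ^ 2) + (1 / 2) * r * dr R.w t r * R.w t r
      - (1 / 2) * R.DerM_V t r * R.w t r ^ 2) / (r + ℓ)
    + ((1 / 4) * r * R.w t r ^ 2) / (r + ℓ) ^ 2

/-- derivative of the primitive -/
private noncomputable def DerM_Gd (t ℓ r : ℝ) : ℝ :=
    ((r * (dr R.w t r ^ 2 + dt R.w t r ^ 2) +
      r ^ 2 * (dr R.w t r * dr (dr R.w) t r + dt R.w t r * dr (dt R.w) t r)
      + (1 / 2) * (dr R.w t r * R.w t r + r * dr (dr R.w) t r * R.w t r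
        + r * dr R.w t r * dr R.w t r)
      - (1 / 2) * (2 * (R.mu t r - R.c t r) * (r * (R.y t r - 1 + R.c t r)) +
        2 * R.mu t r * R.s t r * dr R.f t r + 2 * r * (1 - R.c t r)
        + r ^ 2 * R.s t r * dr R.f t r) * R.w t r ^ 2
      - ((1 + R.mu t r ^ 2 - 2 * R.mu t r * R.c t r) + r ^ 2 * (1 - R.c t r)) * R.w t r *
        dr R.w t r) * (r + ℓ)
      - ((1 / 2) * r ^ 2 * (dr R.w t r ^ 2 + dt R.w t r ^ 2) + (1 / 2) * r * dr R.w t r * R.w t r
      - (1 / 2) * ((1 + R.mu t r ^ 2 - 2 * R.mu t r * R.c t r) + r ^ 2 * (1 - R.c t r)) *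
        R.w t r ^ 2)) / (r + ℓ) ^ 2
      + ((1 / 4) * (R.w t r ^ 2 + 2 * r * R.w t r * dr R.w t r) * (r + ℓ) ^ 2
        - (1 / 4) * r * R.w t r ^ 2 * (2 * (r + ℓ))) / ((r + ℓ) ^ 2) ^ 2

private lemma DerM_dG (t ℓ r : ℝ) (hD : r + ℓ ≠ 0) : HasDerivAt (R.DerM_G t ℓ)
    (R.DerM_Gd t ℓ r) r := by
  have hw := R.w_sm.hasDerivAt_r t r
  have hwr := R.w_sm.dr.hasDerivAt_r t r
  have hwt := R.w_sm.dt.hasDerivAt_r t r
  have hV := R.DerM_dV t r
  have hid := hasDerivAt_id r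
  have hden : HasDerivAt (fun x : ℝ => x + ℓ) 1 r := (hasDerivAt_id r).add_const ℓ
  have hden2 := hden.pow 2
  have hP := ((((hid.pow 2).const_mul (1 / 2)).mul ((hwr.pow 2).add (hwt.pow 2))).add
    (((hid.const_mul (1 / 2)).mul hwr).mul hw)).sub ((hV.const_mul (1 / 2)).mul (hw.pow 2))
  have hP2 := (hid.const_mul (1 / 4)).mul (hw.pow 2)
  have h := (hP.div hden hD).add (hP2.div hden2 (pow_ne_zero 2 hD))
  refine (h.congr_deriv ?_)
  simp only [id, Pi.pow_apply, Pi.add_apply, Pi.mul_apply, Nat.cast_ofNat, DerM_V,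
    Pi.sub_apply, DerM_Gd]
  ring

theorem hasDerivAt_M {t : ℝ} (ht : t ∈ Icc 0 T) {L : ℝ → ℝ} {L' : ℝ} (hL : HasDerivAt L L' t)
    (hL0 : 0 < L t) :
    HasDerivAt (fun τ => (R.pre τ).M (R0 + T) (L τ)) ((R.pre t).dM (R0 + T) (L t) L') t := by
  set b : ℝ := R0 + T with hb
  have hb0 : 0 ≤ b := by rw [hb]; linarith [R.hT, R.hR0]
  have hUc : Continuous (fun p : ℝ × ℝ => R.DerM_U p.1 p.2) := R.DerM_U_sm.cont
  have hUtc : Continuous (fun p : ℝ × ℝ => dt R.DerM_U p.1 p.2) := R.DerM_U_sm.dt.cont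
  -- fixed scale
  have hfix : HasDerivAt (fun τ => ∫ r in (0 : ℝ)..b, R.DerM_U τ r / (r + L t))
      (∫ r in (0 : ℝ)..b, dt R.DerM_U t r / (r + L t)) t := by
    have hne : ∀ r ∈ Icc 0 b, r + L t ≠ 0 := fun r hr => (add_pos_of_nonneg_of_pos hr.1 hL0).ne'
    refine hasDerivAt_int_loc (F := fun τ r => R.DerM_U τ r / (r + L t))
      (F' := fun τ r => dt R.DerM_U τ r / (r + L t)) hb0 one_pos ?_ ?_ ?_
    · intro τ _
      exact (R.DerM_U_sm.cont_r τ).continuousOn.div (by fun_prop) hne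
    · refine hUtc.continuousOn.div (by fun_prop) ?_
      intro p hp
      exact hne p.2 hp.2
    · intro τ _ r _
      exact (R.DerM_U_sm.hasDerivAt_t τ r).div_const _
  -- variation of the scale
  have hvar : HasDerivAt (fun τ => -(L τ - L t) *
      ∫ r in (0 : ℝ)..b, R.DerM_U τ r / ((r + L τ) * (r + L t)))
      (-L' * ∫ r in (0 : ℝ)..b, R.DerM_U t r / ((r + L t) * (r + L t))) t := by
    refine DerM_mul_zero (f := fun τ => -(L τ - L t)) ?_ (by simp)
      (DerM_cont hUc hb0 hL.continuousAt hL0)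
    exact (hL.sub_const _).neg
  have hsum := hfix.add hvar
  have hev : (fun τ => (R.pre τ).M b (L τ)) =ᶠ[𝓝 t]
      ((fun τ => ∫ r in (0 : ℝ)..b, R.DerM_U τ r / (r + L t)) + fun τ => -(L τ - L t) *
      ∫ r in (0 : ℝ)..b, R.DerM_U τ r / ((r + L τ) * (r + L t))) := by
    have hpos : ∀ᶠ τ in 𝓝 t, 0 < L τ := hL.continuousAt.eventually (lt_mem_nhds hL0)
    filter_upwards [hpos] with τ hτ
    have hne : ∀ r ∈ uIcc 0 b, r + L t ≠ 0 := fun r hr => by
      rw [uIcc_of_le hb0] at hr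
      exact (add_pos_of_nonneg_of_pos hr.1 hL0).ne'
    have hne' : ∀ r ∈ uIcc 0 b, r + L τ ≠ 0 := fun r hr => by
      rw [uIcc_of_le hb0] at hr
      exact (add_pos_of_nonneg_of_pos hr.1 hτ).ne'
    have hi1 : IntervalIntegrable (fun r => R.DerM_U τ r / (r + L t)) volume 0 b :=
      ((R.DerM_U_sm.cont_r τ).continuousOn.div (by fun_prop) hne).intervalIntegrable
    have hi2 : IntervalIntegrable (fun r => R.DerM_U τ r / ((r + L τ) * (r + L t))) volume 0 b :=
      ((R.DerM_U_sm.cont_r τ).continuousOn.div (by fun_prop)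
        (fun r hr => mul_ne_zero (hne' r hr) (hne r hr))).intervalIntegrable
    simp only [Pi.add_apply]
    rw [← intervalIntegral.integral_const_mul, ← intervalIntegral.integral_add hi1
      (hi2.const_mul _)]
    apply intervalIntegral.integral_congr
    intro r hr
    have h1 := hne r hr
    have h2 := hne' r hr
    simp only [pre, DerM_U]
    field_simp
    ring
  refine (hsum.congr_of_eventuallyEq hev).congr_deriv ?_
  -- identification of the derivative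
  have hne : ∀ r ∈ uIcc 0 b, r + L t ≠ 0 := fun r hr => by
    rw [uIcc_of_le hb0] at hr
    exact (add_pos_of_nonneg_of_pos hr.1 hL0).ne'
  have hi1 : IntervalIntegrable (fun r => dt R.DerM_U t r / (r + L t)) volume 0 b :=
    ((R.DerM_U_sm.dt.cont_r t).continuousOn.div (by fun_prop) hne).intervalIntegrable
  have hi2 : IntervalIntegrable (fun r => R.DerM_U t r / ((r + L t) * (r + L t))) volume 0 b :=
    ((R.DerM_U_sm.cont_r t).continuousOn.div (by fun_prop)
      (fun r hr => mul_ne_zero (hne r hr) (hne r hr))).intervalIntegrable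
  have hneI : ∀ r ∈ Icc 0 b, r + L t ≠ 0 := fun r hr => (add_pos_of_nonneg_of_pos hr.1 hL0).ne'
  have c1 : Continuous (R.w t) := R.w_sm.cont_r t
  have c2 : Continuous (dr R.w t) := R.w_sm.dr.cont_r t
  have c3 : Continuous (dt R.w t) := R.w_sm.dt.cont_r t
  have c4 : Continuous (dr (dr R.w) t) := R.w_sm.dr.dr.cont_r t
  have c5 : Continuous (dr (dt R.w) t) := R.w_sm.dt.dr.cont_r t
  have c6 : Continuous (R.mu t) := R.mu_sm.cont_r t
  have c7 : Continuous (R.c t) := R.c_sm.cont_r t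
  have c8 : Continuous (R.s t) := R.s_sm.cont_r t
  have c9 : Continuous (R.y t) := R.y_sm.cont_r t
  have c10 : Continuous (dr R.f t) := R.sf.dr.cont_r t
  have hGc : ContinuousOn (R.DerM_Gd t (L t)) (Icc 0 b) := by
    unfold DerM_Gd
    refine ContinuousOn.add (ContinuousOn.div ?_ (by fun_prop)
      (fun r hr => pow_ne_zero 2 (hneI r hr))) (ContinuousOn.div ?_ (by fun_prop)
      (fun r hr => pow_ne_zero 2 (pow_ne_zero 2 (hneI r hr))))
    · exact Continuous.continuousOn (by fun_prop)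
    · exact Continuous.continuousOn (by fun_prop)
  have hG : ∫ r in (0 : ℝ)..b, R.DerM_Gd t (L t) r = 0 := by
    rw [ftc (F := R.DerM_G t (L t)) hb0]
    · obtain ⟨-, -, -, -, hw0, -⟩ := R.supp ht (le_refl (R0 + T))
      obtain ⟨hd1, hd2, -⟩ := R.supp_deriv ht (le_refl (R0 + T))
      rw [← hb] at hw0 hd1 hd2
      simp only [DerM_G, hw0, hd1, hd2, R.w_zero]
      norm_num
    · intro r hr
      exact (R.DerM_dG t (L t) r (hneI r hr)).continuousAt.continuousWithinAt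
    · exact hGc
    · intro r hr
      exact R.DerM_dG t (L t) r (hneI r ⟨hr.1.le, hr.2.le⟩)
  have hGi : IntervalIntegrable (R.DerM_Gd t (L t)) volume 0 b := by
    rw [← uIcc_of_le hb0] at hGc
    exact hGc.intervalIntegrable
  have e1 : (∫ r in (0 : ℝ)..b, dt R.DerM_U t r / (r + L t)) +
      -L' * ∫ r in (0 : ℝ)..b, R.DerM_U t r / ((r + L t) * (r + L t)) =
      ∫ r in (0 : ℝ)..b, (dt R.DerM_U t r / (r + L t) +
        -L' * (R.DerM_U t r / ((r + L t) * (r + L t))) - R.DerM_Gd t (L t) r) := by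
    rw [intervalIntegral.integral_sub (hi1.add (hi2.const_mul _)) hGi, hG, sub_zero,
      intervalIntegral.integral_add hi1 (hi2.const_mul _),
      intervalIntegral.integral_const_mul]
  rw [e1]
  apply intervalIntegral.integral_congr_ae
  refine Eventually.of_forall (fun r hr => ?_)
  rw [uIoc_of_le hb0] at hr
  have hr0 : 0 < r := hr.1
  have hD : r + L t ≠ 0 := (add_pos hr0 hL0).ne'
  have key := DerM_key r (L t) (dt R.w t r) (dr R.w t r) (dr (dr R.w) t r) (dr (dt R.w) t r)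
    (R.w t r) (R.w1 t r) (R.c t r) (R.s t r) (R.mu t r) (R.g t r) (R.e t r) (R.y t r)
    (dr R.f t r) (dt (dt R.w) t r) hD (R.r_w1 t r).symm (R.fr_eq t r) (by
      rw [R.wtt_eq ht hr0])
  have hGd : R.DerM_Gd t (L t) r = _ := key.symm
  rw [R.DerM_dtU, hGd]
  have m1 : (4 : ℝ) + r * R.al t r = R.mu t r := rfl
  have m2 : Real.cos (R.f t r) = R.c t r := rfl
  have m3 : Real.sin (R.f t r) = R.s t r := rfl
  simp only [pre, Pre.m3, Pre.A, DerM_U, m1, m2, m3]
  have hU2 : dt R.w t r * (r ^ 2 * dr R.w t r + r / 2 * R.w t r) / ((r + L t) * (r + L t)) =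
      (r / (r + L t) ^ 2) * (r * dt R.w t r * dr R.w t r + (1 / 2) * dt R.w t r * R.w t r) := by
    field_simp
  rw [hU2]
  ring

end Rad

end H72GS
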