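import Pool.Agent.H72.GS.K

/-!
# Cut: facts on the cut-off functions

`pp` has derivative `2 max 0 u`; `Hs u = 0` for `u ≤ 0`, `= 2u²` on `[0,1/2]`, `= 1 - 2(1-u)²` on
`[1/2,1]`, `= 1` for `u ≥ 1`; `0 ≤ Hsd ≤ 2`.  On the support of `hcd (cos f)` one has
`1 - cos f ≤ 2 qq`, so `sin² f ≤ 4 qq`, `|sin f| ≤ 2·10⁻¹⁸`, hence `|Xi| ≤ 8 qq^{3/2} · 2/qq`.
For `JJ`: on `[-2, π+2]`, `Xi s = 0` unless `cos s ≥ 1 - 2 qq`, i.e. unless `|s| ≤ 3·10⁻¹⁸`.
-/

namespace H72GS

open Set

theorem Cut_pp_nonpos {u : ℝ} (h : u ≤ 0) : pp u = 0 := by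
  simp [pp, max_eq_left h]

theorem Cut_pp_nonneg {u : ℝ} (h : 0 ≤ u) : pp u = u ^ 2 := by
  simp [pp, max_eq_right h]

theorem hasDerivAt_pp (u : ℝ) : HasDerivAt pp (2 * max 0 u) u := by
  rcases lt_trichotomy u 0 with h | h | h
  · rw [max_eq_left h.le, mul_zero]
    refine (hasDerivAt_const u (0 : ℝ)).congr_of_eventuallyEq ?_
    filter_upwards [gt_mem_nhds h] with x hx
    exact Cut_pp_nonpos (le_of_lt hx)
  · subst h
    rw [max_self, mul_zero, ← hasDerivWithinAt_univ, ← Iic_union_Ici (a := (0 : ℝ))]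
    refine HasDerivWithinAt.union ?_ ?_
    · refine (hasDerivWithinAt_const (0 : ℝ) _ (0 : ℝ)).congr ?_ ?_
      · intro x hx
        exact Cut_pp_nonpos hx
      · exact Cut_pp_nonpos le_rfl
    · have h1 : HasDerivWithinAt (fun x : ℝ => x ^ 2) 0 (Ici 0) 0 := by
        have := (hasDerivAt_pow 2 (0 : ℝ)).hasDerivWithinAt (s := Ici 0)
        simpa using this
      refine h1.congr ?_ ?_
      · intro x hx
        exact Cut_pp_nonneg hx
      · exact Cut_pp_nonneg le_rfl
  · rw [max_eq_right h.le]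
    have h1 : HasDerivAt (fun x : ℝ => x ^ 2) (2 * u) u := by
      have := hasDerivAt_pow 2 u
      simpa using this
    refine h1.congr_of_eventuallyEq ?_
    filter_upwards [lt_mem_nhds h] with x hx
    exact Cut_pp_nonneg (le_of_lt hx)

theorem Cut_hasDerivAt_Hs (u : ℝ) : HasDerivAt Hs (Hsd u) u := by
  have h0 := hasDerivAt_pp u
  have h1 : HasDerivAt (fun x : ℝ => pp (x - 1 / 2)) (2 * max 0 (u - 1 / 2)) u := by
    have := HasDerivAt.comp u (hasDerivAt_pp (u - 1 / 2)) ((hasDerivAt_id u).sub_const (1 / 2))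
    simpa [Function.comp_def] using this
  have h2 : HasDerivAt (fun x : ℝ => pp (x - 1)) (2 * max 0 (u - 1)) u := by
    have := HasDerivAt.comp u (hasDerivAt_pp (u - 1)) ((hasDerivAt_id u).sub_const 1)
    simpa [Function.comp_def] using this
  have h3 := ((h0.const_mul 2).sub (h1.const_mul 4)).add (h2.const_mul 2)
  refine (h3.congr_deriv ?_).congr_of_eventuallyEq ?_
  · simp only [Hsd]; ring
  · exact Filter.Eventually.of_forall fun x => rfl

theorem Cut_qq_pos : 0 < qq := by norm_num [qq]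

theorem hasDerivAt_hc (c : ℝ) : HasDerivAt hc (hcd c) c := by
  have h0 : HasDerivAt (fun x : ℝ => (1 - qq - x) / qq) (-(1 / qq)) c := by
    have := ((hasDerivAt_id c).const_sub (1 - qq)).div_const qq
    simpa [neg_div] using this
  have h1 := HasDerivAt.comp c (Cut_hasDerivAt_Hs ((1 - qq - c) / qq)) h0
  refine (h1.congr_deriv ?_).congr_of_eventuallyEq ?_
  · simp only [hcd]; ring
  · exact Filter.Eventually.of_forall fun x => rfl

theorem continuous_hc : Continuous hc :=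
  continuous_iff_continuousAt.2 fun c => (hasDerivAt_hc c).continuousAt

theorem continuous_hcd : Continuous hcd := by
  unfold hcd Hsd
  fun_prop

theorem Cut_Hs_zero {u : ℝ} (h : u ≤ 0) : Hs u = 0 := by
  simp only [Hs]
  rw [Cut_pp_nonpos h, Cut_pp_nonpos (by linarith), Cut_pp_nonpos (by linarith)]
  ring

theorem Cut_Hs_one {u : ℝ} (h : 1 ≤ u) : Hs u = 1 := by
  simp only [Hs]
  rw [Cut_pp_nonneg (by linarith), Cut_pp_nonneg (by linarith), Cut_pp_nonneg (by linarith)]
  ring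

theorem Cut_Hs_mem (u : ℝ) : 0 ≤ Hs u ∧ Hs u ≤ 1 := by
  rcases le_total u 0 with h | h
  · rw [Cut_Hs_zero h]; norm_num
  rcases le_total 1 u with h1 | h1
  · rw [Cut_Hs_one h1]; norm_num
  rcases le_total u (1 / 2) with h2 | h2
  · simp only [Hs]
    rw [Cut_pp_nonneg h, Cut_pp_nonpos (by linarith), Cut_pp_nonpos (by linarith)]
    constructor <;> nlinarith
  · simp only [Hs]
    rw [Cut_pp_nonneg h, Cut_pp_nonneg (by linarith), Cut_pp_nonpos (by linarith)]
    constructor <;> nlinarith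

theorem Cut_Hsd_zero {u : ℝ} (h : u ≤ 0) : Hsd u = 0 := by
  simp only [Hsd]
  rw [max_eq_left h, max_eq_left (by linarith), max_eq_left (by linarith)]
  ring

theorem Cut_Hsd_one {u : ℝ} (h : 1 ≤ u) : Hsd u = 0 := by
  simp only [Hsd]
  rw [max_eq_right (by linarith), max_eq_right (by linarith), max_eq_right (by linarith)]
  ring

theorem Cut_Hsd_mem (u : ℝ) : 0 ≤ Hsd u ∧ Hsd u ≤ 2 := by
  rcases le_total u 0 with h | h
  · rw [Cut_Hsd_zero h]; norm_num
  rcases le_total 1 u with h1 | h1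
  · rw [Cut_Hsd_one h1]; norm_num
  rcases le_total u (1 / 2) with h2 | h2
  · simp only [Hsd]
    rw [max_eq_right h, max_eq_left (by linarith), max_eq_left (by linarith)]
    constructor <;> linarith
  · simp only [Hsd]
    rw [max_eq_right h, max_eq_right (by linarith), max_eq_left (by linarith)]
    constructor <;> linarith

theorem hc_nonneg (c : ℝ) : 0 ≤ hc c := (Cut_Hs_mem _).1

theorem hc_le_one (c : ℝ) : hc c ≤ 1 := (Cut_Hs_mem _).2

theorem hc_one {c : ℝ} (h : c ≤ 1 - 2 * qq) : hc c = 1 := by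
  refine Cut_Hs_one ?_
  rw [le_div_iff₀ Cut_qq_pos]
  linarith

theorem hc_zero {c : ℝ} (h : 1 - qq ≤ c) : hc c = 0 := by
  refine Cut_Hs_zero ?_
  exact div_nonpos_of_nonpos_of_nonneg (by linarith) Cut_qq_pos.le

theorem hcd_abs (c : ℝ) : |hcd c| ≤ 2 / qq := by
  have h := Cut_Hsd_mem ((1 - qq - c) / qq)
  have h1 : 0 < 1 / qq := one_div_pos.2 Cut_qq_pos
  simp only [hcd]
  rw [abs_mul, abs_neg, abs_of_pos h1, abs_of_nonneg h.1]
  calc 1 / qq * Hsd ((1 - qq - c) / qq) ≤ 1 / qq * 2 := by gcongr; exact h.2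
    _ = 2 / qq := by ring

theorem hcd_zero_of_le {c : ℝ} (h : c ≤ 1 - 2 * qq) : hcd c = 0 := by
  simp only [hcd]
  rw [Cut_Hsd_one, mul_zero]
  rw [le_div_iff₀ Cut_qq_pos]
  linarith

theorem hcd_zero_of_ge {c : ℝ} (h : 1 - qq ≤ c) : hcd c = 0 := by
  simp only [hcd]
  rw [Cut_Hsd_zero, mul_zero]
  exact div_nonpos_of_nonpos_of_nonneg (by linarith) Cut_qq_pos.le

theorem hasDerivAt_Th (f : ℝ) : HasDerivAt Th (Thd f) f := by
  have h1 : HasDerivAt (hc ∘ Real.cos) (hcd (Real.cos f) * (-Real.sin f)) f :=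
    HasDerivAt.comp f (hasDerivAt_hc (Real.cos f)) (Real.hasDerivAt_cos f)
  have h2 := (Real.hasDerivAt_sin f).mul h1
  refine (h2.congr_deriv ?_).congr_of_eventuallyEq ?_
  · simp only [Thd, Function.comp_apply]; ring
  · exact Filter.Eventually.of_forall fun x => rfl

theorem continuous_Th : Continuous Th := by
  unfold Th
  exact Real.continuous_sin.mul (continuous_hc.comp Real.continuous_cos)

theorem continuous_Thd : Continuous Thd := by
  unfold Thd
  exact (Real.continuous_cos.mul (continuous_hc.comp Real.continuous_cos)).sub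
    ((Real.continuous_sin.pow 2).mul (continuous_hcd.comp Real.continuous_cos))

theorem continuous_Xi : Continuous Xi := by
  unfold Xi
  exact (Real.continuous_sin.pow 3).mul (continuous_hcd.comp Real.continuous_cos)

theorem Th_mul_sin_nonneg (f : ℝ) : 0 ≤ Th f * Real.sin f := by
  have h : Th f * Real.sin f = Real.sin f ^ 2 * hc (Real.cos f) := by
    simp only [Th]; ring
  rw [h]
  exact mul_nonneg (sq_nonneg _) (hc_nonneg _)

theorem Th_sq_le (f : ℝ) : Th f ^ 2 ≤ Th f * Real.sin f := by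
  have h : Th f * Real.sin f - Th f ^ 2
      = Real.sin f ^ 2 * (hc (Real.cos f) * (1 - hc (Real.cos f))) := by
    simp only [Th]; ring
  have h2 : 0 ≤ Real.sin f ^ 2 * (hc (Real.cos f) * (1 - hc (Real.cos f))) :=
    mul_nonneg (sq_nonneg _) (mul_nonneg (hc_nonneg _) (by linarith [hc_le_one (Real.cos f)]))
  linarith

theorem Th_abs_le (f : ℝ) : |Th f| ≤ |Real.sin f| := by
  simp only [Th]
  rw [abs_mul, abs_of_nonneg (hc_nonneg _)]
  calc |Real.sin f| * hc (Real.cos f) ≤ |Real.sin f| * 1 := by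
        gcongr; exact hc_le_one _
    _ = |Real.sin f| := mul_one _

theorem Cut_sin_sq {f : ℝ} (h : 1 - 2 * qq ≤ Real.cos f) : Real.sin f ^ 2 ≤ 4 * qq := by
  have h1 := Real.sin_sq_add_cos_sq f
  have h2 := Real.cos_le_one f
  have h3 : (0 : ℝ) < qq := Cut_qq_pos
  have h4 : qq ≤ 1 / 4 := by norm_num [qq]
  nlinarith

theorem Thd_abs (f : ℝ) : |Thd f| ≤ 9 := by
  have h1 : |Real.cos f * hc (Real.cos f)| ≤ 1 := by
    rw [abs_mul, abs_of_nonneg (hc_nonneg _)]
    calc |Real.cos f| * hc (Real.cos f) ≤ 1 * 1 :=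
          mul_le_mul (Real.abs_cos_le_one f) (hc_le_one _) (hc_nonneg _) zero_le_one
      _ = 1 := mul_one _
  have h2 : |Real.sin f ^ 2 * hcd (Real.cos f)| ≤ 8 := by
    rcases le_total (Real.cos f) (1 - 2 * qq) with h | h
    · rw [hcd_zero_of_le h, mul_zero, abs_zero]; norm_num
    · rw [abs_mul, abs_of_nonneg (sq_nonneg _)]
      calc Real.sin f ^ 2 * |hcd (Real.cos f)| ≤ (4 * qq) * (2 / qq) :=
            mul_le_mul (Cut_sin_sq h) (hcd_abs _) (abs_nonneg _)
              (mul_nonneg (by norm_num) Cut_qq_pos.le)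
        _ = 8 := by
            have := Cut_qq_pos.ne'
            field_simp; norm_num
  simp only [Thd]
  calc |Real.cos f * hc (Real.cos f) - Real.sin f ^ 2 * hcd (Real.cos f)|
      ≤ |Real.cos f * hc (Real.cos f)| + |Real.sin f ^ 2 * hcd (Real.cos f)| := abs_sub _ _
    _ ≤ 1 + 8 := add_le_add h1 h2
    _ = 9 := by norm_num

theorem Th_zero {f : ℝ} (h : 1 - qq ≤ Real.cos f) : Th f = 0 := by
  simp only [Th]; rw [hc_zero h, mul_zero]

theorem Thd_zero {f : ℝ} (h : 1 - qq ≤ Real.cos f) : Thd f = 0 := by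
  simp only [Thd]; rw [hc_zero h, hcd_zero_of_ge h]; ring

theorem Xi_zero {f : ℝ} (h : 1 - qq ≤ Real.cos f) : Xi f = 0 := by
  simp only [Xi]; rw [hcd_zero_of_ge h, mul_zero]

theorem Cut_Xi_zero_of_le {f : ℝ} (h : Real.cos f ≤ 1 - 2 * qq) : Xi f = 0 := by
  simp only [Xi]; rw [hcd_zero_of_le h, mul_zero]

theorem Cut_sin_abs {f : ℝ} (h : 1 - 2 * qq ≤ Real.cos f) : |Real.sin f| ≤ 2 / 10 ^ 18 := by
  refine abs_le_of_sq_le_sq ?_ (by norm_num)
  have h1 := Cut_sin_sq h
  have h2 : (4 : ℝ) * qq = (2 / 10 ^ 18) ^ 2 := by norm_num [qq]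
  linarith

theorem Xi_abs (f : ℝ) : |Xi f| ≤ 16 / 10 ^ 18 := by
  rcases le_total (Real.cos f) (1 - 2 * qq) with h | h
  · rw [Cut_Xi_zero_of_le h, abs_zero]; norm_num
  · simp only [Xi]
    rw [abs_mul, abs_pow]
    calc |Real.sin f| ^ 3 * |hcd (Real.cos f)| ≤ (2 / 10 ^ 18) ^ 3 * (2 / qq) := by
          gcongr
          · exact Cut_sin_abs h
          · exact hcd_abs _
      _ = 16 / 10 ^ 18 := by norm_num [qq]

theorem Xi_sin_abs (f : ℝ) : |Xi f * Real.sin f| ≤ 32 * qq := by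
  rcases le_total (Real.cos f) (1 - 2 * qq) with h | h
  · rw [Cut_Xi_zero_of_le h, zero_mul, abs_zero]; norm_num [qq]
  · simp only [Xi]
    rw [abs_mul, abs_mul, abs_pow]
    calc |Real.sin f| ^ 3 * |hcd (Real.cos f)| * |Real.sin f|
        ≤ (2 / 10 ^ 18) ^ 3 * (2 / qq) * (2 / 10 ^ 18) := by
          have hs := Cut_sin_abs h
          have hq : (0 : ℝ) ≤ 2 / qq := div_nonneg (by norm_num) Cut_qq_pos.le
          exact mul_le_mul (mul_le_mul (pow_le_pow_left₀ (abs_nonneg _) hs 3) (hcd_abs _)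
            (abs_nonneg _) (by positivity)) hs (abs_nonneg _) (mul_nonneg (by positivity) hq)
      _ = 32 * qq := by norm_num [qq]

theorem Th_cos_sub (f : ℝ) : Th f * Real.cos f - Thd f * Real.sin f = Xi f := by
  simp only [Th, Thd, Xi]; ring

theorem hasDerivAt_JJ (f : ℝ) : HasDerivAt JJ (-Xi f) f := by
  have h := intervalIntegral.integral_hasDerivAt_right
    (continuous_Xi.intervalIntegrable 0 f)
    (continuous_Xi.stronglyMeasurableAtFilter _ _) (continuous_Xi.continuousAt (x := f))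
  exact h.neg

theorem continuous_JJ : Continuous JJ :=
  continuous_iff_continuousAt.2 fun c => (hasDerivAt_JJ c).continuousAt

theorem Cut_Xi_far {s : ℝ} (h1 : -2 ≤ s) (h2 : s ≤ Real.pi + 2) (h3 : 4 / 10 ^ 18 ≤ |s|) :
    Xi s = 0 := by
  refine Cut_Xi_zero_of_le ?_
  have hpi := Real.pi_gt_three
  have hpi2 := Real.pi_lt_d2
  have hq : qq = 1 / 10 ^ 36 := rfl
  rcases le_total s Real.pi with h4 | h4
  · have habs : |s| ≤ Real.pi := abs_le.2 ⟨by linarith, h4⟩
    have h5 := Real.cos_le_one_sub_mul_cos_sq habs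
    have h6 : (4 / 10 ^ 18 : ℝ) ^ 2 ≤ s ^ 2 := by
      rw [← sq_abs s]; gcongr
    have h7 : 2 * qq ≤ 2 / Real.pi ^ 2 * s ^ 2 := by
      have h8 : (0 : ℝ) < Real.pi ^ 2 := by positivity
      rw [div_mul_eq_mul_div, le_div_iff₀ h8]
      have h9 : Real.pi ^ 2 ≤ 10 := by nlinarith
      rw [hq]
      nlinarith
    linarith
  · have h5 : Real.cos s ≤ 1 / 2 + 1 / 4 := by
      have h6 : Real.cos s = Real.cos (2 * Real.pi - s) := by
        rw [Real.cos_two_pi_sub]
      rw [h6]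
      have h7 : (1.1 : ℝ) ≤ 2 * Real.pi - s := by
        have := Real.pi_gt_d2
        norm_num at this ⊢
        linarith
      have h8 : 2 * Real.pi - s ≤ Real.pi := by linarith
      have h9 : |2 * Real.pi - s| ≤ Real.pi := abs_le.2 ⟨by linarith, h8⟩
      have h10 := Real.cos_le_one_sub_mul_cos_sq h9
      have h11 : (1 : ℝ) / 4 ≤ 2 / Real.pi ^ 2 * (2 * Real.pi - s) ^ 2 := by
        have h12 : (0 : ℝ) < Real.pi ^ 2 := by positivity
        rw [div_mul_eq_mul_div, le_div_iff₀ h12]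
        nlinarith
      linarith
    have : qq ≤ 1 / 8 := by norm_num [qq]
    linarith

theorem JJ_abs {f : ℝ} (h1 : -2 ≤ f) (h2 : f ≤ Real.pi + 2) : |JJ f| ≤ 100 * qq := by
  have hpi := Real.pi_gt_three
  have hB : ∀ a b : ℝ, |b - a| ≤ 4 / 10 ^ 18 → |∫ s in a..b, Xi s| ≤ 100 * qq := by
    intro a b hab
    have h := intervalIntegral.norm_integral_le_of_norm_le_const (a := a) (b := b) (f := Xi)
      (C := 16 / 10 ^ 18) (fun x _ => by rw [Real.norm_eq_abs]; exact Xi_abs x)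
    rw [Real.norm_eq_abs] at h
    refine h.trans ?_
    calc (16 / 10 ^ 18 : ℝ) * |b - a| ≤ 16 / 10 ^ 18 * (4 / 10 ^ 18) := by gcongr
      _ ≤ 100 * qq := by norm_num [qq]
  simp only [JJ]
  rw [abs_neg]
  rcases le_total |f| (4 / 10 ^ 18) with h3 | h3
  · exact hB 0 f (by simpa using h3)
  · rcases le_total 0 f with h4 | h4
    · rw [abs_of_nonneg h4] at h3
      have hz : ∫ s in (4 / 10 ^ 18 : ℝ)..f, Xi s = 0 := by
        rw [intervalIntegral.integral_congr (g := fun _ => (0 : ℝ))]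
        · simp
        · intro s hs
          rw [uIcc_of_le h3] at hs
          exact Cut_Xi_far (by linarith [hs.1, show (0 : ℝ) ≤ 4 / 10 ^ 18 by positivity])
            (by linarith [hs.2]) (by rw [abs_of_nonneg (le_trans (by positivity) hs.1)]; exact hs.1)
      rw [← intervalIntegral.integral_add_adjacent_intervals
        (continuous_Xi.intervalIntegrable 0 (4 / 10 ^ 18)) (continuous_Xi.intervalIntegrable _ f),
        hz, add_zero]
      exact hB 0 _ (by rw [sub_zero, abs_of_nonneg (by positivity)])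
    · rw [abs_of_nonpos h4] at h3
      have hz : ∫ s in (-(4 / 10 ^ 18) : ℝ)..f, Xi s = 0 := by
        rw [intervalIntegral.integral_congr (g := fun _ => (0 : ℝ))]
        · simp
        · intro s hs
          rw [uIcc_of_ge (by linarith)] at hs
          have h5 : (0 : ℝ) ≤ 4 / 10 ^ 18 := by positivity
          exact Cut_Xi_far (by linarith [hs.1]) (by linarith [hs.2])
            (by rw [abs_of_nonpos (by linarith [hs.2])]; linarith [hs.2])
      rw [← intervalIntegral.integral_add_adjacent_intervals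
        (continuous_Xi.intervalIntegrable 0 (-(4 / 10 ^ 18))) (continuous_Xi.intervalIntegrable _ f),
        hz, add_zero]
      exact hB 0 _ (by rw [sub_zero, abs_neg, abs_of_nonneg (by positivity)])

theorem JJ_zero {f : ℝ} (h1 : |f| ≤ 2) (h2 : 1 - qq ≤ Real.cos f) : JJ f = 0 := by
  have hpi := Real.pi_gt_three
  simp only [JJ]
  rw [neg_eq_zero, intervalIntegral.integral_congr (g := fun _ => (0 : ℝ))]
  · simp
  · intro s hs
    refine Xi_zero (h2.trans ?_)
    have h3 : |s| ≤ |f| := by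
      rcases le_total 0 f with h4 | h4
      · rw [uIcc_of_le h4] at hs
        rw [abs_of_nonneg hs.1, abs_of_nonneg h4]; exact hs.2
      · rw [uIcc_of_ge h4] at hs
        rw [abs_of_nonpos hs.2, abs_of_nonpos h4]; linarith [hs.1]
    rw [← Real.cos_abs f, ← Real.cos_abs s]
    exact Real.cos_le_cos_of_nonneg_of_le_pi (abs_nonneg _) (by linarith) h3

end H72GS
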