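import Pool.Agent.H72.GS.SuppD
import Pool.Agent.H72.GS.Cut

/-! # DerN: time derivatives of `N` and `P`

`N`: `(Th(f) s)_t = (Thd s + Th c) g`, and `Thd s + Th c = 2 Th c - Xi` (`Th_cos_sub`).
`P`: `(g Th)_t = g_t Th + g² Thd`, insert `gt_eq`:
`r (w_r + (1 - μ c) w1 - y s) Th = (r w Th)_r - r w Thd f_r - μ c w Th - r y s Th`, and
`r f_r = r w - μ s`: `= (r w Th)_r - r Thd w² - μ w (Th c - Thd s) - r y s Th`. -/

namespace H72GS

open Set MeasureTheory intervalIntegral

namespace Rad

variable {T R0 : ℝ} (R : Rad T R0)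

theorem DerN_Th_t (t r : ℝ) :
    HasDerivAt (fun s => Th (R.f s r)) (Thd (R.f t r) * R.g t r) t := by
  have h := (hasDerivAt_Th (R.f t r)).comp t (R.sf.hasDerivAt_t t r)
  exact h

theorem DerN_Th_r (t r : ℝ) :
    HasDerivAt (fun x => Th (R.f t x)) (Thd (R.f t r) * dr R.f t r) r := by
  have h := (hasDerivAt_Th (R.f t r)).comp r (R.sf.hasDerivAt_r t r)
  exact h

theorem hasDerivAt_N {t : ℝ} (ht : t ∈ Icc 0 T) :
    HasDerivAt (fun τ => (R.pre τ).N (R0 + T)) ((R.pre t).dN (R0 + T)) t := by
  have hf := R.sf.cont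
  have hg := R.g_sm.cont
  have hTh : Continuous (fun p : ℝ × ℝ => Th (R.f p.1 p.2)) := continuous_Th.comp hf
  have hXi : Continuous (fun p : ℝ × ℝ => Xi (R.f p.1 p.2)) := continuous_Xi.comp hf
  have hcf : Continuous (fun p : ℝ × ℝ => Real.cos (R.f p.1 p.2)) := Real.continuous_cos.comp hf
  have key := hasDerivAt_int (F := fun t r => r * Th (R.f t r) * Real.sin (R.f t r))
    (F' := fun t r => r * R.g t r * (2 * Th (R.f t r) * Real.cos (R.f t r) - Xi (R.f t r)))
    ?_ ?_ ?_ 0 (R0 + T) t
  · exact key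
  · intro s
    have h1 := R.sf.cont_r s
    exact (continuous_id.mul (continuous_Th.comp h1)).mul (Real.continuous_sin.comp h1)
  · exact (continuous_snd.mul hg).mul (((continuous_const.mul hTh).mul hcf).sub hXi)
  · intro s r
    have h1 := R.DerN_Th_t s r
    have h2 : HasDerivAt (fun x => Real.sin (R.f x r)) (Real.cos (R.f s r) * R.g s r) s :=
      (R.sf.hasDerivAt_t s r).sin
    have h3 := (h1.const_mul r).mul h2
    refine h3.congr_deriv ?_
    have h4 := Th_cos_sub (R.f s r)
    linear_combination (-r * R.g s r) * h4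

theorem hasDerivAt_P {t : ℝ} (ht : t ∈ Icc 0 T) :
    HasDerivAt (fun τ => (R.pre τ).P (R0 + T)) ((R.pre t).dP (R0 + T)) t := by
  have hf := R.sf.cont
  have hg := R.g_sm.cont
  have hgt := R.g_sm.dt.cont
  have hTh : Continuous (fun p : ℝ × ℝ => Th (R.f p.1 p.2)) := continuous_Th.comp hf
  have hThd : Continuous (fun p : ℝ × ℝ => Thd (R.f p.1 p.2)) := continuous_Thd.comp hf
  have key := hasDerivAt_int (F := fun t r => r * R.g t r * Th (R.f t r))
    (F' := fun t r => r * dt R.g t r * Th (R.f t r)
      + r * R.g t r * (Thd (R.f t r) * R.g t r)) ?_ ?_ ?_ 0 (R0 + T) t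
  · refine key.congr_deriv ?_
    -- the difference is a total derivative
    have hR1 : (0 : ℝ) ≤ R0 + T := by
      have := R.hR0
      have := R.hT
      linarith
    have cf := R.sf.cont_r t
    have cTh : Continuous (fun r => Th (R.f t r)) := continuous_Th.comp cf
    have cThd : Continuous (fun r => Thd (R.f t r)) := continuous_Thd.comp cf
    have cXi : Continuous (fun r => Xi (R.f t r)) := continuous_Xi.comp cf
    have cw := R.w_sm.cont_r t
    have cwr := R.w_sm.dr.cont_r t
    have cfr := R.sf.dr.cont_r t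
    have cg := R.g_sm.cont_r t
    have cgt := R.g_sm.dt.cont_r t
    have cy := R.y_sm.cont_r t
    have cmu : Continuous (fun r => 4 + r * R.al t r) := R.mu_sm.cont_r t
    have hF : ∀ r : ℝ, HasDerivAt (fun x => x * R.w t x * Th (R.f t x))
        ((1 * R.w t r + r * dr R.w t r) * Th (R.f t r)
          + r * R.w t r * (Thd (R.f t r) * dr R.f t r)) r := by
      intro r
      exact ((hasDerivAt_id r).mul (R.w_sm.hasDerivAt_r t r)).mul (R.DerN_Th_r t r)
    have cF' : Continuous (fun r => (1 * R.w t r + r * dr R.w t r) * Th (R.f t r)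
          + r * R.w t r * (Thd (R.f t r) * dr R.f t r)) := by
      exact (((continuous_const.mul cw).add (continuous_id.mul cwr)).mul cTh).add
        ((continuous_id.mul cw).mul (cThd.mul cfr))
    have hint : (∫ r in (0 : ℝ)..(R0 + T), ((1 * R.w t r + r * dr R.w t r) * Th (R.f t r)
          + r * R.w t r * (Thd (R.f t r) * dr R.f t r))) = 0 := by
      rw [intervalIntegral.integral_eq_sub_of_hasDerivAt (fun r _ => hF r)
        (cF'.intervalIntegrable _ _)]
      have h1 : R.w t (R0 + T) = 0 := (R.supp ht le_rfl).2.2.2.2.1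
      rw [h1]
      ring
    have hdP : (R.pre t).dP (R0 + T) = ∫ r in (0 : ℝ)..(R0 + T),
        (r * Thd (R.f t r) * (R.g t r ^ 2 - R.w t r ^ 2)
          - (4 + r * R.al t r) * R.w t r * Xi (R.f t r)
          - r * R.y t r * Real.sin (R.f t r) * Th (R.f t r)) := rfl
    have csin : Continuous (fun r => Real.sin (R.f t r)) := Real.continuous_sin.comp cf
    have cdP : Continuous (fun r => r * Thd (R.f t r) * (R.g t r ^ 2 - R.w t r ^ 2)
          - (4 + r * R.al t r) * R.w t r * Xi (R.f t r)
          - r * R.y t r * Real.sin (R.f t r) * Th (R.f t r)) := by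
      exact (((continuous_id.mul cThd).mul ((cg.pow 2).sub (cw.pow 2))).sub
        ((cmu.mul cw).mul cXi)).sub (((continuous_id.mul cy).mul csin).mul cTh)
    rw [hdP]
    have hsum : (∫ r in (0 : ℝ)..(R0 + T), (r * dt R.g t r * Th (R.f t r)
        + r * R.g t r * (Thd (R.f t r) * R.g t r))) =
        (∫ r in (0 : ℝ)..(R0 + T), (r * Thd (R.f t r) * (R.g t r ^ 2 - R.w t r ^ 2)
          - (4 + r * R.al t r) * R.w t r * Xi (R.f t r)
          - r * R.y t r * Real.sin (R.f t r) * Th (R.f t r)))
        + ∫ r in (0 : ℝ)..(R0 + T), ((1 * R.w t r + r * dr R.w t r) * Th (R.f t r)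
          + r * R.w t r * (Thd (R.f t r) * dr R.f t r)) := by
      rw [← intervalIntegral.integral_add (cdP.intervalIntegrable _ _)
        (cF'.intervalIntegrable _ _)]
      refine intervalIntegral.integral_congr ?_
      intro r hr
      rw [uIcc_of_le hR1] at hr
      have h1 := R.gt_eq ht hr.1
      have h2 := R.r_w1 t r
      have h3 := R.fr_eq t r
      have h4 := Th_cos_sub (R.f t r)
      have hs : R.s t r = Real.sin (R.f t r) := rfl
      have hc : R.c t r = Real.cos (R.f t r) := rfl
      have hm : R.mu t r = 4 + r * R.al t r := rfl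
      rw [hs] at h1 h3
      rw [hc] at h1
      rw [hm] at h1 h3
      simp only
      rw [h1]
      linear_combination ((1 - (4 + r * R.al t r) * Real.cos (R.f t r)) * Th (R.f t r)) * h2
        - (R.w t r * Thd (R.f t r)) * h3 - ((4 + r * R.al t r) * R.w t r) * h4
    rw [hsum, hint, add_zero]
  · intro s
    have h1 := R.sf.cont_r s
    exact (continuous_id.mul (R.g_sm.cont_r s)).mul (continuous_Th.comp h1)
  · exact ((continuous_snd.mul hgt).mul hTh).add ((continuous_snd.mul hg).mul (hThd.mul hg))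
  · intro s r
    have h1 := R.DerN_Th_t s r
    have h2 := (R.g_sm.hasDerivAt_t s r).const_mul r
    have h3 := h2.mul h1
    exact h3

end Rad

end H72GS
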