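import Pool.Agent.H72.GS.SuppD

/-! # DerX: time derivative of the second order energy

Integrand `r (wt² + wr²) + r (A + r²(1-c)) w1²`; its `t`-derivative is
`2 r wt wtt + 2 r wr (wt)_r + (A_t + r² s g) r w1² + 2 (A + r²(1-c)) w1 wt`
(`r w1_t = wt`), `A_t = 2 μ r e - 2 r e c + 2 μ s g`.  Insert `wtt_eq`:
`2 wt (r wtt) + 2 r wr (wt)_r = 2 (r wr wt)_r - 2 (A + r²(1-c)) w1 wt + 2 wt S'`,
`S' = μ s (w²-g²) + 2 r c (e g - w y)`; FTC, boundary terms vanish. -/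

namespace H72GS

open Set MeasureTheory intervalIntegral

namespace Rad

variable {T R0 : ℝ} (R : Rad T R0)

/-- the coefficient `A + r² (1 - c)` -/
noncomputable def DerX_V (t r : ℝ) : ℝ :=
  (1 + R.mu t r ^ 2 - 2 * R.mu t r * R.c t r) + r ^ 2 * (1 - R.c t r)

/-- the integrand of `X` -/
noncomputable def DerX_F (t r : ℝ) : ℝ :=
  r * (dt R.w t r ^ 2 + dr R.w t r ^ 2 + R.DerX_V t r * R.w1 t r ^ 2)

/-- the flux -/
noncomputable def DerX_G (t r : ℝ) : ℝ := r * (2 * (dr R.w t r * dt R.w t r))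

/-- the integrand of `dX` -/
noncomputable def DerX_I (t r : ℝ) : ℝ :=
  2 * R.mu t r * R.s t r * R.g t r * r * R.w1 t r ^ 2
    + 2 * (R.mu t r - R.c t r) * R.e t r * R.w t r ^ 2
    + r * R.s t r * R.g t r * R.w t r ^ 2
    + 2 * dt R.w t r * (R.mu t r * R.s t r * (R.w t r ^ 2 - R.g t r ^ 2)
      + 2 * r * R.c t r * (R.e t r * R.g t r - R.w t r * R.y t r))

theorem DerX_V_sm : Sm R.DerX_V := by
  have h1 : Sm (fun t r => R.mu t r ^ 2) := R.mu_sm.pow 2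
  have h2 : Sm (fun t r => 2 * R.mu t r * R.c t r) := ((Sm.const 2).mul R.mu_sm).mul R.c_sm
  have h3 : Sm (fun t r => r ^ 2 * (1 - R.c t r)) :=
    (Sm.idr.pow 2).mul ((Sm.const 1).sub R.c_sm)
  exact (((Sm.const 1).add h1).sub h2).add h3

theorem DerX_F_sm : Sm R.DerX_F :=
  Sm.idr.mul (((R.w_sm.dt.pow 2).add (R.w_sm.dr.pow 2)).add
    (R.DerX_V_sm.mul (R.w1_sm.pow 2)))

theorem DerX_G_sm : Sm R.DerX_G :=
  Sm.idr.mul ((Sm.const 2).mul (R.w_sm.dr.mul R.w_sm.dt))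

theorem DerX_I_sm : Sm R.DerX_I := by
  have h1 : Sm (fun t r => 2 * R.mu t r * R.s t r * R.g t r * r * R.w1 t r ^ 2) :=
    (((((Sm.const 2).mul R.mu_sm).mul R.s_sm).mul R.g_sm).mul Sm.idr).mul (R.w1_sm.pow 2)
  have h2 : Sm (fun t r => 2 * (R.mu t r - R.c t r) * R.e t r * R.w t r ^ 2) :=
    (((Sm.const 2).mul (R.mu_sm.sub R.c_sm)).mul R.e_sm).mul (R.w_sm.pow 2)
  have h3 : Sm (fun t r => r * R.s t r * R.g t r * R.w t r ^ 2) :=
    ((Sm.idr.mul R.s_sm).mul R.g_sm).mul (R.w_sm.pow 2)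
  have h4 : Sm (fun t r => R.mu t r * R.s t r * (R.w t r ^ 2 - R.g t r ^ 2)) :=
    (R.mu_sm.mul R.s_sm).mul ((R.w_sm.pow 2).sub (R.g_sm.pow 2))
  have h5 : Sm (fun t r => 2 * r * R.c t r * (R.e t r * R.g t r - R.w t r * R.y t r)) :=
    (((Sm.const 2).mul Sm.idr).mul R.c_sm).mul ((R.e_sm.mul R.g_sm).sub (R.w_sm.mul R.y_sm))
  have h6 : Sm (fun t r => 2 * dt R.w t r * (R.mu t r * R.s t r * (R.w t r ^ 2 - R.g t r ^ 2)
      + 2 * r * R.c t r * (R.e t r * R.g t r - R.w t r * R.y t r))) :=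
    ((Sm.const 2).mul R.w_sm.dt).mul (h4.add h5)
  exact ((h1.add h2).add h3).add h6

theorem DerX_dtV (t r : ℝ) : HasDerivAt (fun x => R.DerX_V x r)
    (2 * R.mu t r * (r * R.e t r) - 2 * (r * R.e t r) * R.c t r
      + 2 * R.mu t r * (R.s t r * R.g t r) + r ^ 2 * (R.s t r * R.g t r)) t := by
  have hmu := R.mu_sm.hasDerivAt_t t r
  have hc := R.c_sm.hasDerivAt_t t r
  rw [R.dt_mu] at hmu
  rw [R.dt_c] at hc
  have h := ((((hmu.pow 2).const_add 1).sub ((hmu.const_mul 2).mul hc)).add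
    ((hc.const_sub 1).const_mul (r ^ 2)))
  refine HasDerivAt.congr_deriv (f := fun x => R.DerX_V x r) h ?_
  push_cast
  ring

theorem DerX_dtF (t r : ℝ) : dt R.DerX_F t r =
    r * (2 * dt R.w t r * dt (dt R.w) t r + 2 * dr R.w t r * dt (dr R.w) t r
      + ((2 * R.mu t r * (r * R.e t r) - 2 * (r * R.e t r) * R.c t r
      + 2 * R.mu t r * (R.s t r * R.g t r) + r ^ 2 * (R.s t r * R.g t r)) * R.w1 t r ^ 2
      + R.DerX_V t r * (2 * R.w1 t r * dt R.w1 t r))) := by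
  have h0 := R.DerX_F_sm.hasDerivAt_t t r
  have h1 := R.w_sm.dt.hasDerivAt_t t r
  have h2 := R.w_sm.dr.hasDerivAt_t t r
  have h3 := R.w1_sm.hasDerivAt_t t r
  have h4 := R.DerX_dtV t r
  have h := ((((h1.pow 2).add (h2.pow 2)).add (h4.mul (h3.pow 2))).const_mul r)
  have h5 := h0.unique h
  rw [h5]
  simp only [Pi.pow_apply]
  push_cast
  ring

theorem DerX_drG (t r : ℝ) : dr R.DerX_G t r =
    2 * (dr R.w t r * dt R.w t r) + r * (2 * (dr (dr R.w) t r * dt R.w t r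
      + dr R.w t r * dr (dt R.w) t r)) := by
  have h0 := R.DerX_G_sm.hasDerivAt_r t r
  have h1 := R.w_sm.dt.hasDerivAt_r t r
  have h2 := R.w_sm.dr.hasDerivAt_r t r
  have h := (hasDerivAt_id r).mul ((h2.mul h1).const_mul 2)
  have h5 := h0.unique h
  rw [h5]
  simp only [id, Pi.mul_apply]
  ring

theorem DerX_id {t : ℝ} (ht : t ∈ Icc 0 T) {r : ℝ} (hr : 0 ≤ r) :
    dt R.DerX_F t r = R.DerX_I t r + dr R.DerX_G t r := by
  refine eq_of_pos (f := fun r => dt R.DerX_F t r)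
    (g := fun r => R.DerX_I t r + dr R.DerX_G t r) (R.DerX_F_sm.dt.cont_r t)
    ((R.DerX_I_sm.cont_r t).add (R.DerX_G_sm.dr.cont_r t)) ?_ r hr
  intro x hx
  rw [R.DerX_dtF, R.DerX_drG, R.w_sm.comm]
  have h1 := R.wtt_eq ht hx
  have h2 := R.dt_w1 t x
  have h3 := R.r_w1 t x
  unfold DerX_I DerX_V
  linear_combination (2 * dt R.w t x) * h1
    + (2 * ((1 + R.mu t x ^ 2 - 2 * R.mu t x * R.c t x) + x ^ 2 * (1 - R.c t x)) * R.w1 t x) * h2
    + ((2 * (R.mu t x - R.c t x) * R.e t x + x * R.s t x * R.g t x)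
      * (x * R.w1 t x + R.w t x)) * h3

theorem hasDerivAt_X {t : ℝ} (ht : t ∈ Icc 0 T) :
    HasDerivAt (fun τ => (R.pre τ).X (R0 + T)) ((R.pre t).dX (R0 + T)) t := by
  have h1 := hasDerivAt_int (F := R.DerX_F) (F' := dt R.DerX_F) (fun t => R.DerX_F_sm.cont_r t)
    R.DerX_F_sm.dt.cont (fun t r => R.DerX_F_sm.hasDerivAt_t t r) 0 (R0 + T) t
  have hpos : 0 ≤ R0 + T := add_nonneg R.hR0.le R.hT.le
  have h2 : (∫ r in (0 : ℝ)..(R0 + T), dt R.DerX_F t r) = (R.pre t).dX (R0 + T) := by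
    have h3 : (∫ r in (0 : ℝ)..(R0 + T), dt R.DerX_F t r)
        = ∫ r in (0 : ℝ)..(R0 + T), (R.DerX_I t r + dr R.DerX_G t r) := by
      refine intervalIntegral.integral_congr fun r hr => ?_
      rw [uIcc_of_le hpos] at hr
      exact R.DerX_id ht hr.1
    rw [h3, intervalIntegral.integral_add ((R.DerX_I_sm.cont_r t).intervalIntegrable _ _)
      ((R.DerX_G_sm.dr.cont_r t).intervalIntegrable _ _)]
    have h4 : (∫ r in (0 : ℝ)..(R0 + T), dr R.DerX_G t r) = 0 := by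
      rw [intervalIntegral.integral_eq_sub_of_hasDerivAt
        (fun r _ => R.DerX_G_sm.hasDerivAt_r t r)
        ((R.DerX_G_sm.dr.cont_r t).intervalIntegrable _ _)]
      have h5 : dt R.w t (R0 + T) = 0 := (R.supp_deriv ht le_rfl).1
      unfold DerX_G
      rw [h5]
      ring
    rw [h4, add_zero]
    rfl
  rw [h2] at h1
  exact h1

end Rad

end H72GS
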