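import Pool.Agent.H72.GS.SuppD

/-! # Slice: time slices satisfy `IsSlice`; conservation of the first order energy

`HasDerivAt` of `En`: integrand derivative `2 r (g g_t + e e_t + w w_t + y y_t)
= 2 (r (g w + e y))_r`, boundary terms vanish (`supp`, and factor `r` at `0`). -/

namespace H72GS

open Set MeasureTheory intervalIntegral

namespace Rad

variable {T R0 : ℝ} (R : Rad T R0)

theorem isSlice (h1 : R0 + T ≤ 1 / 1000) (h2 : 1 / 10 ^ 50 ≤ R0 + T) {t : ℝ}
    (ht : t ∈ Icc 0 T) : IsSlice (R0 + T) (R.pre t) := by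
  have hpos : 0 < R0 + T := by linarith [R.hR0, R.hT]
  have hsupp := R.supp ht (le_refl (R0 + T))
  refine
    { R1pos := hpos
      R1le := h1
      R1ge := h2
      cf := R.sf.cont_r t
      ca := continuous_id.mul (R.sal.cont_r t)
      cg := R.g_sm.cont_r t
      ce := R.e_sm.cont_r t
      cw := R.w_sm.cont_r t
      cy := R.y_sm.cont_r t
      cwt := R.w_sm.dt.cont_r t
      cwr := R.w_sm.dr.cont_r t
      cgt := R.g_sm.dt.cont_r t
      cyt := R.y_sm.dt.cont_r t
      cyr := R.y_sm.dr.cont_r t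
      cw1 := R.w1_sm.cont_r t
      cg1 := R.g1_sm.cont_r t
      cs1 := R.S1_sm.cont_r t
      df := ?_
      da := ?_
      dg := ?_
      dw := fun r => R.w_sm.hasDerivAt_r t r
      dy := fun r => R.y_sm.hasDerivAt_r t r
      de := ?_
      hgt := fun r hr => R.gt_eq ht hr
      hw1 := fun r => (R.r_w1 t r).symm
      hg1 := fun r => (R.r_g1 t r).symm
      hs1 := fun r => (R.r_S1 t r).symm
      f0 := R.f0 t
      a0 := ?_
      fR := hsupp.1
      gR := hsupp.2.2.1
      eR := hsupp.2.2.2.1
      wR := hsupp.2.2.2.2.1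
      yR := hsupp.2.2.2.2.2 }
  · intro r hr
    have h3 := R.sf.hasDerivAt_r t r
    have h4 := R.fr_eq t r
    have h5 : dr R.f t r = (R.pre t).w r - (4 + (R.pre t).a r) * Real.sin ((R.pre t).f r) / r := by
      show dr R.f t r = R.w t r - R.mu t r * R.s t r / r
      rw [eq_sub_iff_add_eq, ← mul_right_inj' hr.ne', mul_add, h4]
      field_simp
      ring
    rw [← h5]
    exact h3
  · intro r _
    have h3 : HasDerivAt (fun x => x * R.al t x) (1 * R.al t r + r * dr R.al t r) r :=
      (hasDerivAt_id r).mul (R.sal.hasDerivAt_r t r)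
    refine h3.congr_deriv ?_
    show _ = r * (R.al1 t r + dr R.al t r + 1 - R.c t r - 1 + R.c t r)
    rw [← R.r_al1 t r]
    ring
  · intro r hr
    have h3 := R.g_sm.hasDerivAt_r t r
    have h4 := R.wt_eq t r
    refine h3.congr_deriv ?_
    show _ = dt R.w t r - R.e t r * R.s t r - R.mu t r * R.c t r * R.g t r / r
    rw [h4, ← R.r_g1 t r]
    field_simp
    ring
  · intro r
    have h3 : HasDerivAt (fun x => x * R.e t x) (1 * R.e t r + r * dr R.e t r) r :=
      (hasDerivAt_id r).mul (R.e_sm.hasDerivAt_r t r)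
    refine h3.congr_deriv ?_
    show _ = r * (dt R.y t r - R.g t r * R.s t r)
    rw [R.yt_eq t r, ← R.r_e1 t r]
    ring
  · show 0 * R.al t 0 = 0
    ring

theorem hasDerivAt_En {t : ℝ} (ht : t ∈ Icc 0 T) :
    HasDerivAt (fun τ => (R.pre τ).En (R0 + T)) 0 t := by
  have hpos : 0 < R0 + T := by linarith [R.hR0, R.hT]
  have hq := R.Supp_q_cont
  have hqt := R.Supp_qt_cont
  have hj : Continuous (fun r : ℝ => R.Supp_j t r) :=
    R.Supp_j_cont.comp (Continuous.prodMk continuous_const continuous_id)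
  have hjr : Continuous (fun r : ℝ => R.Supp_jr t r) :=
    R.Supp_jr_cont.comp (Continuous.prodMk continuous_const continuous_id)
  have h1 := hasDerivAt_int (F := fun t r => r * (2 * R.Supp_q t r))
    (F' := fun t r => r * (2 * R.Supp_qt t r)) (by
      intro s
      have h2 : Continuous (fun r : ℝ => R.Supp_q s r) :=
        hq.comp (Continuous.prodMk continuous_const continuous_id)
      exact continuous_id.mul (h2.const_mul 2 |>.congr fun _ => rfl))
    (continuous_snd.mul (continuous_const.mul hqt)) (by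
      intro s r
      exact ((R.Supp_q_dt s r).const_mul 2).const_mul r) 0 (R0 + T) t
  have h3 : (∫ r in (0 : ℝ)..(R0 + T), r * (2 * R.Supp_qt t r)) = 0 := by
    have hF : ∀ r : ℝ, HasDerivAt (fun x => 2 * (x * R.Supp_j t x))
        (2 * (R.Supp_j t r + r * R.Supp_jr t r)) r := by
      intro r
      have h2 := ((hasDerivAt_id r).mul (R.Supp_j_dr t r)).const_mul 2
      refine h2.congr_deriv ?_
      simp only [id]
      ring
    have h4 : (∫ r in (0 : ℝ)..(R0 + T), r * (2 * R.Supp_qt t r))
        = ∫ r in (0 : ℝ)..(R0 + T), 2 * (R.Supp_j t r + r * R.Supp_jr t r) := by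
      apply intervalIntegral.integral_congr
      intro r hr
      rw [uIcc_of_le hpos.le] at hr
      have h5 := R.Supp_cons ht hr.1
      show r * (2 * R.Supp_qt t r) = 2 * (R.Supp_j t r + r * R.Supp_jr t r)
      linarith
    rw [h4, intervalIntegral.integral_eq_sub_of_hasDerivAt (fun r _ => hF r)]
    · have hs := R.supp ht (le_refl (R0 + T))
      have h5 : R.Supp_j t (R0 + T) = 0 := by
        unfold Supp_j
        rw [hs.2.2.1, hs.2.2.2.1]
        ring
      rw [h5]
      ring
    · apply Continuous.intervalIntegrable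
      exact continuous_const.mul (hj.add (continuous_id.mul hjr))
  rw [h3] at h1
  have h6 : (fun τ => (R.pre τ).En (R0 + T))
      = fun s => ∫ r in (0 : ℝ)..(R0 + T), r * (2 * R.Supp_q s r) := by
    funext τ
    unfold Pre.En
    congr 1
    funext r
    show r * (R.g τ r ^ 2 + R.e τ r ^ 2 + R.w τ r ^ 2 + R.y τ r ^ 2) = r * (2 * R.Supp_q τ r)
    unfold Supp_q
    ring
  rw [h6]
  exact h1

theorem En_const {t : ℝ} (ht : t ∈ Icc 0 T) :
    (R.pre t).En (R0 + T) = (R.pre 0).En (R0 + T) := by
  have := constant_of_has_deriv_right_zero (f := fun τ => (R.pre τ).En (R0 + T)) (a := 0) (b := t)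
    (fun x hx => (R.hasDerivAt_En ⟨hx.1, hx.2.trans ht.2⟩).continuousAt.continuousWithinAt)
    (fun x hx => (R.hasDerivAt_En ⟨hx.1, hx.2.le.trans ht.2⟩).hasDerivWithinAt)
  exact this t ⟨ht.1, le_refl _⟩

end Rad

end H72GS
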