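import Pool.Agent.H72.GS.StFar

/-!
# StDM: size of the correction terms, and the derivative of `Ey`

* `2 |D| ≤ 2 ∫ |w| μ |s| g²`: `[0,L]`: `8.01 ∫ r |w1||s| (32 om² s² + 2(250 Lam)²)
  ≤ 160 om² lam chi`; `[L,R1]`: `8.01·900 eps Lam ∫ r |w1||g| ≤ tiny`.
  `(1/2)|M| ≤ (1/2) ∫ r |wt|(|wr| + |w1|/2) ≤ 0.295 X`.  Then `om² lam chi ≤ 4 Gam om⁴ N`.
* `dEy`: `|s g| ≤ 5 om`, `∫ r y² ≤ eps²`; `∫ r |yt| g² ≤ 5 om ‖yt‖ ‖g‖ ≤ 5 om √(2 om) eps`,
  `∫ r |yt| w² ≤ chi ‖yt‖ ‖w‖`; `√om ≤ om/10³⁰`.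
-/

namespace H72GS

open Set MeasureTheory intervalIntegral

variable {R1 : ℝ} {p : Pre} {om lam : ℝ}

/-- bound for an integral by the integral of a continuous majorant -/
private lemma StDM_abs {f g : ℝ → ℝ} {a b : ℝ} (hab : a ≤ b) (hg : Continuous g)
    (h : ∀ r ∈ Ioc a b, |f r| ≤ g r) : |∫ r in a..b, f r| ≤ ∫ r in a..b, g r := by
  have := intervalIntegral.norm_integral_le_of_norm_le (f := f) (g := g) (μ := volume) hab
    (Filter.Eventually.of_forall (fun r hr => by rw [Real.norm_eq_abs]; exact h r hr))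
    (hg.intervalIntegrable _ _)
  rwa [Real.norm_eq_abs] at this

private lemma StDM_L (hs : IsSlice R1 p) (hy : Hyp R1 p om) :
    0 < ep1 / om ∧ ep1 / om ≤ R1 := by
  have h1 := L_pos hy
  have h2 := L_le hs hy
  have := hs.R1pos
  exact ⟨h1, by linarith⟩

private lemma StDM_M (hs : IsSlice R1 p) (hy : Hyp R1 p om) :
    |p.M R1 (ep1 / om)| ≤ (59 / 100) * p.X R1 := by
  obtain ⟨hL, hLR⟩ := StDM_L hs hy
  refine le_trans ?_ (X_wtprod hs hy.en)
  unfold Pre.M
  refine StDM_abs hs.R1pos.le ?_ ?_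
  · have := hs.cwt; have := hs.cwr; have := hs.cw1
    fun_prop
  · intro r hr
    have hr0 : 0 < r := hr.1
    have hD : 0 < r + ep1 / om := by linarith
    have hz0 : 0 ≤ r / (r + ep1 / om) := by positivity
    have hz1 : r / (r + ep1 / om) ≤ 1 := by
      rw [div_le_one hD]; linarith
    have e : p.wt r * (r ^ 2 / (r + ep1 / om) * p.wr r + r / (2 * (r + ep1 / om)) * p.w r) =
        (r / (r + ep1 / om)) * (r * (p.wt r * (p.wr r + (1 / 2) * p.w1 r))) := by
      rw [hs.hw1 r]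
      field_simp
    rw [e, abs_mul, abs_mul, abs_mul, abs_of_nonneg hz0, abs_of_pos hr0]
    have h1 : |p.wr r + 1 / 2 * p.w1 r| ≤ |p.wr r| + (1 / 2) * |p.w1 r| := by
      refine (abs_add_le _ _).trans ?_
      rw [abs_mul, abs_of_pos (by norm_num : (0 : ℝ) < 1 / 2)]
    have h2 : r * (|p.wt r| * |p.wr r + 1 / 2 * p.w1 r|) ≤
        r * (|p.wt r| * (|p.wr r| + 1 / 2 * |p.w1 r|)) := by gcongr
    have h3 : 0 ≤ r * (|p.wt r| * |p.wr r + 1 / 2 * p.w1 r|) := by positivity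
    calc r / (r + ep1 / om) * (r * (|p.wt r| * |p.wr r + 1 / 2 * p.w1 r|))
        ≤ 1 * (r * (|p.wt r| * |p.wr r + 1 / 2 * p.w1 r|)) := by gcongr
      _ ≤ _ := by rw [one_mul]; exact h2

private lemma StDM_mu (hs : IsSlice R1 p) (hy : Hyp R1 p om) {r : ℝ} (hr : r ∈ Icc 0 R1) :
    |4 + p.a r| ≤ 4001 / 1000 := by
  have h := a_abs hs hy.en r hr
  rw [abs_le] at h ⊢
  constructor <;> linarith [h.1, h.2]

private lemma StDM_D (hs : IsSlice R1 p) (hy : Hyp R1 p om) (hg : Geo R1 p om lam) :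
    |p.D R1| ≤ 83 * (om ^ 2 * lam * chi R1 p) := by
  obtain ⟨hL, hLR⟩ := StDM_L hs hy
  set L : ℝ := ep1 / om with hLdef
  have hom := hy.hom
  have hom0 : 0 < om := lt_of_lt_of_le (by norm_num) hom
  have hlam := hg.lam_pos
  have hchi : 0 ≤ chi R1 p := chi_nonneg
  have hLam0 : 0 ≤ Lam R1 p om lam := by unfold Lam; positivity
  have hLs := Lam_small hs hy hg
  have hLl := Lam_le hs hy hg
  have cF : Continuous (fun r => p.w r * (4 + p.a r) * Real.sin (p.f r) * p.g r ^ 2) := by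
    have := hs.cw; have := hs.ca; have := hs.cf; have := hs.cg
    fun_prop
  have cw1 := hs.cw1
  have cg := hs.cg
  have csf : Continuous (fun r => Real.sin (p.f r)) := Real.continuous_sin.comp hs.cf
  obtain ⟨-, -, hX3⟩ := X_parts hs hy.en
  obtain ⟨hgE, -, -, -⟩ := En_parts hs hy.en
  have hXsq := chi_sq hs hy
  have hw1L : ∫ r in (0 : ℝ)..L, r * p.w1 r ^ 2 ≤ p.X R1 / 8 := by
    refine le_trans (int_mono_set (a := 0) (b := R1) le_rfl hL.le hLR ?_ ?_) hX3
    · exact Continuous.continuousOn (by fun_prop)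
    · intro x hx; have := hx.1; positivity
  have hw1R : ∫ r in L..R1, r * p.w1 r ^ 2 ≤ p.X R1 / 8 := by
    refine le_trans (int_mono_set (a := 0) (b := R1) hL.le hLR le_rfl ?_ ?_) hX3
    · exact Continuous.continuousOn (by fun_prop)
    · intro x hx; have := hx.1; positivity
  have hgR : ∫ r in L..R1, r * p.g r ^ 2 ≤ eps ^ 2 := by
    refine le_trans (int_mono_set (a := 0) (b := R1) hL.le hLR le_rfl ?_ ?_) hgE
    · exact Continuous.continuousOn (by fun_prop)
    · intro x hx; have := hx.1; positivity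
  -- near part
  have near : |∫ r in (0 : ℝ)..L, p.w r * (4 + p.a r) * Real.sin (p.f r) * p.g r ^ 2| ≤
      82 * (om ^ 2 * lam * chi R1 p) := by
    have h1 : |∫ r in (0 : ℝ)..L, p.w r * (4 + p.a r) * Real.sin (p.f r) * p.g r ^ 2| ≤
        ∫ r in (0 : ℝ)..L, (4001 / 1000 * (33 * om ^ 2)) * (r * (|p.w1 r| * |Real.sin (p.f r)|)) := by
      refine StDM_abs hL.le (by fun_prop) ?_
      intro r hr
      have hr0 : 0 < r := hr.1
      have hmu := StDM_mu hs hy (r := r) ⟨hr0.le, hr.2.trans hLR⟩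
      have hgn := g_near hs hy hg r ⟨hr0.le, hr.2⟩
      have hs1 : |Real.sin (p.f r)| ≤ 1 := Real.abs_sin_le_one _
      have hs0 := abs_nonneg (Real.sin (p.f r))
      have hg2 : p.g r ^ 2 ≤ 33 * om ^ 2 := by
        have h3 : |p.g r| ≤ 4 * om + 250 * (om / 10 ^ 14) := by
          refine hgn.trans ?_
          have : 4 * om * |Real.sin (p.f r)| ≤ 4 * om * 1 := by gcongr
          linarith
        have h4 : |p.g r| ≤ (41 / 10) * om := by
          refine h3.trans ?_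
          linarith
        have h5 := pow_le_pow_left₀ (abs_nonneg _) h4 2
        rw [sq_abs] at h5
        nlinarith [sq_nonneg om]
      rw [hs.hw1 r, abs_mul, abs_mul, abs_mul, abs_mul, abs_of_pos hr0,
        abs_of_nonneg (sq_nonneg (p.g r))]
      calc r * |p.w1 r| * |4 + p.a r| * |Real.sin (p.f r)| * p.g r ^ 2
          ≤ r * |p.w1 r| * (4001 / 1000) * |Real.sin (p.f r)| * (33 * om ^ 2) := by gcongr
        _ = _ := by ring
    refine h1.trans ?_
    rw [intervalIntegral.integral_const_mul]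
    have h2 := csr (a := 0) (b := L) le_rfl hL.le (u := p.w1) (v := fun r => Real.sin (p.f r))
      cw1.continuousOn csf.continuousOn
    have h3 := I_sin2 hs hy hg
    have h4 : Real.sqrt (∫ r in (0 : ℝ)..L, r * p.w1 r ^ 2) *
        Real.sqrt (∫ r in (0 : ℝ)..L, r * Real.sin (p.f r) ^ 2) ≤ (31 / 50) * (lam * chi R1 p) := by
      have hX0 : 0 ≤ p.X R1 := X_nonneg hs hy.en
      calc _ ≤ Real.sqrt (p.X R1 / 8) * Real.sqrt (3 * lam ^ 2) :=
            mul_le_mul (Real.sqrt_le_sqrt hw1L) (Real.sqrt_le_sqrt h3) (Real.sqrt_nonneg _)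
              (Real.sqrt_nonneg _)
        _ = Real.sqrt (p.X R1 / 8 * (3 * lam ^ 2)) := (Real.sqrt_mul (by positivity) _).symm
        _ ≤ Real.sqrt (((31 / 50) * (lam * chi R1 p)) ^ 2) := by
            apply Real.sqrt_le_sqrt
            rw [mul_pow, mul_pow, hXsq]
            nlinarith [mul_nonneg hX0 (sq_nonneg lam)]
        _ = _ := Real.sqrt_sq (by positivity)
    have h5 : ∫ r in (0 : ℝ)..L, r * (|p.w1 r| * |Real.sin (p.f r)|) ≤
        (31 / 50) * (lam * chi R1 p) := h2.trans h4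
    calc 4001 / 1000 * (33 * om ^ 2) * ∫ r in (0 : ℝ)..L, r * (|p.w1 r| * |Real.sin (p.f r)|)
        ≤ 4001 / 1000 * (33 * om ^ 2) * ((31 / 50) * (lam * chi R1 p)) := by gcongr
      _ = (4001 / 1000 * 33 * (31 / 50)) * (om ^ 2 * lam * chi R1 p) := by ring
      _ ≤ 82 * (om ^ 2 * lam * chi R1 p) :=
          mul_le_mul_of_nonneg_right (by norm_num) (by positivity)
  -- far part
  have far : |∫ r in L..R1, p.w r * (4 + p.a r) * Real.sin (p.f r) * p.g r ^ 2| ≤
      1 * (om ^ 2 * lam * chi R1 p) := by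
    have heps : (0 : ℝ) < eps := by unfold eps; norm_num
    have h1 : |∫ r in L..R1, p.w r * (4 + p.a r) * Real.sin (p.f r) * p.g r ^ 2| ≤
        ∫ r in L..R1, (4001 / 1000 * (900 * eps * Lam R1 p om lam)) *
          (r * (|p.w1 r| * |p.g r|)) := by
      refine StDM_abs hLR (by fun_prop) ?_
      intro r hr
      have hr0 : 0 < r := hL.trans hr.1
      have hmu := StDM_mu hs hy (r := r) ⟨hr0.le, hr.2⟩
      have hsg := sg_far hs hy hg r ⟨hr.1.le, hr.2⟩
      have e : p.w r * (4 + p.a r) * Real.sin (p.f r) * p.g r ^ 2 =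
          r * p.w1 r * (4 + p.a r) * (Real.sin (p.f r) * p.g r) * p.g r := by
        rw [hs.hw1 r]; ring
      rw [e, abs_mul, abs_mul, abs_mul, abs_mul, abs_mul, abs_of_pos hr0]
      calc r * |p.w1 r| * |4 + p.a r| * (|Real.sin (p.f r)| * |p.g r|) * |p.g r|
          ≤ r * |p.w1 r| * (4001 / 1000) * (900 * eps * Lam R1 p om lam) * |p.g r| := by gcongr
        _ = _ := by ring
    refine h1.trans ?_
    rw [intervalIntegral.integral_const_mul]
    have h2 := csr (a := L) (b := R1) hL.le hLR (u := p.w1) (v := p.g)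
      cw1.continuousOn cg.continuousOn
    have h4 : Real.sqrt (∫ r in L..R1, r * p.w1 r ^ 2) * Real.sqrt (∫ r in L..R1, r * p.g r ^ 2)
        ≤ chi R1 p * eps := by
      have hX0 : 0 ≤ p.X R1 := X_nonneg hs hy.en
      calc _ ≤ Real.sqrt (p.X R1) * Real.sqrt (eps ^ 2) :=
            mul_le_mul (Real.sqrt_le_sqrt (by linarith)) (Real.sqrt_le_sqrt hgR)
              (Real.sqrt_nonneg _) (Real.sqrt_nonneg _)
        _ = chi R1 p * eps := by rw [Real.sqrt_sq heps.le]; rfl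
    have h5 := h2.trans h4
    calc 4001 / 1000 * (900 * eps * Lam R1 p om lam) * ∫ r in L..R1, r * (|p.w1 r| * |p.g r|)
        ≤ 4001 / 1000 * (900 * eps * (4 * 10 ^ 7 * om ^ 2 * lam)) * (chi R1 p * eps) := by
          refine mul_le_mul (by gcongr) h5 ?_ (by positivity)
          refine intervalIntegral.integral_nonneg hLR (fun r hr => ?_)
          have : 0 ≤ r := hL.le.trans hr.1
          positivity
      _ = (4001 / 1000 * 900 * (4 * 10 ^ 7) * eps ^ 2) * (om ^ 2 * lam * chi R1 p) := by ring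
      _ ≤ 1 * (om ^ 2 * lam * chi R1 p) :=
          mul_le_mul_of_nonneg_right (by unfold eps; norm_num) (by positivity)
  unfold Pre.D
  rw [← intervalIntegral.integral_add_adjacent_intervals (cF.intervalIntegrable 0 L)
    (cF.intervalIntegrable L R1)]
  refine (abs_add_le _ _).trans ?_
  linarith

private lemma StDM_lamchi (hs : IsSlice R1 p) (hy : Hyp R1 p om) (hg : Geo R1 p om lam) :
    lam * chi R1 p ≤ 4 * Gam * om ^ 2 * p.N R1 := by
  have hX := hy.hX
  have hXsq := chi_sq hs hy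
  have hN := hy.Npos
  have hlam := hg.lam_pos
  have hG : (0 : ℝ) < Gam := by unfold Gam; norm_num
  have hom0 : 0 < om := lt_of_lt_of_le (by norm_num) hy.hom
  have hNlo := hg.N_lo
  have h0 : 0 ≤ 4 * Gam * om ^ 2 * p.N R1 := by positivity
  refine abs_le_of_sq_le_sq' ?_ h0 |>.2
  have h1 : lam ^ 2 ≤ 16 * p.N R1 := by linarith
  calc (lam * chi R1 p) ^ 2 = lam ^ 2 * p.X R1 := by rw [mul_pow, hXsq]
    _ ≤ (16 * p.N R1) * (Gam ^ 2 * om ^ 4 * p.N R1) := by
        apply mul_le_mul h1 hX (X_nonneg hs hy.en) (by positivity)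
    _ = (4 * Gam * om ^ 2 * p.N R1) ^ 2 := by ring

theorem st_DM (hs : IsSlice R1 p) (hy : Hyp R1 p om) :
    |2 * p.D R1 + (1 / 2) * p.M R1 (ep1 / om)| ≤
      (3 / 10) * p.X R1 + 10 ^ 10 * om ^ 4 * p.N R1 := by
  obtain ⟨lam, hg⟩ := exists_geo hs hy
  have h1 := StDM_M hs hy
  have h2 := StDM_D hs hy hg
  have h3 := StDM_lamchi hs hy hg
  have hN := hy.Npos
  have hX0 : 0 ≤ p.X R1 := X_nonneg hs hy.en
  have hom0 : 0 < om := lt_of_lt_of_le (by norm_num) hy.hom
  have h4 : om ^ 2 * lam * chi R1 p ≤ 4 * Gam * (om ^ 4 * p.N R1) := by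
    calc om ^ 2 * lam * chi R1 p = om ^ 2 * (lam * chi R1 p) := by ring
      _ ≤ om ^ 2 * (4 * Gam * om ^ 2 * p.N R1) := by gcongr
      _ = _ := by ring
  have h5 : 0 ≤ om ^ 4 * p.N R1 := by positivity
  have h6 : 166 * (4 * Gam * (om ^ 4 * p.N R1)) ≤ 10 ^ 10 * (om ^ 4 * p.N R1) := by
    unfold Gam
    nlinarith
  calc |2 * p.D R1 + (1 / 2) * p.M R1 (ep1 / om)|
      ≤ |2 * p.D R1| + |(1 / 2) * p.M R1 (ep1 / om)| := abs_add_le _ _
    _ = 2 * |p.D R1| + (1 / 2) * |p.M R1 (ep1 / om)| := by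
        rw [abs_mul, abs_mul, abs_of_pos (by norm_num : (0 : ℝ) < 2),
          abs_of_pos (by norm_num : (0 : ℝ) < 1 / 2)]
    _ ≤ _ := by linarith

theorem st_Ey (hs : IsSlice R1 p) (hy : Hyp R1 p om) : p.dEy R1 ≤ om ^ 2 / 100 := by
  obtain ⟨lam, hg⟩ := exists_geo hs hy
  have hom := hy.hom
  have hom0 : 0 < om := lt_of_lt_of_le (by norm_num) hom
  have hlam := hg.lam_pos
  have heps : (0 : ℝ) < eps := by unfold eps; norm_num
  have cg := hs.cg
  have cyt := hs.cyt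
  have cw := hs.cw
  have cy := hs.cy
  have cf := hs.cf
  obtain ⟨hgE, hwE, hyE, -⟩ := En_parts hs hy.en
  have hyt := yt_L2 hs hy
  have hR := hs.R1pos.le
  have hsq : Real.sqrt (2 * om) ≤ om := by
    rw [Real.sqrt_le_left hom0.le]
    nlinarith
  have hchi : chi R1 p ≤ om := by
    refine (chi_le hs hy hg).trans ?_
    have hb := hg.b_le
    have : 3 * 10 ^ 7 * om ^ 2 * lam = 3 * 10 ^ 7 * om * (om * lam) := by ring
    rw [this]
    calc 3 * 10 ^ 7 * om * (om * lam) ≤ 3 * 10 ^ 7 * om * eps := by gcongr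
      _ = (3 * 10 ^ 7 * eps) * om := by ring
      _ ≤ 1 * om := mul_le_mul_of_nonneg_right (by unfold eps; norm_num) hom0.le
      _ = om := one_mul _
  have h1 : ∫ r in (0 : ℝ)..R1, r * (|p.yt r| * |p.g r|) ≤ om * eps := by
    refine (csr (a := 0) (b := R1) le_rfl hR cyt.continuousOn cg.continuousOn).trans ?_
    calc _ ≤ Real.sqrt (2 * om) * Real.sqrt (eps ^ 2) :=
          mul_le_mul (Real.sqrt_le_sqrt hyt) (Real.sqrt_le_sqrt hgE) (Real.sqrt_nonneg _)
            (Real.sqrt_nonneg _)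
      _ ≤ om * eps := by rw [Real.sqrt_sq heps.le]; gcongr
  have h2 : ∫ r in (0 : ℝ)..R1, r * (|p.yt r| * |p.w r|) ≤ om * eps := by
    refine (csr (a := 0) (b := R1) le_rfl hR cyt.continuousOn cw.continuousOn).trans ?_
    calc _ ≤ Real.sqrt (2 * om) * Real.sqrt (eps ^ 2) :=
          mul_le_mul (Real.sqrt_le_sqrt hyt) (Real.sqrt_le_sqrt hwE) (Real.sqrt_nonneg _)
            (Real.sqrt_nonneg _)
      _ ≤ om * eps := by rw [Real.sqrt_sq heps.le]; gcongr
  have hmain : |p.dEy R1| ≤ ∫ r in (0 : ℝ)..R1, (5 * om * (r * p.y r ^ 2) +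
      5 * om * (r * (|p.yt r| * |p.g r|)) + om * (r * (|p.yt r| * |p.w r|))) := by
    unfold Pre.dEy
    refine StDM_abs hR (by fun_prop) ?_
    intro r hr
    have hr0 : 0 < r := hr.1
    have hrI : r ∈ Icc 0 R1 := ⟨hr0.le, hr.2⟩
    have hga := g_all hs hy hg r hrI
    have hwa : |p.w r| ≤ om := (w_abs hs hy.en r hrI).trans hchi
    have hs1 : |Real.sin (p.f r)| ≤ 1 := Real.abs_sin_le_one _
    have hc1 : |Real.cos (p.f r)| ≤ 1 := Real.abs_cos_le_one _
    have t1 : |r * Real.sin (p.f r) * Real.cos (p.f r) * p.g r * p.y r ^ 2| ≤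
        5 * om * (r * p.y r ^ 2) := by
      rw [abs_mul, abs_mul, abs_mul, abs_mul, abs_of_pos hr0, abs_of_nonneg (sq_nonneg (p.y r))]
      calc r * |Real.sin (p.f r)| * |Real.cos (p.f r)| * |p.g r| * p.y r ^ 2
          ≤ r * 1 * 1 * (5 * om) * p.y r ^ 2 := by gcongr
        _ = _ := by ring
    have t2 : |r * p.yt r * Real.cos (p.f r) * (p.g r ^ 2 - p.w r ^ 2)| ≤
        5 * om * (r * (|p.yt r| * |p.g r|)) + om * (r * (|p.yt r| * |p.w r|)) := by
      rw [abs_mul, abs_mul, abs_mul, abs_of_pos hr0]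
      have e3 : |p.g r ^ 2 - p.w r ^ 2| ≤ 5 * om * |p.g r| + om * |p.w r| := by
        refine (abs_sub _ _).trans ?_
        rw [abs_of_nonneg (sq_nonneg (p.g r)), abs_of_nonneg (sq_nonneg (p.w r)),
          ← sq_abs (p.g r), ← sq_abs (p.w r), sq, sq]
        gcongr
      calc r * |p.yt r| * |Real.cos (p.f r)| * |p.g r ^ 2 - p.w r ^ 2|
          ≤ r * |p.yt r| * 1 * (5 * om * |p.g r| + om * |p.w r|) := by gcongr
        _ = _ := by ring
    refine (abs_add_le _ _).trans ?_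
    linarith
  have hsplit : ∫ r in (0 : ℝ)..R1, (5 * om * (r * p.y r ^ 2) +
      5 * om * (r * (|p.yt r| * |p.g r|)) + om * (r * (|p.yt r| * |p.w r|))) =
      5 * om * (∫ r in (0 : ℝ)..R1, r * p.y r ^ 2) +
      5 * om * (∫ r in (0 : ℝ)..R1, r * (|p.yt r| * |p.g r|)) +
      om * (∫ r in (0 : ℝ)..R1, r * (|p.yt r| * |p.w r|)) := by
    rw [intervalIntegral.integral_add, intervalIntegral.integral_add,
      intervalIntegral.integral_const_mul, intervalIntegral.integral_const_mul,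
      intervalIntegral.integral_const_mul]
    · exact Continuous.intervalIntegrable (by fun_prop) _ _
    · exact Continuous.intervalIntegrable (by fun_prop) _ _
    · exact Continuous.intervalIntegrable (by fun_prop) _ _
    · exact Continuous.intervalIntegrable (by fun_prop) _ _
  rw [hsplit] at hmain
  have hfin : 5 * om * (∫ r in (0 : ℝ)..R1, r * p.y r ^ 2) +
      5 * om * (∫ r in (0 : ℝ)..R1, r * (|p.yt r| * |p.g r|)) +
      om * (∫ r in (0 : ℝ)..R1, r * (|p.yt r| * |p.w r|)) ≤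
      5 * om * eps ^ 2 + 5 * om * (om * eps) + om * (om * eps) := by gcongr
  refine (le_abs_self _).trans (hmain.trans (hfin.trans ?_))
  have hom1 : 1 ≤ om := le_trans (by norm_num) hom
  have h7 : 5 * om * eps ^ 2 ≤ om ^ 2 / 1000 := by
    unfold eps
    nlinarith
  have h8 : 5 * om * (om * eps) + om * (om * eps) = (6 * eps) * om ^ 2 := by ring
  have h9 : (6 * eps) * om ^ 2 ≤ (1 / 1000) * om ^ 2 :=
    mul_le_mul_of_nonneg_right (by unfold eps; norm_num) (sq_nonneg om)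
  nlinarith [sq_nonneg om]

end H72GS
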