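import Pool.Agent.H72.GS.StG

/-!
# StC0 (only `C0_rel, C0_est`): the law `om' = om² (1 + small)`

With `c = cos f, s = sin f`, `eta = g + 4 om s`, `C0 = ∫ r Th s c`, `Th c - Thd s = Xi`:
* `dN = ∫ r g (2 Th c - Xi) = -8 om C0 + 4 om ∫ r s Xi + ∫ r eta (2 Th c - Xi)`;
* `dP + 4 om dN = -16 om² C0 + 4 om ∫ r Xi eta + ∫ r Thd (eta² - w²) - ∫ μ w Xi - ∫ r y s Th`
  (insert `g = -4 om s + eta`: the coefficient of `om eta` is
  `-8 s Thd + 4 (2 Th c - Xi) = 4 Xi`, the coefficient of `om²` is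
  `16 s² Thd - 16 s (2 Th c - Xi) = -16 Th s c`).
* `C0_rel`: `∫ r μ s Th c = N - ∫ r JJ(f) + ∫ r² w Th c` (FTC for `r² (Th s - JJ)(f)`, whose
  `r`-derivative is `2 r (Th s - JJ) + 2 r² Th c f'`, `r f' = r w - μ s`).
* sizes, on the support `r ≤ 2·10⁶ lam` (`supp`; all of `Th, Thd, Xi, JJ` vanish beyond):
  `∫ r |JJ| ≤ 100 qq (2·10⁶ lam)²/2`, `∫ r² |w||Th| ≤ chi (2·10⁶ lam)³/3`,
  `|∫ r a s Th c| ≤ N/10⁵`, `|Xi| ≤ 16·10⁻¹⁸`, `∫ μ |w||Xi| ≤ 4.01·16·10⁻¹⁸·2·10⁶ lam chi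
  ≤ 1.3·10⁻¹⁰ lam chi`, `lam chi ≤ 4 Gam om² N`; `∫ r |Thd|(eta² + w²) ≤ 9·(250² + 1) Lam²·2·10¹² lam²`;
  `∫ r |y||s||Th| ≤ eps (3 lam²)^{1/2}`; `lam² ≤ 16 N`.
* `om' = -(dP + 4 om dN)/(4 N)`.
-/

namespace H72GS

open Set MeasureTheory intervalIntegral

variable {R1 : ℝ} {p : Pre} {om lam : ℝ}

private lemma StC0_loc {u : ℝ → ℝ} {R B C : ℝ} (k : ℕ) (hR : 0 ≤ R) (hB : 0 ≤ B) (hC : 0 ≤ C)
    (hu : Continuous u) (h : ∀ r ∈ Icc 0 R, |u r| ≤ C * r ^ k)
    (h0 : ∀ r ∈ Icc 0 R, B ≤ r → u r = 0) :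
    |∫ r in (0 : ℝ)..R, u r| ≤ C * (B ^ (k + 1) / (k + 1)) := by
  have main : ∀ b, 0 ≤ b → b ≤ R → |∫ r in (0 : ℝ)..b, u r| ≤ C * (b ^ (k + 1) / (k + 1)) := by
    intro b hb hbR
    have h1 : |∫ r in (0 : ℝ)..b, u r| ≤ ∫ r in (0 : ℝ)..b, |u r| :=
      intervalIntegral.abs_integral_le_integral_abs hb
    have h2 : ∫ r in (0 : ℝ)..b, |u r| ≤ ∫ r in (0 : ℝ)..b, C * r ^ k := by
      apply intervalIntegral.integral_mono_on hb
      · exact hu.abs.intervalIntegrable _ _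
      · exact (continuous_const.mul (continuous_pow k)).intervalIntegrable _ _
      · intro x hx
        exact h x ⟨hx.1, hx.2.trans hbR⟩
    have h3 : ∫ r in (0 : ℝ)..b, C * r ^ k = C * (b ^ (k + 1) / (k + 1)) := by
      rw [intervalIntegral.integral_const_mul, integral_pow]
      simp
    linarith
  rcases le_total B R with hBR | hBR
  · have e1 : ∫ r in (0 : ℝ)..R, u r = (∫ r in (0 : ℝ)..B, u r) + ∫ r in B..R, u r :=
      (intervalIntegral.integral_add_adjacent_intervals (hu.intervalIntegrable _ _)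
        (hu.intervalIntegrable _ _)).symm
    have e2 : ∫ r in B..R, u r = ∫ r in B..R, (0 : ℝ) := by
      apply intervalIntegral.integral_congr
      intro x hx
      rw [uIcc_of_le hBR] at hx
      exact h0 x ⟨hB.trans hx.1, hx.2⟩ hx.1
    rw [e1, e2, intervalIntegral.integral_zero, add_zero]
    exact main B hB hBR
  · refine (main R hR (le_refl _)).trans ?_
    apply mul_le_mul_of_nonneg_left _ hC
    apply div_le_div_of_nonneg_right _ (by positivity)
    exact pow_le_pow_left₀ hR hBR _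

private lemma StC0_f0 : Th 0 = 0 := by
  apply Th_zero
  rw [Real.cos_zero]
  unfold qq; norm_num

private lemma StC0_J0 : JJ 0 = 0 := by
  unfold JJ
  simp

theorem C0_rel (hs : IsSlice R1 p) :
    ∫ r in (0 : ℝ)..R1, r * (4 + p.a r) * Real.sin (p.f r) * Th (p.f r) * Real.cos (p.f r)
      = p.N R1 - (∫ r in (0 : ℝ)..R1, r * JJ (p.f r))
        + ∫ r in (0 : ℝ)..R1, r ^ 2 * p.w r * Th (p.f r) * Real.cos (p.f r) := by
  have cf := hs.cf
  have cTh : Continuous fun r => Th (p.f r) := continuous_Th.comp cf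
  have cJ : Continuous fun r => JJ (p.f r) := continuous_JJ.comp cf
  have cS : Continuous fun r => Real.sin (p.f r) := Real.continuous_sin.comp cf
  have cC : Continuous fun r => Real.cos (p.f r) := Real.continuous_cos.comp cf
  have ca := hs.ca
  have cw := hs.cw
  have cid : Continuous fun r : ℝ => r := continuous_id
  have i1 : Continuous fun r => r * (4 + p.a r) * Real.sin (p.f r) * Th (p.f r) * Real.cos (p.f r) :=
    (((cid.mul (continuous_const.add ca)).mul cS).mul cTh).mul cC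
  have i2 : Continuous fun r => r * Th (p.f r) * Real.sin (p.f r) := (cid.mul cTh).mul cS
  have i3 : Continuous fun r => r * JJ (p.f r) := cid.mul cJ
  have i4 : Continuous fun r => r ^ 2 * p.w r * Th (p.f r) * Real.cos (p.f r) :=
    (((cid.pow 2).mul cw).mul cTh).mul cC
  have key : ∫ r in (0 : ℝ)..R1, (2 * (r * Th (p.f r) * Real.sin (p.f r) - r * JJ (p.f r)
      + r ^ 2 * p.w r * Th (p.f r) * Real.cos (p.f r)
      - r * (4 + p.a r) * Real.sin (p.f r) * Th (p.f r) * Real.cos (p.f r))) =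
      R1 ^ 2 * (Th (p.f R1) * Real.sin (p.f R1) - JJ (p.f R1))
        - 0 ^ 2 * (Th (p.f 0) * Real.sin (p.f 0) - JJ (p.f 0)) := by
    refine intervalIntegral.integral_eq_sub_of_hasDerivAt_of_le
      (f := fun r => r ^ 2 * (Th (p.f r) * Real.sin (p.f r) - JJ (p.f r))) hs.R1pos.le ?_ ?_ ?_
    · exact ((cid.pow 2).mul ((cTh.mul cS).sub cJ)).continuousOn
    · intro r hr
      have hr0 : 0 < r := hr.1
      have d1 := hs.df r hr0
      have d2 : HasDerivAt (fun r => Th (p.f r)) (Thd (p.f r) *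
        (p.w r - (4 + p.a r) * Real.sin (p.f r) / r)) r := (hasDerivAt_Th (p.f r)).comp r d1
      have d3 : HasDerivAt (fun r => Real.sin (p.f r)) (Real.cos (p.f r) *
        (p.w r - (4 + p.a r) * Real.sin (p.f r) / r)) r := (Real.hasDerivAt_sin (p.f r)).comp r d1
      have d4 : HasDerivAt (fun r => JJ (p.f r)) (-Xi (p.f r) *
        (p.w r - (4 + p.a r) * Real.sin (p.f r) / r)) r := (hasDerivAt_JJ (p.f r)).comp r d1
      have d5 := (hasDerivAt_pow 2 r).mul ((d2.mul d3).sub d4)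
      refine d5.congr_deriv ?_
      have hX := Th_cos_sub (p.f r)
      rw [← hX]
      simp only [Pi.mul_apply, Pi.sub_apply]
      push_cast
      field_simp
      ring
    · refine Continuous.intervalIntegrable ?_ _ _
      exact continuous_const.mul (((i2.sub i3).add i4).sub i1)
  rw [hs.fR, StC0_f0, StC0_J0] at key
  have e0 : R1 ^ 2 * (0 * Real.sin 0 - 0) - 0 ^ 2 * (Th (p.f 0) * Real.sin (p.f 0) - JJ (p.f 0)) = 0 := by
    ring
  rw [e0, intervalIntegral.integral_const_mul] at key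
  have e1 : ∫ r in (0 : ℝ)..R1, (r * Th (p.f r) * Real.sin (p.f r) - r * JJ (p.f r)
      + r ^ 2 * p.w r * Th (p.f r) * Real.cos (p.f r)
      - r * (4 + p.a r) * Real.sin (p.f r) * Th (p.f r) * Real.cos (p.f r)) =
      (∫ r in (0 : ℝ)..R1, r * Th (p.f r) * Real.sin (p.f r)) - (∫ r in (0 : ℝ)..R1, r * JJ (p.f r))
      + (∫ r in (0 : ℝ)..R1, r ^ 2 * p.w r * Th (p.f r) * Real.cos (p.f r))
      - ∫ r in (0 : ℝ)..R1, r * (4 + p.a r) * Real.sin (p.f r) * Th (p.f r) * Real.cos (p.f r) := by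
    have i23 : Continuous fun r => r * Th (p.f r) * Real.sin (p.f r) - r * JJ (p.f r) := i2.sub i3
    have i234 : Continuous fun r => r * Th (p.f r) * Real.sin (p.f r) - r * JJ (p.f r)
      + r ^ 2 * p.w r * Th (p.f r) * Real.cos (p.f r) := i23.add i4
    rw [intervalIntegral.integral_sub (i234.intervalIntegrable _ _)
      (i1.intervalIntegrable _ _), intervalIntegral.integral_add (i23.intervalIntegrable _ _)
      (i4.intervalIntegrable _ _), intervalIntegral.integral_sub (i2.intervalIntegrable _ _)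
      (i3.intervalIntegrable _ _)]
  rw [e1] at key
  have eN : p.N R1 = ∫ r in (0 : ℝ)..R1, r * Th (p.f r) * Real.sin (p.f r) := rfl
  rw [eN]
  linarith

theorem C0_est (hs : IsSlice R1 p) (hy : Hyp R1 p om) (hg : Geo R1 p om lam) :
    |4 * (∫ r in (0 : ℝ)..R1, r * Real.sin (p.f r) * Th (p.f r) * Real.cos (p.f r)) - p.N R1|
      ≤ p.N R1 / 1000 := by
  have cf := hs.cf
  have cTh : Continuous fun r => Th (p.f r) := continuous_Th.comp cf
  have cJ : Continuous fun r => JJ (p.f r) := continuous_JJ.comp cf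
  have cS : Continuous fun r => Real.sin (p.f r) := Real.continuous_sin.comp cf
  have cC : Continuous fun r => Real.cos (p.f r) := Real.continuous_cos.comp cf
  have ca := hs.ca
  have cw := hs.cw
  have cid : Continuous fun r : ℝ => r := continuous_id
  have hR := hs.R1pos
  have hl := hg.lam_pos
  have hN := hg.N_lo
  have i0 : Continuous fun r => r * Real.sin (p.f r) * Th (p.f r) * Real.cos (p.f r) :=
    ((cid.mul cS).mul cTh).mul cC
  have i2 : Continuous fun r => r * Th (p.f r) * Real.sin (p.f r) := (cid.mul cTh).mul cS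
  have i5 : Continuous fun r => r * p.a r * Real.sin (p.f r) * Th (p.f r) * Real.cos (p.f r) :=
    (((cid.mul ca).mul cS).mul cTh).mul cC
  have rel := C0_rel hs
  have e1 : ∫ r in (0 : ℝ)..R1, r * (4 + p.a r) * Real.sin (p.f r) * Th (p.f r) * Real.cos (p.f r) =
      4 * (∫ r in (0 : ℝ)..R1, r * Real.sin (p.f r) * Th (p.f r) * Real.cos (p.f r)) +
      ∫ r in (0 : ℝ)..R1, r * p.a r * Real.sin (p.f r) * Th (p.f r) * Real.cos (p.f r) := by
    have i00 : Continuous fun r =>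
      4 * (r * Real.sin (p.f r) * Th (p.f r) * Real.cos (p.f r)) := continuous_const.mul i0
    rw [← intervalIntegral.integral_const_mul, ← intervalIntegral.integral_add
      (i00.intervalIntegrable _ _) (i5.intervalIntegrable _ _)]
    apply intervalIntegral.integral_congr
    intro r _
    show r * (4 + p.a r) * Real.sin (p.f r) * Th (p.f r) * Real.cos (p.f r) =
      4 * (r * Real.sin (p.f r) * Th (p.f r) * Real.cos (p.f r)) +
      r * p.a r * Real.sin (p.f r) * Th (p.f r) * Real.cos (p.f r)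
    ring
  have hB : 0 ≤ 2 * 10 ^ 6 * lam := by positivity
  -- a term
  have b1 : |∫ r in (0 : ℝ)..R1, r * p.a r * Real.sin (p.f r) * Th (p.f r) * Real.cos (p.f r)| ≤
      1 / 100000 * p.N R1 := by
    have h1 : |∫ r in (0 : ℝ)..R1, r * p.a r * Real.sin (p.f r) * Th (p.f r) * Real.cos (p.f r)| ≤
        ∫ r in (0 : ℝ)..R1, |r * p.a r * Real.sin (p.f r) * Th (p.f r) * Real.cos (p.f r)| :=
      intervalIntegral.abs_integral_le_integral_abs hR.le
    refine h1.trans ?_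
    have eN : p.N R1 = ∫ r in (0 : ℝ)..R1, r * Th (p.f r) * Real.sin (p.f r) := rfl
    rw [eN, ← intervalIntegral.integral_const_mul]
    apply intervalIntegral.integral_mono_on hR.le
    · exact i5.abs.intervalIntegrable _ _
    · exact (continuous_const.mul i2).intervalIntegrable _ _
    · intro r hr
      have ha := a_abs hs hy.en r hr
      have hT := Th_mul_sin_nonneg (p.f r)
      have hc := Real.abs_cos_le_one (p.f r)
      have e : r * p.a r * Real.sin (p.f r) * Th (p.f r) * Real.cos (p.f r) =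
        (r * (Th (p.f r) * Real.sin (p.f r))) * (p.a r * Real.cos (p.f r)) := by ring
      rw [e, abs_mul, abs_mul (p.a r), abs_of_nonneg (mul_nonneg hr.1 hT)]
      have h2 : |p.a r| * |Real.cos (p.f r)| ≤ 1 / 100000 * 1 :=
        mul_le_mul ha hc (abs_nonneg _) (by norm_num)
      have h3 : 0 ≤ r * (Th (p.f r) * Real.sin (p.f r)) := mul_nonneg hr.1 hT
      calc (r * (Th (p.f r) * Real.sin (p.f r))) * (|p.a r| * |Real.cos (p.f r)|)
          ≤ (r * (Th (p.f r) * Real.sin (p.f r))) * (1 / 100000 * 1) :=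
            mul_le_mul_of_nonneg_left h2 h3
        _ = 1 / 100000 * (r * Th (p.f r) * Real.sin (p.f r)) := by ring
  -- support
  have hsupp := supp hs hy.en hl hg.lam_lt hg.f_lam
  have b2 : |∫ r in (0 : ℝ)..R1, r * JJ (p.f r)| ≤ 100 * qq * ((2 * 10 ^ 6 * lam) ^ 2 / 2) := by
    have := StC0_loc (u := fun r => r * JJ (p.f r)) (R := R1) (B := 2 * 10 ^ 6 * lam)
      (C := 100 * qq) 1 hR.le hB (by unfold qq; norm_num) (cid.mul cJ) ?_ ?_
    · norm_num at this ⊢
      exact this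
    · intro r hr
      have h1 := f_range hs hy.en r hr
      have h2 := JJ_abs h1.1 h1.2
      rw [abs_mul, abs_of_nonneg hr.1, pow_one]
      nlinarith [hr.1]
    · intro r hr h1
      have h2 := hsupp r hr h1
      have h3 : lam ≤ r := by
        refine le_trans ?_ h1
        nlinarith
      have h4 := (far0 hs hy.en hl hg.lam_lt hg.f_lam r ⟨h3, hr.2⟩).1
      show r * JJ (p.f r) = 0
      rw [JJ_zero h4.le h2, mul_zero]
  have b3 : |∫ r in (0 : ℝ)..R1, r ^ 2 * p.w r * Th (p.f r) * Real.cos (p.f r)| ≤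
      chi R1 p * ((2 * 10 ^ 6 * lam) ^ 3 / 3) := by
    have := StC0_loc (u := fun r => r ^ 2 * p.w r * Th (p.f r) * Real.cos (p.f r)) (R := R1)
      (B := 2 * 10 ^ 6 * lam) (C := chi R1 p) 2 hR.le hB chi_nonneg
      ((((cid.pow 2).mul cw).mul cTh).mul cC) ?_ ?_
    · norm_num at this ⊢
      exact this
    · intro r hr
      have h1 := w_abs hs hy.en r hr
      have h2 : |Th (p.f r)| ≤ 1 := (Th_abs_le _).trans (Real.abs_sin_le_one _)
      have h3 := Real.abs_cos_le_one (p.f r)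
      rw [abs_mul, abs_mul, abs_mul, abs_of_nonneg (sq_nonneg r)]
      have h4 : |p.w r| * |Th (p.f r)| ≤ chi R1 p * 1 :=
        mul_le_mul h1 h2 (abs_nonneg _) chi_nonneg
      have h5 : |p.w r| * |Th (p.f r)| * |Real.cos (p.f r)| ≤ chi R1 p * 1 * 1 :=
        mul_le_mul h4 h3 (abs_nonneg _) (by simpa using chi_nonneg)
      calc r ^ 2 * |p.w r| * |Th (p.f r)| * |Real.cos (p.f r)|
          = r ^ 2 * (|p.w r| * |Th (p.f r)| * |Real.cos (p.f r)|) := by ring
        _ ≤ r ^ 2 * (chi R1 p * 1 * 1) := mul_le_mul_of_nonneg_left h5 (sq_nonneg r)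
        _ = chi R1 p * r ^ 2 := by ring
    · intro r hr h1
      have h2 := hsupp r hr h1
      show r ^ 2 * p.w r * Th (p.f r) * Real.cos (p.f r) = 0
      rw [Th_zero h2]
      ring
  -- numerical part
  have hchi := chi_le hs hy hg
  have hb := hg.b_le
  have hom : 0 < om := lt_of_lt_of_le (by norm_num) hy.hom
  have hx : chi R1 p * lam ≤ 3 / 10 ^ 37 := by
    have h1 : chi R1 p * lam ≤ 3 * 10 ^ 7 * om ^ 2 * lam * lam :=
      mul_le_mul_of_nonneg_right hchi hl.le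
    have h2 : (om * lam) ^ 2 ≤ eps ^ 2 := pow_le_pow_left₀ (by positivity) hb 2
    have h3 : eps ^ 2 = 1 / 10 ^ 44 := by unfold eps; norm_num
    rw [h3] at h2
    calc chi R1 p * lam ≤ 3 * 10 ^ 7 * om ^ 2 * lam * lam := h1
      _ = 3 * 10 ^ 7 * (om * lam) ^ 2 := by ring
      _ ≤ 3 * 10 ^ 7 * (1 / 10 ^ 44) := by
          apply mul_le_mul_of_nonneg_left h2 (by norm_num)
      _ = 3 / 10 ^ 37 := by norm_num
  have c3 : chi R1 p * ((2 * 10 ^ 6 * lam) ^ 3 / 3) ≤ 1 / 10 ^ 18 * lam ^ 2 := by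
    have e : chi R1 p * ((2 * 10 ^ 6 * lam) ^ 3 / 3) = (chi R1 p * lam) * ((8 * 10 ^ 18 / 3) * lam ^ 2) := by
      ring
    rw [e]
    have h1 : (chi R1 p * lam) * ((8 * 10 ^ 18 / 3) * lam ^ 2) ≤
        (3 / 10 ^ 37) * ((8 * 10 ^ 18 / 3) * lam ^ 2) :=
      mul_le_mul_of_nonneg_right hx (by positivity)
    refine h1.trans ?_
    have h2 : (3 / 10 ^ 37) * ((8 * 10 ^ 18 / 3) * lam ^ 2) = (8 / 10 ^ 19) * lam ^ 2 := by ring
    rw [h2]
    apply mul_le_mul_of_nonneg_right _ (sq_nonneg _)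
    norm_num
  have c2 : 100 * qq * ((2 * 10 ^ 6 * lam) ^ 2 / 2) ≤ 1 / 10 ^ 18 * lam ^ 2 := by
    have e : 100 * qq * ((2 * 10 ^ 6 * lam) ^ 2 / 2) = (200 * 10 ^ 12 * qq) * lam ^ 2 := by ring
    rw [e]
    apply mul_le_mul_of_nonneg_right _ (sq_nonneg _)
    unfold qq
    norm_num
  have hN0 := hy.Npos
  have hlN : lam ^ 2 ≤ 16 * p.N R1 := by linarith
  have d2 : 1 / 10 ^ 18 * lam ^ 2 ≤ 1 / 10 ^ 16 * p.N R1 := by
    have : (1 : ℝ) / 10 ^ 18 * lam ^ 2 ≤ 1 / 10 ^ 18 * (16 * p.N R1) :=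
      mul_le_mul_of_nonneg_left hlN (by norm_num)
    have h2 : (1 : ℝ) / 10 ^ 18 * (16 * p.N R1) ≤ 1 / 10 ^ 16 * p.N R1 := by
      have : (1 : ℝ) / 10 ^ 18 * (16 * p.N R1) = (16 / 10 ^ 18) * p.N R1 := by ring
      rw [this]
      apply mul_le_mul_of_nonneg_right _ hN0.le
      norm_num
    linarith
  rw [e1] at rel
  have a1 := abs_le.1 b1
  have a2 := abs_le.1 (b2.trans c2)
  have a3 := abs_le.1 (b3.trans c3)
  rw [abs_le]
  constructor
  · have : (1 : ℝ) / 100000 * p.N R1 + 1 / 10 ^ 16 * p.N R1 + 1 / 10 ^ 16 * p.N R1 ≤ p.N R1 / 1000 := by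
      have h : (1 : ℝ) / 100000 * p.N R1 + 1 / 10 ^ 16 * p.N R1 + 1 / 10 ^ 16 * p.N R1 =
        (1 / 100000 + 1 / 10 ^ 16 + 1 / 10 ^ 16) * p.N R1 := by ring
      rw [h]
      have h9 : p.N R1 / 1000 = (1 / 1000) * p.N R1 := by ring
      rw [h9]
      apply mul_le_mul_of_nonneg_right _ hN0.le
      norm_num
    linarith [a1.1, a1.2, a2.1, a2.2, a3.1, a3.2]
  · have : (1 : ℝ) / 100000 * p.N R1 + 1 / 10 ^ 16 * p.N R1 + 1 / 10 ^ 16 * p.N R1 ≤ p.N R1 / 1000 := by
      have h : (1 : ℝ) / 100000 * p.N R1 + 1 / 10 ^ 16 * p.N R1 + 1 / 10 ^ 16 * p.N R1 =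
        (1 / 100000 + 1 / 10 ^ 16 + 1 / 10 ^ 16) * p.N R1 := by ring
      rw [h]
      have h9 : p.N R1 / 1000 = (1 / 1000) * p.N R1 := by ring
      rw [h9]
      apply mul_le_mul_of_nonneg_right _ hN0.le
      norm_num
    linarith [a1.1, a1.2, a2.1, a2.2, a3.1, a3.2]

end H72GS
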