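import Pool.Agent.H72.GS.StFar
import Pool.Agent.H72.GS.StC0

/-!
# StOde: the law `om' = om² (1 + small)`

With `c = cos f, s = sin f`, `eta = g + 4 om s`, `C0 = ∫ r Th s c`, `Th c - Thd s = Xi`:
* `dN = ∫ r g (2 Th c - Xi) = -8 om C0 + 4 om ∫ r s Xi + ∫ r eta (2 Th c - Xi)`;
* `dP + 4 om dN = -16 om² C0 + 4 om ∫ r Xi eta + ∫ r Thd (eta² - w²) - ∫ μ w Xi - ∫ r y s Th`
  (insert `g = -4 om s + eta`: the coefficient of `om eta` is
  `-8 s Thd + 4 (2 Th c - Xi) = 4 Xi`, the coefficient of `om²` is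
  `16 s² Thd - 16 s (2 Th c - Xi) = -16 Th s c`).
* `C0_rel`: `∫ r μ s Th c = N - ∫ r JJ(f) + ∫ r² w Th c` (FTC for `r² (Th s - JJ)(f)`, whose
  `r`-derivative is `2 r (Th s - JJ) + 2 r² Th c f'`, `r f' = r w - μ s`).
* sizes, on the support `r ≤ 2·10⁶ lam` (`supp`; all of `Th, Thd, Xi, JJ` vanish beyond):
  `∫ r |JJ| ≤ 100 qq (2·10⁶ lam)²/2`, `∫ r² |w||Th| ≤ chi (2·10⁶ lam)³/3`,
  `|∫ r a s Th c| ≤ N/10⁵`, `|Xi| ≤ 16·10⁻¹⁸`, `∫ μ |w||Xi| ≤ 4.01·16·10⁻¹⁸·2·10⁶ lam chi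
  ≤ 1.3·10⁻¹⁰ lam chi`, `lam chi ≤ 4 Gam om² N`; `∫ r |Thd|(eta² + w²) ≤ 9·(250² + 1) Lam²·2·10¹² lam²`;
  `∫ r |y||s||Th| ≤ eps (3 lam²)^{1/2}`; `lam² ≤ 16 N`.
* `om' = -(dP + 4 om dN)/(4 N)`.
-/

namespace H72GS

open Set MeasureTheory intervalIntegral

variable {R1 : ℝ} {p : Pre} {om lam : ℝ}

theorem StOde_id1 (R1 om : ℝ) {g s c T X : ℝ → ℝ} (hg : Continuous g) (hs : Continuous s)
    (hc : Continuous c) (hT : Continuous T) (hX : Continuous X) :
    ∫ r in (0 : ℝ)..R1, r * g r * (2 * T r * c r - X r) =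
      -8 * om * (∫ r in (0 : ℝ)..R1, r * s r * T r * c r)
      + 4 * om * (∫ r in (0 : ℝ)..R1, r * (X r * s r))
      + (∫ r in (0 : ℝ)..R1, r * (g r + 4 * om * s r) * (2 * T r * c r))
      - ∫ r in (0 : ℝ)..R1, r * X r * (g r + 4 * om * s r) := by
  have h : (fun r => r * g r * (2 * T r * c r - X r)) = fun r =>
      ((-8 * om) * (r * s r * T r * c r) + (4 * om) * (r * (X r * s r))
      + r * (g r + 4 * om * s r) * (2 * T r * c r)) - r * X r * (g r + 4 * om * s r) := by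
    funext r
    ring
  rw [h, intervalIntegral.integral_sub, intervalIntegral.integral_add,
    intervalIntegral.integral_add, intervalIntegral.integral_const_mul,
    intervalIntegral.integral_const_mul]
  all_goals exact Continuous.intervalIntegrable (by fun_prop) _ _

theorem StOde_id2 (R1 om : ℝ) {g s c T Td X w y a : ℝ → ℝ} (hg : Continuous g)
    (hs : Continuous s) (hc : Continuous c) (hT : Continuous T) (hTd : Continuous Td)
    (hX : Continuous X) (hw : Continuous w) (hy : Continuous y) (ha : Continuous a)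
    (h : ∀ r, T r * c r - Td r * s r = X r) :
    (∫ r in (0 : ℝ)..R1, (r * Td r * (g r ^ 2 - w r ^ 2) - (4 + a r) * w r * X r
        - r * y r * s r * T r))
      + 4 * om * (∫ r in (0 : ℝ)..R1, r * g r * (2 * T r * c r - X r)) =
      -16 * om ^ 2 * (∫ r in (0 : ℝ)..R1, r * s r * T r * c r)
      + 4 * om * (∫ r in (0 : ℝ)..R1, r * X r * (g r + 4 * om * s r))
      + (∫ r in (0 : ℝ)..R1, r * Td r * ((g r + 4 * om * s r) ^ 2 - w r ^ 2))
      - (∫ r in (0 : ℝ)..R1, (4 + a r) * w r * X r)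
      - ∫ r in (0 : ℝ)..R1, r * y r * s r * T r := by
  rw [← intervalIntegral.integral_const_mul, ← intervalIntegral.integral_const_mul,
    ← intervalIntegral.integral_const_mul, ← intervalIntegral.integral_add,
    ← intervalIntegral.integral_add, ← intervalIntegral.integral_add,
    ← intervalIntegral.integral_sub, ← intervalIntegral.integral_sub]
  · congr 1
    funext r
    rw [← h r]
    ring
  all_goals exact Continuous.intervalIntegrable (by fun_prop) _ _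

theorem StOde_mono {F G : ℝ → ℝ} {a b : ℝ} (hab : a ≤ b) (hF : Continuous F)
    (hG : Continuous G) (h : ∀ r ∈ Icc a b, |F r| ≤ G r) :
    |∫ r in a..b, F r| ≤ ∫ r in a..b, G r := by
  refine (abs_integral_le_integral_abs hab).trans ?_
  exact integral_mono_on hab (hF.abs.intervalIntegrable _ _) (hG.intervalIntegrable _ _) h

theorem StOde_supp0 {F : ℝ → ℝ} {rho R1 : ℝ} (hF : Continuous F)
    (hR : rho ≤ R1) (h2 : ∀ r ∈ Icc rho R1, F r = 0) :
    ∫ r in (0 : ℝ)..R1, F r = ∫ r in (0 : ℝ)..rho, F r := by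
  rw [← integral_add_adjacent_intervals (hF.intervalIntegrable 0 rho)
    (hF.intervalIntegrable rho R1)]
  have : ∫ r in rho..R1, F r = ∫ _ in rho..R1, (0 : ℝ) :=
    integral_congr fun r hr => h2 r (by rwa [uIcc_of_le hR] at hr)
  rw [this]
  simp

theorem StOde_supp1 {F : ℝ → ℝ} {rho R1 B : ℝ} (hF : Continuous F) (h0 : 0 ≤ rho)
    (hR : rho ≤ R1) (h1 : ∀ r ∈ Icc 0 rho, |F r| ≤ B * r)
    (h2 : ∀ r ∈ Icc rho R1, F r = 0) :
    |∫ r in (0 : ℝ)..R1, F r| ≤ B * (rho ^ 2 / 2) := by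
  rw [StOde_supp0 hF hR h2]
  refine (StOde_mono h0 hF (by fun_prop) h1).trans (le_of_eq ?_)
  rw [intervalIntegral.integral_const_mul, integral_id]
  ring

theorem StOde_supp2 {F : ℝ → ℝ} {rho R1 B : ℝ} (hF : Continuous F) (h0 : 0 ≤ rho)
    (hR : rho ≤ R1) (h1 : ∀ r ∈ Icc 0 rho, |F r| ≤ B)
    (h2 : ∀ r ∈ Icc rho R1, F r = 0) :
    |∫ r in (0 : ℝ)..R1, F r| ≤ B * rho := by
  rw [StOde_supp0 hF hR h2]
  refine (StOde_mono h0 hF continuous_const h1).trans (le_of_eq ?_)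
  rw [intervalIntegral.integral_const, smul_eq_mul]
  ring

/-- everything needed on the support -/
theorem StOde_data (hs : IsSlice R1 p) (hy : Hyp R1 p om) (hg : Geo R1 p om lam) :
    0 ≤ 2 * 10 ^ 6 * lam ∧ 2 * 10 ^ 6 * lam ≤ R1 ∧ 0 < om ∧
    (∀ r ∈ Icc (2 * 10 ^ 6 * lam) R1, 1 - qq ≤ Real.cos (p.f r)) ∧
    (∀ r ∈ Icc 0 (2 * 10 ^ 6 * lam), |eta p om r| ≤ om / 10 ^ 12) ∧
    (∀ r ∈ Icc 0 R1, |p.w r| ≤ om / 10 ^ 12) := by
  have hl := hg.lam_pos
  have hom : 0 < om := lt_of_lt_of_le (by positivity) hy.hom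
  have h1 := lam_le_L hy hg
  have h2 := L_le hs hy
  have h3 := L_pos hy
  have hR := hs.R1pos
  have hρL : 2 * 10 ^ 6 * lam ≤ ep1 / om := by
    refine le_trans ?_ h1
    nlinarith
  have hρR : 2 * 10 ^ 6 * lam ≤ R1 := by linarith
  have hb := hg.b_le
  have hb' : om ^ 2 * lam ≤ om * (1 / 10 ^ 22) := by
    have : om ^ 2 * lam = om * (om * lam) := by ring
    rw [this]
    exact mul_le_mul_of_nonneg_left hb hom.le
  refine ⟨by positivity, hρR, hom, fun r hr => ?_, fun r hr => ?_, fun r hr => ?_⟩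
  · exact supp hs hy.en hl hg.lam_lt hg.f_lam r
      ⟨le_trans (by positivity) hr.1, hr.2⟩ hr.1
  · refine (eta_abs hs hy hg r ⟨hr.1, hr.2.trans hρL⟩).trans ?_
    have h4 := Lam_le hs hy hg
    calc 250 * Lam R1 p om lam ≤ 250 * (4 * 10 ^ 7 * (om ^ 2 * lam)) := by linarith
      _ ≤ 250 * (4 * 10 ^ 7 * (om * (1 / 10 ^ 22))) := by gcongr
      _ = om / 10 ^ 12 := by ring
  · have h4 : |p.w r| ≤ chi R1 p := w_abs hs hy.en r hr
    have h5 := chi_le hs hy hg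
    calc |p.w r| ≤ 3 * 10 ^ 7 * (om ^ 2 * lam) := by linarith
      _ ≤ 3 * 10 ^ 7 * (om * (1 / 10 ^ 22)) := by gcongr
      _ ≤ om / 10 ^ 12 := by
        have : 3 * 10 ^ 7 * (om * (1 / 10 ^ 22)) = om * (3 / 10 ^ 15) := by ring
        rw [this]
        have h6 : om / 10 ^ 12 = om * (1 / 10 ^ 12) := by ring
        rw [h6]
        apply mul_le_mul_of_nonneg_left _ hom.le
        norm_num

theorem StOde_ceta (hs : IsSlice R1 p) : Continuous (fun r => eta p om r) :=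
  hs.cg.add (continuous_const.mul (Real.continuous_sin.comp hs.cf))

/-- the term with `Xi η` -/
theorem StOde_t1 (hs : IsSlice R1 p) (hy : Hyp R1 p om) (hg : Geo R1 p om lam) :
    |∫ r in (0 : ℝ)..R1, r * Xi (p.f r) * eta p om r| ≤ om * lam ^ 2 / 10 ^ 10 := by
  obtain ⟨h0, hR, hom, h1, h2, h3⟩ := StOde_data hs hy hg
  have hc : Continuous (fun r => r * Xi (p.f r) * eta p om r) :=
    (continuous_id.mul (continuous_Xi.comp hs.cf)).mul (StOde_ceta hs)
  refine (StOde_supp1 (B := 16 / 10 ^ 18 * (om / 10 ^ 12)) hc h0 hR (fun r hr => ?_)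
    (fun r hr => ?_)).trans ?_
  · rw [abs_mul, abs_mul, abs_of_nonneg hr.1]
    have h4 := Xi_abs (p.f r)
    have h5 := h2 r hr
    calc r * |Xi (p.f r)| * |eta p om r| = r * (|Xi (p.f r)| * |eta p om r|) := by ring
      _ ≤ r * (16 / 10 ^ 18 * (om / 10 ^ 12)) := by
        apply mul_le_mul_of_nonneg_left _ hr.1
        exact mul_le_mul h4 h5 (abs_nonneg _) (by positivity)
      _ = _ := by ring
  · rw [Xi_zero (h1 r hr)]
    ring
  · have : 16 / 10 ^ 18 * (om / 10 ^ 12) * ((2 * 10 ^ 6 * lam) ^ 2 / 2) =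
        (om * lam ^ 2) * (32 / 10 ^ 18) := by ring
    rw [this]
    have h6 : om * lam ^ 2 / 10 ^ 10 = (om * lam ^ 2) * (1 / 10 ^ 10) := by ring
    rw [h6]
    apply mul_le_mul_of_nonneg_left _ (by positivity)
    norm_num

/-- the term with `s Xi` -/
theorem StOde_t2 (hs : IsSlice R1 p) (hy : Hyp R1 p om) (hg : Geo R1 p om lam) :
    |∫ r in (0 : ℝ)..R1, r * (Xi (p.f r) * Real.sin (p.f r))| ≤ lam ^ 2 / 10 ^ 10 := by
  obtain ⟨h0, hR, hom, h1, h2, h3⟩ := StOde_data hs hy hg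
  have hc : Continuous (fun r => r * (Xi (p.f r) * Real.sin (p.f r))) :=
    continuous_id.mul ((continuous_Xi.comp hs.cf).mul (Real.continuous_sin.comp hs.cf))
  refine (StOde_supp1 (B := 32 * qq) hc h0 hR (fun r hr => ?_) (fun r hr => ?_)).trans ?_
  · rw [abs_mul, abs_of_nonneg hr.1, mul_comm]
    exact mul_le_mul_of_nonneg_right (Xi_sin_abs (p.f r)) hr.1
  · rw [Xi_zero (h1 r hr)]
    ring
  · have : 32 * qq * ((2 * 10 ^ 6 * lam) ^ 2 / 2) = lam ^ 2 * (64 / 10 ^ 24) := by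
      rw [qq]
      ring
    rw [this]
    have h6 : lam ^ 2 / 10 ^ 10 = lam ^ 2 * (1 / 10 ^ 10) := by ring
    rw [h6]
    apply mul_le_mul_of_nonneg_left _ (by positivity)
    norm_num

/-- the term with `η Th cos` -/
theorem StOde_t3 (hs : IsSlice R1 p) (hy : Hyp R1 p om) (hg : Geo R1 p om lam) :
    |∫ r in (0 : ℝ)..R1, r * eta p om r * (2 * Th (p.f r) * Real.cos (p.f r))| ≤
      om * lam ^ 2 / 10 ^ 10 := by
  obtain ⟨h0, hR, hom, h1, h2, h3⟩ := StOde_data hs hy hg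
  have hc : Continuous (fun r => r * eta p om r * (2 * Th (p.f r) * Real.cos (p.f r))) :=
    (continuous_id.mul (StOde_ceta hs)).mul
      ((continuous_const.mul (continuous_Th.comp hs.cf)).mul (Real.continuous_cos.comp hs.cf))
  have hc2 : Continuous (fun r => (2 * (om / 10 ^ 12)) * (r * |Th (p.f r)|)) :=
    continuous_const.mul (continuous_id.mul (continuous_Th.comp hs.cf).abs)
  have h4 := StOde_mono hs.R1pos.le hc hc2 (fun r hr => by
    by_cases h5 : r ≤ 2 * 10 ^ 6 * lam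
    · have h6 := h2 r ⟨hr.1, h5⟩
      have h7 := Real.abs_cos_le_one (p.f r)
      rw [abs_mul, abs_mul, abs_mul, abs_mul, abs_of_nonneg hr.1, abs_two]
      have h8 : |eta p om r| * |Real.cos (p.f r)| ≤ (om / 10 ^ 12) * 1 :=
        mul_le_mul h6 h7 (abs_nonneg _) (by positivity)
      calc r * |eta p om r| * (2 * |Th (p.f r)| * |Real.cos (p.f r)|)
          = (2 * (r * |Th (p.f r)|)) * (|eta p om r| * |Real.cos (p.f r)|) := by ring
        _ ≤ (2 * (r * |Th (p.f r)|)) * ((om / 10 ^ 12) * 1) := by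
          apply mul_le_mul_of_nonneg_left h8
          have := hr.1
          positivity
        _ = _ := by ring
    · rw [Th_zero (h1 r ⟨(not_le.mp h5).le, hr.2⟩)]
      simp)
  refine h4.trans ?_
  rw [intervalIntegral.integral_const_mul]
  have h5 := Th_L1 hs hy.en hg.lam_pos hg.lam_lt hg.f_lam
  calc 2 * (om / 10 ^ 12) * (∫ r in (0 : ℝ)..R1, r * |Th (p.f r)|)
      ≤ 2 * (om / 10 ^ 12) * (3 * lam ^ 2) := by
        apply mul_le_mul_of_nonneg_left h5
        positivity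
    _ = (om * lam ^ 2) * (6 / 10 ^ 12) := by ring
    _ ≤ (om * lam ^ 2) * (1 / 10 ^ 10) := by
        apply mul_le_mul_of_nonneg_left _ (by positivity)
        norm_num
    _ = om * lam ^ 2 / 10 ^ 10 := by ring

/-- the term with `Thd` -/
theorem StOde_t4 (hs : IsSlice R1 p) (hy : Hyp R1 p om) (hg : Geo R1 p om lam) :
    |∫ r in (0 : ℝ)..R1, r * Thd (p.f r) * (eta p om r ^ 2 - p.w r ^ 2)| ≤
      om ^ 2 * lam ^ 2 / 10 ^ 6 := by
  obtain ⟨h0, hR, hom, h1, h2, h3⟩ := StOde_data hs hy hg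
  have hc : Continuous (fun r => r * Thd (p.f r) * (eta p om r ^ 2 - p.w r ^ 2)) :=
    (continuous_id.mul (continuous_Thd.comp hs.cf)).mul
      (((StOde_ceta hs).pow 2).sub (hs.cw.pow 2))
  refine (StOde_supp1 (B := 9 * (om / 10 ^ 12) ^ 2) hc h0 hR (fun r hr => ?_)
    (fun r hr => ?_)).trans ?_
  · rw [abs_mul, abs_mul, abs_of_nonneg hr.1]
    have h4 := Thd_abs (p.f r)
    have h5 := h2 r hr
    have h6 := h3 r ⟨hr.1, hr.2.trans hR⟩
    have h7 : |eta p om r ^ 2 - p.w r ^ 2| ≤ (om / 10 ^ 12) ^ 2 := by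
      have h8 : eta p om r ^ 2 ≤ (om / 10 ^ 12) ^ 2 := by
        rw [← sq_abs]
        exact pow_le_pow_left₀ (abs_nonneg _) h5 2
      have h9 : p.w r ^ 2 ≤ (om / 10 ^ 12) ^ 2 := by
        rw [← sq_abs]
        exact pow_le_pow_left₀ (abs_nonneg _) h6 2
      rw [abs_le]
      constructor <;> nlinarith [sq_nonneg (eta p om r), sq_nonneg (p.w r)]
    calc r * |Thd (p.f r)| * |eta p om r ^ 2 - p.w r ^ 2|
        = r * (|Thd (p.f r)| * |eta p om r ^ 2 - p.w r ^ 2|) := by ring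
      _ ≤ r * (9 * (om / 10 ^ 12) ^ 2) := by
        apply mul_le_mul_of_nonneg_left _ hr.1
        exact mul_le_mul h4 h7 (abs_nonneg _) (by norm_num)
      _ = _ := by ring
  · rw [Thd_zero (h1 r hr)]
    ring
  · have : 9 * (om / 10 ^ 12) ^ 2 * ((2 * 10 ^ 6 * lam) ^ 2 / 2) =
        (om ^ 2 * lam ^ 2) * (18 / 10 ^ 12) := by ring
    rw [this]
    have h6 : om ^ 2 * lam ^ 2 / 10 ^ 6 = (om ^ 2 * lam ^ 2) * (1 / 10 ^ 6) := by ring
    rw [h6]
    apply mul_le_mul_of_nonneg_left _ (by positivity)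
    norm_num

/-- `lam chi ≤ 4 Gam om² N` -/
theorem StOde_lamchi (hs : IsSlice R1 p) (hy : Hyp R1 p om) (hg : Geo R1 p om lam) :
    lam * chi R1 p ≤ 4 * Gam * om ^ 2 * p.N R1 := by
  have hom : 0 < om := lt_of_lt_of_le (by positivity) hy.hom
  have hN := hy.Npos
  have hG : (0 : ℝ) < Gam := by rw [Gam]; norm_num
  refine le_of_pow_le_pow_left₀ two_ne_zero (by positivity) ?_
  have h1 := chi_sq hs hy
  have h2 := hy.hX
  have h3 := hg.N_lo
  have h4 : lam ^ 2 ≤ 16 * p.N R1 := by linarith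
  have h5 : 0 ≤ p.X R1 := X_nonneg hs hy.en
  calc (lam * chi R1 p) ^ 2 = lam ^ 2 * p.X R1 := by rw [mul_pow, h1]
    _ ≤ (16 * p.N R1) * (Gam ^ 2 * om ^ 4 * p.N R1) :=
      mul_le_mul h4 h2 h5 (by positivity)
    _ = (4 * Gam * om ^ 2 * p.N R1) ^ 2 := by ring

/-- the term with `μ w Xi` -/
theorem StOde_t5 (hs : IsSlice R1 p) (hy : Hyp R1 p om) (hg : Geo R1 p om lam) :
    |∫ r in (0 : ℝ)..R1, (4 + p.a r) * p.w r * Xi (p.f r)| ≤ om ^ 2 * p.N R1 / 100 := by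
  obtain ⟨h0, hR, hom, h1, h2, h3⟩ := StOde_data hs hy hg
  have hc : Continuous (fun r => (4 + p.a r) * p.w r * Xi (p.f r)) :=
    ((continuous_const.add hs.ca).mul hs.cw).mul (continuous_Xi.comp hs.cf)
  have hchi : 0 ≤ chi R1 p := chi_nonneg
  refine (StOde_supp2 (B := 401 / 100 * chi R1 p * (16 / 10 ^ 18)) hc h0 hR (fun r hr => ?_)
    (fun r hr => ?_)).trans ?_
  · rw [abs_mul, abs_mul]
    have hr' : r ∈ Icc 0 R1 := ⟨hr.1, hr.2.trans hR⟩
    have h4 := a_abs hs hy.en r hr'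
    have h5 : |4 + p.a r| ≤ 401 / 100 := by
      rw [abs_le] at h4 ⊢
      constructor <;> linarith [h4.1, h4.2]
    have h6 : |p.w r| ≤ chi R1 p := w_abs hs hy.en r hr'
    exact mul_le_mul (mul_le_mul h5 h6 (abs_nonneg _) (by norm_num)) (Xi_abs _) (abs_nonneg _)
      (by positivity)
  · rw [Xi_zero (h1 r hr)]
    ring
  · have h7 := StOde_lamchi hs hy hg
    have hN := hy.Npos
    calc 401 / 100 * chi R1 p * (16 / 10 ^ 18) * (2 * 10 ^ 6 * lam)
        = (12832 / 10 ^ 14) * (lam * chi R1 p) := by ring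
      _ ≤ (12832 / 10 ^ 14) * (4 * Gam * om ^ 2 * p.N R1) := by
        apply mul_le_mul_of_nonneg_left h7 (by norm_num)
      _ = (om ^ 2 * p.N R1) * (4 * 13 * 12832 / 10 ^ 8) := by
        rw [Gam]
        ring
      _ ≤ (om ^ 2 * p.N R1) * (1 / 100) := by
        apply mul_le_mul_of_nonneg_left _ (by positivity)
        norm_num
      _ = om ^ 2 * p.N R1 / 100 := by ring

/-- the term with `y s Th` -/
theorem StOde_t6 (hs : IsSlice R1 p) (hy : Hyp R1 p om) (hg : Geo R1 p om lam) :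
    |∫ r in (0 : ℝ)..R1, r * p.y r * Real.sin (p.f r) * Th (p.f r)| ≤ 2 * eps * lam := by
  obtain ⟨h0, hR, hom, h1, h2, h3⟩ := StOde_data hs hy hg
  have cT : Continuous (fun r => Th (p.f r)) := continuous_Th.comp hs.cf
  have cs' : Continuous (fun r => Real.sin (p.f r)) := Real.continuous_sin.comp hs.cf
  have hc : Continuous (fun r => r * p.y r * Real.sin (p.f r) * Th (p.f r)) :=
    ((continuous_id.mul hs.cy).mul cs').mul cT
  have hc2 : Continuous (fun r => r * (|p.y r| * |Th (p.f r)|)) :=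
    continuous_id.mul (hs.cy.abs.mul cT.abs)
  have h4 := StOde_mono hs.R1pos.le hc hc2 (fun r hr => by
    rw [abs_mul, abs_mul, abs_mul, abs_of_nonneg hr.1]
    have h7 := Real.abs_sin_le_one (p.f r)
    calc r * |p.y r| * |Real.sin (p.f r)| * |Th (p.f r)|
        = (r * (|p.y r| * |Th (p.f r)|)) * |Real.sin (p.f r)| := by ring
      _ ≤ (r * (|p.y r| * |Th (p.f r)|)) * 1 := by
        apply mul_le_mul_of_nonneg_left h7
        have := hr.1
        positivity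
      _ = _ := by ring)
  refine h4.trans ((csr le_rfl hs.R1pos.le hs.cy.continuousOn cT.continuousOn).trans ?_)
  have h5 : Real.sqrt (∫ r in (0 : ℝ)..R1, r * p.y r ^ 2) ≤ eps := by
    have he : (0 : ℝ) ≤ eps := by rw [eps]; positivity
    rw [Real.sqrt_le_left he]
    exact (En_parts hs hy.en).2.2.1
  have h6 : Real.sqrt (∫ r in (0 : ℝ)..R1, r * Th (p.f r) ^ 2) ≤ 2 * lam := by
    have hl := hg.lam_pos
    rw [Real.sqrt_le_left (by positivity)]
    have h7 : ∫ r in (0 : ℝ)..R1, r * Th (p.f r) ^ 2 ≤ ∫ r in (0 : ℝ)..R1, r * |Th (p.f r)| := by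
      refine integral_mono_on hs.R1pos.le ?_ ?_ (fun r hr => ?_)
      · exact (continuous_id.mul (cT.pow 2)).intervalIntegrable _ _
      · exact (continuous_id.mul cT.abs).intervalIntegrable _ _
      · have h8 : |Th (p.f r)| ≤ 1 := (Th_abs_le _).trans (Real.abs_sin_le_one _)
        apply mul_le_mul_of_nonneg_left _ hr.1
        rw [← sq_abs]
        nlinarith [abs_nonneg (Th (p.f r))]
    have h8 := Th_L1 hs hy.en hg.lam_pos hg.lam_lt hg.f_lam
    nlinarith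
  calc Real.sqrt (∫ r in (0 : ℝ)..R1, r * p.y r ^ 2) *
        Real.sqrt (∫ r in (0 : ℝ)..R1, r * Th (p.f r) ^ 2)
      ≤ eps * (2 * lam) := mul_le_mul h5 h6 (Real.sqrt_nonneg _) (by rw [eps]; positivity)
    _ = 2 * eps * lam := by ring

theorem st_N (hs : IsSlice R1 p) (hy : Hyp R1 p om) :
    |p.dN R1 + 2 * om * p.N R1| ≤ om * p.N R1 / 100 := by
  obtain ⟨lam, hg⟩ := exists_geo hs hy
  obtain ⟨h0, hR, hom, h1, h2, h3⟩ := StOde_data hs hy hg
  have hN := hy.Npos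
  have hl := hg.lam_pos
  have hlN : lam ^ 2 ≤ 16 * p.N R1 := by linarith [hg.N_lo]
  have hC := C0_est hs hy hg
  have t1 := StOde_t1 hs hy hg
  have t2 := StOde_t2 hs hy hg
  have t3 := StOde_t3 hs hy hg
  have hid := StOde_id1 R1 om (g := p.g) (s := fun r => Real.sin (p.f r))
    (c := fun r => Real.cos (p.f r)) (T := fun r => Th (p.f r)) (X := fun r => Xi (p.f r))
    hs.cg (Real.continuous_sin.comp hs.cf) (Real.continuous_cos.comp hs.cf)
    (continuous_Th.comp hs.cf) (continuous_Xi.comp hs.cf)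
  have hdN : p.dN R1 = ∫ r in (0 : ℝ)..R1, r * p.g r *
    (2 * Th (p.f r) * Real.cos (p.f r) - Xi (p.f r)) := rfl
  simp only [eta] at t1 t3
  rw [hdN, hid]
  rw [abs_le] at hC t1 t2 t3
  obtain ⟨c1, c2⟩ := hC
  obtain ⟨a1, a2⟩ := t1
  obtain ⟨b1, b2⟩ := t2
  obtain ⟨d1, d2⟩ := t3
  set C0 := ∫ r in (0 : ℝ)..R1, r * Real.sin (p.f r) * Th (p.f r) * Real.cos (p.f r)
  set I1 := ∫ r in (0 : ℝ)..R1, r * (Xi (p.f r) * Real.sin (p.f r))
  set I2 := ∫ r in (0 : ℝ)..R1, r * (p.g r + 4 * om * Real.sin (p.f r)) *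
    (2 * Th (p.f r) * Real.cos (p.f r))
  set I3 := ∫ r in (0 : ℝ)..R1, r * Xi (p.f r) * (p.g r + 4 * om * Real.sin (p.f r))
  have e1 : om * lam ^ 2 ≤ 16 * (om * p.N R1) := by
    have := mul_le_mul_of_nonneg_left hlN hom.le
    linarith
  have e2 : om * (4 * C0 - p.N R1) ≤ om * (p.N R1 / 1000) := mul_le_mul_of_nonneg_left c2 hom.le
  have e3 : om * (-(p.N R1 / 1000)) ≤ om * (4 * C0 - p.N R1) :=
    mul_le_mul_of_nonneg_left c1 hom.le
  have e4 : om * I1 ≤ om * (lam ^ 2 / 10 ^ 10) := mul_le_mul_of_nonneg_left b2 hom.le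
  have e5 : om * (-(lam ^ 2 / 10 ^ 10)) ≤ om * I1 := mul_le_mul_of_nonneg_left b1 hom.le
  have hON : 0 < om * p.N R1 := by positivity
  rw [abs_le]
  constructor <;> nlinarith

theorem st_om (hs : IsSlice R1 p) (hy : Hyp R1 p om) :
    |-(p.dP R1 + 4 * om * p.dN R1) / (4 * p.N R1) - om ^ 2| ≤ om ^ 2 / 100 := by
  obtain ⟨lam, hg⟩ := exists_geo hs hy
  obtain ⟨h0, hR, hom, h1, h2, h3⟩ := StOde_data hs hy hg
  have hN := hy.Npos
  have hl := hg.lam_pos
  have hlN : lam ^ 2 ≤ 16 * p.N R1 := by linarith [hg.N_lo]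
  have hC := C0_est hs hy hg
  have t1 := StOde_t1 hs hy hg
  have t4 := StOde_t4 hs hy hg
  have t5 := StOde_t5 hs hy hg
  have t6 := StOde_t6 hs hy hg
  have hid := StOde_id2 R1 om (g := p.g) (s := fun r => Real.sin (p.f r))
    (c := fun r => Real.cos (p.f r)) (T := fun r => Th (p.f r)) (Td := fun r => Thd (p.f r))
    (X := fun r => Xi (p.f r)) (w := p.w) (y := p.y) (a := p.a)
    hs.cg (Real.continuous_sin.comp hs.cf) (Real.continuous_cos.comp hs.cf)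
    (continuous_Th.comp hs.cf) (continuous_Thd.comp hs.cf) (continuous_Xi.comp hs.cf)
    hs.cw hs.cy hs.ca (fun r => Th_cos_sub (p.f r))
  have hdN : p.dP R1 + 4 * om * p.dN R1 =
    (∫ r in (0 : ℝ)..R1, (r * Thd (p.f r) * (p.g r ^ 2 - p.w r ^ 2)
      - (4 + p.a r) * p.w r * Xi (p.f r) - r * p.y r * Real.sin (p.f r) * Th (p.f r)))
    + 4 * om * ∫ r in (0 : ℝ)..R1, r * p.g r *
    (2 * Th (p.f r) * Real.cos (p.f r) - Xi (p.f r)) := rfl
  simp only [eta] at t1 t4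
  have hsm : 2 * eps * lam ≤ om ^ 2 * p.N R1 / 1000 := by
    have h4 := om2lam_ge hy hg
    have h5 : eps ≤ 1 := by
      rw [eps]
      norm_num
    have h6 := hg.N_lo
    have h7 : om ^ 2 * (lam ^ 2 / 16) ≤ om ^ 2 * p.N R1 := mul_le_mul_of_nonneg_left h6 (by positivity)
    have h8 : (10 : ℝ) ^ 29 * lam ≤ (om ^ 2 * lam) * lam := mul_le_mul_of_nonneg_right h4 hl.le
    have h9 : 2 * eps * lam ≤ 2 * lam := by nlinarith
    have h10 : 2 * lam ≤ 10 ^ 29 * lam / 16 / 1000 := by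
      have : (10 : ℝ) ^ 29 * lam / 16 / 1000 = (10 ^ 29 / 16 / 1000) * lam := by ring
      rw [this]
      apply mul_le_mul_of_nonneg_right _ hl.le
      norm_num
    have h11 : (om ^ 2 * lam) * lam = 16 * (om ^ 2 * (lam ^ 2 / 16)) := by ring
    rw [h11] at h8
    linarith
  have hkey : |(p.dP R1 + 4 * om * p.dN R1) + 4 * (om ^ 2 * p.N R1)| ≤
      (4 * (om ^ 2 * p.N R1)) / 100 := by
    rw [hdN, hid]
    rw [abs_le] at hC t1 t4 t5 t6
    obtain ⟨c1, c2⟩ := hC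
    obtain ⟨a1, a2⟩ := t1
    obtain ⟨b1, b2⟩ := t4
    obtain ⟨d1, d2⟩ := t5
    obtain ⟨g1, g2⟩ := t6
    set C0 := ∫ r in (0 : ℝ)..R1, r * Real.sin (p.f r) * Th (p.f r) * Real.cos (p.f r)
    set I1 := ∫ r in (0 : ℝ)..R1, r * Xi (p.f r) * (p.g r + 4 * om * Real.sin (p.f r))
    set I2 := ∫ r in (0 : ℝ)..R1, r * Thd (p.f r) * ((p.g r + 4 * om * Real.sin (p.f r)) ^ 2
      - p.w r ^ 2)
    set I3 := ∫ r in (0 : ℝ)..R1, (4 + p.a r) * p.w r * Xi (p.f r)
    set I4 := ∫ r in (0 : ℝ)..R1, r * p.y r * Real.sin (p.f r) * Th (p.f r)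
    have hO2 : 0 ≤ om ^ 2 := by positivity
    have hON : 0 < om ^ 2 * p.N R1 := by positivity
    have e1 : om ^ 2 * lam ^ 2 ≤ 16 * (om ^ 2 * p.N R1) := by
      have := mul_le_mul_of_nonneg_left hlN hO2
      linarith
    have e2 : om ^ 2 * (4 * C0 - p.N R1) ≤ om ^ 2 * (p.N R1 / 1000) :=
      mul_le_mul_of_nonneg_left c2 hO2
    have e3 : om ^ 2 * (-(p.N R1 / 1000)) ≤ om ^ 2 * (4 * C0 - p.N R1) :=
      mul_le_mul_of_nonneg_left c1 hO2
    have e4 : om * I1 ≤ om * (om * lam ^ 2 / 10 ^ 10) := mul_le_mul_of_nonneg_left a2 hom.le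
    have e5 : om * (-(om * lam ^ 2 / 10 ^ 10)) ≤ om * I1 := mul_le_mul_of_nonneg_left a1 hom.le
    have e6 : om * (om * lam ^ 2 / 10 ^ 10) = om ^ 2 * lam ^ 2 / 10 ^ 10 := by ring
    have e7 : om * (-(om * lam ^ 2 / 10 ^ 10)) = -(om ^ 2 * lam ^ 2 / 10 ^ 10) := by ring
    rw [e6] at e4
    rw [e7] at e5
    have hx : -16 * om ^ 2 * C0 + 4 * om * I1 + I2 - I3 - I4 + 4 * (om ^ 2 * p.N R1) =
      -4 * (om ^ 2 * (4 * C0 - p.N R1)) + 4 * (om * I1) + I2 - I3 - I4 := by ring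
    rw [hx, abs_le]
    constructor <;> linarith
  have h4N : 0 < 4 * p.N R1 := by positivity
  have hx : -(p.dP R1 + 4 * om * p.dN R1) / (4 * p.N R1) - om ^ 2 =
      -(((p.dP R1 + 4 * om * p.dN R1) + 4 * (om ^ 2 * p.N R1)) / (4 * p.N R1)) := by
    field_simp
    ring
  rw [hx, abs_neg, abs_div, abs_of_pos h4N, div_le_iff₀ h4N]
  refine hkey.trans (le_of_eq ?_)
  ring

end H72GS
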