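import Pool.Agent.H72.GS.StFar

/-!
# StM1: main terms of `dM`, `L = ep1 / om`

* `M1`: `r L/(r+L)² ≥ r/(4L)` on `[0,L]`, `≥ 0` elsewhere; `1/(8L) = om/(8 ep1)`.
* `M2`: with `A ≥ 8.9`, `c = cos f`, `s = sin f`, `μ = 4 + a`:
  `m3 ≤ -4 (r/(r+L)) + err`, `err = 6 r² (|y| + 2) + 5 r |w| + 2 r²`:
  the first summand is `≤ (1/4) r/(r+L)`; `(r A) L/(r+L)² ≤ A r/(r+L)`;
  `r³ (1-c) L/(r+L)² ≤ 2 r²`; the terms `-2 μ² s²`, `-r² μ s²` are `≤ 0`.
  `∫ err w1² ≤ (6 (|r y| + 2 R1) + 5 chi + 2 R1) ∫ r w1²`, all `≤ om/10⁵`.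
  `∫ r/(r+L) w1² ≥ (1/(2L)) ∫_0^L r w1²`.
* `M6`: `r/(r+L)² ≤ 1/(4L)`, `|L'| ≤ (102/100) ep1`, so the factor is `≤ 0.255 om`;
  `X_wtprod`: `0.255·0.59 ≤ 0.151`.
-/

namespace H72GS

open Set MeasureTheory intervalIntegral

variable {R1 : ℝ} {p : Pre} {om lam : ℝ}

private lemma stM1_inv (h : (10 : ℝ) ^ 60 ≤ om) : om / ep1 = 1 / (ep1 / om) := by
  have : om ≠ 0 := by
    have : (0 : ℝ) < om := lt_of_lt_of_le (by norm_num) h
    exact this.ne'
  rw [one_div_div]

private lemma stM1_ep1 : (0 : ℝ) < ep1 := by unfold ep1; norm_num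

private lemma stM1_L (h : (10 : ℝ) ^ 60 ≤ om) : 0 < ep1 / om :=
  div_pos stM1_ep1 (lt_of_lt_of_le (by norm_num) h)

private lemma stM1_q {L r : ℝ} (hL : 0 < L) (hr : 0 ≤ r) (hrL : r ≤ L) :
    r / (4 * L) ≤ r * L / (r + L) ^ 2 := by
  have h1 : 0 < (r + L) ^ 2 := by positivity
  rw [div_le_div_iff₀ (by positivity) h1]
  have h2 : (r + L) ^ 2 ≤ (2 * L) ^ 2 := by
    apply pow_le_pow_left₀ (by linarith)
    linarith
  nlinarith [mul_le_mul_of_nonneg_left h2 hr]

private lemma stM1_q2 {L r : ℝ} (hL : 0 < L) (hr : 0 ≤ r) :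
    r / (r + L) ^ 2 ≤ 1 / (4 * L) := by
  have h1 : 0 < (r + L) ^ 2 := by positivity
  rw [div_le_div_iff₀ h1 (by positivity)]
  nlinarith [sq_nonneg (r - L)]

theorem M1_le (hs : IsSlice R1 p) (hy : Hyp R1 p om) :
    ∫ r in (0 : ℝ)..R1, -(1 / 2) * (r * (ep1 / om) / (r + ep1 / om) ^ 2)
        * (p.wt r ^ 2 + p.wr r ^ 2)
      ≤ -(om / (8 * ep1)) * ∫ r in (0 : ℝ)..(ep1 / om), r * (p.wt r ^ 2 + p.wr r ^ 2) := by
  have hLpos : 0 < ep1 / om := stM1_L hy.hom
  have hLR : ep1 / om ≤ R1 / 2 := L_le hs hy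
  have hR := hs.R1pos
  have hom0 : (0 : ℝ) < om := lt_of_lt_of_le (by norm_num) hy.hom
  have hcoef : om / (8 * ep1) = 1 / (8 * (ep1 / om)) := by
    have := stM1_ep1
    field_simp
  rw [hcoef]
  set L := ep1 / om with hL
  have hcwt := hs.cwt
  have hcwr := hs.cwr
  have h2 : ∀ r ∈ Icc (0 : ℝ) R1, (r + L) ^ 2 ≠ 0 := fun r hr => by
    have := hr.1; positivity
  have hc : ContinuousOn (fun r => (1 / 2) * (r * L / (r + L) ^ 2)
      * (p.wt r ^ 2 + p.wr r ^ 2)) (Icc 0 R1) := by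
    apply ContinuousOn.mul _ (by fun_prop)
    apply ContinuousOn.mul (by fun_prop)
    exact ContinuousOn.div (by fun_prop) (by fun_prop) h2
  have e1 : ∫ r in (0 : ℝ)..R1, -(1 / 2) * (r * L / (r + L) ^ 2) * (p.wt r ^ 2 + p.wr r ^ 2)
      = -∫ r in (0 : ℝ)..R1, (1 / 2) * (r * L / (r + L) ^ 2) * (p.wt r ^ 2 + p.wr r ^ 2) := by
    rw [← intervalIntegral.integral_neg]
    congr 1
    funext r
    ring
  rw [e1, neg_mul, neg_le_neg_iff]
  have step1 : ∫ r in (0 : ℝ)..L, (1 / 2) * (r * L / (r + L) ^ 2) * (p.wt r ^ 2 + p.wr r ^ 2)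
      ≤ ∫ r in (0 : ℝ)..R1, (1 / 2) * (r * L / (r + L) ^ 2) * (p.wt r ^ 2 + p.wr r ^ 2) := by
    apply int_mono_set le_rfl hLpos.le (by linarith) hc
    intro r hr
    have := hr.1
    positivity
  refine le_trans ?_ step1
  rw [← intervalIntegral.integral_const_mul]
  apply intervalIntegral.integral_mono_on hLpos.le
  · apply Continuous.intervalIntegrable
    fun_prop
  · apply ContinuousOn.intervalIntegrable_of_Icc hLpos.le
    exact hc.mono (Icc_subset_Icc le_rfl (by linarith))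
  · intro r hr
    have h3 := stM1_q hLpos hr.1 hr.2
    have h4 : 0 ≤ p.wt r ^ 2 + p.wr r ^ 2 := by positivity
    calc 1 / (8 * L) * (r * (p.wt r ^ 2 + p.wr r ^ 2))
        = (1 / 2) * (r / (4 * L)) * (p.wt r ^ 2 + p.wr r ^ 2) := by
          field_simp
          ring
      _ ≤ (1 / 2) * (r * L / (r + L) ^ 2) * (p.wt r ^ 2 + p.wr r ^ 2) := by
          apply mul_le_mul_of_nonneg_right _ h4
          linarith

/-- pointwise bound for `m3` -/
private lemma stM1_m3 {L r a c s y w A : ℝ} (hL : 0 < L) (hr : 0 ≤ r) (hr1 : r ≤ 1 / 1000)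
    (ha : |a| ≤ 1 / 100000) (hc1 : -1 ≤ c) (hc2 : c ≤ 1) (hs1 : |s| ≤ 1) (hA : 89 / 10 ≤ A) :
    (1 / 4) * r ^ 2 * (r - L) / (r + L) ^ 3
    + (1 / 2) * ((2 * ((4 + a) - c) * r ^ 2 * (y - 1 + c)
        + 2 * (4 + a) * s * (r * w - (4 + a) * s)
        - 2 * A
        + r ^ 2 * s * (r * w - (4 + a) * s)) * (r / (r + L))
      + (r * A + r ^ 3 * (1 - c)) * (L / (r + L) ^ 2))
      ≤ -4 * (r / (r + L)) + (6 * (r * |r * y|) + 5 * (r * |w|) + r ^ 2) := by
  have hrL : 0 < r + L := by linarith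
  obtain ⟨q, hq⟩ : ∃ q, q = r / (r + L) := ⟨_, rfl⟩
  have hq0 : 0 ≤ q := by rw [hq]; positivity
  have hq1 : q ≤ 1 := by rw [hq, div_le_one hrL]; linarith
  have hrq : r = q * (r + L) := by rw [hq]; field_simp
  have ha' := abs_le.mp ha
  -- first summand
  have t1 : (1 / 4) * r ^ 2 * (r - L) / (r + L) ^ 3 ≤ (1 / 4) * q := by
    have : (1 / 4) * r ^ 2 * (r - L) / (r + L) ^ 3 = (1 / 4) * q * (r * (r - L) / (r + L) ^ 2) := by
      rw [hq]; field_simp
    rw [this]
    have h1 : r * (r - L) / (r + L) ^ 2 ≤ 1 := by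
      rw [div_le_one (by positivity)]
      nlinarith
    nlinarith [mul_nonneg hq0 (sub_nonneg.mpr h1)]
  -- A terms
  have t2 : r * A * (L / (r + L) ^ 2) ≤ A * q := by
    have e : r * A * (L / (r + L) ^ 2) = A * q * (L / (r + L)) := by
      rw [hq]; field_simp
    rw [e]
    have h1 : L / (r + L) ≤ 1 := by rw [div_le_one hrL]; linarith
    have h2 : 0 ≤ A * q := by positivity
    nlinarith [mul_nonneg h2 (sub_nonneg.mpr h1)]
  have t3 : r ^ 3 * (1 - c) * (L / (r + L) ^ 2) ≤ 2 * r ^ 2 := by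
    have e : r ^ 3 * (1 - c) * (L / (r + L) ^ 2) = r ^ 2 * (1 - c) * (q * (L / (r + L))) := by
      rw [hq]; field_simp
    rw [e]
    have h1 : L / (r + L) ≤ 1 := by rw [div_le_one hrL]; linarith
    have h1' : 0 ≤ L / (r + L) := by positivity
    have h2 : q * (L / (r + L)) ≤ 1 := by nlinarith
    have h3 : 0 ≤ r ^ 2 * (1 - c) := mul_nonneg (by positivity) (by linarith)
    have h4 : r ^ 2 * (1 - c) ≤ 2 * r ^ 2 := by nlinarith [sq_nonneg r]
    calc r ^ 2 * (1 - c) * (q * (L / (r + L))) ≤ r ^ 2 * (1 - c) * 1 :=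
          mul_le_mul_of_nonneg_left h2 h3
      _ ≤ 2 * r ^ 2 := by linarith
  -- the bracket
  have hy1 : r ^ 2 * y ≤ r * |r * y| := by
    calc r ^ 2 * y = r * (r * y) := by ring
      _ ≤ r * |r * y| := mul_le_mul_of_nonneg_left (le_abs_self _) hr
  have hyn : 0 ≤ r * |r * y| := by positivity
  have b1 : ((4 + a) - c) * r ^ 2 * (y - 1 + c) ≤ 6 * (r * |r * y|) := by
    have hm : 0 ≤ (4 + a) - c := by linarith
    have hm2 : (4 + a) - c ≤ 6 := by linarith
    calc ((4 + a) - c) * r ^ 2 * (y - 1 + c)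
        = ((4 + a) - c) * (r ^ 2 * y) - ((4 + a) - c) * r ^ 2 * (1 - c) := by ring
      _ ≤ ((4 + a) - c) * (r ^ 2 * y) := by
          have : 0 ≤ ((4 + a) - c) * r ^ 2 * (1 - c) :=
            mul_nonneg (mul_nonneg hm (by positivity)) (by linarith)
          linarith
      _ ≤ ((4 + a) - c) * (r * |r * y|) := mul_le_mul_of_nonneg_left hy1 hm
      _ ≤ 6 * (r * |r * y|) := mul_le_mul_of_nonneg_right hm2 hyn
  have hwn : 0 ≤ r * |w| := by positivity
  have hsw : s * w ≤ |w| := by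
    calc s * w ≤ |s * w| := le_abs_self _
      _ = |s| * |w| := abs_mul _ _
      _ ≤ 1 * |w| := mul_le_mul_of_nonneg_right hs1 (abs_nonneg _)
      _ = |w| := one_mul _
  have b2 : (4 + a) * s * (r * w - (4 + a) * s) ≤ (41 / 10) * (r * |w|) := by
    calc (4 + a) * s * (r * w - (4 + a) * s)
        = (4 + a) * (r * (s * w)) - ((4 + a) * s) ^ 2 := by ring
      _ ≤ (4 + a) * (r * (s * w)) := by nlinarith [sq_nonneg ((4 + a) * s)]
      _ ≤ (4 + a) * (r * |w|) := by
          apply mul_le_mul_of_nonneg_left _ (by linarith)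
          exact mul_le_mul_of_nonneg_left hsw hr
      _ ≤ (41 / 10) * (r * |w|) := mul_le_mul_of_nonneg_right (by linarith) hwn
  have b3 : r ^ 2 * s * (r * w - (4 + a) * s) ≤ r * |w| := by
    calc r ^ 2 * s * (r * w - (4 + a) * s)
        = r ^ 2 * (r * (s * w)) - (4 + a) * (r * s) ^ 2 := by ring
      _ ≤ r ^ 2 * (r * (s * w)) := by
          have : 0 ≤ (4 + a) * (r * s) ^ 2 := mul_nonneg (by linarith) (sq_nonneg _)
          linarith
      _ ≤ r ^ 2 * (r * |w|) := by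
          apply mul_le_mul_of_nonneg_left _ (by positivity)
          exact mul_le_mul_of_nonneg_left hsw hr
      _ ≤ 1 * (r * |w|) := by
          apply mul_le_mul_of_nonneg_right _ hwn
          nlinarith
      _ = r * |w| := one_mul _
  have br : (2 * ((4 + a) - c) * r ^ 2 * (y - 1 + c)
        + 2 * (4 + a) * s * (r * w - (4 + a) * s)
        - 2 * A
        + r ^ 2 * s * (r * w - (4 + a) * s)) * q
      ≤ (12 * (r * |r * y|) + (92 / 10) * (r * |w|)) - 2 * A * q := by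
    have h1 : (2 * ((4 + a) - c) * r ^ 2 * (y - 1 + c)
        + 2 * (4 + a) * s * (r * w - (4 + a) * s)
        + r ^ 2 * s * (r * w - (4 + a) * s)) ≤ 12 * (r * |r * y|) + (92 / 10) * (r * |w|) := by
      nlinarith [b1, b2, b3]
    have h2 : 0 ≤ 12 * (r * |r * y|) + (92 / 10) * (r * |w|) := by positivity
    calc _ = (2 * ((4 + a) - c) * r ^ 2 * (y - 1 + c)
        + 2 * (4 + a) * s * (r * w - (4 + a) * s)
        + r ^ 2 * s * (r * w - (4 + a) * s)) * q - 2 * A * q := by ring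
      _ ≤ (12 * (r * |r * y|) + (92 / 10) * (r * |w|)) * q - 2 * A * q := by
          have := mul_le_mul_of_nonneg_right h1 hq0
          linarith
      _ ≤ (12 * (r * |r * y|) + (92 / 10) * (r * |w|)) * 1 - 2 * A * q := by
          have := mul_le_mul_of_nonneg_left hq1 h2
          linarith
      _ = _ := by ring
  rw [← hq]
  have hAq : (89 / 10) * q ≤ A * q := mul_le_mul_of_nonneg_right hA hq0
  have e5 : (r * A + r ^ 3 * (1 - c)) * (L / (r + L) ^ 2)
      = r * A * (L / (r + L) ^ 2) + r ^ 3 * (1 - c) * (L / (r + L) ^ 2) := by ring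
  rw [e5]
  linarith

private lemma stM1_w1c (hs : IsSlice R1 p) {r : ℝ} : |p.w r| = |r| * |p.w1 r| := by
  rw [hs.hw1 r, abs_mul]

theorem M2_le (hs : IsSlice R1 p) (hy : Hyp R1 p om) (hg : Geo R1 p om lam) :
    ∫ r in (0 : ℝ)..R1, p.m3 (ep1 / om) r * p.w1 r ^ 2
      ≤ -(om / (8 * ep1)) * (∫ r in (0 : ℝ)..(ep1 / om), r * p.w1 r ^ 2)
        + om * p.X R1 / 10 ^ 4 := by
  have hE := hy.en
  have hLpos : 0 < ep1 / om := stM1_L hy.hom
  have hLR : ep1 / om ≤ R1 / 2 := L_le hs hy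
  have hR := hs.R1pos
  have hR1 := hs.R1le
  have hom0 : (0 : ℝ) < om := lt_of_lt_of_le (by norm_num) hy.hom
  have hcoef : om / (8 * ep1) = 1 / (8 * (ep1 / om)) := by
    have := stM1_ep1
    field_simp
  rw [hcoef]
  have hX := X_nonneg hs hE
  have hXw1 := (X_parts hs hE).2.2
  have hry := ry_abs hs hy
  have hLam := Lam_small hs hy hg
  have hchi : Real.sqrt (p.X R1) ≤ om / 10 ^ 14 := by
    have h1 : chi R1 p ≤ Lam R1 p om lam := by
      unfold Lam
      have := hg.lam_pos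
      have : 0 ≤ om ^ 2 * lam := by positivity
      linarith
    exact le_trans h1 hLam
  have hw := w_abs hs hE
  have ha := a_abs hs hE
  have hA := A_ge hs hE
  set L := ep1 / om with hL
  have hcw1 := hs.cw1
  have hcf := hs.cf
  have hca := hs.ca
  have hcy := hs.cy
  have hcw := hs.cw
  have h1 : ∀ r ∈ Icc (0 : ℝ) R1, (r + L) ≠ 0 := fun r hr => by
    have := hr.1; positivity
  have h2 : ∀ r ∈ Icc (0 : ℝ) R1, (r + L) ^ 2 ≠ 0 := fun r hr => by
    have := hr.1; positivity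
  have h3 : ∀ r ∈ Icc (0 : ℝ) R1, (r + L) ^ 3 ≠ 0 := fun r hr => by
    have := hr.1; positivity
  have hcq : ContinuousOn (fun r : ℝ => r / (r + L)) (Icc 0 R1) :=
    ContinuousOn.div (by fun_prop) (by fun_prop) h1
  have hcL2 : ContinuousOn (fun r : ℝ => L / (r + L) ^ 2) (Icc 0 R1) :=
    ContinuousOn.div (by fun_prop) (by fun_prop) h2
  have hc3 : ContinuousOn (fun r : ℝ => (1 / 4) * r ^ 2 * (r - L) / (r + L) ^ 3) (Icc 0 R1) :=
    ContinuousOn.div (by fun_prop) (by fun_prop) h3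
  have hcont : ContinuousOn (fun r => p.m3 L r * p.w1 r ^ 2) (Icc 0 R1) := by
    unfold Pre.m3 Pre.A
    apply ContinuousOn.mul _ (by fun_prop)
    apply ContinuousOn.add hc3
    apply ContinuousOn.mul (by fun_prop)
    apply ContinuousOn.add
    · apply ContinuousOn.mul (by fun_prop) hcq
    · apply ContinuousOn.mul (by fun_prop) hcL2
  -- pointwise
  have hpt : ∀ r ∈ Icc (0 : ℝ) R1, p.m3 L r * p.w1 r ^ 2 ≤
      -4 * (r / (r + L) * p.w1 r ^ 2) + (om / 10 ^ 11) * (r * p.w1 r ^ 2) := by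
    intro r hr
    have hr1 : r ≤ 1 / 1000 := le_trans hr.2 hR1
    have key := stM1_m3 (L := L) (r := r) (a := p.a r) (c := Real.cos (p.f r))
      (s := Real.sin (p.f r)) (y := p.y r) (w := p.w r) (A := p.A r) hLpos hr.1 hr1 (ha r hr)
      (Real.neg_one_le_cos _) (Real.cos_le_one _) (Real.abs_sin_le_one _) (hA r hr).1
    have hm3 : p.m3 L r ≤ -4 * (r / (r + L)) + (6 * (r * |r * p.y r|) + 5 * (r * |p.w r|) + r ^ 2) := by
      unfold Pre.m3
      exact key
    have e1 : r * |r * p.y r| ≤ r * (om / 10 ^ 12) := mul_le_mul_of_nonneg_left (hry r hr) hr.1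
    have e2 : r * |p.w r| ≤ r * (om / 10 ^ 14) :=
      mul_le_mul_of_nonneg_left (le_trans (hw r hr) hchi) hr.1
    have e3 : r ^ 2 ≤ r * (om / 10 ^ 14) := by
      rw [sq]
      apply mul_le_mul_of_nonneg_left _ hr.1
      have : (1 : ℝ) ≤ om / 10 ^ 14 := by
        rw [le_div_iff₀ (by norm_num)]
        exact le_trans (by norm_num) hy.hom
      linarith
    have hm3' : p.m3 L r ≤ -4 * (r / (r + L)) + (om / 10 ^ 11) * r := by
      have hro : 0 ≤ r * om := mul_nonneg hr.1 hom0.le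
      have : 6 * (r * (om / 10 ^ 12)) + 5 * (r * (om / 10 ^ 14)) + r * (om / 10 ^ 14)
          ≤ (om / 10 ^ 11) * r := by
        have : 6 * (r * (om / 10 ^ 12)) + 5 * (r * (om / 10 ^ 14)) + r * (om / 10 ^ 14)
          = (r * om) * (6 / 10 ^ 12 + 6 / 10 ^ 14) := by ring
        rw [this]
        have e : (om / 10 ^ 11) * r = (r * om) * (1 / 10 ^ 11) := by ring
        rw [e]
        apply mul_le_mul_of_nonneg_left _ hro
        norm_num
      linarith
    have := mul_le_mul_of_nonneg_right hm3' (sq_nonneg (p.w1 r))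
    calc p.m3 L r * p.w1 r ^ 2 ≤ (-4 * (r / (r + L)) + (om / 10 ^ 11) * r) * p.w1 r ^ 2 := this
      _ = _ := by ring
  have hcqw : ContinuousOn (fun r => r / (r + L) * p.w1 r ^ 2) (Icc 0 R1) :=
    hcq.mul (by fun_prop)
  have hi1 : IntervalIntegrable (fun r => -4 * (r / (r + L) * p.w1 r ^ 2)) volume 0 R1 := by
    apply ContinuousOn.intervalIntegrable_of_Icc hR.le
    exact ContinuousOn.mul (by fun_prop) hcqw
  have hi2 : IntervalIntegrable (fun r => (om / 10 ^ 11) * (r * p.w1 r ^ 2)) volume 0 R1 := by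
    apply Continuous.intervalIntegrable
    fun_prop
  have step1 : ∫ r in (0 : ℝ)..R1, p.m3 L r * p.w1 r ^ 2 ≤
      ∫ r in (0 : ℝ)..R1, (-4 * (r / (r + L) * p.w1 r ^ 2)
        + (om / 10 ^ 11) * (r * p.w1 r ^ 2)) := by
    apply intervalIntegral.integral_mono_on hR.le
    · exact hcont.intervalIntegrable_of_Icc hR.le
    · exact hi1.add hi2
    · exact hpt
  rw [intervalIntegral.integral_add hi1 hi2, intervalIntegral.integral_const_mul,
    intervalIntegral.integral_const_mul] at step1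
  have step2 : 1 / (2 * L) * ∫ r in (0 : ℝ)..L, r * p.w1 r ^ 2 ≤
      ∫ r in (0 : ℝ)..R1, r / (r + L) * p.w1 r ^ 2 := by
    have s1 : ∫ r in (0 : ℝ)..L, r / (r + L) * p.w1 r ^ 2 ≤
        ∫ r in (0 : ℝ)..R1, r / (r + L) * p.w1 r ^ 2 := by
      apply int_mono_set le_rfl hLpos.le (by linarith) hcqw
      intro r hr
      have := hr.1
      positivity
    refine le_trans ?_ s1
    rw [← intervalIntegral.integral_const_mul]
    apply intervalIntegral.integral_mono_on hLpos.le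
    · apply Continuous.intervalIntegrable
      fun_prop
    · apply ContinuousOn.intervalIntegrable_of_Icc hLpos.le
      exact hcqw.mono (Icc_subset_Icc le_rfl (by linarith))
    · intro r hr
      have hrL : 0 < r + L := by linarith [hr.1]
      have : r / (2 * L) ≤ r / (r + L) := by
        apply div_le_div_of_nonneg_left hr.1 hrL
        linarith [hr.2]
      calc 1 / (2 * L) * (r * p.w1 r ^ 2) = r / (2 * L) * p.w1 r ^ 2 := by ring
        _ ≤ r / (r + L) * p.w1 r ^ 2 := mul_le_mul_of_nonneg_right this (sq_nonneg _)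
  have hI0 : 0 ≤ ∫ r in (0 : ℝ)..L, r * p.w1 r ^ 2 := by
    apply intervalIntegral.integral_nonneg hLpos.le
    intro r hr
    have := hr.1
    positivity
  have hom1 : (om / 10 ^ 11) * ∫ r in (0 : ℝ)..R1, r * p.w1 r ^ 2 ≤ om * p.X R1 / 10 ^ 4 := by
    calc (om / 10 ^ 11) * ∫ r in (0 : ℝ)..R1, r * p.w1 r ^ 2
        ≤ (om / 10 ^ 11) * (p.X R1 / 8) := mul_le_mul_of_nonneg_left hXw1 (by positivity)
      _ = om * p.X R1 * (1 / (8 * 10 ^ 11)) := by ring
      _ ≤ om * p.X R1 * (1 / 10 ^ 4) := by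
          apply mul_le_mul_of_nonneg_left _ (mul_nonneg hom0.le hX)
          norm_num
      _ = om * p.X R1 / 10 ^ 4 := by ring
  have e8 : 1 / (8 * L) * ∫ r in (0 : ℝ)..L, r * p.w1 r ^ 2 ≤
      4 * (1 / (2 * L) * ∫ r in (0 : ℝ)..L, r * p.w1 r ^ 2) := by
    have : 4 * (1 / (2 * L) * ∫ r in (0 : ℝ)..L, r * p.w1 r ^ 2)
        = 16 * (1 / (8 * L) * ∫ r in (0 : ℝ)..L, r * p.w1 r ^ 2) := by ring
    rw [this]
    have h0 : 0 ≤ 1 / (8 * L) * ∫ r in (0 : ℝ)..L, r * p.w1 r ^ 2 :=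
      mul_nonneg (by positivity) hI0
    linarith
  linarith

theorem M6_le (hs : IsSlice R1 p) (hy : Hyp R1 p om) {L' : ℝ} (hL' : |L'| ≤ (102 / 100) * ep1) :
    ∫ r in (0 : ℝ)..R1, -(L' * (r / (r + ep1 / om) ^ 2)
        * (r * p.wt r * p.wr r + (1 / 2) * p.wt r * p.w r)) ≤ (151 / 1000) * om * p.X R1 := by
  have hE := hy.en
  have hLpos : 0 < ep1 / om := stM1_L hy.hom
  have hR := hs.R1pos
  have hom0 : (0 : ℝ) < om := lt_of_lt_of_le (by norm_num) hy.hom
  have hX := X_nonneg hs hE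
  have hprod := X_wtprod hs hE
  have hep : ep1 = (ep1 / om) * om := by field_simp
  have hL2 : |L'| ≤ (102 / 100) * (ep1 / om) * om := by
    rw [mul_assoc, ← hep]; exact hL'
  set L := ep1 / om with hL
  have hcwt := hs.cwt
  have hcwr := hs.cwr
  have hcw := hs.cw
  have hcw1 := hs.cw1
  have h2 : ∀ r ∈ Icc (0 : ℝ) R1, (r + L) ^ 2 ≠ 0 := fun r hr => by
    have := hr.1; positivity
  have hcq : ContinuousOn (fun r : ℝ => r / (r + L) ^ 2) (Icc 0 R1) :=
    ContinuousOn.div (by fun_prop) (by fun_prop) h2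
  have step : ∫ r in (0 : ℝ)..R1, -(L' * (r / (r + L) ^ 2)
        * (r * p.wt r * p.wr r + (1 / 2) * p.wt r * p.w r)) ≤
      ∫ r in (0 : ℝ)..R1, (255 / 1000 * om) * (r * (|p.wt r| * (|p.wr r| + (1 / 2) * |p.w1 r|))) := by
    apply intervalIntegral.integral_mono_on hR.le
    · apply ContinuousOn.intervalIntegrable_of_Icc hR.le
      apply ContinuousOn.neg
      apply ContinuousOn.mul _ (by fun_prop)
      exact ContinuousOn.mul (by fun_prop) hcq
    · apply Continuous.intervalIntegrable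
      fun_prop
    · intro r hr
      have hr0 := hr.1
      have hq := stM1_q2 hLpos hr0
      have hq0 : 0 ≤ r / (r + L) ^ 2 := by positivity
      have hin : |r * p.wt r * p.wr r + (1 / 2) * p.wt r * p.w r| ≤
          r * (|p.wt r| * (|p.wr r| + (1 / 2) * |p.w1 r|)) := by
        have e : r * p.wt r * p.wr r + (1 / 2) * p.wt r * p.w r
            = r * (p.wt r * (p.wr r + (1 / 2) * p.w1 r)) := by
          rw [hs.hw1 r]; ring
        rw [e, abs_mul, abs_mul, abs_of_nonneg hr0]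
        apply mul_le_mul_of_nonneg_left _ hr0
        apply mul_le_mul_of_nonneg_left _ (abs_nonneg _)
        calc |p.wr r + (1 / 2) * p.w1 r| ≤ |p.wr r| + |(1 / 2) * p.w1 r| := abs_add_le _ _
          _ = |p.wr r| + (1 / 2) * |p.w1 r| := by
            rw [abs_mul, abs_of_nonneg (by norm_num : (0 : ℝ) ≤ 1 / 2)]
      have hcoef : |L'| * (r / (r + L) ^ 2) ≤ 255 / 1000 * om := by
        calc |L'| * (r / (r + L) ^ 2) ≤ ((102 / 100) * L * om) * (1 / (4 * L)) :=
              mul_le_mul hL2 hq hq0 (by positivity)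
          _ = 255 / 1000 * om := by
              field_simp
              ring
      calc -(L' * (r / (r + L) ^ 2) * (r * p.wt r * p.wr r + (1 / 2) * p.wt r * p.w r))
          ≤ |L' * (r / (r + L) ^ 2) * (r * p.wt r * p.wr r + (1 / 2) * p.wt r * p.w r)| :=
            neg_le_abs _
        _ = |L'| * (r / (r + L) ^ 2) * |r * p.wt r * p.wr r + (1 / 2) * p.wt r * p.w r| := by
            rw [abs_mul, abs_mul, abs_of_nonneg hq0]
        _ ≤ (255 / 1000 * om) * (r * (|p.wt r| * (|p.wr r| + (1 / 2) * |p.w1 r|))) :=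
            mul_le_mul hcoef hin (abs_nonneg _) (by positivity)
  refine le_trans step ?_
  rw [intervalIntegral.integral_const_mul]
  calc (255 / 1000 * om) * ∫ r in (0 : ℝ)..R1, r * (|p.wt r| * (|p.wr r| + (1 / 2) * |p.w1 r|))
      ≤ (255 / 1000 * om) * ((59 / 100) * p.X R1) :=
        mul_le_mul_of_nonneg_left hprod (by positivity)
    _ = (255 / 1000 * (59 / 100)) * (om * p.X R1) := by ring
    _ ≤ (151 / 1000) * (om * p.X R1) := by
        apply mul_le_mul_of_nonneg_right _ (mul_nonneg hom0.le hX)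
        norm_num
    _ = (151 / 1000) * om * p.X R1 := by ring

end H72GS
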