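import Pool.Agent.H72.GS.StFar

/-!
# StM2: source terms of `dM`, `L = ep1 / om`; multiplier `m = (r/(r+L)) wr + w/(2(r+L))`

`|m| ≤ (r/L)(|wr| + |w1|/2)` and `|m| ≤ |wr| + |w1|/2` (`w = r w1`).
* `M3 = ∫ μ s w² m`: `|w| ≤ chi`, `|w| (|wr| + |w1|/2) = r |w1| (...)`, `X_prods`.
* `M4 = -∫ μ s g² m`: `[0,L]`: `g² ≤ 32 om² s² + 2 (250 Lam)²`,
  `(om/ep1)·4.0001·(32 om² + tiny)·(∫_0^L r s²)^{1/2}·(‖wr‖ + ‖w1‖/2)`,
  `‖wr‖ ≤ chi`, `‖w1‖ ≤ chi/√8 ≤ 0.3536 chi`, `√3 ≤ 1.7321`: `≤ 262 (om/ep1) om² lam chi`.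
  `[L,R1]`: `4.0001·3 eps·300 Lam ∫ |g|(|wr| + |w1|/2)`, `∫ |g||v| = ∫ r |g/r||v| ≤ 150 Lam ‖v‖`.
* `M5 = ∫ 2 r c (e g - w y) m`: `|e| ≤ 4 om² lam`, `∫ r |g||m| ≤ 1.2 eps chi`;
  `r |w||y||m| = |r y| r |w1||m|`.
-/

namespace H72GS

open Set MeasureTheory intervalIntegral

variable {R1 : ℝ} {p : Pre} {om lam : ℝ}

/-- the multiplier -/
private noncomputable def StM2_m (p : Pre) (L r : ℝ) : ℝ :=
  r / (r + L) * p.wr r + p.w r / (2 * (r + L))

private noncomputable def StM2_V (p : Pre) (r : ℝ) : ℝ := |p.wr r| + (1 / 2) * |p.w1 r|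

private theorem StM2_V_nonneg (r : ℝ) : 0 ≤ StM2_V p r := by
  unfold StM2_V
  positivity

private theorem StM2_V_cont (hs : IsSlice R1 p) : Continuous (StM2_V p) := by
  unfold StM2_V
  exact hs.cwr.abs.add (continuous_const.mul hs.cw1.abs)

private theorem StM2_m_cont (hs : IsSlice R1 p) {L : ℝ} (hL : 0 < L) :
    ContinuousOn (StM2_m p L) (Icc 0 R1) := by
  unfold StM2_m
  have h1 : ∀ r ∈ Icc 0 R1, r + L ≠ 0 := fun r hr => by linarith [hr.1]
  have h2 : ∀ r ∈ Icc 0 R1, 2 * (r + L) ≠ 0 := fun r hr => by linarith [hr.1]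
  exact ((continuousOn_id.div (by fun_prop) h1).mul hs.cwr.continuousOn).add
    (hs.cw.continuousOn.div (by fun_prop) h2)

private theorem StM2_m_abs (hs : IsSlice R1 p) {L r : ℝ} (hL : 0 < L) (hr : 0 ≤ r) :
    |StM2_m p L r| ≤ r / (r + L) * StM2_V p r := by
  have h0 : 0 < r + L := by linarith
  have h1 : StM2_m p L r = r / (r + L) * (p.wr r + (1 / 2) * p.w1 r) := by
    unfold StM2_m
    rw [hs.hw1 r]
    field_simp
  rw [h1, abs_mul, abs_of_nonneg (div_nonneg hr h0.le)]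
  refine mul_le_mul_of_nonneg_left ?_ (div_nonneg hr h0.le)
  refine (abs_add_le _ _).trans ?_
  unfold StM2_V
  rw [abs_mul, abs_of_pos (by norm_num : (0 : ℝ) < 1 / 2)]

private theorem StM2_m_le (hs : IsSlice R1 p) {L r : ℝ} (hL : 0 < L) (hr : 0 ≤ r) :
    |StM2_m p L r| ≤ StM2_V p r := by
  have h0 : 0 < r + L := by linarith
  refine (StM2_m_abs hs hL hr).trans ?_
  have h1 : r / (r + L) ≤ 1 := (div_le_one h0).2 (by linarith)
  have h2 := StM2_V_nonneg (p := p) r
  nlinarith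

private theorem StM2_m_le' (hs : IsSlice R1 p) {L r : ℝ} (hL : 0 < L) (hr : 0 ≤ r) :
    |StM2_m p L r| ≤ r / L * StM2_V p r := by
  have h0 : 0 < r + L := by linarith
  refine (StM2_m_abs hs hL hr).trans ?_
  have h1 : r / (r + L) ≤ r / L := div_le_div_of_nonneg_left hr hL (by linarith)
  exact mul_le_mul_of_nonneg_right h1 (StM2_V_nonneg r)

private theorem StM2_mu (hs : IsSlice R1 p) (hE : p.En R1 ≤ eps ^ 2) {r : ℝ} (hr : r ∈ Icc 0 R1) :
    0 ≤ 4 + p.a r ∧ 4 + p.a r ≤ 40001 / 10000 := by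
  have h := abs_le.1 (a_abs hs hE r hr)
  constructor <;> linarith [h.1, h.2]

private theorem StM2_w1V (hs : IsSlice R1 p) (hE : p.En R1 ≤ eps ^ 2) :
    ∫ r in (0 : ℝ)..R1, r * (|p.w1 r| * StM2_V p r) ≤ (21 / 80) * p.X R1 := by
  have h1 := (X_prods hs hE).2.1
  have h2 := (X_parts hs hE).2.2
  have h3 : ∀ r : ℝ, r * (|p.w1 r| * StM2_V p r) =
      r * (|p.wr r| * |p.w1 r|) + (1 / 2) * (r * p.w1 r ^ 2) := by
    intro r
    unfold StM2_V
    rw [← sq_abs (p.w1 r)]
    ring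
  simp only [h3]
  have c1 : Continuous fun r => r * (|p.wr r| * |p.w1 r|) :=
    continuous_id.mul (hs.cwr.abs.mul hs.cw1.abs)
  have c2 : Continuous fun r => (1 / 2) * (r * p.w1 r ^ 2) :=
    continuous_const.mul (continuous_id.mul (hs.cw1.pow 2))
  rw [intervalIntegral.integral_add (c1.intervalIntegrable _ _) (c2.intervalIntegrable _ _),
    intervalIntegral.integral_const_mul]
  linarith

private theorem StM2_uV (hs : IsSlice R1 p) (hy : Hyp R1 p om) {a b : ℝ} (ha : 0 ≤ a) (hab : a ≤ b)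
    (hb : b ≤ R1) {u : ℝ → ℝ} (hu : ContinuousOn u (Icc a b)) :
    ∫ r in a..b, r * (|u r| * StM2_V p r) ≤
      Real.sqrt (∫ r in a..b, r * u r ^ 2) * ((118 / 100) * chi R1 p) := by
  have hE := hy.en
  have hX := chi_sq hs hy
  have hc : 0 ≤ chi R1 p := chi_nonneg
  set S := Real.sqrt (∫ r in a..b, r * u r ^ 2) with hS
  have hS0 : 0 ≤ S := Real.sqrt_nonneg _
  have h1 := csr ha hab hu hs.cwr.continuousOn
  have h2 := csr ha hab hu hs.cw1.continuousOn
  have h3 : Real.sqrt (∫ r in a..b, r * p.wr r ^ 2) ≤ chi R1 p := by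
    refine Real.sqrt_le_sqrt ?_
    refine le_trans ?_ (X_parts hs hE).2.1
    exact int_mono_set ha hab hb (by have := hs.cwr; fun_prop) fun x hx =>
      mul_nonneg hx.1 (sq_nonneg _)
  have h4 : Real.sqrt (∫ r in a..b, r * p.w1 r ^ 2) ≤ (36 / 100) * chi R1 p := by
    rw [← Real.sqrt_sq (by positivity : (0 : ℝ) ≤ (36 / 100) * chi R1 p)]
    refine Real.sqrt_le_sqrt ?_
    have h5 : ∫ r in a..b, r * p.w1 r ^ 2 ≤ ∫ r in (0 : ℝ)..R1, r * p.w1 r ^ 2 :=
      int_mono_set ha hab hb (by have := hs.cw1; fun_prop) fun x hx =>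
      mul_nonneg hx.1 (sq_nonneg _)
    have h6 := (X_parts hs hE).2.2
    rw [mul_pow, hX]
    have h7 := X_nonneg hs hE
    linarith
  have h5 : ∀ r : ℝ, r * (|u r| * StM2_V p r) =
      r * (|u r| * |p.wr r|) + (1 / 2) * (r * (|u r| * |p.w1 r|)) := by
    intro r
    unfold StM2_V
    ring
  simp only [h5]
  have c1 : ContinuousOn (fun r => r * (|u r| * |p.wr r|)) (Icc a b) :=
    continuousOn_id.mul (hu.abs.mul hs.cwr.abs.continuousOn)
  have c2 : ContinuousOn (fun r => (1 / 2) * (r * (|u r| * |p.w1 r|))) (Icc a b) :=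
    continuousOn_const.mul (continuousOn_id.mul (hu.abs.mul hs.cw1.abs.continuousOn))
  rw [← uIcc_of_le hab] at c1 c2
  rw [intervalIntegral.integral_add c1.intervalIntegrable c2.intervalIntegrable,
    intervalIntegral.integral_const_mul]
  have h6 : S * Real.sqrt (∫ r in a..b, r * p.wr r ^ 2) ≤ S * chi R1 p :=
    mul_le_mul_of_nonneg_left h3 hS0
  have h7 : S * Real.sqrt (∫ r in a..b, r * p.w1 r ^ 2) ≤ S * ((36 / 100) * chi R1 p) :=
    mul_le_mul_of_nonneg_left h4 hS0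
  linarith

private theorem StM2_chi_le_Lam (hs : IsSlice R1 p) (hy : Hyp R1 p om) (hg : Geo R1 p om lam) :
    chi R1 p ≤ om / 10 ^ 14 := by
  have h1 := Lam_small hs hy hg
  have h2 : 0 ≤ om ^ 2 * lam := mul_nonneg (sq_nonneg _) hg.lam_pos.le
  unfold Lam at h1
  linarith

theorem M3_le (hs : IsSlice R1 p) (hy : Hyp R1 p om) (hg : Geo R1 p om lam) :
    ∫ r in (0 : ℝ)..R1, ((4 + p.a r) * Real.sin (p.f r) * p.w r ^ 2)
      * (r / (r + ep1 / om) * p.wr r + p.w r / (2 * (r + ep1 / om))) ≤ om * p.X R1 / 10 ^ 4 := by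
  have hE := hy.en
  have hL := L_pos hy (p := p) (R1 := R1)
  have hR := hs.R1pos.le
  have hX := X_nonneg hs hE
  have hchi : 0 ≤ chi R1 p := chi_nonneg
  have hchi2 := StM2_chi_le_Lam hs hy hg
  have hom : 0 < om := lt_of_lt_of_le (by positivity) hy.hom
  change ∫ r in (0 : ℝ)..R1, ((4 + p.a r) * Real.sin (p.f r) * p.w r ^ 2) * StM2_m p (ep1 / om) r
    ≤ om * p.X R1 / 10 ^ 4
  have c1 : ContinuousOn (fun r => ((4 + p.a r) * Real.sin (p.f r) * p.w r ^ 2) *
      StM2_m p (ep1 / om) r) (Icc 0 R1) := by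
    refine ContinuousOn.mul ?_ (StM2_m_cont hs hL)
    exact (((continuous_const.add hs.ca).mul (Real.continuous_sin.comp hs.cf)).mul
      (hs.cw.pow 2)).continuousOn
  have c2 : Continuous fun r => (40001 / 10000) * chi R1 p * (r * (|p.w1 r| * StM2_V p r)) :=
    continuous_const.mul (continuous_id.mul (hs.cw1.abs.mul (StM2_V_cont hs)))
  have h1 : ∫ r in (0 : ℝ)..R1, ((4 + p.a r) * Real.sin (p.f r) * p.w r ^ 2) *
      StM2_m p (ep1 / om) r ≤
      ∫ r in (0 : ℝ)..R1, (40001 / 10000) * chi R1 p * (r * (|p.w1 r| * StM2_V p r)) := by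
    refine intervalIntegral.integral_mono_on hR (by
      rw [← uIcc_of_le hR] at c1; exact c1.intervalIntegrable) (c2.intervalIntegrable _ _) ?_
    intro r hr
    refine (le_abs_self _).trans ?_
    obtain ⟨m1, m2⟩ := StM2_mu hs hE hr
    have hw : |p.w r| ≤ chi R1 p := w_abs hs hE r hr
    have hw' : |p.w r| = r * |p.w1 r| := by rw [hs.hw1 r, abs_mul, abs_of_nonneg hr.1]
    have hm := StM2_m_le hs hL hr.1
    have hsin := Real.abs_sin_le_one (p.f r)
    have hV := StM2_V_nonneg (p := p) r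
    rw [abs_mul, abs_mul, abs_mul, abs_of_nonneg m1, abs_pow, sq]
    have e1 : (4 + p.a r) * |Real.sin (p.f r)| ≤ 40001 / 10000 * 1 :=
      mul_le_mul m2 hsin (abs_nonneg _) (by norm_num)
    have e2 : |p.w r| * |p.w r| ≤ chi R1 p * (r * |p.w1 r|) := by
      rw [← hw']
      exact mul_le_mul_of_nonneg_right hw (abs_nonneg _)
    have e3 : (4 + p.a r) * |Real.sin (p.f r)| * (|p.w r| * |p.w r|) * |StM2_m p (ep1 / om) r| ≤
        40001 / 10000 * 1 * (chi R1 p * (r * |p.w1 r|)) * StM2_V p r := by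
      refine mul_le_mul (mul_le_mul e1 e2 (by positivity) (by norm_num)) hm (abs_nonneg _) ?_
      have := hr.1
      positivity
    refine e3.trans (le_of_eq ?_)
    ring
  rw [intervalIntegral.integral_const_mul] at h1
  have h2 := StM2_w1V hs hE
  have h3 : 40001 / 10000 * chi R1 p * ∫ r in (0 : ℝ)..R1, r * (|p.w1 r| * StM2_V p r) ≤
      40001 / 10000 * chi R1 p * (21 / 80 * p.X R1) :=
    mul_le_mul_of_nonneg_left h2 (by positivity)
  have h4 : chi R1 p * p.X R1 ≤ om / 10 ^ 14 * p.X R1 := mul_le_mul_of_nonneg_right hchi2 hX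
  have h5 : 0 ≤ om * p.X R1 := mul_nonneg hom.le hX
  nlinarith

private theorem StM2_om_pos (hy : Hyp R1 p om) : 0 < om := lt_of_lt_of_le (by positivity) hy.hom

private theorem StM2_M4_near (hs : IsSlice R1 p) (hy : Hyp R1 p om) (hg : Geo R1 p om lam) :
    ∫ r in (0 : ℝ)..(ep1 / om), -((4 + p.a r) * Real.sin (p.f r) * p.g r ^ 2) *
      StM2_m p (ep1 / om) r ≤ 265 * 10 ^ 4 * om ^ 3 * lam * chi R1 p := by
  have hE := hy.en
  have hL := L_pos hy (p := p) (R1 := R1)
  have hLR := L_le hs hy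
  have hR := hs.R1pos
  have hchi : 0 ≤ chi R1 p := chi_nonneg
  have hom := StM2_om_pos hy
  have hLam := Lam_small hs hy hg
  have hLam0 : 0 ≤ Lam R1 p om lam := by
    unfold Lam
    have := hg.lam_pos
    positivity
  have hsub : Icc 0 (ep1 / om) ⊆ Icc 0 R1 := Icc_subset_Icc le_rfl (by linarith)
  have c1 : ContinuousOn (fun r => -((4 + p.a r) * Real.sin (p.f r) * p.g r ^ 2) *
      StM2_m p (ep1 / om) r) (Icc 0 (ep1 / om)) := by
    refine ContinuousOn.mul ?_ ((StM2_m_cont hs hL).mono hsub)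
    exact (((continuous_const.add hs.ca).mul (Real.continuous_sin.comp hs.cf)).mul
      (hs.cg.pow 2)).neg.continuousOn
  have cs : Continuous fun r => Real.sin (p.f r) := Real.continuous_sin.comp hs.cf
  have c2 : Continuous fun r => (129 * om ^ 2 / (ep1 / om)) *
      (r * (|Real.sin (p.f r)| * StM2_V p r)) :=
    continuous_const.mul (continuous_id.mul (cs.abs.mul (StM2_V_cont hs)))
  have h1 : ∫ r in (0 : ℝ)..(ep1 / om), -((4 + p.a r) * Real.sin (p.f r) * p.g r ^ 2) *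
      StM2_m p (ep1 / om) r ≤
      ∫ r in (0 : ℝ)..(ep1 / om), (129 * om ^ 2 / (ep1 / om)) *
        (r * (|Real.sin (p.f r)| * StM2_V p r)) := by
    refine intervalIntegral.integral_mono_on hL.le (by
      rw [← uIcc_of_le hL.le] at c1; exact c1.intervalIntegrable) (c2.intervalIntegrable _ _) ?_
    intro r hr
    refine (le_abs_self _).trans ?_
    obtain ⟨m1, m2⟩ := StM2_mu hs hE (hsub hr)
    have hm := StM2_m_le' hs hL hr.1
    have hsin := Real.abs_sin_le_one (p.f r)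
    have hV := StM2_V_nonneg (p := p) r
    have hgn := g_near hs hy hg r hr
    rw [abs_mul, abs_neg, abs_mul, abs_mul, abs_of_nonneg m1, abs_pow]
    have e0 : |p.g r| ≤ 4 * om * |Real.sin (p.f r)| + om / 10 ^ 11 := by linarith
    have e1 : |p.g r| ^ 2 ≤ 322 / 10 * om ^ 2 := by
      have h2 : |p.g r| ≤ 4 * om * |Real.sin (p.f r)| + om / 10 ^ 11 := e0
      have h3 : |p.g r| ≤ (4 + 1 / 10 ^ 11) * om := by nlinarith
      calc |p.g r| ^ 2 ≤ ((4 + 1 / 10 ^ 11) * om) ^ 2 := pow_le_pow_left₀ (abs_nonneg _) h3 2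
        _ ≤ 322 / 10 * om ^ 2 := by nlinarith [sq_nonneg om]
    have e2 : (4 + p.a r) * |Real.sin (p.f r)| * |p.g r| ^ 2 ≤
        40001 / 10000 * |Real.sin (p.f r)| * (322 / 10 * om ^ 2) :=
      mul_le_mul (mul_le_mul_of_nonneg_right m2 (abs_nonneg _)) e1 (by positivity)
        (by positivity)
    have e3 : (4 + p.a r) * |Real.sin (p.f r)| * |p.g r| ^ 2 * |StM2_m p (ep1 / om) r| ≤
        40001 / 10000 * |Real.sin (p.f r)| * (322 / 10 * om ^ 2) *
          (r / (ep1 / om) * StM2_V p r) :=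
      mul_le_mul e2 hm (abs_nonneg _) (by positivity)
    refine e3.trans ?_
    have e4 : 40001 / 10000 * |Real.sin (p.f r)| * (322 / 10 * om ^ 2) *
          (r / (ep1 / om) * StM2_V p r) =
        (40001 / 10000 * (322 / 10)) * (om ^ 2 / (ep1 / om) * (r * (|Real.sin (p.f r)| *
          StM2_V p r))) := by ring
    have e5 : 129 * om ^ 2 / (ep1 / om) * (r * (|Real.sin (p.f r)| * StM2_V p r)) =
        129 * (om ^ 2 / (ep1 / om) * (r * (|Real.sin (p.f r)| * StM2_V p r))) := by ring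
    rw [e4, e5]
    have e6 : 0 ≤ om ^ 2 / (ep1 / om) * (r * (|Real.sin (p.f r)| * StM2_V p r)) := by
      have := hr.1
      positivity
    refine mul_le_mul_of_nonneg_right ?_ e6
    norm_num
  rw [intervalIntegral.integral_const_mul] at h1
  have h2 := StM2_uV hs hy le_rfl hL.le (by linarith : ep1 / om ≤ R1)
    (u := fun r => Real.sin (p.f r)) cs.continuousOn
  have h3 : Real.sqrt (∫ r in (0 : ℝ)..(ep1 / om), r * Real.sin (p.f r) ^ 2) ≤
      (1733 / 1000) * lam := by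
    have hl := hg.lam_pos
    rw [← Real.sqrt_sq (by positivity : (0 : ℝ) ≤ (1733 / 1000) * lam)]
    refine Real.sqrt_le_sqrt ((I_sin2 hs hy hg).trans ?_)
    nlinarith [sq_nonneg lam]
  have h4 : Real.sqrt (∫ r in (0 : ℝ)..(ep1 / om), r * Real.sin (p.f r) ^ 2) *
      ((118 / 100) * chi R1 p) ≤ (1733 / 1000) * lam * ((118 / 100) * chi R1 p) :=
    mul_le_mul_of_nonneg_right h3 (by positivity)
  have h5 : 129 * om ^ 2 / (ep1 / om) = 129 * 10 ^ 4 * om ^ 3 := by
    unfold ep1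
    field_simp
  rw [h5] at h1
  have h6 : 129 * 10 ^ 4 * om ^ 3 * (∫ r in (0 : ℝ)..(ep1 / om),
      r * (|Real.sin (p.f r)| * StM2_V p r)) ≤
      129 * 10 ^ 4 * om ^ 3 * ((1733 / 1000) * lam * ((118 / 100) * chi R1 p)) :=
    mul_le_mul_of_nonneg_left (h2.trans h4) (by positivity)
  refine (h1.trans h6).trans ?_
  have h7 : 0 ≤ om ^ 3 * lam * chi R1 p := by
    have := hg.lam_pos
    positivity
  nlinarith

private theorem StM2_M4_far (hs : IsSlice R1 p) (hy : Hyp R1 p om) (hg : Geo R1 p om lam) :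
    ∫ r in (ep1 / om)..R1, -((4 + p.a r) * Real.sin (p.f r) * p.g r ^ 2) *
      StM2_m p (ep1 / om) r ≤ om ^ 3 * lam * chi R1 p := by
  have hE := hy.en
  have hL := L_pos hy (p := p) (R1 := R1)
  have hLR := L_le hs hy
  have hR := hs.R1pos
  have hchi : 0 ≤ chi R1 p := chi_nonneg
  have hom := StM2_om_pos hy
  have hLam := Lam_small hs hy hg
  have hLam2 := Lam_le hs hy hg
  have hLam0 : 0 ≤ Lam R1 p om lam := by
    unfold Lam
    have := hg.lam_pos
    positivity
  have hLR' : ep1 / om ≤ R1 := by linarith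
  have hsub : Icc (ep1 / om) R1 ⊆ Icc 0 R1 := Icc_subset_Icc hL.le le_rfl
  have c1 : ContinuousOn (fun r => -((4 + p.a r) * Real.sin (p.f r) * p.g r ^ 2) *
      StM2_m p (ep1 / om) r) (Icc (ep1 / om) R1) := by
    refine ContinuousOn.mul ?_ ((StM2_m_cont hs hL).mono hsub)
    exact (((continuous_const.add hs.ca).mul (Real.continuous_sin.comp hs.cf)).mul
      (hs.cg.pow 2)).neg.continuousOn
  have c0 : ContinuousOn (fun r => p.g r / r) (Icc (ep1 / om) R1) :=
    hs.cg.continuousOn.div continuousOn_id fun r hr => (lt_of_lt_of_le hL hr.1).ne'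
  have c2 : ContinuousOn (fun r => (40001 / 10000 * (900 * eps * Lam R1 p om lam)) *
      (r * (|p.g r / r| * StM2_V p r))) (Icc (ep1 / om) R1) :=
    continuousOn_const.mul (continuousOn_id.mul (c0.abs.mul (StM2_V_cont hs).continuousOn))
  have heps : 0 < eps := by unfold eps; positivity
  have h1 : ∫ r in (ep1 / om)..R1, -((4 + p.a r) * Real.sin (p.f r) * p.g r ^ 2) *
      StM2_m p (ep1 / om) r ≤
      ∫ r in (ep1 / om)..R1, (40001 / 10000 * (900 * eps * Lam R1 p om lam)) *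
      (r * (|p.g r / r| * StM2_V p r)) := by
    refine intervalIntegral.integral_mono_on hLR' (by
      rw [← uIcc_of_le hLR'] at c1; exact c1.intervalIntegrable)
      (by rw [← uIcc_of_le hLR'] at c2; exact c2.intervalIntegrable) ?_
    intro r hr
    refine (le_abs_self _).trans ?_
    have hr0 : 0 < r := lt_of_lt_of_le hL hr.1
    obtain ⟨m1, m2⟩ := StM2_mu hs hE (hsub hr)
    have hm := StM2_m_le hs hL hr0.le
    have hV := StM2_V_nonneg (p := p) r
    have hsg := sg_far hs hy hg r hr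
    have hgr : r * |p.g r / r| = |p.g r| := by
      rw [abs_div, abs_of_pos hr0]
      field_simp
    rw [abs_mul, abs_neg, abs_mul, abs_mul, abs_of_nonneg m1, abs_pow]
    have e2 : (4 + p.a r) * |Real.sin (p.f r)| * |p.g r| ^ 2 =
        (4 + p.a r) * (|Real.sin (p.f r)| * |p.g r|) * |p.g r| := by ring
    have e3 : (4 + p.a r) * (|Real.sin (p.f r)| * |p.g r|) * |p.g r| *
        |StM2_m p (ep1 / om) r| ≤
        40001 / 10000 * (900 * eps * Lam R1 p om lam) * |p.g r| * StM2_V p r :=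
      mul_le_mul (mul_le_mul_of_nonneg_right (mul_le_mul m2 hsg (by positivity) (by norm_num))
        (abs_nonneg _)) hm (abs_nonneg _) (by positivity)
    rw [e2]
    refine e3.trans (le_of_eq ?_)
    rw [← hgr]
    ring
  rw [intervalIntegral.integral_const_mul] at h1
  have h2 := StM2_uV hs hy hL.le hLR' le_rfl (u := fun r => p.g r / r) c0
  have h3 : Real.sqrt (∫ r in (ep1 / om)..R1, r * (p.g r / r) ^ 2) ≤
      150 * Lam R1 p om lam := by
    rw [← Real.sqrt_sq (by positivity : (0 : ℝ) ≤ 150 * Lam R1 p om lam)]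
    exact Real.sqrt_le_sqrt (g_L2 hs hy hg)
  have h4 : Real.sqrt (∫ r in (ep1 / om)..R1, r * (p.g r / r) ^ 2) *
      ((118 / 100) * chi R1 p) ≤ 150 * Lam R1 p om lam * ((118 / 100) * chi R1 p) :=
    mul_le_mul_of_nonneg_right h3 (by positivity)
  have h6 := mul_le_mul_of_nonneg_left (h2.trans h4)
    (by positivity : (0 : ℝ) ≤ 40001 / 10000 * (900 * eps * Lam R1 p om lam))
  refine (h1.trans h6).trans ?_
  have h8 : Lam R1 p om lam * Lam R1 p om lam ≤ om / 10 ^ 14 * (4 * 10 ^ 7 * om ^ 2 * lam) :=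
    mul_le_mul hLam hLam2 hLam0 (by positivity)
  have h9 : Lam R1 p om lam * Lam R1 p om lam * chi R1 p ≤
      om / 10 ^ 14 * (4 * 10 ^ 7 * om ^ 2 * lam) * chi R1 p := mul_le_mul_of_nonneg_right h8 hchi
  have h7 : 0 ≤ om ^ 3 * lam * chi R1 p := by
    have := hg.lam_pos
    positivity
  have h10 : 40001 / 10000 * (900 * eps * Lam R1 p om lam) *
      (150 * Lam R1 p om lam * (118 / 100 * chi R1 p)) =
      (40001 / 10000 * 900 * 150 * (118 / 100) * eps) *
        (Lam R1 p om lam * Lam R1 p om lam * chi R1 p) := by ring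
  rw [h10]
  have h11 := mul_le_mul_of_nonneg_left h9
    (by positivity : (0 : ℝ) ≤ (40001 / 10000 * 900 * 150 * (118 / 100) * eps))
  refine h11.trans ?_
  unfold eps
  have h12 : (40001 / 10000 * 900 * 150 * (118 / 100) * (1 / 10 ^ 22)) *
      (om / 10 ^ 14 * (4 * 10 ^ 7 * om ^ 2 * lam) * chi R1 p) =
      ((40001 / 10000 * 900 * 150 * (118 / 100) * (1 / 10 ^ 22)) * (4 / 10 ^ 7)) *
        (om ^ 3 * lam * chi R1 p) := by ring
  rw [h12]
  nlinarith

theorem M4_le (hs : IsSlice R1 p) (hy : Hyp R1 p om) (hg : Geo R1 p om lam) :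
    ∫ r in (0 : ℝ)..R1, -((4 + p.a r) * Real.sin (p.f r) * p.g r ^ 2)
      * (r / (r + ep1 / om) * p.wr r + p.w r / (2 * (r + ep1 / om)))
      ≤ 27 * 10 ^ 5 * om ^ 3 * lam * chi R1 p := by
  have hL := L_pos hy (p := p) (R1 := R1)
  have hLR := L_le hs hy
  have hR := hs.R1pos
  have hLR' : ep1 / om ≤ R1 := by linarith
  change ∫ r in (0 : ℝ)..R1, -((4 + p.a r) * Real.sin (p.f r) * p.g r ^ 2) *
    StM2_m p (ep1 / om) r ≤ 27 * 10 ^ 5 * om ^ 3 * lam * chi R1 p
  have c1 : ContinuousOn (fun r => -((4 + p.a r) * Real.sin (p.f r) * p.g r ^ 2) *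
      StM2_m p (ep1 / om) r) (Icc 0 R1) := by
    refine ContinuousOn.mul ?_ (StM2_m_cont hs hL)
    exact (((continuous_const.add hs.ca).mul (Real.continuous_sin.comp hs.cf)).mul
      (hs.cg.pow 2)).neg.continuousOn
  have i1 : IntervalIntegrable (fun r => -((4 + p.a r) * Real.sin (p.f r) * p.g r ^ 2) *
      StM2_m p (ep1 / om) r) volume 0 (ep1 / om) := by
    refine ContinuousOn.intervalIntegrable ?_
    rw [uIcc_of_le hL.le]
    exact c1.mono (Icc_subset_Icc le_rfl hLR')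
  have i2 : IntervalIntegrable (fun r => -((4 + p.a r) * Real.sin (p.f r) * p.g r ^ 2) *
      StM2_m p (ep1 / om) r) volume (ep1 / om) R1 := by
    refine ContinuousOn.intervalIntegrable ?_
    rw [uIcc_of_le hLR']
    exact c1.mono (Icc_subset_Icc hL.le le_rfl)
  rw [← intervalIntegral.integral_add_adjacent_intervals i1 i2]
  have h1 := StM2_M4_near hs hy hg
  have h2 := StM2_M4_far hs hy hg
  have h7 : 0 ≤ om ^ 3 * lam * chi R1 p := by
    have := hg.lam_pos
    have := StM2_om_pos hy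
    have : 0 ≤ chi R1 p := chi_nonneg
    positivity
  linarith

theorem M5_le (hs : IsSlice R1 p) (hy : Hyp R1 p om) (hg : Geo R1 p om lam) :
    ∫ r in (0 : ℝ)..R1, (2 * r * Real.cos (p.f r) * (p.e r * p.g r - p.w r * p.y r))
      * (r / (r + ep1 / om) * p.wr r + p.w r / (2 * (r + ep1 / om)))
      ≤ om ^ 3 * lam * chi R1 p + om * p.X R1 / 10 ^ 4 := by
  have hE := hy.en
  have hL := L_pos hy (p := p) (R1 := R1)
  have hR := hs.R1pos.le
  have hX := X_nonneg hs hE
  have hchi : 0 ≤ chi R1 p := chi_nonneg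
  have hom := StM2_om_pos hy
  have hlam := hg.lam_pos
  have heps : 0 < eps := by unfold eps; positivity
  change ∫ r in (0 : ℝ)..R1, (2 * r * Real.cos (p.f r) * (p.e r * p.g r - p.w r * p.y r)) *
    StM2_m p (ep1 / om) r ≤ om ^ 3 * lam * chi R1 p + om * p.X R1 / 10 ^ 4
  have c1 : ContinuousOn (fun r => (2 * r * Real.cos (p.f r) *
      (p.e r * p.g r - p.w r * p.y r)) * StM2_m p (ep1 / om) r) (Icc 0 R1) := by
    refine ContinuousOn.mul ?_ (StM2_m_cont hs hL)
    exact (((continuous_const.mul continuous_id).mul (Real.continuous_cos.comp hs.cf)).mul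
      ((hs.ce.mul hs.cg).sub (hs.cw.mul hs.cy))).continuousOn
  have c2 : Continuous fun r => (8 * om ^ 2 * lam) * (r * (|p.g r| * StM2_V p r)) :=
    continuous_const.mul (continuous_id.mul (hs.cg.abs.mul (StM2_V_cont hs)))
  have c3 : Continuous fun r => (2 * (om / 10 ^ 12)) * (r * (|p.w1 r| * StM2_V p r)) :=
    continuous_const.mul (continuous_id.mul (hs.cw1.abs.mul (StM2_V_cont hs)))
  have h1 : ∫ r in (0 : ℝ)..R1, (2 * r * Real.cos (p.f r) *
      (p.e r * p.g r - p.w r * p.y r)) * StM2_m p (ep1 / om) r ≤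
      ∫ r in (0 : ℝ)..R1, ((8 * om ^ 2 * lam) * (r * (|p.g r| * StM2_V p r)) +
        (2 * (om / 10 ^ 12)) * (r * (|p.w1 r| * StM2_V p r))) := by
    refine intervalIntegral.integral_mono_on hR (by
      rw [← uIcc_of_le hR] at c1; exact c1.intervalIntegrable)
      ((c2.add c3).intervalIntegrable _ _) ?_
    intro r hr
    refine (le_abs_self _).trans ?_
    have hr0 := hr.1
    have he := e_abs hs hy hg r hr
    have hry := ry_abs hs hy r hr
    have hm := StM2_m_le hs hL hr.1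
    have hcos := Real.abs_cos_le_one (p.f r)
    have hV := StM2_V_nonneg (p := p) r
    rw [abs_mul, abs_mul, abs_mul, abs_mul, abs_of_nonneg hr0, abs_of_pos (by norm_num : (0 : ℝ) < 2)]
    rw [abs_mul, abs_of_nonneg hr0] at hry
    have e1 : |p.e r * p.g r - p.w r * p.y r| ≤ |p.e r| * |p.g r| + |p.w r| * |p.y r| := by
      rw [← abs_mul, ← abs_mul]
      exact abs_sub _ _
    have hw' : |p.w r| = r * |p.w1 r| := by rw [hs.hw1 r, abs_mul, abs_of_nonneg hr.1]
    have e2 : 2 * r * |Real.cos (p.f r)| * |p.e r * p.g r - p.w r * p.y r| *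
        |StM2_m p (ep1 / om) r| ≤
        2 * r * 1 * (|p.e r| * |p.g r| + |p.w r| * |p.y r|) * StM2_V p r :=
      mul_le_mul (mul_le_mul (mul_le_mul_of_nonneg_left hcos (by positivity)) e1 (abs_nonneg _)
        (by positivity)) hm (abs_nonneg _) (by positivity)
    refine e2.trans ?_
    have e3 : 2 * r * 1 * (|p.e r| * |p.g r| + |p.w r| * |p.y r|) * StM2_V p r =
        |p.e r| * (2 * (r * (|p.g r| * StM2_V p r))) +
        (r * |p.y r|) * (2 * (r * (|p.w1 r| * StM2_V p r))) := by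
      rw [hw']
      ring
    rw [e3]
    have e4 : |p.e r| * (2 * (r * (|p.g r| * StM2_V p r))) ≤
        (4 * om ^ 2 * lam) * (2 * (r * (|p.g r| * StM2_V p r))) :=
      mul_le_mul_of_nonneg_right he (by positivity)
    have e5 : (r * |p.y r|) * (2 * (r * (|p.w1 r| * StM2_V p r))) ≤
        (om / 10 ^ 12) * (2 * (r * (|p.w1 r| * StM2_V p r))) :=
      mul_le_mul_of_nonneg_right hry (by positivity)
    linarith
  rw [intervalIntegral.integral_add (c2.intervalIntegrable _ _) (c3.intervalIntegrable _ _),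
    intervalIntegral.integral_const_mul, intervalIntegral.integral_const_mul] at h1
  have h2 := StM2_w1V hs hE
  have h3 := StM2_uV hs hy le_rfl hR le_rfl (u := p.g) hs.cg.continuousOn
  have h4 : Real.sqrt (∫ r in (0 : ℝ)..R1, r * p.g r ^ 2) ≤ eps := by
    rw [← Real.sqrt_sq heps.le]
    exact Real.sqrt_le_sqrt (En_parts hs hE).1
  have h5 : Real.sqrt (∫ r in (0 : ℝ)..R1, r * p.g r ^ 2) * (118 / 100 * chi R1 p) ≤
      eps * (118 / 100 * chi R1 p) := mul_le_mul_of_nonneg_right h4 (by positivity)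
  have h6 := mul_le_mul_of_nonneg_left (h3.trans h5) (by positivity : (0 : ℝ) ≤ 8 * om ^ 2 * lam)
  have h7 := mul_le_mul_of_nonneg_left h2 (by positivity : (0 : ℝ) ≤ 2 * (om / 10 ^ 12))
  have h8 : (8 * om ^ 2 * lam) * (eps * (118 / 100 * chi R1 p)) ≤ om ^ 3 * lam * chi R1 p := by
    have h9 : (8 * om ^ 2 * lam) * (eps * (118 / 100 * chi R1 p)) =
        (8 * eps * (118 / 100)) * (om ^ 2 * lam * chi R1 p) := by ring
    have h10 : om ^ 3 * lam * chi R1 p = om * (om ^ 2 * lam * chi R1 p) := by ring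
    rw [h9, h10]
    refine mul_le_mul_of_nonneg_right ?_ (by positivity)
    have h11 := hy.hom
    have h12 : 8 * eps * (118 / 100) ≤ 1 := by unfold eps; norm_num
    have h13 : (1 : ℝ) ≤ 10 ^ 60 := by norm_num
    linarith
  have h9 : 0 ≤ om * p.X R1 := by positivity
  have h10 : 2 * (om / 10 ^ 12) * (21 / 80 * p.X R1) ≤ om * p.X R1 / 10 ^ 4 := by
    nlinarith
  linarith

end H72GS
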