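import Pool.Agent.H72.GS.StFar

/-!
# StY2: the terms of `dD`

Integrals over `0..R1`; `Lam³ ≤ (4·10⁷ om² lam)³`, `om lam ≤ eps = 10⁻²²`.
* `I6 = 2 ∫ w r e s g²`: `|e| ≤ 4 om² lam`, `|s g| ≤ 5 om`, `∫ r |w||g| ≤ eps²`... one may use
  `∫ r |w||g| ≤ R1 ∫ r |w1||g| ≤ R1 (chi/√8) eps`.
* `I7 = 2 ∫ w μ c g³`: on `[0,L]`: `|g|³ ≤ 4 (64 om³ |s|³ + (250 Lam)³)`,
  `8.01·256 om³ ∫ r |w1||s|³ ≤ 2051 om³ (chi/√8)(∫_0^L r s²)^{1/2}`, `(3 lam²)^{1/2} ≤ 1.7321 lam`:
  `≤ 1257 om³ lam chi`; second part `8.01·6.25·10⁷ Lam³ ∫_0^L |w|`,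
  `∫_0^L |w| = ∫ r |w1| ≤ (chi/√8) L`.
  On `[L,R1]`: `8.01 (300 Lam)² ∫ r |w1||g| ≤ 7.3·10⁵ Lam² chi eps`.
-/

namespace H72GS

open Set MeasureTheory intervalIntegral

variable {R1 : ℝ} {p : Pre} {om lam : ℝ}

private theorem StY2_X (hs : IsSlice R1 p) (hy : Hyp R1 p om) : 0 ≤ p.X R1 :=
  X_nonneg hs hy.en

private theorem StY2_sq {x : ℝ} (h : 0 ≤ x) : Real.sqrt (x ^ 2) = x := Real.sqrt_sq h

/-- `∫ r |w1||g| ≤ chi eps` -/
private theorem StY2_wg (hs : IsSlice R1 p) (hy : Hyp R1 p om) :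
    ∫ r in (0 : ℝ)..R1, r * (|p.w1 r| * |p.g r|) ≤ chi R1 p * eps := by
  have h1 := csr (a := 0) (b := R1) le_rfl hs.R1pos.le hs.cw1.continuousOn hs.cg.continuousOn
  have h2 := (X_parts hs hy.en).2.2
  have h3 := (En_parts hs hy.en).1
  have hX := StY2_X hs hy
  have he : (0 : ℝ) ≤ eps := by unfold eps; positivity
  refine h1.trans ?_
  have h4 : Real.sqrt (∫ r in (0 : ℝ)..R1, r * p.w1 r ^ 2) ≤ chi R1 p := by
    unfold chi
    exact Real.sqrt_le_sqrt (h2.trans (by linarith))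
  have h5 : Real.sqrt (∫ r in (0 : ℝ)..R1, r * p.g r ^ 2) ≤ eps := by
    rw [← StY2_sq he]
    exact Real.sqrt_le_sqrt h3
  exact mul_le_mul h4 h5 (Real.sqrt_nonneg _) chi_nonneg

private theorem StY2_om (hy : Hyp R1 p om) : 0 < om := lt_of_lt_of_le (by positivity) hy.hom

private theorem StY2_mu (hs : IsSlice R1 p) (hy : Hyp R1 p om) {r : ℝ} (hr : r ∈ Icc 0 R1) :
    |4 + p.a r| ≤ 4005 / 1000 := by
  have := abs_le.mp (a_abs hs hy.en r hr)
  rw [abs_le]
  constructor <;> linarith [this.1, this.2]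

theorem I6_le (hs : IsSlice R1 p) (hy : Hyp R1 p om) (hg : Geo R1 p om lam) :
    ∫ r in (0 : ℝ)..R1, 2 * (p.w r * (r * p.e r * Real.sin (p.f r) * p.g r ^ 2))
      ≤ om ^ 3 * lam * chi R1 p / 10 ^ 5 := by
  have hom := StY2_om hy
  have hlam := hg.lam_pos
  have hR := hs.R1pos
  have hc := chi_nonneg (R1 := R1) (p := p)
  have hint := StY2_wg hs hy
  have h1 : ∫ r in (0 : ℝ)..R1, 2 * (p.w r * (r * p.e r * Real.sin (p.f r) * p.g r ^ 2))
      ≤ ∫ r in (0 : ℝ)..R1, (40 * om ^ 3 * lam * R1) * (r * (|p.w1 r| * |p.g r|)) := by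
    have := hs.cf
    have := hs.ce
    have := hs.cg
    have := hs.cw
    have := hs.cw1
    apply intervalIntegral.integral_mono_on hR.le
    · exact (by fun_prop : Continuous fun r => 2 * (p.w r * (r * p.e r * Real.sin (p.f r)
        * p.g r ^ 2))).intervalIntegrable _ _
    · exact (by fun_prop : Continuous fun r => (40 * om ^ 3 * lam * R1)
        * (r * (|p.w1 r| * |p.g r|))).intervalIntegrable _ _
    · intro r hr
      have he := e_abs hs hy hg r hr
      have hgg := g_all hs hy hg r hr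
      have hsin := Real.abs_sin_le_one (p.f r)
      have hr0 : 0 ≤ r := hr.1
      calc 2 * (p.w r * (r * p.e r * Real.sin (p.f r) * p.g r ^ 2))
          ≤ |2 * (p.w r * (r * p.e r * Real.sin (p.f r) * p.g r ^ 2))| := le_abs_self _
        _ = 2 * (r * (|p.w1 r| * |p.g r|)) * (r * (|p.e r| * (|Real.sin (p.f r)| * |p.g r|))) := by
            rw [hs.hw1 r]
            simp only [abs_mul, abs_pow, abs_two, abs_of_nonneg hr0]
            ring
        _ ≤ 2 * (r * (|p.w1 r| * |p.g r|)) * (R1 * (4 * om ^ 2 * lam * (1 * (5 * om)))) := by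
            gcongr
            exact hr.2
        _ = (40 * om ^ 3 * lam * R1) * (r * (|p.w1 r| * |p.g r|)) := by ring
  refine h1.trans ?_
  rw [intervalIntegral.integral_const_mul]
  calc (40 * om ^ 3 * lam * R1) * ∫ r in (0 : ℝ)..R1, r * (|p.w1 r| * |p.g r|)
      ≤ (40 * om ^ 3 * lam * (1 / 1000)) * (chi R1 p * eps) := by
        have h2 : 0 ≤ ∫ r in (0 : ℝ)..R1, r * (|p.w1 r| * |p.g r|) := by
          apply intervalIntegral.integral_nonneg hR.le
          intro r hr
          have := hr.1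
          positivity
        have h3 := hs.R1le
        gcongr
    _ = (om ^ 3 * lam * chi R1 p) * (40 / 1000 * eps) := by ring
    _ ≤ (om ^ 3 * lam * chi R1 p) * (1 / 10 ^ 5) := by
        apply mul_le_mul_of_nonneg_left _ (by positivity)
        unfold eps
        norm_num
    _ = om ^ 3 * lam * chi R1 p / 10 ^ 5 := by ring

private theorem StY2_cube {A B x : ℝ} (hA : 0 ≤ A) (hB : 0 ≤ B) (hx : 0 ≤ x) (h : x ≤ A + B) :
    x ^ 3 ≤ 4 * A ^ 3 + 4 * B ^ 3 := by
  have h1 : x ^ 3 ≤ (A + B) ^ 3 := by gcongr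
  have h2 : (A + B) ^ 3 ≤ 4 * A ^ 3 + 4 * B ^ 3 := by
    nlinarith [mul_nonneg (add_nonneg hA hB) (sq_nonneg (A - B))]
  exact h1.trans h2

/-- `∫_0^L r |w1||s|³` -/
private theorem StY2_ws (hs : IsSlice R1 p) (hy : Hyp R1 p om) (hg : Geo R1 p om lam) :
    ∫ r in (0 : ℝ)..(ep1 / om), r * (|p.w1 r| * |Real.sin (p.f r) ^ 3|)
      ≤ (6124 / 10000) * (chi R1 p * lam) := by
  have hL := L_pos hy
  have hLR := L_le hs hy
  have hR := hs.R1pos
  have hlam := hg.lam_pos
  have hX := StY2_X hs hy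
  have hcs : Continuous fun r => Real.sin (p.f r) ^ 3 := by
    have := hs.cf
    fun_prop
  have h1 := csr (a := 0) (b := ep1 / om) le_rfl hL.le hs.cw1.continuousOn hcs.continuousOn
  refine h1.trans ?_
  have h2 : ∫ r in (0 : ℝ)..(ep1 / om), r * p.w1 r ^ 2 ≤ p.X R1 / 8 := by
    refine le_trans ?_ (X_parts hs hy.en).2.2
    apply int_mono_set le_rfl hL.le (by linarith)
    · have := hs.cw1
      exact (by fun_prop : Continuous fun r => r * p.w1 r ^ 2).continuousOn
    · intro r hr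
      have := hr.1
      positivity
  have h3 : ∫ r in (0 : ℝ)..(ep1 / om), r * (Real.sin (p.f r) ^ 3) ^ 2 ≤ 3 * lam ^ 2 := by
    refine le_trans ?_ (I_sin2 hs hy hg)
    have := hs.cf
    apply intervalIntegral.integral_mono_on hL.le
    · exact (by fun_prop : Continuous fun r => r * (Real.sin (p.f r) ^ 3) ^ 2).intervalIntegrable _ _
    · exact (by fun_prop : Continuous fun r => r * Real.sin (p.f r) ^ 2).intervalIntegrable _ _
    · intro r hr
      have hr0 := hr.1
      have hs2 : Real.sin (p.f r) ^ 2 ≤ 1 := Real.sin_sq_le_one _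
      have hs0 : 0 ≤ Real.sin (p.f r) ^ 2 := sq_nonneg _
      have : (Real.sin (p.f r) ^ 3) ^ 2 ≤ Real.sin (p.f r) ^ 2 := by
        have e : (Real.sin (p.f r) ^ 3) ^ 2 = (Real.sin (p.f r) ^ 2) ^ 3 := by ring
        rw [e]
        calc (Real.sin (p.f r) ^ 2) ^ 3 = Real.sin (p.f r) ^ 2 * (Real.sin (p.f r) ^ 2) ^ 2 := by ring
          _ ≤ Real.sin (p.f r) ^ 2 * 1 := by
              apply mul_le_mul_of_nonneg_left _ hs0
              exact pow_le_one₀ hs0 hs2
          _ = Real.sin (p.f r) ^ 2 := mul_one _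
      exact mul_le_mul_of_nonneg_left this hr0
  have h4 : Real.sqrt (∫ r in (0 : ℝ)..(ep1 / om), r * p.w1 r ^ 2)
      * Real.sqrt (∫ r in (0 : ℝ)..(ep1 / om), r * (Real.sin (p.f r) ^ 3) ^ 2)
      ≤ Real.sqrt (p.X R1 / 8) * Real.sqrt (3 * lam ^ 2) :=
    mul_le_mul (Real.sqrt_le_sqrt h2) (Real.sqrt_le_sqrt h3) (Real.sqrt_nonneg _)
      (Real.sqrt_nonneg _)
  refine h4.trans ?_
  rw [← Real.sqrt_mul (by positivity)]
  apply Real.sqrt_le_iff.mpr
  have hc := chi_nonneg (R1 := R1) (p := p)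
  refine ⟨by positivity, ?_⟩
  have hcs' := chi_sq hs hy
  have e : ((6124 / 10000) * (chi R1 p * lam)) ^ 2 = (6124 / 10000) ^ 2 * (p.X R1 * lam ^ 2) := by
    rw [← hcs']
    ring
  rw [e]
  have h6 : 0 ≤ p.X R1 * lam ^ 2 := by positivity
  nlinarith

theorem I7_le (hs : IsSlice R1 p) (hy : Hyp R1 p om) (hg : Geo R1 p om lam) :
    ∫ r in (0 : ℝ)..R1, 2 * (p.w r * ((4 + p.a r) * Real.cos (p.f r) * p.g r ^ 3))
      ≤ 1270 * om ^ 3 * lam * chi R1 p := by
  have hom := StY2_om hy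
  have hlam := hg.lam_pos
  have hR := hs.R1pos
  have hL := L_pos hy
  have hLR := L_le hs hy
  have hc := chi_nonneg (R1 := R1) (p := p)
  have hLam0 : 0 ≤ Lam R1 p om lam := by unfold Lam; positivity
  have hcf := hs.cf
  have hca := hs.ca
  have hcg := hs.cg
  have hcw := hs.cw
  have hcw1 := hs.cw1
  set La := Lam R1 p om lam with hLa
  set ch := chi R1 p with hch
  have hcont : Continuous fun r => 2 * (p.w r * ((4 + p.a r) * Real.cos (p.f r) * p.g r ^ 3)) := by
    fun_prop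
  have hpt : ∀ r ∈ Icc 0 R1, 2 * (p.w r * ((4 + p.a r) * Real.cos (p.f r) * p.g r ^ 3))
      ≤ (801 / 100) * (r * |p.w1 r|) * |p.g r| ^ 3 := by
    intro r hr
    have hmu := StY2_mu hs hy hr
    have hcos := Real.abs_cos_le_one (p.f r)
    have hr0 : 0 ≤ r := hr.1
    calc 2 * (p.w r * ((4 + p.a r) * Real.cos (p.f r) * p.g r ^ 3))
        ≤ |2 * (p.w r * ((4 + p.a r) * Real.cos (p.f r) * p.g r ^ 3))| := le_abs_self _
      _ = 2 * (r * |p.w1 r|) * (|4 + p.a r| * |Real.cos (p.f r)|) * |p.g r| ^ 3 := by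
          rw [hs.hw1 r]
          simp only [abs_mul, abs_pow, abs_two, abs_of_nonneg hr0]
          ring
      _ ≤ 2 * (r * |p.w1 r|) * (4005 / 1000 * 1) * |p.g r| ^ 3 := by gcongr
      _ = (801 / 100) * (r * |p.w1 r|) * |p.g r| ^ 3 := by ring
  -- the near part
  have hnear : ∫ r in (0 : ℝ)..(ep1 / om),
      2 * (p.w r * ((4 + p.a r) * Real.cos (p.f r) * p.g r ^ 3))
      ≤ (801 / 100) * (256 * om ^ 3) * ((6124 / 10000) * (ch * lam))
        + (801 / 100) * (4 * (250 * La) ^ 3) * ch * (ep1 / om) := by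
    have h1 : ∫ r in (0 : ℝ)..(ep1 / om),
        2 * (p.w r * ((4 + p.a r) * Real.cos (p.f r) * p.g r ^ 3))
        ≤ ∫ r in (0 : ℝ)..(ep1 / om),
          ((801 / 100) * (256 * om ^ 3) * (r * (|p.w1 r| * |Real.sin (p.f r) ^ 3|))
            + (801 / 100) * (4 * (250 * La) ^ 3) * ch) := by
      apply intervalIntegral.integral_mono_on hL.le
      · exact hcont.intervalIntegrable _ _
      · exact (by fun_prop : Continuous fun r =>
          ((801 / 100) * (256 * om ^ 3) * (r * (|p.w1 r| * |Real.sin (p.f r) ^ 3|))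
            + (801 / 100) * (4 * (250 * La) ^ 3) * ch)).intervalIntegrable _ _
      · intro r hr
        have hr' : r ∈ Icc 0 R1 := ⟨hr.1, hr.2.trans (by linarith)⟩
        have hr0 : 0 ≤ r := hr.1
        refine (hpt r hr').trans ?_
        have hgn := g_near hs hy hg r hr
        have hcube := StY2_cube (A := 4 * om * |Real.sin (p.f r)|) (B := 250 * La)
          (by positivity) (by positivity) (abs_nonneg (p.g r)) hgn
        have hw : r * |p.w1 r| ≤ ch := by
          have := w_abs hs hy.en r hr'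
          rw [hs.hw1 r, abs_mul, abs_of_nonneg hr0] at this
          exact this
        calc (801 / 100) * (r * |p.w1 r|) * |p.g r| ^ 3
            ≤ (801 / 100) * (r * |p.w1 r|)
              * (4 * (4 * om * |Real.sin (p.f r)|) ^ 3 + 4 * (250 * La) ^ 3) := by gcongr
          _ = (801 / 100) * (256 * om ^ 3) * (r * (|p.w1 r| * |Real.sin (p.f r) ^ 3|))
              + (801 / 100) * (4 * (250 * La) ^ 3) * (r * |p.w1 r|) := by
              rw [abs_pow]
              ring
          _ ≤ (801 / 100) * (256 * om ^ 3) * (r * (|p.w1 r| * |Real.sin (p.f r) ^ 3|))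
              + (801 / 100) * (4 * (250 * La) ^ 3) * ch := by gcongr
    refine h1.trans ?_
    rw [intervalIntegral.integral_add, intervalIntegral.integral_const_mul,
      intervalIntegral.integral_const, sub_zero, smul_eq_mul, mul_comm (ep1 / om)]
    · have := StY2_ws hs hy hg
      gcongr
    · exact (by fun_prop : Continuous fun r => (801 / 100) * (256 * om ^ 3)
        * (r * (|p.w1 r| * |Real.sin (p.f r) ^ 3|))).intervalIntegrable _ _
    · exact (continuous_const).intervalIntegrable _ _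
  -- the far part
  have hfar : ∫ r in (ep1 / om)..R1,
      2 * (p.w r * ((4 + p.a r) * Real.cos (p.f r) * p.g r ^ 3))
      ≤ (801 / 100) * (300 * La) ^ 2 * (ch * eps) := by
    have h1 : ∫ r in (ep1 / om)..R1,
        2 * (p.w r * ((4 + p.a r) * Real.cos (p.f r) * p.g r ^ 3))
        ≤ ∫ r in (ep1 / om)..R1, (801 / 100) * (300 * La) ^ 2 * (r * (|p.w1 r| * |p.g r|)) := by
      apply intervalIntegral.integral_mono_on (by linarith)
      · exact hcont.intervalIntegrable _ _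
      · exact (by fun_prop : Continuous fun r =>
          (801 / 100) * (300 * La) ^ 2 * (r * (|p.w1 r| * |p.g r|))).intervalIntegrable _ _
      · intro r hr
        have hr' : r ∈ Icc 0 R1 := ⟨hL.le.trans hr.1, hr.2⟩
        have hr0 : 0 ≤ r := hr'.1
        refine (hpt r hr').trans ?_
        have hgf := g_far hs hy hg r hr
        calc (801 / 100) * (r * |p.w1 r|) * |p.g r| ^ 3
            = (801 / 100) * (r * |p.w1 r|) * |p.g r| * |p.g r| ^ 2 := by ring
          _ ≤ (801 / 100) * (r * |p.w1 r|) * |p.g r| * (300 * La) ^ 2 := by gcongr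
          _ = (801 / 100) * (300 * La) ^ 2 * (r * (|p.w1 r| * |p.g r|)) := by ring
    refine h1.trans ?_
    rw [intervalIntegral.integral_const_mul]
    have h2 : ∫ r in (ep1 / om)..R1, r * (|p.w1 r| * |p.g r|)
        ≤ ∫ r in (0 : ℝ)..R1, r * (|p.w1 r| * |p.g r|) := by
      apply int_mono_set hL.le (by linarith) le_rfl
      · exact (by fun_prop : Continuous fun r => r * (|p.w1 r| * |p.g r|)).continuousOn
      · intro r hr
        have := hr.1
        positivity
    have h3 := h2.trans (StY2_wg hs hy)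
    gcongr
  have hsplit := intervalIntegral.integral_add_adjacent_intervals
    (hcont.intervalIntegrable (μ := volume) 0 (ep1 / om))
    (hcont.intervalIntegrable (μ := volume) (ep1 / om) R1)
  rw [← hsplit]
  refine (add_le_add hnear hfar).trans ?_
  -- final numerics
  have hLs : La ≤ om / 10 ^ 14 := Lam_small hs hy hg
  have hLl : La ≤ 4 * 10 ^ 7 * om ^ 2 * lam := Lam_le hs hy hg
  have hK : 0 ≤ om ^ 3 * lam := by positivity
  have hL2 : La ^ 2 ≤ 4 / 10 ^ 7 * (om ^ 3 * lam) := by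
    calc La ^ 2 = La * La := by ring
      _ ≤ (om / 10 ^ 14) * (4 * 10 ^ 7 * om ^ 2 * lam) := by gcongr
      _ = 4 / 10 ^ 7 * (om ^ 3 * lam) := by ring
  have hL3 : La ^ 3 * (ep1 / om) ≤ 1 / 10 ^ 20 * (om ^ 3 * lam) := by
    calc La ^ 3 * (ep1 / om) = La ^ 2 * (La * (ep1 / om)) := by ring
      _ ≤ (4 / 10 ^ 7 * (om ^ 3 * lam)) * (om / 10 ^ 14 * (ep1 / om)) := by gcongr
      _ = (om ^ 3 * lam) * (4 / 10 ^ 25) := by
          unfold ep1
          field_simp
      _ ≤ (om ^ 3 * lam) * (1 / 10 ^ 20) := by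
          apply mul_le_mul_of_nonneg_left _ hK
          norm_num
      _ = 1 / 10 ^ 20 * (om ^ 3 * lam) := by ring
  calc (801 / 100) * (256 * om ^ 3) * ((6124 / 10000) * (ch * lam))
        + (801 / 100) * (4 * (250 * La) ^ 3) * ch * (ep1 / om)
        + (801 / 100) * (300 * La) ^ 2 * (ch * eps)
      = ch * (801 / 100 * 256 * (6124 / 10000) * (om ^ 3 * lam)
        + 801 / 100 * 4 * 250 ^ 3 * (La ^ 3 * (ep1 / om)) + 801 / 100 * 300 ^ 2 * eps * La ^ 2) := by
        ring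
    _ ≤ ch * (801 / 100 * 256 * (6124 / 10000) * (om ^ 3 * lam)
        + 801 / 100 * 4 * 250 ^ 3 * (1 / 10 ^ 20 * (om ^ 3 * lam))
        + 801 / 100 * 300 ^ 2 * eps * (4 / 10 ^ 7 * (om ^ 3 * lam))) := by
        have he : (0 : ℝ) ≤ eps := by unfold eps; positivity
        gcongr
    _ = ch * (om ^ 3 * lam) * (801 / 100 * 256 * (6124 / 10000)
        + 801 / 100 * 4 * 250 ^ 3 * (1 / 10 ^ 20) + 801 / 100 * 300 ^ 2 * eps * (4 / 10 ^ 7)) := by
        ring
    _ ≤ ch * (om ^ 3 * lam) * 1270 := by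
        apply mul_le_mul_of_nonneg_left _ (by positivity)
        unfold eps
        norm_num
    _ = 1270 * om ^ 3 * lam * ch := by ring

end H72GS
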