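import Pool.Agent.H72.GS.StFar

/-!
# StY3: the term with `gt`

`I8 = 4 ∫ w μ s g gt`, `gt = wr + (1 - μ c) w1 - y s`, `|w| = r |w1|`.
* `[0,L]`: `4·4.0001·4.01 om ≤ 64.2 om`; `|gt| ≤ |wr| + 5.01 |w1| + |y|`;
  `∫ r |w1|(|wr| + 5.01 |w1|) ≤ 5.51 Xl` (`|w1||wr| ≤ (w1² + wr²)/2`), `64.2·5.51 ≤ 354`;
  `64.2 om ∫ r |w1||y| ≤ 64.2 om (chi/√8) eps`, `eps ≤ 10⁻⁵⁰ om² lam`.
* `[L,R1]`: `16.1·900 eps Lam ∫ r |w1||gt|`,
  `∫ r|w1||gt| ≤ X/5 + 5.01 X/8 + chi eps`.
-/

namespace H72GS

open Set MeasureTheory intervalIntegral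

variable {R1 : ℝ} {p : Pre} {om lam : ℝ}

private theorem StY3_om (hy : Hyp R1 p om) : 0 < om := lt_of_lt_of_le (by positivity) hy.hom

private theorem StY3_mu (hs : IsSlice R1 p) (hy : Hyp R1 p om) {r : ℝ} (hr : r ∈ Icc 0 R1) :
    |4 + p.a r| ≤ 400001 / 100000 := by
  have := abs_le.mp (a_abs hs hy.en r hr)
  rw [abs_le]
  constructor <;> linarith [this.1, this.2]

private theorem StY3_gt (hs : IsSlice R1 p) (hy : Hyp R1 p om) {r : ℝ} (hr : r ∈ Icc 0 R1) :
    |p.gt r| ≤ |p.wr r| + (500001 / 100000) * |p.w1 r| + |p.y r| := by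
  rw [hs.hgt r hr.1]
  have hmu := StY3_mu hs hy hr
  have hcos := Real.abs_cos_le_one (p.f r)
  have hsin := Real.abs_sin_le_one (p.f r)
  have h1 : |1 - (4 + p.a r) * Real.cos (p.f r)| ≤ 500001 / 100000 := by
    have h2 : |(4 + p.a r) * Real.cos (p.f r)| ≤ 400001 / 100000 := by
      rw [abs_mul]
      calc |4 + p.a r| * |Real.cos (p.f r)| ≤ (400001 / 100000) * 1 :=
            mul_le_mul hmu hcos (abs_nonneg _) (by norm_num)
        _ = _ := by ring
    have h3 := abs_sub (1 : ℝ) ((4 + p.a r) * Real.cos (p.f r))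
    rw [abs_one] at h3
    linarith
  have h4 : |(1 - (4 + p.a r) * Real.cos (p.f r)) * p.w1 r| ≤ (500001 / 100000) * |p.w1 r| := by
    rw [abs_mul]
    exact mul_le_mul_of_nonneg_right h1 (abs_nonneg _)
  have h5 : |p.y r * Real.sin (p.f r)| ≤ |p.y r| := by
    rw [abs_mul]
    exact mul_le_of_le_one_right (abs_nonneg _) hsin
  have h6 := abs_sub (p.wr r + (1 - (4 + p.a r) * Real.cos (p.f r)) * p.w1 r)
    (p.y r * Real.sin (p.f r))
  have h7 := abs_add_le (p.wr r) ((1 - (4 + p.a r) * Real.cos (p.f r)) * p.w1 r)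
  linarith

/-- `∫ r |w1||y| ≤ chi eps` -/
private theorem StY3_wy (hs : IsSlice R1 p) (hy : Hyp R1 p om) :
    ∫ r in (0 : ℝ)..R1, r * (|p.w1 r| * |p.y r|) ≤ chi R1 p * eps := by
  have h1 := csr (a := 0) (b := R1) le_rfl hs.R1pos.le hs.cw1.continuousOn hs.cy.continuousOn
  have h2 := (X_parts hs hy.en).2.2
  have h3 := (En_parts hs hy.en).2.2.1
  have hX := X_nonneg hs hy.en
  have he : (0 : ℝ) ≤ eps := by unfold eps; positivity
  refine h1.trans ?_
  have h4 : Real.sqrt (∫ r in (0 : ℝ)..R1, r * p.w1 r ^ 2) ≤ chi R1 p := by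
    unfold chi
    exact Real.sqrt_le_sqrt (h2.trans (by linarith))
  have h5 : Real.sqrt (∫ r in (0 : ℝ)..R1, r * p.y r ^ 2) ≤ eps := by
    rw [← Real.sqrt_sq he]
    exact Real.sqrt_le_sqrt h3
  exact mul_le_mul h4 h5 (Real.sqrt_nonneg _) chi_nonneg

/-- pointwise bound -/
private theorem StY3_pt (hs : IsSlice R1 p) (hy : Hyp R1 p om) {r K : ℝ} (hr : r ∈ Icc 0 R1)
    (hK : |Real.sin (p.f r)| * |p.g r| ≤ K) :
    2 * (p.w r * (2 * (4 + p.a r) * Real.sin (p.f r) * p.g r * p.gt r))
      ≤ (4 * (400001 / 100000) * K) * (r * (|p.w1 r| * |p.wr r|)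
        + (500001 / 100000) * (r * p.w1 r ^ 2) + r * (|p.w1 r| * |p.y r|)) := by
  have hmu := StY3_mu hs hy hr
  have hgt := StY3_gt hs hy hr
  have hr0 : 0 ≤ r := hr.1
  have hK0 : 0 ≤ K := (mul_nonneg (abs_nonneg _) (abs_nonneg _)).trans hK
  calc 2 * (p.w r * (2 * (4 + p.a r) * Real.sin (p.f r) * p.g r * p.gt r))
      ≤ |2 * (p.w r * (2 * (4 + p.a r) * Real.sin (p.f r) * p.g r * p.gt r))| := le_abs_self _
    _ = 4 * |4 + p.a r| * (|Real.sin (p.f r)| * |p.g r|) * (r * |p.w1 r| * |p.gt r|) := by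
        rw [hs.hw1 r]
        simp only [abs_mul, abs_two, abs_of_nonneg hr0]
        ring
    _ ≤ 4 * (400001 / 100000) * K * (r * |p.w1 r|
          * (|p.wr r| + (500001 / 100000) * |p.w1 r| + |p.y r|)) := by
        gcongr
    _ = (4 * (400001 / 100000) * K) * (r * (|p.w1 r| * |p.wr r|)
        + (500001 / 100000) * (r * p.w1 r ^ 2) + r * (|p.w1 r| * |p.y r|)) := by
        rw [← sq_abs (p.w1 r)]
        ring

theorem I8_le (hs : IsSlice R1 p) (hy : Hyp R1 p om) (hg : Geo R1 p om lam) :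
    ∫ r in (0 : ℝ)..R1, 2 * (p.w r * (2 * (4 + p.a r) * Real.sin (p.f r) * p.g r * p.gt r))
      ≤ 354 * om * p.Xl (ep1 / om) + om ^ 3 * lam * chi R1 p / 10 ^ 5 + om * p.X R1 / 10 ^ 5 := by
  have hom := StY3_om hy
  have hlam := hg.lam_pos
  have hR := hs.R1pos
  have hL := L_pos hy
  have hLR := L_le hs hy
  have hLR' : ep1 / om ≤ R1 := by linarith
  have hc := chi_nonneg (R1 := R1) (p := p)
  have hX := X_nonneg hs hy.en
  have he : (0 : ℝ) < eps := by unfold eps; positivity
  have hLam0 : 0 ≤ Lam R1 p om lam := by unfold Lam; positivity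
  have hcf := hs.cf
  have hca := hs.ca
  have hcg := hs.cg
  have hcw := hs.cw
  have hcw1 := hs.cw1
  have hcgt := hs.cgt
  have hcwr := hs.cwr
  have hcwt := hs.cwt
  have hcy := hs.cy
  have hwy := StY3_wy hs hy
  set La := Lam R1 p om lam with hLa
  set ch := chi R1 p with hch
  have hcont : Continuous fun r =>
      2 * (p.w r * (2 * (4 + p.a r) * Real.sin (p.f r) * p.g r * p.gt r)) := by
    fun_prop
  have hiy : Continuous fun r => r * (|p.w1 r| * |p.y r|) := by fun_prop
  have hiwr : Continuous fun r => r * (|p.w1 r| * |p.wr r|) := by fun_prop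
  have hiw : Continuous fun r => r * p.w1 r ^ 2 := by fun_prop
  -- the near part
  have hnear : ∫ r in (0 : ℝ)..(ep1 / om),
      2 * (p.w r * (2 * (4 + p.a r) * Real.sin (p.f r) * p.g r * p.gt r))
      ≤ (4 * (400001 / 100000) * (401 / 100 * om)) * ((550001 / 100000) * p.Xl (ep1 / om)
        + ch * eps) := by
    have h1 : ∫ r in (0 : ℝ)..(ep1 / om),
        2 * (p.w r * (2 * (4 + p.a r) * Real.sin (p.f r) * p.g r * p.gt r))
        ≤ ∫ r in (0 : ℝ)..(ep1 / om), (4 * (400001 / 100000) * (401 / 100 * om))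
          * ((550001 / 100000) * (r * (p.wt r ^ 2 + p.wr r ^ 2 + p.w1 r ^ 2))
            + r * (|p.w1 r| * |p.y r|)) := by
      apply intervalIntegral.integral_mono_on hL.le
      · exact hcont.intervalIntegrable _ _
      · exact (by fun_prop : Continuous fun r => (4 * (400001 / 100000) * (401 / 100 * om))
          * ((550001 / 100000) * (r * (p.wt r ^ 2 + p.wr r ^ 2 + p.w1 r ^ 2))
            + r * (|p.w1 r| * |p.y r|))).intervalIntegrable _ _
      · intro r hr
        have hr' : r ∈ Icc 0 R1 := ⟨hr.1, hr.2.trans hLR'⟩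
        have hr0 : 0 ≤ r := hr.1
        refine (StY3_pt hs hy hr' (sg_near hs hy hg r hr)).trans ?_
        apply mul_le_mul_of_nonneg_left _ (by positivity)
        have h2 : |p.w1 r| * |p.wr r| ≤ (p.w1 r ^ 2 + p.wr r ^ 2) / 2 := by
          rw [← sq_abs (p.w1 r), ← sq_abs (p.wr r)]
          nlinarith [sq_nonneg (|p.w1 r| - |p.wr r|)]
        have h3 : |p.w1 r| * |p.wr r| + (500001 / 100000) * p.w1 r ^ 2
            ≤ (550001 / 100000) * (p.wt r ^ 2 + p.wr r ^ 2 + p.w1 r ^ 2) := by
          nlinarith [sq_nonneg (p.wt r), sq_nonneg (p.wr r), sq_nonneg (p.w1 r)]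
        have h4 := mul_le_mul_of_nonneg_left h3 hr0
        nlinarith
    refine h1.trans ?_
    rw [intervalIntegral.integral_const_mul, intervalIntegral.integral_add,
      intervalIntegral.integral_const_mul]
    · have h5 : ∫ r in (0 : ℝ)..(ep1 / om), r * (|p.w1 r| * |p.y r|)
          ≤ ∫ r in (0 : ℝ)..R1, r * (|p.w1 r| * |p.y r|) := by
        apply int_mono_set le_rfl hL.le hLR'
        · exact hiy.continuousOn
        · intro r hr
          have := hr.1
          positivity
      have h6 := h5.trans hwy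
      apply mul_le_mul_of_nonneg_left _ (by positivity)
      unfold Pre.Xl
      linarith
    · exact (by fun_prop : Continuous fun r => (550001 / 100000 : ℝ)
        * (r * (p.wt r ^ 2 + p.wr r ^ 2 + p.w1 r ^ 2))).intervalIntegrable _ _
    · exact hiy.intervalIntegrable _ _
  -- the far part
  have hfar : ∫ r in (ep1 / om)..R1,
      2 * (p.w r * (2 * (4 + p.a r) * Real.sin (p.f r) * p.g r * p.gt r))
      ≤ (4 * (400001 / 100000) * (900 * eps * La)) * (p.X R1 + ch * eps) := by
    have h1 : ∫ r in (ep1 / om)..R1,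
        2 * (p.w r * (2 * (4 + p.a r) * Real.sin (p.f r) * p.g r * p.gt r))
        ≤ ∫ r in (ep1 / om)..R1, (4 * (400001 / 100000) * (900 * eps * La))
          * (r * (|p.w1 r| * |p.wr r|)
            + (500001 / 100000) * (r * p.w1 r ^ 2) + r * (|p.w1 r| * |p.y r|)) := by
      apply intervalIntegral.integral_mono_on hLR'
      · exact hcont.intervalIntegrable _ _
      · exact (by fun_prop : Continuous fun r => (4 * (400001 / 100000) * (900 * eps * La))
          * (r * (|p.w1 r| * |p.wr r|)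
            + (500001 / 100000) * (r * p.w1 r ^ 2)
            + r * (|p.w1 r| * |p.y r|))).intervalIntegrable _ _
      · intro r hr
        have hr' : r ∈ Icc 0 R1 := ⟨hL.le.trans hr.1, hr.2⟩
        exact StY3_pt hs hy hr' (sg_far hs hy hg r hr)
    refine h1.trans ?_
    rw [intervalIntegral.integral_const_mul]
    apply mul_le_mul_of_nonneg_left _ (by positivity)
    have h2 : ∫ r in (ep1 / om)..R1, (r * (|p.w1 r| * |p.wr r|)
            + (500001 / 100000) * (r * p.w1 r ^ 2) + r * (|p.w1 r| * |p.y r|))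
        ≤ ∫ r in (0 : ℝ)..R1, (r * (|p.w1 r| * |p.wr r|)
            + (500001 / 100000) * (r * p.w1 r ^ 2) + r * (|p.w1 r| * |p.y r|)) := by
      apply int_mono_set hL.le hLR' le_rfl
      · exact ((hiwr.add (continuous_const.mul hiw)).add hiy).continuousOn
      · intro r hr
        have := hr.1
        positivity
    refine h2.trans ?_
    rw [intervalIntegral.integral_add, intervalIntegral.integral_add,
      intervalIntegral.integral_const_mul]
    · have h3 : ∫ r in (0 : ℝ)..R1, r * (|p.w1 r| * |p.wr r|) ≤ p.X R1 / 5 := by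
        have h4 := (X_prods hs hy.en).2.1
        have h5 : (fun r => r * (|p.w1 r| * |p.wr r|)) = fun r => r * (|p.wr r| * |p.w1 r|) := by
          funext r
          ring
        rw [h5]
        exact h4
      have h6 := (X_parts hs hy.en).2.2
      linarith
    · exact hiwr.intervalIntegrable _ _
    · exact (continuous_const.mul hiw).intervalIntegrable _ _
    · exact (hiwr.add (continuous_const.mul hiw)).intervalIntegrable _ _
    · exact hiy.intervalIntegrable _ _
  have hsplit := intervalIntegral.integral_add_adjacent_intervals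
    (hcont.intervalIntegrable (μ := volume) 0 (ep1 / om))
    (hcont.intervalIntegrable (μ := volume) (ep1 / om) R1)
  rw [← hsplit]
  refine (add_le_add hnear hfar).trans ?_
  -- final numerics
  have hLs : La ≤ om / 10 ^ 14 := Lam_small hs hy hg
  have ho2 := om2lam_ge hy hg
  have hXl : 0 ≤ p.Xl (ep1 / om) := by
    unfold Pre.Xl
    apply intervalIntegral.integral_nonneg hL.le
    intro r hr
    have := hr.1
    positivity
  have hA : (4 * (400001 / 100000) * (900 * eps * La)) ≤ om / 10 ^ 6 := by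
    calc (4 * (400001 / 100000) * (900 * eps * La))
        ≤ (4 * (400001 / 100000) * (900 * eps * (om / 10 ^ 14))) := by gcongr
      _ = om * (4 * (400001 / 100000) * 900 * eps / 10 ^ 14) := by ring
      _ ≤ om * (1 / 10 ^ 6) := by
          apply mul_le_mul_of_nonneg_left _ hom.le
          unfold eps
          norm_num
      _ = om / 10 ^ 6 := by ring
  have hB : (4 * (400001 / 100000) * (900 * eps * La)) * (p.X R1 + ch * eps)
      ≤ om / 10 ^ 6 * (p.X R1 + ch * eps) := by
    apply mul_le_mul_of_nonneg_right hA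
    positivity
  have hC : om * (ch * eps) ≤ om ^ 3 * lam * ch / 10 ^ 40 := by
    have h1 : om * (ch * eps) = (om * ch) * eps := by ring
    have h2 : om ^ 3 * lam * ch / 10 ^ 40 = (om * ch) * (om ^ 2 * lam / 10 ^ 40) := by ring
    rw [h1, h2]
    apply mul_le_mul_of_nonneg_left _ (by positivity)
    rw [le_div_iff₀ (by positivity)]
    unfold eps
    linarith
  have hD : 0 ≤ om ^ 3 * lam * ch := by positivity
  have hE : 0 ≤ om * p.Xl (ep1 / om) := by positivity
  have hF : 0 ≤ om * p.X R1 := by positivity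
  nlinarith

end H72GS
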