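import Pool.Agent.H72.GS.StY1
import Pool.Agent.H72.GS.StY2
import Pool.Agent.H72.GS.StY3
import Pool.Agent.H72.GS.StM1
import Pool.Agent.H72.GS.StM2

/-!
# StY: the main differential inequality at a fixed time

`dX + 2 dD` is the sum of `I1,...,I8` (the terms `∓ 2 wt μ s g²` cancel), `dM` the sum of
`M1,...,M6` (`Xl` is the sum of the two local integrals in `M1`, `M2`).  With
`1/(16 ep1) = 625 ≥ 387` the local terms drop.  Finally `om³ lam chi ≤ 4 Gam om⁵ N`
(`lam ≤ 4 √N`, `chi ≤ Gam om² √N`), `X ≤ Gam² om⁴ N`: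
`(1300 + 1.36·10⁶)·4·Gam + 0.09·Gam² ≤ 8.7·10¹³`.
-/

namespace H72GS

open Set MeasureTheory intervalIntegral

variable {R1 : ℝ} {p : Pre} {om lam : ℝ}

theorem StY_om_pos (hy : Hyp R1 p om) : 0 < om := lt_of_lt_of_le (by norm_num) hy.hom

/-- the sum of eight integrals of continuous functions -/
theorem StY_sum8 {F1 F2 F3 F4 F5 F6 F7 F8 : ℝ → ℝ} {a b : ℝ}
    (h1 : Continuous F1) (h2 : Continuous F2) (h3 : Continuous F3) (h4 : Continuous F4)
    (h5 : Continuous F5) (h6 : Continuous F6) (h7 : Continuous F7) (h8 : Continuous F8) :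
    ∫ r in a..b, (F1 r + F2 r + F3 r + F4 r + F5 r + F6 r + F7 r + F8 r)
      = (∫ r in a..b, F1 r) + (∫ r in a..b, F2 r) + (∫ r in a..b, F3 r) + (∫ r in a..b, F4 r)
        + (∫ r in a..b, F5 r) + (∫ r in a..b, F6 r) + (∫ r in a..b, F7 r)
        + (∫ r in a..b, F8 r) := by
  have c2 : Continuous (fun r => F1 r + F2 r) := h1.add h2
  have c3 : Continuous (fun r => F1 r + F2 r + F3 r) := c2.add h3
  have c4 : Continuous (fun r => F1 r + F2 r + F3 r + F4 r) := c3.add h4
  have c5 : Continuous (fun r => F1 r + F2 r + F3 r + F4 r + F5 r) := c4.add h5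
  have c6 : Continuous (fun r => F1 r + F2 r + F3 r + F4 r + F5 r + F6 r) := c5.add h6
  have c7 : Continuous (fun r => F1 r + F2 r + F3 r + F4 r + F5 r + F6 r + F7 r) := c6.add h7
  rw [← intervalIntegral.integral_add (h1.intervalIntegrable a b) (h2.intervalIntegrable a b),
    ← intervalIntegral.integral_add (c2.intervalIntegrable a b) (h3.intervalIntegrable a b),
    ← intervalIntegral.integral_add (c3.intervalIntegrable a b) (h4.intervalIntegrable a b),
    ← intervalIntegral.integral_add (c4.intervalIntegrable a b) (h5.intervalIntegrable a b),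
    ← intervalIntegral.integral_add (c5.intervalIntegrable a b) (h6.intervalIntegrable a b),
    ← intervalIntegral.integral_add (c6.intervalIntegrable a b) (h7.intervalIntegrable a b),
    ← intervalIntegral.integral_add (c7.intervalIntegrable a b) (h8.intervalIntegrable a b)]

/-- the sum of six integrals -/
theorem StY_sum6 {F1 F2 F3 F4 F5 F6 : ℝ → ℝ} {a b : ℝ}
    (h1 : IntervalIntegrable F1 volume a b) (h2 : IntervalIntegrable F2 volume a b)
    (h3 : IntervalIntegrable F3 volume a b) (h4 : IntervalIntegrable F4 volume a b)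
    (h5 : IntervalIntegrable F5 volume a b) (h6 : IntervalIntegrable F6 volume a b) :
    ∫ r in a..b, (F1 r + F2 r + F3 r + F4 r + F5 r + F6 r)
      = (∫ r in a..b, F1 r) + (∫ r in a..b, F2 r) + (∫ r in a..b, F3 r) + (∫ r in a..b, F4 r)
        + (∫ r in a..b, F5 r) + (∫ r in a..b, F6 r) := by
  have c2 := h1.add h2
  have c3 := c2.add h3
  have c4 := c3.add h4
  have c5 := c4.add h5
  rw [← intervalIntegral.integral_add h1 h2,
    ← intervalIntegral.integral_add c2 h3,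
    ← intervalIntegral.integral_add c3 h4,
    ← intervalIntegral.integral_add c4 h5,
    ← intervalIntegral.integral_add c5 h6]

theorem XD_le (hs : IsSlice R1 p) (hy : Hyp R1 p om) (hg : Geo R1 p om lam) :
    p.dX R1 + 2 * p.dD R1 ≤ 387 * om * p.Xl (ep1 / om) + 1300 * om ^ 3 * lam * chi R1 p
      + om * p.X R1 / 100 := by
  have hom := StY_om_pos hy
  have cf := hs.cf
  have ca := hs.ca
  have cg := hs.cg
  have ce := hs.ce
  have cw := hs.cw
  have cy := hs.cy
  have cwt := hs.cwt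
  have cwr := hs.cwr
  have cgt := hs.cgt
  have cw1 := hs.cw1
  have cS : Continuous (fun r => Real.sin (p.f r)) := Real.continuous_sin.comp hs.cf
  have cC : Continuous (fun r => Real.cos (p.f r)) := Real.continuous_cos.comp hs.cf
  have i1 := I1_le hs hy hg
  have i2 := I2_le hs hy hg
  have i3 := I3_le hs hy hg
  have i4 := I4_le hs hy hg
  have i5 := I5_le hs hy hg
  have i6 := I6_le hs hy hg
  have i7 := I7_le hs hy hg
  have i8 := I8_le hs hy hg
  have hsum : p.dX R1 + 2 * p.dD R1 =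
      (∫ r in (0 : ℝ)..R1, 2 * (4 + p.a r) * Real.sin (p.f r) * p.g r * r * p.w1 r ^ 2)
      + (∫ r in (0 : ℝ)..R1, 2 * ((4 + p.a r) - Real.cos (p.f r)) * p.e r * p.w r ^ 2)
      + (∫ r in (0 : ℝ)..R1, r * Real.sin (p.f r) * p.g r * p.w r ^ 2)
      + (∫ r in (0 : ℝ)..R1, 2 * p.wt r * ((4 + p.a r) * Real.sin (p.f r) * p.w r ^ 2))
      + (∫ r in (0 : ℝ)..R1, 2 * p.wt r * (2 * r * Real.cos (p.f r)
          * (p.e r * p.g r - p.w r * p.y r)))
      + (∫ r in (0 : ℝ)..R1, 2 * (p.w r * (r * p.e r * Real.sin (p.f r) * p.g r ^ 2)))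
      + (∫ r in (0 : ℝ)..R1, 2 * (p.w r * ((4 + p.a r) * Real.cos (p.f r) * p.g r ^ 3)))
      + (∫ r in (0 : ℝ)..R1, 2 * (p.w r * (2 * (4 + p.a r) * Real.sin (p.f r) * p.g r
          * p.gt r))) := by
    rw [← StY_sum8 (by fun_prop) (by fun_prop) (by fun_prop) (by fun_prop) (by fun_prop)
      (by fun_prop) (by fun_prop) (by fun_prop)]
    unfold Pre.dX Pre.dD
    rw [← intervalIntegral.integral_const_mul, ← intervalIntegral.integral_add
      (Continuous.intervalIntegrable (by fun_prop) _ _)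
      (Continuous.intervalIntegrable (by fun_prop) _ _)]
    congr 1
    ext r
    ring
  rw [hsum]
  have hc : 0 ≤ om ^ 3 * lam * chi R1 p :=
    mul_nonneg (mul_nonneg (by positivity) hg.lam_pos.le) chi_nonneg
  have hX : 0 ≤ om * p.X R1 := mul_nonneg hom.le (X_nonneg hs hy.en)
  nlinarith

theorem M_le (hs : IsSlice R1 p) (hy : Hyp R1 p om) (hg : Geo R1 p om lam) {L' : ℝ}
    (hL' : |L'| ≤ (102 / 100) * ep1) :
    p.dM R1 (ep1 / om) L' ≤ -(om / (8 * ep1)) * p.Xl (ep1 / om)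
      + 271 * 10 ^ 4 * om ^ 3 * lam * chi R1 p + (153 / 1000) * om * p.X R1 := by
  have hom := StY_om_pos hy
  have hLp := L_pos hy
  have cf := hs.cf
  have ca := hs.ca
  have cg := hs.cg
  have ce := hs.ce
  have cw := hs.cw
  have cy := hs.cy
  have cwt := hs.cwt
  have cwr := hs.cwr
  have cgt := hs.cgt
  have cw1 := hs.cw1
  have cS : Continuous (fun r => Real.sin (p.f r)) := Real.continuous_sin.comp hs.cf
  have cC : Continuous (fun r => Real.cos (p.f r)) := Real.continuous_cos.comp hs.cf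
  have m1 := M1_le hs hy
  have m2 := M2_le hs hy hg
  have m3 := M3_le hs hy hg
  have m4 := M4_le hs hy hg
  have m5 := M5_le hs hy hg
  have m6 := M6_le hs hy hL'
  set L := ep1 / om with hL
  have hR := hs.R1pos
  -- continuity helpers
  have hne : ∀ r ∈ Icc 0 R1, r + L ≠ 0 := by
    intro r hr
    have : 0 < r + L := by linarith [hr.1]
    exact this.ne'
  have hint : ∀ {F : ℝ → ℝ}, ContinuousOn F (Icc 0 R1) → IntervalIntegrable F volume 0 R1 := by
    intro F hF
    apply ContinuousOn.intervalIntegrable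
    rw [uIcc_of_le hR.le]
    exact hF
  have q1 : ContinuousOn (fun r => (r + L)⁻¹) (Icc 0 R1) := by
    apply ContinuousOn.inv₀ (by fun_prop) hne
  have cA : Continuous (fun r => p.A r) := by
    unfold Pre.A
    fun_prop
  have n1 : ContinuousOn (fun r => -(1 / 2) * (r * L / (r + L) ^ 2)
        * (p.wt r ^ 2 + p.wr r ^ 2)) (Icc 0 R1) := by
    have : (fun r => -(1 / 2) * (r * L / (r + L) ^ 2)
        * (p.wt r ^ 2 + p.wr r ^ 2)) = (fun r => -(1 / 2) * (r * L * ((r + L)⁻¹) ^ 2)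
        * (p.wt r ^ 2 + p.wr r ^ 2)) := by
      ext r
      have h : r * L / (r + L) ^ 2 = r * L * ((r + L)⁻¹) ^ 2 := by
        rw [inv_pow, div_eq_mul_inv]
      rw [h]
    rw [this]
    fun_prop
  have n2 : ContinuousOn (fun r => p.m3 L r * p.w1 r ^ 2) (Icc 0 R1) := by
    have : (fun r => p.m3 L r * p.w1 r ^ 2) = (fun r => ((1 / 4) * r ^ 2 * (r - L) *
      ((r + L)⁻¹) ^ 3
    + (1 / 2) * ((2 * ((4 + p.a r) - Real.cos (p.f r)) * r ^ 2 * (p.y r - 1 + Real.cos (p.f r))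
        + 2 * (4 + p.a r) * Real.sin (p.f r) * (r * p.w r - (4 + p.a r) * Real.sin (p.f r))
        - 2 * p.A r
        + r ^ 2 * Real.sin (p.f r) * (r * p.w r - (4 + p.a r) * Real.sin (p.f r)))
          * (r * (r + L)⁻¹)
      + (r * p.A r + r ^ 3 * (1 - Real.cos (p.f r))) * (L * ((r + L)⁻¹) ^ 2))) * p.w1 r ^ 2) := by
      ext r
      unfold Pre.m3
      simp only [div_eq_mul_inv, inv_pow]
    rw [this]
    fun_prop
  have n3 : ContinuousOn (fun r => ((4 + p.a r) * Real.sin (p.f r) * p.w r ^ 2)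
      * (r / (r + L) * p.wr r + p.w r / (2 * (r + L)))) (Icc 0 R1) := by
    have : (fun r => ((4 + p.a r) * Real.sin (p.f r) * p.w r ^ 2)
      * (r / (r + L) * p.wr r + p.w r / (2 * (r + L)))) = (fun r =>
        ((4 + p.a r) * Real.sin (p.f r) * p.w r ^ 2)
      * (r * (r + L)⁻¹ * p.wr r + p.w r * (2⁻¹ * (r + L)⁻¹))) := by
      ext r
      simp only [div_eq_mul_inv, mul_inv]
    rw [this]
    fun_prop
  have n4 : ContinuousOn (fun r => -((4 + p.a r) * Real.sin (p.f r) * p.g r ^ 2)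
      * (r / (r + L) * p.wr r + p.w r / (2 * (r + L)))) (Icc 0 R1) := by
    have : (fun r => -((4 + p.a r) * Real.sin (p.f r) * p.g r ^ 2)
      * (r / (r + L) * p.wr r + p.w r / (2 * (r + L)))) = (fun r =>
        -((4 + p.a r) * Real.sin (p.f r) * p.g r ^ 2)
      * (r * (r + L)⁻¹ * p.wr r + p.w r * (2⁻¹ * (r + L)⁻¹))) := by
      ext r
      simp only [div_eq_mul_inv, mul_inv]
    rw [this]
    fun_prop
  have n5 : ContinuousOn (fun r => (2 * r * Real.cos (p.f r) * (p.e r * p.g r - p.w r * p.y r))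
      * (r / (r + L) * p.wr r + p.w r / (2 * (r + L)))) (Icc 0 R1) := by
    have : (fun r => (2 * r * Real.cos (p.f r) * (p.e r * p.g r - p.w r * p.y r))
      * (r / (r + L) * p.wr r + p.w r / (2 * (r + L)))) = (fun r =>
        (2 * r * Real.cos (p.f r) * (p.e r * p.g r - p.w r * p.y r))
      * (r * (r + L)⁻¹ * p.wr r + p.w r * (2⁻¹ * (r + L)⁻¹))) := by
      ext r
      simp only [div_eq_mul_inv, mul_inv]
    rw [this]
    fun_prop
  have n6 : ContinuousOn (fun r => -(L' * (r / (r + L) ^ 2)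
        * (r * p.wt r * p.wr r + (1 / 2) * p.wt r * p.w r))) (Icc 0 R1) := by
    have : (fun r => -(L' * (r / (r + L) ^ 2)
        * (r * p.wt r * p.wr r + (1 / 2) * p.wt r * p.w r))) = (fun r =>
        -(L' * (r * ((r + L)⁻¹) ^ 2)
        * (r * p.wt r * p.wr r + (1 / 2) * p.wt r * p.w r))) := by
      ext r
      simp only [div_eq_mul_inv, inv_pow]
    rw [this]
    fun_prop
  have hsum : p.dM R1 L L' =
      (∫ r in (0 : ℝ)..R1, -(1 / 2) * (r * L / (r + L) ^ 2) * (p.wt r ^ 2 + p.wr r ^ 2))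
      + (∫ r in (0 : ℝ)..R1, p.m3 L r * p.w1 r ^ 2)
      + (∫ r in (0 : ℝ)..R1, ((4 + p.a r) * Real.sin (p.f r) * p.w r ^ 2)
      * (r / (r + L) * p.wr r + p.w r / (2 * (r + L))))
      + (∫ r in (0 : ℝ)..R1, -((4 + p.a r) * Real.sin (p.f r) * p.g r ^ 2)
      * (r / (r + L) * p.wr r + p.w r / (2 * (r + L))))
      + (∫ r in (0 : ℝ)..R1, (2 * r * Real.cos (p.f r) * (p.e r * p.g r - p.w r * p.y r))
      * (r / (r + L) * p.wr r + p.w r / (2 * (r + L))))
      + (∫ r in (0 : ℝ)..R1, -(L' * (r / (r + L) ^ 2)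
        * (r * p.wt r * p.wr r + (1 / 2) * p.wt r * p.w r))) := by
    rw [← StY_sum6 (hint n1) (hint n2) (hint n3) (hint n4) (hint n5) (hint n6)]
    unfold Pre.dM
    congr 1
    ext r
    ring
  rw [hsum]
  have hXl : p.Xl L = (∫ r in (0 : ℝ)..L, r * (p.wt r ^ 2 + p.wr r ^ 2))
      + (∫ r in (0 : ℝ)..L, r * p.w1 r ^ 2) := by
    unfold Pre.Xl
    rw [← intervalIntegral.integral_add
      (Continuous.intervalIntegrable (by fun_prop) _ _)
      (Continuous.intervalIntegrable (by fun_prop) _ _)]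
    congr 1
    ext r
    ring
  rw [hXl]
  have hc : 0 ≤ om ^ 3 * lam * chi R1 p :=
    mul_nonneg (mul_nonneg (by positivity) hg.lam_pos.le) chi_nonneg
  have hX : 0 ≤ om * p.X R1 := mul_nonneg hom.le (X_nonneg hs hy.en)
  rw [mul_add]
  nlinarith

theorem StY_Xl_nonneg {L : ℝ} (hL : 0 ≤ L) : 0 ≤ p.Xl L := by
  unfold Pre.Xl
  apply intervalIntegral.integral_nonneg hL
  intro r hr
  exact mul_nonneg hr.1 (by positivity)

theorem st_Y (hs : IsSlice R1 p) (hy : Hyp R1 p om) {L' : ℝ} (hL' : |L'| ≤ (102 / 100) * ep1) :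
    p.dX R1 + 2 * p.dD R1 + (1 / 2) * p.dM R1 (ep1 / om) L' ≤
      9 * 10 ^ 13 * om ^ 5 * p.N R1 := by
  obtain ⟨lam, hg⟩ := exists_geo hs hy
  have hom := StY_om_pos hy
  have h1 := XD_le hs hy hg
  have h2 := M_le hs hy hg hL'
  have hXl : 0 ≤ p.Xl (ep1 / om) := StY_Xl_nonneg (L_pos hy).le
  have hep : om / (8 * ep1) = 1250 * om := by
    unfold ep1
    field_simp
    ring
  rw [hep] at h2
  have hX := X_nonneg hs hy.en
  have hN := hy.Npos
  have hlc : lam * chi R1 p ≤ 4 * Gam * om ^ 2 * p.N R1 := by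
    have hG : 0 ≤ Gam := by unfold Gam; positivity
    have hr : 0 ≤ 4 * Gam * om ^ 2 * p.N R1 := by positivity
    apply le_of_sq_le_sq _ hr
    have e1 : (lam * chi R1 p) ^ 2 = lam ^ 2 * p.X R1 := by
      rw [mul_pow, chi_sq hs hy]
    rw [e1]
    have e2 : lam ^ 2 ≤ 16 * p.N R1 := by linarith [hg.N_lo]
    calc lam ^ 2 * p.X R1 ≤ (16 * p.N R1) * (Gam ^ 2 * om ^ 4 * p.N R1) :=
          mul_le_mul e2 hy.hX hX (by positivity)
      _ = (4 * Gam * om ^ 2 * p.N R1) ^ 2 := by ring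
  have h3 : om ^ 3 * lam * chi R1 p ≤ 4 * Gam * (om ^ 5 * p.N R1) := by
    calc om ^ 3 * lam * chi R1 p = om ^ 3 * (lam * chi R1 p) := by ring
      _ ≤ om ^ 3 * (4 * Gam * om ^ 2 * p.N R1) := mul_le_mul_of_nonneg_left hlc (by positivity)
      _ = 4 * Gam * (om ^ 5 * p.N R1) := by ring
  have h4 : om * p.X R1 ≤ Gam ^ 2 * (om ^ 5 * p.N R1) := by
    calc om * p.X R1 ≤ om * (Gam ^ 2 * om ^ 4 * p.N R1) := mul_le_mul_of_nonneg_left hy.hX hom.le
      _ = _ := by ring
  have h5 : 0 ≤ om * p.Xl (ep1 / om) := mul_nonneg hom.le hXl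
  have h6 : 0 ≤ om ^ 5 * p.N R1 := by positivity
  have hGam : Gam = 13 * 10 ^ 6 := rfl
  rw [hGam] at h3 h4
  nlinarith

end H72GS
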