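import Pool.Agent.H72.GS.Boot
import Pool.Agent.H72.GS.Slice
import Pool.Agent.H72.GS.DerX
import Pool.Agent.H72.GS.DerD
import Pool.Agent.H72.GS.DerM
import Pool.Agent.H72.GS.DerN
import Pool.Agent.H72.GS.StY
import Pool.Agent.H72.GS.StDM
import Pool.Agent.H72.GS.StOde

/-!
# Core: no equivariant solution with concentrated collapsing data lives until `1.1/om0`

`om t = -P/(4N)` (`N > 0` by `exists_lam`, `N_lo`), `Y = X + 2 D + (1/2) M(ep1/om)`.
Apply `boot`; `hst` from `hasDerivAt_*`, `st_N, st_om, st_Ey, st_Y, st_DM`;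
`om' = -(dP N - P dN)/(4 N²) = -(dP + 4 om dN)/(4N)`, `L' = -ep1 om'/om²`.
-/

namespace H72GS

open Set MeasureTheory intervalIntegral

theorem core {T R0 : ℝ} (R : Rad T R0) {om0 : ℝ} (h1 : R0 + T ≤ 1 / 1000)
    (h2 : 1 / 10 ^ 50 ≤ R0 + T) (hE : (R.pre 0).En (R0 + T) ≤ eps ^ 2)
    (hP : (R.pre 0).P (R0 + T) = -4 * om0 * (R.pre 0).N (R0 + T))
    (i1 : 10 ^ 60 < om0) (i2 : 1 < om0 ^ 3 * (R.pre 0).N (R0 + T))
    (i3 : (R.pre 0).Ey (R0 + T) < om0)
    (i4 : (R.pre 0).X (R0 + T) < Gam ^ 2 * om0 ^ 4 * (R.pre 0).N (R0 + T))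
    (i5 : (R.pre 0).X (R0 + T) + 2 * (R.pre 0).D (R0 + T)
      + (1 / 2) * (R.pre 0).M (R0 + T) (ep1 / om0) < Gam1 ^ 2 * om0 ^ 4 * (R.pre 0).N (R0 + T))
    (hlong : 11 / 10 ≤ T * om0) : False := by
  have hT := R.hT
  have h00 : (0 : ℝ) ∈ Icc 0 T := ⟨le_refl _, hT.le⟩
  set R1 := R0 + T with hR1
  -- slices
  have hs : ∀ t ∈ Icc 0 T, IsSlice R1 (R.pre t) := fun t ht => R.isSlice h1 h2 ht
  have hEt : ∀ t ∈ Icc 0 T, (R.pre t).En R1 ≤ eps ^ 2 := fun t ht => by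
    rw [hR1, R.En_const ht]; exact hE
  have hNpos : ∀ t ∈ Icc 0 T, 0 < (R.pre t).N R1 := by
    intro t ht
    obtain ⟨lam, l0, l1, lf⟩ := exists_lam (hs t ht)
    have := N_lo (hs t ht) (hEt t ht) l0 l1 lf
    have h3 : 0 < lam ^ 2 / 16 := by positivity
    linarith
  set N : ℝ → ℝ := fun t => (R.pre t).N R1 with hN
  set P : ℝ → ℝ := fun t => (R.pre t).P R1 with hPdef
  set om : ℝ → ℝ := fun t => -P t / (4 * N t) with hom
  have hPN : ∀ t ∈ Icc 0 T, P t = -4 * om t * N t := by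
    intro t ht
    have := (hNpos t ht).ne'
    have h3 : N t ≠ 0 := this
    simp only [hom]
    field_simp
  have dN : ∀ t ∈ Icc 0 T, HasDerivAt N ((R.pre t).dN R1) t := fun t ht => R.hasDerivAt_N ht
  have dP : ∀ t ∈ Icc 0 T, HasDerivAt P ((R.pre t).dP R1) t := fun t ht => R.hasDerivAt_P ht
  have dom : ∀ t ∈ Icc 0 T, HasDerivAt om
      (-((R.pre t).dP R1 + 4 * om t * (R.pre t).dN R1) / (4 * N t)) t := by
    intro t ht
    have h3 : N t ≠ 0 := (hNpos t ht).ne'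
    have h4 : (4 * N t) ≠ 0 := by positivity
    have h5 := (dP t ht).neg.div ((dN t ht).const_mul 4) h4
    refine h5.congr_deriv ?_
    have h6 := hPN t ht
    rw [Pi.neg_apply, h6]
    field_simp
    ring
  have hom0 : om 0 = om0 := by
    have h3 : N 0 ≠ 0 := (hNpos 0 h00).ne'
    have h4 : P 0 = -4 * om0 * N 0 := hP
    simp only [hom]
    rw [h4]
    field_simp
  set X : ℝ → ℝ := fun t => (R.pre t).X R1 with hX
  set Ey : ℝ → ℝ := fun t => (R.pre t).Ey R1 with hEy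
  set Y : ℝ → ℝ := fun t => (R.pre t).X R1 + 2 * (R.pre t).D R1
      + (1 / 2) * (R.pre t).M R1 (ep1 / om t) with hY
  have dX : ∀ t ∈ Icc 0 T, HasDerivAt X ((R.pre t).dX R1) t := fun t ht => R.hasDerivAt_X ht
  have dEy : ∀ t ∈ Icc 0 T, HasDerivAt Ey ((R.pre t).dEy R1) t := fun t ht => R.hasDerivAt_Ey ht
  have ep1pos : (0 : ℝ) < ep1 := by unfold ep1; norm_num
  refine boot (T := T) hT (N := N) (om := om) (X := X) (Y := Y) (Ey := Ey)
    (fun t ht => (dN t ht).continuousAt.continuousWithinAt)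
    (fun t ht => (dom t ht).continuousAt.continuousWithinAt)
    (fun t ht => (dX t ht).continuousAt.continuousWithinAt)
    (fun t ht => (dEy t ht).continuousAt.continuousWithinAt)
    hNpos ?_ (by rw [hom0]; exact i1) (by rw [hom0]; exact i2) (by rw [hom0]; exact i3)
    (by rw [hom0]; exact i4) (by rw [hom0]; simp only [hY, hom0]; exact i5)
    (by rw [hom0]; exact hlong)
  intro t ht a1 a2 a3 a4
  have hy : Hyp R1 (R.pre t) (om t) :=
    ⟨hEt t ht, hNpos t ht, hPN t ht, a1, a2, a3, a4⟩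
  have hs' := hs t ht
  have hompos : 0 < om t := lt_of_lt_of_le (by norm_num) a1
  have q1 := st_om hs' hy
  refine ⟨⟨_, dN t ht, st_N hs' hy⟩, ⟨_, dom t ht, q1⟩, ⟨_, dEy t ht, st_Ey hs' hy⟩, ?_, ?_⟩
  · set om' := -((R.pre t).dP R1 + 4 * om t * (R.pre t).dN R1) / (4 * N t) with hom'
    have dL : HasDerivAt (fun τ => ep1 / om τ) (-(ep1 * om') / om t ^ 2) t := by
      have h5 := (hasDerivAt_const t ep1).div (dom t ht) hompos.ne'
      refine h5.congr_deriv ?_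
      ring
    have hL0 : 0 < ep1 / om t := div_pos ep1pos hompos
    have hL' : |-(ep1 * om') / om t ^ 2| ≤ (102 / 100) * ep1 := by
      have h6 : |om' - om t ^ 2| ≤ om t ^ 2 / 100 := q1
      have h7 := abs_le.1 h6
      have h8 : 0 < om t ^ 2 := by positivity
      rw [abs_div, abs_of_pos h8, div_le_iff₀ h8, abs_neg, abs_mul, abs_of_pos ep1pos]
      have h9 : |om'| ≤ (102 / 100) * om t ^ 2 := by
        rw [abs_le]; constructor <;> linarith
      calc ep1 * |om'| ≤ ep1 * ((102 / 100) * om t ^ 2) :=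
            mul_le_mul_of_nonneg_left h9 ep1pos.le
        _ = 102 / 100 * ep1 * om t ^ 2 := by ring
    refine ⟨(R.pre t).dX R1 + 2 * (R.pre t).dD R1
      + (1 / 2) * (R.pre t).dM R1 (ep1 / om t) (-(ep1 * om') / om t ^ 2), ?_, st_Y hs' hy hL'⟩
    exact ((dX t ht).add ((R.hasDerivAt_D ht).const_mul 2)).add
      ((R.hasDerivAt_M ht dL hL0).const_mul (1 / 2))
  · have q2 := abs_le.1 (st_DM hs' hy)
    simp only [hX, hY, hN]
    linarith [q2.1]

end H72GS
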