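import Pool.Agent.H72.GS.DataDef

/-!
# DataA: the cut-off, smoothness, constraints, symmetries of the initial configuration

`ρ = x² + y²`, `kap ρ = 1` for `ρ ≤ R00²/2`, `0` for `ρ ≥ R00²`, `den = ρ⁴ + kap² ell² > 0`.
`(Re z⁴)² + (Im z⁴)² = ρ⁴`.  Gauss: all `F = 0`, `φ₀ (D_0φ)₁ - φ₁ (D_0φ)₀ = 0`.
-/

namespace H72GS

open Set
open scoped ContDiff

noncomputable section

theorem kap_smooth : ContDiff ℝ ∞ kap := by
  unfold kap
  have h : ContDiff ℝ ∞ (fun ρ : ℝ => 2 - 2 * ρ / R00 ^ 2) := by fun_prop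
  exact Real.smoothTransition.contDiff.comp h

theorem DataA_R00_pos : 0 < R00 ^ 2 := by
  unfold R00
  norm_num

theorem kap_one {ρ : ℝ} (h : ρ ≤ R00 ^ 2 / 2) : kap ρ = 1 := by
  unfold kap
  apply Real.smoothTransition.one_of_one_le
  have h1 : 2 * ρ / R00 ^ 2 ≤ 1 := by
    rw [div_le_one DataA_R00_pos]
    linarith
  linarith

theorem kap_zero {ρ : ℝ} (h : R00 ^ 2 ≤ ρ) : kap ρ = 0 := by
  unfold kap
  apply Real.smoothTransition.zero_of_nonpos
  have h1 : 2 ≤ 2 * ρ / R00 ^ 2 := by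
    rw [le_div_iff₀ DataA_R00_pos]
    linarith
  linarith

theorem kap_nonneg (ρ : ℝ) : 0 ≤ kap ρ := Real.smoothTransition.nonneg _

theorem kap_le_one (ρ : ℝ) : kap ρ ≤ 1 := Real.smoothTransition.le_one _

theorem den_pos {ell : ℝ} (hl : 0 < ell) {ρ : ℝ} (hρ : 0 ≤ ρ) : 0 < den ell ρ := by
  unfold den
  rcases hρ.eq_or_lt with h | h
  · rw [← h, kap_one (by have := DataA_R00_pos; positivity)]
    positivity
  · have h1 : 0 < ρ ^ 4 := by positivity
    have h2 : 0 ≤ kap ρ ^ 2 * ell ^ 2 := by positivity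
    linarith

variable {om0 ell : ℝ}

theorem dphi_smooth (hl : 0 < ell) (i : Fin 3) :
    ContDiff ℝ ∞ (fun z : ℝ × ℝ => dphi ell z.1 z.2 i) := by
  have h1 : ContDiff ℝ ∞ (fun z : ℝ × ℝ => z.1 ^ 2 + z.2 ^ 2) := by fun_prop
  have h2 : ContDiff ℝ ∞ (fun z : ℝ × ℝ => kap (z.1 ^ 2 + z.2 ^ 2)) := kap_smooth.comp h1
  have h3 : ContDiff ℝ ∞ (fun z : ℝ × ℝ => den ell (z.1 ^ 2 + z.2 ^ 2)) := by
    unfold den
    exact (h1.pow 4).add ((h2.pow 2).mul contDiff_const)
  have h4 : ∀ z : ℝ × ℝ, den ell (z.1 ^ 2 + z.2 ^ 2) ≠ 0 := fun z =>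
    (den_pos hl (by positivity)).ne'
  have h5 : ContDiff ℝ ∞ (fun z : ℝ × ℝ => z.1 ^ 4 - 6 * z.1 ^ 2 * z.2 ^ 2 + z.2 ^ 4) := by
    fun_prop
  have h6 : ContDiff ℝ ∞ (fun z : ℝ × ℝ => 4 * z.1 ^ 3 * z.2 - 4 * z.1 * z.2 ^ 3) := by
    fun_prop
  fin_cases i
  · exact (((contDiff_const.mul h2).mul contDiff_const).mul h5).div h3 h4
  · exact (((contDiff_const.mul h2).mul contDiff_const).mul h6).div h3 h4
  · exact ((h1.pow 4).sub ((h2.pow 2).mul contDiff_const)).div h3 h4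

theorem dat_smooth (hl : 0 < ell) : (dat om0 ell).Smooth := by
  have h0 := dphi_smooth hl 0
  have h1 := dphi_smooth hl 1
  have h2 := dphi_smooth hl 2
  refine ⟨fun i => dphi_smooth hl i, fun i => ?_, fun μ => ?_, fun μ => ?_⟩
  · fin_cases i
    · exact contDiff_const.mul (h2.mul h0)
    · exact contDiff_const.mul (h2.mul h1)
    · exact contDiff_const.mul ((h0.pow 2).add (h1.pow 2))
  · exact contDiff_const
  · exact contDiff_const

theorem DataA_norm (hl : 0 < ell) (x y : ℝ) :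
    dphi ell x y 0 ^ 2 + dphi ell x y 1 ^ 2 + dphi ell x y 2 ^ 2 = 1 := by
  have h : den ell (x ^ 2 + y ^ 2) ≠ 0 := (den_pos hl (by positivity)).ne'
  simp only [dphi, Matrix.cons_val_zero, Matrix.cons_val_one, Matrix.cons_val]
  field_simp
  unfold den
  ring

theorem dat_onSphere (hl : 0 < ell) : (dat om0 ell).OnSphere := by
  intro x y
  have h := DataA_norm hl x y
  constructor
  · show dphi ell x y ⬝ᵥ dphi ell x y = 1
    simp only [dotProduct, Fin.sum_univ_three]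
    linarith
  · show dphi ell x y ⬝ᵥ ![-4 * om0 * (dphi ell x y 2 * dphi ell x y 0),
      -4 * om0 * (dphi ell x y 2 * dphi ell x y 1),
      4 * om0 * (dphi ell x y 0 ^ 2 + dphi ell x y 1 ^ 2)] = 0
    simp only [dotProduct, Fin.sum_univ_three, Matrix.cons_val_zero, Matrix.cons_val_one,
      Matrix.cons_val]
    ring

theorem DataA_line {u v : ℝ × ℝ → ℝ} (hu : ContDiff ℝ ∞ u) (hv : ContDiff ℝ ∞ v) (x y : ℝ) :
    pd 0 (fun q : Pt => u (q 1, q 2) + q 0 * v (q 1, q 2)) (pt0 x y) = v (x, y) := by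
  have hpr : ContDiff ℝ ∞ (fun q : Pt => ((q 1, q 2) : ℝ × ℝ)) := by fun_prop
  have h3 : ContDiff ℝ ∞ (fun q : Pt => q 0) := by fun_prop
  have hd : DifferentiableAt ℝ (fun q : Pt => u (q 1, q 2) + q 0 * v (q 1, q 2)) (pt0 x y) :=
    ((hu.comp hpr).add (h3.mul (hv.comp hpr))).differentiable (by simp) _
  unfold pd
  rw [← hd.lineDeriv_eq_fderiv]
  have h4 : HasDerivAt (fun t : ℝ => u (x, y) + t * v (x, y)) (v (x, y)) 0 := by
    have := ((hasDerivAt_id (0 : ℝ)).mul_const (v (x, y))).const_add (u (x, y))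
    simpa using this
  have h5 : (fun t : ℝ => (fun q : Pt => u (q 1, q 2) + q 0 * v (q 1, q 2))
      (pt0 x y + t • Pi.single 0 1)) = fun t : ℝ => u (x, y) + t * v (x, y) := by
    funext t
    simp [pt0]
  unfold lineDeriv
  rw [h5]
  exact h4.deriv

/-- the time derivative of the auxiliary configuration -/
theorem DataA_pd0 (hl : 0 < ell) (i : Fin 3) (x y : ℝ) :
    pd 0 (fun q => (dat om0 ell).toConfig.φ q i) (pt0 x y) = (dat om0 ell).φ1 x y i :=
  DataA_line ((dat_smooth (om0 := om0) hl).φ0 i) ((dat_smooth (om0 := om0) hl).φ1 i) x y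

theorem dat_gauss (hl : 0 < ell) : (dat om0 ell).Gauss := by
  intro x y
  have hA : ∀ μ, (dat om0 ell).toConfig.A μ = fun _ => 0 := by
    intro μ
    funext p
    simp [InitData.toConfig, dat]
  have hpd : ∀ (ν : Fin 3), pd ν (fun _ : Pt => (0 : ℝ)) = fun _ => 0 := by
    intro ν
    funext p
    simp [pd]
  have hF : ∀ μ ν, (dat om0 ell).toConfig.F μ ν = fun _ => 0 := by
    intro μ ν
    funext p
    simp [Config.F, hA, hpd]
  have hD : ∀ i, (dat om0 ell).toConfig.D 0 (dat om0 ell).toConfig.φ (pt0 x y) i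
      = (dat om0 ell).φ1 x y i := by
    intro i
    simp only [Config.D, hA, zero_mul, add_zero]
    exact DataA_pd0 hl i x y
  have hφ : ∀ i, (dat om0 ell).toConfig.φ (pt0 x y) i = dphi ell x y i := by
    intro i
    simp [InitData.toConfig, dat, pt0]
  have hL : ∑ ν, sg ν * pd ν ((dat om0 ell).toConfig.F 0 ν) (pt0 x y) = 0 := by
    simp [hF, hpd]
  rw [hL]
  simp only [crossProduct, nn, dotProduct, Fin.sum_univ_three, LinearMap.mk₂_apply,
    Matrix.cons_val_zero, Matrix.cons_val_one, Matrix.cons_val, hD, hφ]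
  show _ = 0 * _ + 0 * _ + 1 * (dphi ell x y 0 * (-4 * om0 * (dphi ell x y 2 * dphi ell x y 1))
    - dphi ell x y 1 * (-4 * om0 * (dphi ell x y 2 * dphi ell x y 0)))
  ring

theorem DataA_cos4 (β : ℝ) : Real.cos (4 * β) =
    Real.cos β ^ 4 - 6 * Real.cos β ^ 2 * Real.sin β ^ 2 + Real.sin β ^ 4 := by
  have h1 : 4 * β = 2 * (2 * β) := by ring
  rw [h1, Real.cos_two_mul', Real.cos_two_mul', Real.sin_two_mul]
  ring

theorem DataA_sin4 (β : ℝ) : Real.sin (4 * β) =
    4 * Real.cos β ^ 3 * Real.sin β - 4 * Real.cos β * Real.sin β ^ 3 := by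
  have h1 : 4 * β = 2 * (2 * β) := by ring
  rw [h1, Real.sin_two_mul, Real.cos_two_mul', Real.sin_two_mul]
  ring

/-- rotation equivariance of the initial map -/
theorem dphi_rot (hl : 0 < ell) (β x y : ℝ) :
    dphi ell (Real.cos β * x + Real.sin β * y) (-Real.sin β * x + Real.cos β * y) =
      ![Real.cos (4 * β) * dphi ell x y 0 + Real.sin (4 * β) * dphi ell x y 1,
        -Real.sin (4 * β) * dphi ell x y 0 + Real.cos (4 * β) * dphi ell x y 1,
        dphi ell x y 2] := by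
  have h1 : (Real.cos β * x + Real.sin β * y) ^ 2 + (-Real.sin β * x + Real.cos β * y) ^ 2
      = x ^ 2 + y ^ 2 := by
    have := Real.sin_sq_add_cos_sq β
    linear_combination (x ^ 2 + y ^ 2) * this
  have hden : den ell (x ^ 2 + y ^ 2) ≠ 0 := (den_pos hl (by positivity)).ne'
  funext i
  fin_cases i
  · simp only [dphi, h1, DataA_cos4, DataA_sin4, Fin.zero_eta, Matrix.cons_val_zero,
      Matrix.cons_val_one, Matrix.cons_val]
    field_simp
    ring
  · simp only [dphi, h1, DataA_cos4, DataA_sin4, Fin.mk_one, Matrix.cons_val_zero,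
      Matrix.cons_val_one, Matrix.cons_val]
    field_simp
    ring
  · simp only [dphi, h1, Fin.reduceFinMk, Matrix.cons_val_zero,
      Matrix.cons_val_one, Matrix.cons_val]

/-- reflection -/
theorem dphi_refl (ell x y : ℝ) :
    dphi ell x (-y) = ![dphi ell x y 0, -dphi ell x y 1, dphi ell x y 2] := by
  have h1 : x ^ 2 + (-y) ^ 2 = x ^ 2 + y ^ 2 := by ring
  funext i
  fin_cases i
  · simp only [dphi, h1, Fin.zero_eta, Matrix.cons_val_zero,
      Matrix.cons_val_one, Matrix.cons_val]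
    congr 1
    ring
  · simp only [dphi, h1, Fin.mk_one, Matrix.cons_val_zero,
      Matrix.cons_val_one, Matrix.cons_val]
    rw [← neg_div]
    congr 1
    ring
  · simp only [dphi, h1, Fin.reduceFinMk, Matrix.cons_val_zero,
      Matrix.cons_val_one, Matrix.cons_val]

end

end H72GS
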