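import Pool.Agent.H72.GS.DataA

/-!
# DataB: finite energy and boundary condition of the initial configuration

Energy density: for the configuration `(dat om0 ell).toConfig` at the points `(0,x,y)`: a continuous
function of `(x,y)` (everything is smooth), zero for `ρ = x² + y² > R00²` (there `φ0 = n`, `φ1 = 0`
locally, vanishing gauge field), so continuous with compact support, hence integrable.
Boundary: `dphi ell x y 2 = 1` for `ρ ≥ R00²`.
-/

namespace H72GS

open Set MeasureTheory Filter Topology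
open scoped ContDiff Matrix

private lemma DataB_out {z : ℝ × ℝ} (hz : z ∉ Metric.closedBall (0 : ℝ × ℝ) R00) :
    R00 ^ 2 < z.1 ^ 2 + z.2 ^ 2 := by
  have hR : (0 : ℝ) < R00 := by unfold R00; norm_num
  rw [mem_closedBall_zero_iff, not_le, Prod.norm_def, lt_max_iff, Real.norm_eq_abs,
    Real.norm_eq_abs] at hz
  rcases hz with h | h
  · have := pow_lt_pow_left₀ h hR.le (two_ne_zero)
    rw [sq_abs] at this
    nlinarith [sq_nonneg z.2]
  · have := pow_lt_pow_left₀ h hR.le (two_ne_zero)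
    rw [sq_abs] at this
    nlinarith [sq_nonneg z.1]

private lemma DataB_dphi {ell : ℝ} {x y : ℝ} (h : R00 ^ 2 < x ^ 2 + y ^ 2) :
    dphi ell x y = ![0, 0, 1] := by
  have hk : kap (x ^ 2 + y ^ 2) = 0 := kap_zero h.le
  have hpos : 0 < x ^ 2 + y ^ 2 := lt_of_le_of_lt (sq_nonneg _) h
  have hne : (x ^ 2 + y ^ 2) ^ 4 ≠ 0 := (pow_pos hpos 4).ne'
  unfold dphi den
  rw [hk]
  ext i
  fin_cases i
  · simp
  · simp
  · simp [div_self hne]

private lemma DataB_nn (V : Fin 3 → ℝ) : nn ⬝ᵥ V = V 2 := by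
  simp [nn, dotProduct, Fin.sum_univ_three]

private lemma DataB_A (om0 ell : ℝ) (μ : Fin 3) : (dat om0 ell).toConfig.A μ = fun _ => 0 := by
  funext p
  simp [InitData.toConfig, dat]

private lemma DataB_F (om0 ell : ℝ) (μ ν : Fin 3) (p : Pt) :
    (dat om0 ell).toConfig.F μ ν p = 0 := by
  unfold Config.F pd
  rw [DataB_A, DataB_A]
  simp

private lemma DataB_D (om0 ell : ℝ) (μ i : Fin 3) (p : Pt) :
    (dat om0 ell).toConfig.D μ (dat om0 ell).toConfig.φ p i =
      pd μ (fun q => (dat om0 ell).toConfig.φ q i) p := by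
  unfold Config.D
  rw [DataB_A]
  simp

private lemma DataB_smooth {om0 ell : ℝ} (hl : 0 < ell) (i : Fin 3) :
    ContDiff ℝ ∞ (fun q : Pt => (dat om0 ell).toConfig.φ q i) := by
  have h := dat_smooth (om0 := om0) hl
  have e : ContDiff ℝ ∞ (fun q : Pt => (q 1, q 2)) :=
    (contDiff_apply ℝ ℝ (1 : Fin 3)).prodMk (contDiff_apply ℝ ℝ (2 : Fin 3))
  have h0 := (h.φ0 i).comp e
  have h1 := (h.φ1 i).comp e
  exact h0.add ((contDiff_apply ℝ ℝ (0 : Fin 3)).mul h1)

private lemma DataB_pd_cont {u : Pt → ℝ} (hu : ContDiff ℝ ∞ u) (μ : Fin 3) :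
    Continuous (pd μ u) :=
  (hu.continuous_fderiv (by simp)).clm_apply continuous_const

private lemma DataB_phi_out {om0 ell : ℝ} {p : Pt} (h : R00 ^ 2 < p 1 ^ 2 + p 2 ^ 2) :
    (dat om0 ell).toConfig.φ p = ![0, 0, 1] := by
  have h1 : dphi ell (p 1) (p 2) = ![0, 0, 1] := DataB_dphi h
  ext i
  simp only [InitData.toConfig, dat, h1]
  fin_cases i <;> simp

private lemma DataB_pd_out {om0 ell : ℝ} {p : Pt} (h : R00 ^ 2 < p 1 ^ 2 + p 2 ^ 2)
    (μ i : Fin 3) : pd μ (fun q => (dat om0 ell).toConfig.φ q i) p = 0 := by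
  have hopen : IsOpen {q : Pt | R00 ^ 2 < q 1 ^ 2 + q 2 ^ 2} :=
    isOpen_lt continuous_const (by fun_prop)
  have hev : (fun q : Pt => (dat om0 ell).toConfig.φ q i) =ᶠ[𝓝 p]
      fun _ => (![0, 0, 1] : Fin 3 → ℝ) i := by
    filter_upwards [hopen.mem_nhds h] with q hq
    rw [DataB_phi_out hq]
  unfold pd
  rw [hev.fderiv_eq]
  simp

private lemma DataB_ed (om0 ell : ℝ) (p : Pt) :
    (dat om0 ell).toConfig.energyDensity p = (1 / 2) *
      ((∑ μ : Fin 3, ∑ i : Fin 3, pd μ (fun q => (dat om0 ell).toConfig.φ q i) p *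
        pd μ (fun q => (dat om0 ell).toConfig.φ q i) p) +
        (1 - (dat om0 ell).toConfig.φ p 2) ^ 2) := by
  unfold Config.energyDensity
  rw [DataB_F, DataB_F, DataB_F, DataB_nn]
  simp only [dotProduct, DataB_D]
  ring

theorem dat_energy {om0 ell : ℝ} (hl : 0 < ell) : (dat om0 ell).FiniteEnergy := by
  unfold InitData.FiniteEnergy
  have hpt : Continuous (fun z : ℝ × ℝ => pt0 z.1 z.2) := by
    unfold pt0
    refine continuous_pi (fun i => ?_)
    fin_cases i
    · exact continuous_const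
    · exact continuous_fst
    · exact continuous_snd
  have hcont : Continuous (fun z : ℝ × ℝ => (dat om0 ell).toConfig.energyDensity (pt0 z.1 z.2)) := by
    have h1 : Continuous (fun p : Pt => (dat om0 ell).toConfig.energyDensity p) := by
      simp_rw [DataB_ed]
      refine continuous_const.mul (Continuous.add ?_ ?_)
      · refine continuous_finsetSum _ (fun μ _ => continuous_finsetSum _ (fun i _ => ?_))
        exact (DataB_pd_cont (DataB_smooth hl i) μ).mul (DataB_pd_cont (DataB_smooth hl i) μ)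
      · exact (continuous_const.sub (DataB_smooth hl 2).continuous).pow 2
    exact h1.comp hpt
  refine hcont.integrable_of_hasCompactSupport ?_
  refine HasCompactSupport.intro (isCompact_closedBall (0 : ℝ × ℝ) R00) (fun z hz => ?_)
  have hz' : R00 ^ 2 < (pt0 z.1 z.2) 1 ^ 2 + (pt0 z.1 z.2) 2 ^ 2 := by
    have := DataB_out hz
    simpa [pt0] using this
  rw [DataB_ed]
  simp only [DataB_pd_out hz', DataB_phi_out hz']
  simp

theorem dat_boundary {om0 ell : ℝ} (hl : 0 < ell) : (dat om0 ell).Boundary := by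
  unfold InitData.Boundary
  refine tendsto_const_nhds.congr' ?_
  have hmem : (Metric.closedBall (0 : ℝ × ℝ) R00)ᶜ ∈ cocompact (ℝ × ℝ) :=
    (isCompact_closedBall (0 : ℝ × ℝ) R00).compl_mem_cocompact
  filter_upwards [hmem] with z hz
  rw [DataB_nn]
  simp only [dat, DataB_dphi (DataB_out hz)]
  simp

end H72GS
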