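import Pool.Agent.H72.GS.Defs

/-! # DataDef: the initial configuration, definitions -/

namespace H72GS

noncomputable section

/-- radius of the support -/
def R00 : ℝ := 1 / 2000

/-- cut-off as a function of `ρ = |x|²` -/
def kap (ρ : ℝ) : ℝ := Real.smoothTransition (2 - 2 * ρ / R00 ^ 2)

/-- denominator -/
def den (ell ρ : ℝ) : ℝ := ρ ^ 4 + kap ρ ^ 2 * ell ^ 2

/-- the initial map -/
def dphi (ell x y : ℝ) : Fin 3 → ℝ :=
  ![2 * kap (x ^ 2 + y ^ 2) * ell * (x ^ 4 - 6 * x ^ 2 * y ^ 2 + y ^ 4) / den ell (x ^ 2 + y ^ 2),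
    2 * kap (x ^ 2 + y ^ 2) * ell * (4 * x ^ 3 * y - 4 * x * y ^ 3) / den ell (x ^ 2 + y ^ 2),
    ((x ^ 2 + y ^ 2) ^ 4 - kap (x ^ 2 + y ^ 2) ^ 2 * ell ^ 2) / den ell (x ^ 2 + y ^ 2)]

/-- the initial datum -/
def dat (om0 ell : ℝ) : InitData where
  φ0 := dphi ell
  φ1 := fun x y => ![-4 * om0 * (dphi ell x y 2 * dphi ell x y 0),
    -4 * om0 * (dphi ell x y 2 * dphi ell x y 1),
    4 * om0 * (dphi ell x y 0 ^ 2 + dphi ell x y 1 ^ 2)]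
  a0 := fun _ _ _ => 0
  a1 := fun _ _ _ => 0

end

end H72GS
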