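import Pool.Agent.H72.GS.Kin

/-!
# Dyn: dynamic identities on `[0,T]`

* `gt_eq` is `eqf` rewritten: `w_r + (1 - μ c) w1 - y s`; for `r > 0` insert
  `f_r = w - μ s / r`, `r w_r = ...`, then `eq_of_pos`.
* `et_eq` is `eqa` rewritten: `y_r - s w`.
* `wtt_eq`: `w_tt = (g_t)_r + (μ c)_t g1 + μ c Q(g_t) + e_t s + e c g` (time derivative of `wt_eq`),
  insert `gt_eq`, `et_eq` (as functions of `r ≥ 0`; differentiate in `r` for `r > 0`), multiply by `r`.
  `A = 1 + μ² - 2 μ c`.  Checked numerically.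
* `ytt_eq` similarly from `yt_eq`.
-/

namespace H72GS

open Set MeasureTheory intervalIntegral

namespace Rad

variable {T R0 : ℝ} (R : Rad T R0)

/-- derivative in `r` of the identity `r f_r = r w - μ s` -/
private theorem Dyn_wr (t r : ℝ) : R.w t r + r * dr R.w t r =
    dr R.f t r + r * dr (dr R.f) t r + r * (R.y t r - 1 + R.c t r) * R.s t r
      + R.mu t r * (R.c t r * dr R.f t r) := by
  have h1 : HasDerivAt (fun x => x * dr R.f t x) (1 * dr R.f t r + r * dr (dr R.f) t r) r :=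
    (hasDerivAt_id r).mul (R.sf.dr.hasDerivAt_r t r)
  have h2 : HasDerivAt (fun x => x * R.w t x - R.mu t x * R.s t x)
      ((1 * R.w t r + r * dr R.w t r) - (dr R.mu t r * R.s t r + R.mu t r * dr R.s t r)) r :=
    ((hasDerivAt_id r).mul (R.w_sm.hasDerivAt_r t r)).sub
      ((R.mu_sm.hasDerivAt_r t r).mul (R.s_sm.hasDerivAt_r t r))
  have h3 : (fun x => x * dr R.f t x) = fun x => x * R.w t x - R.mu t x * R.s t x := by
    funext x; exact R.fr_eq t x
  rw [h3] at h1
  have h4 := h1.unique h2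
  rw [R.dr_mu, R.dr_s] at h4
  linarith

/-- derivative in `r` of `r y = al + r al_r + r (1 - c)` -/
private theorem Dyn_yr (t r : ℝ) : R.y t r + r * dr R.y t r =
    2 * dr R.al t r + r * dr (dr R.al) t r + (1 - R.c t r) + r * (R.s t r * dr R.f t r) := by
  have h1 : HasDerivAt (fun x => x * R.y t x) (1 * R.y t r + r * dr R.y t r) r :=
    (hasDerivAt_id r).mul (R.y_sm.hasDerivAt_r t r)
  have h2 : HasDerivAt (fun x => R.al t x + x * dr R.al t x + x * (1 - R.c t x))
      (dr R.al t r + (1 * dr R.al t r + r * dr (dr R.al) t r)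
        + (1 * (1 - R.c t r) + r * (0 - dr R.c t r))) r :=
    ((R.sal.hasDerivAt_r t r).add ((hasDerivAt_id r).mul (R.sal.dr.hasDerivAt_r t r))).add
      ((hasDerivAt_id r).mul ((hasDerivAt_const r 1).sub (R.c_sm.hasDerivAt_r t r)))
  have h3 : (fun x => x * R.y t x) = fun x => R.al t x + x * dr R.al t x + x * (1 - R.c t x) := by
    funext x
    have := R.r_al1 t x
    show x * (R.al1 t x + dr R.al t x + 1 - R.c t x) = _
    linear_combination this
  rw [h3] at h1
  have h4 := h1.unique h2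
  rw [R.dr_c] at h4
  linear_combination h4

private theorem Dyn_gt_pos {t : ℝ} (ht : t ∈ Icc 0 T) {r : ℝ} (hr : 0 < r) : dt R.g t r =
    dr R.w t r + (1 - R.mu t r * R.c t r) * R.w1 t r - R.y t r * R.s t r := by
  have h1 := R.eqf t ht r hr
  have h2 := R.Dyn_wr t r
  have h3 := R.fr_eq t r
  have h4 := R.r_w1 t r
  have h5 : r ^ 2 * dt R.g t r = r ^ 2 * (dr R.w t r + (1 - R.mu t r * R.c t r) * R.w1 t r
      - R.y t r * R.s t r) := by
    change r ^ 2 * dt R.g t r = r ^ 2 * dr (dr R.f) t r + r * dr R.f t r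
      - (R.mu t r) ^ 2 * R.s t r * R.c t r - r ^ 2 * (1 - R.c t r) * R.s t r at h1
    linear_combination h1 - r * h2 - (R.mu t r * R.c t r) * h3 - r * (1 - R.mu t r * R.c t r) * h4
  exact mul_left_cancel₀ (pow_ne_zero 2 hr.ne') h5

theorem gt_eq {t : ℝ} (ht : t ∈ Icc 0 T) {r : ℝ} (hr : 0 ≤ r) : dt R.g t r =
    dr R.w t r + (1 - R.mu t r * R.c t r) * R.w1 t r - R.y t r * R.s t r := by
  refine eq_of_pos (f := fun r => dt R.g t r) (g := fun r => dr R.w t r
    + (1 - R.mu t r * R.c t r) * R.w1 t r - R.y t r * R.s t r) (R.g_sm.dt.cont_r t) ?_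
    (fun x hx => R.Dyn_gt_pos ht hx) r hr
  exact ((R.w_sm.dr.cont_r t).add ((continuous_const.sub ((R.mu_sm.cont_r t).mul
    (R.c_sm.cont_r t))).mul (R.w1_sm.cont_r t))).sub ((R.y_sm.cont_r t).mul (R.s_sm.cont_r t))

private theorem Dyn_et_pos {t : ℝ} (ht : t ∈ Icc 0 T) {r : ℝ} (hr : 0 < r) :
    dt R.e t r = dr R.y t r - R.s t r * R.w t r := by
  have h1 := R.eqa t ht r hr
  have h2 := R.Dyn_yr t r
  have h3 := R.fr_eq t r
  have h4 := R.r_al1 t r
  have h5 : r ^ 2 * dt R.e t r = r ^ 2 * (dr R.y t r - R.s t r * R.w t r) := by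
    change r ^ 2 * dt R.e t r = r ^ 2 * dr (dr R.al) t r + r * dr R.al t r
      - R.al t r - r * (R.mu t r) * R.s t r ^ 2 at h1
    have h6 : r * R.y t r = R.al t r + r * dr R.al t r + r * (1 - R.c t r) := by
      show r * (R.al1 t r + dr R.al t r + 1 - R.c t r) = _
      linear_combination h4
    linear_combination h1 - r * h2 + h6 - r * R.s t r * h3
  exact mul_left_cancel₀ (pow_ne_zero 2 hr.ne') h5

theorem et_eq {t : ℝ} (ht : t ∈ Icc 0 T) {r : ℝ} (hr : 0 ≤ r) :
    dt R.e t r = dr R.y t r - R.s t r * R.w t r := by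
  refine eq_of_pos (f := fun r => dt R.e t r) (g := fun r => dr R.y t r - R.s t r * R.w t r)
    (R.e_sm.dt.cont_r t) ?_ (fun x hx => R.Dyn_et_pos ht hx) r hr
  exact (R.y_sm.dr.cont_r t).sub ((R.s_sm.cont_r t).mul (R.w_sm.cont_r t))

/-- derivative in `r` of `gt_eq` -/
private theorem Dyn_gtr {t : ℝ} (ht : t ∈ Icc 0 T) {r : ℝ} (hr : 0 < r) :
    dr (dt R.g) t r = dr (dr R.w) t r
      + ((0 - (dr R.mu t r * R.c t r + R.mu t r * dr R.c t r)) * R.w1 t r
        + (1 - R.mu t r * R.c t r) * dr R.w1 t r)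
      - (dr R.y t r * R.s t r + R.y t r * dr R.s t r) := by
  have h1 := R.g_sm.dt.hasDerivAt_r t r
  have h2 : HasDerivAt (fun r => dr R.w t r + (1 - R.mu t r * R.c t r) * R.w1 t r
      - R.y t r * R.s t r) (dr (dr R.w) t r
      + ((0 - (dr R.mu t r * R.c t r + R.mu t r * dr R.c t r)) * R.w1 t r
        + (1 - R.mu t r * R.c t r) * dr R.w1 t r)
      - (dr R.y t r * R.s t r + R.y t r * dr R.s t r)) r :=
    ((R.w_sm.dr.hasDerivAt_r t r).add (((hasDerivAt_const r 1).sub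
      ((R.mu_sm.hasDerivAt_r t r).mul (R.c_sm.hasDerivAt_r t r))).mul
        (R.w1_sm.hasDerivAt_r t r))).sub ((R.y_sm.hasDerivAt_r t r).mul (R.s_sm.hasDerivAt_r t r))
  refine h1.unique (h2.congr_of_eventuallyEq ?_)
  filter_upwards [lt_mem_nhds hr] with x hx
  exact R.gt_eq ht hx.le

/-- derivative in `r` of `et_eq` -/
private theorem Dyn_etr {t : ℝ} (ht : t ∈ Icc 0 T) {r : ℝ} (hr : 0 < r) :
    dr (dt R.e) t r = dr (dr R.y) t r
      - (dr R.s t r * R.w t r + R.s t r * dr R.w t r) := by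
  have h1 := R.e_sm.dt.hasDerivAt_r t r
  have h2 : HasDerivAt (fun r => dr R.y t r - R.s t r * R.w t r) (dr (dr R.y) t r
      - (dr R.s t r * R.w t r + R.s t r * dr R.w t r)) r :=
    (R.y_sm.dr.hasDerivAt_r t r).sub ((R.s_sm.hasDerivAt_r t r).mul (R.w_sm.hasDerivAt_r t r))
  refine h1.unique (h2.congr_of_eventuallyEq ?_)
  filter_upwards [lt_mem_nhds hr] with x hx
  exact R.et_eq ht hx.le

private theorem Dyn_dt_g1 (t r : ℝ) : r * dt R.g1 t r = dt R.g t r := by
  have h1 : HasDerivAt (fun x => r * R.g1 x r) (r * dt R.g1 t r) t :=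
    (R.g1_sm.hasDerivAt_t t r).const_mul r
  have h2 := R.g_sm.hasDerivAt_t t r
  have h3 : (fun x => r * R.g1 x r) = fun x => R.g x r := by
    funext x; exact R.r_g1 x r
  rw [h3] at h1
  exact h1.unique h2

private theorem Dyn_dt_e1 (t r : ℝ) : r * dt R.e1 t r = dt R.e t r := by
  have h1 : HasDerivAt (fun x => r * R.e1 x r) (r * dt R.e1 t r) t :=
    (R.e1_sm.hasDerivAt_t t r).const_mul r
  have h2 := R.e_sm.hasDerivAt_t t r
  have h3 : (fun x => r * R.e1 x r) = fun x => R.e x r := by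
    funext x; exact R.r_e1 x r
  rw [h3] at h1
  exact h1.unique h2

private theorem Dyn_dr_w1 (t r : ℝ) : R.w1 t r + r * dr R.w1 t r = dr R.w t r := by
  have h1 : HasDerivAt (fun x => x * R.w1 t x) (1 * R.w1 t r + r * dr R.w1 t r) r :=
    (hasDerivAt_id r).mul (R.w1_sm.hasDerivAt_r t r)
  have h2 := R.w_sm.hasDerivAt_r t r
  have h3 : (fun x => x * R.w1 t x) = fun x => R.w t x := by
    funext x; exact R.r_w1 t x
  rw [h3] at h1
  have := h1.unique h2
  linarith

theorem wtt_eq {t : ℝ} (ht : t ∈ Icc 0 T) {r : ℝ} (hr : 0 < r) :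
    r * dt (dt R.w) t r = dr R.w t r + r * dr (dr R.w) t r
      - ((1 + R.mu t r ^ 2 - 2 * R.mu t r * R.c t r) + r ^ 2 * (1 - R.c t r)) * R.w1 t r
      + R.mu t r * R.s t r * (R.w t r ^ 2 - R.g t r ^ 2)
      + 2 * r * R.c t r * (R.e t r * R.g t r - R.w t r * R.y t r) := by
  have h1 := R.w_sm.dt.hasDerivAt_t t r
  have h2 : HasDerivAt (fun x => dr R.g x r + R.mu x r * R.c x r * R.g1 x r + R.e x r * R.s x r)
      (dt (dr R.g) t r + ((dt R.mu t r * R.c t r + R.mu t r * dt R.c t r) * R.g1 t r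
        + R.mu t r * R.c t r * dt R.g1 t r) + (dt R.e t r * R.s t r + R.e t r * dt R.s t r)) t :=
    ((R.g_sm.dr.hasDerivAt_t t r).add ((((R.mu_sm.hasDerivAt_t t r).mul
      (R.c_sm.hasDerivAt_t t r))).mul (R.g1_sm.hasDerivAt_t t r))).add
      ((R.e_sm.hasDerivAt_t t r).mul (R.s_sm.hasDerivAt_t t r))
  have h3 : (fun x => dt R.w x r) =
      fun x => dr R.g x r + R.mu x r * R.c x r * R.g1 x r + R.e x r * R.s x r := by
    funext x; exact R.wt_eq x r
  rw [h3] at h1
  have h4 := h1.unique h2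
  rw [R.g_sm.comm, R.dt_mu, R.dt_c, R.dt_s, R.Dyn_gtr ht hr, R.dr_mu, R.dr_c, R.dr_s] at h4
  have h5 := R.Dyn_dt_g1 t r
  have h6 := R.gt_eq ht hr.le
  have h7 := R.et_eq ht hr.le
  have h8 := R.Dyn_dr_w1 t r
  have h9 := R.fr_eq t r
  have h10 := R.r_w1 t r
  have h11 := R.r_g1 t r
  have h12 : R.s t r ^ 2 + R.c t r ^ 2 = 1 := Real.sin_sq_add_cos_sq _
  generalize dt (dt R.w) t r = wtt at *
  generalize dr R.w t r = wr at *
  generalize dr (dr R.w) t r = wrr at *
  generalize R.mu t r = mu at *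
  generalize R.c t r = c at *
  generalize R.s t r = s at *
  generalize R.w1 t r = w1 at *
  generalize R.w t r = w at *
  generalize R.g1 t r = g1 at *
  generalize R.g t r = g at *
  generalize R.e t r = e at *
  generalize R.y t r = y at *
  generalize dr R.y t r = yr at *
  generalize dr R.f t r = fr at *
  generalize dt R.g1 t r = g1t at *
  generalize dt R.g t r = gt at *
  generalize dt R.e t r = et at *
  generalize dr R.w1 t r = w1r at *
  subst h6 h7
  linear_combination r * h4 + mu * c * h5 + (1 - mu * c) * h8 + (r * e * c - mu * s * g) * h11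
    + (-r * (y - 1 + c) * c + mu * s * w + r * (1 - c)) * h10 + (mu * s * w1 - y * c) * h9
    - (r * w + mu ^ 2 * w1) * h12

theorem ytt_eq {t : ℝ} (ht : t ∈ Icc 0 T) {r : ℝ} (hr : 0 < r) :
    r * dt (dt R.y) t r = dr R.y t r + r * dr (dr R.y) t r - r * R.s t r ^ 2 * R.y t r
      + r * R.c t r * (R.g t r ^ 2 - R.w t r ^ 2) := by
  have h1 := R.y_sm.dt.hasDerivAt_t t r
  have h2 : HasDerivAt (fun x => R.e1 x r + dr R.e x r + R.g x r * R.s x r)
      (dt R.e1 t r + dt (dr R.e) t r + (dt R.g t r * R.s t r + R.g t r * dt R.s t r)) t :=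
    ((R.e1_sm.hasDerivAt_t t r).add (R.e_sm.dr.hasDerivAt_t t r)).add
      ((R.g_sm.hasDerivAt_t t r).mul (R.s_sm.hasDerivAt_t t r))
  have h3 : (fun x => dt R.y x r) = fun x => R.e1 x r + dr R.e x r + R.g x r * R.s x r := by
    funext x; exact R.yt_eq x r
  rw [h3] at h1
  have h4 := h1.unique h2
  rw [R.e_sm.comm, R.dt_s, R.Dyn_etr ht hr, R.dr_s] at h4
  have h5 := R.Dyn_dt_e1 t r
  have h6 := R.gt_eq ht hr.le
  have h7 := R.et_eq ht hr.le
  have h9 := R.fr_eq t r
  have h10 := R.r_w1 t r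
  linear_combination r * h4 + h5 + r * R.s t r * h6 + h7 - R.c t r * R.w t r * h9
    + R.s t r * (1 - R.mu t r * R.c t r) * h10

end Rad

end H72GS
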