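import Pool.Agent.H72.GS.FOdef

/-!
# FOa: evolution equations of the first order variables (temporal gauge)

From `φ × W = 0`, `|φ| = 1` one gets `W = (φ·W) φ`, `W = φ_tt - D_1D_1φ - D_2D_2φ - (1-φ₂) n`;
differentiating `|φ|² = 1` (on the open slab) and `φ · D_i φ = 0`: `φ·φ_tt = -|φ_t|²`,
`φ·D_iD_iφ = -|D_iφ|²`.  `D_iD_iφ = ∂_i²φ + 2 A_i n×∂_iφ + (∂_iA_i) n×φ + A_i² n×(n×φ)`.
First for `p ∈ slab 0 b`, then `eq_hslab` (all terms are continuous).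
Maxwell: `μ=0`: `-∂_1E_1 - ∂_2E_2 = J_0`; `μ=1`: `-∂_tE_1 - ∂_2B = J_1`;
`μ=2`: `-∂_tE_2 + ∂_1B = J_2`.
-/

namespace H72GS

open Set
open scoped ContDiff

variable {c : Config} {b : ℝ}

theorem FOa_slab_open (b : ℝ) : IsOpen (slab 0 b) := by
  have h : Continuous fun p : Pt => p 0 := continuous_apply 0
  exact (isOpen_lt continuous_const h).inter (isOpen_lt h continuous_const)

theorem FOa_pd_zero {u : Pt → ℝ} {k : ℝ} (h : ∀ q ∈ slab 0 b, u q = k) (μ : Fin 3) {p : Pt}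
    (hp : p ∈ slab 0 b) : pd μ u p = 0 := by
  have h1 : u =ᶠ[nhds p] fun _ => k := by
    filter_upwards [(FOa_slab_open b).mem_nhds hp] with q hq
    exact h q hq
  unfold pd
  rw [h1.fderiv_eq]
  simp

theorem FOa_pd_neg {u : Pt → ℝ} (μ : Fin 3) (p : Pt) :
    pd μ (fun q => -u q) p = -pd μ u p := by
  unfold pd
  rw [fderiv_fun_neg]
  simp

theorem FOa_pd_const (k : ℝ) (μ : Fin 3) (p : Pt) : pd μ (fun _ => k) p = 0 := by
  unfold pd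
  simp

theorem FOa_A0 (hc : c.Temporal b) : c.A 0 = fun _ => 0 := funext hc.A0

/-- sphere constraint -/
theorem FOa_sphere (hc : c.Temporal b) {p : Pt} (hp : p ∈ slab 0 b) :
    c.φ p 0 ^ 2 + c.φ p 1 ^ 2 + c.φ p 2 ^ 2 = 1 := ((solvesAt_iff c p).mp (hc.sol p hp)).1

theorem FOa_d1 (hc : c.Temporal b) (μ : Fin 3) (p : Pt) :
    pd μ (fun q => c.φ q 0 * c.φ q 0 + c.φ q 1 * c.φ q 1 + c.φ q 2 * c.φ q 2) p =
      2 * (c.φ p 0 * pd μ (fun q => c.φ q 0) p + c.φ p 1 * pd μ (fun q => c.φ q 1) p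
        + c.φ p 2 * pd μ (fun q => c.φ q 2) p) := by
  rw [pd_add (((hc.hφ 0).mul (hc.hφ 0)).add ((hc.hφ 1).mul (hc.hφ 1)))
    ((hc.hφ 2).mul (hc.hφ 2)), pd_add ((hc.hφ 0).mul (hc.hφ 0)) ((hc.hφ 1).mul (hc.hφ 1)),
    pd_mul (hc.hφ 0) (hc.hφ 0), pd_mul (hc.hφ 1) (hc.hφ 1), pd_mul (hc.hφ 2) (hc.hφ 2)]
  ring

theorem FOa_orth (hc : c.Temporal b) (μ : Fin 3) {p : Pt} (hp : p ∈ slab 0 b) :
    c.φ p 0 * pd μ (fun q => c.φ q 0) p + c.φ p 1 * pd μ (fun q => c.φ q 1) p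
        + c.φ p 2 * pd μ (fun q => c.φ q 2) p = 0 := by
  have h1 := FOa_d1 hc μ p
  have h2 : pd μ (fun q => c.φ q 0 * c.φ q 0 + c.φ q 1 * c.φ q 1 + c.φ q 2 * c.φ q 2) p = 0 :=
    FOa_pd_zero (k := 1) (fun q hq => by linarith [FOa_sphere hc hq]) μ hp
  linarith

theorem FOa_orth2 (hc : c.Temporal b) (μ : Fin 3) {p : Pt} (hp : p ∈ slab 0 b) :
    c.φ p 0 * pd μ (pd μ (fun q => c.φ q 0)) p + c.φ p 1 * pd μ (pd μ (fun q => c.φ q 1)) p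
        + c.φ p 2 * pd μ (pd μ (fun q => c.φ q 2)) p =
      -(pd μ (fun q => c.φ q 0) p ^ 2 + pd μ (fun q => c.φ q 1) p ^ 2
        + pd μ (fun q => c.φ q 2) p ^ 2) := by
  have h2 : pd μ (fun p => c.φ p 0 * pd μ (fun q => c.φ q 0) p
      + c.φ p 1 * pd μ (fun q => c.φ q 1) p + c.φ p 2 * pd μ (fun q => c.φ q 2) p) p = 0 :=
    FOa_pd_zero (k := 0) (fun q hq => FOa_orth hc μ hq) μ hp
  have s0 := pd_smooth (hc.hφ 0) μ
  have s1 := pd_smooth (hc.hφ 1) μ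
  have s2 := pd_smooth (hc.hφ 2) μ
  rw [pd_add (((hc.hφ 0).mul s0).add ((hc.hφ 1).mul s1)) ((hc.hφ 2).mul s2),
    pd_add ((hc.hφ 0).mul s0) ((hc.hφ 1).mul s1),
    pd_mul (hc.hφ 0) s0, pd_mul (hc.hφ 1) s1, pd_mul (hc.hφ 2) s2] at h2
  linarith

theorem FOa_UU_cont (hc : c.Temporal b) : Continuous (UU c) := by
  have a : ∀ i, Continuous (fun p => c.φ p i) := fun i => (hc.hφ i).continuous
  have d : ∀ μ i, Continuous (pd μ (fun p => c.φ p i)) := fun μ i =>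
    (pd_smooth (hc.hφ i) μ).continuous
  have e : ∀ μ, Continuous (c.A μ) := fun μ => (hc.hA μ).continuous
  have g : ∀ μ ν, Continuous (pd μ (c.A ν)) := fun μ ν => (pd_smooth (hc.hA ν) μ).continuous
  refine continuous_pi fun j => ?_
  fin_cases j
  exacts [a 0, a 1, a 2, d 0 0, d 0 1, d 0 2, d 1 0, d 1 1, d 1 2, d 2 0, d 2 1, d 2 2,
    e 1, e 2, g 0 1, g 0 2, (g 1 2).sub (g 2 1), (g 1 1).add (g 2 2)]

theorem FOa_Kf_cont (i : Fin 3) : Continuous (Kf i) := by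
  fin_cases i
  · show Continuous fun u : Fin 18 → ℝ =>
      -2 * u 12 * u 7 - 2 * u 13 * u 10 - u 17 * u 1 - (u 12 ^ 2 + u 13 ^ 2) * u 0 + alf u * u 0
    unfold alf
    fun_prop
  · show Continuous fun u : Fin 18 → ℝ =>
      2 * u 12 * u 6 + 2 * u 13 * u 9 + u 17 * u 0 - (u 12 ^ 2 + u 13 ^ 2) * u 1 + alf u * u 1
    unfold alf
    fun_prop
  · show Continuous fun u : Fin 18 → ℝ => (1 - u 2) + alf u * u 2
    unfold alf
    fun_prop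

theorem FOa_Jf_cont (i : Fin 3) : Continuous (Jf i) := by
  fin_cases i
  · show Continuous fun u : Fin 18 → ℝ => u 0 * u 4 - u 1 * u 3
    fun_prop
  · show Continuous fun u : Fin 18 → ℝ => u 0 * u 7 - u 1 * u 6 + u 12 * (u 0 ^ 2 + u 1 ^ 2)
    fun_prop
  · show Continuous fun u : Fin 18 → ℝ => u 0 * u 10 - u 1 * u 9 + u 13 * (u 0 ^ 2 + u 1 ^ 2)
    fun_prop

/-- the multiplier in the original variables -/
theorem FOa_alf (p : Pt) : alf (UU c p) =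
    -(pd 0 (fun q => c.φ q 0) p ^ 2 + pd 0 (fun q => c.φ q 1) p ^ 2
      + pd 0 (fun q => c.φ q 2) p ^ 2)
    + ((pd 1 (fun q => c.φ q 0) p - c.A 1 p * c.φ p 1) ^ 2
      + (pd 1 (fun q => c.φ q 1) p + c.A 1 p * c.φ p 0) ^ 2 + pd 1 (fun q => c.φ q 2) p ^ 2)
    + ((pd 2 (fun q => c.φ q 0) p - c.A 2 p * c.φ p 1) ^ 2
      + (pd 2 (fun q => c.φ q 1) p + c.A 2 p * c.φ p 0) ^ 2 + pd 2 (fun q => c.φ q 2) p ^ 2)
    - (1 - c.φ p 2) * c.φ p 2 := rfl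

/-- the three components of the equation for `φ` in the open slab -/
theorem FOa_open (hc : c.Temporal b) {p : Pt} (hp : p ∈ slab 0 b) (i : Fin 3) :
    pd 0 (pd 0 (fun q => c.φ q i)) p = pd 1 (pd 1 (fun q => c.φ q i)) p
      + pd 2 (pd 2 (fun q => c.φ q i)) p + Kf i (UU c p) := by
  obtain ⟨hs, ⟨e0, e1, e2⟩, -⟩ := (solvesAt_iff c p).mp (hc.sol p hp)
  have o0 := FOa_orth2 hc 0 hp
  have o1 := FOa_orth2 hc 1 hp
  have o2 := FOa_orth2 hc 2 hp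
  have hA0 := FOa_A0 hc
  have hAA : pd 0 (c.A 0) p = 0 := by
    rw [hA0]
    exact FOa_pd_const 0 0 p
  have hAp : c.A 0 p = 0 := hc.A0 p
  have w0 : Wf c p 0 = pd 0 (pd 0 (fun q => c.φ q 0)) p
      - (pd 1 (pd 1 (fun q => c.φ q 0)) p - 2 * c.A 1 p * pd 1 (fun q => c.φ q 1) p
        - pd 1 (c.A 1) p * c.φ p 1 - c.A 1 p ^ 2 * c.φ p 0)
      - (pd 2 (pd 2 (fun q => c.φ q 0)) p - 2 * c.A 2 p * pd 2 (fun q => c.φ q 1) p
        - pd 2 (c.A 2) p * c.φ p 1 - c.A 2 p ^ 2 * c.φ p 0) := by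
    unfold Wf
    rw [DD_zero hc.hφ hc.hA, DD_zero hc.hφ hc.hA, DD_zero hc.hφ hc.hA, hAA, hAp,
      if_neg (by decide)]
    ring
  have w1 : Wf c p 1 = pd 0 (pd 0 (fun q => c.φ q 1)) p
      - (pd 1 (pd 1 (fun q => c.φ q 1)) p + 2 * c.A 1 p * pd 1 (fun q => c.φ q 0) p
        + pd 1 (c.A 1) p * c.φ p 0 - c.A 1 p ^ 2 * c.φ p 1)
      - (pd 2 (pd 2 (fun q => c.φ q 1)) p + 2 * c.A 2 p * pd 2 (fun q => c.φ q 0) p
        + pd 2 (c.A 2) p * c.φ p 0 - c.A 2 p ^ 2 * c.φ p 1) := by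
    unfold Wf
    rw [DD_one hc.hφ hc.hA, DD_one hc.hφ hc.hA, DD_one hc.hφ hc.hA, hAA, hAp,
      if_neg (by decide)]
    ring
  have w2 : Wf c p 2 = pd 0 (pd 0 (fun q => c.φ q 2)) p - pd 1 (pd 1 (fun q => c.φ q 2)) p
      - pd 2 (pd 2 (fun q => c.φ q 2)) p - (1 - c.φ p 2) := by
    unfold Wf
    rw [DD_two, DD_two, DD_two, if_pos rfl]
  have hal := FOa_alf (c := c) p
  -- φ · W = α
  have hW : c.φ p 0 * Wf c p 0 + c.φ p 1 * Wf c p 1 + c.φ p 2 * Wf c p 2 = alf (UU c p) := by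
    rw [hal, w0, w1, w2]
    linear_combination o0 - o1 - o2
  have W0 : Wf c p 0 = alf (UU c p) * c.φ p 0 := by
    rw [← hW]
    linear_combination (-Wf c p 0) * hs - c.φ p 1 * e2 + c.φ p 2 * e1
  have W1 : Wf c p 1 = alf (UU c p) * c.φ p 1 := by
    rw [← hW]
    linear_combination (-Wf c p 1) * hs + c.φ p 0 * e2 - c.φ p 2 * e0
  have W2 : Wf c p 2 = alf (UU c p) * c.φ p 2 := by
    rw [← hW]
    linear_combination (-Wf c p 2) * hs - c.φ p 0 * e1 + c.φ p 1 * e0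
  fin_cases i
  · show pd 0 (pd 0 (fun q => c.φ q 0)) p = pd 1 (pd 1 (fun q => c.φ q 0)) p
      + pd 2 (pd 2 (fun q => c.φ q 0)) p + (-2 * c.A 1 p * pd 1 (fun q => c.φ q 1) p
        - 2 * c.A 2 p * pd 2 (fun q => c.φ q 1) p - (pd 1 (c.A 1) p + pd 2 (c.A 2) p) * c.φ p 1
        - (c.A 1 p ^ 2 + c.A 2 p ^ 2) * c.φ p 0 + alf (UU c p) * c.φ p 0)
    rw [w0] at W0
    linear_combination W0
  · show pd 0 (pd 0 (fun q => c.φ q 1)) p = pd 1 (pd 1 (fun q => c.φ q 1)) p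
      + pd 2 (pd 2 (fun q => c.φ q 1)) p + (2 * c.A 1 p * pd 1 (fun q => c.φ q 0) p
        + 2 * c.A 2 p * pd 2 (fun q => c.φ q 0) p + (pd 1 (c.A 1) p + pd 2 (c.A 2) p) * c.φ p 0
        - (c.A 1 p ^ 2 + c.A 2 p ^ 2) * c.φ p 1 + alf (UU c p) * c.φ p 1)
    rw [w1] at W1
    linear_combination W1
  · show pd 0 (pd 0 (fun q => c.φ q 2)) p = pd 1 (pd 1 (fun q => c.φ q 2)) p
      + pd 2 (pd 2 (fun q => c.φ q 2)) p + ((1 - c.φ p 2) + alf (UU c p) * c.φ p 2)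
    rw [w2] at W2
    linear_combination W2

theorem phi_tt (hc : c.Temporal b) {p : Pt} (hp : p ∈ hslab b) (i : Fin 3) :
    pd 0 (pd 0 (fun q => c.φ q i)) p = pd 1 (pd 1 (fun q => c.φ q i)) p
      + pd 2 (pd 2 (fun q => c.φ q i)) p + Kf i (UU c p) := by
  have s : ∀ μ, Continuous (pd μ (pd μ (fun q => c.φ q i))) := fun μ =>
    (pd_smooth (pd_smooth (hc.hφ i) μ) μ).continuous
  exact eq_hslab (G := fun p => pd 1 (pd 1 (fun q => c.φ q i)) p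
      + pd 2 (pd 2 (fun q => c.φ q i)) p + Kf i (UU c p)) (s 0)
    (((s 1).add (s 2)).add ((FOa_Kf_cont i).comp (FOa_UU_cont hc)))
    (fun q hq => FOa_open hc hq i) p hp

theorem FOa_maxwell (hc : c.Temporal b) {p : Pt} (hp : p ∈ slab 0 b) (μ : Fin 3) :
    pd 0 (c.F μ 0) p - pd 1 (c.F μ 1) p - pd 2 (c.F μ 2) p =
      c.φ p 0 * c.D μ c.φ p 1 - c.φ p 1 * c.D μ c.φ p 0 :=
  ((solvesAt_iff c p).mp (hc.sol p hp)).2.2 μ

theorem E1_t (hc : c.Temporal b) {p : Pt} (hp : p ∈ hslab b) :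
    pd 0 (pd 0 (c.A 1)) p = -pd 2 (fun q => pd 1 (c.A 2) q - pd 2 (c.A 1) q) p
      - Jf 1 (UU c p) := by
  have hA0 := FOa_A0 hc
  have sB : ContDiff ℝ ∞ (fun q => pd 1 (c.A 2) q - pd 2 (c.A 1) q) :=
    (pd_smooth (hc.hA 2) 1).sub (pd_smooth (hc.hA 1) 2)
  refine eq_hslab (F := pd 0 (pd 0 (c.A 1)))
    (G := fun p => -pd 2 (fun q => pd 1 (c.A 2) q - pd 2 (c.A 1) q) p - Jf 1 (UU c p))
    (pd_smooth (pd_smooth (hc.hA 1) 0) 0).continuous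
    (((pd_smooth sB 2).continuous.neg).sub ((FOa_Jf_cont 1).comp (FOa_UU_cont hc)))
    (fun p hp => ?_) p hp
  have hm := FOa_maxwell hc hp 1
  have f10 : c.F 1 0 = fun q => -(pd 0 (c.A 1) q) := by
    funext q
    unfold Config.F
    rw [hA0, FOa_pd_const]
    ring
  have f11 : c.F 1 1 = fun _ => 0 := by
    funext q
    unfold Config.F
    ring
  have f12 : c.F 1 2 = fun q => pd 1 (c.A 2) q - pd 2 (c.A 1) q := rfl
  rw [f10, f11, f12, FOa_pd_neg, FOa_pd_const, D_one, D_zero] at hm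
  show pd 0 (pd 0 (c.A 1)) p = -pd 2 (fun q => pd 1 (c.A 2) q - pd 2 (c.A 1) q) p
    - (c.φ p 0 * pd 1 (fun q => c.φ q 1) p - c.φ p 1 * pd 1 (fun q => c.φ q 0) p
      + c.A 1 p * (c.φ p 0 ^ 2 + c.φ p 1 ^ 2))
  linear_combination -hm

theorem E2_t (hc : c.Temporal b) {p : Pt} (hp : p ∈ hslab b) :
    pd 0 (pd 0 (c.A 2)) p = pd 1 (fun q => pd 1 (c.A 2) q - pd 2 (c.A 1) q) p
      - Jf 2 (UU c p) := by
  have hA0 := FOa_A0 hc
  have sB : ContDiff ℝ ∞ (fun q => pd 1 (c.A 2) q - pd 2 (c.A 1) q) :=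
    (pd_smooth (hc.hA 2) 1).sub (pd_smooth (hc.hA 1) 2)
  refine eq_hslab (F := pd 0 (pd 0 (c.A 2)))
    (G := fun p => pd 1 (fun q => pd 1 (c.A 2) q - pd 2 (c.A 1) q) p - Jf 2 (UU c p))
    (pd_smooth (pd_smooth (hc.hA 2) 0) 0).continuous
    (((pd_smooth sB 1).continuous).sub ((FOa_Jf_cont 2).comp (FOa_UU_cont hc)))
    (fun p hp => ?_) p hp
  have hm := FOa_maxwell hc hp 2
  have f10 : c.F 2 0 = fun q => -(pd 0 (c.A 2) q) := by
    funext q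
    unfold Config.F
    rw [hA0, FOa_pd_const]
    ring
  have f11 : c.F 2 2 = fun _ => 0 := by
    funext q
    unfold Config.F
    ring
  have f12 : c.F 2 1 = fun q => -((fun q => pd 1 (c.A 2) q - pd 2 (c.A 1) q) q) := by
    funext q
    unfold Config.F
    ring
  rw [f10, f11, f12, FOa_pd_neg, FOa_pd_neg, FOa_pd_const, D_one, D_zero] at hm
  show pd 0 (pd 0 (c.A 2)) p = pd 1 (fun q => pd 1 (c.A 2) q - pd 2 (c.A 1) q) p
    - (c.φ p 0 * pd 2 (fun q => c.φ q 1) p - c.φ p 1 * pd 2 (fun q => c.φ q 0) p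
      + c.A 2 p * (c.φ p 0 ^ 2 + c.φ p 1 ^ 2))
  linear_combination -hm

theorem div_t (hc : c.Temporal b) {p : Pt} (hp : p ∈ hslab b) :
    pd 0 (fun q => pd 1 (c.A 1) q + pd 2 (c.A 2) q) p = -Jf 0 (UU c p) := by
  have hA0 := FOa_A0 hc
  have sB : ContDiff ℝ ∞ (fun q => pd 1 (c.A 1) q + pd 2 (c.A 2) q) :=
    (pd_smooth (hc.hA 1) 1).add (pd_smooth (hc.hA 2) 2)
  refine eq_hslab (F := pd 0 (fun q => pd 1 (c.A 1) q + pd 2 (c.A 2) q))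
    (G := fun p => -Jf 0 (UU c p))
    (pd_smooth sB 0).continuous
    (((FOa_Jf_cont 0).comp (FOa_UU_cont hc)).neg)
    (fun p hp => ?_) p hp
  have hm := FOa_maxwell hc hp 0
  have f00 : c.F 0 0 = fun _ => 0 := by
    funext q
    unfold Config.F
    ring
  have f01 : c.F 0 1 = pd 0 (c.A 1) := by
    funext q
    unfold Config.F
    rw [hA0, FOa_pd_const]
    ring
  have f02 : c.F 0 2 = pd 0 (c.A 2) := by
    funext q
    unfold Config.F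
    rw [hA0, FOa_pd_const]
    ring
  have hAp : c.A 0 p = 0 := hc.A0 p
  rw [f00, f01, f02, FOa_pd_const, D_one, D_zero, hAp] at hm
  rw [pd_add (pd_smooth (hc.hA 1) 1) (pd_smooth (hc.hA 2) 2), pd_comm (hc.hA 1) 0 1,
    pd_comm (hc.hA 2) 0 2]
  show pd 1 (pd 0 (c.A 1)) p + pd 2 (pd 0 (c.A 2)) p =
    -(c.φ p 0 * pd 0 (fun q => c.φ q 1) p - c.φ p 1 * pd 0 (fun q => c.φ q 0) p)
  linear_combination -hm

end H72GS
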