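import Pool.Agent.H72.GS.FOdef

/-!
# FOb: the lower order terms are Lipschitz on bounded sets

`alf, Kf i, Jf μ` are polynomials, hence `C¹`; on a closed ball (compact, convex) the derivative is
bounded: `Convex.norm_image_sub_le_of_norm_fderiv_le`.
-/

namespace H72GS

open Set

/-- bounded and Lipschitz on the cube `|u j| ≤ M` -/
def FOb_BL (M : ℝ) (f : (Fin 18 → ℝ) → ℝ) : Prop :=
  ∃ B C : ℝ, 0 ≤ B ∧ 0 ≤ C ∧ (∀ u : Fin 18 → ℝ, (∀ j, |u j| ≤ M) → |f u| ≤ B) ∧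
    ∀ u v : Fin 18 → ℝ, (∀ j, |u j| ≤ M) → (∀ j, |v j| ≤ M) → |f u - f v| ≤ C * ∑ j, |u j - v j|

theorem FOb_const (M c : ℝ) : FOb_BL M (fun _ => c) :=
  ⟨|c|, 0, abs_nonneg _, le_refl _, fun _ _ => le_refl _, fun u v _ _ => by simp⟩

theorem FOb_coord (M : ℝ) (i : Fin 18) : FOb_BL M (fun u => u i) := by
  refine ⟨|M|, 1, abs_nonneg _, zero_le_one, fun u hu => (hu i).trans (le_abs_self _),
    fun u v _ _ => ?_⟩
  rw [one_mul]
  exact Finset.single_le_sum (f := fun j => |u j - v j|) (fun j _ => abs_nonneg _)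
    (Finset.mem_univ i)

theorem FOb_add {M : ℝ} {f g : (Fin 18 → ℝ) → ℝ} (hf : FOb_BL M f) (hg : FOb_BL M g) :
    FOb_BL M (fun u => f u + g u) := by
  obtain ⟨B, C, hB, hC, h1, h2⟩ := hf
  obtain ⟨B', C', hB', hC', h1', h2'⟩ := hg
  refine ⟨B + B', C + C', by positivity, by positivity, fun u hu =>
    (abs_add_le _ _).trans (add_le_add (h1 u hu) (h1' u hu)), fun u v hu hv => ?_⟩
  have h3 := h2 u v hu hv
  have h4 := h2' u v hu hv
  calc |f u + g u - (f v + g v)| = |(f u - f v) + (g u - g v)| := by congr 1; ring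
    _ ≤ |f u - f v| + |g u - g v| := abs_add_le _ _
    _ ≤ _ := by linarith

theorem FOb_mul {M : ℝ} {f g : (Fin 18 → ℝ) → ℝ} (hf : FOb_BL M f) (hg : FOb_BL M g) :
    FOb_BL M (fun u => f u * g u) := by
  obtain ⟨B, C, hB, hC, h1, h2⟩ := hf
  obtain ⟨B', C', hB', hC', h1', h2'⟩ := hg
  refine ⟨B * B', B * C' + C * B', by positivity, by positivity, fun u hu => ?_,
    fun u v hu hv => ?_⟩
  · rw [abs_mul]
    exact mul_le_mul (h1 u hu) (h1' u hu) (abs_nonneg _) hB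
  · have h3 := h2 u v hu hv
    have h4 := h2' u v hu hv
    have h5 := h1 u hu
    have h6 := h1' v hv
    have hs : 0 ≤ ∑ j, |u j - v j| := Finset.sum_nonneg fun j _ => abs_nonneg _
    calc |f u * g u - f v * g v| = |f u * (g u - g v) + (f u - f v) * g v| := by congr 1; ring
      _ ≤ |f u * (g u - g v)| + |(f u - f v) * g v| := abs_add_le _ _
      _ = |f u| * |g u - g v| + |f u - f v| * |g v| := by rw [abs_mul, abs_mul]
      _ ≤ B * (C' * ∑ j, |u j - v j|) + (C * ∑ j, |u j - v j|) * B' :=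
          add_le_add (mul_le_mul h5 h4 (abs_nonneg _) hB)
            (mul_le_mul h3 h6 (abs_nonneg _) (by positivity))
      _ = _ := by ring

theorem FOb_neg {M : ℝ} {f : (Fin 18 → ℝ) → ℝ} (hf : FOb_BL M f) :
    FOb_BL M (fun u => - f u) := by
  have h := FOb_mul (FOb_const M (-1)) hf
  simpa using h

theorem FOb_sub {M : ℝ} {f g : (Fin 18 → ℝ) → ℝ} (hf : FOb_BL M f) (hg : FOb_BL M g) :
    FOb_BL M (fun u => f u - g u) := by
  have h := FOb_add hf (FOb_neg hg)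
  simpa [sub_eq_add_neg] using h

theorem FOb_sq {M : ℝ} {f : (Fin 18 → ℝ) → ℝ} (hf : FOb_BL M f) :
    FOb_BL M (fun u => f u ^ 2) := by
  have h := FOb_mul hf hf
  simpa [sq] using h

theorem FOb_alf (M : ℝ) : FOb_BL M alf := by
  unfold alf
  have c := FOb_coord M
  have k := FOb_const M
  exact FOb_sub (FOb_add (FOb_add (FOb_neg (FOb_add (FOb_add (FOb_sq (c 3)) (FOb_sq (c 4)))
    (FOb_sq (c 5))))
    (FOb_add (FOb_add (FOb_sq (FOb_sub (c 6) (FOb_mul (c 12) (c 1))))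
      (FOb_sq (FOb_add (c 7) (FOb_mul (c 12) (c 0))))) (FOb_sq (c 8))))
    (FOb_add (FOb_add (FOb_sq (FOb_sub (c 9) (FOb_mul (c 13) (c 1))))
      (FOb_sq (FOb_add (c 10) (FOb_mul (c 13) (c 0))))) (FOb_sq (c 11))))
    (FOb_mul (FOb_sub (k 1) (c 2)) (c 2))

theorem FOb_Kf (M : ℝ) (i : Fin 3) : FOb_BL M (Kf i) := by
  have c := FOb_coord M
  have k := FOb_const M
  have a := FOb_alf M
  fin_cases i
  · exact FOb_add (FOb_sub (FOb_sub (FOb_sub (FOb_mul (FOb_mul (k (-2)) (c 12)) (c 7))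
      (FOb_mul (FOb_mul (k 2) (c 13)) (c 10))) (FOb_mul (c 17) (c 1)))
      (FOb_mul (FOb_add (FOb_sq (c 12)) (FOb_sq (c 13))) (c 0))) (FOb_mul a (c 0))
  · exact FOb_add (FOb_sub (FOb_add (FOb_add (FOb_mul (FOb_mul (k 2) (c 12)) (c 6))
      (FOb_mul (FOb_mul (k 2) (c 13)) (c 9))) (FOb_mul (c 17) (c 0)))
      (FOb_mul (FOb_add (FOb_sq (c 12)) (FOb_sq (c 13))) (c 1))) (FOb_mul a (c 1))
  · exact FOb_add (FOb_sub (k 1) (c 2)) (FOb_mul a (c 2))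

theorem FOb_Jf (M : ℝ) (i : Fin 3) : FOb_BL M (Jf i) := by
  have c := FOb_coord M
  fin_cases i
  · exact FOb_sub (FOb_mul (c 0) (c 4)) (FOb_mul (c 1) (c 3))
  · exact FOb_add (FOb_sub (FOb_mul (c 0) (c 7)) (FOb_mul (c 1) (c 6)))
      (FOb_mul (c 12) (FOb_add (FOb_sq (c 0)) (FOb_sq (c 1))))
  · exact FOb_add (FOb_sub (FOb_mul (c 0) (c 10)) (FOb_mul (c 1) (c 9)))
      (FOb_mul (c 13) (FOb_add (FOb_sq (c 0)) (FOb_sq (c 1))))

theorem FOb_fin {M : ℝ} {F : Fin 3 → (Fin 18 → ℝ) → ℝ} (h : ∀ i, FOb_BL M (F i)) :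
    ∃ C, 0 ≤ C ∧ ∀ u v : Fin 18 → ℝ, (∀ j, |u j| ≤ M) → (∀ j, |v j| ≤ M) →
      ∀ i, |F i u - F i v| ≤ C * ∑ j, |u j - v j| := by
  choose B C hB hC h1 h2 using h
  refine ⟨∑ i, C i, Finset.sum_nonneg fun i _ => hC i, fun u v hu hv i => ?_⟩
  refine (h2 i u v hu hv).trans ?_
  apply mul_le_mul_of_nonneg_right _ (Finset.sum_nonneg fun j _ => abs_nonneg _)
  exact Finset.single_le_sum (f := C) (fun j _ => hC j) (Finset.mem_univ i)

theorem Kf_lip (M : ℝ) : ∃ C, 0 ≤ C ∧ ∀ u v : Fin 18 → ℝ, (∀ j, |u j| ≤ M) → (∀ j, |v j| ≤ M) →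
    ∀ i, |Kf i u - Kf i v| ≤ C * ∑ j, |u j - v j| :=
  FOb_fin (FOb_Kf M)

theorem Jf_lip (M : ℝ) : ∃ C, 0 ≤ C ∧ ∀ u v : Fin 18 → ℝ, (∀ j, |u j| ≤ M) → (∀ j, |v j| ≤ M) →
    ∀ μ, |Jf μ u - Jf μ v| ≤ C * ∑ j, |u j - v j| :=
  FOb_fin (FOb_Jf M)

end H72GS
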