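import Pool.Agent.H72.GS.Comp

/-!
# FOdef: first order variables for a configuration in temporal gauge

`U = (φ (0-2), ∂_t φ (3-5), ∂_1 φ (6-8), ∂_2 φ (9-11), A₁, A₂ (12,13), ∂_t A₁, ∂_t A₂ (14,15),
B = ∂_1 A₂ - ∂_2 A₁ (16), d = ∂_1 A₁ + ∂_2 A₂ (17))`.
-/

namespace H72GS

noncomputable section

/-- first order variables -/
def UU (c : Config) (p : Pt) : Fin 18 → ℝ :=
  ![c.φ p 0, c.φ p 1, c.φ p 2,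
    pd 0 (fun q => c.φ q 0) p, pd 0 (fun q => c.φ q 1) p, pd 0 (fun q => c.φ q 2) p,
    pd 1 (fun q => c.φ q 0) p, pd 1 (fun q => c.φ q 1) p, pd 1 (fun q => c.φ q 2) p,
    pd 2 (fun q => c.φ q 0) p, pd 2 (fun q => c.φ q 1) p, pd 2 (fun q => c.φ q 2) p,
    c.A 1 p, c.A 2 p, pd 0 (c.A 1) p, pd 0 (c.A 2) p,
    pd 1 (c.A 2) p - pd 2 (c.A 1) p, pd 1 (c.A 1) p + pd 2 (c.A 2) p]

/-- the Lagrange multiplier `α = -|∂_t φ|² + |D₁φ|² + |D₂φ|² - (1 - φ₂) φ₂` -/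
def alf (u : Fin 18 → ℝ) : ℝ :=
  -(u 3 ^ 2 + u 4 ^ 2 + u 5 ^ 2)
    + ((u 6 - u 12 * u 1) ^ 2 + (u 7 + u 12 * u 0) ^ 2 + u 8 ^ 2)
    + ((u 9 - u 13 * u 1) ^ 2 + (u 10 + u 13 * u 0) ^ 2 + u 11 ^ 2)
    - (1 - u 2) * u 2

/-- lower order terms in `φ_tt = Δ φ + K` -/
def Kf (i : Fin 3) (u : Fin 18 → ℝ) : ℝ :=
  (![-2 * u 12 * u 7 - 2 * u 13 * u 10 - u 17 * u 1 - (u 12 ^ 2 + u 13 ^ 2) * u 0 + alf u * u 0,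
    2 * u 12 * u 6 + 2 * u 13 * u 9 + u 17 * u 0 - (u 12 ^ 2 + u 13 ^ 2) * u 1 + alf u * u 1,
    (1 - u 2) + alf u * u 2] : Fin 3 → ℝ) i

/-- currents `J_μ = n · (φ × D_μ φ)` -/
def Jf (μ : Fin 3) (u : Fin 18 → ℝ) : ℝ :=
  (![u 0 * u 4 - u 1 * u 3,
    u 0 * u 7 - u 1 * u 6 + u 12 * (u 0 ^ 2 + u 1 ^ 2),
    u 0 * u 10 - u 1 * u 9 + u 13 * (u 0 ^ 2 + u 1 ^ 2)] : Fin 3 → ℝ) μ

end

end H72GS
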