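import Pool.Agent.H72.GS.InitA

/-!
# InitB2: second order quantities at time `0`

`ell = (b0/om0)⁴`, `b0 = 10⁻²³`; `om0 ≥ 10^60`, `ell ≤ 1/om0⁴ ≤ 1`, `R1 = R00 + T ≤ 1`.  With
`|w|, |w_r|, |w1| ≤ C ell`, `|w_t| ≤ 4 om0 C ell`, `|g| ≤ 4 om0`, `al = 0`, `0 ≤ A ≤ 25`:
* `X ≤ (16 om0² + 1 + 26) C² ell² ≤ 50 C²/om0²`;
* `|D| ≤ C ell · 4 · 16 om0² ≤ 64 C/om0²`;
* `|M| ≤ 4 om0 C ell (C ell + C ell)` (`r²/(r+L) ≤ r`, `r/(2(r+L)) ≤ 1/2`, `L = ep1/om0 > 0`).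
-/

namespace H72GS

open Set

theorem InitB2_int {F : ℝ → ℝ} {R1 K : ℝ} (h0 : 0 ≤ R1) (h1 : R1 ≤ 1) (hK : 0 ≤ K)
    (h : ∀ r, 0 ≤ r → r ≤ 1 → |F r| ≤ K) : |∫ r in (0:ℝ)..R1, F r| ≤ K := by
  have h2 := intervalIntegral.norm_integral_le_of_norm_le_const (a := 0) (b := R1) (C := K)
    (f := F) (by
      intro x hx
      rw [uIoc_of_le h0] at hx
      rw [Real.norm_eq_abs]
      exact h x hx.1.le (hx.2.trans h1))
  rw [Real.norm_eq_abs, sub_zero, abs_of_nonneg h0] at h2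
  nlinarith

theorem init_XDM : ∃ C : ℝ, 0 < C ∧ ∀ om0 : ℝ, 10 ^ 60 ≤ om0 → ∀ R : Rad (6 / (5 * om0)) R00,
    RadInit R om0 ((1 / 10 ^ 23 / om0) ^ 4) →
    (R.pre 0).X (R00 + 6 / (5 * om0)) ≤ C / om0 ^ 2 ∧
    |(R.pre 0).D (R00 + 6 / (5 * om0))| ≤ C / om0 ^ 2 ∧
    |(R.pre 0).M (R00 + 6 / (5 * om0)) (ep1 / om0)| ≤ C / om0 ^ 2 := by
  obtain ⟨C, hC, hw⟩ := init_w
  refine ⟨44 * C ^ 2 + 64 * C + 6 * C ^ 2, by positivity, ?_⟩
  intro om0 hom R hR
  have hom0 : 0 < om0 := lt_of_lt_of_le (by norm_num) hom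
  have hom1 : 1 ≤ om0 := le_trans (by norm_num) hom
  set ell : ℝ := (1 / 10 ^ 23 / om0) ^ 4 with hell
  have hell0 : 0 < ell := by positivity
  have hell1 : ell ≤ 1 / om0 ^ 4 := by
    rw [hell, div_pow]
    apply div_le_div_of_nonneg_right _ (by positivity)
    norm_num
  have hell2 : ell ≤ 1 := by
    refine hell1.trans ?_
    rw [div_le_one (by positivity)]
    exact one_le_pow₀ hom1
  have hR00 : 0 < R00 ∧ R00 ≤ 1 / 2 := by unfold R00; constructor <;> norm_num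
  have hT : 6 / (5 * om0) ≤ 1 / 2 := by
    rw [div_le_div_iff₀ (by positivity) (by norm_num)]
    have : (10:ℝ) ≤ 10 ^ 60 := by norm_num
    linarith
  have hT0 : 0 < 6 / (5 * om0) := by positivity
  have hR1 : R00 + 6 / (5 * om0) ≤ 1 := by linarith [hR00.2]
  have hR0 : 0 ≤ R00 + 6 / (5 * om0) := by linarith [hR00.1]
  obtain ⟨hal, he, hy, hwt, hyt, hyr⟩ := init_simple hR
  have hb := hw _ om0 ell R hell0 hell2 hR
  -- pointwise facts
  have b1 : ∀ r, 0 ≤ r → |R.w 0 r| ≤ C * ell := fun r hr => (hb r hr).1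
  have b2 : ∀ r, 0 ≤ r → |dr R.w 0 r| ≤ C * ell := fun r hr => (hb r hr).2.1
  have b3 : ∀ r, 0 ≤ r → |R.w1 0 r| ≤ C * ell := fun r hr => (hb r hr).2.2.1
  have b4 : ∀ r, 0 ≤ r → |dt R.w 0 r| ≤ 4 * om0 * (C * ell) := by
    intro r hr
    rw [hwt r hr, abs_mul, abs_mul, abs_mul, abs_neg, abs_of_pos hom0,
      abs_of_pos (by norm_num : (0:ℝ) < 4)]
    have h1 := Real.abs_cos_le_one (R.f 0 r)
    have h2 := b1 r hr
    have h3 : |Real.cos (R.f 0 r)| * |R.w 0 r| ≤ 1 * (C * ell) :=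
      mul_le_mul h1 h2 (abs_nonneg _) zero_le_one
    calc 4 * om0 * |Real.cos (R.f 0 r)| * |R.w 0 r|
        = 4 * om0 * (|Real.cos (R.f 0 r)| * |R.w 0 r|) := by ring
      _ ≤ 4 * om0 * (1 * (C * ell)) := mul_le_mul_of_nonneg_left h3 (by positivity)
      _ = _ := by ring
  have b5 : ∀ r, |R.g 0 r| ≤ 4 * om0 := by
    intro r
    rw [hR.hg r, abs_mul, abs_mul, abs_neg, abs_of_pos hom0, abs_of_pos (by norm_num : (0:ℝ) < 4)]
    have := Real.abs_sin_le_one (R.f 0 r)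
    nlinarith
  have hq : 0 < C * ell := by positivity
  have hqle : C * ell ≤ C / om0 ^ 4 := by
    rw [div_eq_mul_one_div]
    exact mul_le_mul_of_nonneg_left hell1 hC.le
  -- powers
  have hp1 : om0 ^ 2 * (C * ell) ^ 2 ≤ C ^ 2 / om0 ^ 2 := by
    have h1 : (C * ell) ^ 2 ≤ (C / om0 ^ 4) ^ 2 := by gcongr
    calc om0 ^ 2 * (C * ell) ^ 2 ≤ om0 ^ 2 * (C / om0 ^ 4) ^ 2 := by gcongr
      _ = C ^ 2 / om0 ^ 6 := by field_simp
      _ ≤ C ^ 2 / om0 ^ 2 := by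
          apply div_le_div_of_nonneg_left (by positivity) (by positivity)
          exact pow_le_pow_right₀ hom1 (by norm_num)
  have hp2 : om0 ^ 2 * (C * ell) ≤ C / om0 ^ 2 := by
    calc om0 ^ 2 * (C * ell) ≤ om0 ^ 2 * (C / om0 ^ 4) := by gcongr
      _ = C / om0 ^ 2 := by field_simp
  have hom2 : 1 ≤ om0 ^ 2 := one_le_pow₀ hom1
  have hom3 : om0 ≤ om0 ^ 2 := by nlinarith
  refine ⟨?_, ?_, ?_⟩
  · refine (le_abs_self _).trans ?_
    have h1 : |(R.pre 0).X (R00 + 6 / (5 * om0))| ≤ 44 * (om0 ^ 2 * (C * ell) ^ 2) := by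
      unfold Pre.X
      apply InitB2_int hR0 hR1 (by positivity)
      intro r hr0 hr1
      have a0 : (R.pre 0).a r = 0 := by
        change r * R.al 0 r = 0
        rw [hal r, mul_zero]
      have hA : (R.pre 0).A r = 17 - 8 * Real.cos (R.f 0 r) := by
        unfold Pre.A
        rw [a0]
        change 1 + (4 + 0) ^ 2 - 2 * (4 + 0) * Real.cos (R.f 0 r) = _
        ring
      rw [hA]
      change |r * (dt R.w 0 r ^ 2 + dr R.w 0 r ^ 2 + (17 - 8 * Real.cos (R.f 0 r)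
        + r ^ 2 * (1 - Real.cos (R.f 0 r))) * R.w1 0 r ^ 2)| ≤ _
      have c1 := Real.neg_one_le_cos (R.f 0 r)
      have c2 := Real.cos_le_one (R.f 0 r)
      have r2 : r ^ 2 ≤ 1 := by nlinarith
      have k1 : 0 ≤ 17 - 8 * Real.cos (R.f 0 r) + r ^ 2 * (1 - Real.cos (R.f 0 r)) := by
        have : 0 ≤ r ^ 2 * (1 - Real.cos (R.f 0 r)) := mul_nonneg (sq_nonneg _) (by linarith)
        linarith
      have k2 : 17 - 8 * Real.cos (R.f 0 r) + r ^ 2 * (1 - Real.cos (R.f 0 r)) ≤ 27 := by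
        have : r ^ 2 * (1 - Real.cos (R.f 0 r)) ≤ 1 * 2 :=
          mul_le_mul r2 (by linarith) (by linarith) zero_le_one
        linarith
      have s1 : dt R.w 0 r ^ 2 ≤ (4 * om0 * (C * ell)) ^ 2 := by
        rw [← sq_abs]; have := b4 r hr0; gcongr
      have s2 : dr R.w 0 r ^ 2 ≤ (C * ell) ^ 2 := by
        rw [← sq_abs]; have := b2 r hr0; gcongr
      have s3 : R.w1 0 r ^ 2 ≤ (C * ell) ^ 2 := by
        rw [← sq_abs]; have := b3 r hr0; gcongr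
      have s4 : (17 - 8 * Real.cos (R.f 0 r) + r ^ 2 * (1 - Real.cos (R.f 0 r))) * R.w1 0 r ^ 2
          ≤ 27 * (C * ell) ^ 2 := mul_le_mul k2 s3 (sq_nonneg _) (by norm_num)
      have s5 : 0 ≤ (17 - 8 * Real.cos (R.f 0 r) + r ^ 2 * (1 - Real.cos (R.f 0 r)))
        * R.w1 0 r ^ 2 := mul_nonneg k1 (sq_nonneg _)
      have s6 : 0 ≤ dt R.w 0 r ^ 2 + dr R.w 0 r ^ 2 + (17 - 8 * Real.cos (R.f 0 r)
        + r ^ 2 * (1 - Real.cos (R.f 0 r))) * R.w1 0 r ^ 2 := by positivity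
      rw [abs_of_nonneg (mul_nonneg hr0 s6)]
      have s7 : (C * ell) ^ 2 ≤ om0 ^ 2 * (C * ell) ^ 2 := by
        have : 0 ≤ (C * ell) ^ 2 := sq_nonneg _
        nlinarith
      have s8 : (4 * om0 * (C * ell)) ^ 2 = 16 * (om0 ^ 2 * (C * ell) ^ 2) := by ring
      have s9 : dt R.w 0 r ^ 2 + dr R.w 0 r ^ 2 + (17 - 8 * Real.cos (R.f 0 r)
        + r ^ 2 * (1 - Real.cos (R.f 0 r))) * R.w1 0 r ^ 2 ≤ 44 * (om0 ^ 2 * (C * ell) ^ 2) := by
        linarith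
      calc _ ≤ 1 * (44 * (om0 ^ 2 * (C * ell) ^ 2)) := mul_le_mul hr1 s9 s6 zero_le_one
        _ = _ := one_mul _
    refine h1.trans ?_
    calc 44 * (om0 ^ 2 * (C * ell) ^ 2) ≤ 44 * (C ^ 2 / om0 ^ 2) := by gcongr
      _ = (44 * C ^ 2) / om0 ^ 2 := by ring
      _ ≤ _ := by
          apply div_le_div_of_nonneg_right _ (by positivity)
          nlinarith [sq_nonneg C]
  · have h1 : |(R.pre 0).D (R00 + 6 / (5 * om0))| ≤ 64 * (om0 ^ 2 * (C * ell)) := by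
      unfold Pre.D
      apply InitB2_int hR0 hR1 (by positivity)
      intro r hr0 hr1
      have a0 : (R.pre 0).a r = 0 := by
        change r * R.al 0 r = 0
        rw [hal r, mul_zero]
      rw [a0]
      change |R.w 0 r * (4 + 0) * Real.sin (R.f 0 r) * R.g 0 r ^ 2| ≤ _
      rw [abs_mul, abs_mul, abs_mul, abs_pow]
      have s1 := b1 r hr0
      have s2 := Real.abs_sin_le_one (R.f 0 r)
      have s3 := b5 r
      have s4 : |(4:ℝ) + 0| = 4 := by norm_num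
      rw [s4]
      have s5 : |R.g 0 r| ^ 2 ≤ (4 * om0) ^ 2 := by gcongr
      calc |R.w 0 r| * 4 * |Real.sin (R.f 0 r)| * |R.g 0 r| ^ 2
          ≤ (C * ell) * 4 * 1 * (4 * om0) ^ 2 := by gcongr
        _ = _ := by ring
    refine h1.trans ?_
    calc 64 * (om0 ^ 2 * (C * ell)) ≤ 64 * (C / om0 ^ 2) := by gcongr
      _ = (64 * C) / om0 ^ 2 := by ring
      _ ≤ _ := by
          apply div_le_div_of_nonneg_right _ (by positivity)
          nlinarith [sq_nonneg C]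
  · have h1 : |(R.pre 0).M (R00 + 6 / (5 * om0)) (ep1 / om0)| ≤ 6 * (om0 ^ 2 * (C * ell) ^ 2) := by
      unfold Pre.M
      apply InitB2_int hR0 hR1 (by positivity)
      intro r hr0 hr1
      have hL : 0 < ep1 / om0 := by
        have : (0:ℝ) < ep1 := by unfold ep1; norm_num
        positivity
      set L := ep1 / om0 with hLdef
      change |dt R.w 0 r * (r ^ 2 / (r + L) * dr R.w 0 r + r / (2 * (r + L)) * R.w 0 r)| ≤ _
      rw [abs_mul]
      have s1 : |r ^ 2 / (r + L) * dr R.w 0 r + r / (2 * (r + L)) * R.w 0 r| ≤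
          (3 / 2) * (C * ell) := by
        refine (abs_add_le _ _).trans ?_
        rw [abs_mul, abs_mul]
        have t1 : |r ^ 2 / (r + L)| ≤ 1 := by
          rw [abs_of_nonneg (by positivity), div_le_one (by linarith)]
          nlinarith
        have t2 : |r / (2 * (r + L))| ≤ 1 / 2 := by
          rw [abs_of_nonneg (by positivity), div_le_div_iff₀ (by linarith) (by norm_num)]
          linarith
        have t3 := b2 r hr0
        have t4 := b1 r hr0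
        calc |r ^ 2 / (r + L)| * |dr R.w 0 r| + |r / (2 * (r + L))| * |R.w 0 r|
            ≤ 1 * (C * ell) + (1 / 2) * (C * ell) := by gcongr
          _ = _ := by ring
      have s2 := b4 r hr0
      calc |dt R.w 0 r| * |r ^ 2 / (r + L) * dr R.w 0 r + r / (2 * (r + L)) * R.w 0 r|
          ≤ (4 * om0 * (C * ell)) * ((3 / 2) * (C * ell)) := by gcongr
        _ = 6 * (om0 * (C * ell) ^ 2) := by ring
        _ ≤ 6 * (om0 ^ 2 * (C * ell) ^ 2) := by gcongr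
    refine h1.trans ?_
    calc 6 * (om0 ^ 2 * (C * ell) ^ 2) ≤ 6 * (C ^ 2 / om0 ^ 2) := by gcongr
      _ = (6 * C ^ 2) / om0 ^ 2 := by ring
      _ ≤ _ := by
          apply div_le_div_of_nonneg_right _ (by positivity)
          nlinarith [sq_nonneg C]

end H72GS
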