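import Pool.Agent.H72.GS.InitB1
import Pool.Agent.H72.GS.InitB2

/-! # InitB: the initial conditions of `core` (assembly) -/

namespace H72GS

open Set

theorem init_core : ∃ Ω : ℝ, 10 ^ 60 < Ω ∧ ∀ om0, Ω ≤ om0 → ∀ R : Rad (6 / (5 * om0)) R00,
    RadInit R om0 ((b00 / om0) ^ 4) →
    (R00 + 6 / (5 * om0) ≤ 1 / 1000 ∧
    (R.pre 0).En (R00 + 6 / (5 * om0)) ≤ eps ^ 2 ∧
    (R.pre 0).P (R00 + 6 / (5 * om0)) = -4 * om0 * (R.pre 0).N (R00 + 6 / (5 * om0)) ∧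
    1 < om0 ^ 3 * (R.pre 0).N (R00 + 6 / (5 * om0)) ∧
    (R.pre 0).Ey (R00 + 6 / (5 * om0)) < om0 ∧
    (R.pre 0).X (R00 + 6 / (5 * om0)) < Gam ^ 2 * om0 ^ 4 * (R.pre 0).N (R00 + 6 / (5 * om0)) ∧
    (R.pre 0).X (R00 + 6 / (5 * om0)) + 2 * (R.pre 0).D (R00 + 6 / (5 * om0))
      + (1 / 2) * (R.pre 0).M (R00 + 6 / (5 * om0)) (ep1 / om0)
      < Gam1 ^ 2 * om0 ^ 4 * (R.pre 0).N (R00 + 6 / (5 * om0))) := by
  obtain ⟨Ω1, hΩ1, H1⟩ := init_ENP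
  obtain ⟨C, hC, H2⟩ := init_XDM
  refine ⟨max Ω1 (C * 10 ^ 48 + 10 ^ 61), lt_of_lt_of_le hΩ1 (le_max_left _ _), ?_⟩
  intro om0 hom R hR
  have ho1 : Ω1 ≤ om0 := (le_max_left _ _).trans hom
  have ho2 : C * 10 ^ 48 + 10 ^ 61 ≤ om0 := (le_max_right _ _).trans hom
  have ho3 : (10 : ℝ) ^ 61 ≤ om0 := by
    have : 0 < C * 10 ^ 48 := by positivity
    linarith
  have ho4 : C * 10 ^ 48 ≤ om0 := by
    have : (0 : ℝ) < 10 ^ 61 := by positivity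
    linarith
  have hpos : 0 < om0 := lt_of_lt_of_le (by positivity) ho3
  have hb : b00 = 1 / 10 ^ 23 := rfl
  obtain ⟨e1, e2, e3, e4⟩ := H1 om0 ho1 R hR
  obtain ⟨x1, x2, x3⟩ := H2 om0 (le_trans (by norm_num) ho3) R hR
  set N := (R.pre 0).N (R00 + 6 / (5 * om0)) with hN
  set X := (R.pre 0).X (R00 + 6 / (5 * om0)) with hX
  set D := (R.pre 0).D (R00 + 6 / (5 * om0)) with hD
  set M := (R.pre 0).M (R00 + 6 / (5 * om0)) (ep1 / om0) with hM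
  -- lower bound for `om0 ^ 2 * N`
  have n1 : 1 / 10 ^ 48 ≤ om0 ^ 2 * N := by
    have h1 : om0 ^ 2 * ((b00 / om0) ^ 2 / 16) ≤ om0 ^ 2 * N :=
      mul_le_mul_of_nonneg_left e3 (by positivity)
    have h2 : om0 ^ 2 * ((b00 / om0) ^ 2 / 16) = b00 ^ 2 / 16 := by
      field_simp
    rw [h2, hb] at h1
    refine le_trans ?_ h1
    norm_num
  have hNpos : 0 < N := by
    have h3 : 0 < (b00 / om0) ^ 2 / 16 := by
      have : 0 < b00 := by rw [hb]; positivity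
      positivity
    linarith
  have q : C / om0 ^ 2 ≤ om0 ^ 4 * N := by
    have h1 : C / om0 ^ 2 ≤ om0 ^ 2 * (1 / 10 ^ 48) := by
      rw [div_le_iff₀ (by positivity)]
      have h4 : (1 : ℝ) ≤ om0 := le_trans (by norm_num) ho3
      have h5 : om0 ≤ om0 ^ 2 * om0 ^ 2 := by
        have : om0 ^ 2 * om0 ^ 2 = om0 ^ 3 * om0 := by ring
        rw [this]
        have h6 : (1 : ℝ) ≤ om0 ^ 3 := one_le_pow₀ h4
        nlinarith
      have h7 : C ≤ om0 * (1 / 10 ^ 48) := by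
        have : om0 * (1 / 10 ^ 48) = om0 / 10 ^ 48 := by ring
        rw [this, le_div_iff₀ (by positivity)]
        exact ho4
      have h8 : om0 * (1 / 10 ^ 48) ≤ om0 ^ 2 * (1 / 10 ^ 48) * om0 ^ 2 := by
        have : om0 ^ 2 * (1 / 10 ^ 48) * om0 ^ 2 = om0 ^ 2 * om0 ^ 2 * (1 / 10 ^ 48) := by ring
        rw [this]
        exact mul_le_mul_of_nonneg_right h5 (by positivity)
      linarith
    calc C / om0 ^ 2 ≤ om0 ^ 2 * (1 / 10 ^ 48) := h1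
      _ ≤ om0 ^ 2 * (om0 ^ 2 * N) := mul_le_mul_of_nonneg_left n1 (by positivity)
      _ = om0 ^ 4 * N := by ring
  have hpp : 0 < om0 ^ 4 * N := by positivity
  refine ⟨?_, e1, e2, ?_, ?_, ?_, ?_⟩
  · have h1 : 6 / (5 * om0) ≤ 1 / 10000 := by
      rw [div_le_div_iff₀ (by positivity) (by norm_num)]
      have : (10 : ℝ) ^ 61 ≤ om0 := ho3
      nlinarith [this, (by norm_num : (12000 : ℝ) ≤ 10 ^ 61)]
    unfold R00
    linarith
  · have h1 : om0 ^ 3 * N = om0 * (om0 ^ 2 * N) := by ring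
    rw [h1]
    have h2 : om0 * (1 / 10 ^ 48) ≤ om0 * (om0 ^ 2 * N) :=
      mul_le_mul_of_nonneg_left n1 hpos.le
    have h3 : (10 : ℝ) ^ 61 * (1 / 10 ^ 48) ≤ om0 * (1 / 10 ^ 48) :=
      mul_le_mul_of_nonneg_right ho3 (by positivity)
    have h4 : (1 : ℝ) < 10 ^ 61 * (1 / 10 ^ 48) := by norm_num
    linarith
  · have : (100 : ℝ) < 10 ^ 61 := by norm_num
    linarith
  · have h1 : X ≤ om0 ^ 4 * N := x1.trans q
    have h2 : Gam ^ 2 * om0 ^ 4 * N = Gam ^ 2 * (om0 ^ 4 * N) := by ring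
    rw [h2]
    have h3 : (1 : ℝ) < Gam ^ 2 := by unfold Gam; norm_num
    nlinarith
  · have h1 : X ≤ om0 ^ 4 * N := x1.trans q
    have h4 : D ≤ om0 ^ 4 * N := (le_abs_self _).trans (x2.trans q)
    have h5 : M ≤ om0 ^ 4 * N := (le_abs_self _).trans (x3.trans q)
    have h2 : Gam1 ^ 2 * om0 ^ 4 * N = Gam1 ^ 2 * (om0 ^ 4 * N) := by ring
    rw [h2]
    have h3 : (10 : ℝ) < Gam1 ^ 2 := by unfold Gam1; norm_num
    nlinarith

end H72GS
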