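import Pool.Agent.H72.GS.Core
import Pool.Agent.H72.GS.InitB
import Pool.Agent.H72.GS.Axis3
import Pool.Agent.H72.GS.DataB

/-! # Final: smooth finite energy data without a smooth solution on `[0,T)` in any gauge -/

namespace H72GS

open Set

theorem no_solution : ∃ om0 ell : ℝ, 0 < om0 ∧ 0 < ell ∧
    ¬ ∃ c : Config, IsSolutionFrom (dat om0 ell) (2 / om0) c := by
  obtain ⟨om0, hΩ, H⟩ := init_core
  have h0 : 0 < om0 := lt_trans (by norm_num) hΩ
  have hb : 0 < b00 := by unfold b00; norm_num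
  have hell : 0 < (b00 / om0) ^ 4 := by positivity
  refine ⟨om0, (b00 / om0) ^ 4, h0, hell, ?_⟩
  rintro ⟨c, hc⟩
  have hT' : 0 < 6 / (5 * om0) := by positivity
  have hTT : 6 / (5 * om0) < 2 / om0 := by
    rw [div_lt_div_iff₀ (by positivity) h0]
    nlinarith
  obtain ⟨R, hf, hg⟩ := exists_rad hell hT' hTT hc
  have hR : RadInit R om0 ((b00 / om0) ^ 4) :=
    ⟨fun r hr => (hf r hr).1, fun r hr => (hf r hr).2, hg⟩
  obtain ⟨k1, k2, k3, k4, k5, k6, k7⟩ := H om0 le_rfl R hR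
  refine core R k1 ?_ k2 k3 hΩ k4 k5 k6 k7 ?_
  · have : (1 : ℝ) / 10 ^ 50 ≤ R00 := by unfold R00; norm_num
    linarith
  · have : 6 / (5 * om0) * om0 = 6 / 5 := by field_simp
    rw [this]; norm_num

theorem main : ∃ d : InitData, d.Smooth ∧ d.OnSphere ∧ d.Gauss ∧ d.FiniteEnergy ∧ d.Boundary ∧
    ∃ T > 0, ¬ ∃ c : Config, IsSolutionFrom d T c := by
  obtain ⟨om0, ell, h0, hl, h⟩ := no_solution
  exact ⟨dat om0 ell, dat_smooth hl, dat_onSphere hl, dat_gauss hl, dat_energy hl,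
    dat_boundary hl, 2 / om0, by positivity, h⟩

end H72GS
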