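import Pool.Agent.H72.GS.Comp

/-!
# GaugeA: gauge covariance

`c.gauge Λ`: `φ ↦ Rot(-Λ) φ`, `A_μ ↦ A_μ + ∂_μ Λ`.
* `gauge_D`: `D^{gauge}_μ (Rot(-Λ) V) = Rot(-Λ) (D_μ V)` for smooth `V`, because
  `∂_μ (Rot(-Λ) V) = Rot(-Λ) ∂_μ V - ∂_μ Λ n × Rot(-Λ) V` and `n × Rot V = Rot (n × V)`.
* `gauge_solves`: apply it twice for the second covariant derivatives; `F` is invariant (`pd_comm`);
  the cross product and the dot product with `n` are compatible with rotations about `n`.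
-/

namespace H72GS

open Set
open scoped ContDiff

noncomputable section

/-- gauge transformation -/
def Config.gauge (c : Config) (Λ : Pt → ℝ) : Config where
  φ := fun p => Rot (-Λ p) (c.φ p)
  A := fun μ p => c.A μ p + pd μ Λ p

private theorem GaugeA_cos {Λ : Pt → ℝ} (hΛ : ContDiff ℝ ∞ Λ) (μ : Fin 3) (p : Pt) :
    pd μ (fun q => Real.cos (-Λ q)) p = Real.sin (-Λ p) * pd μ Λ p := by
  have h1 : HasFDerivAt Λ (fderiv ℝ Λ p) p :=
    ((hΛ.differentiable (by simp)) p).hasFDerivAt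
  have h2 := (h1.fun_neg).cos
  unfold pd
  rw [h2.fderiv]
  simp

private theorem GaugeA_sin {Λ : Pt → ℝ} (hΛ : ContDiff ℝ ∞ Λ) (μ : Fin 3) (p : Pt) :
    pd μ (fun q => Real.sin (-Λ q)) p = -(Real.cos (-Λ p) * pd μ Λ p) := by
  have h1 : HasFDerivAt Λ (fderiv ℝ Λ p) p :=
    ((hΛ.differentiable (by simp)) p).hasFDerivAt
  have h2 := (h1.fun_neg).sin
  unfold pd
  rw [h2.fderiv]
  simp

theorem gauge_D {c : Config} {Λ : Pt → ℝ} (hΛ : ContDiff ℝ ∞ Λ) {V : Pt → Fin 3 → ℝ}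
    (hV : ∀ i, ContDiff ℝ ∞ (fun p => V p i)) (μ : Fin 3) (p : Pt) :
    (c.gauge Λ).D μ (fun q => Rot (-Λ q) (V q)) p = Rot (-Λ p) (c.D μ V p) := by
  have hcos : ContDiff ℝ ∞ (fun q => Real.cos (-Λ q)) := hΛ.neg.cos
  have hsin : ContDiff ℝ ∞ (fun q => Real.sin (-Λ q)) := hΛ.neg.sin
  have e0 : (fun q => Rot (-Λ q) (V q) 0) =
      fun q => Real.cos (-Λ q) * V q 0 - Real.sin (-Λ q) * V q 1 := by
    funext q; simp [Rot]
  have e1 : (fun q => Rot (-Λ q) (V q) 1) =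
      fun q => Real.sin (-Λ q) * V q 0 + Real.cos (-Λ q) * V q 1 := by
    funext q; simp [Rot]
  have e2 : (fun q => Rot (-Λ q) (V q) 2) = fun q => V q 2 := by
    funext q; simp [Rot]
  have hA : (c.gauge Λ).A μ p = c.A μ p + pd μ Λ p := rfl
  funext i
  fin_cases i
  · change (c.gauge Λ).D μ (fun q => Rot (-Λ q) (V q)) p 0 = Rot (-Λ p) (c.D μ V p) 0
    rw [D_zero, e0, pd_sub (hcos.mul (hV 0)) (hsin.mul (hV 1)), pd_mul hcos (hV 0),
      pd_mul hsin (hV 1), GaugeA_cos hΛ, GaugeA_sin hΛ, hA]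
    have h1 : Rot (-Λ p) (V p) 1 = Real.sin (-Λ p) * V p 0 + Real.cos (-Λ p) * V p 1 := by
      simp [Rot]
    have h2 : Rot (-Λ p) (c.D μ V p) 0 =
        Real.cos (-Λ p) * c.D μ V p 0 - Real.sin (-Λ p) * c.D μ V p 1 := by
      simp [Rot]
    rw [h1, h2, D_zero, D_one]
    ring
  · change (c.gauge Λ).D μ (fun q => Rot (-Λ q) (V q)) p 1 = Rot (-Λ p) (c.D μ V p) 1
    rw [D_one, e1, pd_add (hsin.mul (hV 0)) (hcos.mul (hV 1)), pd_mul hsin (hV 0),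
      pd_mul hcos (hV 1), GaugeA_cos hΛ, GaugeA_sin hΛ, hA]
    have h1 : Rot (-Λ p) (V p) 0 = Real.cos (-Λ p) * V p 0 - Real.sin (-Λ p) * V p 1 := by
      simp [Rot]
    have h2 : Rot (-Λ p) (c.D μ V p) 1 =
        Real.sin (-Λ p) * c.D μ V p 0 + Real.cos (-Λ p) * c.D μ V p 1 := by
      simp [Rot]
    rw [h1, h2, D_zero, D_one]
    ring
  · change (c.gauge Λ).D μ (fun q => Rot (-Λ q) (V q)) p 2 = Rot (-Λ p) (c.D μ V p) 2
    rw [D_two, e2]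
    have h2 : Rot (-Λ p) (c.D μ V p) 2 = c.D μ V p 2 := by simp [Rot]
    rw [h2, D_two]

theorem gauge_F {c : Config} {Λ : Pt → ℝ} (hΛ : ContDiff ℝ ∞ Λ) (hA : ∀ μ, ContDiff ℝ ∞ (c.A μ))
    (μ ν : Fin 3) (p : Pt) : (c.gauge Λ).F μ ν p = c.F μ ν p := by
  unfold Config.F
  have h1 : ∀ α, (c.gauge Λ).A α = fun q => c.A α q + pd α Λ q := fun α => rfl
  rw [h1, h1, pd_add (hA ν) (pd_smooth hΛ ν), pd_add (hA μ) (pd_smooth hΛ μ), pd_comm hΛ μ ν]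
  ring

private theorem GaugeA_D_smooth {c : Config} (hφ : ∀ i, ContDiff ℝ ∞ (fun p => c.φ p i))
    (hA : ∀ μ, ContDiff ℝ ∞ (c.A μ)) (μ i : Fin 3) :
    ContDiff ℝ ∞ (fun p => c.D μ c.φ p i) := by
  fin_cases i
  · change ContDiff ℝ ∞ (fun p => c.D μ c.φ p 0)
    simp only [D_zero]
    exact (pd_smooth (hφ 0) μ).sub ((hA μ).mul (hφ 1))
  · change ContDiff ℝ ∞ (fun p => c.D μ c.φ p 1)
    simp only [D_one]
    exact (pd_smooth (hφ 1) μ).add ((hA μ).mul (hφ 0))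
  · change ContDiff ℝ ∞ (fun p => c.D μ c.φ p 2)
    simp only [D_two]
    exact pd_smooth (hφ 2) μ

private theorem GaugeA_Rot_dot (θ : ℝ) (V : Fin 3 → ℝ) :
    dotProduct (Rot θ V) (Rot θ V) = dotProduct V V := by
  have h0 : Rot θ V 0 = Real.cos θ * V 0 - Real.sin θ * V 1 := by simp [Rot]
  have h1 : Rot θ V 1 = Real.sin θ * V 0 + Real.cos θ * V 1 := by simp [Rot]
  have h2 : Rot θ V 2 = V 2 := by simp [Rot]
  simp only [dotProduct, Fin.sum_univ_three, h0, h1, h2]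
  have := Real.sin_sq_add_cos_sq θ
  linear_combination (V 0 * V 0 + V 1 * V 1) * this

private theorem GaugeA_Rot_nn_dot (θ : ℝ) (V : Fin 3 → ℝ) :
    dotProduct nn (Rot θ V) = dotProduct nn V := by
  rw [nn_dot, nn_dot]
  simp [Rot]

private theorem GaugeA_Rot_cross (θ : ℝ) (V W : Fin 3 → ℝ) :
    crossProduct (Rot θ V) (Rot θ W) = Rot θ (crossProduct V W) := by
  have := Real.sin_sq_add_cos_sq θ
  rw [cross_apply, cross_apply]
  funext i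
  fin_cases i
  · simp [Rot]; ring
  · simp [Rot]; ring
  · simp [Rot]
    linear_combination (V 0 * W 1 - V 1 * W 0) * this

private theorem GaugeA_Rot_lin (θ : ℝ) (a b d x : ℝ) (U V W : Fin 3 → ℝ) :
    a • Rot θ U + b • Rot θ V + d • Rot θ W - x • nn =
      Rot θ (a • U + b • V + d • W - x • nn) := by
  funext i
  fin_cases i
  · simp [Rot, nn]; ring
  · simp [Rot, nn]; ring
  · simp [Rot, nn]

private theorem GaugeA_Rot_zero (θ : ℝ) : Rot θ 0 = 0 := by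
  funext i
  fin_cases i <;> simp [Rot]

theorem gauge_solves {c : Config} {Λ : Pt → ℝ} (hΛ : ContDiff ℝ ∞ Λ)
    (hφ : ∀ i, ContDiff ℝ ∞ (fun p => c.φ p i)) (hA : ∀ μ, ContDiff ℝ ∞ (c.A μ)) {p : Pt}
    (h : c.SolvesAt p) : (c.gauge Λ).SolvesAt p := by
  have hφ' : (c.gauge Λ).φ = fun q => Rot (-Λ q) (c.φ q) := rfl
  have hD : ∀ μ, (c.gauge Λ).D μ (c.gauge Λ).φ = fun q => Rot (-Λ q) (c.D μ c.φ q) := by
    intro μ
    funext q
    rw [hφ']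
    exact gauge_D hΛ hφ μ q
  have hDD : ∀ μ, (c.gauge Λ).D μ ((c.gauge Λ).D μ (c.gauge Λ).φ) p =
      Rot (-Λ p) (c.D μ (c.D μ c.φ) p) := by
    intro μ
    rw [hD]
    exact gauge_D hΛ (fun i => GaugeA_D_smooth hφ hA μ i) μ p
  have hF : ∀ μ ν, (c.gauge Λ).F μ ν = c.F μ ν := fun μ ν => funext fun q => gauge_F hΛ hA μ ν q
  refine ⟨?_, ?_, ?_⟩
  · rw [hφ', GaugeA_Rot_dot]
    exact h.sphere
  · have h1 := h.phiEq
    have hφp : (c.gauge Λ).φ p = Rot (-Λ p) (c.φ p) := rfl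
    rw [Fin.sum_univ_three] at h1 ⊢
    rw [hDD, hDD, hDD, hφp, GaugeA_Rot_nn_dot, GaugeA_Rot_lin, GaugeA_Rot_cross, h1,
      GaugeA_Rot_zero]
  · intro μ
    have hφp : (c.gauge Λ).φ p = Rot (-Λ p) (c.φ p) := rfl
    simp only [hF, hφp, hD, GaugeA_Rot_cross, GaugeA_Rot_nn_dot]
    exact h.maxwell μ

end

end H72GS
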