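import Mathlib

/-!
# Gen: generic lemmas (damped linear ODEs, continuous induction, Cauchy-Schwarz)

Proof sketches.
* `damp_fwd`: for `δ > 0` the function `x ↦ √(v² + δ²) - ∫_{x0}^x |s|` has derivative
  `v v' / √(v²+δ²) - |s| ≤ 0` (as `v v' = - c v² + v s ≤ |v| |s|`), so it is antitone; let `δ → 0`.
  `damp_bwd` is the same backwards.
* `cont_ind`: first point where `h = c` (or `IsClosed.Icc_subset_of_forall_mem_nhdsWithin`).
* `cs`: discriminant, or the integral of `(∫v²·|u| - ∫|u||v|·|v|)²`, or `inner_mul_le_norm_mul_norm`.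
* `pw3`: Cauchy-Schwarz with `s³|G| = s^{5/2} · s^{1/2}|G|`, `∫ s⁵ ≤ x1⁶ / 6`; `pwm3`: `∫ s⁻⁷ ≤ x0⁻⁶/6`;
  `pwlog`: `∫_{x0}^{x1} 1/s ≤ log 2 ≤ 1`.
-/

namespace H72GS

open Set MeasureTheory intervalIntegral

theorem damp_fwd {v c s : ℝ → ℝ} {x0 x1 : ℝ} (h01 : x0 ≤ x1)
    (hv : ∀ x ∈ Icc x0 x1, HasDerivAt v (-(c x) * v x + s x) x)
    (hc : ∀ x ∈ Icc x0 x1, 0 ≤ c x) (hs : ContinuousOn s (Icc x0 x1)) :
    |v x1| ≤ |v x0| + ∫ x in x0..x1, |s x| := by
  set S : ℝ → ℝ := fun x => |s (max x0 (min x x1))| with hS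
  have hSc : Continuous S := by
    apply Continuous.abs
    refine hs.comp_continuous (by fun_prop) (fun x => ⟨le_max_left _ _, ?_⟩)
    exact max_le h01 (min_le_right _ _)
  have hSe : ∀ x ∈ Icc x0 x1, S x = |s x| := by
    intro x hx
    simp only [hS]
    rw [min_eq_left hx.2, max_eq_right hx.1]
  have hint : ∫ x in x0..x1, |s x| = ∫ x in x0..x1, S x := by
    apply intervalIntegral.integral_congr
    intro x hx
    rw [uIcc_of_le h01] at hx
    exact (hSe x hx).symm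
  rw [hint]
  apply le_of_forall_pos_le_add
  intro δ hδ
  have hpos : ∀ x, 0 < v x ^ 2 + δ ^ 2 := fun x => by positivity
  set F : ℝ → ℝ := fun x => Real.sqrt (v x ^ 2 + δ ^ 2) - ∫ t in x0..x, S t with hF
  have hFd : ∀ x ∈ Icc x0 x1, HasDerivAt F
      ((2 * v x * (-(c x) * v x + s x)) / (2 * Real.sqrt (v x ^ 2 + δ ^ 2)) - S x) x := by
    intro x hx
    have h1 : HasDerivAt (fun x => v x ^ 2 + δ ^ 2) (2 * v x * (-(c x) * v x + s x)) x := by
      have h2 := ((hv x hx).pow 2).add_const (δ ^ 2)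
      refine h2.congr_deriv ?_
      simp
    have h3 := h1.sqrt (hpos x).ne'
    exact h3.sub (hSc.integral_hasStrictDerivAt x0 x).hasDerivAt
  have hanti : AntitoneOn F (Icc x0 x1) := by
    apply antitoneOn_of_deriv_nonpos (convex_Icc x0 x1)
    · exact fun x hx => (hFd x hx).continuousAt.continuousWithinAt
    · exact fun x hx => (hFd x (interior_subset hx)).differentiableAt.differentiableWithinAt
    · intro x hx
      have hx' := interior_subset hx
      rw [(hFd x hx').deriv, hSe x hx', sub_nonpos]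
      have h4 : 0 < Real.sqrt (v x ^ 2 + δ ^ 2) := Real.sqrt_pos.2 (hpos x)
      rw [div_le_iff₀ (by positivity)]
      have h5 : |v x| ≤ Real.sqrt (v x ^ 2 + δ ^ 2) := by
        rw [← Real.sqrt_sq_eq_abs]
        exact Real.sqrt_le_sqrt (by nlinarith [sq_nonneg δ])
      have h6 : v x * s x ≤ |v x| * |s x| := by
        rw [← abs_mul]; exact le_abs_self _
      have h7 : |v x| * |s x| ≤ Real.sqrt (v x ^ 2 + δ ^ 2) * |s x| :=
        mul_le_mul_of_nonneg_right h5 (abs_nonneg _)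
      have h8 : 0 ≤ c x * v x ^ 2 := mul_nonneg (hc x hx') (sq_nonneg _)
      nlinarith
  have h9 := hanti (left_mem_Icc.2 h01) (right_mem_Icc.2 h01) h01
  simp only [hF, intervalIntegral.integral_same, sub_zero] at h9
  have h10 : |v x1| ≤ Real.sqrt (v x1 ^ 2 + δ ^ 2) := by
    rw [← Real.sqrt_sq_eq_abs]
    exact Real.sqrt_le_sqrt (by nlinarith [sq_nonneg δ])
  have h11 : Real.sqrt (v x0 ^ 2 + δ ^ 2) ≤ |v x0| + δ := by
    rw [Real.sqrt_le_left (by positivity)]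
    nlinarith [sq_abs (v x0), abs_nonneg (v x0), mul_nonneg (abs_nonneg (v x0)) hδ.le]
  linarith

theorem damp_bwd {v c s : ℝ → ℝ} {x0 x1 : ℝ} (h01 : x0 ≤ x1)
    (hv : ∀ x ∈ Icc x0 x1, HasDerivAt v (c x * v x + s x) x)
    (hc : ∀ x ∈ Icc x0 x1, 0 ≤ c x) (hs : ContinuousOn s (Icc x0 x1)) :
    |v x0| ≤ |v x1| + ∫ x in x0..x1, |s x| := by
  have hm : ∀ x ∈ Icc (-x1) (-x0), -x ∈ Icc x0 x1 := fun x hx =>
    ⟨by linarith [hx.2], by linarith [hx.1]⟩
  have h := damp_fwd (v := fun x => v (-x)) (c := fun x => c (-x)) (s := fun x => -s (-x))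
    (x0 := -x1) (x1 := -x0) (by linarith) ?_ ?_ ?_
  · simp only [neg_neg, abs_neg] at h
    have h2 := intervalIntegral.integral_comp_neg (a := -x1) (b := -x0) (fun x => |s x|)
    rw [neg_neg, neg_neg] at h2
    rw [← h2]
    exact h
  · intro x hx
    have h1 := (hv (-x) (hm x hx)).scomp x (hasDerivAt_neg x)
    refine h1.congr_deriv ?_
    simp only [smul_eq_mul]
    ring
  · exact fun x hx => hc _ (hm x hx)
  · exact (hs.comp continuous_neg.continuousOn hm).neg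

theorem cont_ind {h : ℝ → ℝ} {x0 x1 c : ℝ} (hh : ContinuousOn h (Icc x0 x1)) (h0 : h x0 < c)
    (hs : ∀ x ∈ Icc x0 x1, (∀ s ∈ Icc x0 x, h s ≤ c) → h x < c) :
    ∀ x ∈ Icc x0 x1, h x < c := by
  by_contra hcon
  push Not at hcon
  obtain ⟨x, hx, hxc⟩ := hcon
  have hcl : IsClosed (Icc x0 x1 ∩ h ⁻¹' (Ici c)) :=
    hh.preimage_isClosed_of_isClosed isClosed_Icc isClosed_Ici
  have hcp : IsCompact (Icc x0 x1 ∩ h ⁻¹' (Ici c)) :=
    isCompact_Icc.of_isClosed_subset hcl inter_subset_left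
  obtain ⟨m, hm, hml⟩ := hcp.exists_isLeast ⟨x, hx, hxc⟩
  have hlt : ∀ s ∈ Icc x0 m, s < m → h s < c := by
    intro s hs1 hsm
    by_contra hc2
    push Not at hc2
    have := hml ⟨⟨hs1.1, hsm.le.trans hm.1.2⟩, hc2⟩
    linarith
  have hmc : h m ≤ c := by
    by_contra hc2
    push Not at hc2
    have hsub : Icc x0 m ⊆ Icc x0 x1 := Icc_subset_Icc_right hm.1.2
    obtain ⟨z, hz, hzc⟩ := intermediate_value_Icc hm.1.1 (hh.mono hsub) ⟨h0.le, hc2.le⟩
    rcases hz.2.lt_or_eq with hzm | hzm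
    · exact absurd hzc (hlt z hz hzm).ne
    · rw [hzm] at hzc
      linarith
  have hfin := hs m hm.1 (fun s hs1 => by
    rcases hs1.2.lt_or_eq with h1 | h1
    · exact (hlt s hs1 h1).le
    · rw [h1]; exact hmc)
  have hge : c ≤ h m := hm.2
  linarith

theorem cont_ind_bwd {h : ℝ → ℝ} {x0 x1 c : ℝ} (hh : ContinuousOn h (Icc x0 x1)) (h1 : h x1 < c)
    (hs : ∀ x ∈ Icc x0 x1, (∀ s ∈ Icc x x1, h s ≤ c) → h x < c) :
    ∀ x ∈ Icc x0 x1, h x < c := by
  have hm : ∀ x ∈ Icc (-x1) (-x0), -x ∈ Icc x0 x1 := fun x hx =>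
    ⟨by linarith [hx.2], by linarith [hx.1]⟩
  have h2 := cont_ind (h := fun x => h (-x)) (x0 := -x1) (x1 := -x0) (c := c)
    (hh.comp continuous_neg.continuousOn hm) (by simpa using h1) (by
      intro x hx hall
      refine hs (-x) (hm x hx) (fun s hs1 => ?_)
      have := hall (-s) ⟨by linarith [hs1.2], by linarith [hs1.1]⟩
      simpa using this)
  intro x hx
  have := h2 (-x) ⟨by linarith [hx.2], by linarith [hx.1]⟩
  simpa using this

theorem cs {a b : ℝ} (hab : a ≤ b) {u v : ℝ → ℝ} (hu : ContinuousOn u (Icc a b))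
    (hv : ContinuousOn v (Icc a b)) :
    (∫ x in a..b, |u x| * |v x|) ^ 2 ≤ (∫ x in a..b, u x ^ 2) * (∫ x in a..b, v x ^ 2) := by
  have hA : IntervalIntegrable (fun x => u x ^ 2) volume a b :=
    (hu.pow 2).intervalIntegrable_of_Icc hab
  have hC : IntervalIntegrable (fun x => v x ^ 2) volume a b :=
    (hv.pow 2).intervalIntegrable_of_Icc hab
  have hB : IntervalIntegrable (fun x => |u x| * |v x|) volume a b :=
    (hu.abs.mul hv.abs).intervalIntegrable_of_Icc hab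
  have key : ∀ t : ℝ, 0 ≤ (∫ x in a..b, v x ^ 2) * (t * t) +
      (-2 * ∫ x in a..b, |u x| * |v x|) * t + ∫ x in a..b, u x ^ 2 := by
    intro t
    have h1 : ∫ x in a..b, (t * |v x| - |u x|) ^ 2 = (∫ x in a..b, v x ^ 2) * (t * t) +
        (-2 * ∫ x in a..b, |u x| * |v x|) * t + ∫ x in a..b, u x ^ 2 := by
      have h2 : ∀ x, (t * |v x| - |u x|) ^ 2 =
          (v x ^ 2 * (t * t) + (|u x| * |v x|) * (-2 * t)) + u x ^ 2 := by
        intro x
        have e1 := sq_abs (v x)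
        have e2 := sq_abs (u x)
        linear_combination (t * t) * e1 + e2
      simp only [h2]
      rw [intervalIntegral.integral_add ((hC.mul_const _).add (hB.mul_const _)) hA,
        intervalIntegral.integral_add (hC.mul_const _) (hB.mul_const _),
        intervalIntegral.integral_mul_const, intervalIntegral.integral_mul_const]
      ring
    rw [← h1]
    exact intervalIntegral.integral_nonneg hab (fun x _ => sq_nonneg _)
  have h3 := discrim_le_zero key
  unfold discrim at h3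
  nlinarith

/-- weighted Cauchy-Schwarz -/
theorem csr {a b : ℝ} (ha : 0 ≤ a) (hab : a ≤ b) {u v : ℝ → ℝ} (hu : ContinuousOn u (Icc a b))
    (hv : ContinuousOn v (Icc a b)) :
    ∫ r in a..b, r * (|u r| * |v r|) ≤
      Real.sqrt (∫ r in a..b, r * u r ^ 2) * Real.sqrt (∫ r in a..b, r * v r ^ 2) := by
  have hsq : ContinuousOn (fun r : ℝ => Real.sqrt r) (Icc a b) := Real.continuous_sqrt.continuousOn
  have h := cs hab (hsq.mul hu) (hsq.mul hv)
  have hr : ∀ r ∈ Icc a b, 0 ≤ r := fun r hr => ha.trans hr.1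
  have e1 : ∫ x in a..b, |Real.sqrt x * u x| * |Real.sqrt x * v x| =
      ∫ r in a..b, r * (|u r| * |v r|) := by
    apply intervalIntegral.integral_congr
    intro r hr1
    rw [uIcc_of_le hab] at hr1
    simp only [abs_mul, abs_of_nonneg (Real.sqrt_nonneg r)]
    have := Real.mul_self_sqrt (hr r hr1)
    linear_combination (|u r| * |v r|) * this
  have e2 : ∀ w : ℝ → ℝ, ∫ x in a..b, (Real.sqrt x * w x) ^ 2 = ∫ r in a..b, r * w r ^ 2 := by
    intro w
    apply intervalIntegral.integral_congr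
    intro r hr1
    rw [uIcc_of_le hab] at hr1
    simp only [mul_pow, Real.sq_sqrt (hr r hr1)]
  simp only [Pi.mul_apply] at h
  rw [e1, e2, e2] at h
  have hA : 0 ≤ ∫ r in a..b, r * u r ^ 2 := intervalIntegral.integral_nonneg hab
    (fun r hr1 => mul_nonneg (hr r hr1) (sq_nonneg _))
  rw [← Real.sqrt_mul hA]
  exact Real.le_sqrt_of_sq_le h

/-- the three weights -/
theorem Gen_weight {x0 x1 K : ℝ} (h0 : 0 < x0) (h01 : x0 ≤ x1) {G U : ℝ → ℝ}
    (hG : ContinuousOn G (Icc x0 x1)) (hU : ContinuousOn U (Icc x0 x1))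
    (hK : ∫ x in x0..x1, U x ^ 2 ≤ K) :
    ∫ x in x0..x1, |U x| * |Real.sqrt x * G x| ≤ Real.sqrt (K * ∫ s in x0..x1, s * G s ^ 2) := by
  have hsq : ContinuousOn (fun r : ℝ => Real.sqrt r) (Icc x0 x1) := Real.continuous_sqrt.continuousOn
  have h := cs h01 hU (hsq.mul hG)
  have e2 : ∫ x in x0..x1, (Real.sqrt x * G x) ^ 2 = ∫ r in x0..x1, r * G r ^ 2 := by
    apply intervalIntegral.integral_congr
    intro r hr1
    rw [uIcc_of_le h01] at hr1
    simp only [mul_pow, Real.sq_sqrt (h0.le.trans hr1.1)]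
  simp only [Pi.mul_apply] at h
  rw [e2] at h
  have hA : 0 ≤ ∫ r in x0..x1, r * G r ^ 2 := intervalIntegral.integral_nonneg h01
    (fun r hr1 => mul_nonneg (h0.le.trans hr1.1) (sq_nonneg _))
  exact Real.le_sqrt_of_sq_le (h.trans (mul_le_mul_of_nonneg_right hK hA))

theorem pw3 {x0 x1 : ℝ} (h0 : 0 < x0) (h01 : x0 ≤ x1) {G : ℝ → ℝ}
    (hG : ContinuousOn G (Icc x0 x1)) :
    ∫ s in x0..x1, s ^ 3 * |G s| ≤ x1 ^ 3 * Real.sqrt ((∫ s in x0..x1, s * G s ^ 2) / 6) := by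
  have hx1 : 0 < x1 := h0.trans_le h01
  have hU : ContinuousOn (fun x : ℝ => Real.sqrt x * x ^ 2) (Icc x0 x1) :=
    (Real.continuous_sqrt.mul (continuous_pow 2)).continuousOn
  have hK : ∫ x in x0..x1, (Real.sqrt x * x ^ 2) ^ 2 ≤ x1 ^ 6 / 6 := by
    have e1 : ∫ x in x0..x1, (Real.sqrt x * x ^ 2) ^ 2 = ∫ x in x0..x1, x ^ 5 := by
      apply intervalIntegral.integral_congr
      intro r hr1
      rw [uIcc_of_le h01] at hr1
      simp only [mul_pow, Real.sq_sqrt (h0.le.trans hr1.1)]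
      ring
    rw [e1, integral_pow]
    have : 0 ≤ x0 ^ 6 := by positivity
    norm_num
    linarith
  have h := Gen_weight h0 h01 hG hU hK
  have e3 : ∫ x in x0..x1, |Real.sqrt x * x ^ 2| * |Real.sqrt x * G x| =
      ∫ s in x0..x1, s ^ 3 * |G s| := by
    apply intervalIntegral.integral_congr
    intro r hr1
    rw [uIcc_of_le h01] at hr1
    simp only [abs_mul, abs_of_nonneg (Real.sqrt_nonneg r), abs_pow, sq_abs]
    have := Real.mul_self_sqrt (h0.le.trans hr1.1)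
    linear_combination (r ^ 2 * |G r|) * this
  rw [e3] at h
  refine h.trans (le_of_eq ?_)
  rw [show x1 ^ 6 / 6 * ∫ s in x0..x1, s * G s ^ 2 =
    (x1 ^ 3) ^ 2 * ((∫ s in x0..x1, s * G s ^ 2) / 6) by ring,
    Real.sqrt_mul (sq_nonneg _), Real.sqrt_sq (by positivity)]

theorem pwm3 {x0 x1 : ℝ} (h0 : 0 < x0) (h01 : x0 ≤ x1) {G : ℝ → ℝ}
    (hG : ContinuousOn G (Icc x0 x1)) :
    ∫ s in x0..x1, |G s| / s ^ 3 ≤
      1 / x0 ^ 3 * Real.sqrt ((∫ s in x0..x1, s * G s ^ 2) / 6) := by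
  have hx1 : 0 < x1 := h0.trans_le h01
  have hpos : ∀ x ∈ Icc x0 x1, 0 < x := fun x hx => h0.trans_le hx.1
  have hU : ContinuousOn (fun x : ℝ => (Real.sqrt x * x ^ 3)⁻¹) (Icc x0 x1) := by
    apply ContinuousOn.inv₀ (Real.continuous_sqrt.mul (continuous_pow 3)).continuousOn
    intro x hx
    have h1 := hpos x hx
    have h2 := Real.sqrt_pos.2 h1
    exact (mul_pos h2 (pow_pos h1 3)).ne'
  have hK : ∫ x in x0..x1, ((Real.sqrt x * x ^ 3)⁻¹) ^ 2 ≤ (1 / x0 ^ 6) / 6 := by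
    have e1 : ∫ x in x0..x1, ((Real.sqrt x * x ^ 3)⁻¹) ^ 2 = ∫ x in x0..x1, x ^ (-7 : ℤ) := by
      apply intervalIntegral.integral_congr
      intro r hr1
      rw [uIcc_of_le h01] at hr1
      have h1 := hpos r hr1
      simp only [inv_pow, mul_pow, Real.sq_sqrt h1.le]
      rw [show (-7 : ℤ) = -((7 : ℕ) : ℤ) by norm_num, zpow_neg, zpow_natCast]
      congr 1
      ring
    have hnot : (0 : ℝ) ∉ uIcc x0 x1 := by
      rw [uIcc_of_le h01]
      exact fun h => absurd h.1 (not_le.2 h0)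
    rw [e1, integral_zpow (Or.inr ⟨by norm_num, hnot⟩)]
    norm_num
    have h4 : (0 : ℝ) ≤ (x1 ^ 6)⁻¹ := by positivity
    linarith
  have h := Gen_weight h0 h01 hG hU hK
  have e3 : ∫ x in x0..x1, |(Real.sqrt x * x ^ 3)⁻¹| * |Real.sqrt x * G x| =
      ∫ s in x0..x1, |G s| / s ^ 3 := by
    apply intervalIntegral.integral_congr
    intro r hr1
    rw [uIcc_of_le h01] at hr1
    have h1 := hpos r hr1
    have h2 := Real.sqrt_pos.2 h1
    simp only [abs_mul, abs_inv, abs_of_pos h2, abs_of_pos (pow_pos h1 3)]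
    field_simp
  rw [e3] at h
  refine h.trans (le_of_eq ?_)
  rw [show 1 / x0 ^ 6 / 6 * ∫ s in x0..x1, s * G s ^ 2 =
    (1 / x0 ^ 3) ^ 2 * ((∫ s in x0..x1, s * G s ^ 2) / 6) by ring,
    Real.sqrt_mul (sq_nonneg _), Real.sqrt_sq (by positivity)]

theorem pwlog {x0 x1 : ℝ} (h0 : 0 < x0) (h01 : x0 ≤ x1) (h2 : x1 ≤ 2 * x0) {G : ℝ → ℝ}
    (hG : ContinuousOn G (Icc x0 x1)) :
    ∫ s in x0..x1, |G s| ≤ Real.sqrt (∫ s in x0..x1, s * G s ^ 2) := by
  have hx1 : 0 < x1 := h0.trans_le h01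
  have hpos : ∀ x ∈ Icc x0 x1, 0 < x := fun x hx => h0.trans_le hx.1
  have hU : ContinuousOn (fun x : ℝ => (Real.sqrt x)⁻¹) (Icc x0 x1) := by
    apply ContinuousOn.inv₀ Real.continuous_sqrt.continuousOn
    intro x hx
    exact (Real.sqrt_pos.2 (hpos x hx)).ne'
  have hK : ∫ x in x0..x1, ((Real.sqrt x)⁻¹) ^ 2 ≤ 1 := by
    have e1 : ∫ x in x0..x1, ((Real.sqrt x)⁻¹) ^ 2 = ∫ x in x0..x1, x⁻¹ := by
      apply intervalIntegral.integral_congr
      intro r hr1
      rw [uIcc_of_le h01] at hr1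
      simp only [inv_pow, Real.sq_sqrt (hpos r hr1).le]
    rw [e1, integral_inv_of_pos h0 hx1]
    have h3 : x1 / x0 ≤ 2 := by rw [div_le_iff₀ h0]; exact h2
    calc Real.log (x1 / x0) ≤ x1 / x0 - 1 := Real.log_le_sub_one_of_pos (by positivity)
      _ ≤ 1 := by linarith
  have h := Gen_weight h0 h01 hG hU hK
  have e3 : ∫ x in x0..x1, |(Real.sqrt x)⁻¹| * |Real.sqrt x * G x| = ∫ s in x0..x1, |G s| := by
    apply intervalIntegral.integral_congr
    intro r hr1
    rw [uIcc_of_le h01] at hr1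
    have h1 := Real.sqrt_pos.2 (hpos r hr1)
    simp only [abs_mul, abs_inv, abs_of_pos h1]
    field_simp
  rw [e3, one_mul] at h
  exact h

/-- monotonicity in the domain for nonnegative continuous integrands -/
theorem int_mono_set {a b c d : ℝ} (h1 : a ≤ c) (h2 : c ≤ d) (h3 : d ≤ b) {u : ℝ → ℝ}
    (hu : ContinuousOn u (Icc a b)) (h0 : ∀ x ∈ Icc a b, 0 ≤ u x) :
    ∫ x in c..d, u x ≤ ∫ x in a..b, u x := by
  have hab : a ≤ b := h1.trans (h2.trans h3)
  apply intervalIntegral.integral_mono_interval h1 h2 h3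
  · rw [Filter.EventuallyLE, ae_restrict_iff' measurableSet_Ioc]
    exact Filter.Eventually.of_forall fun x hx => h0 x ⟨hx.1.le, hx.2⟩
  · exact hu.intervalIntegrable_of_Icc hab

end H72GS
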