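import Pool.Agent.H72.GS.SuppD
import Pool.Agent.H72.GS.DataA

/-!
# InitA: the functions of `Rad` at time `0`

For `r > 0`: with `κ(r) = kap (r²)`, `sin f = 2 κ ell r⁴/(r⁸ + κ² ell²)`,
`cos f = (r⁸ - κ² ell²)/(r⁸ + κ² ell²)`; `f_r = cos f (sin f)_r - sin f (cos f)_r`, and
`w = f_r + 4 sin f / r = 2 κ' ell r⁴/(r⁸ + κ² ell²)` (`al = 0` at `t = 0`), `κ' = 2 r kap'(r²)`.
`w_t = -4 om0 cos f w` (`w = f_r + μ sin f / r`, `g = -4 om0 sin f`, `e = 0`), `y = 1 - cos f`,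
`y_t = g sin f = -4 om0 sin² f`, `y_r = sin f f_r`.
`kap'` is supported in `ρ ∈ [R00²/2, R00²]`, where `r ≥ 1/3000`, so
`|w| ≤ C ell`, `|w_r| ≤ C ell`, `|w1| ≤ C ell` with `C` independent of `ell ∈ (0,1]` (compactness:
`kap'`, `kap''` are bounded there, denominator `≥ r⁸ ≥ 3000⁻⁸`).
`init_sin`: `F = κ ell / r⁴`, `sin f = 2F/(1+F²) ≤ 2F`, `1 - cos f = 2F²/(1+F²) ≤ 2F²`, and for
`r ≤ 1/3000` (`κ = 1`) also `sin f ≤ 2/F`.
-/

namespace H72GS

open Set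

/-- hypotheses on the initial values -/
structure RadInit {T : ℝ} (R : Rad T R00) (om0 ell : ℝ) : Prop where
  hsin : ∀ r, 0 ≤ r → Real.sin (R.f 0 r) = dphi ell r 0 0
  hcos : ∀ r, 0 ≤ r → Real.cos (R.f 0 r) = dphi ell r 0 2
  hg : ∀ r, R.g 0 r = -4 * om0 * Real.sin (R.f 0 r)

variable {T om0 ell : ℝ} {R : Rad T R00}

/-! ### auxiliary facts -/

theorem InitA_s_smooth (R : Rad T R00) : Sm R.s := R.sf.sin
theorem InitA_c_smooth (R : Rad T R00) : Sm R.c := R.sf.cos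
theorem InitA_S1_smooth (R : Rad T R00) : Sm R.S1 := (InitA_s_smooth R).Q
theorem InitA_mu_smooth (R : Rad T R00) : Sm R.mu := (Sm.const 4).add (Sm.idr.mul R.sal)
theorem InitA_w_smooth (R : Rad T R00) : Sm R.w :=
  R.sf.dr.add ((InitA_mu_smooth R).mul (InitA_S1_smooth R))

theorem InitA_S1 (R : Rad T R00) (t : ℝ) {r : ℝ} (hr : r ≠ 0) :
    R.S1 t r = Real.sin (R.f t r) / r := by
  have h0 : R.s t 0 = 0 := by
    unfold Rad.s
    rw [R.f0 t, Real.sin_pi]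
  have h1 := mul_Q (InitA_s_smooth R) h0 r
  rw [eq_div_iff hr, mul_comm]
  exact h1

theorem InitA_dral (R : Rad T R00) (r : ℝ) : dr R.al 0 r = 0 := by
  unfold dr
  have : (fun x => R.al 0 x) = fun _ => 0 := funext R.al_init
  rw [this]
  simp

theorem InitA_drdtal (R : Rad T R00) (r : ℝ) : dr (dt R.al) 0 r = 0 := by
  unfold dr
  have : (fun x => dt R.al 0 x) = fun _ => 0 := funext R.e_init
  rw [this]
  simp

theorem InitA_w0 (R : Rad T R00) {r : ℝ} (hr : r ≠ 0) :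
    R.w 0 r = dr R.f 0 r + 4 * Real.sin (R.f 0 r) / r := by
  unfold Rad.w Rad.mu
  rw [InitA_S1 R 0 hr, R.al_init]
  ring

theorem InitA_y0 (R : Rad T R00) (r : ℝ) : R.y 0 r = 1 - Real.cos (R.f 0 r) := by
  have h1 : R.al1 0 r = 0 := by
    unfold Rad.al1 Q
    simp only [InitA_dral]
    simp
  unfold Rad.y Rad.c
  rw [h1, InitA_dral]
  ring

theorem init_simple (h : RadInit R om0 ell) : (∀ r, R.al 0 r = 0) ∧ (∀ r, R.e 0 r = 0) ∧
    (∀ r, 0 ≤ r → R.y 0 r = 1 - Real.cos (R.f 0 r)) ∧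
    (∀ r, 0 ≤ r → dt R.w 0 r = -4 * om0 * Real.cos (R.f 0 r) * R.w 0 r) ∧
    (∀ r, 0 ≤ r → dt R.y 0 r = -4 * om0 * Real.sin (R.f 0 r) ^ 2) ∧
    (∀ r, 0 < r → dr R.y 0 r = Real.sin (R.f 0 r) * (R.w 0 r - 4 * Real.sin (R.f 0 r) / r)) := by
  refine ⟨R.al_init, R.e_init, fun r _ => InitA_y0 R r, ?_, ?_, ?_⟩
  · have hw := InitA_w_smooth R
    refine eq_of_pos (hw.dt.cont_r 0) ?_ ?_
    · exact (continuous_const.mul (Real.continuous_cos.comp (R.sf.cont_r 0))).mul (hw.cont_r 0)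
    · intro r hr
      have h1 : HasDerivAt (fun t => dr R.f t r) (dt (dr R.f) 0 r) 0 := R.sf.dr.hasDerivAt_t 0 r
      have h2 : HasDerivAt (fun t => R.mu t r) (r * dt R.al 0 r) 0 :=
        ((R.sal.hasDerivAt_t 0 r).const_mul r).const_add 4
      have h3 : HasDerivAt (fun t => R.S1 t r) (Real.cos (R.f 0 r) * dt R.f 0 r / r) 0 := by
        have h4 : (fun t => R.S1 t r) = fun t => Real.sin (R.f t r) / r :=
          funext fun t => InitA_S1 R t hr.ne'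
        rw [h4]
        exact ((R.sf.hasDerivAt_t 0 r).sin).div_const r
      have h4 : HasDerivAt (fun t => R.w t r) _ 0 := h1.add (h2.mul h3)
      have h5 : dt R.w 0 r = _ := h4.deriv
      rw [h5, R.sf.comm, R.e_init]
      have h6 : dr (dt R.f) 0 r = -4 * om0 * (Real.cos (R.f 0 r) * dr R.f 0 r) := by
        have h7 : (fun x => dt R.f 0 x) = fun x => -4 * om0 * Real.sin (R.f 0 x) := funext h.hg
        unfold dr
        rw [h7]
        exact (((R.sf.hasDerivAt_r 0 r).sin).const_mul (-4 * om0)).deriv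
      have h7 : dt R.f 0 r = -4 * om0 * Real.sin (R.f 0 r) := h.hg r
      have h8 : R.mu 0 r = 4 := by
        unfold Rad.mu
        rw [R.al_init]
        ring
      rw [h6, h7, h8, InitA_w0 R hr.ne']
      ring
  · intro r _
    have h1 : HasDerivAt (fun t => R.al1 t r) (dt R.al1 0 r) 0 := R.sal.Q.hasDerivAt_t 0 r
    have h2 : HasDerivAt (fun t => dr R.al t r) (dt (dr R.al) 0 r) 0 := R.sal.dr.hasDerivAt_t 0 r
    have h3 : HasDerivAt (fun t => R.c t r) (-Real.sin (R.f 0 r) * dt R.f 0 r) 0 :=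
      (R.sf.hasDerivAt_t 0 r).cos
    have h4 : HasDerivAt (fun t => R.y t r) _ 0 := ((h1.add h2).add_const 1).sub h3
    have h5 : dt R.y 0 r = _ := h4.deriv
    have h6 : dt R.al1 0 r = 0 := by
      unfold Rad.al1
      rw [dt_Q R.sal]
      unfold Q
      simp only [InitA_drdtal]
      simp
    have h7 : dt R.f 0 r = -4 * om0 * Real.sin (R.f 0 r) := h.hg r
    rw [h5, h6, R.sal.comm, InitA_drdtal, h7]
    ring
  · intro r hr
    have h1 : (fun x => R.y 0 x) = fun x => 1 - Real.cos (R.f 0 x) := funext (InitA_y0 R)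
    have h2 : dr R.y 0 r = Real.sin (R.f 0 r) * dr R.f 0 r := by
      unfold dr
      rw [h1]
      have h3 := ((R.sf.hasDerivAt_r 0 r).cos).const_sub 1
      rw [h3.deriv]
      unfold dr
      ring
    rw [h2, InitA_w0 R hr.ne']
    ring

theorem InitA_den {x : ℝ} : den ell (x ^ 2) = x ^ 8 + kap (x ^ 2) ^ 2 * ell ^ 2 := by
  unfold den
  ring

theorem InitA_sinf (h : RadInit R om0 ell) {x : ℝ} (hx : 0 ≤ x) :
    Real.sin (R.f 0 x) = 2 * kap (x ^ 2) * ell * x ^ 4 / (x ^ 8 + kap (x ^ 2) ^ 2 * ell ^ 2) := by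
  rw [h.hsin x hx, ← InitA_den]
  simp [dphi]

theorem InitA_cosf (h : RadInit R om0 ell) {x : ℝ} (hx : 0 ≤ x) :
    Real.cos (R.f 0 x) =
      (x ^ 8 - kap (x ^ 2) ^ 2 * ell ^ 2) / (x ^ 8 + kap (x ^ 2) ^ 2 * ell ^ 2) := by
  rw [h.hcos x hx, ← InitA_den]
  simp [dphi]
  ring

theorem InitA_Dpos {l x k : ℝ} (hx : 0 < x) : 0 < x ^ 8 + k ^ 2 * l ^ 2 := by positivity

theorem InitA_kd (x : ℝ) : HasDerivAt (fun x : ℝ => kap (x ^ 2)) (2 * x * deriv kap (x ^ 2)) x := by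
  have h1 : HasDerivAt kap (deriv kap (x ^ 2)) (x ^ 2) :=
    (kap_smooth.differentiable (by simp) _).hasDerivAt
  have h2 : HasDerivAt (fun x : ℝ => x ^ 2) (2 * x) x := by
    simpa using hasDerivAt_pow 2 x
  have h3 := HasDerivAt.comp (h := fun x : ℝ => x ^ 2) x h1 h2
  refine h3.congr_deriv ?_
  ring

theorem InitA_alg {k k' l r : ℝ} (hr : r ≠ 0) (hD : r ^ 8 + k ^ 2 * l ^ 2 ≠ 0) :
    (r ^ 8 - k ^ 2 * l ^ 2) / (r ^ 8 + k ^ 2 * l ^ 2) *
      (((2 * l * (k' * r ^ 4 + 4 * k * r ^ 3)) * (r ^ 8 + k ^ 2 * l ^ 2) -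
        (2 * k * l * r ^ 4) * (8 * r ^ 7 + 2 * k * k' * l ^ 2)) / (r ^ 8 + k ^ 2 * l ^ 2) ^ 2) -
      (2 * k * l * r ^ 4 / (r ^ 8 + k ^ 2 * l ^ 2)) *
      (((8 * r ^ 7 - 2 * k * k' * l ^ 2) * (r ^ 8 + k ^ 2 * l ^ 2) -
        (r ^ 8 - k ^ 2 * l ^ 2) * (8 * r ^ 7 + 2 * k * k' * l ^ 2)) /
          (r ^ 8 + k ^ 2 * l ^ 2) ^ 2) +
      4 * (2 * k * l * r ^ 4 / (r ^ 8 + k ^ 2 * l ^ 2)) / r =
      2 * k' * l * r ^ 4 / (r ^ 8 + k ^ 2 * l ^ 2) := by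
  field_simp
  ring

/-- the function `w(0,r)/ell` -/
noncomputable def InitA_G (l r : ℝ) : ℝ :=
  4 * r ^ 5 * deriv kap (r ^ 2) / (r ^ 8 + kap (r ^ 2) ^ 2 * l ^ 2)

theorem InitA_wG (h : RadInit R om0 ell) {r : ℝ} (hr : 0 < r) :
    R.w 0 r = ell * InitA_G ell r := by
  have hD : r ^ 8 + kap (r ^ 2) ^ 2 * ell ^ 2 ≠ 0 := (InitA_Dpos hr).ne'
  have hk := InitA_kd r
  have hnhds : ∀ᶠ x : ℝ in nhds r, 0 ≤ x := by
    filter_upwards [lt_mem_nhds hr] with x hx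
    exact le_of_lt hx
  have hden : HasDerivAt (fun x : ℝ => x ^ 8 + kap (x ^ 2) ^ 2 * ell ^ 2)
      (8 * r ^ 7 + 2 * kap (r ^ 2) * (2 * r * deriv kap (r ^ 2)) * ell ^ 2) r := by
    have h1 : HasDerivAt (fun x : ℝ => x ^ 8) (8 * r ^ 7) r := by
      simpa using hasDerivAt_pow 8 r
    have h2 := (hk.pow 2).mul_const (ell ^ 2)
    refine (h1.add h2).congr_deriv ?_
    norm_num
  have hx4 : HasDerivAt (fun x : ℝ => x ^ 4) (4 * r ^ 3) r := by
    simpa using hasDerivAt_pow 4 r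
  have hx8 : HasDerivAt (fun x : ℝ => x ^ 8) (8 * r ^ 7) r := by
    simpa using hasDerivAt_pow 8 r
  -- sine
  have hS1 : HasDerivAt (fun x => Real.sin (R.f 0 x)) (Real.cos (R.f 0 r) * dr R.f 0 r) r :=
    (R.sf.hasDerivAt_r 0 r).sin
  have hS2 : HasDerivAt (fun x => Real.sin (R.f 0 x))
      (((2 * ell * ((2 * r * deriv kap (r ^ 2)) * r ^ 4 + 4 * kap (r ^ 2) * r ^ 3)) *
        (r ^ 8 + kap (r ^ 2) ^ 2 * ell ^ 2) -
        (2 * kap (r ^ 2) * ell * r ^ 4) *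
          (8 * r ^ 7 + 2 * kap (r ^ 2) * (2 * r * deriv kap (r ^ 2)) * ell ^ 2)) /
        (r ^ 8 + kap (r ^ 2) ^ 2 * ell ^ 2) ^ 2) r := by
    have h1 := (((hk.const_mul 2).mul_const ell).mul hx4).div hden hD
    refine (h1.congr_deriv ?_).congr_of_eventuallyEq ?_
    · simp only [Pi.mul_apply]
      congr 1
      ring
    · filter_upwards [hnhds] with x hx
      exact InitA_sinf h hx
  have hC1 : HasDerivAt (fun x => Real.cos (R.f 0 x)) (-Real.sin (R.f 0 r) * dr R.f 0 r) r :=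
    (R.sf.hasDerivAt_r 0 r).cos
  have hC2 : HasDerivAt (fun x => Real.cos (R.f 0 x))
      (((8 * r ^ 7 - 2 * kap (r ^ 2) * (2 * r * deriv kap (r ^ 2)) * ell ^ 2) *
        (r ^ 8 + kap (r ^ 2) ^ 2 * ell ^ 2) -
        (r ^ 8 - kap (r ^ 2) ^ 2 * ell ^ 2) *
          (8 * r ^ 7 + 2 * kap (r ^ 2) * (2 * r * deriv kap (r ^ 2)) * ell ^ 2)) /
        (r ^ 8 + kap (r ^ 2) ^ 2 * ell ^ 2) ^ 2) r := by
    have h1 := (hx8.sub ((hk.pow 2).mul_const (ell ^ 2))).div hden hD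
    refine (h1.congr_deriv ?_).congr_of_eventuallyEq ?_
    · congr 1
      norm_num
    · filter_upwards [hnhds] with x hx
      exact InitA_cosf h hx
  have e1 := hS1.unique hS2
  have e2 := hC1.unique hC2
  have e3 : dr R.f 0 r = Real.cos (R.f 0 r) * (Real.cos (R.f 0 r) * dr R.f 0 r) -
      Real.sin (R.f 0 r) * (-Real.sin (R.f 0 r) * dr R.f 0 r) := by
    have := Real.sin_sq_add_cos_sq (R.f 0 r)
    linear_combination (-dr R.f 0 r) * this
  rw [e1, e2] at e3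
  rw [InitA_w0 R hr.ne', e3, InitA_sinf h hr.le, InitA_cosf h hr.le]
  have e4 := InitA_alg (k' := 2 * r * deriv kap (r ^ 2)) hr.ne' hD
  rw [e4]
  unfold InitA_G
  ring

theorem InitA_G_smooth {l r : ℝ} (hr : 0 < r) :
    ContDiffAt ℝ 1 (fun p : ℝ × ℝ => InitA_G p.1 p.2) (l, r) := by
  have hk : ContDiff ℝ 1 kap := kap_smooth.of_le (by simp)
  have hkd : ContDiff ℝ 1 (deriv kap) := ((contDiff_infty_iff_deriv.1 kap_smooth).2).of_le (by simp)
  unfold InitA_G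
  refine ContDiffAt.div ?_ ?_ (InitA_Dpos hr).ne'
  · exact (ContDiff.mul (by fun_prop) (hkd.comp (by fun_prop))).contDiffAt
  · refine ContDiff.contDiffAt ?_
    exact ContDiff.add (by fun_prop) (ContDiff.mul ((hk.comp (by fun_prop)).pow 2) (by fun_prop))

theorem InitA_kd_small {ρ : ℝ} (h : ρ < R00 ^ 2 / 2) : deriv kap ρ = 0 := by
  have h1 : kap =ᶠ[nhds ρ] fun _ => 1 := by
    filter_upwards [gt_mem_nhds h] with x hx
    exact kap_one (le_of_lt hx)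
  rw [h1.deriv_eq]
  simp

theorem InitA_kd_large {ρ : ℝ} (h : R00 ^ 2 < ρ) : deriv kap ρ = 0 := by
  have h1 : kap =ᶠ[nhds ρ] fun _ => 0 := by
    filter_upwards [lt_mem_nhds h] with x hx
    exact kap_zero (le_of_lt hx)
  rw [h1.deriv_eq]
  simp

theorem InitA_w_small (h : RadInit R om0 ell) {r : ℝ} (hr : 0 < r) (hr2 : r < 1 / 2900) :
    R.w 0 r = 0 := by
  rw [InitA_wG h hr]
  unfold InitA_G
  rw [InitA_kd_small]
  · simp
  · have : r ^ 2 < (1 / 2900) ^ 2 := by gcongr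
    unfold R00
    norm_num at this ⊢
    linarith

theorem InitA_w_large (h : RadInit R om0 ell) {r : ℝ} (hr2 : 1 / 1500 < r) :
    R.w 0 r = 0 := by
  have hr : 0 < r := by
    have : (0 : ℝ) < 1 / 1500 := by norm_num
    linarith
  rw [InitA_wG h hr]
  unfold InitA_G
  rw [InitA_kd_large]
  · simp
  · have : (1 / 1500 : ℝ) ^ 2 < r ^ 2 := by gcongr
    unfold R00
    norm_num at this ⊢
    linarith

theorem InitA_closure {F : ℝ → ℝ} (hF : Continuous F) (h : ∀ r, 0 < r → r < 1 / 2900 → F r = 0) :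
    ∀ r, 0 ≤ r → r ≤ 1 / 3000 → F r = 0 := by
  intro r h0 h1
  have h2 : EqOn F (fun _ => 0) (Ioo 0 (1 / 2900)) := fun x hx => h x hx.1 hx.2
  have h3 := h2.closure hF continuous_const
  rw [closure_Ioo (by norm_num)] at h3
  exact h3 ⟨h0, h1.trans (by norm_num)⟩

/-- `w(0,·)` is `O(ell)` with two derivatives, supported away from `0`;
the constant does not depend on `R, om0, ell` -/
theorem init_w : ∃ C, 0 < C ∧ ∀ (T om0 ell : ℝ) (R : Rad T R00), 0 < ell → ell ≤ 1 →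
    RadInit R om0 ell → ∀ r, 0 ≤ r →
      |R.w 0 r| ≤ C * ell ∧ |dr R.w 0 r| ≤ C * ell ∧ |R.w1 0 r| ≤ C * ell ∧
      (r ≤ 1 / 3000 → R.w 0 r = 0 ∧ dr R.w 0 r = 0) := by
  have hK : IsCompact (Icc (0 : ℝ) 1 ×ˢ Icc (1 / 3000 : ℝ) (1 / 1000)) :=
    isCompact_Icc.prod isCompact_Icc
  have hpos : ∀ p ∈ Icc (0 : ℝ) 1 ×ˢ Icc (1 / 3000 : ℝ) (1 / 1000), 0 < p.2 := by
    intro p hp
    have h1 := hp.2.1
    have h2 : (0 : ℝ) < 1 / 3000 := by norm_num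
    linarith
  have hc1 : ContinuousOn (fun p : ℝ × ℝ => InitA_G p.1 p.2)
      (Icc (0 : ℝ) 1 ×ˢ Icc (1 / 3000 : ℝ) (1 / 1000)) := fun p hp =>
    (InitA_G_smooth (hpos p hp)).continuousAt.continuousWithinAt
  have hc2 : ContinuousOn (fun p : ℝ × ℝ => fderiv ℝ (fun p : ℝ × ℝ => InitA_G p.1 p.2) p (0, 1))
      (Icc (0 : ℝ) 1 ×ˢ Icc (1 / 3000 : ℝ) (1 / 1000)) := by
    intro p hp
    have h1 : ContinuousAt (fderiv ℝ (fun p : ℝ × ℝ => InitA_G p.1 p.2)) p :=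
      (InitA_G_smooth (l := p.1) (hpos p hp)).continuousAt_fderiv (by norm_num)
    exact (h1.clm_apply continuousAt_const).continuousWithinAt
  obtain ⟨C1, hC1⟩ := hK.exists_bound_of_continuousOn hc1
  obtain ⟨C2, hC2⟩ := hK.exists_bound_of_continuousOn hc2
  have hmem : ((0 : ℝ), (1 / 3000 : ℝ)) ∈ Icc (0 : ℝ) 1 ×ˢ Icc (1 / 3000 : ℝ) (1 / 1000) := by
    constructor <;> constructor <;> norm_num
  have hC10 : 0 ≤ C1 := (norm_nonneg _).trans (hC1 _ hmem)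
  have hC20 : 0 ≤ C2 := (norm_nonneg _).trans (hC2 _ hmem)
  refine ⟨3000 * C1 + C2 + 1, by positivity, ?_⟩
  intro T om0 ell R hl hl1 h r hr
  have hw := InitA_w_smooth R
  -- vanishing near the origin
  have ha1 : ∀ r, 0 ≤ r → r ≤ 1 / 3000 → R.w 0 r = 0 :=
    InitA_closure (hw.cont_r 0) fun r h1 h2 => InitA_w_small h h1 h2
  have ha2 : ∀ r, 0 ≤ r → r ≤ 1 / 3000 → dr R.w 0 r = 0 := by
    refine InitA_closure (hw.dr.cont_r 0) fun r h1 h2 => ?_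
    have h3 : (fun x => R.w 0 x) =ᶠ[nhds r] fun _ => 0 := by
      filter_upwards [lt_mem_nhds h1, gt_mem_nhds h2] with x hx1 hx2
      exact InitA_w_small h hx1 hx2
    unfold dr
    rw [h3.deriv_eq]
    simp
  have hw00 : R.w 0 0 = 0 := ha1 0 le_rfl (by norm_num)
  have hw1 : ∀ r, r * R.w1 0 r = R.w 0 r := fun r => mul_Q hw hw00 r
  have ha3 : ∀ r, 0 ≤ r → r ≤ 1 / 3000 → R.w1 0 r = 0 := by
    refine InitA_closure (hw.Q.cont_r 0) fun r h1 h2 => ?_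
    have h3 := hw1 r
    rw [InitA_w_small h h1 h2] at h3
    exact (mul_eq_zero.1 h3).resolve_left h1.ne'
  have hCell : 0 ≤ (3000 * C1 + C2 + 1) * ell := by positivity
  rcases le_or_gt r (1 / 3000) with hr1 | hr1
  · rw [ha1 r hr hr1, ha2 r hr hr1, ha3 r hr hr1, abs_zero]
    exact ⟨hCell, hCell, hCell, fun _ => ⟨rfl, rfl⟩⟩
  have hr0 : 0 < r := lt_trans (by norm_num) hr1
  rcases le_or_gt r (1 / 1000) with hr2 | hr2
  · have hm : (ell, r) ∈ Icc (0 : ℝ) 1 ×ˢ Icc (1 / 3000 : ℝ) (1 / 1000) :=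
      ⟨⟨hl.le, hl1⟩, ⟨hr1.le, hr2⟩⟩
    have b1 := hC1 _ hm
    have b2 := hC2 _ hm
    rw [Real.norm_eq_abs] at b1 b2
    simp only at b1
    have e1 : R.w 0 r = ell * InitA_G ell r := InitA_wG h hr0
    have e2 : dr R.w 0 r =
        ell * fderiv ℝ (fun p : ℝ × ℝ => InitA_G p.1 p.2) (ell, r) (0, 1) := by
      have h3 : (fun x => R.w 0 x) =ᶠ[nhds r] fun x => ell * InitA_G ell x := by
        filter_upwards [lt_mem_nhds hr0] with x hx1
        exact InitA_wG h hx1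
      unfold dr
      rw [h3.deriv_eq]
      have h4 : HasFDerivAt (fun p : ℝ × ℝ => InitA_G p.1 p.2)
          (fderiv ℝ (fun p : ℝ × ℝ => InitA_G p.1 p.2) (ell, r)) (ell, r) :=
        ((InitA_G_smooth hr0).differentiableAt (by norm_num)).hasFDerivAt
      have h5 : HasDerivAt (fun x : ℝ => (ell, x)) ((0 : ℝ), (1 : ℝ)) r :=
        (hasDerivAt_const _ _).prodMk (hasDerivAt_id r)
      exact ((h4.comp_hasDerivAt r h5).const_mul ell).deriv
    have f1 : |R.w 0 r| ≤ C1 * ell := by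
      rw [e1, abs_mul, abs_of_pos hl, mul_comm]
      gcongr
    have f2 : |dr R.w 0 r| ≤ C2 * ell := by
      rw [e2, abs_mul, abs_of_pos hl, mul_comm]
      gcongr
    have f3 : |R.w1 0 r| ≤ 3000 * (C1 * ell) := by
      have h3 := hw1 r
      have h4 : |r| * |R.w1 0 r| ≤ C1 * ell := by
        rw [← abs_mul, h3]
        exact f1
      rw [abs_of_pos hr0] at h4
      have h5 : (1 / 3000 : ℝ) * |R.w1 0 r| ≤ r * |R.w1 0 r| := by gcongr
      linarith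
    have g1 : 0 ≤ C1 * ell := by positivity
    have g2 : 0 ≤ C2 * ell := by positivity
    refine ⟨?_, ?_, ?_, fun hcon => absurd hr1 (not_lt.2 hcon)⟩
    · linarith
    · linarith
    · linarith
  · have hr3 : 1 / 1500 < r := lt_trans (by norm_num) hr2
    have e1 : R.w 0 r = 0 := InitA_w_large h hr3
    have e2 : dr R.w 0 r = 0 := by
      have h3 : (fun x => R.w 0 x) =ᶠ[nhds r] fun _ => 0 := by
        filter_upwards [lt_mem_nhds hr3] with x hx1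
        exact InitA_w_large h hx1
      unfold dr
      rw [h3.deriv_eq]
      simp
    have e3 : R.w1 0 r = 0 := by
      have h3 := hw1 r
      rw [e1] at h3
      exact (mul_eq_zero.1 h3).resolve_left hr0.ne'
    rw [e1, e2, e3, abs_zero]
    exact ⟨hCell, hCell, hCell, fun _ => ⟨rfl, rfl⟩⟩

theorem init_sin (h : RadInit R om0 ell) (hl : 0 < ell) : ∀ r, 0 < r →
    |Real.sin (R.f 0 r)| ≤ 2 * ell / r ^ 4 ∧
    1 - Real.cos (R.f 0 r) ≤ 2 * ell ^ 2 / r ^ 8 ∧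
    (r ≤ 1 / 3000 → |Real.sin (R.f 0 r)| ≤ 2 * r ^ 4 / ell) ∧
    (r ≤ 1 / 3000 → Real.cos (R.f 0 r) = (r ^ 8 - ell ^ 2) / (r ^ 8 + ell ^ 2)) := by
  intro r hr
  have hk0 := kap_nonneg (r ^ 2)
  have hk1 := kap_le_one (r ^ 2)
  have hs := InitA_sinf h hr.le
  have hc := InitA_cosf h hr.le
  have hD : 0 < r ^ 8 + kap (r ^ 2) ^ 2 * ell ^ 2 := InitA_Dpos hr
  have habs : |Real.sin (R.f 0 r)| =
      2 * kap (r ^ 2) * ell * r ^ 4 / (r ^ 8 + kap (r ^ 2) ^ 2 * ell ^ 2) := by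
    rw [hs, abs_of_nonneg]
    positivity
  have hkone : r ≤ 1 / 3000 → kap (r ^ 2) = 1 := by
    intro h1
    apply kap_one
    have : r ^ 2 ≤ (1 / 3000) ^ 2 := by gcongr
    unfold R00
    norm_num at this ⊢
    linarith
  have h8 : 0 < r ^ 8 := by positivity
  have h4 : 0 < r ^ 4 := by positivity
  refine ⟨?_, ?_, ?_, ?_⟩
  · rw [habs, div_le_div_iff₀ hD h4]
    have h1 : 2 * kap (r ^ 2) * ell * r ^ 4 * r ^ 4 ≤ 2 * 1 * ell * r ^ 4 * r ^ 4 := by gcongr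
    have h2 : 0 ≤ 2 * ell * (kap (r ^ 2) ^ 2 * ell ^ 2) := by positivity
    nlinarith
  · have h1 : 1 - Real.cos (R.f 0 r) =
        2 * kap (r ^ 2) ^ 2 * ell ^ 2 / (r ^ 8 + kap (r ^ 2) ^ 2 * ell ^ 2) := by
      rw [hc]
      field_simp
      ring
    rw [h1, div_le_div_iff₀ hD h8]
    have h2 : kap (r ^ 2) ^ 2 ≤ 1 := by nlinarith
    have h3 : 2 * kap (r ^ 2) ^ 2 * ell ^ 2 * r ^ 8 ≤ 2 * 1 * ell ^ 2 * r ^ 8 := by gcongr
    have h5 : 0 ≤ 2 * ell ^ 2 * (kap (r ^ 2) ^ 2 * ell ^ 2) := by positivity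
    nlinarith
  · intro h1
    rw [habs, hkone h1]
    rw [hkone h1] at hD
    rw [div_le_div_iff₀ hD hl]
    have h2 : 0 ≤ 2 * r ^ 4 * r ^ 8 := by positivity
    nlinarith
  · intro h1
    rw [hc, hkone h1]
    ring

end H72GS
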