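import Pool.Agent.H72.GS.StN1

/-!
# StN: two sided bounds for `N`, smallness of `b = om * lam`

`Geo` collects what is known about the point `lam`.
* `N_lo`: on `[lam, 1.1 lam]`: `|u'| ≤ 4.01 |u| / r + (9/5)|w|`, `|u| ≤ 1 + eps`,
  `∫_lam^{1.1 lam} |w| ≤ eps` (`pwlog`), so `u ≥ 1 - 4.02 · 0.1 - 2 eps ≥ 0.59`, hence
  `sin f = 2u/(1+u²) ≥ 4/5`, `cos f ≤ 1/2 ≤ 1 - 2 qq`; the integrand of `N` is nonnegative
  (`Th_mul_sin_nonneg`), so `N ≥ (16/25) · (0.21/2) lam² ≥ lam²/16`.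
  (one needs `1.1 lam ≤ R1`: otherwise `f(R1) = 0` contradicts `sin f ≥ 4/5` on `[lam, R1]`.)
* `b_le`: `P = ∫ r g Th`, `P² ≤ (∫ r g²)(∫ r Th²) ≤ eps² N` (`Th² ≤ Th sin`), `P = -4 om N`, so
  `16 om² N ≤ eps²`, and `lam² ≤ 16 N`.
* `supp`: for `r ≥ 2·10⁶ lam`: `|u| ≤ (1/(2·10⁶))³ + eps`, `cos f ≥ 1 - 2u² ≥ 1 - qq`.
* `N_hi`, `Th_L1`: `|sin f| ≤ 1` for `r ≤ lam`; `|sin f| ≤ 2((lam/r)³ + eps)` for
  `lam ≤ r ≤ K lam`, `K = 2·10⁶`; `∫_lam^∞ (lam/r)⁶ r = lam²/4`, `∫_lam^∞ (lam/r)³ r = lam²`.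
* `b_lo`: `1 ≤ om³ N ≤ 3 om³ lam²`.
-/

namespace H72GS

open Set MeasureTheory intervalIntegral

variable {R1 : ℝ} {p : Pre} {om lam : ℝ}

theorem P_sq_le (hs : IsSlice R1 p) (hE : p.En R1 ≤ eps ^ 2) :
    p.P R1 ^ 2 ≤ eps ^ 2 * p.N R1 := by
  have hR := hs.R1pos
  have cTh : Continuous (fun r => Th (p.f r)) := continuous_Th.comp hs.cf
  have csin : Continuous (fun r => Real.sin (p.f r)) := Real.continuous_sin.comp hs.cf
  have h1 : |p.P R1| ≤ ∫ r in (0:ℝ)..R1, r * (|p.g r| * |Th (p.f r)|) := by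
    unfold Pre.P
    refine (intervalIntegral.abs_integral_le_integral_abs hR.le).trans ?_
    apply le_of_eq
    apply intervalIntegral.integral_congr
    intro r hr
    rw [uIcc_of_le hR.le] at hr
    simp only
    rw [abs_mul, abs_mul, abs_of_nonneg hr.1]
    ring
  have h2 := csr (a := 0) (b := R1) le_rfl hR.le hs.cg.continuousOn cTh.continuousOn
  have hg0 : 0 ≤ ∫ r in (0:ℝ)..R1, r * p.g r ^ 2 :=
    intervalIntegral.integral_nonneg hR.le (fun r hr => mul_nonneg hr.1 (sq_nonneg _))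
  have hT0 : 0 ≤ ∫ r in (0:ℝ)..R1, r * Th (p.f r) ^ 2 :=
    intervalIntegral.integral_nonneg hR.le (fun r hr => mul_nonneg hr.1 (sq_nonneg _))
  have hTN : ∫ r in (0:ℝ)..R1, r * Th (p.f r) ^ 2 ≤ p.N R1 := by
    unfold Pre.N
    apply intervalIntegral.integral_mono_on hR.le
    · exact (continuous_id.mul (cTh.pow 2)).intervalIntegrable _ _
    · exact ((continuous_id.mul cTh).mul csin).intervalIntegrable _ _
    · intro r hr
      rw [mul_assoc]
      exact mul_le_mul_of_nonneg_left (Th_sq_le _) hr.1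
  have hgE := (En_parts hs hE).1
  have h3 : |p.P R1| ≤ Real.sqrt (∫ r in (0:ℝ)..R1, r * p.g r ^ 2)
      * Real.sqrt (∫ r in (0:ℝ)..R1, r * Th (p.f r) ^ 2) := h1.trans h2
  have h4 : p.P R1 ^ 2 ≤ (∫ r in (0:ℝ)..R1, r * p.g r ^ 2)
      * (∫ r in (0:ℝ)..R1, r * Th (p.f r) ^ 2) := by
    have := pow_le_pow_left₀ (abs_nonneg _) h3 2
    rw [sq_abs, mul_pow, Real.sq_sqrt hg0, Real.sq_sqrt hT0] at this
    exact this
  refine h4.trans ?_
  exact mul_le_mul hgE hTN hT0 (sq_nonneg _)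

theorem supp (hs : IsSlice R1 p) (hE : p.En R1 ≤ eps ^ 2) (h0 : 0 < lam)
    (h1 : lam < R1) (hf : p.f lam = Real.pi / 2) :
    ∀ r ∈ Icc 0 R1, 2 * 10 ^ 6 * lam ≤ r → 1 - qq ≤ Real.cos (p.f r) := by
  intro r hr hKr
  have hlr : lam ≤ r := by nlinarith
  have hr0 : 0 < r := lt_of_lt_of_le h0 hlr
  have hmem : r ∈ Icc lam R1 := ⟨hlr, hr.2⟩
  have ha := (far0 hs hE h0 h1 hf r hmem).1
  have hb := far1 hs hE h0 h1 hf r hmem
  have hc := cos_ge_tan ha
  have hq : lam / r ≤ 1 / (2 * 10 ^ 6) := by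
    rw [div_le_div_iff₀ hr0 (by norm_num)]
    linarith
  have hq0 : 0 ≤ lam / r := by positivity
  have hq3 : (lam / r) ^ 3 ≤ (1 / (2 * 10 ^ 6)) ^ 3 := pow_le_pow_left₀ hq0 hq 3
  have ht : |Real.tan (p.f r / 2)| ≤ 2 / 10 ^ 19 := by
    refine hb.trans ?_
    have : (1 / (2 * 10 ^ 6) : ℝ) ^ 3 + eps ≤ 2 / 10 ^ 19 := by
      unfold eps; norm_num
    linarith
  have ht2 : Real.tan (p.f r / 2) ^ 2 ≤ (2 / 10 ^ 19) ^ 2 := by
    rw [← sq_abs]
    exact pow_le_pow_left₀ (abs_nonneg _) ht 2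
  have : (2 : ℝ) * (2 / 10 ^ 19) ^ 2 ≤ qq := by
    unfold qq; norm_num
  linarith

/-- generic bound: a continuous function on `[0, R1]` which is at most `r` on `[0, lam]`, at most
`r * (A (lam/r)^k + B)` on `[lam, K lam]` and vanishes beyond -/
theorem StN_split {F : ℝ → ℝ} {m : ℝ} (hF : Continuous F) (h0 : 0 < lam) (h1 : lam ≤ m)
    (h2 : m ≤ R1) {G : ℝ → ℝ} {G' : ℝ → ℝ}
    (ha : ∀ r ∈ Icc 0 lam, F r ≤ r)
    (hb : ∀ r ∈ Icc lam m, F r ≤ G' r)
    (hc : ∀ r ∈ Icc m R1, F r ≤ 0)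
    (hG' : ContinuousOn G' (Icc lam m))
    (hG : ∀ r ∈ Icc lam m, HasDerivAt G (G' r) r) :
    ∫ r in (0:ℝ)..R1, F r ≤ lam ^ 2 / 2 + (G m - G lam) := by
  have hi : ∀ a b, IntervalIntegrable F volume a b := fun a b => hF.intervalIntegrable a b
  have e1 : ∫ r in (0:ℝ)..R1, F r = (∫ r in (0:ℝ)..lam, F r) + (∫ r in lam..m, F r)
      + ∫ r in m..R1, F r := by
    rw [intervalIntegral.integral_add_adjacent_intervals (hi _ _) (hi _ _),
      intervalIntegral.integral_add_adjacent_intervals (hi _ _) (hi _ _)]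
  have i1 : ∫ r in (0:ℝ)..lam, F r ≤ lam ^ 2 / 2 := by
    have : ∫ r in (0:ℝ)..lam, F r ≤ ∫ r in (0:ℝ)..lam, r :=
      intervalIntegral.integral_mono_on h0.le (hi _ _)
        (continuous_id.intervalIntegrable _ _) ha
    refine this.trans (le_of_eq ?_)
    rw [integral_id]; ring
  have hG'i : IntervalIntegrable G' volume lam m := by
    apply ContinuousOn.intervalIntegrable
    rw [uIcc_of_le h1]; exact hG'
  have i2 : ∫ r in lam..m, F r ≤ G m - G lam := by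
    have : ∫ r in lam..m, F r ≤ ∫ r in lam..m, G' r :=
      intervalIntegral.integral_mono_on h1 (hi _ _) hG'i hb
    refine this.trans (le_of_eq ?_)
    apply intervalIntegral.integral_eq_sub_of_hasDerivAt _ hG'i
    intro r hr
    rw [uIcc_of_le h1] at hr
    exact hG r hr
  have i3 : ∫ r in m..R1, F r ≤ 0 := by
    have : ∫ r in m..R1, F r ≤ ∫ r in m..R1, (0:ℝ) :=
      intervalIntegral.integral_mono_on h2 (hi _ _)
        (continuous_const.intervalIntegrable _ _) hc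
    simpa using this
  rw [e1]; linarith

/-- the sine right of `lam` -/
theorem StN_sin (hs : IsSlice R1 p) (hE : p.En R1 ≤ eps ^ 2) (h0 : 0 < lam)
    (h1 : lam < R1) (hf : p.f lam = Real.pi / 2) :
    ∀ r ∈ Icc lam R1, |Real.sin (p.f r)| ≤ 2 * ((lam / r) ^ 3 + eps) := by
  intro r hr
  have ha := (far0 hs hE h0 h1 hf r hr).1
  have hb := far1 hs hE h0 h1 hf r hr
  have := sin_le_tan ha
  linarith

theorem N_hi (hs : IsSlice R1 p) (hE : p.En R1 ≤ eps ^ 2) (h0 : 0 < lam)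
    (h1 : lam < R1) (hf : p.f lam = Real.pi / 2) : p.N R1 ≤ 3 * lam ^ 2 := by
  have hR := hs.R1pos
  have cTh : Continuous (fun r => Th (p.f r)) := continuous_Th.comp hs.cf
  have csin : Continuous (fun r => Real.sin (p.f r)) := Real.continuous_sin.comp hs.cf
  set m := min (2 * 10 ^ 6 * lam) R1 with hm
  have hlm : lam ≤ m := le_min (by nlinarith) h1.le
  have hmR : m ≤ R1 := min_le_right _ _
  have hmK : m ≤ 2 * 10 ^ 6 * lam := min_le_left _ _
  have hm0 : 0 < m := lt_of_lt_of_le h0 hlm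
  have hThs : ∀ r, Th (p.f r) * Real.sin (p.f r) ≤ Real.sin (p.f r) ^ 2 := by
    intro r
    calc Th (p.f r) * Real.sin (p.f r) ≤ |Th (p.f r) * Real.sin (p.f r)| := le_abs_self _
      _ = |Th (p.f r)| * |Real.sin (p.f r)| := abs_mul _ _
      _ ≤ |Real.sin (p.f r)| * |Real.sin (p.f r)| :=
          mul_le_mul_of_nonneg_right (Th_abs_le _) (abs_nonneg _)
      _ = Real.sin (p.f r) ^ 2 := by rw [← sq, sq_abs]
  have key := StN_split (R1 := R1) (lam := lam) (m := m)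
    (F := fun r => r * Th (p.f r) * Real.sin (p.f r))
    (G := fun r => -2 * lam ^ 6 / r ^ 4 + 4 * eps ^ 2 * r ^ 2)
    (G' := fun r => 8 * lam ^ 6 / r ^ 5 + 8 * eps ^ 2 * r)
    ((continuous_id.mul cTh).mul csin) h0 hlm hmR ?_ ?_ ?_ ?_ ?_
  · refine key.trans ?_
    have e1 : -2 * lam ^ 6 / lam ^ 4 = -2 * lam ^ 2 := by
      field_simp
    have e2 : -2 * lam ^ 6 / m ^ 4 ≤ 0 := by
      have : 0 ≤ 2 * lam ^ 6 / m ^ 4 := by positivity
      have h' : -2 * lam ^ 6 / m ^ 4 = -(2 * lam ^ 6 / m ^ 4) := by ring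
      rw [h']; linarith
    have e3 : m ^ 2 ≤ (2 * 10 ^ 6 * lam) ^ 2 := pow_le_pow_left₀ hm0.le hmK 2
    have e4 : 4 * eps ^ 2 * m ^ 2 ≤ 4 * eps ^ 2 * (2 * 10 ^ 6 * lam) ^ 2 :=
      mul_le_mul_of_nonneg_left e3 (by positivity)
    have e5 : 4 * eps ^ 2 * (2 * 10 ^ 6 * lam) ^ 2 ≤ (1 / 10) * lam ^ 2 := by
      have : 4 * eps ^ 2 * (2 * 10 ^ 6 * lam) ^ 2 = (4 * eps ^ 2 * (2 * 10 ^ 6) ^ 2) * lam ^ 2 := by
        ring
      rw [this]
      apply mul_le_mul_of_nonneg_right _ (sq_nonneg _)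
      unfold eps; norm_num
    have e6 : 0 ≤ 4 * eps ^ 2 * lam ^ 2 := by positivity
    rw [e1]
    nlinarith [sq_nonneg lam]
  · intro r hr
    have h1' : Th (p.f r) * Real.sin (p.f r) ≤ 1 := (hThs r).trans (Real.sin_sq_le_one _)
    calc r * Th (p.f r) * Real.sin (p.f r) = r * (Th (p.f r) * Real.sin (p.f r)) := by ring
      _ ≤ r * 1 := mul_le_mul_of_nonneg_left h1' hr.1
      _ = r := mul_one r
  · intro r hr
    have hr0 : 0 < r := lt_of_lt_of_le h0 hr.1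
    have hrm : r ∈ Icc lam R1 := ⟨hr.1, hr.2.trans hmR⟩
    have hsn := StN_sin hs hE h0 h1 hf r hrm
    have h2' : Real.sin (p.f r) ^ 2 ≤ (2 * ((lam / r) ^ 3 + eps)) ^ 2 := by
      rw [← sq_abs]
      exact pow_le_pow_left₀ (abs_nonneg _) hsn 2
    have h3' : (2 * ((lam / r) ^ 3 + eps)) ^ 2 ≤ 8 * (lam / r) ^ 6 + 8 * eps ^ 2 := by
      nlinarith [sq_nonneg ((lam / r) ^ 3 - eps)]
    calc r * Th (p.f r) * Real.sin (p.f r) = r * (Th (p.f r) * Real.sin (p.f r)) := by ring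
      _ ≤ r * (8 * (lam / r) ^ 6 + 8 * eps ^ 2) :=
          mul_le_mul_of_nonneg_left (((hThs r).trans h2').trans h3') hr0.le
      _ = 8 * lam ^ 6 / r ^ 5 + 8 * eps ^ 2 * r := by field_simp
  · intro r hr
    by_cases hK : 2 * 10 ^ 6 * lam ≤ R1
    · have : m = 2 * 10 ^ 6 * lam := min_eq_left hK
      have hr' : 2 * 10 ^ 6 * lam ≤ r := this ▸ hr.1
      have hc := supp hs hE h0 h1 hf r ⟨hm0.le.trans hr.1, hr.2⟩ hr'
      rw [Th_zero hc]; simp
    · have : m = R1 := min_eq_right (not_le.mp hK).le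
      have : r = R1 := le_antisymm hr.2 (this ▸ hr.1)
      rw [this, hs.fR]; simp
  · intro r hr
    have hr0 : 0 < r := lt_of_lt_of_le h0 hr.1
    apply ContinuousAt.continuousWithinAt
    have : r ^ 5 ≠ 0 := (pow_pos hr0 5).ne'
    fun_prop (disch := assumption)
  · intro r hr
    have hr0 : 0 < r := lt_of_lt_of_le h0 hr.1
    have d1 : HasDerivAt (fun r : ℝ => r ^ 4) (4 * r ^ 3) r := by
      simpa using hasDerivAt_pow 4 r
    have d2 : HasDerivAt (fun r : ℝ => r ^ 2) (2 * r) r := by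
      simpa using hasDerivAt_pow 2 r
    have d3 := ((hasDerivAt_const r (-2 * lam ^ 6)).div d1 (pow_pos hr0 4).ne').add
      (d2.const_mul (4 * eps ^ 2))
    refine d3.congr_deriv ?_
    field_simp
    ring

theorem Th_L1 (hs : IsSlice R1 p) (hE : p.En R1 ≤ eps ^ 2) (h0 : 0 < lam)
    (h1 : lam < R1) (hf : p.f lam = Real.pi / 2) :
    ∫ r in (0 : ℝ)..R1, r * |Th (p.f r)| ≤ 3 * lam ^ 2 := by
  have hR := hs.R1pos
  have cTh : Continuous (fun r => Th (p.f r)) := continuous_Th.comp hs.cf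
  set m := min (2 * 10 ^ 6 * lam) R1 with hm
  have hlm : lam ≤ m := le_min (by nlinarith) h1.le
  have hmR : m ≤ R1 := min_le_right _ _
  have hmK : m ≤ 2 * 10 ^ 6 * lam := min_le_left _ _
  have hm0 : 0 < m := lt_of_lt_of_le h0 hlm
  have key := StN_split (R1 := R1) (lam := lam) (m := m)
    (F := fun r => r * |Th (p.f r)|)
    (G := fun r => -2 * lam ^ 3 / r + eps * r ^ 2)
    (G' := fun r => 2 * lam ^ 3 / r ^ 2 + 2 * eps * r)
    (continuous_id.mul cTh.abs) h0 hlm hmR ?_ ?_ ?_ ?_ ?_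
  · refine key.trans ?_
    have e1 : -2 * lam ^ 3 / lam = -2 * lam ^ 2 := by
      field_simp
    have e2 : -2 * lam ^ 3 / m ≤ 0 := by
      have : 0 ≤ 2 * lam ^ 3 / m := by positivity
      have h' : -2 * lam ^ 3 / m = -(2 * lam ^ 3 / m) := by ring
      rw [h']; linarith
    have e0 : 0 < eps := by unfold eps; norm_num
    have e3 : m ^ 2 ≤ (2 * 10 ^ 6 * lam) ^ 2 := pow_le_pow_left₀ hm0.le hmK 2
    have e4 : eps * m ^ 2 ≤ eps * (2 * 10 ^ 6 * lam) ^ 2 :=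
      mul_le_mul_of_nonneg_left e3 e0.le
    have e5 : eps * (2 * 10 ^ 6 * lam) ^ 2 ≤ (1 / 10) * lam ^ 2 := by
      have : eps * (2 * 10 ^ 6 * lam) ^ 2 = (eps * (2 * 10 ^ 6) ^ 2) * lam ^ 2 := by
        ring
      rw [this]
      apply mul_le_mul_of_nonneg_right _ (sq_nonneg _)
      unfold eps; norm_num
    have e6 : 0 ≤ eps * lam ^ 2 := by positivity
    rw [e1]
    nlinarith [sq_nonneg lam]
  · intro r hr
    have h1' : |Th (p.f r)| ≤ 1 := (Th_abs_le _).trans (Real.abs_sin_le_one _)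
    calc r * |Th (p.f r)| ≤ r * 1 := mul_le_mul_of_nonneg_left h1' hr.1
      _ = r := mul_one r
  · intro r hr
    have hr0 : 0 < r := lt_of_lt_of_le h0 hr.1
    have hrm : r ∈ Icc lam R1 := ⟨hr.1, hr.2.trans hmR⟩
    have hsn := StN_sin hs hE h0 h1 hf r hrm
    calc r * |Th (p.f r)| ≤ r * (2 * ((lam / r) ^ 3 + eps)) :=
          mul_le_mul_of_nonneg_left ((Th_abs_le _).trans hsn) hr0.le
      _ = 2 * lam ^ 3 / r ^ 2 + 2 * eps * r := by field_simp
  · intro r hr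
    by_cases hK : 2 * 10 ^ 6 * lam ≤ R1
    · have : m = 2 * 10 ^ 6 * lam := min_eq_left hK
      have hr' : 2 * 10 ^ 6 * lam ≤ r := this ▸ hr.1
      have hc := supp hs hE h0 h1 hf r ⟨hm0.le.trans hr.1, hr.2⟩ hr'
      rw [Th_zero hc]; simp
    · have : m = R1 := min_eq_right (not_le.mp hK).le
      have : r = R1 := le_antisymm hr.2 (this ▸ hr.1)
      rw [this, hs.fR]
      have hT : Th 0 = 0 := by unfold Th; simp
      rw [hT]; simp
  · intro r hr
    have hr0 : 0 < r := lt_of_lt_of_le h0 hr.1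
    apply ContinuousAt.continuousWithinAt
    have : r ^ 2 ≠ 0 := (pow_pos hr0 2).ne'
    fun_prop (disch := assumption)
  · intro r hr
    have hr0 : 0 < r := lt_of_lt_of_le h0 hr.1
    have d2 : HasDerivAt (fun r : ℝ => r ^ 2) (2 * r) r := by
      simpa using hasDerivAt_pow 2 r
    have d3 := ((hasDerivAt_const r (-2 * lam ^ 3)).div (hasDerivAt_id r) hr0.ne').add
      (d2.const_mul eps)
    refine d3.congr_deriv ?_
    simp only [id]
    field_simp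
    ring

/-- the point `lam` and the elementary facts about it -/
structure Geo (R1 : ℝ) (p : Pre) (om lam : ℝ) : Prop where
  lam_pos : 0 < lam
  lam_lt : lam < R1
  f_lam : p.f lam = Real.pi / 2
  N_lo : lam ^ 2 / 16 ≤ p.N R1
  N_hi : p.N R1 ≤ 3 * lam ^ 2
  b_le : om * lam ≤ eps
  b_lo : 1 ≤ 3 * om ^ 3 * lam ^ 2

theorem exists_geo (hs : IsSlice R1 p) (hy : Hyp R1 p om) : ∃ lam, Geo R1 p om lam := by
  obtain ⟨lam, h0, h1, hf⟩ := exists_lam hs
  have hE := hy.en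
  have hlo := N_lo hs hE h0 h1 hf
  have hhi := N_hi hs hE h0 h1 hf
  have hom : 0 < om := lt_of_lt_of_le (by norm_num) hy.hom
  have hN := hy.Npos
  refine ⟨lam, h0, h1, hf, hlo, hhi, ?_, ?_⟩
  · have hP := P_sq_le hs hE
    rw [hy.hP] at hP
    have h2 : 16 * om ^ 2 * p.N R1 ≤ eps ^ 2 := by
      have : (16 * om ^ 2 * p.N R1) * p.N R1 ≤ eps ^ 2 * p.N R1 := by
        calc (16 * om ^ 2 * p.N R1) * p.N R1 = (-4 * om * p.N R1) ^ 2 := by ring
          _ ≤ _ := hP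
      exact le_of_mul_le_mul_right this hN
    have h3 : (om * lam) ^ 2 ≤ eps ^ 2 := by
      have h4 : 16 * om ^ 2 * (lam ^ 2 / 16) ≤ 16 * om ^ 2 * p.N R1 :=
        mul_le_mul_of_nonneg_left hlo (by positivity)
      nlinarith
    have he : 0 ≤ eps := by unfold eps; positivity
    exact le_of_sq_le_sq h3 he
  · have h3 := hy.h3
    have h4 : om ^ 3 * p.N R1 ≤ om ^ 3 * (3 * lam ^ 2) :=
      mul_le_mul_of_nonneg_left hhi (by positivity)
    linarith

end H72GS
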