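import Pool.Agent.H72.GS.InitA
import Pool.Agent.H72.GS.Slice
import Pool.Agent.H72.GS.StN

/-!
# InitB1: energies and size of the soliton at time `0`

`ell = (b0/om0)⁴ = lam⁴`, `b0 = 10⁻²³`, `lam = b0/om0`, `T = 6/(5 om0)`, `R1 = R00 + T ≤ 1/1000`.
* `int_sin`: `|sin f| ≤ 1`, `|sin f| ≤ 2 lam⁴/r⁴`: `∫ r sin² ≤ lam²/2 + 4 lam⁸ ∫_lam^∞ r⁻⁷
  = (1/2 + 2/3) lam²` (compare with an explicit antiderivative on `[lam, R1]`).
* `int_y`: `0 ≤ 1 - cos f ≤ 2`, `≤ 2 lam⁸/r⁸`: `∫ r (1 - cos f)² ≤ 2 lam² + (4/14) lam²`.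
* `int_s4`: `∫ sin⁴/r ≤ ∫_0^lam 16 r^15/lam^16 + ∫_lam^∞ 16 lam^16/r^17 = 2`; write it as
  `∫ r s1² sin²`, `s1 = sin f / r` (`mul_Q`).
* `En(0) = ∫ r (16 om0² sin² + w² + (1-cos f)²) ≤ 20 b0² + 3 lam² + C² ell² ≤ 10⁻⁴⁴`
  (`|w| ≤ C ell`, `init_w`); `om0` large.
* `P = -4 om0 N` since `g = -4 om0 sin f`.
* `N ≥ lam²/16`: `exists_lam` gives `l` with `f(l) = π/2`, so `cos f(l) = 0`, `l⁸ = kap² ell² ≤ ell²`,
  `l ≤ lam ≤ 1/3000`, so `kap = 1` and `l = lam`; `N_lo`.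
* `Ey(0) ≤ 100`: `y_t = -4 om0 sin²`, `∫ r 16 om0² sin⁴ ≤ 20 b0²`;
  `y_r = sin (w - 4 sin/r)`: `∫ r y_r² ≤ 2 ∫ r w² + 32 ∫ sin⁴/r ≤ 65`; `∫ r sin² y² ≤ 4 ∫ r sin²`.
-/

namespace H72GS

open Set MeasureTheory

/-- `b0` -/
noncomputable def b00 : ℝ := 1 / 10 ^ 23

private lemma InitB1_split {F G G' A A' : ℝ → ℝ} {lam R1 : ℝ} (hF : Continuous F) (h0 : 0 < lam)
    (h1 : lam ≤ R1) (ha : ∀ r ∈ Icc 0 lam, F r ≤ A' r) (hA'c : Continuous A')
    (hA : ∀ r, HasDerivAt A (A' r) r)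
    (hb : ∀ r ∈ Icc lam R1, F r ≤ G' r) (hG'c : ContinuousOn G' (Icc lam R1))
    (hG : ∀ r ∈ Icc lam R1, HasDerivAt G (G' r) r) :
    ∫ r in (0 : ℝ)..R1, F r ≤ (A lam - A 0) + (G R1 - G lam) := by
  have hi : ∀ a b, IntervalIntegrable F volume a b := fun a b => hF.intervalIntegrable a b
  have e1 : ∫ r in (0:ℝ)..R1, F r = (∫ r in (0:ℝ)..lam, F r) + (∫ r in lam..R1, F r) := by
    rw [intervalIntegral.integral_add_adjacent_intervals (hi _ _) (hi _ _)]
  have i1 : ∫ r in (0:ℝ)..lam, F r ≤ A lam - A 0 := by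
    have : ∫ r in (0:ℝ)..lam, F r ≤ ∫ r in (0:ℝ)..lam, A' r :=
      intervalIntegral.integral_mono_on h0.le (hi _ _) (hA'c.intervalIntegrable _ _) ha
    refine this.trans (le_of_eq ?_)
    exact intervalIntegral.integral_eq_sub_of_hasDerivAt (fun r _ => hA r)
      (hA'c.intervalIntegrable _ _)
  have hG'i : IntervalIntegrable G' volume lam R1 := by
    apply ContinuousOn.intervalIntegrable
    rw [uIcc_of_le h1]; exact hG'c
  have i2 : ∫ r in lam..R1, F r ≤ G R1 - G lam := by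
    have : ∫ r in lam..R1, F r ≤ ∫ r in lam..R1, G' r :=
      intervalIntegral.integral_mono_on h1 (hi _ _) hG'i hb
    refine this.trans (le_of_eq ?_)
    apply intervalIntegral.integral_eq_sub_of_hasDerivAt _ hG'i
    intro r hr
    rw [uIcc_of_le h1] at hr
    exact hG r hr
  rw [e1]; linarith

private lemma InitB1_int {S : ℝ → ℝ} {lam R1 A : ℝ} (hS : Continuous S) (h0 : 0 < lam)
    (h1 : lam ≤ R1) (ha : ∀ r ∈ Icc 0 lam, S r ^ 2 ≤ A)
    (hb : ∀ r, 0 < r → S r ^ 2 ≤ 4 * lam ^ 8 / r ^ 8) :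
    ∫ r in (0 : ℝ)..R1, r * S r ^ 2 ≤ (A / 2 + 2 / 3) * lam ^ 2 := by
  have key := InitB1_split (F := fun r => r * S r ^ 2) (A' := fun r => A * r)
    (A := fun r => A * (r ^ 2 / 2)) (G' := fun r => 4 * lam ^ 8 / r ^ 7)
    (G := fun r => -(2 / 3) * lam ^ 8 / r ^ 6) (by fun_prop) h0 h1 ?_ (by fun_prop) ?_ ?_ ?_ ?_
  · refine key.trans ?_
    have hR : 0 < R1 := lt_of_lt_of_le h0 h1
    have e1 : -(2 / 3) * lam ^ 8 / lam ^ 6 = -(2 / 3) * lam ^ 2 := by
      field_simp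
    have e2 : -(2 / 3) * lam ^ 8 / R1 ^ 6 ≤ 0 := by
      have : 0 ≤ (2 / 3) * lam ^ 8 / R1 ^ 6 := by positivity
      have h' : -(2 / 3) * lam ^ 8 / R1 ^ 6 = -((2 / 3) * lam ^ 8 / R1 ^ 6) := by ring
      linarith
    rw [e1]
    nlinarith
  · intro r hr
    have := mul_le_mul_of_nonneg_left (ha r hr) hr.1
    linarith
  · intro r
    have d2 : HasDerivAt (fun r : ℝ => r ^ 2) (2 * r) r := by
      simpa using hasDerivAt_pow 2 r
    refine ((d2.div_const 2).const_mul A).congr_deriv ?_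
    ring
  · intro r hr
    have hr0 : 0 < r := lt_of_lt_of_le h0 hr.1
    calc r * S r ^ 2 ≤ r * (4 * lam ^ 8 / r ^ 8) := mul_le_mul_of_nonneg_left (hb r hr0) hr0.le
      _ = 4 * lam ^ 8 / r ^ 7 := by field_simp
  · intro r hr
    have hr0 : 0 < r := lt_of_lt_of_le h0 hr.1
    apply ContinuousAt.continuousWithinAt
    have : r ^ 7 ≠ 0 := (pow_pos hr0 7).ne'
    fun_prop (disch := assumption)
  · intro r hr
    have hr0 : 0 < r := lt_of_lt_of_le h0 hr.1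
    have d1 : HasDerivAt (fun r : ℝ => r ^ 6) (6 * r ^ 5) r := by
      simpa using hasDerivAt_pow 6 r
    refine ((hasDerivAt_const r (-(2 / 3) * lam ^ 8)).div d1 (pow_pos hr0 6).ne').congr_deriv ?_
    field_simp
    ring

private lemma InitB1_s1 {S : ℝ → ℝ} {lam R1 : ℝ} (hS : Continuous S) (h0 : 0 < lam)
    (h1 : lam ≤ R1) (ha : ∀ r ∈ Icc 0 lam, r * S r ^ 2 ≤ 4 * r ^ 7 / lam ^ 8)
    (hb : ∀ r ∈ Icc lam R1, r * S r ^ 2 ≤ 4 * lam ^ 8 / r ^ 9) :
    ∫ r in (0 : ℝ)..R1, r * S r ^ 2 ≤ 1 := by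
  have key := InitB1_split (F := fun r => r * S r ^ 2) (A' := fun r => 4 * r ^ 7 / lam ^ 8)
    (A := fun r => r ^ 8 / (2 * lam ^ 8)) (G' := fun r => 4 * lam ^ 8 / r ^ 9)
    (G := fun r => -(1 / 2) * lam ^ 8 / r ^ 8) (by fun_prop) h0 h1 ha (by fun_prop) ?_ hb ?_ ?_
  · refine key.trans ?_
    have hR : 0 < R1 := lt_of_lt_of_le h0 h1
    have e1 : -(1 / 2) * lam ^ 8 / lam ^ 8 = -(1 / 2) := by
      field_simp
    have e2 : -(1 / 2) * lam ^ 8 / R1 ^ 8 ≤ 0 := by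
      have : 0 ≤ (1 / 2) * lam ^ 8 / R1 ^ 8 := by positivity
      have h' : -(1 / 2) * lam ^ 8 / R1 ^ 8 = -((1 / 2) * lam ^ 8 / R1 ^ 8) := by ring
      linarith
    have e3 : lam ^ 8 / (2 * lam ^ 8) = 1 / 2 := by
      field_simp
    have e4 : (0 : ℝ) ^ 8 / (2 * lam ^ 8) = 0 := by simp
    rw [e1, e3, e4]
    linarith
  · intro r
    have d2 : HasDerivAt (fun r : ℝ => r ^ 8) (8 * r ^ 7) r := by
      simpa using hasDerivAt_pow 8 r
    refine (d2.div_const (2 * lam ^ 8)).congr_deriv ?_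
    field_simp
    ring
  · intro r hr
    have hr0 : 0 < r := lt_of_lt_of_le h0 hr.1
    apply ContinuousAt.continuousWithinAt
    have : r ^ 9 ≠ 0 := (pow_pos hr0 9).ne'
    fun_prop (disch := assumption)
  · intro r hr
    have hr0 : 0 < r := lt_of_lt_of_le h0 hr.1
    have d1 : HasDerivAt (fun r : ℝ => r ^ 8) (8 * r ^ 7) r := by
      simpa using hasDerivAt_pow 8 r
    refine ((hasDerivAt_const r (-(1 / 2) * lam ^ 8)).div d1 (pow_pos hr0 8).ne').congr_deriv ?_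
    field_simp
    ring

theorem init_ENP : ∃ Ω : ℝ, 10 ^ 60 < Ω ∧ ∀ om0, Ω ≤ om0 → ∀ R : Rad (6 / (5 * om0)) R00,
    RadInit R om0 ((b00 / om0) ^ 4) →
    (R.pre 0).En (R00 + 6 / (5 * om0)) ≤ eps ^ 2 ∧
    (R.pre 0).P (R00 + 6 / (5 * om0)) = -4 * om0 * (R.pre 0).N (R00 + 6 / (5 * om0)) ∧
    (b00 / om0) ^ 2 / 16 ≤ (R.pre 0).N (R00 + 6 / (5 * om0)) ∧
    (R.pre 0).Ey (R00 + 6 / (5 * om0)) ≤ 100 := by
  obtain ⟨C, hC, hCw⟩ := init_w
  refine ⟨max (10 ^ 61) C, lt_of_lt_of_le (by norm_num) (le_max_left _ _), ?_⟩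
  intro om0 hom R hI
  have hom1 : (10 : ℝ) ^ 61 ≤ om0 := le_trans (le_max_left _ _) hom
  have homC : C ≤ om0 := le_trans (le_max_right _ _) hom
  have hom0 : 0 < om0 := lt_of_lt_of_le (by norm_num) hom1
  have hb0 : (0 : ℝ) < b00 := by unfold b00; norm_num
  have homl : om0 * (b00 / om0) = b00 := by field_simp
  set lam := b00 / om0 with hlam
  have hl0 : 0 < lam := by positivity
  have hlsm : lam ≤ b00 / 10 ^ 61 := by
    rw [hlam]
    exact div_le_div_of_nonneg_left hb0.le (by norm_num) hom1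
  have hb_val : b00 = 1 / 10 ^ 23 := rfl
  have hl80 : lam ≤ 1 / 10 ^ 80 := by
    refine hlsm.trans ?_
    rw [hb_val]; norm_num
  have hl3000 : lam ≤ 1 / 6000 := by
    refine hl80.trans ?_
    norm_num
  have hTpos : 0 < 6 / (5 * om0) := by positivity
  have hTle : 6 / (5 * om0) ≤ 1 / 10 ^ 60 := by
    rw [div_le_div_iff₀ (by positivity) (by norm_num)]
    linarith
  have hR00 : R00 = 1 / 2000 := rfl
  obtain ⟨R1, hR1def⟩ : ∃ R1, R1 = R00 + 6 / (5 * om0) := ⟨_, rfl⟩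
  have hR1le : R00 + 6 / (5 * om0) ≤ 1 / 1000 := by
    rw [hR00]
    have : (1 : ℝ) / 10 ^ 60 ≤ 1 / 2000 := by norm_num
    linarith
  have hR1ge : 1 / 10 ^ 50 ≤ R00 + 6 / (5 * om0) := by
    rw [hR00]
    have : (1 : ℝ) / 10 ^ 50 ≤ 1 / 2000 := by norm_num
    linarith
  have hs : IsSlice (R00 + 6 / (5 * om0)) (R.pre 0) :=
    R.isSlice hR1le hR1ge ⟨le_rfl, hTpos.le⟩
  rw [← hR1def] at hs hR1le hR1ge ⊢
  have hlR : lam ≤ R1 := by
    rw [hR1def, hR00]
    linarith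
  have hR1pos : 0 < R1 := hs.R1pos
  -- ell
  have hell0 : 0 < lam ^ 4 := by positivity
  have hell1 : lam ^ 4 ≤ 1 := pow_le_one₀ hl0.le (by linarith)
  have hw := hCw _ om0 (lam ^ 4) R hell0 hell1 hI
  have hsin := init_sin hI hell0
  obtain ⟨hal, he, hy, hwt, hyt, hyr⟩ := init_simple hI
  have hCl : C * lam ^ 4 ≤ 1 / 10 ^ 40 := by
    have h1 : C * lam ≤ b00 := by
      calc C * lam ≤ om0 * lam := mul_le_mul_of_nonneg_right homC hl0.le
        _ = b00 := homl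
    have h2 : lam ^ 3 ≤ lam := by
      have : lam ^ 3 = lam * lam ^ 2 := by ring
      rw [this]
      have : lam ^ 2 ≤ 1 := pow_le_one₀ hl0.le (by linarith)
      nlinarith
    calc C * lam ^ 4 = (C * lam) * lam ^ 3 := by ring
      _ ≤ b00 * lam := mul_le_mul h1 h2 (by positivity) hb0.le
      _ ≤ b00 * (1 / 10 ^ 80) := mul_le_mul_of_nonneg_left hl80 hb0.le
      _ ≤ 1 / 10 ^ 40 := by rw [hb_val]; norm_num
  have hCl0 : 0 ≤ C * lam ^ 4 := by positivity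
  -- continuity
  have cf : Continuous (R.f 0) := hs.cf
  have cw : Continuous (R.w 0) := hs.cw
  have cg : Continuous (R.g 0) := hs.cg
  have ce : Continuous (R.e 0) := hs.ce
  have cy : Continuous (R.y 0) := hs.cy
  have cyt : Continuous (dt R.y 0) := hs.cyt
  have cyr : Continuous (dr R.y 0) := hs.cyr
  have cs1 : Continuous (R.S1 0) := hs.cs1
  -- sine integrals
  have hsin2 : ∀ r, 0 < r → Real.sin (R.f 0 r) ^ 2 ≤ 4 * lam ^ 8 / r ^ 8 := by
    intro r hr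
    have h1 := (hsin r hr).1
    have h2 : |Real.sin (R.f 0 r)| ^ 2 ≤ (2 * lam ^ 4 / r ^ 4) ^ 2 :=
      pow_le_pow_left₀ (abs_nonneg _) h1 2
    rw [sq_abs] at h2
    refine h2.trans (le_of_eq ?_)
    rw [div_pow]
    ring
  have I1 : ∫ r in (0 : ℝ)..R1, r * Real.sin (R.f 0 r) ^ 2 ≤ (1 / 2 + 2 / 3) * lam ^ 2 :=
    InitB1_int (S := fun r => Real.sin (R.f 0 r)) (by fun_prop) hl0 hlR
      (fun r _ => Real.sin_sq_le_one _) hsin2
  have I2 : ∫ r in (0 : ℝ)..R1, r * (1 - Real.cos (R.f 0 r)) ^ 2 ≤ (4 / 2 + 2 / 3) * lam ^ 2 := by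
    refine InitB1_int (S := fun r => 1 - Real.cos (R.f 0 r)) (by fun_prop) hl0 hlR ?_ ?_
    · intro r _
      nlinarith [Real.neg_one_le_cos (R.f 0 r), Real.cos_le_one (R.f 0 r)]
    · intro r hr
      have h1 := (hsin r hr).2.1
      have h2 : (1 - Real.cos (R.f 0 r)) ^ 2 ≤ 2 * (1 - Real.cos (R.f 0 r)) := by
        nlinarith [Real.neg_one_le_cos (R.f 0 r), Real.cos_le_one (R.f 0 r)]
      calc (1 - Real.cos (R.f 0 r)) ^ 2 ≤ 2 * (1 - Real.cos (R.f 0 r)) := h2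
        _ ≤ 2 * (2 * (lam ^ 4) ^ 2 / r ^ 8) := by linarith
        _ = 4 * lam ^ 8 / r ^ 8 := by ring
  have I3 : ∫ r in (0 : ℝ)..R1, r * R.S1 0 r ^ 2 ≤ 1 := by
    refine InitB1_s1 cs1 hl0 hlR ?_ ?_
    · intro r hr
      rcases eq_or_lt_of_le hr.1 with h | h
      · rw [← h]; simp
      · have h1 := (hsin r h).2.2.1 (by linarith [hr.2])
        have h2 : |Real.sin (R.f 0 r)| ^ 2 ≤ (2 * r ^ 4 / lam ^ 4) ^ 2 :=
          pow_le_pow_left₀ (abs_nonneg _) h1 2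
        rw [sq_abs] at h2
        have h3 : Real.sin (R.f 0 r) = r * R.S1 0 r := (R.r_S1 0 r).symm
        rw [h3] at h2
        have h4 : r * R.S1 0 r ^ 2 = (r * R.S1 0 r) ^ 2 / r := by field_simp
        rw [h4, div_le_iff₀ h]
        refine h2.trans (le_of_eq ?_)
        field_simp
        ring
    · intro r hr
      have h : 0 < r := lt_of_lt_of_le hl0 hr.1
      have h2 := hsin2 r h
      have h3 : Real.sin (R.f 0 r) = r * R.S1 0 r := (R.r_S1 0 r).symm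
      rw [h3] at h2
      have h4 : r * R.S1 0 r ^ 2 = (r * R.S1 0 r) ^ 2 / r := by field_simp
      rw [h4, div_le_iff₀ h]
      refine h2.trans (le_of_eq ?_)
      field_simp
  have hw2 : ∀ r, 0 ≤ r → R.w 0 r ^ 2 ≤ (C * lam ^ 4) ^ 2 := by
    intro r hr
    rw [← sq_abs]
    exact pow_le_pow_left₀ (abs_nonneg _) (hw r hr).1 2
  -- energy
  have hEn : (R.pre 0).En R1 ≤ eps ^ 2 := by
    have step : (R.pre 0).En R1 ≤ ∫ r in (0 : ℝ)..R1, ((16 * om0 ^ 2) * (r * Real.sin (R.f 0 r) ^ 2)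
        + (C * lam ^ 4) ^ 2 + r * (1 - Real.cos (R.f 0 r)) ^ 2) := by
      unfold Pre.En
      apply intervalIntegral.integral_mono_on hR1pos.le
      · apply Continuous.intervalIntegrable
        have h1 := hs.cg
        have h2 := hs.ce
        have h3 := hs.cw
        have h4 := hs.cy
        fun_prop
      · apply Continuous.intervalIntegrable
        fun_prop
      · intro r hr
        show r * (R.g 0 r ^ 2 + R.e 0 r ^ 2 + R.w 0 r ^ 2 + R.y 0 r ^ 2) ≤ _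
        rw [hI.hg r, he r, hy r hr.1]
        have h1 := hw2 r hr.1
        have h2 : r * R.w 0 r ^ 2 ≤ 1 * (C * lam ^ 4) ^ 2 :=
          mul_le_mul (by linarith [hr.2]) h1 (sq_nonneg _) zero_le_one
        nlinarith
    have hi1 : IntervalIntegrable (fun r => (16 * om0 ^ 2) * (r * Real.sin (R.f 0 r) ^ 2))
        volume 0 R1 := by
      apply Continuous.intervalIntegrable; fun_prop
    have hi2 : IntervalIntegrable (fun _ : ℝ => (C * lam ^ 4) ^ 2) volume 0 R1 := by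
      apply Continuous.intervalIntegrable; fun_prop
    have hi3 : IntervalIntegrable (fun r => r * (1 - Real.cos (R.f 0 r)) ^ 2) volume 0 R1 := by
      apply Continuous.intervalIntegrable; fun_prop
    rw [intervalIntegral.integral_add (hi1.add hi2) hi3, intervalIntegral.integral_add hi1 hi2,
      intervalIntegral.integral_const_mul, intervalIntegral.integral_const, smul_eq_mul] at step
    have s1 : (16 * om0 ^ 2) * ∫ r in (0 : ℝ)..R1, r * Real.sin (R.f 0 r) ^ 2 ≤ 19 * b00 ^ 2 := by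
      calc (16 * om0 ^ 2) * ∫ r in (0 : ℝ)..R1, r * Real.sin (R.f 0 r) ^ 2
          ≤ (16 * om0 ^ 2) * ((1 / 2 + 2 / 3) * lam ^ 2) :=
            mul_le_mul_of_nonneg_left I1 (by positivity)
        _ = (16 * (1 / 2 + 2 / 3)) * (om0 * lam) ^ 2 := by ring
        _ = (16 * (1 / 2 + 2 / 3)) * b00 ^ 2 := by rw [homl]
        _ ≤ 19 * b00 ^ 2 := by
            apply mul_le_mul_of_nonneg_right _ (sq_nonneg _)
            norm_num
    have s2 : (R1 - 0) * (C * lam ^ 4) ^ 2 ≤ (1 / 10 ^ 40) ^ 2 := by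
      have h1 : (C * lam ^ 4) ^ 2 ≤ (1 / 10 ^ 40) ^ 2 := pow_le_pow_left₀ hCl0 hCl 2
      calc (R1 - 0) * (C * lam ^ 4) ^ 2 ≤ 1 * (1 / 10 ^ 40) ^ 2 :=
            mul_le_mul (by linarith) h1 (sq_nonneg _) zero_le_one
        _ = (1 / 10 ^ 40) ^ 2 := one_mul _
    have s3 : lam ^ 2 ≤ (1 / 10 ^ 80) ^ 2 := pow_le_pow_left₀ hl0.le hl80 2
    have s4 : 19 * b00 ^ 2 + (1 / 10 ^ 40) ^ 2 + (4 / 2 + 2 / 3) * (1 / 10 ^ 80) ^ 2 ≤ eps ^ 2 := by
      rw [hb_val]; unfold eps; norm_num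
    have s5 : (4 / 2 + 2 / 3) * lam ^ 2 ≤ (4 / 2 + 2 / 3) * (1 / 10 ^ 80) ^ 2 :=
      mul_le_mul_of_nonneg_left s3 (by norm_num)
    linarith
  refine ⟨hEn, ?_, ?_, ?_⟩
  · -- momentum
    unfold Pre.P Pre.N
    rw [← intervalIntegral.integral_const_mul]
    congr 1
    funext r
    show r * R.g 0 r * Th (R.f 0 r) = -4 * om0 * (r * Th (R.f 0 r) * Real.sin (R.f 0 r))
    rw [hI.hg r]
    ring
  · -- size
    obtain ⟨l, hl, hlR1, hfl⟩ := exists_lam hs
    have hfl' : R.f 0 l = Real.pi / 2 := hfl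
    have hcos0 : Real.cos (R.f 0 l) = 0 := by rw [hfl']; exact Real.cos_pi_div_two
    have h1 := (hsin l hl).2.1
    rw [hcos0, sub_zero, le_div_iff₀ (by positivity), one_mul] at h1
    have h2 : l ≤ 2 * lam := by
      by_contra hlt
      push Not at hlt
      have h3 : (2 * lam) ^ 8 < l ^ 8 := pow_lt_pow_left₀ hlt (by positivity) (by norm_num)
      have h4 : 0 < lam ^ 8 := by positivity
      have h5 : (2 * lam) ^ 8 = 256 * lam ^ 8 := by ring
      have h6 : 2 * (lam ^ 4) ^ 2 = 2 * lam ^ 8 := by ring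
      linarith
    have h3 := (hsin l hl).2.2.2 (by linarith)
    rw [hcos0] at h3
    have h4 : l ^ 8 = (lam ^ 4) ^ 2 := by
      have h5 : 0 < l ^ 8 + (lam ^ 4) ^ 2 := by positivity
      have h6 : l ^ 8 - (lam ^ 4) ^ 2 = 0 := by
        rcases div_eq_zero_iff.mp h3.symm with h | h
        · exact h
        · exact absurd h h5.ne'
      linarith
    have h5 : l = lam := by
      have h6 : l ^ 8 = lam ^ 8 := by rw [h4]; ring
      exact (pow_left_inj₀ hl.le hl0.le (by norm_num)).mp h6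
    have h6 := N_lo hs hEn hl hlR1 hfl
    rw [h5] at h6
    exact h6
  · -- gauge energy
    have step : (R.pre 0).Ey R1 ≤ ∫ r in (0 : ℝ)..R1, ((8 * om0 ^ 2) * (r * Real.sin (R.f 0 r) ^ 2)
        + (C * lam ^ 4) ^ 2 + 16 * (r * R.S1 0 r ^ 2) + 2 * (r * Real.sin (R.f 0 r) ^ 2)) := by
      unfold Pre.Ey
      apply intervalIntegral.integral_mono_on hR1pos.le
      · apply Continuous.intervalIntegrable
        have h1 := hs.cyt
        have h2 := hs.cyr
        have h3 := hs.cf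
        have h4 := hs.cy
        fun_prop
      · apply Continuous.intervalIntegrable
        fun_prop
      · intro r hr
        show (1 / 2) * r * (dt R.y 0 r ^ 2 + dr R.y 0 r ^ 2
          + Real.sin (R.f 0 r) ^ 2 * R.y 0 r ^ 2) ≤ _
        rcases eq_or_lt_of_le hr.1 with h | h
        · rw [← h]
          simp only [mul_zero, zero_mul, add_zero, zero_add]
          positivity
        · have hs1 : Real.sin (R.f 0 r) / r = R.S1 0 r := by
            have h9 : r * R.S1 0 r = Real.sin (R.f 0 r) := R.r_S1 0 r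
            rw [div_eq_iff h.ne']
            linarith
          have hyr' : dr R.y 0 r = Real.sin (R.f 0 r) * (R.w 0 r - 4 * R.S1 0 r) := by
            rw [hyr r h, mul_div_assoc, hs1]
          rw [hyt r hr.1, hyr', hy r hr.1]
          have hsq : Real.sin (R.f 0 r) ^ 2 ≤ 1 := Real.sin_sq_le_one _
          have hsq0 : 0 ≤ Real.sin (R.f 0 r) ^ 2 := sq_nonneg _
          have a1 : (-4 * om0 * Real.sin (R.f 0 r) ^ 2) ^ 2
              ≤ 16 * om0 ^ 2 * Real.sin (R.f 0 r) ^ 2 := by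
            have : (-4 * om0 * Real.sin (R.f 0 r) ^ 2) ^ 2
              = (16 * om0 ^ 2 * Real.sin (R.f 0 r) ^ 2) * Real.sin (R.f 0 r) ^ 2 := by ring
            rw [this]
            have h5 : 0 ≤ 16 * om0 ^ 2 * Real.sin (R.f 0 r) ^ 2 := by positivity
            nlinarith
          have a2 : (Real.sin (R.f 0 r) * (R.w 0 r - 4 * R.S1 0 r)) ^ 2
              ≤ 2 * R.w 0 r ^ 2 + 32 * R.S1 0 r ^ 2 := by
            have e : (Real.sin (R.f 0 r) * (R.w 0 r - 4 * R.S1 0 r)) ^ 2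
              = Real.sin (R.f 0 r) ^ 2 * (R.w 0 r - 4 * R.S1 0 r) ^ 2 := by ring
            rw [e]
            have h5 : (R.w 0 r - 4 * R.S1 0 r) ^ 2 ≤ 2 * R.w 0 r ^ 2 + 32 * R.S1 0 r ^ 2 := by
              nlinarith [sq_nonneg (R.w 0 r + 4 * R.S1 0 r)]
            have h6 : 0 ≤ (R.w 0 r - 4 * R.S1 0 r) ^ 2 := sq_nonneg _
            nlinarith
          have a3 : Real.sin (R.f 0 r) ^ 2 * (1 - Real.cos (R.f 0 r)) ^ 2
              ≤ 4 * Real.sin (R.f 0 r) ^ 2 := by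
            have h5 : (1 - Real.cos (R.f 0 r)) ^ 2 ≤ 4 := by
              nlinarith [Real.neg_one_le_cos (R.f 0 r), Real.cos_le_one (R.f 0 r)]
            nlinarith
          have a4 : r * R.w 0 r ^ 2 ≤ 1 * (C * lam ^ 4) ^ 2 :=
            mul_le_mul (by linarith [hr.2]) (hw2 r hr.1) (sq_nonneg _) zero_le_one
          calc (1 / 2) * r * ((-4 * om0 * Real.sin (R.f 0 r) ^ 2) ^ 2
                + (Real.sin (R.f 0 r) * (R.w 0 r - 4 * R.S1 0 r)) ^ 2
                + Real.sin (R.f 0 r) ^ 2 * (1 - Real.cos (R.f 0 r)) ^ 2)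
              ≤ (1 / 2) * r * (16 * om0 ^ 2 * Real.sin (R.f 0 r) ^ 2
                + (2 * R.w 0 r ^ 2 + 32 * R.S1 0 r ^ 2) + 4 * Real.sin (R.f 0 r) ^ 2) := by
                apply mul_le_mul_of_nonneg_left _ (by positivity)
                linarith
            _ = (8 * om0 ^ 2) * (r * Real.sin (R.f 0 r) ^ 2) + r * R.w 0 r ^ 2
                + 16 * (r * R.S1 0 r ^ 2) + 2 * (r * Real.sin (R.f 0 r) ^ 2) := by ring
            _ ≤ _ := by linarith
    have hi1 : IntervalIntegrable (fun r => (8 * om0 ^ 2) * (r * Real.sin (R.f 0 r) ^ 2))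
        volume 0 R1 := by
      apply Continuous.intervalIntegrable; fun_prop
    have hi2 : IntervalIntegrable (fun _ : ℝ => (C * lam ^ 4) ^ 2) volume 0 R1 := by
      apply Continuous.intervalIntegrable; fun_prop
    have hi3 : IntervalIntegrable (fun r => 16 * (r * R.S1 0 r ^ 2)) volume 0 R1 := by
      apply Continuous.intervalIntegrable; fun_prop
    have hi4 : IntervalIntegrable (fun r => 2 * (r * Real.sin (R.f 0 r) ^ 2)) volume 0 R1 := by
      apply Continuous.intervalIntegrable; fun_prop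
    rw [intervalIntegral.integral_add ((hi1.add hi2).add hi3) hi4,
      intervalIntegral.integral_add (hi1.add hi2) hi3, intervalIntegral.integral_add hi1 hi2,
      intervalIntegral.integral_const_mul, intervalIntegral.integral_const, smul_eq_mul,
      intervalIntegral.integral_const_mul, intervalIntegral.integral_const_mul] at step
    have s1 : (8 * om0 ^ 2) * ∫ r in (0 : ℝ)..R1, r * Real.sin (R.f 0 r) ^ 2 ≤ 10 * b00 ^ 2 := by
      calc (8 * om0 ^ 2) * ∫ r in (0 : ℝ)..R1, r * Real.sin (R.f 0 r) ^ 2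
          ≤ (8 * om0 ^ 2) * ((1 / 2 + 2 / 3) * lam ^ 2) :=
            mul_le_mul_of_nonneg_left I1 (by positivity)
        _ = (8 * (1 / 2 + 2 / 3)) * (om0 * lam) ^ 2 := by ring
        _ = (8 * (1 / 2 + 2 / 3)) * b00 ^ 2 := by rw [homl]
        _ ≤ 10 * b00 ^ 2 := by
            apply mul_le_mul_of_nonneg_right _ (sq_nonneg _)
            norm_num
    have s2 : (R1 - 0) * (C * lam ^ 4) ^ 2 ≤ (1 / 10 ^ 40) ^ 2 := by
      have h1 : (C * lam ^ 4) ^ 2 ≤ (1 / 10 ^ 40) ^ 2 := pow_le_pow_left₀ hCl0 hCl 2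
      calc (R1 - 0) * (C * lam ^ 4) ^ 2 ≤ 1 * (1 / 10 ^ 40) ^ 2 :=
            mul_le_mul (by linarith) h1 (sq_nonneg _) zero_le_one
        _ = (1 / 10 ^ 40) ^ 2 := one_mul _
    have s3 : lam ^ 2 ≤ 1 := pow_le_one₀ hl0.le (by linarith)
    have s4 : 10 * b00 ^ 2 + (1 / 10 ^ 40) ^ 2 ≤ 1 := by
      rw [hb_val]; norm_num
    linarith

end H72GS
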