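import Pool.Agent.H72.GS.Comp

/-!
# SymR: rotations of space and of the target

`q = (p 0, cs p1 + sn p2, -sn p1 + cs p2)` (rotation by `-β`), `φ'(p) = Rot φ(q)` with the target
rotation `(CS, SN)`, `A'(p) = ` rotation by `β` of `(A₁,A₂)(q)`.  Chain rule (`pd_comp_linear`):
`∂_1 (u∘q) = (cs ∂_1 u - sn ∂_2 u)∘q`, `∂_2 (u∘q) = (sn ∂_1 u + cs ∂_2 u)∘q`.
So `D'_1 V' = cs (D_1 V)' - sn (D_2 V)'`, `D'_2 V' = sn (D_1V)' + cs (D_2V)'`, where
`V'(p) = Rot V(q)`; `D'_1D'_1 φ' + D'_2D'_2 φ' = (D_1D_1φ + D_2D_2φ)'`; `F'_{12} = F_{12}∘q`,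
`(F'_{01},F'_{02})` = rotation of `(F_{01},F_{02})∘q`; the Maxwell equations rotate accordingly.
Componentwise: `solvesAt_iff`.
-/

namespace H72GS

open Set
open scoped ContDiff

noncomputable section

/-- rotated point -/
def rotPt (cs sn : ℝ) (p : Pt) : Pt := ![p 0, cs * p 1 + sn * p 2, -sn * p 1 + cs * p 2]

/-- rotated configuration -/
def Config.rot (c : Config) (cs sn CS SN : ℝ) : Config where
  φ := fun p => ![CS * c.φ (rotPt cs sn p) 0 - SN * c.φ (rotPt cs sn p) 1,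
    SN * c.φ (rotPt cs sn p) 0 + CS * c.φ (rotPt cs sn p) 1, c.φ (rotPt cs sn p) 2]
  A := fun μ p => (![c.A 0 (rotPt cs sn p),
    cs * c.A 1 (rotPt cs sn p) - sn * c.A 2 (rotPt cs sn p),
    sn * c.A 1 (rotPt cs sn p) + cs * c.A 2 (rotPt cs sn p)] : Fin 3 → ℝ) μ

/-- the rotation matrix -/
def SymR_M (cs sn : ℝ) : Matrix (Fin 3) (Fin 3) ℝ := !![1, 0, 0; 0, cs, sn; 0, -sn, cs]

theorem SymR_mul (cs sn : ℝ) (p : Pt) : (SymR_M cs sn).mulVec p = rotPt cs sn p := by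
  funext i
  fin_cases i <;>
    simp [SymR_M, rotPt, Matrix.mulVec, dotProduct, Fin.sum_univ_three]

theorem SymR_smooth {u : Pt → ℝ} (hu : ContDiff ℝ ∞ u) (cs sn : ℝ) :
    ContDiff ℝ ∞ (fun p => u (rotPt cs sn p)) := by
  have h : ContDiff ℝ ∞ (rotPt cs sn) := by
    rw [contDiff_pi]
    intro i
    have h0 : ∀ j : Fin 3, ContDiff ℝ ∞ (fun p : Pt => p j) := fun j => contDiff_apply ℝ ℝ j
    fin_cases i
    · exact h0 0
    · exact (contDiff_const.mul (h0 1)).add (contDiff_const.mul (h0 2))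
    · exact (contDiff_const.mul (h0 1)).add (contDiff_const.mul (h0 2))
  exact hu.comp h

theorem SymR_pd0 {u : Pt → ℝ} (hu : ContDiff ℝ ∞ u) (cs sn : ℝ) (p : Pt) :
    pd 0 (fun q => u (rotPt cs sn q)) p = pd 0 u (rotPt cs sn p) := by
  have h := pd_comp_linear hu (SymR_M cs sn) 0 p
  simp only [SymR_mul] at h
  rw [h, Fin.sum_univ_three]
  simp [SymR_M]

theorem SymR_pd1 {u : Pt → ℝ} (hu : ContDiff ℝ ∞ u) (cs sn : ℝ) (p : Pt) :
    pd 1 (fun q => u (rotPt cs sn q)) p =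
      cs * pd 1 u (rotPt cs sn p) + (-sn) * pd 2 u (rotPt cs sn p) := by
  have h := pd_comp_linear hu (SymR_M cs sn) 1 p
  simp only [SymR_mul] at h
  rw [h, Fin.sum_univ_three]
  simp [SymR_M]

theorem SymR_pd2 {u : Pt → ℝ} (hu : ContDiff ℝ ∞ u) (cs sn : ℝ) (p : Pt) :
    pd 2 (fun q => u (rotPt cs sn q)) p =
      sn * pd 1 u (rotPt cs sn p) + cs * pd 2 u (rotPt cs sn p) := by
  have h := pd_comp_linear hu (SymR_M cs sn) 2 p
  simp only [SymR_mul] at h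
  rw [h, Fin.sum_univ_three]
  simp [SymR_M]

theorem SymR_lin {u v : Pt → ℝ} (hu : ContDiff ℝ ∞ u) (hv : ContDiff ℝ ∞ v) (a b : ℝ)
    (μ : Fin 3) (p : Pt) :
    pd μ (fun q => a * u q + b * v q) p = a * pd μ u p + b * pd μ v p := by
  have hu' : DifferentiableAt ℝ u p := (hu.differentiable (by simp)).differentiableAt
  have hv' : DifferentiableAt ℝ v p := (hv.differentiable (by simp)).differentiableAt
  unfold pd
  have h : HasFDerivAt (fun q => a * u q + b * v q)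
      (a • fderiv ℝ u p + b • fderiv ℝ v p) p :=
    (hu'.hasFDerivAt.const_mul a).add (hv'.hasFDerivAt.const_mul b)
  rw [h.fderiv]
  simp

/-- smooth field -/
def SymR_Sm (V : Pt → Fin 3 → ℝ) : Prop := ∀ i, ContDiff ℝ ∞ (fun p => V p i)

/-- the rotated field -/
def SymR_rot (cs sn CS SN : ℝ) (V : Pt → Fin 3 → ℝ) : Pt → Fin 3 → ℝ := fun p =>
  ![CS * V (rotPt cs sn p) 0 - SN * V (rotPt cs sn p) 1,
    SN * V (rotPt cs sn p) 0 + CS * V (rotPt cs sn p) 1, V (rotPt cs sn p) 2]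

/-- linear combination of fields -/
def SymR_comb (a b : ℝ) (V W : Pt → Fin 3 → ℝ) : Pt → Fin 3 → ℝ := fun p i =>
  a * V p i + b * W p i

theorem SymR_comb_sm {V W : Pt → Fin 3 → ℝ} (hV : SymR_Sm V) (hW : SymR_Sm W) (a b : ℝ) :
    SymR_Sm (SymR_comb a b V W) := fun i =>
  (contDiff_const.mul (hV i)).add (contDiff_const.mul (hW i))

theorem SymR_D_sm {c : Config} (hA : ∀ μ, ContDiff ℝ ∞ (c.A μ)) {V : Pt → Fin 3 → ℝ}
    (hV : SymR_Sm V) (μ : Fin 3) : SymR_Sm (c.D μ V) := by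
  intro i
  fin_cases i
  · change ContDiff ℝ ∞ (fun p => c.D μ V p 0)
    simp only [D_zero]
    exact (pd_smooth (hV 0) μ).sub ((hA μ).mul (hV 1))
  · change ContDiff ℝ ∞ (fun p => c.D μ V p 1)
    simp only [D_one]
    exact (pd_smooth (hV 1) μ).add ((hA μ).mul (hV 0))
  · change ContDiff ℝ ∞ (fun p => c.D μ V p 2)
    simp only [D_two]
    exact pd_smooth (hV 2) μ

theorem SymR_D_comb (c : Config) {V W : Pt → Fin 3 → ℝ} (hV : SymR_Sm V) (hW : SymR_Sm W)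
    (a b : ℝ) (μ : Fin 3) :
    c.D μ (SymR_comb a b V W) = SymR_comb a b (c.D μ V) (c.D μ W) := by
  funext p i
  fin_cases i
  · change c.D μ (SymR_comb a b V W) p 0 = a * c.D μ V p 0 + b * c.D μ W p 0
    rw [D_zero, D_zero, D_zero]
    unfold SymR_comb
    rw [SymR_lin (hV 0) (hW 0)]
    ring
  · change c.D μ (SymR_comb a b V W) p 1 = a * c.D μ V p 1 + b * c.D μ W p 1
    rw [D_one, D_one, D_one]
    unfold SymR_comb
    rw [SymR_lin (hV 1) (hW 1)]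
    ring
  · change c.D μ (SymR_comb a b V W) p 2 = a * c.D μ V p 2 + b * c.D μ W p 2
    rw [D_two, D_two, D_two]
    unfold SymR_comb
    rw [SymR_lin (hV 2) (hW 2)]

theorem SymR_rot_zero (cs sn CS SN : ℝ) (V : Pt → Fin 3 → ℝ) :
    (fun q => SymR_rot cs sn CS SN V q 0) = fun q =>
      CS * (fun r => V (rotPt cs sn r) 0) q + (-SN) * (fun r => V (rotPt cs sn r) 1) q := by
  funext q
  change CS * V (rotPt cs sn q) 0 - SN * V (rotPt cs sn q) 1 = _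
  ring

theorem SymR_rot_one (cs sn CS SN : ℝ) (V : Pt → Fin 3 → ℝ) :
    (fun q => SymR_rot cs sn CS SN V q 1) = fun q =>
      SN * (fun r => V (rotPt cs sn r) 0) q + CS * (fun r => V (rotPt cs sn r) 1) q := by
  funext q
  rfl

theorem SymR_rot_two (cs sn CS SN : ℝ) (V : Pt → Fin 3 → ℝ) :
    (fun q => SymR_rot cs sn CS SN V q 2) = fun q => V (rotPt cs sn q) 2 := by
  funext q
  rfl

section

variable {c : Config} {V : Pt → Fin 3 → ℝ} (cs sn CS SN : ℝ)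

/-- general form: if `∂_μ` and `A'_μ` transform with the coefficients `(a, b)` of `(∂_ν, A_ν)`,
`(∂_κ, A_κ)` then so does `D_μ`. -/
theorem SymR_gen (hV : SymR_Sm V) (μ ν κ : Fin 3) (a b : ℝ)
    (hpd : ∀ u : Pt → ℝ, ContDiff ℝ ∞ u → ∀ p, pd μ (fun q => u (rotPt cs sn q)) p =
      a * pd ν u (rotPt cs sn p) + b * pd κ u (rotPt cs sn p))
    (hA : ∀ p, (c.rot cs sn CS SN).A μ p =
      a * c.A ν (rotPt cs sn p) + b * c.A κ (rotPt cs sn p)) :
    (c.rot cs sn CS SN).D μ (SymR_rot cs sn CS SN V) =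
      SymR_rot cs sn CS SN (SymR_comb a b (c.D ν V) (c.D κ V)) := by
  funext p i
  have s0 := SymR_smooth (hV 0) cs sn
  have s1 := SymR_smooth (hV 1) cs sn
  fin_cases i
  · change (c.rot cs sn CS SN).D μ (SymR_rot cs sn CS SN V) p 0 =
      CS * (a * c.D ν V (rotPt cs sn p) 0 + b * c.D κ V (rotPt cs sn p) 0) -
        SN * (a * c.D ν V (rotPt cs sn p) 1 + b * c.D κ V (rotPt cs sn p) 1)
    rw [D_zero, SymR_rot_zero, SymR_lin s0 s1, hpd _ (hV 0), hpd _ (hV 1), hA, D_zero, D_zero,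
      D_one, D_one]
    change CS * _ + -SN * _ - _ * (SN * V (rotPt cs sn p) 0 + CS * V (rotPt cs sn p) 1) = _
    ring
  · change (c.rot cs sn CS SN).D μ (SymR_rot cs sn CS SN V) p 1 =
      SN * (a * c.D ν V (rotPt cs sn p) 0 + b * c.D κ V (rotPt cs sn p) 0) +
        CS * (a * c.D ν V (rotPt cs sn p) 1 + b * c.D κ V (rotPt cs sn p) 1)
    rw [D_one, SymR_rot_one, SymR_lin s0 s1, hpd _ (hV 0), hpd _ (hV 1), hA, D_zero, D_zero,
      D_one, D_one]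
    change SN * _ + CS * _ + _ * (CS * V (rotPt cs sn p) 0 - SN * V (rotPt cs sn p) 1) = _
    ring
  · change (c.rot cs sn CS SN).D μ (SymR_rot cs sn CS SN V) p 2 =
      a * c.D ν V (rotPt cs sn p) 2 + b * c.D κ V (rotPt cs sn p) 2
    rw [D_two, SymR_rot_two, hpd _ (hV 2), D_two, D_two]

theorem SymR_D0 (hV : SymR_Sm V) :
    (c.rot cs sn CS SN).D 0 (SymR_rot cs sn CS SN V) = SymR_rot cs sn CS SN (c.D 0 V) := by
  rw [SymR_gen cs sn CS SN hV 0 0 0 1 0 (fun u hu p => by rw [SymR_pd0 hu]; ring)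
    (fun p => by change c.A 0 (rotPt cs sn p) = _; ring)]
  congr 1
  funext p i
  simp [SymR_comb]

theorem SymR_D1 (hV : SymR_Sm V) :
    (c.rot cs sn CS SN).D 1 (SymR_rot cs sn CS SN V) =
      SymR_rot cs sn CS SN (SymR_comb cs (-sn) (c.D 1 V) (c.D 2 V)) :=
  SymR_gen cs sn CS SN hV 1 1 2 cs (-sn) (fun u hu p => by rw [SymR_pd1 hu])
    (fun p => by
      change cs * c.A 1 (rotPt cs sn p) - sn * c.A 2 (rotPt cs sn p) = _
      ring)

theorem SymR_D2 (hV : SymR_Sm V) :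
    (c.rot cs sn CS SN).D 2 (SymR_rot cs sn CS SN V) =
      SymR_rot cs sn CS SN (SymR_comb sn cs (c.D 1 V) (c.D 2 V)) :=
  SymR_gen cs sn CS SN hV 2 1 2 sn cs (fun u hu p => by rw [SymR_pd2 hu])
    (fun p => by
      change sn * c.A 1 (rotPt cs sn p) + cs * c.A 2 (rotPt cs sn p) = _
      rfl)

theorem SymR_F_smooth {c : Config} (hA : ∀ μ, ContDiff ℝ ∞ (c.A μ)) (μ ν : Fin 3) :
    ContDiff ℝ ∞ (c.F μ ν) := by
  have : c.F μ ν = fun p => pd μ (c.A ν) p - pd ν (c.A μ) p := by funext p; rfl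
  rw [this]
  exact (pd_smooth (hA ν) μ).sub (pd_smooth (hA μ) ν)

theorem SymR_A1 (c : Config) : (c.rot cs sn CS SN).A 1 = fun q =>
    cs * (fun r => c.A 1 (rotPt cs sn r)) q + (-sn) * (fun r => c.A 2 (rotPt cs sn r)) q := by
  funext q
  change cs * c.A 1 (rotPt cs sn q) - sn * c.A 2 (rotPt cs sn q) = _
  ring

theorem SymR_A2 (c : Config) : (c.rot cs sn CS SN).A 2 = fun q =>
    sn * (fun r => c.A 1 (rotPt cs sn r)) q + cs * (fun r => c.A 2 (rotPt cs sn r)) q := rfl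

theorem SymR_A0 (c : Config) : (c.rot cs sn CS SN).A 0 = fun q => c.A 0 (rotPt cs sn q) := rfl

theorem SymR_F01 {c : Config} (hA : ∀ μ, ContDiff ℝ ∞ (c.A μ)) :
    (c.rot cs sn CS SN).F 0 1 = fun q =>
      cs * (fun r => c.F 0 1 (rotPt cs sn r)) q + (-sn) * (fun r => c.F 0 2 (rotPt cs sn r)) q := by
  funext q
  change pd 0 ((c.rot cs sn CS SN).A 1) q - pd 1 ((c.rot cs sn CS SN).A 0) q = _
  rw [SymR_A1, SymR_A0, SymR_lin (SymR_smooth (hA 1) cs sn) (SymR_smooth (hA 2) cs sn),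
    SymR_pd0 (hA 1), SymR_pd0 (hA 2), SymR_pd1 (hA 0)]
  simp only [Config.F]
  ring

theorem SymR_F02 {c : Config} (hA : ∀ μ, ContDiff ℝ ∞ (c.A μ)) :
    (c.rot cs sn CS SN).F 0 2 = fun q =>
      sn * (fun r => c.F 0 1 (rotPt cs sn r)) q + cs * (fun r => c.F 0 2 (rotPt cs sn r)) q := by
  funext q
  change pd 0 ((c.rot cs sn CS SN).A 2) q - pd 2 ((c.rot cs sn CS SN).A 0) q = _
  rw [SymR_A2, SymR_A0, SymR_lin (SymR_smooth (hA 1) cs sn) (SymR_smooth (hA 2) cs sn),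
    SymR_pd0 (hA 1), SymR_pd0 (hA 2), SymR_pd2 (hA 0)]
  simp only [Config.F]
  ring

theorem SymR_F12 {c : Config} (hA : ∀ μ, ContDiff ℝ ∞ (c.A μ)) (h1 : cs ^ 2 + sn ^ 2 = 1) :
    (c.rot cs sn CS SN).F 1 2 = fun q => c.F 1 2 (rotPt cs sn q) := by
  funext q
  change pd 1 ((c.rot cs sn CS SN).A 2) q - pd 2 ((c.rot cs sn CS SN).A 1) q = _
  rw [SymR_A2, SymR_A1, SymR_lin (SymR_smooth (hA 1) cs sn) (SymR_smooth (hA 2) cs sn),
    SymR_lin (SymR_smooth (hA 1) cs sn) (SymR_smooth (hA 2) cs sn),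
    SymR_pd1 (hA 1), SymR_pd1 (hA 2), SymR_pd2 (hA 1), SymR_pd2 (hA 2)]
  simp only [Config.F]
  linear_combination
    (pd 1 (c.A 2) (rotPt cs sn q) - pd 2 (c.A 1) (rotPt cs sn q)) * h1

theorem SymR_F_anti (c : Config) (μ ν : Fin 3) : c.F μ ν = fun q => -c.F ν μ q := by
  funext q
  simp only [Config.F]
  ring

theorem SymR_F_diag (c : Config) (μ : Fin 3) : c.F μ μ = fun _ => 0 := by
  funext q
  simp only [Config.F]
  ring

end

theorem SymR_pd_zero (μ : Fin 3) (p : Pt) : pd μ (fun _ => (0 : ℝ)) p = 0 := by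
  unfold pd
  simp

theorem SymR_pd_neg {u : Pt → ℝ} (hu : ContDiff ℝ ∞ u) (μ : Fin 3) (p : Pt) :
    pd μ (fun q => -u q) p = -pd μ u p := by
  have h := SymR_lin hu hu (-1) 0 μ p
  simpa using h

theorem rot_temporal {c : Config} {b cs sn CS SN : ℝ} (h1 : cs ^ 2 + sn ^ 2 = 1)
    (h2 : CS ^ 2 + SN ^ 2 = 1) (hc : c.Temporal b) : (c.rot cs sn CS SN).Temporal b := by
  have hφ : SymR_Sm c.φ := hc.hφ
  have hA := hc.hA
  have hφ' : (c.rot cs sn CS SN).φ = SymR_rot cs sn CS SN c.φ := rfl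
  refine ⟨?_, ?_, ?_, ?_⟩
  · intro i
    rw [hφ']
    have s0 := SymR_smooth (hφ 0) cs sn
    have s1 := SymR_smooth (hφ 1) cs sn
    fin_cases i
    · change ContDiff ℝ ∞ (fun q => SymR_rot cs sn CS SN c.φ q 0)
      rw [SymR_rot_zero]
      exact (contDiff_const.mul s0).add (contDiff_const.mul s1)
    · change ContDiff ℝ ∞ (fun q => SymR_rot cs sn CS SN c.φ q 1)
      rw [SymR_rot_one]
      exact (contDiff_const.mul s0).add (contDiff_const.mul s1)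
    · exact SymR_smooth (hφ 2) cs sn
  · intro μ
    have s1 := SymR_smooth (hA 1) cs sn
    have s2 := SymR_smooth (hA 2) cs sn
    fin_cases μ
    · exact SymR_smooth (hA 0) cs sn
    · change ContDiff ℝ ∞ ((c.rot cs sn CS SN).A 1)
      rw [SymR_A1]
      exact (contDiff_const.mul s1).add (contDiff_const.mul s2)
    · change ContDiff ℝ ∞ ((c.rot cs sn CS SN).A 2)
      rw [SymR_A2]
      exact (contDiff_const.mul s1).add (contDiff_const.mul s2)
  · intro p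
    exact hc.A0 _
  · intro p hp
    set q := rotPt cs sn p with hq
    have hq' : q ∈ slab 0 b := hp
    obtain ⟨e1, ⟨e2, e3, e4⟩, e5⟩ := (solvesAt_iff c q).mp (hc.sol q hq')
    -- first derivatives
    have d0 := SymR_D0 (c := c) cs sn CS SN hφ
    have d1 := SymR_D1 (c := c) cs sn CS SN hφ
    have d2 := SymR_D2 (c := c) cs sn CS SN hφ
    have m0 := SymR_D_sm hA hφ 0
    have m1 := SymR_D_sm hA hφ 1
    have m2 := SymR_D_sm hA hφ 2
    -- second derivatives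
    have dd0 : (c.rot cs sn CS SN).D 0 ((c.rot cs sn CS SN).D 0 (c.rot cs sn CS SN).φ) =
        SymR_rot cs sn CS SN (c.D 0 (c.D 0 c.φ)) := by
      rw [hφ', d0, SymR_D0 cs sn CS SN m0]
    have dd1 : (c.rot cs sn CS SN).D 1 ((c.rot cs sn CS SN).D 1 (c.rot cs sn CS SN).φ) =
        SymR_rot cs sn CS SN (SymR_comb cs (-sn) (SymR_comb cs (-sn) (c.D 1 (c.D 1 c.φ))
          (c.D 1 (c.D 2 c.φ))) (SymR_comb cs (-sn) (c.D 2 (c.D 1 c.φ)) (c.D 2 (c.D 2 c.φ)))) := by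
      rw [hφ', d1, SymR_D1 cs sn CS SN (SymR_comb_sm m1 m2 cs (-sn)), SymR_D_comb c m1 m2,
        SymR_D_comb c m1 m2]
    have dd2 : (c.rot cs sn CS SN).D 2 ((c.rot cs sn CS SN).D 2 (c.rot cs sn CS SN).φ) =
        SymR_rot cs sn CS SN (SymR_comb sn cs (SymR_comb sn cs (c.D 1 (c.D 1 c.φ))
          (c.D 1 (c.D 2 c.φ))) (SymR_comb sn cs (c.D 2 (c.D 1 c.φ)) (c.D 2 (c.D 2 c.φ)))) := by
      rw [hφ', d2, SymR_D2 cs sn CS SN (SymR_comb_sm m1 m2 sn cs), SymR_D_comb c m1 m2,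
        SymR_D_comb c m1 m2]
    have w0 : Wf (c.rot cs sn CS SN) p 0 = CS * Wf c q 0 - SN * Wf c q 1 := by
      unfold Wf
      rw [dd0, dd1, dd2]
      simp only [SymR_rot, SymR_comb, ← hq, Matrix.cons_val_zero]
      have i1 : ((0 : Fin 3) = 2) = False := by decide
      have i2 : ((1 : Fin 3) = 2) = False := by decide
      simp only [i1, i2, if_false]
      linear_combination (-(CS * (c.D 1 (c.D 1 c.φ) q 0 + c.D 2 (c.D 2 c.φ) q 0)
        - SN * (c.D 1 (c.D 1 c.φ) q 1 + c.D 2 (c.D 2 c.φ) q 1))) * h1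
    have w1 : Wf (c.rot cs sn CS SN) p 1 = SN * Wf c q 0 + CS * Wf c q 1 := by
      unfold Wf
      rw [dd0, dd1, dd2]
      simp only [SymR_rot, SymR_comb, ← hq, Matrix.cons_val_one, Matrix.cons_val_zero]
      have i1 : ((0 : Fin 3) = 2) = False := by decide
      have i2 : ((1 : Fin 3) = 2) = False := by decide
      simp only [i1, i2, if_false]
      linear_combination (-(SN * (c.D 1 (c.D 1 c.φ) q 0 + c.D 2 (c.D 2 c.φ) q 0)
        + CS * (c.D 1 (c.D 1 c.φ) q 1 + c.D 2 (c.D 2 c.φ) q 1))) * h1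
    have w2 : Wf (c.rot cs sn CS SN) p 2 = Wf c q 2 := by
      unfold Wf
      rw [dd0, dd1, dd2]
      have e : (c.rot cs sn CS SN).φ p 2 = c.φ q 2 := rfl
      rw [e]
      change c.D 0 (c.D 0 c.φ) q 2 -
        (cs * (cs * c.D 1 (c.D 1 c.φ) q 2 + -sn * c.D 1 (c.D 2 c.φ) q 2) +
          -sn * (cs * c.D 2 (c.D 1 c.φ) q 2 + -sn * c.D 2 (c.D 2 c.φ) q 2)) -
        (sn * (sn * c.D 1 (c.D 1 c.φ) q 2 + cs * c.D 1 (c.D 2 c.φ) q 2) +
          cs * (sn * c.D 2 (c.D 1 c.φ) q 2 + cs * c.D 2 (c.D 2 c.φ) q 2)) - _ = _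
      linear_combination (-(c.D 1 (c.D 1 c.φ) q 2 + c.D 2 (c.D 2 c.φ) q 2)) * h1
    have f0 : (c.rot cs sn CS SN).φ p 0 = CS * c.φ q 0 - SN * c.φ q 1 := rfl
    have f1 : (c.rot cs sn CS SN).φ p 1 = SN * c.φ q 0 + CS * c.φ q 1 := rfl
    have f2 : (c.rot cs sn CS SN).φ p 2 = c.φ q 2 := rfl
    rw [solvesAt_iff]
    refine ⟨?_, ⟨?_, ?_, ?_⟩, ?_⟩
    · rw [f0, f1, f2]
      linear_combination e1 + (c.φ q 0 ^ 2 + c.φ q 1 ^ 2) * h2
    · rw [f1, f2, w1, w2]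
      linear_combination CS * e2 - SN * e3
    · rw [f0, f2, w0, w2]
      linear_combination CS * e3 + SN * e2
    · rw [f0, f1, w0, w1]
      linear_combination e4 + (c.φ q 0 * Wf c q 1 - c.φ q 1 * Wf c q 0) * h2
    · have F01 := SymR_F01 cs sn CS SN hA
      have F02 := SymR_F02 cs sn CS SN hA
      have F12 := SymR_F12 cs sn CS SN hA h1
      have sF : ∀ μ ν, ContDiff ℝ ∞ (fun r => c.F μ ν (rotPt cs sn r)) := fun μ ν =>
        SymR_smooth (SymR_F_smooth hA μ ν) cs sn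
      have sG01 : ContDiff ℝ ∞ ((c.rot cs sn CS SN).F 0 1) := by
        rw [F01]
        exact (contDiff_const.mul (sF 0 1)).add (contDiff_const.mul (sF 0 2))
      have sG02 : ContDiff ℝ ∞ ((c.rot cs sn CS SN).F 0 2) := by
        rw [F02]
        exact (contDiff_const.mul (sF 0 1)).add (contDiff_const.mul (sF 0 2))
      have sG12 : ContDiff ℝ ∞ ((c.rot cs sn CS SN).F 1 2) := by
        rw [F12]
        exact sF 1 2
      have hF := fun μ ν => SymR_F_smooth hA μ ν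
      have g0 := e5 0
      have g1 := e5 1
      have g2 := e5 2
      rw [SymR_F_diag c 0, SymR_pd_zero] at g0
      rw [SymR_F_diag c 1, SymR_pd_zero, SymR_F_anti c 1 0, SymR_pd_neg (hF 0 1)] at g1
      rw [SymR_F_diag c 2, SymR_pd_zero, SymR_F_anti c 2 0, SymR_pd_neg (hF 0 2),
        SymR_F_anti c 2 1, SymR_pd_neg (hF 1 2)] at g2
      intro μ
      fin_cases μ
      · change pd 0 ((c.rot cs sn CS SN).F 0 0) p - pd 1 ((c.rot cs sn CS SN).F 0 1) p -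
          pd 2 ((c.rot cs sn CS SN).F 0 2) p =
          (c.rot cs sn CS SN).φ p 0 * (c.rot cs sn CS SN).D 0 (c.rot cs sn CS SN).φ p 1 -
          (c.rot cs sn CS SN).φ p 1 * (c.rot cs sn CS SN).D 0 (c.rot cs sn CS SN).φ p 0
        rw [f0, f1, hφ', d0, SymR_F_diag, SymR_pd_zero, F01, F02, SymR_lin (sF 0 1) (sF 0 2),
          SymR_lin (sF 0 1) (sF 0 2), SymR_pd1 (hF 0 1), SymR_pd1 (hF 0 2), SymR_pd2 (hF 0 1),
          SymR_pd2 (hF 0 2), ← hq]
        change _ = (CS * c.φ q 0 - SN * c.φ q 1) *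
          (SN * c.D 0 c.φ q 0 + CS * c.D 0 c.φ q 1) -
          (SN * c.φ q 0 + CS * c.φ q 1) * (CS * c.D 0 c.φ q 0 - SN * c.D 0 c.φ q 1)
        linear_combination g0 - (pd 1 (c.F 0 1) q + pd 2 (c.F 0 2) q) * h1 -
          (c.φ q 0 * c.D 0 c.φ q 1 - c.φ q 1 * c.D 0 c.φ q 0) * h2
      · change pd 0 ((c.rot cs sn CS SN).F 1 0) p - pd 1 ((c.rot cs sn CS SN).F 1 1) p -
          pd 2 ((c.rot cs sn CS SN).F 1 2) p =
          (c.rot cs sn CS SN).φ p 0 * (c.rot cs sn CS SN).D 1 (c.rot cs sn CS SN).φ p 1 -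
          (c.rot cs sn CS SN).φ p 1 * (c.rot cs sn CS SN).D 1 (c.rot cs sn CS SN).φ p 0
        rw [f0, f1, hφ', d1, SymR_F_diag, SymR_pd_zero, SymR_F_anti (c.rot cs sn CS SN) 1 0,
          SymR_pd_neg sG01, F01, F12, SymR_lin (sF 0 1) (sF 0 2), SymR_pd0 (hF 0 1),
          SymR_pd0 (hF 0 2), SymR_pd2 (hF 1 2), ← hq]
        change _ = (CS * c.φ q 0 - SN * c.φ q 1) *
          (SN * (cs * c.D 1 c.φ q 0 + -sn * c.D 2 c.φ q 0) +
            CS * (cs * c.D 1 c.φ q 1 + -sn * c.D 2 c.φ q 1)) -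
          (SN * c.φ q 0 + CS * c.φ q 1) *
          (CS * (cs * c.D 1 c.φ q 0 + -sn * c.D 2 c.φ q 0) -
            SN * (cs * c.D 1 c.φ q 1 + -sn * c.D 2 c.φ q 1))
        linear_combination cs * g1 - sn * g2 -
          (cs * (c.φ q 0 * c.D 1 c.φ q 1 - c.φ q 1 * c.D 1 c.φ q 0) -
            sn * (c.φ q 0 * c.D 2 c.φ q 1 - c.φ q 1 * c.D 2 c.φ q 0)) * h2
      · change pd 0 ((c.rot cs sn CS SN).F 2 0) p - pd 1 ((c.rot cs sn CS SN).F 2 1) p -
          pd 2 ((c.rot cs sn CS SN).F 2 2) p =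
          (c.rot cs sn CS SN).φ p 0 * (c.rot cs sn CS SN).D 2 (c.rot cs sn CS SN).φ p 1 -
          (c.rot cs sn CS SN).φ p 1 * (c.rot cs sn CS SN).D 2 (c.rot cs sn CS SN).φ p 0
        rw [f0, f1, hφ', d2, SymR_F_diag, SymR_pd_zero, SymR_F_anti (c.rot cs sn CS SN) 2 0,
          SymR_pd_neg sG02, SymR_F_anti (c.rot cs sn CS SN) 2 1, SymR_pd_neg sG12, F02, F12,
          SymR_lin (sF 0 1) (sF 0 2), SymR_pd0 (hF 0 1),
          SymR_pd0 (hF 0 2), SymR_pd1 (hF 1 2), ← hq]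
        change _ = (CS * c.φ q 0 - SN * c.φ q 1) *
          (SN * (sn * c.D 1 c.φ q 0 + cs * c.D 2 c.φ q 0) +
            CS * (sn * c.D 1 c.φ q 1 + cs * c.D 2 c.φ q 1)) -
          (SN * c.φ q 0 + CS * c.φ q 1) *
          (CS * (sn * c.D 1 c.φ q 0 + cs * c.D 2 c.φ q 0) -
            SN * (sn * c.D 1 c.φ q 1 + cs * c.D 2 c.φ q 1))
        linear_combination sn * g1 + cs * g2 -
          (sn * (c.φ q 0 * c.D 1 c.φ q 1 - c.φ q 1 * c.D 1 c.φ q 0) +
            cs * (c.φ q 0 * c.D 2 c.φ q 1 - c.φ q 1 * c.D 2 c.φ q 0)) * h2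

end

end H72GS
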