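import Pool.Agent.H72.GS.Comp

/-!
# SymS: the reflection

`q = (p0, p1, -p2)`, `φ' = (φ₀, -φ₁, φ₂)(q)`, `A' = (-A₀, -A₁, A₂)(q)`.  Then
`D'_0 V' = (D_0 V)'`, `D'_1 V' = (D_1 V)'`, `D'_2 V' = -(D_2 V)'` with `V' = (V₀,-V₁,V₂)(q)`;
`F'_{01} = -F_{01}(q)`, `F'_{02} = F_{02}(q)`, `F'_{12} = F_{12}(q)`, `J'_0 = -J_0(q)`,
`J'_1 = -J_1(q)`, `J'_2 = J_2(q)`.
-/

namespace H72GS

open Set
open scoped ContDiff

noncomputable section

/-- reflected point -/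
def refPt (p : Pt) : Pt := ![p 0, p 1, -p 2]

/-- reflected configuration -/
def Config.refl (c : Config) : Config where
  φ := fun p => ![c.φ (refPt p) 0, -c.φ (refPt p) 1, c.φ (refPt p) 2]
  A := fun μ p => (![-c.A 0 (refPt p), -c.A 1 (refPt p), c.A 2 (refPt p)] : Fin 3 → ℝ) μ

/-- signs of the coordinates -/
def SymS_s : Fin 3 → ℝ := ![1, 1, -1]

/-- signs of the components of the map -/
def SymS_f : Fin 3 → ℝ := ![1, -1, 1]

theorem SymS_ss (μ : Fin 3) : SymS_s μ * SymS_s μ = 1 := by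
  fin_cases μ <;> simp [SymS_s]

theorem SymS_ff (i : Fin 3) : SymS_f i * SymS_f i = 1 := by
  fin_cases i <;> simp [SymS_f]

theorem SymS_ref (p : Pt) : refPt p = (Matrix.diagonal SymS_s).mulVec p := by
  ext i
  rw [Matrix.mulVec_diagonal]
  fin_cases i <;> simp [refPt, SymS_s]

theorem SymS_smooth : ContDiff ℝ ∞ refPt := by
  rw [contDiff_pi]
  intro i
  fin_cases i
  · exact contDiff_apply ℝ ℝ (0 : Fin 3)
  · exact contDiff_apply ℝ ℝ (1 : Fin 3)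
  · exact (contDiff_apply ℝ ℝ (2 : Fin 3)).neg

theorem SymS_comp {u : Pt → ℝ} (hu : ContDiff ℝ ∞ u) : ContDiff ℝ ∞ (fun q => u (refPt q)) :=
  hu.comp SymS_smooth

theorem SymS_pd {u : Pt → ℝ} (hu : ContDiff ℝ ∞ u) (k : ℝ) (μ : Fin 3) :
    pd μ (fun q => k * u (refPt q)) = fun p => (k * SymS_s μ) * pd μ u (refPt p) := by
  funext p
  have h1 : pd μ (fun q => u (refPt q)) p = SymS_s μ * pd μ u (refPt p) := by
    have h2 := pd_comp_linear hu (Matrix.diagonal SymS_s) μ p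
    have h3 : (fun q => u (refPt q)) = fun q => u ((Matrix.diagonal SymS_s).mulVec q) := by
      funext q; rw [SymS_ref]
    rw [h3, h2, ← SymS_ref, Finset.sum_eq_single μ]
    · rw [Matrix.diagonal_apply_eq]
    · intro ν _ hν
      rw [Matrix.diagonal_apply_ne _ hν, zero_mul]
    · intro h
      exact absurd (Finset.mem_univ μ) h
  have hd : DifferentiableAt ℝ (fun q => u (refPt q)) p :=
    (SymS_comp hu).contDiffAt.differentiableAt (by simp)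
  have h4 : pd μ (fun q => k * u (refPt q)) p = k * pd μ (fun q => u (refPt q)) p := by
    unfold pd
    rw [fderiv_const_mul hd]
    rfl
  rw [h4, h1]; ring

theorem SymS_A (c : Config) (μ : Fin 3) :
    c.refl.A μ = fun p => -(SymS_s μ) * c.A μ (refPt p) := by
  funext p
  fin_cases μ <;> simp [Config.refl, SymS_s]

theorem SymS_phi (c : Config) (i : Fin 3) :
    (fun p => c.refl.φ p i) = fun p => SymS_f i * c.φ (refPt p) i := by
  funext p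
  fin_cases i <;> simp [Config.refl, SymS_f]

theorem SymS_pd2 {u : Pt → ℝ} (hu : ContDiff ℝ ∞ u) (k : ℝ) (μ : Fin 3) (p : Pt) :
    pd μ (pd μ (fun q => k * u (refPt q))) p = k * pd μ (pd μ u) (refPt p) := by
  rw [SymS_pd hu, SymS_pd (pd_smooth hu μ)]
  simp only
  rw [mul_assoc k, SymS_ss, mul_one]

theorem SymS_F {c : Config} (hA : ∀ μ, ContDiff ℝ ∞ (c.A μ)) (μ ν : Fin 3) :
    c.refl.F μ ν = fun p => -(SymS_s μ * SymS_s ν) * c.F μ ν (refPt p) := by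
  funext p
  unfold Config.F
  rw [SymS_A, SymS_A, SymS_pd (hA ν), SymS_pd (hA μ)]
  ring

theorem SymS_F_smooth {c : Config} (hA : ∀ μ, ContDiff ℝ ∞ (c.A μ)) (μ ν : Fin 3) :
    ContDiff ℝ ∞ (c.F μ ν) := by
  have : c.F μ ν = fun p => pd μ (c.A ν) p - pd ν (c.A μ) p := rfl
  rw [this]
  exact (pd_smooth (hA ν) μ).sub (pd_smooth (hA μ) ν)

theorem SymS_pdF {c : Config} (hA : ∀ μ, ContDiff ℝ ∞ (c.A μ)) (μ ν : Fin 3) (p : Pt) :
    pd ν (c.refl.F μ ν) p = -(SymS_s μ) * pd ν (c.F μ ν) (refPt p) := by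
  rw [SymS_F hA, SymS_pd (SymS_F_smooth hA μ ν)]
  simp only
  have := SymS_ss ν
  calc -(SymS_s μ * SymS_s ν) * SymS_s ν * pd ν (c.F μ ν) (refPt p)
      = -(SymS_s μ) * (SymS_s ν * SymS_s ν) * pd ν (c.F μ ν) (refPt p) := by ring
    _ = _ := by rw [this, mul_one]

theorem SymS_D0 {c : Config} (hφ : ∀ i, ContDiff ℝ ∞ (fun p => c.φ p i)) (μ : Fin 3) (p : Pt) :
    c.refl.D μ c.refl.φ p 0 = SymS_s μ * c.D μ c.φ (refPt p) 0 := by
  rw [D_zero, D_zero, SymS_A, SymS_phi, SymS_pd (hφ 0)]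
  have h1 : c.refl.φ p 1 = -c.φ (refPt p) 1 := rfl
  have h2 : SymS_f 0 = 1 := rfl
  simp only
  rw [h1, h2]; ring

theorem SymS_D1 {c : Config} (hφ : ∀ i, ContDiff ℝ ∞ (fun p => c.φ p i)) (μ : Fin 3) (p : Pt) :
    c.refl.D μ c.refl.φ p 1 = -(SymS_s μ) * c.D μ c.φ (refPt p) 1 := by
  rw [D_one, D_one, SymS_A, SymS_phi, SymS_pd (hφ 1)]
  have h1 : c.refl.φ p 0 = c.φ (refPt p) 0 := rfl
  have h2 : SymS_f 1 = -1 := rfl
  simp only
  rw [h1, h2]; ring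

theorem SymS_DD0 {c : Config} (hφ : ∀ i, ContDiff ℝ ∞ (fun p => c.φ p i))
    (hA : ∀ μ, ContDiff ℝ ∞ (c.A μ)) (hφ' : ∀ i, ContDiff ℝ ∞ (fun p => c.refl.φ p i))
    (hA' : ∀ μ, ContDiff ℝ ∞ (c.refl.A μ)) (μ : Fin 3) (p : Pt) :
    c.refl.D μ (c.refl.D μ c.refl.φ) p 0 = c.D μ (c.D μ c.φ) (refPt p) 0 := by
  rw [DD_zero hφ' hA', DD_zero hφ hA, SymS_phi, SymS_phi, SymS_A, SymS_pd2 (hφ 0),
    SymS_pd (hφ 1), SymS_pd (hA μ)]
  have h1 : c.refl.φ p 1 = -c.φ (refPt p) 1 := rfl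
  have h0 : c.refl.φ p 0 = c.φ (refPt p) 0 := rfl
  have h2 : SymS_f 0 = 1 := rfl
  have h3 : SymS_f 1 = -1 := rfl
  simp only
  rw [h0, h1, h2, h3]
  have := SymS_ss μ
  linear_combination (-2 * c.A μ (refPt p) * pd μ (fun q => c.φ q 1) (refPt p)
    - pd μ (c.A μ) (refPt p) * c.φ (refPt p) 1 - c.A μ (refPt p) ^ 2 * c.φ (refPt p) 0) * this

theorem SymS_DD1 {c : Config} (hφ : ∀ i, ContDiff ℝ ∞ (fun p => c.φ p i))
    (hA : ∀ μ, ContDiff ℝ ∞ (c.A μ)) (hφ' : ∀ i, ContDiff ℝ ∞ (fun p => c.refl.φ p i))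
    (hA' : ∀ μ, ContDiff ℝ ∞ (c.refl.A μ)) (μ : Fin 3) (p : Pt) :
    c.refl.D μ (c.refl.D μ c.refl.φ) p 1 = -c.D μ (c.D μ c.φ) (refPt p) 1 := by
  rw [DD_one hφ' hA', DD_one hφ hA, SymS_phi, SymS_phi, SymS_A, SymS_pd2 (hφ 1),
    SymS_pd (hφ 0), SymS_pd (hA μ)]
  have h1 : c.refl.φ p 1 = -c.φ (refPt p) 1 := rfl
  have h0 : c.refl.φ p 0 = c.φ (refPt p) 0 := rfl
  have h2 : SymS_f 0 = 1 := rfl
  have h3 : SymS_f 1 = -1 := rfl
  simp only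
  rw [h0, h1, h2, h3]
  have := SymS_ss μ
  linear_combination (-2 * c.A μ (refPt p) * pd μ (fun q => c.φ q 0) (refPt p)
    - pd μ (c.A μ) (refPt p) * c.φ (refPt p) 0 + c.A μ (refPt p) ^ 2 * c.φ (refPt p) 1) * this

theorem SymS_DD2 {c : Config} (hφ : ∀ i, ContDiff ℝ ∞ (fun p => c.φ p i)) (μ : Fin 3) (p : Pt) :
    c.refl.D μ (c.refl.D μ c.refl.φ) p 2 = c.D μ (c.D μ c.φ) (refPt p) 2 := by
  rw [DD_two, DD_two, SymS_phi, SymS_pd2 (hφ 2)]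
  have h2 : SymS_f 2 = 1 := rfl
  rw [h2, one_mul]

theorem refl_temporal {c : Config} {b : ℝ} (hc : c.Temporal b) : c.refl.Temporal b := by
  have hφ := hc.hφ
  have hA := hc.hA
  have hφ' : ∀ i, ContDiff ℝ ∞ (fun p => c.refl.φ p i) := by
    intro i
    rw [SymS_phi]
    exact contDiff_const.mul (SymS_comp (hφ i))
  have hA' : ∀ μ, ContDiff ℝ ∞ (c.refl.A μ) := by
    intro μ
    rw [SymS_A]
    exact contDiff_const.mul (SymS_comp (hA μ))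
  refine ⟨hφ', hA', ?_, ?_⟩
  · intro p
    rw [SymS_A]
    simp only
    rw [hc.A0, mul_zero]
  · intro p hp
    have hp' : refPt p ∈ slab 0 b := hp
    obtain ⟨k1, ⟨k2, k3, k4⟩, k5⟩ := (solvesAt_iff c (refPt p)).mp (hc.sol _ hp')
    have f0 : c.refl.φ p 0 = c.φ (refPt p) 0 := rfl
    have f1 : c.refl.φ p 1 = -c.φ (refPt p) 1 := rfl
    have f2 : c.refl.φ p 2 = c.φ (refPt p) 2 := rfl
    have w0 : Wf c.refl p 0 = Wf c (refPt p) 0 := by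
      unfold Wf
      rw [SymS_DD0 hφ hA hφ' hA', SymS_DD0 hφ hA hφ' hA', SymS_DD0 hφ hA hφ' hA', f2]
    have w1 : Wf c.refl p 1 = -Wf c (refPt p) 1 := by
      unfold Wf
      rw [SymS_DD1 hφ hA hφ' hA', SymS_DD1 hφ hA hφ' hA', SymS_DD1 hφ hA hφ' hA']
      simp only [Fin.reduceEq, if_false]
      ring
    have w2 : Wf c.refl p 2 = Wf c (refPt p) 2 := by
      unfold Wf
      rw [SymS_DD2 hφ, SymS_DD2 hφ, SymS_DD2 hφ, f2]
    rw [solvesAt_iff]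
    refine ⟨?_, ⟨?_, ?_, ?_⟩, ?_⟩
    · rw [f0, f1, f2]; linarith [k1, neg_sq (c.φ (refPt p) 1)]
    · rw [f1, f2, w1, w2]; linarith
    · rw [f0, f2, w0, w2]; linarith
    · rw [f0, f1, w0, w1]; linarith
    · intro μ
      rw [SymS_pdF hA, SymS_pdF hA, SymS_pdF hA, SymS_D0 hφ, SymS_D1 hφ, f0, f1]
      have := k5 μ
      linear_combination (-(SymS_s μ)) * this

end

end H72GS
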