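import Pool.Agent.H72.GS.Uniq
import Pool.Agent.H72.GS.SymR
import Pool.Agent.H72.GS.SymS
import Pool.Agent.H72.GS.DataA

/-!
# Inv: the solution inherits the symmetries of the datum

`c` in temporal gauge with data `dat`; `c.rot (cos β) (sin β) (cos 4β) (sin 4β)` and `c.refl` are in
temporal gauge, solve, and have the same data (`dphi_rot`, `dphi_refl`; for the time derivatives:
`∂_t (c.rot ..) = Rot (∂_t c)(rotPt)`, because the rotation does not involve `t`); use `uniq`.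
(`φ' (0,x) = Rot(4β) dphi(R_{-β} x) = dphi(x)`.)
-/

namespace H72GS

open Set
open scoped ContDiff

/-- symmetric configuration in temporal gauge -/
structure SymConf (c : Config) (b : ℝ) : Prop where
  temp : c.Temporal b
  rot : ∀ β : ℝ, ∀ p ∈ hslab b,
    (c.rot (Real.cos β) (Real.sin β) (Real.cos (4 * β)) (Real.sin (4 * β))).φ p = c.φ p ∧
    ∀ μ, (c.rot (Real.cos β) (Real.sin β) (Real.cos (4 * β)) (Real.sin (4 * β))).A μ p = c.A μ p
  refl : ∀ p ∈ hslab b, c.refl.φ p = c.φ p ∧ ∀ μ, c.refl.A μ p = c.A μ p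
  south : c.φ (pt0 0 0) 2 = -1

/-- the reflection matrix -/
noncomputable def Inv_M : Matrix (Fin 3) (Fin 3) ℝ := !![1, 0, 0; 0, 1, 0; 0, 0, -1]

theorem Inv_mul (p : Pt) : Inv_M.mulVec p = refPt p := by
  funext i
  fin_cases i <;>
    simp [Inv_M, refPt, Matrix.mulVec, dotProduct, Fin.sum_univ_three]

theorem Inv_ref_smooth {u : Pt → ℝ} (hu : ContDiff ℝ ∞ u) :
    ContDiff ℝ ∞ (fun p => u (refPt p)) := by
  have h : ContDiff ℝ ∞ refPt := by
    rw [contDiff_pi]
    intro i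
    have h0 : ∀ j : Fin 3, ContDiff ℝ ∞ (fun p : Pt => p j) := fun j => contDiff_apply ℝ ℝ j
    fin_cases i
    · exact h0 0
    · exact h0 1
    · exact (h0 2).neg
  exact hu.comp h

theorem Inv_pd0 {u : Pt → ℝ} (hu : ContDiff ℝ ∞ u) (p : Pt) :
    pd 0 (fun q => u (refPt q)) p = pd 0 u (refPt p) := by
  have h := pd_comp_linear hu Inv_M 0 p
  simp only [Inv_mul] at h
  rw [h, Fin.sum_univ_three]
  simp [Inv_M]

theorem Inv_rotPt (cs sn x y : ℝ) :
    rotPt cs sn (pt0 x y) = pt0 (cs * x + sn * y) (-sn * x + cs * y) := by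
  funext i
  fin_cases i <;> simp [rotPt, pt0]

theorem Inv_refPt (x y : ℝ) : refPt (pt0 x y) = pt0 x (-y) := by
  funext i
  fin_cases i <;> simp [refPt, pt0]

theorem Inv_south {om0 ell : ℝ} (hl : 0 < ell) : (dat om0 ell).φ0 0 0 2 = -1 := by
  change ((0 ^ 2 + 0 ^ 2 : ℝ) ^ 4 - kap (0 ^ 2 + 0 ^ 2) ^ 2 * ell ^ 2) /
    den ell (0 ^ 2 + 0 ^ 2) = -1
  have h0 : (0 ^ 2 + 0 ^ 2 : ℝ) = 0 := by norm_num
  have hk : kap 0 = 1 := kap_one (by unfold R00; norm_num)
  rw [h0, hk]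
  unfold den
  rw [hk]
  have : ell ^ 2 ≠ 0 := by positivity
  field_simp
  ring

theorem symConf_of_data {c : Config} {b om0 ell : ℝ} (hl : 0 < ell) (hc : c.Temporal b)
    (h0 : ∀ x y i, c.φ (pt0 x y) i = (dat om0 ell).φ0 x y i ∧
        pd 0 (fun p => c.φ p i) (pt0 x y) = (dat om0 ell).φ1 x y i)
    (h1 : ∀ μ x y, c.A μ (pt0 x y) = 0 ∧ pd 0 (c.A μ) (pt0 x y) = 0) : SymConf c b := by
  have hφ := hc.hφ
  have hA := hc.hA
  refine ⟨hc, ?_, ?_, ?_⟩
  · intro β
    set cs := Real.cos β with hcs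
    set sn := Real.sin β with hsn
    set CS := Real.cos (4 * β) with hCS
    set SN := Real.sin (4 * β) with hSN
    have e1 : cs ^ 2 + sn ^ 2 = 1 := by rw [hcs, hsn]; exact Real.cos_sq_add_sin_sq β
    have e2 : CS ^ 2 + SN ^ 2 = 1 := by rw [hCS, hSN]; exact Real.cos_sq_add_sin_sq (4 * β)
    refine uniq (rot_temporal e1 e2 hc) hc ?_
    intro x y
    have hd := dphi_rot hl β x y
    rw [← hcs, ← hsn, ← hCS, ← hSN] at hd
    have hd0 := congrFun hd 0
    have hd1 := congrFun hd 1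
    have hd2 := congrFun hd 2
    simp only [Matrix.cons_val_zero, Matrix.cons_val_one, Matrix.cons_val_two] at hd0 hd1
    change _ = dphi ell x y 2 at hd2
    have s0 := SymR_smooth (hφ 0) cs sn
    have s1 := SymR_smooth (hφ 1) cs sn
    have t1 := SymR_smooth (hA 1) cs sn
    have t2 := SymR_smooth (hA 2) cs sn
    have hq := Inv_rotPt cs sn x y
    set X := cs * x + sn * y with hX
    set Y := -sn * x + cs * y with hY
    have k0 := h0 X Y 0
    have k1 := h0 X Y 1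
    have k2 := h0 X Y 2
    have l0 := h0 x y 0
    have l1 := h0 x y 1
    have l2 := h0 x y 2
    change _ = dphi ell X Y 0 ∧ _ = -4 * om0 * (dphi ell X Y 2 * dphi ell X Y 0) at k0
    change _ = dphi ell X Y 1 ∧ _ = -4 * om0 * (dphi ell X Y 2 * dphi ell X Y 1) at k1
    change _ = dphi ell X Y 2 ∧ _ = 4 * om0 * (dphi ell X Y 0 ^ 2 + dphi ell X Y 1 ^ 2) at k2
    change _ = dphi ell x y 0 ∧ _ = -4 * om0 * (dphi ell x y 2 * dphi ell x y 0) at l0
    change _ = dphi ell x y 1 ∧ _ = -4 * om0 * (dphi ell x y 2 * dphi ell x y 1) at l1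
    change _ = dphi ell x y 2 ∧ _ = 4 * om0 * (dphi ell x y 0 ^ 2 + dphi ell x y 1 ^ 2) at l2
    refine ⟨?_, ?_⟩
    · intro i
      fin_cases i
      · refine ⟨?_, ?_⟩
        · change CS * c.φ (rotPt cs sn (pt0 x y)) 0 - SN * c.φ (rotPt cs sn (pt0 x y)) 1 =
            c.φ (pt0 x y) 0
          rw [hq, k0.1, k1.1, l0.1, hd0, hd1]
          linear_combination (dphi ell x y 0) * e2
        · change pd 0 (fun q => SymR_rot cs sn CS SN c.φ q 0) (pt0 x y) =
            pd 0 (fun p => c.φ p 0) (pt0 x y)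
          rw [SymR_rot_zero, SymR_lin s0 s1, SymR_pd0 (hφ 0), SymR_pd0 (hφ 1), hq, k0.2, k1.2,
            l0.2, hd0, hd1, hd2]
          linear_combination (-4 * om0 * dphi ell x y 2 * dphi ell x y 0) * e2
      · refine ⟨?_, ?_⟩
        · change SN * c.φ (rotPt cs sn (pt0 x y)) 0 + CS * c.φ (rotPt cs sn (pt0 x y)) 1 =
            c.φ (pt0 x y) 1
          rw [hq, k0.1, k1.1, l1.1, hd0, hd1]
          linear_combination (dphi ell x y 1) * e2
        · change pd 0 (fun q => SymR_rot cs sn CS SN c.φ q 1) (pt0 x y) =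
            pd 0 (fun p => c.φ p 1) (pt0 x y)
          rw [SymR_rot_one, SymR_lin s0 s1, SymR_pd0 (hφ 0), SymR_pd0 (hφ 1), hq, k0.2, k1.2,
            l1.2, hd0, hd1, hd2]
          linear_combination (-4 * om0 * dphi ell x y 2 * dphi ell x y 1) * e2
      · refine ⟨?_, ?_⟩
        · change c.φ (rotPt cs sn (pt0 x y)) 2 = c.φ (pt0 x y) 2
          rw [hq, k2.1, l2.1, hd2]
        · change pd 0 (fun q => SymR_rot cs sn CS SN c.φ q 2) (pt0 x y) =
            pd 0 (fun p => c.φ p 2) (pt0 x y)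
          rw [SymR_rot_two, SymR_pd0 (hφ 2), hq, k2.2, l2.2, hd0, hd1]
          linear_combination (4 * om0 * (dphi ell x y 0 ^ 2 + dphi ell x y 1 ^ 2)) * e2
    · intro μ
      have a0 := h1 0 X Y
      have a1 := h1 1 X Y
      have a2 := h1 2 X Y
      fin_cases μ
      · refine ⟨?_, ?_⟩
        · change c.A 0 (rotPt cs sn (pt0 x y)) = c.A 0 (pt0 x y)
          rw [hq, a0.1, (h1 0 x y).1]
        · change pd 0 (fun q => c.A 0 (rotPt cs sn q)) (pt0 x y) = pd 0 (c.A 0) (pt0 x y)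
          rw [SymR_pd0 (hA 0), hq, a0.2, (h1 0 x y).2]
      · refine ⟨?_, ?_⟩
        · change cs * c.A 1 (rotPt cs sn (pt0 x y)) - sn * c.A 2 (rotPt cs sn (pt0 x y)) =
            c.A 1 (pt0 x y)
          rw [hq, a1.1, a2.1, (h1 1 x y).1]
          ring
        · change pd 0 ((c.rot cs sn CS SN).A 1) (pt0 x y) = pd 0 (c.A 1) (pt0 x y)
          rw [SymR_A1, SymR_lin t1 t2, SymR_pd0 (hA 1), SymR_pd0 (hA 2), hq, a1.2, a2.2,
            (h1 1 x y).2]
          ring
      · refine ⟨?_, ?_⟩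
        · change sn * c.A 1 (rotPt cs sn (pt0 x y)) + cs * c.A 2 (rotPt cs sn (pt0 x y)) =
            c.A 2 (pt0 x y)
          rw [hq, a1.1, a2.1, (h1 2 x y).1]
          ring
        · change pd 0 ((c.rot cs sn CS SN).A 2) (pt0 x y) = pd 0 (c.A 2) (pt0 x y)
          rw [SymR_A2, SymR_lin t1 t2, SymR_pd0 (hA 1), SymR_pd0 (hA 2), hq, a1.2, a2.2,
            (h1 2 x y).2]
          ring
  · refine uniq (refl_temporal hc) hc ?_
    intro x y
    have hq := Inv_refPt x y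
    have hd := dphi_refl ell x y
    have hd0 := congrFun hd 0
    have hd1 := congrFun hd 1
    have hd2 := congrFun hd 2
    simp only [Matrix.cons_val_zero, Matrix.cons_val_one] at hd0 hd1
    change _ = dphi ell x y 2 at hd2
    have k0 := h0 x (-y) 0
    have k1 := h0 x (-y) 1
    have k2 := h0 x (-y) 2
    have l0 := h0 x y 0
    have l1 := h0 x y 1
    have l2 := h0 x y 2
    change _ = dphi ell x (-y) 0 ∧ _ = -4 * om0 * (dphi ell x (-y) 2 * dphi ell x (-y) 0) at k0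
    change _ = dphi ell x (-y) 1 ∧ _ = -4 * om0 * (dphi ell x (-y) 2 * dphi ell x (-y) 1) at k1
    change _ = dphi ell x (-y) 2 ∧
      _ = 4 * om0 * (dphi ell x (-y) 0 ^ 2 + dphi ell x (-y) 1 ^ 2) at k2
    change _ = dphi ell x y 0 ∧ _ = -4 * om0 * (dphi ell x y 2 * dphi ell x y 0) at l0
    change _ = dphi ell x y 1 ∧ _ = -4 * om0 * (dphi ell x y 2 * dphi ell x y 1) at l1
    change _ = dphi ell x y 2 ∧ _ = 4 * om0 * (dphi ell x y 0 ^ 2 + dphi ell x y 1 ^ 2) at l2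
    refine ⟨?_, ?_⟩
    · intro i
      fin_cases i
      · refine ⟨?_, ?_⟩
        · change c.φ (refPt (pt0 x y)) 0 = c.φ (pt0 x y) 0
          rw [hq, k0.1, l0.1, hd0]
        · change pd 0 (fun q => c.φ (refPt q) 0) (pt0 x y) = pd 0 (fun p => c.φ p 0) (pt0 x y)
          rw [Inv_pd0 (hφ 0), hq, k0.2, l0.2, hd0, hd2]
      · refine ⟨?_, ?_⟩
        · change -c.φ (refPt (pt0 x y)) 1 = c.φ (pt0 x y) 1
          rw [hq, k1.1, l1.1, hd1]
          ring
        · change pd 0 (fun q => -(fun r => c.φ (refPt r) 1) q) (pt0 x y) =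
            pd 0 (fun p => c.φ p 1) (pt0 x y)
          rw [SymR_pd_neg (Inv_ref_smooth (hφ 1)), Inv_pd0 (hφ 1), hq, k1.2, l1.2, hd1, hd2]
          ring
      · refine ⟨?_, ?_⟩
        · change c.φ (refPt (pt0 x y)) 2 = c.φ (pt0 x y) 2
          rw [hq, k2.1, l2.1, hd2]
        · change pd 0 (fun q => c.φ (refPt q) 2) (pt0 x y) = pd 0 (fun p => c.φ p 2) (pt0 x y)
          rw [Inv_pd0 (hφ 2), hq, k2.2, l2.2, hd0, hd1]
          ring
    · intro μ
      have a0 := h1 0 x (-y)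
      have a1 := h1 1 x (-y)
      have a2 := h1 2 x (-y)
      fin_cases μ
      · refine ⟨?_, ?_⟩
        · change -c.A 0 (refPt (pt0 x y)) = c.A 0 (pt0 x y)
          rw [hq, a0.1, (h1 0 x y).1]
          ring
        · change pd 0 (fun q => -(fun r => c.A 0 (refPt r)) q) (pt0 x y) = pd 0 (c.A 0) (pt0 x y)
          rw [SymR_pd_neg (Inv_ref_smooth (hA 0)), Inv_pd0 (hA 0), hq, a0.2, (h1 0 x y).2]
          ring
      · refine ⟨?_, ?_⟩
        · change -c.A 1 (refPt (pt0 x y)) = c.A 1 (pt0 x y)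
          rw [hq, a1.1, (h1 1 x y).1]
          ring
        · change pd 0 (fun q => -(fun r => c.A 1 (refPt r)) q) (pt0 x y) = pd 0 (c.A 1) (pt0 x y)
          rw [SymR_pd_neg (Inv_ref_smooth (hA 1)), Inv_pd0 (hA 1), hq, a1.2, (h1 1 x y).2]
          ring
      · refine ⟨?_, ?_⟩
        · change c.A 2 (refPt (pt0 x y)) = c.A 2 (pt0 x y)
          rw [hq, a2.1, (h1 2 x y).1]
        · change pd 0 (fun q => c.A 2 (refPt q)) (pt0 x y) = pd 0 (c.A 2) (pt0 x y)
          rw [Inv_pd0 (hA 2), hq, a2.2, (h1 2 x y).2]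
  · rw [(h0 0 0 2).1]
    exact Inv_south hl

end H72GS
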