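import Mathlib

/-!
# Gauged sigma model (MP_c266fd_an): numerical constants and the cut-off in the target

`eps` bounds the square root of the first order energy, `Gam, Gam1` the second order energy,
`ep1 / om` is the length scale of the multiplier, `qq` the position of the cut-off in the target.
-/

namespace H72GS

open Set

noncomputable section

/-- square root of the (small) first order energy -/
def eps : ℝ := 1 / 10 ^ 22
/-- bootstrap constant for the second order energy -/
def Gam : ℝ := 13 * 10 ^ 6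
/-- bootstrap constant for the corrected second order energy -/
def Gam1 : ℝ := 10 ^ 7
/-- multiplier scale: `L = ep1 / om` -/
def ep1 : ℝ := 1 / 10 ^ 4
/-- cut-off parameter -/
def qq : ℝ := 1 / 10 ^ 36

/-- square of the positive part -/
def pp (u : ℝ) : ℝ := (max 0 u) ^ 2

/-- quadratic spline step: `0` for `u ≤ 0`, `1` for `u ≥ 1` -/
def Hs (u : ℝ) : ℝ := 2 * pp u - 4 * pp (u - 1 / 2) + 2 * pp (u - 1)

/-- derivative of `Hs` -/
def Hsd (u : ℝ) : ℝ := 4 * max 0 u - 8 * max 0 (u - 1 / 2) + 4 * max 0 (u - 1)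

/-- cut-off as a function of `c = cos f`: `1` for `c ≤ 1 - 2 qq`, `0` for `c ≥ 1 - qq` -/
def hc (c : ℝ) : ℝ := Hs ((1 - qq - c) / qq)

/-- derivative of `hc` -/
def hcd (c : ℝ) : ℝ := -(1 / qq) * Hsd ((1 - qq - c) / qq)

/-- `Θ(f) = sin f * hc (cos f)` -/
def Th (f : ℝ) : ℝ := Real.sin f * hc (Real.cos f)

/-- `Θ'` -/
def Thd (f : ℝ) : ℝ := Real.cos f * hc (Real.cos f) - Real.sin f ^ 2 * hcd (Real.cos f)

/-- `Ξ(f) = Θ(f) cos f - Θ'(f) sin f = sin³ f * hcd (cos f)` -/
def Xi (f : ℝ) : ℝ := Real.sin f ^ 3 * hcd (Real.cos f)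

/-- `J' = - Ξ`, `J 0 = 0` -/
def JJ (f : ℝ) : ℝ := -∫ s in (0 : ℝ)..f, Xi s

end

end H72GS
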