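import Pool.Agent.H72.GS.Rad

/-!
# Kin: smoothness, kinematic identities (all `t, r ∈ ℝ`)

`r S1 = s` (`sin π = 0`), `S1 t 0 = dr s t 0 = cos π · f_r(t,0) = 0`, so `w t 0 = 0`, `r w1 = w`;
`g t 0 = 0` since `f t 0 = π`; `e t 0 = 0`.
Identities are proved after multiplying by `r` (or `r²`) and using `cancel_r`.
* `dt_s`: `s_t = c g`; `dt S1 = Q (c g) = c g1`;
* `wt_eq`: `w_t = g_r + μ c g1 + e s` (`μ_t = r e`, `r e S1 = e s`);
* `yt_eq`: `y_t = e1 + e_r + g s`.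
* `fr_eq`: `r f_r = r w - μ s`;  `ar_eq`: `(r al)_r = r (y - 1 + c)`.
-/

namespace H72GS

open Set MeasureTheory intervalIntegral

namespace Rad

variable {T R0 : ℝ} (R : Rad T R0)

theorem s_sm : Sm R.s := R.sf.sin
theorem c_sm : Sm R.c := R.sf.cos
theorem S1_sm : Sm R.S1 := R.s_sm.Q
theorem mu_sm : Sm R.mu := (Sm.const 4).add (Sm.idr.mul R.sal)
theorem g_sm : Sm R.g := R.sf.dt
theorem e_sm : Sm R.e := R.sal.dt
theorem w_sm : Sm R.w := R.sf.dr.add (R.mu_sm.mul R.S1_sm)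
theorem al1_sm : Sm R.al1 := R.sal.Q
theorem y_sm : Sm R.y := ((R.al1_sm.add R.sal.dr).add (Sm.const 1)).sub R.c_sm
theorem w1_sm : Sm R.w1 := R.w_sm.Q
theorem g1_sm : Sm R.g1 := R.g_sm.Q
theorem e1_sm : Sm R.e1 := R.e_sm.Q

theorem Kin_s_zero (t : ℝ) : R.s t 0 = 0 := by
  unfold s
  rw [R.f0, Real.sin_pi]

theorem g_zero (t : ℝ) : R.g t 0 = 0 := by
  unfold g dt
  have h : (fun s => R.f s 0) = fun _ => Real.pi := funext fun s => R.f0 s
  rw [h, deriv_const]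

theorem e_zero (t : ℝ) : R.e t 0 = 0 := by
  unfold e dt
  have h : (fun s => R.al s 0) = fun _ => (0 : ℝ) := funext fun s => R.al0 s
  rw [h, deriv_const]

theorem dt_s (t r : ℝ) : dt R.s t r = R.c t r * R.g t r :=
  (R.sf.hasDerivAt_t t r).sin.deriv

theorem dt_c (t r : ℝ) : dt R.c t r = -(R.s t r * R.g t r) := by
  have h := (R.sf.hasDerivAt_t t r).cos.deriv
  rw [← neg_mul]
  exact h

theorem dr_s (t r : ℝ) : dr R.s t r = R.c t r * dr R.f t r :=
  (R.sf.hasDerivAt_r t r).sin.deriv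

theorem dr_c (t r : ℝ) : dr R.c t r = -(R.s t r * dr R.f t r) := by
  have h := (R.sf.hasDerivAt_r t r).cos.deriv
  rw [← neg_mul]
  exact h

theorem dt_mu (t r : ℝ) : dt R.mu t r = r * R.e t r :=
  (((R.sal.hasDerivAt_t t r).const_mul r).const_add 4).deriv

theorem r_S1 (t r : ℝ) : r * R.S1 t r = R.s t r := mul_Q R.s_sm (R.Kin_s_zero t) r
theorem r_al1 (t r : ℝ) : r * R.al1 t r = R.al t r := mul_Q R.sal (R.al0 t) r

theorem S1_zero (t : ℝ) : R.S1 t 0 = 0 := by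
  unfold S1
  rw [Q_zero, dr_s, R.fr0, mul_zero]

theorem w_zero (t : ℝ) : R.w t 0 = 0 := by
  unfold w
  rw [R.fr0, R.S1_zero, mul_zero, add_zero]

theorem r_w1 (t r : ℝ) : r * R.w1 t r = R.w t r := mul_Q R.w_sm (R.w_zero t) r
theorem r_g1 (t r : ℝ) : r * R.g1 t r = R.g t r := mul_Q R.g_sm (R.g_zero t) r
theorem r_e1 (t r : ℝ) : r * R.e1 t r = R.e t r := mul_Q R.e_sm (R.e_zero t) r

theorem dr_mu (t r : ℝ) : dr R.mu t r = r * (R.y t r - 1 + R.c t r) := by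
  have h : dr R.mu t r = 1 * R.al t r + r * dr R.al t r :=
    (((hasDerivAt_id r).mul (R.sal.hasDerivAt_r t r)).const_add 4).deriv
  rw [h, ← R.r_al1 t r]
  unfold y
  ring

theorem fr_eq (t r : ℝ) : r * dr R.f t r = r * R.w t r - R.mu t r * R.s t r := by
  rw [← R.r_S1 t r]
  unfold w
  ring

theorem Kin_dt_zero {u : ℝ → ℝ → ℝ} (h : ∀ t, u t 0 = 0) (t : ℝ) : dt u t 0 = 0 := by
  unfold dt
  have h1 : (fun s => u s 0) = fun _ => (0 : ℝ) := funext fun s => h s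
  rw [h1, deriv_const]

theorem dt_w1 (t r : ℝ) : r * dt R.w1 t r = dt R.w t r := by
  unfold w1
  rw [dt_Q R.w_sm]
  exact mul_Q R.w_sm.dt (Kin_dt_zero R.w_zero t) r

theorem Kin_dt_S1 (t r : ℝ) : r * dt R.S1 t r = R.c t r * R.g t r := by
  unfold S1
  rw [dt_Q R.s_sm, mul_Q R.s_sm.dt (Kin_dt_zero R.Kin_s_zero t) r, dt_s]

theorem wt_eq (t r : ℝ) : dt R.w t r =
    dr R.g t r + R.mu t r * R.c t r * R.g1 t r + R.e t r * R.s t r := by
  have hw : ∀ r, dt R.w t r = dt (dr R.f) t r + (dt R.mu t r * R.S1 t r + R.mu t r * dt R.S1 t r) :=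
    fun r => ((R.sf.dr.hasDerivAt_t t r).add
      ((R.mu_sm.hasDerivAt_t t r).mul (R.S1_sm.hasDerivAt_t t r))).deriv
  have hc : dt (dr R.f) = dr R.g := R.sf.comm
  have key : (fun r => dt R.w t r) = fun r =>
      dr R.g t r + R.mu t r * R.c t r * R.g1 t r + R.e t r * R.s t r := by
    apply cancel_r
    · exact R.w_sm.dt.cont_r t
    · exact ((R.g_sm.dr.add ((R.mu_sm.mul R.c_sm).mul R.g1_sm)).add (R.e_sm.mul R.s_sm)).cont_r t
    · intro r
      rw [hw r, hc, dt_mu, mul_add, mul_add]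
      have h1 : r * (R.mu t r * dt R.S1 t r) = R.mu t r * (R.c t r * R.g t r) := by
        rw [← R.Kin_dt_S1 t r]; ring
      have h2 : r * (r * R.e t r * R.S1 t r) = r * (R.e t r * R.s t r) := by
        rw [← R.r_S1 t r]; ring
      have h3 : R.mu t r * (R.c t r * R.g t r) = r * (R.mu t r * R.c t r * R.g1 t r) := by
        rw [← R.r_g1 t r]; ring
      rw [h1, h2, h3]
      ring
  exact congrFun key r

theorem yt_eq (t r : ℝ) : dt R.y t r = R.e1 t r + dr R.e t r + R.g t r * R.s t r := by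
  have hy : dt R.y t r = dt R.al1 t r + dt (dr R.al) t r - dt R.c t r :=
    ((((R.al1_sm.hasDerivAt_t t r).add (R.sal.dr.hasDerivAt_t t r)).add_const 1).sub
      (R.c_sm.hasDerivAt_t t r)).deriv
  have h1 : dt R.al1 = R.e1 := dt_Q R.sal
  have h2 : dt (dr R.al) = dr R.e := R.sal.comm
  rw [hy, h1, h2, dt_c]
  ring

end Rad

end H72GS
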