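import Pool.Agent.H72.GS.Defs
import Pool.Agent.H72.GS.ParamInt

/-!
# SH: energy inequality with finite speed of propagation

Suppose `e ≥ 0`, `∂_t e = ∂_1 q1 + ∂_2 q2 + rem`, `ν·q ≤ e` for `|ν| ≤ 1`, `|rem| ≤ C_K e` on
compact sets, `e = 0` at `t = 0`.  Then `e = 0`.
Proof for a point `(t*, x*, y*)`, `t* > 0`: `R = t* + 2`, `u(t,x,y) = R - t - √(1+(x-x*)²+(y-y*)²)`,
`ψ = (max 0 u)²` (`C¹`, derivative `2 max 0 u · ∂u`), `|∇_x ψ| ≤ 2 max 0 u = -ψ_t`.
`I(t) = ∫_{x*-R}^{x*+R} ∫_{y*-R}^{y*+R} ψ e dy dx` (iterated interval integrals; `ψ = 0` on the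
boundary of the box).  `I' = ∫∫ ψ_t e + ψ (∂_1 q1 + ∂_2 q2 + rem)
= ∫∫ ψ_t e - ψ_x q1 - ψ_y q2 + ψ rem ≤ C I` for `t ∈ [0,t*]`, `C` from the compact set
`[0,t*] × box`.  Gronwall (`I e^{-Ct}` antitone), `I(0) = 0`, so `I(t*) = 0`, and `ψ(t*,x*,y*) = 1`,
continuity, give `e(t*,x*,y*) = 0`.
-/

namespace H72GS

open Set
open scoped ContDiff

/-! ### double integrals -/

private noncomputable def SH_dbl (a b c d : ℝ) (F : ℝ → ℝ → ℝ) : ℝ :=
  ∫ x in a..b, ∫ y in c..d, F x y

private theorem SH_inner {F : ℝ → ℝ → ℝ} (hF : Continuous (fun p : ℝ × ℝ => F p.1 p.2)) (c d : ℝ) :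
    Continuous (fun x => ∫ y in c..d, F x y) :=
  intervalIntegral.continuous_parametric_intervalIntegral_of_continuous' hF c d

private theorem SH_slice {F : ℝ → ℝ → ℝ} (hF : Continuous (fun p : ℝ × ℝ => F p.1 p.2)) (x : ℝ) :
    Continuous (F x) := hF.comp (f := fun y : ℝ => (x, y)) (by fun_prop)

private theorem SH_sub {F G : ℝ → ℝ → ℝ} (hF : Continuous (fun p : ℝ × ℝ => F p.1 p.2))
    (hG : Continuous (fun p : ℝ × ℝ => G p.1 p.2)) (a b c d : ℝ) :
    SH_dbl a b c d (fun x y => F x y - G x y) = SH_dbl a b c d F - SH_dbl a b c d G := by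
  unfold SH_dbl
  rw [← intervalIntegral.integral_sub ((SH_inner hF c d).intervalIntegrable _ _)
    ((SH_inner hG c d).intervalIntegrable _ _)]
  refine intervalIntegral.integral_congr fun x _ => ?_
  exact intervalIntegral.integral_sub ((SH_slice hF x).intervalIntegrable _ _)
    ((SH_slice hG x).intervalIntegrable _ _)

private theorem SH_mono {F G : ℝ → ℝ → ℝ} (hF : Continuous (fun p : ℝ × ℝ => F p.1 p.2))
    (hG : Continuous (fun p : ℝ × ℝ => G p.1 p.2)) {a b c d : ℝ} (hab : a ≤ b) (hcd : c ≤ d)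
    (h : ∀ x ∈ Icc a b, ∀ y ∈ Icc c d, F x y ≤ G x y) :
    SH_dbl a b c d F ≤ SH_dbl a b c d G := by
  refine intervalIntegral.integral_mono_on hab ((SH_inner hF c d).intervalIntegrable _ _)
    ((SH_inner hG c d).intervalIntegrable _ _) fun x hx => ?_
  exact intervalIntegral.integral_mono_on hcd ((SH_slice hF x).intervalIntegrable _ _)
    ((SH_slice hG x).intervalIntegrable _ _) fun y hy => h x hx y hy

private theorem SH_const_mul (C : ℝ) (F : ℝ → ℝ → ℝ) (a b c d : ℝ) :
    SH_dbl a b c d (fun x y => C * F x y) = C * SH_dbl a b c d F := by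
  unfold SH_dbl
  simp only [intervalIntegral.integral_const_mul]

private theorem SH_pos {F : ℝ → ℝ → ℝ} (hF : Continuous (fun p : ℝ × ℝ => F p.1 p.2))
    {a b c d : ℝ} (hab : a < b) (hcd : c < d)
    (h : ∀ x ∈ Icc a b, ∀ y ∈ Icc c d, 0 ≤ F x y) {x0 y0 : ℝ} (hx0 : x0 ∈ Icc a b)
    (hy0 : y0 ∈ Icc c d) (h0 : 0 < F x0 y0) : 0 < SH_dbl a b c d F := by
  refine intervalIntegral.integral_pos hab (SH_inner hF c d).continuousOn (fun x hx => ?_)
    ⟨x0, hx0, ?_⟩
  · exact intervalIntegral.integral_nonneg hcd.le (h x (Ioc_subset_Icc_self hx))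
  · exact intervalIntegral.integral_pos hcd (SH_slice hF x0).continuousOn
      (fun y hy => h x0 hx0 y (Ioc_subset_Icc_self hy)) ⟨y0, hy0, h0⟩

/-! ### coordinates -/

private theorem SH_vec {α : Type*} [TopologicalSpace α] {f g h : α → ℝ} (hf : Continuous f)
    (hg : Continuous g) (hh : Continuous h) : Continuous (fun a => (![f a, g a, h a] : Pt)) := by
  refine continuous_pi fun i => ?_
  fin_cases i
  · exact hf
  · exact hg
  · exact hh

private theorem SH_pd_cont {G : Pt → ℝ} (hG : ContDiff ℝ 1 G) (μ : Fin 3) :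
    Continuous (pd μ G) := (hG.continuous_fderiv one_ne_zero).clm_apply continuous_const

private theorem SH_d0 {G : Pt → ℝ} (hG : ContDiff ℝ 1 G) (t x y : ℝ) :
    HasDerivAt (fun s => G ![s, x, y]) (pd 0 G ![t, x, y]) t := by
  have h1 := (hG.differentiable one_ne_zero ![t, x, y]).hasFDerivAt
  have h2 : HasDerivAt (fun s : ℝ => (![s, x, y] : Pt)) (Pi.single 0 1) t := by
    rw [hasDerivAt_pi]
    intro i
    fin_cases i
    · simpa using hasDerivAt_id' t
    · simpa using hasDerivAt_const t x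
    · simpa using hasDerivAt_const t y
  exact h1.comp_hasDerivAt t h2

private theorem SH_d1 {G : Pt → ℝ} (hG : ContDiff ℝ 1 G) (t x y : ℝ) :
    HasDerivAt (fun s => G ![t, s, y]) (pd 1 G ![t, x, y]) x := by
  have h1 := (hG.differentiable one_ne_zero ![t, x, y]).hasFDerivAt
  have h2 : HasDerivAt (fun s : ℝ => (![t, s, y] : Pt)) (Pi.single 1 1) x := by
    rw [hasDerivAt_pi]
    intro i
    fin_cases i
    · simpa using hasDerivAt_const x t
    · simpa using hasDerivAt_id' x
    · simpa using hasDerivAt_const x y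
  exact h1.comp_hasDerivAt x h2

private theorem SH_d2 {G : Pt → ℝ} (hG : ContDiff ℝ 1 G) (t x y : ℝ) :
    HasDerivAt (fun s => G ![t, x, s]) (pd 2 G ![t, x, y]) y := by
  have h1 := (hG.differentiable one_ne_zero ![t, x, y]).hasFDerivAt
  have h2 : HasDerivAt (fun s : ℝ => (![t, x, s] : Pt)) (Pi.single 2 1) y := by
    rw [hasDerivAt_pi]
    intro i
    fin_cases i
    · simpa using hasDerivAt_const y t
    · simpa using hasDerivAt_const y x
    · simpa using hasDerivAt_id' y
  exact h1.comp_hasDerivAt y h2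

/-! ### the weight -/

private theorem SH_pp (s : ℝ) : HasDerivAt (fun s : ℝ => (max 0 s) ^ 2) (2 * max 0 s) s := by
  rcases lt_trichotomy s 0 with h | h | h
  · have h1 : (fun s : ℝ => (max 0 s) ^ 2) =ᶠ[nhds s] fun _ => 0 := by
      filter_upwards [gt_mem_nhds h] with x hx
      rw [max_eq_left (le_of_lt hx)]; simp
    rw [max_eq_left h.le, mul_zero]
    exact (hasDerivAt_const s (0 : ℝ)).congr_of_eventuallyEq h1
  · subst h
    rw [max_self, mul_zero]
    rw [hasDerivAt_iff_isLittleO_nhds_zero]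
    simp only [zero_add, smul_zero, sub_zero, max_self]
    have h1 : (fun h : ℝ => (max 0 h) ^ 2 - 0 ^ 2) =O[nhds 0] fun h : ℝ => h ^ 2 := by
      refine Asymptotics.IsBigO.of_bound 1 (Filter.Eventually.of_forall fun h => ?_)
      rw [one_mul, Real.norm_eq_abs, Real.norm_eq_abs]
      rw [zero_pow two_ne_zero, sub_zero, abs_of_nonneg (sq_nonneg _), abs_of_nonneg (sq_nonneg _)]
      rcases le_total 0 h with h0 | h0
      · rw [max_eq_right h0]
      · rw [max_eq_left h0, zero_pow two_ne_zero]; positivity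
    have h2 : (fun h : ℝ => h ^ 2) =o[nhds 0] fun h : ℝ => h := by
      have := Asymptotics.isLittleO_pow_id (𝕜 := ℝ) (n := 2) one_lt_two
      simpa using this
    exact h1.trans_isLittleO h2
  · have h1 : (fun s : ℝ => (max 0 s) ^ 2) =ᶠ[nhds s] fun s => s ^ 2 := by
      filter_upwards [lt_mem_nhds h] with x hx
      rw [max_eq_right (le_of_lt hx)]
    rw [max_eq_right h.le]
    have h2 := hasDerivAt_pow 2 s
    simp only [Nat.cast_ofNat, Nat.add_one_sub_one, pow_one] at h2
    exact h2.congr_of_eventuallyEq h1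

/-- the root -/
private noncomputable def SH_r (x0 y0 x y : ℝ) : ℝ := Real.sqrt (1 + (x - x0) ^ 2 + (y - y0) ^ 2)

private noncomputable def SH_u (R x0 y0 t x y : ℝ) : ℝ := R - t - SH_r x0 y0 x y

private theorem SH_r_pos (x0 y0 x y : ℝ) : 0 < SH_r x0 y0 x y := Real.sqrt_pos.2 (by positivity)

private theorem SH_r_sq (x0 y0 x y : ℝ) : SH_r x0 y0 x y ^ 2 = 1 + (x - x0) ^ 2 + (y - y0) ^ 2 :=
  Real.sq_sqrt (by positivity)

private theorem SH_rx (x0 y0 x y : ℝ) :
    HasDerivAt (fun x => SH_r x0 y0 x y) ((x - x0) / SH_r x0 y0 x y) x := by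
  have h1 : HasDerivAt (fun x : ℝ => 1 + (x - x0) ^ 2 + (y - y0) ^ 2) (2 * (x - x0)) x := by
    have := ((((hasDerivAt_id x).sub_const x0).pow 2).const_add 1).add_const ((y - y0) ^ 2)
    simpa using this
  have h2 := h1.sqrt (by positivity)
  refine h2.congr_deriv ?_
  show 2 * (x - x0) / (2 * SH_r x0 y0 x y) = _
  have := (SH_r_pos x0 y0 x y).ne'
  field_simp

private theorem SH_ry (x0 y0 x y : ℝ) :
    HasDerivAt (fun y => SH_r x0 y0 x y) ((y - y0) / SH_r x0 y0 x y) y := by
  have h1 : HasDerivAt (fun y : ℝ => 1 + (x - x0) ^ 2 + (y - y0) ^ 2) (2 * (y - y0)) y := by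
    have := (((hasDerivAt_id y).sub_const y0).pow 2).const_add (1 + (x - x0) ^ 2)
    simpa using this
  have h2 := h1.sqrt (by positivity)
  refine h2.congr_deriv ?_
  show 2 * (y - y0) / (2 * SH_r x0 y0 x y) = _
  have := (SH_r_pos x0 y0 x y).ne'
  field_simp

private noncomputable def SH_P (R x0 y0 t x y : ℝ) : ℝ := (max 0 (SH_u R x0 y0 t x y)) ^ 2

private noncomputable def SH_Pt (R x0 y0 t x y : ℝ) : ℝ := 2 * max 0 (SH_u R x0 y0 t x y) * (-1)
private noncomputable def SH_Px (R x0 y0 t x y : ℝ) : ℝ :=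
  2 * max 0 (SH_u R x0 y0 t x y) * (-((x - x0) / SH_r x0 y0 x y))
private noncomputable def SH_Py (R x0 y0 t x y : ℝ) : ℝ :=
  2 * max 0 (SH_u R x0 y0 t x y) * (-((y - y0) / SH_r x0 y0 x y))

private theorem SH_dPt (R x0 y0 t x y : ℝ) :
    HasDerivAt (fun t => SH_P R x0 y0 t x y) (SH_Pt R x0 y0 t x y) t := by
  have h1 : HasDerivAt (fun t => SH_u R x0 y0 t x y) (-1) t := by
    exact ((hasDerivAt_id t).const_sub R).sub_const (SH_r x0 y0 x y)
  exact (SH_pp (SH_u R x0 y0 t x y)).comp t h1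

private theorem SH_dPx (R x0 y0 t x y : ℝ) :
    HasDerivAt (fun x => SH_P R x0 y0 t x y) (SH_Px R x0 y0 t x y) x := by
  have h1 : HasDerivAt (fun x => SH_u R x0 y0 t x y) (-((x - x0) / SH_r x0 y0 x y)) x := by
    exact (SH_rx x0 y0 x y).const_sub (R - t)
  exact (SH_pp (SH_u R x0 y0 t x y)).comp x h1

private theorem SH_dPy (R x0 y0 t x y : ℝ) :
    HasDerivAt (fun y => SH_P R x0 y0 t x y) (SH_Py R x0 y0 t x y) y := by
  have h1 : HasDerivAt (fun y => SH_u R x0 y0 t x y) (-((y - y0) / SH_r x0 y0 x y)) y := by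
    exact (SH_ry x0 y0 x y).const_sub (R - t)
  exact (SH_pp (SH_u R x0 y0 t x y)).comp y h1

section cont
variable {α : Type*} [TopologicalSpace α] {f g h : α → ℝ}

private theorem SH_r_c (x0 y0 : ℝ) (hg : Continuous g) (hh : Continuous h) :
    Continuous fun a => SH_r x0 y0 (g a) (h a) := by
  unfold SH_r; fun_prop

private theorem SH_u_c (R x0 y0 : ℝ) (hf : Continuous f) (hg : Continuous g) (hh : Continuous h) :
    Continuous fun a => max 0 (SH_u R x0 y0 (f a) (g a) (h a)) := by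
  have := SH_r_c x0 y0 hg hh
  unfold SH_u; fun_prop

private theorem SH_P_c (R x0 y0 : ℝ) (hf : Continuous f) (hg : Continuous g) (hh : Continuous h) :
    Continuous fun a => SH_P R x0 y0 (f a) (g a) (h a) := (SH_u_c R x0 y0 hf hg hh).pow 2

private theorem SH_Pt_c (R x0 y0 : ℝ) (hf : Continuous f) (hg : Continuous g) (hh : Continuous h) :
    Continuous fun a => SH_Pt R x0 y0 (f a) (g a) (h a) :=
  ((SH_u_c R x0 y0 hf hg hh).const_mul 2).mul continuous_const

private theorem SH_Px_c (R x0 y0 : ℝ) (hf : Continuous f) (hg : Continuous g) (hh : Continuous h) :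
    Continuous fun a => SH_Px R x0 y0 (f a) (g a) (h a) :=
  ((SH_u_c R x0 y0 hf hg hh).const_mul 2).mul
    ((hg.sub continuous_const).div (SH_r_c x0 y0 hg hh) fun _ => (SH_r_pos _ _ _ _).ne').neg

private theorem SH_Py_c (R x0 y0 : ℝ) (hf : Continuous f) (hg : Continuous g) (hh : Continuous h) :
    Continuous fun a => SH_Py R x0 y0 (f a) (g a) (h a) :=
  ((SH_u_c R x0 y0 hf hg hh).const_mul 2).mul
    ((hh.sub continuous_const).div (SH_r_c x0 y0 hg hh) fun _ => (SH_r_pos _ _ _ _).ne').neg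

end cont

private theorem SH_P_bx {R x0 y0 t x : ℝ} (ht : 0 ≤ t) (hx : R ≤ |x - x0|) (hR : 0 ≤ R) (y : ℝ) :
    SH_P R x0 y0 t x y = 0 := by
  have h1 : R ≤ SH_r x0 y0 x y := by
    apply Real.le_sqrt_of_sq_le
    have : R ^ 2 ≤ (x - x0) ^ 2 := by rw [← sq_abs (x - x0)]; gcongr
    nlinarith [sq_nonneg (y - y0)]
  unfold SH_P SH_u
  rw [max_eq_left (by linarith)]; simp

private theorem SH_P_by {R x0 y0 t y : ℝ} (ht : 0 ≤ t) (hy : R ≤ |y - y0|) (hR : 0 ≤ R) (x : ℝ) :
    SH_P R x0 y0 t x y = 0 := by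
  have h1 : R ≤ SH_r x0 y0 x y := by
    apply Real.le_sqrt_of_sq_le
    have : R ^ 2 ≤ (y - y0) ^ 2 := by rw [← sq_abs (y - y0)]; gcongr
    nlinarith [sq_nonneg (x - x0)]
  unfold SH_P SH_u
  rw [max_eq_left (by linarith)]; simp

/-- no boundary terms in the `x` direction -/
private theorem SH_Z1 {q : Pt → ℝ} (hq : ContDiff ℝ 1 q) {R x0 y0 t : ℝ} (ht : 0 ≤ t) (hR : 0 ≤ R) :
    SH_dbl (x0 - R) (x0 + R) (y0 - R) (y0 + R) (fun x y =>
      SH_Px R x0 y0 t x y * q ![t, x, y] + SH_P R x0 y0 t x y * pd 1 q ![t, x, y]) = 0 := by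
  have hqc := hq.continuous
  have hpc := SH_pd_cont hq 1
  have hD : ∀ x, HasDerivAt (fun x => ∫ y in (y0 - R)..(y0 + R), SH_P R x0 y0 t x y * q ![t, x, y])
      (∫ y in (y0 - R)..(y0 + R), (SH_Px R x0 y0 t x y * q ![t, x, y]
        + SH_P R x0 y0 t x y * pd 1 q ![t, x, y])) x := by
    intro x
    refine hasDerivAt_int (F := fun x y => SH_P R x0 y0 t x y * q ![t, x, y])
      (F' := fun x y => SH_Px R x0 y0 t x y * q ![t, x, y]
        + SH_P R x0 y0 t x y * pd 1 q ![t, x, y]) ?_ ?_ ?_ _ _ x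
    · intro x
      exact (SH_P_c R x0 y0 continuous_const continuous_const continuous_id).mul
        (hqc.comp (SH_vec continuous_const continuous_const continuous_id))
    · exact ((SH_Px_c R x0 y0 continuous_const continuous_fst continuous_snd).mul
        (hqc.comp (SH_vec continuous_const continuous_fst continuous_snd))).add
        ((SH_P_c R x0 y0 continuous_const continuous_fst continuous_snd).mul
        (hpc.comp (SH_vec continuous_const continuous_fst continuous_snd)))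
    · intro x y
      exact (SH_dPx R x0 y0 t x y).mul (SH_d1 hq t x y)
  unfold SH_dbl
  rw [ftc (F := fun x => ∫ y in (y0 - R)..(y0 + R), SH_P R x0 y0 t x y * q ![t, x, y])
    (by linarith) (fun x _ => (hD x).continuousAt.continuousWithinAt) ?_ (fun x _ => hD x)]
  · have e1 : ∀ x, R ≤ |x - x0| →
        ∫ y in (y0 - R)..(y0 + R), SH_P R x0 y0 t x y * q ![t, x, y] = 0 := by
      intro x hx
      simp only [SH_P_bx ht hx hR, zero_mul]
      simp
    rw [e1 (x0 + R) (by rw [add_sub_cancel_left]; exact le_abs_self R),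
      e1 (x0 - R) (by rw [sub_sub_cancel_left, abs_neg]; exact le_abs_self R), sub_zero]
  · refine (SH_inner (F := fun x y => SH_Px R x0 y0 t x y * q ![t, x, y]
      + SH_P R x0 y0 t x y * pd 1 q ![t, x, y]) ?_ _ _).continuousOn
    exact ((SH_Px_c R x0 y0 continuous_const continuous_fst continuous_snd).mul
        (hqc.comp (SH_vec continuous_const continuous_fst continuous_snd))).add
        ((SH_P_c R x0 y0 continuous_const continuous_fst continuous_snd).mul
        (hpc.comp (SH_vec continuous_const continuous_fst continuous_snd)))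

/-- no boundary terms in the `y` direction -/
private theorem SH_Z2 {q : Pt → ℝ} (hq : ContDiff ℝ 1 q) {R x0 y0 t : ℝ} (ht : 0 ≤ t) (hR : 0 ≤ R) :
    SH_dbl (x0 - R) (x0 + R) (y0 - R) (y0 + R) (fun x y =>
      SH_Py R x0 y0 t x y * q ![t, x, y] + SH_P R x0 y0 t x y * pd 2 q ![t, x, y]) = 0 := by
  have hqc := hq.continuous
  have hpc := SH_pd_cont hq 2
  unfold SH_dbl
  have e1 : ∀ x, ∫ y in (y0 - R)..(y0 + R), (SH_Py R x0 y0 t x y * q ![t, x, y]
      + SH_P R x0 y0 t x y * pd 2 q ![t, x, y]) = 0 := by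
    intro x
    have hD : ∀ y, HasDerivAt (fun y => SH_P R x0 y0 t x y * q ![t, x, y])
        (SH_Py R x0 y0 t x y * q ![t, x, y] + SH_P R x0 y0 t x y * pd 2 q ![t, x, y]) y :=
      fun y => (SH_dPy R x0 y0 t x y).mul (SH_d2 hq t x y)
    rw [ftc (F := fun y => SH_P R x0 y0 t x y * q ![t, x, y]) (by linarith)
      (fun y _ => (hD y).continuousAt.continuousWithinAt) ?_ (fun y _ => hD y)]
    · rw [SH_P_by ht (by rw [add_sub_cancel_left]; exact le_abs_self R) hR,
        SH_P_by ht (by rw [sub_sub_cancel_left, abs_neg]; exact le_abs_self R) hR]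
      ring
    · exact (((SH_Py_c R x0 y0 continuous_const continuous_const continuous_id).mul
        (hqc.comp (SH_vec continuous_const continuous_const continuous_id))).add
        ((SH_P_c R x0 y0 continuous_const continuous_const continuous_id).mul
        (hpc.comp (SH_vec continuous_const continuous_const continuous_id)))).continuousOn
  simp only [e1]
  simp

theorem sh {b : ℝ} {e q1 q2 : Pt → ℝ} (he : ContDiff ℝ 1 e)
    (h1 : ContDiff ℝ 1 q1) (h2 : ContDiff ℝ 1 q2) (h0 : ∀ p ∈ hslab b, 0 ≤ e p)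
    (hq : ∀ p ∈ hslab b, ∀ ν1 ν2 : ℝ, ν1 ^ 2 + ν2 ^ 2 ≤ 1 → ν1 * q1 p + ν2 * q2 p ≤ e p)
    (hrem : ∀ K : Set Pt, IsCompact K → K ⊆ hslab b →
      ∃ C, ∀ p ∈ K, |pd 0 e p - pd 1 q1 p - pd 2 q2 p| ≤ C * e p)
    (hinit : ∀ x y, e (pt0 x y) = 0) : ∀ p ∈ hslab b, e p = 0 := by
  intro p hp
  obtain ⟨ts, x0, y0, rfl⟩ : ∃ t x y, p = ![t, x, y] := by
    refine ⟨p 0, p 1, p 2, ?_⟩
    funext i
    fin_cases i <;> rfl
  have hts : 0 ≤ ts ∧ ts < b := hp
  rcases hts.1.eq_or_lt with hz | hpos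
  · rw [← hz]; exact hinit x0 y0
  by_contra hne
  have hep : 0 < e ![ts, x0, y0] := lt_of_le_of_ne (h0 _ hp) (Ne.symm hne)
  set R : ℝ := ts + 2 with hRdef
  have hR : 0 < R := by linarith
  -- the compact set
  set K : Set Pt := Icc (![0, x0 - R, y0 - R] : Pt) ![ts, x0 + R, y0 + R] with hK
  have hKc : IsCompact K := isCompact_Icc
  have hmemK : ∀ t ∈ Icc 0 ts, ∀ x ∈ Icc (x0 - R) (x0 + R), ∀ y ∈ Icc (y0 - R) (y0 + R),
      (![t, x, y] : Pt) ∈ K := by
    intro t ht x hx y hy
    constructor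
    · intro i; fin_cases i
      · exact ht.1
      · exact hx.1
      · exact hy.1
    · intro i; fin_cases i
      · exact ht.2
      · exact hx.2
      · exact hy.2
  have hKs : K ⊆ hslab b := by
    intro q hq'
    exact ⟨hq'.1 0, lt_of_le_of_lt (hq'.2 0) hts.2⟩
  obtain ⟨C, hC⟩ := hrem K hKc hKs
  -- the integral
  have hec := he.continuous
  have hq1c := h1.continuous
  have hq2c := h2.continuous
  have hd0 := SH_pd_cont he 0
  have hd1 := SH_pd_cont h1 1
  have hd2 := SH_pd_cont h2 2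
  set I : ℝ → ℝ := fun t => SH_dbl (x0 - R) (x0 + R) (y0 - R) (y0 + R)
    (fun x y => SH_P R x0 y0 t x y * e ![t, x, y]) with hI
  set I' : ℝ → ℝ := fun t => SH_dbl (x0 - R) (x0 + R) (y0 - R) (y0 + R)
    (fun x y => SH_Pt R x0 y0 t x y * e ![t, x, y] + SH_P R x0 y0 t x y * pd 0 e ![t, x, y]) with hI'
  have hder : ∀ t, HasDerivAt I (I' t) t := by
    intro t
    refine hasDerivAt_int (F := fun t x => ∫ y in (y0 - R)..(y0 + R),
        SH_P R x0 y0 t x y * e ![t, x, y])
      (F' := fun t x => ∫ y in (y0 - R)..(y0 + R), (SH_Pt R x0 y0 t x y * e ![t, x, y]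
        + SH_P R x0 y0 t x y * pd 0 e ![t, x, y])) ?_ ?_ ?_ _ _ t
    · intro t
      refine SH_inner (F := fun x y => SH_P R x0 y0 t x y * e ![t, x, y]) ?_ _ _
      exact (SH_P_c R x0 y0 continuous_const continuous_fst continuous_snd).mul
        (hec.comp (SH_vec continuous_const continuous_fst continuous_snd))
    · refine intervalIntegral.continuous_parametric_intervalIntegral_of_continuous'
        (f := fun (p : ℝ × ℝ) y => SH_Pt R x0 y0 p.1 p.2 y * e ![p.1, p.2, y]
        + SH_P R x0 y0 p.1 p.2 y * pd 0 e ![p.1, p.2, y]) ?_ _ _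
      have c1 : Continuous fun q : (ℝ × ℝ) × ℝ => q.1.1 := by fun_prop
      have c2 : Continuous fun q : (ℝ × ℝ) × ℝ => q.1.2 := by fun_prop
      have c3 : Continuous fun q : (ℝ × ℝ) × ℝ => q.2 := by fun_prop
      exact ((SH_Pt_c R x0 y0 c1 c2 c3).mul (hec.comp (SH_vec c1 c2 c3))).add
        ((SH_P_c R x0 y0 c1 c2 c3).mul (hd0.comp (SH_vec c1 c2 c3)))
    · intro t x
      refine hasDerivAt_int (F := fun t y => SH_P R x0 y0 t x y * e ![t, x, y])
        (F' := fun t y => SH_Pt R x0 y0 t x y * e ![t, x, y]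
          + SH_P R x0 y0 t x y * pd 0 e ![t, x, y]) ?_ ?_ ?_ _ _ t
      · intro t
        exact (SH_P_c R x0 y0 continuous_const continuous_const continuous_id).mul
          (hec.comp (SH_vec continuous_const continuous_const continuous_id))
      · exact ((SH_Pt_c R x0 y0 continuous_fst continuous_const continuous_snd).mul
          (hec.comp (SH_vec continuous_fst continuous_const continuous_snd))).add
          ((SH_P_c R x0 y0 continuous_fst continuous_const continuous_snd).mul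
          (hd0.comp (SH_vec continuous_fst continuous_const continuous_snd)))
      · intro t y
        exact (SH_dPt R x0 y0 t x y).mul (SH_d0 he t x y)
  -- the differential inequality
  have hineq : ∀ t ∈ Icc 0 ts, I' t ≤ C * I t := by
    intro t ht
    have cf := continuous_const (X := ℝ × ℝ) (y := t)
    have cA : Continuous fun p : ℝ × ℝ => SH_Pt R x0 y0 t p.1 p.2 * e ![t, p.1, p.2]
        + SH_P R x0 y0 t p.1 p.2 * pd 0 e ![t, p.1, p.2] :=
      ((SH_Pt_c R x0 y0 cf continuous_fst continuous_snd).mul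
        (hec.comp (SH_vec cf continuous_fst continuous_snd))).add
        ((SH_P_c R x0 y0 cf continuous_fst continuous_snd).mul
        (hd0.comp (SH_vec cf continuous_fst continuous_snd)))
    have cB : Continuous fun p : ℝ × ℝ => SH_Px R x0 y0 t p.1 p.2 * q1 ![t, p.1, p.2]
        + SH_P R x0 y0 t p.1 p.2 * pd 1 q1 ![t, p.1, p.2] :=
      ((SH_Px_c R x0 y0 cf continuous_fst continuous_snd).mul
        (hq1c.comp (SH_vec cf continuous_fst continuous_snd))).add
        ((SH_P_c R x0 y0 cf continuous_fst continuous_snd).mul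
        (hd1.comp (SH_vec cf continuous_fst continuous_snd)))
    have cD : Continuous fun p : ℝ × ℝ => SH_Py R x0 y0 t p.1 p.2 * q2 ![t, p.1, p.2]
        + SH_P R x0 y0 t p.1 p.2 * pd 2 q2 ![t, p.1, p.2] :=
      ((SH_Py_c R x0 y0 cf continuous_fst continuous_snd).mul
        (hq2c.comp (SH_vec cf continuous_fst continuous_snd))).add
        ((SH_P_c R x0 y0 cf continuous_fst continuous_snd).mul
        (hd2.comp (SH_vec cf continuous_fst continuous_snd)))
    have cE : Continuous fun p : ℝ × ℝ => C * (SH_P R x0 y0 t p.1 p.2 * e ![t, p.1, p.2]) :=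
      ((SH_P_c R x0 y0 cf continuous_fst continuous_snd).mul
        (hec.comp (SH_vec cf continuous_fst continuous_snd))).const_mul C
    have e1 := SH_sub (F := fun x y => SH_Pt R x0 y0 t x y * e ![t, x, y]
        + SH_P R x0 y0 t x y * pd 0 e ![t, x, y])
      (G := fun x y => SH_Px R x0 y0 t x y * q1 ![t, x, y]
        + SH_P R x0 y0 t x y * pd 1 q1 ![t, x, y]) cA cB (x0 - R) (x0 + R) (y0 - R) (y0 + R)
    rw [SH_Z1 h1 ht.1 hR.le, sub_zero] at e1
    have e2 := SH_sub (F := fun x y => (SH_Pt R x0 y0 t x y * e ![t, x, y]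
        + SH_P R x0 y0 t x y * pd 0 e ![t, x, y]) - (SH_Px R x0 y0 t x y * q1 ![t, x, y]
        + SH_P R x0 y0 t x y * pd 1 q1 ![t, x, y]))
      (G := fun x y => SH_Py R x0 y0 t x y * q2 ![t, x, y]
        + SH_P R x0 y0 t x y * pd 2 q2 ![t, x, y]) (cA.sub cB) cD (x0 - R) (x0 + R) (y0 - R) (y0 + R)
    rw [SH_Z2 h2 ht.1 hR.le, sub_zero, e1] at e2
    show SH_dbl (x0 - R) (x0 + R) (y0 - R) (y0 + R) (fun x y => SH_Pt R x0 y0 t x y * e ![t, x, y]
      + SH_P R x0 y0 t x y * pd 0 e ![t, x, y]) ≤ C * SH_dbl (x0 - R) (x0 + R) (y0 - R) (y0 + R)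
        (fun x y => SH_P R x0 y0 t x y * e ![t, x, y])
    rw [← SH_const_mul, ← e2]
    refine SH_mono ((cA.sub cB).sub cD) cE (by linarith) (by linarith) fun x hx y hy => ?_
    have hmem := hmemK t ht x hx y hy
    have hr := (abs_le.1 (hC _ hmem)).2
    have hrp := SH_r_pos x0 y0 x y
    have hνsq : ((x - x0) / SH_r x0 y0 x y) ^ 2 + ((y - y0) / SH_r x0 y0 x y) ^ 2 ≤ 1 := by
      rw [div_pow, div_pow, ← add_div, div_le_one (by positivity), SH_r_sq]
      linarith
    have hν := hq _ (hKs hmem) _ _ hνsq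
    have hu0 : 0 ≤ max 0 (SH_u R x0 y0 t x y) := le_max_left _ _
    have hP0 : 0 ≤ SH_P R x0 y0 t x y := sq_nonneg _
    have m1 := mul_le_mul_of_nonneg_left hν hu0
    have m2 := mul_le_mul_of_nonneg_left hr hP0
    unfold SH_Pt SH_Px SH_Py
    generalize max 0 (SH_u R x0 y0 t x y) = m at *
    generalize SH_P R x0 y0 t x y = P at *
    generalize (x - x0) / SH_r x0 y0 x y = n1 at *
    generalize (y - y0) / SH_r x0 y0 x y = n2 at *
    nlinarith
  -- Gronwall
  have hI0 : I 0 = 0 := by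
    have : ∀ x y, e ![0, x, y] = 0 := fun x y => hinit x y
    simp only [hI, this, mul_zero, SH_dbl]
    simp
  set φ : ℝ → ℝ := fun t => I t * Real.exp (-C * t) with hφ
  have hφd : ∀ t, HasDerivAt φ (I' t * Real.exp (-C * t) + I t * (Real.exp (-C * t) * -C)) t := by
    intro t
    have h3 : HasDerivAt (fun t => Real.exp (-C * t)) (Real.exp (-C * t) * -C) t := by
      have h4 : HasDerivAt (fun t : ℝ => -C * t) (-C) t := by
        simpa using (hasDerivAt_id t).const_mul (-C)
      exact h4.exp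
    exact (hder t).mul h3
  have hanti : AntitoneOn φ (Icc 0 ts) := by
    refine antitoneOn_of_deriv_nonpos (convex_Icc 0 ts)
      (fun t _ => (hφd t).continuousAt.continuousWithinAt)
      (fun t _ => (hφd t).differentiableAt.differentiableWithinAt) fun t ht => ?_
    rw [interior_Icc] at ht
    rw [(hφd t).deriv]
    have h3 := hineq t ⟨ht.1.le, ht.2.le⟩
    have h4 := Real.exp_pos (-C * t)
    nlinarith
  have hle : φ ts ≤ φ 0 := hanti ⟨le_refl _, hpos.le⟩ ⟨hpos.le, le_refl _⟩ hpos.le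
  have hφ0 : φ 0 = 0 := by simp [hφ, hI0]
  rw [hφ0] at hle
  have hIts : I ts ≤ 0 := by
    by_contra hcon
    push Not at hcon
    have : 0 < φ ts := mul_pos hcon (Real.exp_pos _)
    linarith
  have hIpos : 0 < I ts := by
    have cf := continuous_const (X := ℝ × ℝ) (y := ts)
    refine SH_pos (F := fun x y => SH_P R x0 y0 ts x y * e ![ts, x, y]) ?_ (by linarith)
      (by linarith) ?_ (x0 := x0) (y0 := y0) ⟨by linarith, by linarith⟩ ⟨by linarith, by linarith⟩ ?_
    · exact (SH_P_c R x0 y0 cf continuous_fst continuous_snd).mul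
        (hec.comp (SH_vec cf continuous_fst continuous_snd))
    · intro x hx y hy
      exact mul_nonneg (sq_nonneg _) (h0 _ (hKs (hmemK ts ⟨hpos.le, le_refl _⟩ x hx y hy)))
    · have : SH_P R x0 y0 ts x0 y0 = 1 := by
        unfold SH_P SH_u SH_r
        simp only [sub_self]
        norm_num [hRdef]
      show 0 < SH_P R x0 y0 ts x0 y0 * e ![ts, x0, y0]
      rw [this, one_mul]; exact hep
  linarith

end H72GS
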