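import Pool.Agent.H72.GS.Pre
import Pool.Agent.H72.GS.Gen

/-!
# StA: first consequences of the slice relations

Proof sketches (`ε = eps = 10⁻²²`, `R1 ≤ 1/1000`).
* `a_abs`: `a(r) = ∫_0^r s (y - 1 + cos f)`, `|∫ s y| ≤ (∫ s)^{1/2} (∫ s y²)^{1/2} ≤ r ε`,
  `|∫ s (cos f - 1)| ≤ r²`, so `|a| ≤ R1 (ε + R1) ≤ 2·10⁻⁶` (FTC: derivative only on `(0, r)`,
  `a` continuous, `a 0 = 0`).
* `A_ge`: `A = 1 + μ² - 2 μ cos f ≥ (μ - 1)²`, `μ = 4 + a ≥ 3.999`.
* `X_split`: drop `r²(1 - cos f) w1² ≥ 0`, use `A ≥ 8`.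
* `w_abs`: `w(r)² = ∫_0^r 2 w wr ≤ ∫_0^r (w²/s + s wr²) = ∫_0^r s (w1² + wr²) ≤ X` (`w = s w1`).
* products: `2 |u v| ≤ κ u² + v²/κ`, `κ = √8` (rational `κ = 14/5` is enough:
  `|wt| |w1| ≤ (wt² /(14/5) + (14/5) w1²)/2 ≤ (wt² + 8 w1²)/5`).
-/

namespace H72GS

open Set MeasureTheory intervalIntegral

variable {R1 : ℝ} {p : Pre}

private theorem StA_eps : (eps : ℝ) ^ 2 ≤ 1 / 10 ^ 6 := by
  unfold eps
  norm_num

/-- the integral of the identity -/
private theorem StA_int_id (r : ℝ) : ∫ s in (0 : ℝ)..r, s = r ^ 2 / 2 := by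
  rw [integral_id]; ring

theorem En_parts (hs : IsSlice R1 p) (hE : p.En R1 ≤ eps ^ 2) :
    ∫ r in (0 : ℝ)..R1, r * p.g r ^ 2 ≤ eps ^ 2 ∧ ∫ r in (0 : ℝ)..R1, r * p.w r ^ 2 ≤ eps ^ 2 ∧
      ∫ r in (0 : ℝ)..R1, r * p.y r ^ 2 ≤ eps ^ 2 ∧ ∫ r in (0 : ℝ)..R1, r * p.e r ^ 2 ≤ eps ^ 2 := by
  have hR := hs.R1pos.le
  have cg := hs.cg
  have ce := hs.ce
  have cw := hs.cw
  have cy := hs.cy
  have key : ∀ u : ℝ → ℝ, Continuous u →
      (∀ r, u r ^ 2 ≤ p.g r ^ 2 + p.e r ^ 2 + p.w r ^ 2 + p.y r ^ 2) →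
      ∫ r in (0 : ℝ)..R1, r * u r ^ 2 ≤ eps ^ 2 := by
    intro u hu hle
    refine le_trans ?_ hE
    unfold Pre.En
    apply intervalIntegral.integral_mono_on hR
    · exact Continuous.intervalIntegrable (by fun_prop) _ _
    · exact Continuous.intervalIntegrable (by fun_prop) _ _
    · intro r hr
      exact mul_le_mul_of_nonneg_left (hle r) hr.1
  refine ⟨key _ cg fun r => ?_, key _ cw fun r => ?_, key _ cy fun r => ?_, key _ ce fun r => ?_⟩ <;>
    nlinarith [sq_nonneg (p.g r), sq_nonneg (p.e r), sq_nonneg (p.w r), sq_nonneg (p.y r)]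

theorem a_abs (hs : IsSlice R1 p) (hE : p.En R1 ≤ eps ^ 2) :
    ∀ r ∈ Icc 0 R1, |p.a r| ≤ 1 / 100000 := by
  intro r hr
  have cy := hs.cy
  have cf := hs.cf
  have hcc : Continuous (fun s => s * (p.y s - 1 + Real.cos (p.f s))) := by
    have := Real.continuous_cos.comp cf
    fun_prop
  have hftc : ∫ s in (0 : ℝ)..r, s * (p.y s - 1 + Real.cos (p.f s)) = p.a r - p.a 0 :=
    intervalIntegral.integral_eq_sub_of_hasDerivAt_of_le hr.1 hs.ca.continuousOn
      (fun s hs' => hs.da s hs'.1) (hcc.intervalIntegrable _ _)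
  rw [hs.a0, sub_zero] at hftc
  rw [← hftc]
  have h1 : |∫ s in (0 : ℝ)..r, s * (p.y s - 1 + Real.cos (p.f s))| ≤
      ∫ s in (0 : ℝ)..r, |s * (p.y s - 1 + Real.cos (p.f s))| :=
    intervalIntegral.abs_integral_le_integral_abs hr.1
  have h2 : ∫ s in (0 : ℝ)..r, |s * (p.y s - 1 + Real.cos (p.f s))| ≤
      ∫ s in (0 : ℝ)..r, (s * p.y s ^ 2 + 3 * s) := by
    apply intervalIntegral.integral_mono_on hr.1
    · exact hcc.abs.intervalIntegrable _ _
    · exact Continuous.intervalIntegrable (by fun_prop) _ _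
    · intro s hs'
      rw [abs_mul, abs_of_nonneg hs'.1]
      have h3 : |p.y s - 1 + Real.cos (p.f s)| ≤ p.y s ^ 2 + 3 := by
        have c1 := Real.neg_one_le_cos (p.f s)
        have c2 := Real.cos_le_one (p.f s)
        rw [abs_le]
        constructor <;> nlinarith [sq_nonneg (p.y s - 1), sq_nonneg (p.y s + 1)]
      calc s * |p.y s - 1 + Real.cos (p.f s)| ≤ s * (p.y s ^ 2 + 3) :=
            mul_le_mul_of_nonneg_left h3 hs'.1
        _ = s * p.y s ^ 2 + 3 * s := by ring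
  have h3 : ∫ s in (0 : ℝ)..r, (s * p.y s ^ 2 + 3 * s) =
      (∫ s in (0 : ℝ)..r, s * p.y s ^ 2) + 3 * (r ^ 2 / 2) := by
    rw [intervalIntegral.integral_add, intervalIntegral.integral_const_mul, StA_int_id]
    · exact Continuous.intervalIntegrable (by fun_prop) _ _
    · exact Continuous.intervalIntegrable (by fun_prop) _ _
  have h4 : ∫ s in (0 : ℝ)..r, s * p.y s ^ 2 ≤ ∫ s in (0 : ℝ)..R1, s * p.y s ^ 2 :=
    int_mono_set le_rfl hr.1 hr.2 (Continuous.continuousOn (by fun_prop))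
      (fun x hx => mul_nonneg hx.1 (sq_nonneg _))
  have h5 := (En_parts hs hE).2.2.1
  have h6 := StA_eps
  have h7 : r ≤ 1 / 1000 := hr.2.trans hs.R1le
  have h8 : r ^ 2 ≤ 1 / 10 ^ 6 := by nlinarith [hr.1]
  norm_num at h6 h8 ⊢
  linarith

theorem A_ge (hs : IsSlice R1 p) (hE : p.En R1 ≤ eps ^ 2) :
    ∀ r ∈ Icc 0 R1, 89 / 10 ≤ p.A r ∧ p.A r ≤ 26 := by
  intro r hr
  have h := abs_le.1 (a_abs hs hE r hr)
  have c1 := Real.neg_one_le_cos (p.f r)
  have c2 := Real.cos_le_one (p.f r)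
  unfold Pre.A
  constructor
  · nlinarith [mul_nonneg (by linarith : 0 ≤ 4 + p.a r) (by linarith : 0 ≤ 1 - Real.cos (p.f r))]
  · nlinarith [mul_nonneg (by linarith : 0 ≤ 4 + p.a r) (by linarith : 0 ≤ 1 + Real.cos (p.f r))]

theorem X_split (hs : IsSlice R1 p) (hE : p.En R1 ≤ eps ^ 2) :
    (∫ r in (0 : ℝ)..R1, r * p.wt r ^ 2) + (∫ r in (0 : ℝ)..R1, r * p.wr r ^ 2)
      + 8 * (∫ r in (0 : ℝ)..R1, r * p.w1 r ^ 2) ≤ p.X R1 := by
  have hR := hs.R1pos.le
  have cwt := hs.cwt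
  have cwr := hs.cwr
  have cw1 := hs.cw1
  have ca := hs.ca
  have hcos : Continuous (fun r => Real.cos (p.f r)) := Real.continuous_cos.comp hs.cf
  have e1 : (∫ r in (0 : ℝ)..R1, r * p.wt r ^ 2) + (∫ r in (0 : ℝ)..R1, r * p.wr r ^ 2)
      + 8 * (∫ r in (0 : ℝ)..R1, r * p.w1 r ^ 2) =
      ∫ r in (0 : ℝ)..R1, (r * p.wt r ^ 2 + r * p.wr r ^ 2 + 8 * (r * p.w1 r ^ 2)) := by
    rw [intervalIntegral.integral_add, intervalIntegral.integral_add,
      intervalIntegral.integral_const_mul]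
    · exact Continuous.intervalIntegrable (by fun_prop) _ _
    · exact Continuous.intervalIntegrable (by fun_prop) _ _
    · exact Continuous.intervalIntegrable (by fun_prop) _ _
    · exact Continuous.intervalIntegrable (by fun_prop) _ _
  rw [e1]
  unfold Pre.X
  apply intervalIntegral.integral_mono_on hR
  · exact Continuous.intervalIntegrable (by fun_prop) _ _
  · refine Continuous.intervalIntegrable ?_ _ _
    unfold Pre.A
    fun_prop
  · intro r hr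
    have hA := (A_ge hs hE r hr).1
    have c2 := Real.cos_le_one (p.f r)
    have h1 : 8 ≤ p.A r + r ^ 2 * (1 - Real.cos (p.f r)) := by
      have := mul_nonneg (sq_nonneg r) (by linarith : 0 ≤ 1 - Real.cos (p.f r))
      linarith
    have h2 := mul_le_mul_of_nonneg_right h1 (sq_nonneg (p.w1 r))
    have h3 := mul_le_mul_of_nonneg_left h2 hr.1
    nlinarith

private theorem StA_nn (hs : IsSlice R1 p) (u : ℝ → ℝ) : 0 ≤ ∫ r in (0 : ℝ)..R1, r * u r ^ 2 :=
  intervalIntegral.integral_nonneg hs.R1pos.le (fun r hr => mul_nonneg hr.1 (sq_nonneg _))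

theorem X_nonneg (hs : IsSlice R1 p) (hE : p.En R1 ≤ eps ^ 2) : 0 ≤ p.X R1 := by
  have h := X_split hs hE
  have h1 := StA_nn hs p.wt
  have h2 := StA_nn hs p.wr
  have h3 := StA_nn hs p.w1
  linarith

/-- each part separately -/
theorem X_parts (hs : IsSlice R1 p) (hE : p.En R1 ≤ eps ^ 2) :
    ∫ r in (0 : ℝ)..R1, r * p.wt r ^ 2 ≤ p.X R1 ∧ ∫ r in (0 : ℝ)..R1, r * p.wr r ^ 2 ≤ p.X R1 ∧
      ∫ r in (0 : ℝ)..R1, r * p.w1 r ^ 2 ≤ p.X R1 / 8 := by
  have h := X_split hs hE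
  have h1 := StA_nn hs p.wt
  have h2 := StA_nn hs p.wr
  have h3 := StA_nn hs p.w1
  refine ⟨by linarith, by linarith, by linarith⟩

theorem w_abs (hs : IsSlice R1 p) (hE : p.En R1 ≤ eps ^ 2) :
    ∀ r ∈ Icc 0 R1, |p.w r| ≤ Real.sqrt (p.X R1) := by
  intro r hr
  apply Real.abs_le_sqrt
  have cw := hs.cw
  have cwr := hs.cwr
  have cw1 := hs.cw1
  have hw0 : p.w 0 = 0 := by rw [hs.hw1 0, zero_mul]
  have hftc : ∫ s in (0 : ℝ)..r, 2 * p.w s * p.wr s = p.w r ^ 2 - p.w 0 ^ 2 := by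
    apply intervalIntegral.integral_eq_sub_of_hasDerivAt
    · intro s _
      have := (hs.dw s).pow 2
      have e : ((2 : ℕ) : ℝ) * p.w s ^ (2 - 1) * p.wr s = 2 * p.w s * p.wr s := by norm_num
      rw [e] at this
      exact this
    · exact Continuous.intervalIntegrable (by fun_prop) _ _
  rw [hw0] at hftc
  have h1 : ∫ s in (0 : ℝ)..r, 2 * p.w s * p.wr s ≤
      ∫ s in (0 : ℝ)..r, (s * p.w1 s ^ 2 + s * p.wr s ^ 2) := by
    apply intervalIntegral.integral_mono_on hr.1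
    · exact Continuous.intervalIntegrable (by fun_prop) _ _
    · exact Continuous.intervalIntegrable (by fun_prop) _ _
    · intro s hs'
      rw [hs.hw1 s]
      nlinarith [mul_nonneg hs'.1 (sq_nonneg (p.w1 s - p.wr s))]
  have h2 : ∫ s in (0 : ℝ)..r, (s * p.w1 s ^ 2 + s * p.wr s ^ 2) ≤
      ∫ s in (0 : ℝ)..R1, (s * p.w1 s ^ 2 + s * p.wr s ^ 2) :=
    int_mono_set le_rfl hr.1 hr.2 (Continuous.continuousOn (by fun_prop))
      (fun x hx => add_nonneg (mul_nonneg hx.1 (sq_nonneg _)) (mul_nonneg hx.1 (sq_nonneg _)))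
  have h3 : ∫ s in (0 : ℝ)..R1, (s * p.w1 s ^ 2 + s * p.wr s ^ 2) =
      (∫ s in (0 : ℝ)..R1, s * p.w1 s ^ 2) + ∫ s in (0 : ℝ)..R1, s * p.wr s ^ 2 := by
    rw [intervalIntegral.integral_add]
    · exact Continuous.intervalIntegrable (by fun_prop) _ _
    · exact Continuous.intervalIntegrable (by fun_prop) _ _
  have h := X_split hs hE
  have n1 := StA_nn hs p.wt
  have n3 := StA_nn hs p.w1
  linarith

/-- general quadratic form bound -/
private theorem StA_quad (hs : IsSlice R1 p) {u : ℝ → ℝ} (hu : Continuous u) {α β γ : ℝ}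
    (h : ∀ r, u r ≤ α * p.wt r ^ 2 + β * p.wr r ^ 2 + γ * p.w1 r ^ 2) :
    ∫ r in (0 : ℝ)..R1, r * u r ≤ α * (∫ r in (0 : ℝ)..R1, r * p.wt r ^ 2)
      + β * (∫ r in (0 : ℝ)..R1, r * p.wr r ^ 2) + γ * (∫ r in (0 : ℝ)..R1, r * p.w1 r ^ 2) := by
  have cwt := hs.cwt
  have cwr := hs.cwr
  have cw1 := hs.cw1
  have e1 : α * (∫ r in (0 : ℝ)..R1, r * p.wt r ^ 2)
      + β * (∫ r in (0 : ℝ)..R1, r * p.wr r ^ 2) + γ * (∫ r in (0 : ℝ)..R1, r * p.w1 r ^ 2) =
      ∫ r in (0 : ℝ)..R1, (α * (r * p.wt r ^ 2) + β * (r * p.wr r ^ 2) + γ * (r * p.w1 r ^ 2)) := by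
    rw [intervalIntegral.integral_add, intervalIntegral.integral_add,
      intervalIntegral.integral_const_mul, intervalIntegral.integral_const_mul,
      intervalIntegral.integral_const_mul]
    · exact Continuous.intervalIntegrable (by fun_prop) _ _
    · exact Continuous.intervalIntegrable (by fun_prop) _ _
    · exact Continuous.intervalIntegrable (by fun_prop) _ _
    · exact Continuous.intervalIntegrable (by fun_prop) _ _
  rw [e1]
  apply intervalIntegral.integral_mono_on hs.R1pos.le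
  · exact Continuous.intervalIntegrable (by fun_prop) _ _
  · exact Continuous.intervalIntegrable (by fun_prop) _ _
  · intro r hr
    have := mul_le_mul_of_nonneg_left (h r) hr.1
    linarith

theorem X_prods (hs : IsSlice R1 p) (hE : p.En R1 ≤ eps ^ 2) :
    ∫ r in (0 : ℝ)..R1, r * (|p.wt r| * |p.w1 r|) ≤ p.X R1 / 5 ∧
      ∫ r in (0 : ℝ)..R1, r * (|p.wr r| * |p.w1 r|) ≤ p.X R1 / 5 ∧
      ∫ r in (0 : ℝ)..R1, r * (|p.wt r| * |p.wr r|) ≤ p.X R1 / 2 := by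
  have cwt := hs.cwt
  have cwr := hs.cwr
  have cw1 := hs.cw1
  have h := X_split hs hE
  have n1 := StA_nn hs p.wt
  have n2 := StA_nn hs p.wr
  have n3 := StA_nn hs p.w1
  refine ⟨?_, ?_, ?_⟩
  · have := StA_quad hs (u := fun r => |p.wt r| * |p.w1 r|) (by fun_prop) (α := 1 / 5) (β := 0)
      (γ := 8 / 5) (fun r => by
        rw [← sq_abs (p.wt r), ← sq_abs (p.w1 r)]
        nlinarith [sq_nonneg (|p.wt r| - 5 / 2 * |p.w1 r|), sq_nonneg (|p.w1 r|)])
    linarith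
  · have := StA_quad hs (u := fun r => |p.wr r| * |p.w1 r|) (by fun_prop) (α := 0) (β := 1 / 5)
      (γ := 8 / 5) (fun r => by
        rw [← sq_abs (p.wr r), ← sq_abs (p.w1 r)]
        nlinarith [sq_nonneg (|p.wr r| - 5 / 2 * |p.w1 r|), sq_nonneg (|p.w1 r|)])
    linarith
  · have := StA_quad hs (u := fun r => |p.wt r| * |p.wr r|) (by fun_prop) (α := 1 / 2) (β := 1 / 2)
      (γ := 0) (fun r => by
        rw [← sq_abs (p.wt r), ← sq_abs (p.wr r)]
        nlinarith [sq_nonneg (|p.wt r| - |p.wr r|)])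
    linarith

/-- the combination appearing with the multiplier -/
theorem X_wtprod (hs : IsSlice R1 p) (hE : p.En R1 ≤ eps ^ 2) :
    ∫ r in (0 : ℝ)..R1, r * (|p.wt r| * (|p.wr r| + (1 / 2) * |p.w1 r|)) ≤ (59 / 100) * p.X R1 := by
  have cwt := hs.cwt
  have cwr := hs.cwr
  have cw1 := hs.cw1
  have h := X_split hs hE
  have := StA_quad hs (u := fun r => |p.wt r| * (|p.wr r| + (1 / 2) * |p.w1 r|)) (by fun_prop)
    (α := 59 / 100) (β := 59 / 100) (γ := 59 / 100 * 8) (fun r => by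
      rw [← sq_abs (p.wt r), ← sq_abs (p.wr r), ← sq_abs (p.w1 r)]
      nlinarith [sq_nonneg (|p.wr r| - 50 / 59 * |p.wt r|), sq_nonneg (|p.wt r| - 2 * |p.w1 r|),
        sq_nonneg (|p.wt r|), sq_nonneg (|p.w1 r|)])
  linarith

end H72GS
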