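import Pool.Agent.H72.GS.StG

/-!
# StB: the linear equation `u' = G - μ cos f u / r`

For `r ≥ lam` the equation is damped (`cos f ≥ 0`, `damp_fwd`), on `[lam, 2 lam]` use `pwlog`
(`∫ |G| ≤ ‖G‖`); for `r ≥ 2 lam`, `μ cos f ≥ 3`, use `v = r³ u`,
`v' = -((μ cos f - 3)/r) v + r³ G`, `damp_fwd` and `pw3` (`‖G‖/√6 ≤ ‖G‖/2`); similarly for `r ≤ lam`
backwards (`cos f ≤ 0`, `damp_bwd`; `μ cos f ≤ -3` for `r ≤ lam/2`, `v = u / r³`, `pwm3`).
Total `|u| ≤ |u lam| + 2 ‖G‖` with `‖G‖² = ∫_0^rho s G²`.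
-/

namespace H72GS

open Set MeasureTheory intervalIntegral

variable {R1 : ℝ} {p : Pre} {om lam : ℝ}

private theorem StB_sqrt6 {x S : ℝ} (hx : x ≤ S ^ 2) (hS : 0 ≤ S) : Real.sqrt (x / 6) ≤ S / 2 := by
  rw [Real.sqrt_le_left (by positivity)]
  nlinarith [sq_nonneg S]

theorem bode (hs : IsSlice R1 p) (hy : Hyp R1 p om) (hg : Geo R1 p om lam)
    {u G : ℝ → ℝ} {rho : ℝ} (h2 : 2 * lam ≤ rho) (hR : rho ≤ R1) (hG : Continuous G)
    (hu : ∀ r ∈ Ioc 0 rho,
      HasDerivAt u (G r - (4 + p.a r) * Real.cos (p.f r) * u r / r) r) :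
    ∀ r ∈ Ioc 0 rho, |u r| ≤ |u lam| + 2 * Real.sqrt (∫ s in (0 : ℝ)..rho, s * G s ^ 2) := by
  have hlam := hg.lam_pos
  set S := Real.sqrt (∫ s in (0 : ℝ)..rho, s * G s ^ 2) with hS
  have hS0 : 0 ≤ S := Real.sqrt_nonneg _
  have hSsq : S ^ 2 = ∫ s in (0 : ℝ)..rho, s * G s ^ 2 :=
    Real.sq_sqrt (intervalIntegral.integral_nonneg (by linarith)
      (fun s hs => mul_nonneg hs.1 (sq_nonneg _)))
  have hsub : ∀ x0 x1, 0 ≤ x0 → x0 ≤ x1 → x1 ≤ rho → ∫ s in x0..x1, s * G s ^ 2 ≤ S ^ 2 := by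
    intro x0 x1 h0 h01 h1
    rw [hSsq]
    exact int_mono_set h0 h01 h1 (Continuous.continuousOn (by fun_prop))
      (fun x hx => mul_nonneg hx.1 (sq_nonneg _))
  have hmu : ∀ r ∈ Ioc 0 rho, 399 / 100 ≤ 4 + p.a r := by
    intro r hr
    have := abs_le.1 (a_abs hs hy.en r ⟨hr.1.le, hr.2.trans hR⟩)
    linarith
  -- the middle region to the right
  have m1 : ∀ x ∈ Icc lam (2 * lam), |u x| ≤ |u lam| + S := by
    intro x hx
    have d := damp_fwd (v := u) (c := fun r => (4 + p.a r) * Real.cos (p.f r) / r) (s := G)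
      (x0 := lam) (x1 := x) hx.1 (fun r hr => by
        have := hu r ⟨by linarith [hr.1], by linarith [hr.2, hx.2]⟩
        have e : G r - (4 + p.a r) * Real.cos (p.f r) * u r / r =
          -((4 + p.a r) * Real.cos (p.f r) / r) * u r + G r := by ring
        rw [e] at this
        exact this)
      (fun r hr => by
        have hr0 : 0 < r := by linarith [hr.1]
        have h1 := hmu r ⟨hr0, by linarith [hr.2, hx.2]⟩
        have h2 := cos_far hs hy hg r ⟨hr.1, by linarith [hr.2, hx.2]⟩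
        exact div_nonneg (mul_nonneg (by linarith) h2) hr0.le) hG.continuousOn
    have e1 := pwlog hlam hx.1 hx.2 hG.continuousOn (G := G)
    have e2 : Real.sqrt (∫ s in lam..x, s * G s ^ 2) ≤ S := by
      rw [Real.sqrt_le_left hS0]
      exact hsub _ _ hlam.le hx.1 (by linarith [hx.2])
    linarith
  -- the middle region to the left
  have m2 : ∀ x ∈ Icc (lam / 2) lam, |u x| ≤ |u lam| + S := by
    intro x hx
    have hx0 : 0 < x := by linarith [hx.1]
    have d := damp_bwd (v := u) (c := fun r => -((4 + p.a r) * Real.cos (p.f r) / r)) (s := G)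
      (x0 := x) (x1 := lam) hx.2 (fun r hr => by
        have := hu r ⟨by linarith [hr.1], by linarith [hr.2]⟩
        have e : G r - (4 + p.a r) * Real.cos (p.f r) * u r / r =
          -((4 + p.a r) * Real.cos (p.f r) / r) * u r + G r := by ring
        rw [e] at this
        exact this)
      (fun r hr => by
        have hr0 : 0 < r := by linarith [hr.1]
        have h1 := hmu r ⟨hr0, by linarith [hr.2]⟩
        have h2 := cos_near hs hy hg r ⟨hr0, hr.2⟩
        have h3 : (4 + p.a r) * Real.cos (p.f r) ≤ 0 :=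
          mul_nonpos_of_nonneg_of_nonpos (by linarith) h2
        have h4 := div_nonpos_of_nonpos_of_nonneg h3 hr0.le
        linarith) hG.continuousOn
    have e1 := pwlog hx0 hx.2 (by linarith [hx.1]) hG.continuousOn (G := G)
    have e2 : Real.sqrt (∫ s in x..lam, s * G s ^ 2) ≤ S := by
      rw [Real.sqrt_le_left hS0]
      exact hsub _ _ hx0.le hx.2 (by linarith)
    linarith
  -- far to the right
  have m3 : ∀ x ∈ Icc (2 * lam) rho, |u x| ≤ |u (2 * lam)| + S / 2 := by
    intro x hx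
    have hx0 : 0 < x := by linarith [hx.1]
    have d := damp_fwd (v := fun r => r ^ 3 * u r)
      (c := fun r => ((4 + p.a r) * Real.cos (p.f r) - 3) / r) (s := fun r => r ^ 3 * G r)
      (x0 := 2 * lam) (x1 := x) hx.1 (fun r hr => by
        have hr0 : 0 < r := by linarith [hr.1]
        have h1 := hu r ⟨hr0, by linarith [hr.2, hx.2]⟩
        have h3 : HasDerivAt (fun r : ℝ => r ^ 3) (3 * r ^ 2) r := by
          have := hasDerivAt_pow 3 r
          have e : ((3 : ℕ) : ℝ) * r ^ (3 - 1) = 3 * r ^ 2 := by norm_num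
          rw [e] at this
          exact this
        have h4 := h3.mul h1
        have e : 3 * r ^ 2 * u r + r ^ 3 * (G r - (4 + p.a r) * Real.cos (p.f r) * u r / r) =
            -(((4 + p.a r) * Real.cos (p.f r) - 3) / r) * (r ^ 3 * u r) + r ^ 3 * G r := by
          field_simp
          ring
        rw [e] at h4
        exact h4)
      (fun r hr => by
        have hr0 : 0 < r := by linarith [hr.1]
        have h1 := hmu r ⟨hr0, by linarith [hr.2, hx.2]⟩
        have h2 := cos_far2 hs hy hg r ⟨hr.1, by linarith [hr.2, hx.2]⟩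
        exact div_nonneg (by nlinarith) hr0.le) (Continuous.continuousOn (by fun_prop))
    have e0 : ∫ s in (2 * lam)..x, |s ^ 3 * G s| = ∫ s in (2 * lam)..x, s ^ 3 * |G s| := by
      apply intervalIntegral.integral_congr
      intro s hs'
      rw [uIcc_of_le hx.1] at hs'
      have h0 : 0 ≤ s := by linarith [hs'.1]
      simp only
      rw [abs_mul, abs_of_nonneg (pow_nonneg h0 3)]
    rw [e0, abs_mul, abs_mul, abs_of_nonneg (pow_nonneg hx0.le 3),
      abs_of_nonneg (pow_nonneg (by linarith : (0 : ℝ) ≤ 2 * lam) 3)] at d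
    have e1 := pw3 (by linarith : 0 < 2 * lam) hx.1 hG.continuousOn (G := G)
    have e2 := StB_sqrt6 (hsub (2 * lam) x (by linarith) hx.1 hx.2) hS0
    have hx3 : 0 < x ^ 3 := by positivity
    have e3 : (2 * lam) ^ 3 ≤ x ^ 3 := pow_le_pow_left₀ (by linarith) hx.1 3
    have e4 : x ^ 3 * |u x| ≤ x ^ 3 * (|u (2 * lam)| + S / 2) := by
      have e5 := mul_le_mul_of_nonneg_left e2 hx3.le
      have e6 := mul_le_mul_of_nonneg_right e3 (abs_nonneg (u (2 * lam)))
      linarith
    exact le_of_mul_le_mul_left e4 hx3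
  -- close to the origin
  have m4 : ∀ x ∈ Ioc 0 (lam / 2), |u x| ≤ |u (lam / 2)| + S / 2 := by
    intro x hx
    have hx0 : 0 < x := hx.1
    have hl2 : 0 < lam / 2 := by linarith
    have d := damp_bwd (v := fun r => u r / r ^ 3)
      (c := fun r => (-((4 + p.a r) * Real.cos (p.f r)) - 3) / r) (s := fun r => G r / r ^ 3)
      (x0 := x) (x1 := lam / 2) hx.2 (fun r hr => by
        have hr0 : 0 < r := by linarith [hr.1]
        have h1 := hu r ⟨hr0, by linarith [hr.2]⟩
        have h3 : HasDerivAt (fun r : ℝ => r ^ 3) (3 * r ^ 2) r := by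
          have := hasDerivAt_pow 3 r
          have e : ((3 : ℕ) : ℝ) * r ^ (3 - 1) = 3 * r ^ 2 := by norm_num
          rw [e] at this
          exact this
        have h4 := h1.div h3 (by positivity)
        have e : ((G r - (4 + p.a r) * Real.cos (p.f r) * u r / r) * r ^ 3 - u r * (3 * r ^ 2)) /
            (r ^ 3) ^ 2 =
            (-((4 + p.a r) * Real.cos (p.f r)) - 3) / r * (u r / r ^ 3) + G r / r ^ 3 := by
          field_simp
          ring
        rw [e] at h4
        exact h4)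
      (fun r hr => by
        have hr0 : 0 < r := by linarith [hr.1]
        have h1 := hmu r ⟨hr0, by linarith [hr.2]⟩
        have h2 := cos_near2 hs hy hg r ⟨hr0, hr.2⟩
        exact div_nonneg (by nlinarith) hr0.le)
      (hG.continuousOn.div (by fun_prop) (fun r hr => by
        have hr0 : 0 < r := by linarith [hr.1]
        positivity))
    have e0 : ∫ s in x..(lam / 2), |G s / s ^ 3| = ∫ s in x..(lam / 2), |G s| / s ^ 3 := by
      apply intervalIntegral.integral_congr
      intro s hs'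
      rw [uIcc_of_le hx.2] at hs'
      have h0 : 0 ≤ s := by linarith [hs'.1]
      simp only
      rw [abs_div, abs_of_nonneg (pow_nonneg h0 3)]
    rw [e0, abs_div, abs_div, abs_of_nonneg (pow_nonneg hx0.le 3),
      abs_of_nonneg (pow_nonneg hl2.le 3)] at d
    have e1 := pwm3 hx0 hx.2 hG.continuousOn (G := G)
    have e2 := StB_sqrt6 (hsub x (lam / 2) hx0.le hx.2 (by linarith)) hS0
    have hx3 : 0 < x ^ 3 := by positivity
    have e3 : x ^ 3 ≤ (lam / 2) ^ 3 := pow_le_pow_left₀ hx0.le hx.2 3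
    have e4 : |u x| / x ^ 3 ≤ (|u (lam / 2)| + S / 2) / x ^ 3 := by
      have e5 : 1 / x ^ 3 * Real.sqrt ((∫ s in x..(lam / 2), s * G s ^ 2) / 6) ≤ (S / 2) / x ^ 3 := by
        rw [one_div, inv_mul_eq_div]
        exact div_le_div_of_nonneg_right e2 hx3.le
      have e6 : |u (lam / 2)| / (lam / 2) ^ 3 ≤ |u (lam / 2)| / x ^ 3 :=
        div_le_div_of_nonneg_left (abs_nonneg _) hx3 e3
      rw [add_div]
      linarith
    exact (div_le_div_iff_of_pos_right hx3).1 e4
  intro r hr
  rcases le_or_gt r lam with h | h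
  · rcases le_or_gt r (lam / 2) with h' | h'
    · have e1 := m4 r ⟨hr.1, h'⟩
      have e2 := m2 (lam / 2) ⟨le_rfl, by linarith⟩
      linarith
    · have e2 := m2 r ⟨h'.le, h⟩
      linarith
  · rcases le_or_gt r (2 * lam) with h' | h'
    · have e2 := m1 r ⟨h.le, h'⟩
      linarith
    · have e1 := m3 r ⟨h'.le, hr.2⟩
      have e2 := m1 (2 * lam) ⟨by linarith, le_rfl⟩
      linarith

end H72GS
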