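import Pool.Agent.H72.GS.StH

/-!
# StE: pointwise bounds for the gauge part

* `e_abs`: `r e(r) = ∫_0^r s (yt - g sin f)` (field `de`), Cauchy-Schwarz with `∫_0^r s = r²/2`:
  `|e| ≤ (‖yt‖ + ‖g‖)/√2 ≤ √om + eps`, where `∫ r yt² ≤ 2 Ey ≤ 2 om`; then `sqrt_om_le`.
  (at `r = 0` use continuity.)
* `ry_abs`: `y(r)² = -∫_r^{R1} 2 y yr` (`y(R1) = 0`), so `r y² ≤ 2 ∫ s |y||yr| ≤ 2 eps √(2 om) ≤ √om`
  and `(r y)² ≤ R1 √om ≤ √om`, `√om ≤ om · 10⁻³⁰`.
* `es_L2`, `es_L2_all`: `‖e sin f‖² ≤ (4 om² lam)² ∫ r sin²`.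
-/

namespace H72GS

open Set MeasureTheory intervalIntegral

variable {R1 : ℝ} {p : Pre} {om lam : ℝ}

theorem StE_parts (hs : IsSlice R1 p) (hy : Hyp R1 p om) :
    ∫ r in (0 : ℝ)..R1, r * p.yt r ^ 2 ≤ 2 * om ∧ ∫ r in (0 : ℝ)..R1, r * p.yr r ^ 2 ≤ 2 * om := by
  have hR := hs.R1pos.le
  have c1 := hs.cyt
  have c2 := hs.cyr
  have c3 := hs.cy
  have c4 : Continuous (fun r => Real.sin (p.f r)) := Real.continuous_sin.comp hs.cf
  have hE : ∫ r in (0 : ℝ)..R1, (1 / 2) * r * (p.yt r ^ 2 + p.yr r ^ 2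
      + Real.sin (p.f r) ^ 2 * p.y r ^ 2) ≤ om := hy.hEy
  have hE2 : ∫ r in (0 : ℝ)..R1, 2 * ((1 / 2) * r * (p.yt r ^ 2 + p.yr r ^ 2
      + Real.sin (p.f r) ^ 2 * p.y r ^ 2)) ≤ 2 * om := by
    rw [intervalIntegral.integral_const_mul]; linarith
  have cI : Continuous (fun r => 2 * ((1 / 2) * r * (p.yt r ^ 2 + p.yr r ^ 2
      + Real.sin (p.f r) ^ 2 * p.y r ^ 2))) := by fun_prop
  constructor
  · refine le_trans (integral_mono_on hR (Continuous.intervalIntegrable (by fun_prop) _ _)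
      (cI.intervalIntegrable _ _) ?_) hE2
    intro r hr
    have h1 : 0 ≤ r * p.yr r ^ 2 := mul_nonneg hr.1 (sq_nonneg _)
    have h2 : 0 ≤ r * (Real.sin (p.f r) ^ 2 * p.y r ^ 2) := mul_nonneg hr.1 (by positivity)
    have h3 : 2 * ((1 / 2) * r * (p.yt r ^ 2 + p.yr r ^ 2 + Real.sin (p.f r) ^ 2 * p.y r ^ 2))
      = r * p.yt r ^ 2 + r * p.yr r ^ 2 + r * (Real.sin (p.f r) ^ 2 * p.y r ^ 2) := by ring
    rw [h3]; linarith
  · refine le_trans (integral_mono_on hR (Continuous.intervalIntegrable (by fun_prop) _ _)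
      (cI.intervalIntegrable _ _) ?_) hE2
    intro r hr
    have h1 : 0 ≤ r * p.yt r ^ 2 := mul_nonneg hr.1 (sq_nonneg _)
    have h2 : 0 ≤ r * (Real.sin (p.f r) ^ 2 * p.y r ^ 2) := mul_nonneg hr.1 (by positivity)
    have h3 : 2 * ((1 / 2) * r * (p.yt r ^ 2 + p.yr r ^ 2 + Real.sin (p.f r) ^ 2 * p.y r ^ 2))
      = r * p.yt r ^ 2 + r * p.yr r ^ 2 + r * (Real.sin (p.f r) ^ 2 * p.y r ^ 2) := by ring
    rw [h3]; linarith

theorem yt_L2 (hs : IsSlice R1 p) (hy : Hyp R1 p om) :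
    ∫ r in (0 : ℝ)..R1, r * p.yt r ^ 2 ≤ 2 * om := (StE_parts hs hy).1

theorem StE_om (hy : Hyp R1 p om) : 0 < om := lt_of_lt_of_le (by norm_num) hy.hom

theorem e_abs (hs : IsSlice R1 p) (hy : Hyp R1 p om) (hg : Geo R1 p om lam) :
    ∀ r ∈ Icc 0 R1, |p.e r| ≤ 4 * om ^ 2 * lam := by
  have ho := StE_om hy
  have hR := hs.R1pos
  have c1 := hs.cyt
  have c2 := hs.cg
  have c4 : Continuous (fun r => Real.sin (p.f r)) := Real.continuous_sin.comp hs.cf
  have key : ∀ r ∈ Ioc 0 R1, |p.e r| ≤ 4 * om ^ 2 * lam := by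
    intro r hr
    have hr0 := hr.1
    have hI : ∫ s in (0 : ℝ)..r, s * (p.yt s - p.g s * Real.sin (p.f s)) = r * p.e r := by
      have := intervalIntegral.integral_eq_sub_of_hasDerivAt (a := 0) (b := r)
        (f := fun x => x * p.e x) (f' := fun s => s * (p.yt s - p.g s * Real.sin (p.f s)))
        (fun x _ => hs.de x) (Continuous.intervalIntegrable (by fun_prop) _ _)
      rw [this]; simp
    have hone : ∫ s in (0 : ℝ)..r, s * (1 : ℝ) ^ 2 = r ^ 2 / 2 := by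
      simp [integral_id]
    have hsq : Real.sqrt (∫ s in (0 : ℝ)..r, s * (1 : ℝ) ^ 2) = r / Real.sqrt 2 := by
      rw [hone, Real.sqrt_div (sq_nonneg r), Real.sqrt_sq hr0.le]
    have A1 := csr (a := 0) (b := r) le_rfl hr0.le (u := p.yt) (v := fun _ => (1 : ℝ))
      c1.continuousOn continuousOn_const
    have A2 := csr (a := 0) (b := r) le_rfl hr0.le (u := p.g) (v := fun _ => (1 : ℝ))
      c2.continuousOn continuousOn_const
    have B1 : ∫ s in (0 : ℝ)..r, s * p.yt s ^ 2 ≤ 2 * om := by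
      refine le_trans ?_ (yt_L2 hs hy)
      exact int_mono_set le_rfl hr0.le hr.2 (by fun_prop)
        (fun x hx => mul_nonneg hx.1 (sq_nonneg _))
    have B2 : ∫ s in (0 : ℝ)..r, s * p.g s ^ 2 ≤ eps ^ 2 := by
      refine le_trans ?_ (En_parts hs hy.en).1
      exact int_mono_set le_rfl hr0.le hr.2 (by fun_prop)
        (fun x hx => mul_nonneg hx.1 (sq_nonneg _))
    have epos : 0 < eps := by unfold eps; positivity
    have S1 : Real.sqrt (∫ s in (0 : ℝ)..r, s * p.yt s ^ 2) ≤ Real.sqrt 2 * Real.sqrt om := by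
      rw [← Real.sqrt_mul (by norm_num : (0 : ℝ) ≤ 2)]
      exact Real.sqrt_le_sqrt B1
    have S2 : Real.sqrt (∫ s in (0 : ℝ)..r, s * p.g s ^ 2) ≤ eps := by
      have := Real.sqrt_le_sqrt B2
      rwa [Real.sqrt_sq epos.le] at this
    have habs : |r * p.e r| ≤ (∫ s in (0 : ℝ)..r, s * (|p.yt s| * |(1 : ℝ)|))
        + ∫ s in (0 : ℝ)..r, s * (|p.g s| * |(1 : ℝ)|) := by
      rw [← hI, ← intervalIntegral.integral_add (Continuous.intervalIntegrable (by fun_prop) _ _)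
        (Continuous.intervalIntegrable (by fun_prop) _ _)]
      refine le_trans (intervalIntegral.abs_integral_le_integral_abs hr0.le) ?_
      refine integral_mono_on hr0.le (Continuous.intervalIntegrable (by fun_prop) _ _)
        (Continuous.intervalIntegrable (by fun_prop) _ _) ?_
      intro s hs'
      rw [abs_mul, abs_of_nonneg hs'.1, abs_one, mul_one, mul_one, ← mul_add]
      refine mul_le_mul_of_nonneg_left ?_ hs'.1
      have h1 : |p.g s * Real.sin (p.f s)| ≤ |p.g s| := by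
        rw [abs_mul]
        exact mul_le_of_le_one_right (abs_nonneg _) (Real.abs_sin_le_one _)
      exact le_trans (abs_sub _ _) (by linarith)
    rw [hsq] at A1 A2
    have h2 : 0 < Real.sqrt 2 := Real.sqrt_pos.2 (by norm_num)
    have h22 : 1 ≤ Real.sqrt 2 := by
      rw [show (1 : ℝ) = Real.sqrt 1 by simp]
      exact Real.sqrt_le_sqrt (by norm_num)
    have C1 : ∫ s in (0 : ℝ)..r, s * (|p.yt s| * |(1 : ℝ)|) ≤ Real.sqrt om * r := by
      refine le_trans A1 ?_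
      have : Real.sqrt (∫ s in (0 : ℝ)..r, s * p.yt s ^ 2) * (r / Real.sqrt 2)
          ≤ (Real.sqrt 2 * Real.sqrt om) * (r / Real.sqrt 2) :=
        mul_le_mul_of_nonneg_right S1 (by positivity)
      refine le_trans this (le_of_eq ?_)
      field_simp
    have C2 : ∫ s in (0 : ℝ)..r, s * (|p.g s| * |(1 : ℝ)|) ≤ eps * r := by
      refine le_trans A2 ?_
      have h5 : r / Real.sqrt 2 ≤ r := div_le_self hr0.le h22
      exact mul_le_mul S2 h5 (by positivity) epos.le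
    have hso : eps ≤ Real.sqrt om := by
      have : (1 : ℝ) ≤ Real.sqrt om := by
        rw [show (1 : ℝ) = Real.sqrt 1 by simp]
        exact Real.sqrt_le_sqrt (le_trans (by norm_num) hy.hom)
      have h6 : eps ≤ 1 := by unfold eps; norm_num
      linarith
    have h7 : |r * p.e r| ≤ r * (2 * Real.sqrt om) := by
      have : eps * r ≤ Real.sqrt om * r := mul_le_mul_of_nonneg_right hso hr0.le
      calc |r * p.e r| ≤ Real.sqrt om * r + eps * r := le_trans habs (add_le_add C1 C2)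
        _ ≤ r * (2 * Real.sqrt om) := by linarith
    rw [abs_mul, abs_of_pos hr0] at h7
    have h8 : |p.e r| ≤ 2 * Real.sqrt om := le_of_mul_le_mul_left h7 hr0
    have h9 := sqrt_om_le hy hg
    calc |p.e r| ≤ 2 * Real.sqrt om := h8
      _ ≤ 2 * (2 * om ^ 2 * lam) := by linarith
      _ = 4 * om ^ 2 * lam := by ring
  have hcl : IsClosed {x | |p.e x| ≤ 4 * om ^ 2 * lam} :=
    isClosed_le (continuous_abs.comp hs.ce) continuous_const
  intro r hr
  have h1 : closure (Ioc 0 R1) ⊆ {x | |p.e x| ≤ 4 * om ^ 2 * lam} :=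
    hcl.closure_subset_iff.2 key
  rw [closure_Ioc hR.ne] at h1
  exact h1 hr

theorem ry_abs (hs : IsSlice R1 p) (hy : Hyp R1 p om) :
    ∀ r ∈ Icc 0 R1, |r * p.y r| ≤ om / 10 ^ 12 := by
  intro r hr
  have ho := StE_om hy
  have hR := hs.R1pos
  have c2 := hs.cyr
  have c3 := hs.cy
  have epos : 0 < eps := by unfold eps; positivity
  -- `y(r)² = -∫ 2 y yr`
  have hI : ∫ s in r..R1, 2 * p.y s * p.yr s = 0 - p.y r ^ 2 := by
    have := intervalIntegral.integral_eq_sub_of_hasDerivAt (a := r) (b := R1)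
      (f := fun x => p.y x ^ 2) (f' := fun s => 2 * p.y s * p.yr s)
      (fun x _ => by
        have := (hs.dy x).pow 2
        refine this.congr_deriv ?_
        simp) (Continuous.intervalIntegrable (by fun_prop) _ _)
    rw [this, hs.yR]; ring
  have h1 : r * p.y r ^ 2 ≤ ∫ s in r..R1, 2 * (s * (|p.y s| * |p.yr s|)) := by
    have e1 : r * p.y r ^ 2 = ∫ s in r..R1, r * (-(2 * p.y s * p.yr s)) := by
      rw [intervalIntegral.integral_const_mul, intervalIntegral.integral_neg, hI]; ring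
    rw [e1]
    refine integral_mono_on hr.2 (Continuous.intervalIntegrable (by fun_prop) _ _)
      (Continuous.intervalIntegrable (by fun_prop) _ _) ?_
    intro s hs'
    have h2 : -(2 * p.y s * p.yr s) ≤ 2 * (|p.y s| * |p.yr s|) := by
      have := neg_abs_le (p.y s * p.yr s)
      rw [abs_mul] at this
      linarith
    have h3 : 0 ≤ |p.y s| * |p.yr s| := by positivity
    calc r * (-(2 * p.y s * p.yr s)) ≤ r * (2 * (|p.y s| * |p.yr s|)) :=
          mul_le_mul_of_nonneg_left h2 hr.1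
      _ ≤ s * (2 * (|p.y s| * |p.yr s|)) := mul_le_mul_of_nonneg_right hs'.1 (by positivity)
      _ = 2 * (s * (|p.y s| * |p.yr s|)) := by ring
  have h2 : ∫ s in r..R1, 2 * (s * (|p.y s| * |p.yr s|))
      ≤ ∫ s in (0 : ℝ)..R1, 2 * (s * (|p.y s| * |p.yr s|)) := by
    refine int_mono_set hr.1 hr.2 le_rfl (by fun_prop) (fun x hx => ?_)
    have := hx.1
    positivity
  have h2' : ∫ s in (0 : ℝ)..R1, 2 * (s * (|p.y s| * |p.yr s|))
      = 2 * ∫ s in (0 : ℝ)..R1, s * (|p.y s| * |p.yr s|) :=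
    intervalIntegral.integral_const_mul _ _
  rw [h2'] at h2
  have h3 := csr (a := 0) (b := R1) le_rfl hR.le c3.continuousOn c2.continuousOn
  have S1 : Real.sqrt (∫ s in (0 : ℝ)..R1, s * p.y s ^ 2) ≤ eps := by
    have := Real.sqrt_le_sqrt (En_parts hs hy.en).2.2.1
    rwa [Real.sqrt_sq epos.le] at this
  have S2 : Real.sqrt (∫ s in (0 : ℝ)..R1, s * p.yr s ^ 2) ≤ Real.sqrt (2 * om) :=
    Real.sqrt_le_sqrt (StE_parts hs hy).2
  have S3 : Real.sqrt (2 * om) ≤ 2 * om := by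
    rw [Real.sqrt_le_iff]
    have : (1 : ℝ) ≤ om := le_trans (by norm_num) hy.hom
    constructor
    · linarith
    · nlinarith
  have h4 : r * p.y r ^ 2 ≤ om := by
    have h5 : Real.sqrt (∫ s in (0 : ℝ)..R1, s * p.y s ^ 2)
        * Real.sqrt (∫ s in (0 : ℝ)..R1, s * p.yr s ^ 2) ≤ eps * (2 * om) :=
      mul_le_mul S1 (S2.trans S3) (Real.sqrt_nonneg _) epos.le
    have h6 : 2 * (eps * (2 * om)) ≤ om := by
      have : eps ≤ 1 / 4 := by unfold eps; norm_num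
      nlinarith
    linarith
  have h5 : (r * p.y r) ^ 2 ≤ om := by
    have h6 : r ≤ 1 := by
      have := hs.R1le
      have := hr.2
      linarith
    have h7 : 0 ≤ r * p.y r ^ 2 := mul_nonneg hr.1 (sq_nonneg _)
    calc (r * p.y r) ^ 2 = r * (r * p.y r ^ 2) := by ring
      _ ≤ 1 * (r * p.y r ^ 2) := mul_le_mul_of_nonneg_right h6 h7
      _ ≤ om := by linarith
  have h8 : om ≤ (om / 10 ^ 12) ^ 2 := by
    have h9 : (10 : ℝ) ^ 24 ≤ om := le_trans (by norm_num) hy.hom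
    have : (om / 10 ^ 12) ^ 2 = om * om / 10 ^ 24 := by ring
    rw [this, le_div_iff₀ (by positivity)]
    exact mul_le_mul_of_nonneg_left h9 ho.le
  exact abs_le_of_sq_le_sq (h5.trans h8) (by positivity)

theorem StE_L2 (hs : IsSlice R1 p) (hy : Hyp R1 p om) (hg : Geo R1 p om lam) {L B : ℝ}
    (h0 : 0 ≤ L) (hL : L ≤ R1) (hB : 0 ≤ B)
    (hI : ∫ r in (0 : ℝ)..L, r * Real.sin (p.f r) ^ 2 ≤ B ^ 2) :
    Real.sqrt (∫ r in (0 : ℝ)..L, r * (p.e r * Real.sin (p.f r)) ^ 2)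
      ≤ 4 * om ^ 2 * lam * B := by
  have ho := StE_om hy
  have hl := hg.lam_pos
  have c1 := hs.ce
  have c4 : Continuous (fun r => Real.sin (p.f r)) := Real.continuous_sin.comp hs.cf
  rw [Real.sqrt_le_iff]
  refine ⟨by positivity, ?_⟩
  have h1 : ∫ r in (0 : ℝ)..L, r * (p.e r * Real.sin (p.f r)) ^ 2
      ≤ ∫ r in (0 : ℝ)..L, (4 * om ^ 2 * lam) ^ 2 * (r * Real.sin (p.f r) ^ 2) := by
    refine integral_mono_on h0 (Continuous.intervalIntegrable (by fun_prop) _ _)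
      (Continuous.intervalIntegrable (by fun_prop) _ _) ?_
    intro r hr
    have h2 := e_abs hs hy hg r ⟨hr.1, hr.2.trans hL⟩
    have h3 : p.e r ^ 2 ≤ (4 * om ^ 2 * lam) ^ 2 := by
      rw [← sq_abs (p.e r)]
      exact pow_le_pow_left₀ (abs_nonneg _) h2 2
    have h4 : 0 ≤ r * Real.sin (p.f r) ^ 2 := mul_nonneg hr.1 (sq_nonneg _)
    calc r * (p.e r * Real.sin (p.f r)) ^ 2 = p.e r ^ 2 * (r * Real.sin (p.f r) ^ 2) := by ring
      _ ≤ _ := mul_le_mul_of_nonneg_right h3 h4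
  rw [intervalIntegral.integral_const_mul] at h1
  calc _ ≤ (4 * om ^ 2 * lam) ^ 2 * ∫ r in (0 : ℝ)..L, r * Real.sin (p.f r) ^ 2 := h1
    _ ≤ (4 * om ^ 2 * lam) ^ 2 * B ^ 2 := mul_le_mul_of_nonneg_left hI (by positivity)
    _ = (4 * om ^ 2 * lam * B) ^ 2 := by ring

theorem es_L2 (hs : IsSlice R1 p) (hy : Hyp R1 p om) (hg : Geo R1 p om lam) :
    Real.sqrt (∫ r in (0 : ℝ)..(ep1 / om), r * (p.e r * Real.sin (p.f r)) ^ 2)
      ≤ om ^ 2 * lam / 10 := by
  have ho := StE_om hy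
  have hl := hg.lam_pos
  have hLpos : 0 < ep1 / om := L_pos hy
  have h1 : ∫ r in (0 : ℝ)..(ep1 / om), r * Real.sin (p.f r) ^ 2 ≤ (2 * lam) ^ 2 := by
    have := I_sin2 hs hy hg
    nlinarith [sq_nonneg lam]
  have h2 := StE_L2 hs hy hg hLpos.le ((L_le hs hy).trans (by linarith [hs.R1pos])) (by positivity : (0:ℝ) ≤ 2 * lam) h1
  refine h2.trans ?_
  have h3 : lam ≤ 1 / 80 := by
    have h4 := hg.b_le
    have h5 : eps ≤ 1 := by unfold eps; norm_num
    have h6 : (80 : ℝ) ≤ om := le_trans (by norm_num) hy.hom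
    nlinarith
  have h7 : 0 ≤ om ^ 2 * lam := by positivity
  calc 4 * om ^ 2 * lam * (2 * lam) = om ^ 2 * lam * (8 * lam) := by ring
    _ ≤ om ^ 2 * lam * (1 / 10) := mul_le_mul_of_nonneg_left (by linarith) h7
    _ = om ^ 2 * lam / 10 := by ring

theorem es_L2_all (hs : IsSlice R1 p) (hy : Hyp R1 p om) (hg : Geo R1 p om lam) :
    Real.sqrt (∫ r in (0 : ℝ)..R1, r * (p.e r * Real.sin (p.f r)) ^ 2) ≤ om ^ 2 * lam / 10 := by
  have ho := StE_om hy
  have hl := hg.lam_pos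
  have h1 : ∫ r in (0 : ℝ)..R1, r * Real.sin (p.f r) ^ 2 ≤ (1 / 10 ^ 20) ^ 2 := by
    have := I_sin2_all hs hy hg
    refine this.trans (by norm_num)
  have h2 := StE_L2 hs hy hg hs.R1pos.le le_rfl (by positivity : (0:ℝ) ≤ 1 / 10 ^ 20) h1
  refine h2.trans ?_
  have h7 : 0 ≤ om ^ 2 * lam := by positivity
  calc 4 * om ^ 2 * lam * (1 / 10 ^ 20) = om ^ 2 * lam * (4 / 10 ^ 20) := by ring
    _ ≤ om ^ 2 * lam * (1 / 10) := mul_le_mul_of_nonneg_left (by norm_num) h7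
    _ = om ^ 2 * lam / 10 := by ring

end H72GS
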