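import Pool.Agent.H72.GS.StE
import Pool.Agent.H72.GS.StB

/-!
# StEta: `g = -4 om sin f + η` with `|η| ≤ 250 Lam` up to `r = L = ep1/om`

* `bode`: for `r ≥ lam` the equation is damped (`cos f ≥ 0`), on `[lam, 2 lam]` use `pwlog`
  (`∫ |G| ≤ ‖G‖`); for `r ≥ 2 lam`, `μ cos f ≥ 3`, use `v = r³ u` and `pw3`
  (`‖G‖/√6 ≤ ‖G‖/2`); similarly for `r ≤ lam` backwards (`cos f ≤ 0`; `μ cos f ≤ -3` for
  `r ≤ lam/2`, `v = u / r³`, `pwm3`).  Total `|u| ≤ |u lam| + 2 ‖G‖`.
* `eta' = G1 - μ cos f eta / r`, `G1 = wt - e sin f + 4 om cos f w`;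
  `‖G1‖_{L²(0,L)} ≤ chi + om² lam/10 + 4 om L chi/√8 ≤ 2 Lam` (`‖w‖² ≤ L² ∫ r w1²`).
* orthogonality `∫ r Th(f) eta = P + 4 om N = 0`.
* `rho = eta - eta(lam) sin f` solves `rho' = G2 - μ cos f rho/r`, `G2 = G1 - eta(lam) cos f w`,
  `rho(lam) = 0`; on `[0, K lam]`, `K = 2·10⁶` (contains the support of `Th(f)`, `supp`):
  `‖w‖ ≤ K lam chi/√8 ≤ 10⁻²⁰`, so `|rho| ≤ 2 (2 Lam + 10⁻²⁰ |eta(lam)|)`.
  `0 = eta(lam) N + ∫ r Th rho`, `N ≥ lam²/16`, `∫ r|Th| ≤ 3 lam²` give
  `|eta(lam)| ≤ 96 (2 Lam + 10⁻²⁰|eta(lam)|)`, so `≤ 200 Lam`; finally `|eta| ≤ 200 Lam + 4 Lam`.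
-/

namespace H72GS

open Set MeasureTheory intervalIntegral

variable {R1 : ℝ} {p : Pre} {om lam : ℝ}

/-- the remainder -/
noncomputable def eta (p : Pre) (om r : ℝ) : ℝ := p.g r + 4 * om * Real.sin (p.f r)

theorem StEta_cont (hs : IsSlice R1 p) : Continuous (eta p om) := by
  unfold eta
  exact hs.cg.add (continuous_const.mul (Real.continuous_sin.comp hs.cf))

theorem eta_orth (hs : IsSlice R1 p) (hy : Hyp R1 p om) :
    ∫ r in (0 : ℝ)..R1, r * Th (p.f r) * eta p om r = 0 := by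
  have hT : Continuous (fun r => Th (p.f r)) := continuous_Th.comp hs.cf
  have hS : Continuous (fun r => Real.sin (p.f r)) := Real.continuous_sin.comp hs.cf
  have hcg := hs.cg
  have h1 : ∫ r in (0 : ℝ)..R1, r * Th (p.f r) * eta p om r =
      (∫ r in (0 : ℝ)..R1, r * p.g r * Th (p.f r)) +
        4 * om * ∫ r in (0 : ℝ)..R1, r * Th (p.f r) * Real.sin (p.f r) := by
    rw [← intervalIntegral.integral_const_mul, ← intervalIntegral.integral_add]
    · apply intervalIntegral.integral_congr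
      intro r _
      simp only [eta]
      ring
    · exact ((continuous_id.mul hs.cg).mul hT).intervalIntegrable _ _
    · exact (continuous_const.mul ((continuous_id.mul hT).mul hS)).intervalIntegrable _ _
  rw [h1]
  have h2 := hy.hP
  unfold Pre.P Pre.N at h2
  rw [h2]
  ring

theorem StEta_mink {a b : ℝ} (ha : 0 ≤ a) (hab : a ≤ b) {u v : ℝ → ℝ} (hu : Continuous u)
    (hv : Continuous v) :
    Real.sqrt (∫ s in a..b, s * (u s + v s) ^ 2) ≤
      Real.sqrt (∫ s in a..b, s * u s ^ 2) + Real.sqrt (∫ s in a..b, s * v s ^ 2) := by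
  have i1 : IntervalIntegrable (fun s => s * u s ^ 2) volume a b :=
    (continuous_id.mul (hu.pow 2)).intervalIntegrable _ _
  have i2 : IntervalIntegrable (fun s => s * v s ^ 2) volume a b :=
    (continuous_id.mul (hv.pow 2)).intervalIntegrable _ _
  have i3 : IntervalIntegrable (fun s => 2 * (s * (|u s| * |v s|))) volume a b :=
    (continuous_const.mul (continuous_id.mul (hu.abs.mul hv.abs))).intervalIntegrable _ _
  have i4 : IntervalIntegrable (fun s => s * (u s + v s) ^ 2) volume a b :=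
    (continuous_id.mul ((hu.add hv).pow 2)).intervalIntegrable _ _
  have h1 : ∫ s in a..b, s * (u s + v s) ^ 2 ≤
      (∫ s in a..b, s * u s ^ 2) + (∫ s in a..b, s * v s ^ 2)
        + 2 * ∫ s in a..b, s * (|u s| * |v s|) := by
    rw [← intervalIntegral.integral_const_mul, ← intervalIntegral.integral_add i1 i2,
      ← intervalIntegral.integral_add (i1.add i2) i3]
    apply intervalIntegral.integral_mono_on hab i4 ((i1.add i2).add i3)
    intro s hs
    have hs0 : 0 ≤ s := ha.trans hs.1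
    have h2 : u s * v s ≤ |u s| * |v s| := by
      rw [← abs_mul]; exact le_abs_self _
    have h3 : s * (u s + v s) ^ 2 = s * u s ^ 2 + s * v s ^ 2 + 2 * (s * (u s * v s)) := by ring
    rw [h3]
    have h4 := mul_le_mul_of_nonneg_left h2 hs0
    linarith
  have h2 := csr ha hab hu.continuousOn hv.continuousOn
  have n1 : 0 ≤ ∫ s in a..b, s * u s ^ 2 :=
    intervalIntegral.integral_nonneg hab (fun s hs => mul_nonneg (ha.trans hs.1) (sq_nonneg _))
  have n2 : 0 ≤ ∫ s in a..b, s * v s ^ 2 :=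
    intervalIntegral.integral_nonneg hab (fun s hs => mul_nonneg (ha.trans hs.1) (sq_nonneg _))
  rw [Real.sqrt_le_iff]
  refine ⟨by positivity, ?_⟩
  have e1 := Real.sq_sqrt n1
  have e2 := Real.sq_sqrt n2
  nlinarith

theorem StEta_L2_mono {a b c : ℝ} (ha : 0 ≤ a) (hab : a ≤ b) (hc : 0 ≤ c) {u v : ℝ → ℝ}
    (hu : Continuous u) (hv : Continuous v) (h : ∀ s ∈ Icc a b, |u s| ≤ c * |v s|) :
    Real.sqrt (∫ s in a..b, s * u s ^ 2) ≤ c * Real.sqrt (∫ s in a..b, s * v s ^ 2) := by
  have h1 : ∫ s in a..b, s * u s ^ 2 ≤ c ^ 2 * ∫ s in a..b, s * v s ^ 2 := by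
    rw [← intervalIntegral.integral_const_mul]
    apply intervalIntegral.integral_mono_on hab
    · exact (continuous_id.mul (hu.pow 2)).intervalIntegrable _ _
    · exact (continuous_const.mul (continuous_id.mul (hv.pow 2))).intervalIntegrable _ _
    · intro s hs
      have hs0 : 0 ≤ s := ha.trans hs.1
      have h2 : u s ^ 2 ≤ c ^ 2 * v s ^ 2 := by
        have h3 := h s hs
        have h4 := abs_nonneg (u s)
        have h5 : |u s| ^ 2 ≤ (c * |v s|) ^ 2 := by gcongr
        rwa [mul_pow, sq_abs, sq_abs] at h5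
      calc s * u s ^ 2 ≤ s * (c ^ 2 * v s ^ 2) := mul_le_mul_of_nonneg_left h2 hs0
        _ = _ := by ring
  calc Real.sqrt (∫ s in a..b, s * u s ^ 2) ≤ Real.sqrt (c ^ 2 * ∫ s in a..b, s * v s ^ 2) :=
        Real.sqrt_le_sqrt h1
    _ = c * Real.sqrt (∫ s in a..b, s * v s ^ 2) := by
        rw [Real.sqrt_mul (sq_nonneg c), Real.sqrt_sq hc]

theorem StEta_w (hs : IsSlice R1 p) (hy : Hyp R1 p om) {ρ : ℝ} (h0 : 0 ≤ ρ) (h1 : ρ ≤ R1) :
    Real.sqrt (∫ s in (0:ℝ)..ρ, s * p.w s ^ 2) ≤ ρ * chi R1 p / 2 := by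
  have h2 := StEta_L2_mono (u := p.w) (v := p.w1) le_rfl h0 h0 hs.cw hs.cw1 (by
    intro s hs'
    rw [hs.hw1 s, abs_mul, abs_of_nonneg hs'.1]
    exact mul_le_mul_of_nonneg_right hs'.2 (abs_nonneg _))
  have h3 : ∫ s in (0:ℝ)..ρ, s * p.w1 s ^ 2 ≤ p.X R1 / 8 := by
    refine (int_mono_set (a := 0) (b := R1) le_rfl h0 h1 ?_ ?_).trans (X_parts hs hy.en).2.2
    · exact (continuous_id.mul (hs.cw1.pow 2)).continuousOn
    · intro s hs'
      exact mul_nonneg hs'.1 (sq_nonneg _)
  have h4 : Real.sqrt (∫ s in (0:ℝ)..ρ, s * p.w1 s ^ 2) ≤ chi R1 p / 2 := by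
    have hc := chi_nonneg (R1 := R1) (p := p)
    rw [Real.sqrt_le_iff]
    refine ⟨by positivity, ?_⟩
    rw [div_pow, chi_sq hs hy]
    have hX := X_nonneg hs hy.en
    linarith
  calc _ ≤ _ := h2
    _ ≤ ρ * (chi R1 p / 2) := mul_le_mul_of_nonneg_left h4 h0
    _ = _ := by ring

theorem StEta_wt (hs : IsSlice R1 p) (hy : Hyp R1 p om) {ρ : ℝ} (h0 : 0 ≤ ρ) (h1 : ρ ≤ R1) :
    Real.sqrt (∫ s in (0:ℝ)..ρ, s * p.wt s ^ 2) ≤ chi R1 p := by
  apply Real.sqrt_le_sqrt
  refine (int_mono_set (a := 0) (b := R1) le_rfl h0 h1 ?_ ?_).trans (X_parts hs hy.en).1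
  · exact (continuous_id.mul (hs.cwt.pow 2)).continuousOn
  · intro s hs'
    exact mul_nonneg hs'.1 (sq_nonneg _)

/-- the forcing term -/
noncomputable def StEta_G (p : Pre) (om r : ℝ) : ℝ :=
  p.wt r + (-(p.e r * Real.sin (p.f r)) + 4 * om * (Real.cos (p.f r) * p.w r))

theorem StEta_Gc (hs : IsSlice R1 p) : Continuous (StEta_G p om) := by
  unfold StEta_G
  have hcwt := hs.cwt
  have hce := hs.ce
  have hcf := hs.cf
  have hcw := hs.cw
  fun_prop

theorem StEta_der (hs : IsSlice R1 p) (c : ℝ) {r : ℝ} (hr : 0 < r) :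
    HasDerivAt (fun x => eta p om x - c * Real.sin (p.f x))
      ((StEta_G p om r - c * (Real.cos (p.f r) * p.w r))
        - (4 + p.a r) * Real.cos (p.f r) * (eta p om r - c * Real.sin (p.f r)) / r) r := by
  have h1 := hs.dg r hr
  have h2 := (hs.df r hr).sin
  have h3 := (h1.add (h2.const_mul (4 * om))).sub (h2.const_mul c)
  unfold eta StEta_G
  refine h3.congr_deriv ?_
  field_simp
  ring

theorem StEta_GL2 (hs : IsSlice R1 p) (hy : Hyp R1 p om) (hg : Geo R1 p om lam) :
    Real.sqrt (∫ s in (0:ℝ)..(ep1 / om), s * StEta_G p om s ^ 2) ≤ 2 * Lam R1 p om lam := by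
  have hL := L_pos hy
  have hLR := L_le hs hy
  have hR := hs.R1pos
  have hom : 0 < om := lt_of_lt_of_le (by norm_num) hy.hom
  have hcwt := hs.cwt
  have hce := hs.ce
  have hcf := hs.cf
  have hcw := hs.cw
  have c1 : Continuous (fun r => -(p.e r * Real.sin (p.f r))) := by fun_prop
  have c2 : Continuous (fun r => 4 * om * (Real.cos (p.f r) * p.w r)) := by fun_prop
  have h1 := StEta_mink (a := 0) (b := ep1 / om) le_rfl hL.le hcwt (c1.add c2)
  have h2 := StEta_mink (a := 0) (b := ep1 / om) le_rfl hL.le c1 c2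
  have h3 := StEta_wt hs hy hL.le (by linarith)
  have h4 := es_L2 hs hy hg
  have h5 := StEta_L2_mono (a := 0) (b := ep1 / om) (c := 4 * om) le_rfl hL.le (by positivity) c2 hcw
    (by
      intro s _
      rw [abs_mul, abs_of_pos (by positivity : 0 < 4 * om), abs_mul]
      have := Real.abs_cos_le_one (p.f s)
      have := abs_nonneg (p.w s)
      apply mul_le_mul_of_nonneg_left _ (by positivity)
      nlinarith)
  have h6 := StEta_w hs hy hL.le (by linarith : ep1 / om ≤ R1)
  have h7 : 4 * om * (ep1 / om * chi R1 p / 2) = 2 * ep1 * chi R1 p := by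
    field_simp
    ring
  have h8 : Real.sqrt (∫ s in (0:ℝ)..(ep1 / om), s * (-(p.e s * Real.sin (p.f s))) ^ 2) =
      Real.sqrt (∫ s in (0:ℝ)..(ep1 / om), s * (p.e s * Real.sin (p.f s)) ^ 2) := by
    congr 1
    apply intervalIntegral.integral_congr
    intro s _
    simp only [neg_sq]
  have hc := chi_nonneg (R1 := R1) (p := p)
  have h9 : (2:ℝ) * ep1 ≤ 1 := by unfold ep1; norm_num
  have h10 : 2 * ep1 * chi R1 p ≤ chi R1 p := by nlinarith
  have hlam := hg.lam_pos
  have h11 : 0 ≤ om ^ 2 * lam := by positivity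
  simp only [Pi.add_apply] at h1
  unfold StEta_G Lam
  have h12 : 4 * om * Real.sqrt (∫ s in (0:ℝ)..(ep1 / om), s * p.w s ^ 2) ≤
      4 * om * (ep1 / om * chi R1 p / 2) := mul_le_mul_of_nonneg_left h6 (by positivity)
  rw [h8] at h2
  rw [h7] at h12
  linarith

theorem StEta_lam (hs : IsSlice R1 p) (hy : Hyp R1 p om) (hg : Geo R1 p om lam) :
    |eta p om lam| ≤ 200 * Lam R1 p om lam := by
  have hL := L_pos hy
  have hLR := L_le hs hy
  have hR := hs.R1pos
  have hlam := hg.lam_pos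
  have hlL := lam_le_L hy hg
  have hom : 0 < om := lt_of_lt_of_le (by norm_num) hy.hom
  have hc := chi_nonneg (R1 := R1) (p := p)
  have hcwt := hs.cwt
  have hce := hs.ce
  have hcf := hs.cf
  have hcw := hs.cw
  have hLam : 0 ≤ Lam R1 p om lam := by unfold Lam; positivity
  set K : ℝ := 2 * 10 ^ 6 * lam with hK
  have hK0 : 0 < K := by positivity
  have hKL : K ≤ ep1 / om := by rw [hK]; nlinarith
  have hKR : K ≤ R1 := by linarith
  set c := eta p om lam with hcdef
  -- the forcing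
  have cG := StEta_Gc (om := om) hs
  have cW : Continuous (fun r => -(c * (Real.cos (p.f r) * p.w r))) := by fun_prop
  have cG2 : Continuous (fun r => StEta_G p om r - c * (Real.cos (p.f r) * p.w r)) := by fun_prop
  have h1 := bode hs hy hg (u := fun x => eta p om x - c * Real.sin (p.f x))
    (G := fun r => StEta_G p om r - c * (Real.cos (p.f r) * p.w r)) (rho := K)
    (by rw [hK]; linarith) hKR cG2 (fun r hr => StEta_der hs c hr.1)
  have hz : eta p om lam - c * Real.sin (p.f lam) = 0 := by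
    rw [hg.f_lam, Real.sin_pi_div_two]; ring
  have hw : Real.sqrt (∫ s in (0:ℝ)..K, s * p.w s ^ 2) ≤ 1 / 10 ^ 20 := by
    refine (StEta_w hs hy hK0.le hKR).trans ?_
    have h2 := chi_le hs hy hg
    have h3 := hg.b_le
    have h4 : K * chi R1 p / 2 ≤ 10 ^ 6 * lam * (3 * 10 ^ 7 * om ^ 2 * lam) := by
      rw [hK]
      have : 0 ≤ 10 ^ 6 * lam := by positivity
      nlinarith
    have h5 : (10:ℝ) ^ 6 * lam * (3 * 10 ^ 7 * om ^ 2 * lam) = 3 * 10 ^ 13 * (om * lam) ^ 2 := by ring
    rw [h5] at h4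
    have h6 : (om * lam) ^ 2 ≤ eps ^ 2 := by
      have : 0 ≤ om * lam := by positivity
      gcongr
    have h7 : (3:ℝ) * 10 ^ 13 * eps ^ 2 ≤ 1 / 10 ^ 20 := by unfold eps; norm_num
    linarith
  have hG2 : Real.sqrt (∫ s in (0:ℝ)..K, s * (StEta_G p om s - c * (Real.cos (p.f s) * p.w s)) ^ 2) ≤
      2 * Lam R1 p om lam + |c| * (1 / 10 ^ 20) := by
    have h2 := StEta_mink (a := 0) (b := K) le_rfl hK0.le cG cW
    have h3 := StEta_L2_mono (a := 0) (b := K) (c := |c|) le_rfl hK0.le (abs_nonneg _) cW hcw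
      (by
        intro s _
        rw [abs_neg, abs_mul, abs_mul]
        have := Real.abs_cos_le_one (p.f s)
        have := abs_nonneg (p.w s)
        apply mul_le_mul_of_nonneg_left _ (abs_nonneg _)
        nlinarith)
    have h4 : Real.sqrt (∫ s in (0:ℝ)..K, s * StEta_G p om s ^ 2) ≤ 2 * Lam R1 p om lam := by
      refine le_trans (Real.sqrt_le_sqrt ?_) (StEta_GL2 hs hy hg)
      apply int_mono_set le_rfl hK0.le hKL
      · exact (continuous_id.mul (cG.pow 2)).continuousOn
      · intro s hs'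
        exact mul_nonneg hs'.1 (sq_nonneg _)
    have h5 := mul_le_mul_of_nonneg_left hw (abs_nonneg c)
    have h6 : ∀ s, StEta_G p om s - c * (Real.cos (p.f s) * p.w s) =
        StEta_G p om s + -(c * (Real.cos (p.f s) * p.w s)) := fun s => by ring
    simp only [h6]
    linarith
  set B : ℝ := 2 * (2 * Lam R1 p om lam + |c| * (1 / 10 ^ 20)) with hB
  have hrho : ∀ r ∈ Ioc 0 K, |eta p om r - c * Real.sin (p.f r)| ≤ B := by
    intro r hr
    have h2 := h1 r hr
    simp only [hz, abs_zero, zero_add] at h2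
    linarith
  -- orthogonality
  have horth := eta_orth hs hy
  have hT : Continuous (fun r => Th (p.f r)) := continuous_Th.comp hs.cf
  have hS : Continuous (fun r => Real.sin (p.f r)) := Real.continuous_sin.comp hs.cf
  have hE := StEta_cont (om := om) hs
  have i1 : IntervalIntegrable (fun r => r * Th (p.f r) * (eta p om r - c * Real.sin (p.f r)))
      volume 0 R1 :=
    ((continuous_id.mul hT).mul (hE.sub (continuous_const.mul hS))).intervalIntegrable _ _
  have i2 : IntervalIntegrable (fun r => c * (r * Th (p.f r) * Real.sin (p.f r))) volume 0 R1 :=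
    (continuous_const.mul ((continuous_id.mul hT).mul hS)).intervalIntegrable _ _
  have h2 : ∫ r in (0 : ℝ)..R1, r * Th (p.f r) * eta p om r =
      (∫ r in (0 : ℝ)..R1, r * Th (p.f r) * (eta p om r - c * Real.sin (p.f r))) + c * p.N R1 := by
    unfold Pre.N
    rw [← intervalIntegral.integral_const_mul, ← intervalIntegral.integral_add i1 i2]
    apply intervalIntegral.integral_congr
    intro r _
    ring
  have hB0 : 0 ≤ B := by rw [hB]; positivity
  have h3 : |∫ r in (0 : ℝ)..R1, r * Th (p.f r) * (eta p om r - c * Real.sin (p.f r))| ≤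
      B * (3 * lam ^ 2) := by
    have h4 : |∫ r in (0 : ℝ)..R1, r * Th (p.f r) * (eta p om r - c * Real.sin (p.f r))| ≤
        ∫ r in (0 : ℝ)..R1, |r * Th (p.f r) * (eta p om r - c * Real.sin (p.f r))| :=
      intervalIntegral.abs_integral_le_integral_abs hR.le
    refine h4.trans ?_
    have h5 : ∫ r in (0 : ℝ)..R1, |r * Th (p.f r) * (eta p om r - c * Real.sin (p.f r))| ≤
        ∫ r in (0 : ℝ)..R1, B * (r * |Th (p.f r)|) := by
      apply intervalIntegral.integral_mono_on hR.le i1.abs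
      · exact (continuous_const.mul (continuous_id.mul hT.abs)).intervalIntegrable _ _
      · intro r hr
        rcases eq_or_lt_of_le hr.1 with h0 | h0
        · rw [← h0]; simp
        · rcases le_or_gt r K with hrK | hrK
          · rw [abs_mul, abs_mul, abs_of_pos h0]
            have h6 := hrho r ⟨h0, hrK⟩
            have h7 : 0 ≤ r * |Th (p.f r)| := mul_nonneg h0.le (abs_nonneg _)
            nlinarith
          · have h6 : Th (p.f r) = 0 :=
              Th_zero (supp hs hy.en hg.lam_pos hg.lam_lt hg.f_lam r hr hrK.le)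
            rw [h6]; simp
    refine h5.trans ?_
    rw [intervalIntegral.integral_const_mul]
    exact mul_le_mul_of_nonneg_left (Th_L1 hs hy.en hg.lam_pos hg.lam_lt hg.f_lam) hB0
  have h4 : |c * p.N R1| ≤ B * (3 * lam ^ 2) := by
    have h5 : c * p.N R1 =
        -(∫ r in (0 : ℝ)..R1, r * Th (p.f r) * (eta p om r - c * Real.sin (p.f r))) := by
      rw [h2] at horth
      linarith
    rw [h5, abs_neg]
    exact h3
  rw [abs_mul, abs_of_pos hy.Npos] at h4
  have h5 := hg.N_lo
  have h6 : |c| * (lam ^ 2 / 16) ≤ B * (3 * lam ^ 2) :=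
    (mul_le_mul_of_nonneg_left h5 (abs_nonneg _)).trans h4
  have h7 : |c| ≤ 48 * B := by
    have h8 : 0 < lam ^ 2 := by positivity
    have h9 : |c| * lam ^ 2 ≤ 48 * B * lam ^ 2 := by nlinarith
    exact le_of_mul_le_mul_right h9 h8
  rw [hB] at h7
  have h8 := abs_nonneg c
  linarith

theorem eta_abs (hs : IsSlice R1 p) (hy : Hyp R1 p om) (hg : Geo R1 p om lam) :
    ∀ r ∈ Icc 0 (ep1 / om), |eta p om r| ≤ 250 * Lam R1 p om lam := by
  intro r hr
  have hL := L_pos hy
  have hLR := L_le hs hy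
  have hR := hs.R1pos
  have hlam := hg.lam_pos
  have hlL := lam_le_L hy hg
  have hom : 0 < om := lt_of_lt_of_le (by norm_num) hy.hom
  have hc := chi_nonneg (R1 := R1) (p := p)
  have hLam : 0 ≤ Lam R1 p om lam := by unfold Lam; positivity
  rcases eq_or_lt_of_le hr.1 with h0 | h0
  · rw [← h0]
    have h1 : eta p om 0 = 0 := by
      unfold eta
      rw [hs.hg1 0, hs.f0, Real.sin_pi]; ring
    rw [h1, abs_zero]
    positivity
  · have h1 := bode hs hy hg (u := fun x => eta p om x - 0 * Real.sin (p.f x))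
      (G := fun r => StEta_G p om r - 0 * (Real.cos (p.f r) * p.w r)) (rho := ep1 / om)
      (by nlinarith) (by linarith) (by
        simp only [zero_mul, sub_zero]
        exact StEta_Gc hs) (fun r hr => StEta_der hs 0 hr.1) r ⟨h0, hr.2⟩
    simp only [zero_mul, sub_zero] at h1
    have h2 := StEta_GL2 hs hy hg
    have h3 := StEta_lam hs hy hg
    linarith

end H72GS
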