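import Pool.Agent.H72.GS.StA

/-!
# StF: shape of the angle, energy level

`lam` is a point with `f lam = π/2`.  Right of it `u = tan (f/2)` solves
`u' = -μ u / r + (1/2)(1+u²) w`, so `v = r³ u` solves `v' = -((μ-3)/r) v + r³ (1/2)(1+u²) w` (damped).
As long as `|f| ≤ 2`: `(1/2)(1+u²) ≤ (1/2)(1 + tan² 1) ≤ 9/5`, so by `damp_fwd`
`|u(r)| ≤ (lam/r)³ + (9/5) r⁻³ ∫_lam^r s³ |w|`, and by `pw3` this is `≤ (lam/r)³ + eps`, hence
`|u| ≤ 1 + eps < tan 1` and `|f| < 2`: continuous induction `cont_ind` with `h = |f|`, `c = 2`.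
Left of it use `f' = π - f`, `u = tan ((π - f)/2)`, `u' = μ u / r - (1/2)(1+u²) w`,
`v = u / r³`, `v' = ((μ-3)/r) v - r⁻³ (1/2)(1+u²) w` and `damp_bwd`, `pwm3`, `cont_ind_bwd`.
(`tan 1 < 8/5` and `1 + (8/5)² ≤ 18/5`; `|w|` in the integrals, `∫_0^{R1} r w² ≤ eps²`.)
-/

namespace H72GS

open Set MeasureTheory intervalIntegral

variable {R1 : ℝ} {p : Pre}

theorem exists_lam (hs : IsSlice R1 p) :
    ∃ lam : ℝ, 0 < lam ∧ lam < R1 ∧ p.f lam = Real.pi / 2 := by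
  have h1 : Icc (p.f R1) (p.f 0) ⊆ p.f '' Icc 0 R1 :=
    intermediate_value_Icc' hs.R1pos.le hs.cf.continuousOn
  have h2 : Real.pi / 2 ∈ Icc (p.f R1) (p.f 0) := by
    rw [hs.fR, hs.f0]
    constructor <;> linarith [Real.pi_pos]
  obtain ⟨lam, hl, hfl⟩ := h1 h2
  refine ⟨lam, lt_of_le_of_ne hl.1 ?_, lt_of_le_of_ne hl.2 ?_, hfl⟩
  · rintro rfl
    rw [hs.f0] at hfl
    linarith [Real.pi_pos]
  · rintro rfl
    rw [hs.fR] at hfl
    linarith [Real.pi_pos]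

private lemma StF_cos1 : (27 : ℝ) / 50 ≤ Real.cos 1 + 27/5000 := by
  have h1 : |Real.cos (1/4) - (1 - (1/4:ℝ) ^ 2 / 2)| ≤ |(1/4:ℝ)| ^ 4 * (5 / 96) :=
    Real.cos_bound (by rw [abs_of_nonneg] <;> norm_num)
  rw [abs_of_nonneg (by norm_num : (0:ℝ) ≤ 1/4)] at h1
  have h2 := (abs_le.1 h1).1
  have h3 : Real.cos (1/2) = 2 * Real.cos (1/4) ^ 2 - 1 := by
    rw [← Real.cos_two_mul]; norm_num
  have h4 : Real.cos 1 = 2 * Real.cos (1/2) ^ 2 - 1 := by
    rw [← Real.cos_two_mul]; norm_num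
  have h5 : (0.9685:ℝ) ≤ Real.cos (1/4) := by norm_num at h2 ⊢; linarith
  have h6 : (0.8759:ℝ) ≤ Real.cos (1/2) := by rw [h3]; nlinarith
  rw [h4]; nlinarith

private lemma StF_half {x : ℝ} (h : |x| ≤ 2) :
    0 < Real.cos (x / 2) ∧ (1 + Real.tan (x / 2) ^ 2) / 2 ≤ 9 / 5 := by
  have h1 : Real.cos 1 ≤ Real.cos (x / 2) := by
    rw [← Real.cos_abs (x/2)]
    apply Real.cos_le_cos_of_nonneg_of_le_pi (abs_nonneg _) (by linarith [Real.pi_gt_three])
    rw [abs_div, abs_of_pos (by norm_num : (0:ℝ) < 2)]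
    linarith
  have h2 := StF_cos1
  have h3 : (0.5346:ℝ) ≤ Real.cos (x/2) := by norm_num at h2 ⊢; linarith
  have h4 : 0 < Real.cos (x/2) := by linarith
  refine ⟨h4, ?_⟩
  have h5 := Real.inv_one_add_tan_sq h4.ne'
  have h6 : 0 < 1 + Real.tan (x/2) ^ 2 := by positivity
  have h7 : 1 + Real.tan (x/2) ^ 2 = (Real.cos (x/2) ^ 2)⁻¹ := by
    rw [← h5, inv_inv]
  rw [h7]
  have h8 : (5:ℝ)/18 ≤ Real.cos (x/2) ^ 2 := by nlinarith
  have h9 : (Real.cos (x/2) ^ 2)⁻¹ ≤ ((5:ℝ)/18)⁻¹ := inv_anti₀ (by norm_num) h8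
  norm_num at h9 ⊢
  linarith

private lemma StF_tan1 : 1 + eps < Real.tan 1 := by
  have h1 := Real.sin_gt_sub_cube (x := 1) (by norm_num)
  have h2 := Real.cos_one_le
  have h3 := Real.cos_one_pos
  rw [Real.tan_eq_sin_div_cos, lt_div_iff₀ h3]
  have : eps ≤ 1/10 := by unfold eps; norm_num
  have h0 : 0 < eps := by unfold eps; norm_num
  nlinarith

private lemma StF_lt_two {x : ℝ} (h : |x| ≤ 2) (ht : |Real.tan (x / 2)| ≤ 1 + eps) : |x| < 2 := by
  by_contra hcon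
  have hx : |x| = 2 := le_antisymm h (not_lt.1 hcon)
  have h1 : |Real.tan (x/2)| = Real.tan 1 := by
    have hp : 0 < Real.tan 1 := by
      have := StF_tan1
      have h0 : 0 < eps := by unfold eps; norm_num
      linarith
    rcases (abs_eq (by norm_num : (0:ℝ) ≤ 2)).1 hx with h2 | h2
    · rw [h2]; norm_num; exact hp.le
    · rw [h2, neg_div, Real.tan_neg, abs_neg]; norm_num; exact hp.le
  rw [h1] at ht
  linarith [StF_tan1]

private lemma StF_mono (hs : IsSlice R1 p) (hE : p.En R1 ≤ eps ^ 2) {a b : ℝ} (h0 : 0 ≤ a)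
    (hab : a ≤ b) (hb : b ≤ R1) : Real.sqrt ((∫ s in a..b, s * p.w s ^ 2) / 6) ≤ (5/9) * eps := by
  have h1 : ∫ s in a..b, s * p.w s ^ 2 ≤ eps ^ 2 := by
    refine le_trans (int_mono_set h0 hab hb ?_ ?_) (En_parts hs hE).2.1
    · exact (continuous_id.mul (hs.cw.pow 2)).continuousOn
    · intro x hx
      exact mul_nonneg hx.1 (sq_nonneg _)
  have h2 : 0 < eps := by unfold eps; norm_num
  rw [Real.sqrt_le_iff]
  constructor
  · positivity
  · nlinarith

/-- forward step -/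
private lemma StF_far_step (hs : IsSlice R1 p) (hE : p.En R1 ≤ eps ^ 2) {lam x : ℝ} (h0 : 0 < lam)
    (hlx : lam ≤ x) (hxR : x ≤ R1) (hf : p.f lam = Real.pi / 2)
    (hle : ∀ s ∈ Icc lam x, |p.f s| ≤ 2) :
    |Real.tan (p.f x / 2)| ≤ (lam / x) ^ 3 + (9 / 5) * (1 / x ^ 3) * ∫ s in lam..x, s ^ 3 * |p.w s| := by
  have hx0 : 0 < x := lt_of_lt_of_le h0 hlx
  have hcos : ∀ s ∈ Icc lam x, Real.cos (p.f s / 2) ≠ 0 := fun s hs' => (StF_half (hle s hs')).1.ne'
  have htc : ContinuousOn (fun s => Real.tan (p.f s / 2)) (Icc lam x) := by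
    refine Real.continuousOn_tan.comp (hs.cf.div_const 2).continuousOn ?_
    intro s hs'
    exact hcos s hs'
  have hsc : ContinuousOn (fun s => s ^ 3 * ((1 + Real.tan (p.f s / 2) ^ 2) / 2 * p.w s)) (Icc lam x) :=
    ((continuous_id.pow 3).continuousOn).mul
      (((continuousOn_const.add (htc.pow 2)).div_const 2).mul hs.cw.continuousOn)
  have key := damp_fwd (v := fun s => s ^ 3 * Real.tan (p.f s / 2)) (c := fun s => (1 + p.a s) / s)
    (s := fun s => s ^ 3 * ((1 + Real.tan (p.f s / 2) ^ 2) / 2 * p.w s)) hlx ?_ ?_ hsc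
  · have hI : ∫ s in lam..x, |s ^ 3 * ((1 + Real.tan (p.f s / 2) ^ 2) / 2 * p.w s)| ≤
        ∫ s in lam..x, (9/5) * (s ^ 3 * |p.w s|) := by
      apply intervalIntegral.integral_mono_on hlx
      · exact (ContinuousOn.intervalIntegrable (by rw [uIcc_of_le hlx]; exact hsc.abs))
      · exact (((continuous_id.pow 3).mul hs.cw.abs).const_mul _).intervalIntegrable _ _
      · intro s hs'
        have hs0 : 0 < s := lt_of_lt_of_le h0 hs'.1
        rw [abs_mul, abs_mul, abs_of_pos (by positivity : 0 < s ^ 3),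
          abs_of_nonneg (by positivity : 0 ≤ (1 + Real.tan (p.f s / 2) ^ 2) / 2)]
        have := (StF_half (hle s hs')).2
        have h3 : 0 ≤ s ^ 3 * |p.w s| := by positivity
        nlinarith
    have h4 : Real.tan (p.f lam / 2) = 1 := by
      rw [hf, div_div]; norm_num
    simp only [h4, mul_one] at key
    rw [intervalIntegral.integral_const_mul] at hI
    rw [abs_mul, abs_of_pos (by positivity : 0 < x ^ 3), abs_of_pos (by positivity : 0 < lam ^ 3)] at key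
    have h5 : x ^ 3 * |Real.tan (p.f x / 2)| ≤ lam ^ 3 + 9 / 5 * ∫ s in lam..x, s ^ 3 * |p.w s| :=
      key.trans (by linarith)
    have h6 : (lam / x) ^ 3 + (9 / 5) * (1 / x ^ 3) * (∫ s in lam..x, s ^ 3 * |p.w s|) =
        (lam ^ 3 + 9 / 5 * ∫ s in lam..x, s ^ 3 * |p.w s|) / x ^ 3 := by
      field_simp
    rw [h6, le_div_iff₀ (by positivity)]
    linarith
  · intro s hs'
    have hs0 : 0 < s := lt_of_lt_of_le h0 hs'.1
    have hC := hcos s hs'
    have h1 : HasDerivAt (fun s => p.f s / 2) ((p.w s - (4 + p.a s) * Real.sin (p.f s) / s) / 2) s :=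
      (hs.df s hs0).div_const 2
    have h2 := (Real.hasDerivAt_tan hC).comp s h1
    have h3 := (hasDerivAt_pow 3 s).mul h2
    refine h3.congr_deriv ?_
    have e1 : Real.sin (p.f s) = 2 * Real.sin (p.f s / 2) * Real.cos (p.f s / 2) := by
      rw [← Real.sin_two_mul]; congr 1; ring
    have e2 := Real.sin_sq_add_cos_sq (p.f s / 2)
    have e3 : 1 + Real.tan (p.f s / 2) ^ 2 = 1 / Real.cos (p.f s / 2) ^ 2 := by
      rw [one_div, ← Real.inv_one_add_tan_sq hC, inv_inv]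
    show ((3:ℕ):ℝ) * s ^ (3 - 1) * Real.tan (p.f s / 2) + s ^ 3 * (1 / Real.cos (p.f s / 2) ^ 2 *
      ((p.w s - (4 + p.a s) * Real.sin (p.f s) / s) / 2)) = -((1 + p.a s) / s) *
      (s ^ 3 * Real.tan (p.f s / 2)) + s ^ 3 * ((1 + Real.tan (p.f s / 2) ^ 2) / 2 * p.w s)
    rw [e3, e1, Real.tan_eq_sin_div_cos]
    field_simp
    ring
  · intro s hs'
    have hs0 : 0 < s := lt_of_lt_of_le h0 hs'.1
    have := (abs_le.1 (a_abs hs hE s ⟨hs0.le, hs'.2.trans hxR⟩)).1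
    apply div_nonneg _ hs0.le
    linarith

private lemma StF_far_eps (hs : IsSlice R1 p) (hE : p.En R1 ≤ eps ^ 2) {lam x : ℝ} (h0 : 0 < lam)
    (hlx : lam ≤ x) (hxR : x ≤ R1) :
    (9 / 5) * (1 / x ^ 3) * (∫ s in lam..x, s ^ 3 * |p.w s|) ≤ eps := by
  have hx0 : 0 < x := lt_of_lt_of_le h0 hlx
  have h1 := pw3 h0 hlx (G := p.w) hs.cw.continuousOn
  have h2 := StF_mono hs hE h0.le hlx hxR
  have h3 : ∫ s in lam..x, s ^ 3 * |p.w s| ≤ x ^ 3 * ((5/9) * eps) :=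
    h1.trans (mul_le_mul_of_nonneg_left h2 (by positivity))
  calc (9 / 5) * (1 / x ^ 3) * (∫ s in lam..x, s ^ 3 * |p.w s|)
      ≤ (9 / 5) * (1 / x ^ 3) * (x ^ 3 * ((5/9) * eps)) :=
        mul_le_mul_of_nonneg_left h3 (by positivity)
    _ = eps := by field_simp

theorem far0 (hs : IsSlice R1 p) (hE : p.En R1 ≤ eps ^ 2) {lam : ℝ} (h0 : 0 < lam)
    (h1 : lam < R1) (hf : p.f lam = Real.pi / 2) :
    ∀ r ∈ Icc lam R1, |p.f r| < 2 ∧ |Real.tan (p.f r / 2)| ≤ (lam / r) ^ 3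
      + (9 / 5) * (1 / r ^ 3) * ∫ s in lam..r, s ^ 3 * |p.w s| := by
  have hind : ∀ x ∈ Icc lam R1, |p.f x| < 2 := by
    refine cont_ind (h := fun x => |p.f x|) hs.cf.abs.continuousOn ?_ ?_
    · show |p.f lam| < 2
      rw [hf, abs_of_pos (by linarith [Real.pi_pos])]
      linarith [Real.pi_lt_d2]
    · intro x hx hle
      have hx0 : 0 < x := lt_of_lt_of_le h0 hx.1
      have h2 := StF_far_step hs hE h0 hx.1 hx.2 hf hle
      have h3 := StF_far_eps hs hE h0 hx.1 hx.2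
      have h4 : (lam / x) ^ 3 ≤ 1 := pow_le_one₀ (by positivity) ((div_le_one hx0).2 hx.1)
      exact StF_lt_two (hle x ⟨hx.1, le_refl _⟩) (by linarith)
  intro r hr
  exact ⟨hind r hr, StF_far_step hs hE h0 hr.1 hr.2 hf
    (fun s hs' => (hind s ⟨hs'.1, hs'.2.trans hr.2⟩).le)⟩

/-- backward step -/
private lemma StF_near_step (hs : IsSlice R1 p) (hE : p.En R1 ≤ eps ^ 2) {lam x : ℝ} (hx0 : 0 < x)
    (hxl : x ≤ lam) (hlR : lam ≤ R1) (hf : p.f lam = Real.pi / 2)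
    (hle : ∀ s ∈ Icc x lam, |Real.pi - p.f s| ≤ 2) :
    |Real.tan ((Real.pi - p.f x) / 2)| ≤ (x / lam) ^ 3
      + (9 / 5) * x ^ 3 * ∫ s in x..lam, |p.w s| / s ^ 3 := by
  have h0 : 0 < lam := lt_of_lt_of_le hx0 hxl
  have hcos : ∀ s ∈ Icc x lam, Real.cos ((Real.pi - p.f s) / 2) ≠ 0 :=
    fun s hs' => (StF_half (hle s hs')).1.ne'
  have htc : ContinuousOn (fun s => Real.tan ((Real.pi - p.f s) / 2)) (Icc x lam) := by
    refine Real.continuousOn_tan.comp ((continuous_const.sub hs.cf).div_const 2).continuousOn ?_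
    intro s hs'
    exact hcos s hs'
  have hs3 : ∀ s ∈ Icc x lam, s ^ 3 ≠ 0 := fun s hs' => by
    have : 0 < s := lt_of_lt_of_le hx0 hs'.1
    positivity
  have hsc : ContinuousOn (fun s => -(((1 + Real.tan ((Real.pi - p.f s) / 2) ^ 2) / 2 * p.w s) / s ^ 3))
      (Icc x lam) :=
    ((((continuousOn_const.add (htc.pow 2)).div_const 2).mul hs.cw.continuousOn).div
      (continuous_id.pow 3).continuousOn hs3).neg
  have key := damp_bwd (v := fun s => Real.tan ((Real.pi - p.f s) / 2) / s ^ 3)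
    (c := fun s => (1 + p.a s) / s)
    (s := fun s => -(((1 + Real.tan ((Real.pi - p.f s) / 2) ^ 2) / 2 * p.w s) / s ^ 3)) hxl ?_ ?_ hsc
  · have hI : ∫ s in x..lam, |-(((1 + Real.tan ((Real.pi - p.f s) / 2) ^ 2) / 2 * p.w s) / s ^ 3)| ≤
        ∫ s in x..lam, (9/5) * (|p.w s| / s ^ 3) := by
      apply intervalIntegral.integral_mono_on hxl
      · exact (ContinuousOn.intervalIntegrable (by rw [uIcc_of_le hxl]; exact hsc.abs))
      · refine ContinuousOn.intervalIntegrable ?_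
        rw [uIcc_of_le hxl]
        exact continuousOn_const.mul (hs.cw.abs.continuousOn.div (continuous_id.pow 3).continuousOn hs3)
      · intro s hs'
        have hs0 : 0 < s := lt_of_lt_of_le hx0 hs'.1
        rw [abs_neg, abs_div, abs_mul, abs_of_pos (by positivity : 0 < s ^ 3),
          abs_of_nonneg (by positivity : 0 ≤ (1 + Real.tan ((Real.pi - p.f s) / 2) ^ 2) / 2),
          mul_div_assoc]
        exact mul_le_mul_of_nonneg_right (StF_half (hle s hs')).2 (by positivity)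
    have h4 : Real.tan ((Real.pi - p.f lam) / 2) = 1 := by
      rw [hf]
      have : (Real.pi - Real.pi / 2) / 2 = Real.pi / 4 := by ring
      rw [this, Real.tan_pi_div_four]
    simp only [h4] at key
    rw [intervalIntegral.integral_const_mul] at hI
    rw [abs_div, abs_of_pos (by positivity : 0 < x ^ 3),
      abs_of_pos (by positivity : 0 < 1 / lam ^ 3)] at key
    have h5 : |Real.tan ((Real.pi - p.f x) / 2)| / x ^ 3 ≤
        1 / lam ^ 3 + 9 / 5 * ∫ s in x..lam, |p.w s| / s ^ 3 :=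
      key.trans (by linarith)
    rw [div_le_iff₀ (by positivity)] at h5
    have h6 : (x / lam) ^ 3 + (9 / 5) * x ^ 3 * (∫ s in x..lam, |p.w s| / s ^ 3) =
        (1 / lam ^ 3 + 9 / 5 * ∫ s in x..lam, |p.w s| / s ^ 3) * x ^ 3 := by
      field_simp
    rw [h6]
    exact h5
  · intro s hs'
    have hs0 : 0 < s := lt_of_lt_of_le hx0 hs'.1
    have hC := hcos s hs'
    have h1 : HasDerivAt (fun s => (Real.pi - p.f s) / 2)
        ((-(p.w s - (4 + p.a s) * Real.sin (p.f s) / s)) / 2) s :=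
      ((hs.df s hs0).const_sub Real.pi).div_const 2
    have h2 := (Real.hasDerivAt_tan hC).comp s h1
    have h3 := h2.div (hasDerivAt_pow 3 s) (hs3 s hs')
    refine h3.congr_deriv ?_
    have e1 : Real.sin (p.f s) = 2 * Real.sin ((Real.pi - p.f s) / 2) *
        Real.cos ((Real.pi - p.f s) / 2) := by
      rw [← Real.sin_two_mul, ← Real.sin_pi_sub (p.f s)]; congr 1; ring
    have e3 : 1 + Real.tan ((Real.pi - p.f s) / 2) ^ 2 = 1 / Real.cos ((Real.pi - p.f s) / 2) ^ 2 := by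
      rw [one_div, ← Real.inv_one_add_tan_sq hC, inv_inv]
    show (1 / Real.cos ((Real.pi - p.f s) / 2) ^ 2 *
      ((-(p.w s - (4 + p.a s) * Real.sin (p.f s) / s)) / 2) * s ^ 3 -
      Real.tan ((Real.pi - p.f s) / 2) * (((3:ℕ):ℝ) * s ^ (3 - 1))) / (s ^ 3) ^ 2 =
      (1 + p.a s) / s * (Real.tan ((Real.pi - p.f s) / 2) / s ^ 3) +
      -(((1 + Real.tan ((Real.pi - p.f s) / 2) ^ 2) / 2 * p.w s) / s ^ 3)
    rw [e3, e1, Real.tan_eq_sin_div_cos]
    field_simp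
    ring
  · intro s hs'
    have hs0 : 0 < s := lt_of_lt_of_le hx0 hs'.1
    have := (abs_le.1 (a_abs hs hE s ⟨hs0.le, hs'.2.trans hlR⟩)).1
    apply div_nonneg _ hs0.le
    linarith

private lemma StF_near_eps (hs : IsSlice R1 p) (hE : p.En R1 ≤ eps ^ 2) {lam x : ℝ} (hx0 : 0 < x)
    (hxl : x ≤ lam) (hlR : lam ≤ R1) :
    (9 / 5) * x ^ 3 * (∫ s in x..lam, |p.w s| / s ^ 3) ≤ eps := by
  have h1 := pwm3 hx0 hxl (G := p.w) hs.cw.continuousOn
  have h2 := StF_mono hs hE hx0.le hxl hlR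
  have h3 : ∫ s in x..lam, |p.w s| / s ^ 3 ≤ 1 / x ^ 3 * ((5/9) * eps) :=
    h1.trans (mul_le_mul_of_nonneg_left h2 (by positivity))
  calc (9 / 5) * x ^ 3 * (∫ s in x..lam, |p.w s| / s ^ 3)
      ≤ (9 / 5) * x ^ 3 * (1 / x ^ 3 * ((5/9) * eps)) :=
        mul_le_mul_of_nonneg_left h3 (by positivity)
    _ = eps := by field_simp

theorem near0 (hs : IsSlice R1 p) (hE : p.En R1 ≤ eps ^ 2) {lam : ℝ} (h0 : 0 < lam)
    (h1 : lam < R1) (hf : p.f lam = Real.pi / 2) :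
    ∀ r ∈ Ioc 0 lam, |Real.pi - p.f r| < 2 ∧ |Real.tan ((Real.pi - p.f r) / 2)| ≤ (r / lam) ^ 3
      + (9 / 5) * r ^ 3 * ∫ s in r..lam, |p.w s| / s ^ 3 := by
  intro r hr
  have hind : ∀ x ∈ Icc r lam, |Real.pi - p.f x| < 2 := by
    refine cont_ind_bwd (h := fun x => |Real.pi - p.f x|)
      (continuous_const.sub hs.cf).abs.continuousOn ?_ ?_
    · show |Real.pi - p.f lam| < 2
      rw [hf, abs_of_pos (by linarith [Real.pi_pos])]
      linarith [Real.pi_lt_d2]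
    · intro x hx hle
      have hx0 : 0 < x := lt_of_lt_of_le hr.1 hx.1
      have h2 := StF_near_step hs hE hx0 hx.2 h1.le hf hle
      have h3 := StF_near_eps hs hE hx0 hx.2 h1.le
      have h4 : (x / lam) ^ 3 ≤ 1 := pow_le_one₀ (by positivity) ((div_le_one h0).2 hx.2)
      exact StF_lt_two (hle x ⟨le_refl _, hx.2⟩) (by linarith)
  exact ⟨hind r ⟨le_refl _, hr.2⟩, StF_near_step hs hE hr.1 hr.2 h1.le hf
    (fun s hs' => (hind s hs').le)⟩

theorem far1 (hs : IsSlice R1 p) (hE : p.En R1 ≤ eps ^ 2) {lam : ℝ} (h0 : 0 < lam)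
    (h1 : lam < R1) (hf : p.f lam = Real.pi / 2) :
    ∀ r ∈ Icc lam R1, |Real.tan (p.f r / 2)| ≤ (lam / r) ^ 3 + eps := by
  intro r hr
  have h2 := (far0 hs hE h0 h1 hf r hr).2
  have h3 := StF_far_eps hs hE h0 hr.1 hr.2
  linarith

theorem near1 (hs : IsSlice R1 p) (hE : p.En R1 ≤ eps ^ 2) {lam : ℝ} (h0 : 0 < lam)
    (h1 : lam < R1) (hf : p.f lam = Real.pi / 2) :
    ∀ r ∈ Ioc 0 lam, |Real.tan ((Real.pi - p.f r) / 2)| ≤ (r / lam) ^ 3 + eps := by
  intro r hr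
  have h2 := (near0 hs hE h0 h1 hf r hr).2
  have h3 := StF_near_eps hs hE hr.1 hr.2 h1.le
  linarith

/-- range of the angle -/
theorem f_range (hs : IsSlice R1 p) (hE : p.En R1 ≤ eps ^ 2) :
    ∀ r ∈ Icc 0 R1, -2 ≤ p.f r ∧ p.f r ≤ Real.pi + 2 := by
  intro r hr
  obtain ⟨lam, h0, h1, hf⟩ := exists_lam hs
  have hpi := Real.pi_gt_three
  rcases le_or_gt lam r with h | h
  · have := abs_lt.1 (far0 hs hE h0 h1 hf r ⟨h, hr.2⟩).1
    constructor <;> linarith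
  · rcases eq_or_lt_of_le hr.1 with h2 | h2
    · rw [← h2, hs.f0]
      constructor <;> linarith
    · have := abs_lt.1 (near0 hs hE h0 h1 hf r ⟨h2, h.le⟩).1
      constructor <;> linarith

/-- elementary: sine and cosine through the half angle tangent -/
theorem sin_le_tan {x : ℝ} (h : |x| < 2) : |Real.sin x| ≤ 2 * |Real.tan (x / 2)| := by
  have hc := (StF_half h.le).1
  have e1 : Real.sin x = 2 * Real.tan (x/2) * Real.cos (x/2) ^ 2 := by
    have : Real.sin x = 2 * Real.sin (x / 2) * Real.cos (x / 2) := by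
      rw [← Real.sin_two_mul]; congr 1; ring
    rw [this, Real.tan_eq_sin_div_cos]
    field_simp
  rw [e1, abs_mul, abs_mul, abs_of_pos (by norm_num : (0:ℝ) < 2),
    abs_of_nonneg (sq_nonneg (Real.cos (x/2)))]
  have h2 : Real.cos (x/2) ^ 2 ≤ 1 := Real.cos_sq_le_one _
  have h3 : 0 ≤ 2 * |Real.tan (x/2)| := by positivity
  nlinarith

theorem cos_ge_tan {x : ℝ} (h : |x| < 2) : 1 - 2 * Real.tan (x / 2) ^ 2 ≤ Real.cos x := by
  have hc := (StF_half h.le).1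
  have e1 : Real.cos x = 1 - 2 * Real.sin (x/2) ^ 2 := by
    have h1 : Real.cos x = 2 * Real.cos (x / 2) ^ 2 - 1 := by
      rw [← Real.cos_two_mul]; congr 1; ring
    have h2 := Real.sin_sq_add_cos_sq (x/2)
    rw [h1]; linarith
  have e2 : Real.sin (x/2) ^ 2 = Real.tan (x/2) ^ 2 * Real.cos (x/2) ^ 2 := by
    rw [Real.tan_eq_sin_div_cos]; field_simp
  have h2 : Real.cos (x/2) ^ 2 ≤ 1 := Real.cos_sq_le_one _
  have h3 : 0 ≤ Real.tan (x/2) ^ 2 := sq_nonneg _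
  rw [e1, e2]
  nlinarith

end H72GS
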