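import Pool.Agent.H72.GS.StEta

/-!
# StFar: bounds for `g`

* near (`r ≤ L`): `|g| ≤ 4 om |sin f| + 250 Lam`, `250 Lam ≤ om/10¹¹`.
* far (`r ≥ L`): `|g(L)| ≤ 4 om |sin f(L)| + 250 Lam ≤ 251 Lam` (`sin_L`); `v = r³ g`,
  `μ cos f ≥ 3` (`cos_far2`): `|g(r)| ≤ |g(L)| + ‖G0‖/√6`, `G0 = wt - e sin f`,
  `‖G0‖ ≤ chi + om² lam/10 ≤ 2 Lam`.
* `g_L2`: integrate `(g²)' = 2 g G0 - 2 μ cos f g²/r` over `[L, R1]`, `g(R1) = 0`:
  `6 Z² ≤ g(L)² + 2 Z ‖G0‖`, `Z² = ∫_L^{R1} g²/r` (written `r * (g/r)²`).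
-/

namespace H72GS

open Set MeasureTheory intervalIntegral

variable {R1 : ℝ} {p : Pre} {om lam : ℝ}

theorem g_near (hs : IsSlice R1 p) (hy : Hyp R1 p om) (hg : Geo R1 p om lam) :
    ∀ r ∈ Icc 0 (ep1 / om), |p.g r| ≤ 4 * om * |Real.sin (p.f r)| + 250 * Lam R1 p om lam := by
  intro r hr
  have h1 := eta_abs hs hy hg r hr
  have hom : (0:ℝ) < om := lt_of_lt_of_le (by positivity) hy.hom
  have h2 : p.g r = eta p om r - 4 * om * Real.sin (p.f r) := by unfold eta; ring
  rw [h2]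
  have h3 := abs_sub (eta p om r) (4 * om * Real.sin (p.f r))
  rw [abs_mul, abs_of_pos (by positivity : 0 < 4 * om)] at h3
  linarith

private lemma StFar_om (hy : Hyp R1 p om) : (0:ℝ) < om := lt_of_lt_of_le (by positivity) hy.hom

private lemma StFar_Lam (hg : Geo R1 p om lam) :
    0 ≤ Lam R1 p om lam := by
  unfold Lam
  have h1 := chi_nonneg (R1 := R1) (p := p)
  have h2 := hg.lam_pos
  positivity

/-- the source in the far region -/
private lemma StFar_G0 (hs : IsSlice R1 p) (hy : Hyp R1 p om) (hg : Geo R1 p om lam) :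
    ∫ s in (ep1 / om)..R1, s * (p.wt s - p.e s * Real.sin (p.f s)) ^ 2
      ≤ 2 * (Lam R1 p om lam) ^ 2 := by
  have hom := StFar_om hy
  have hL0 := L_pos hy
  have hLR := L_le hs hy
  have hR := hs.R1pos
  have hcs : Continuous fun s => Real.sin (p.f s) := Real.continuous_sin.comp hs.cf
  have hc1 : Continuous fun s => s * (p.wt s - p.e s * Real.sin (p.f s)) ^ 2 :=
    continuous_id.mul ((hs.cwt.sub (hs.ce.mul hcs)).pow 2)
  have h1 : ∫ s in (ep1 / om)..R1, s * (p.wt s - p.e s * Real.sin (p.f s)) ^ 2 ≤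
      ∫ s in (0:ℝ)..R1, s * (p.wt s - p.e s * Real.sin (p.f s)) ^ 2 :=
    int_mono_set hL0.le (by linarith) le_rfl hc1.continuousOn
      (fun x hx => mul_nonneg hx.1 (sq_nonneg _))
  have hc2 : Continuous fun s => 2 * (s * p.wt s ^ 2) :=
    continuous_const.mul (continuous_id.mul (hs.cwt.pow 2))
  have hc3 : Continuous fun s => 2 * (s * (p.e s * Real.sin (p.f s)) ^ 2) :=
    continuous_const.mul (continuous_id.mul ((hs.ce.mul hcs).pow 2))
  have h2 : ∫ s in (0:ℝ)..R1, s * (p.wt s - p.e s * Real.sin (p.f s)) ^ 2 ≤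
      ∫ s in (0:ℝ)..R1, (2 * (s * p.wt s ^ 2) + 2 * (s * (p.e s * Real.sin (p.f s)) ^ 2)) := by
    apply intervalIntegral.integral_mono_on hR.le (hc1.intervalIntegrable _ _)
      ((hc2.add hc3).intervalIntegrable _ _)
    intro s hs'
    have h3 : 0 ≤ s * (p.wt s + p.e s * Real.sin (p.f s)) ^ 2 := mul_nonneg hs'.1 (sq_nonneg _)
    show s * (p.wt s - p.e s * Real.sin (p.f s)) ^ 2 ≤
      2 * (s * p.wt s ^ 2) + 2 * (s * (p.e s * Real.sin (p.f s)) ^ 2)
    linarith [show 2 * (s * p.wt s ^ 2) + 2 * (s * (p.e s * Real.sin (p.f s)) ^ 2) =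
      s * (p.wt s - p.e s * Real.sin (p.f s)) ^ 2 + s * (p.wt s + p.e s * Real.sin (p.f s)) ^ 2 by ring]
  rw [intervalIntegral.integral_add (hc2.intervalIntegrable _ _) (hc3.intervalIntegrable _ _),
    intervalIntegral.integral_const_mul, intervalIntegral.integral_const_mul] at h2
  have h3 := (X_parts hs hy.en).1
  rw [← chi_sq hs hy] at h3
  have h4 := es_L2_all hs hy hg
  have h5 : 0 ≤ om ^ 2 * lam / 10 := by have := hg.lam_pos; positivity
  have h6 : ∫ r in (0 : ℝ)..R1, r * (p.e r * Real.sin (p.f r)) ^ 2 ≤ (om ^ 2 * lam / 10) ^ 2 :=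
    (Real.sqrt_le_left h5).1 h4
  have h7 := chi_nonneg (R1 := R1) (p := p)
  unfold Lam
  nlinarith [mul_nonneg h7 h5, mul_nonneg h5 h5]

private lemma StFar_gL (hs : IsSlice R1 p) (hy : Hyp R1 p om) (hg : Geo R1 p om lam) :
    |p.g (ep1 / om)| ≤ 251 * Lam R1 p om lam := by
  have h1 := g_near hs hy hg (ep1 / om) ⟨(L_pos hy).le, le_rfl⟩
  have h2 := sin_L hs hy hg
  linarith

private lemma StFar_mc (hs : IsSlice R1 p) (hy : Hyp R1 p om) (hg : Geo R1 p om lam) :
    ∀ s ∈ Icc (ep1 / om) R1, 3 ≤ (4 + p.a s) * Real.cos (p.f s) := by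
  intro s hs'
  have h1 := lam_le_L hy hg
  have h2 := hg.lam_pos
  have hL0 := L_pos hy
  have h3 := cos_far2 hs hy hg s ⟨by nlinarith [hs'.1], hs'.2⟩
  have h4 := (abs_le.1 (a_abs hs hy.en s ⟨by linarith [hs'.1], hs'.2⟩)).1
  nlinarith

theorem g_far (hs : IsSlice R1 p) (hy : Hyp R1 p om) (hg : Geo R1 p om lam) :
    ∀ r ∈ Icc (ep1 / om) R1, |p.g r| ≤ 300 * Lam R1 p om lam := by
  intro r hr
  have hL0 := L_pos hy
  have hr0 : 0 < r := lt_of_lt_of_le hL0 hr.1
  have hcs : Continuous fun s => Real.sin (p.f s) := Real.continuous_sin.comp hs.cf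
  have hcG : Continuous fun s => p.wt s - p.e s * Real.sin (p.f s) := hs.cwt.sub (hs.ce.mul hcs)
  have key := damp_fwd (v := fun s => s ^ 3 * p.g s)
    (c := fun s => ((4 + p.a s) * Real.cos (p.f s) - 3) / s)
    (s := fun s => s ^ 3 * (p.wt s - p.e s * Real.sin (p.f s))) hr.1 ?_ ?_
    (((continuous_id.pow 3).mul hcG).continuousOn)
  · have h1 : ∫ s in (ep1 / om)..r, |s ^ 3 * (p.wt s - p.e s * Real.sin (p.f s))| =
        ∫ s in (ep1 / om)..r, s ^ 3 * |p.wt s - p.e s * Real.sin (p.f s)| := by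
      apply intervalIntegral.integral_congr
      intro s hs'
      rw [uIcc_of_le hr.1] at hs'
      have : 0 < s := lt_of_lt_of_le hL0 hs'.1
      show |s ^ 3 * (p.wt s - p.e s * Real.sin (p.f s))| = _
      rw [abs_mul, abs_of_pos (by positivity : 0 < s ^ 3)]
    have h2 := pw3 hL0 hr.1 (G := fun s => p.wt s - p.e s * Real.sin (p.f s)) hcG.continuousOn
    have h3 : ∫ s in (ep1 / om)..r, s * (p.wt s - p.e s * Real.sin (p.f s)) ^ 2 ≤
        2 * (Lam R1 p om lam) ^ 2 := by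
      refine le_trans (int_mono_set le_rfl hr.1 hr.2 ?_ ?_) (StFar_G0 hs hy hg)
      · exact (continuous_id.mul (hcG.pow 2)).continuousOn
      · intro x hx
        exact mul_nonneg (hL0.le.trans hx.1) (sq_nonneg _)
    have hLam := StFar_Lam hg
    have h4 : Real.sqrt ((∫ s in (ep1 / om)..r, s * (p.wt s - p.e s * Real.sin (p.f s)) ^ 2) / 6) ≤
        Lam R1 p om lam := by
      rw [Real.sqrt_le_iff]
      exact ⟨hLam, by nlinarith [mul_nonneg hLam hLam]⟩
    rw [h1] at key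
    rw [abs_mul, abs_mul, abs_of_pos (by positivity : 0 < r ^ 3),
      abs_of_pos (by positivity : 0 < (ep1 / om) ^ 3)] at key
    have h5 := StFar_gL hs hy hg
    have h6 : (ep1 / om) ^ 3 * |p.g (ep1 / om)| ≤ r ^ 3 * (251 * Lam R1 p om lam) := by
      apply mul_le_mul (pow_le_pow_left₀ hL0.le hr.1 3) h5 (abs_nonneg _) (by positivity)
    have h7 : r ^ 3 * |p.g r| ≤ r ^ 3 * (252 * Lam R1 p om lam) := by
      have h8 : r ^ 3 * Real.sqrt ((∫ s in (ep1 / om)..r,
          s * (p.wt s - p.e s * Real.sin (p.f s)) ^ 2) / 6) ≤ r ^ 3 * Lam R1 p om lam :=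
        mul_le_mul_of_nonneg_left h4 (by positivity)
      linarith
    have h9 : |p.g r| ≤ 252 * Lam R1 p om lam := le_of_mul_le_mul_left h7 (by positivity)
    linarith
  · intro s hs'
    have hs0 : 0 < s := lt_of_lt_of_le hL0 hs'.1
    have h1 := (hasDerivAt_pow 3 s).mul (hs.dg s hs0)
    refine h1.congr_deriv ?_
    simp only [Nat.cast_ofNat]
    field_simp
    ring
  · intro s hs'
    have hs0 : 0 < s := lt_of_lt_of_le hL0 hs'.1
    have h1 := StFar_mc hs hy hg s ⟨hs'.1, hs'.2.trans hr.2⟩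
    apply div_nonneg _ hs0.le
    linarith

theorem g_all (hs : IsSlice R1 p) (hy : Hyp R1 p om) (hg : Geo R1 p om lam) :
    ∀ r ∈ Icc 0 R1, |p.g r| ≤ 5 * om := by
  intro r hr
  have hom := StFar_om hy
  have hLam := StFar_Lam hg
  have h1 := Lam_small hs hy hg
  have h2 : om / 10 ^ 14 ≤ om / 1000 := by
    apply div_le_div_of_nonneg_left hom.le (by norm_num) (by norm_num)
  rcases le_total r (ep1 / om) with h | h
  · have h3 := g_near hs hy hg r ⟨hr.1, h⟩
    have h4 := Real.abs_sin_le_one (p.f r)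
    nlinarith
  · have h3 := g_far hs hy hg r ⟨h, hr.2⟩
    nlinarith

theorem sg_near (hs : IsSlice R1 p) (hy : Hyp R1 p om) (hg : Geo R1 p om lam) :
    ∀ r ∈ Icc 0 (ep1 / om), |Real.sin (p.f r)| * |p.g r| ≤ (401 / 100) * om := by
  intro r hr
  have hom := StFar_om hy
  have hLam := StFar_Lam hg
  have h1 := Lam_small hs hy hg
  have h2 : om / 10 ^ 14 ≤ om / 1000000 := by
    apply div_le_div_of_nonneg_left hom.le (by norm_num) (by norm_num)
  have h3 := g_near hs hy hg r hr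
  have h4 := Real.abs_sin_le_one (p.f r)
  have h5 := abs_nonneg (Real.sin (p.f r))
  have h6 : |p.g r| ≤ (401 / 100) * om := by nlinarith
  calc |Real.sin (p.f r)| * |p.g r| ≤ 1 * |p.g r| :=
        mul_le_mul_of_nonneg_right h4 (abs_nonneg _)
    _ ≤ (401 / 100) * om := by rw [one_mul]; exact h6

theorem sg_far (hs : IsSlice R1 p) (hy : Hyp R1 p om) (hg : Geo R1 p om lam) :
    ∀ r ∈ Icc (ep1 / om) R1, |Real.sin (p.f r)| * |p.g r| ≤ 900 * eps * Lam R1 p om lam := by
  intro r hr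
  have h1 := sin_far hs hy hg r hr
  have h2 := g_far hs hy hg r hr
  have h0 : 0 < eps := by unfold eps; norm_num
  calc |Real.sin (p.f r)| * |p.g r| ≤ (3 * eps) * (300 * Lam R1 p om lam) :=
        mul_le_mul h1 h2 (abs_nonneg _) (by positivity)
    _ = 900 * eps * Lam R1 p om lam := by ring

theorem g_L2 (hs : IsSlice R1 p) (hy : Hyp R1 p om) (hg : Geo R1 p om lam) :
    ∫ r in (ep1 / om)..R1, r * (p.g r / r) ^ 2 ≤ (150 * Lam R1 p om lam) ^ 2 := by
  have hL0 := L_pos hy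
  have hLR : ep1 / om ≤ R1 := by linarith [L_le hs hy, hs.R1pos]
  have hcs : Continuous fun s => Real.sin (p.f s) := Real.continuous_sin.comp hs.cf
  have hcc : Continuous fun s => Real.cos (p.f s) := Real.continuous_cos.comp hs.cf
  have hcG : Continuous fun s => p.wt s - p.e s * Real.sin (p.f s) := hs.cwt.sub (hs.ce.mul hcs)
  have hne : ∀ s ∈ Icc (ep1 / om) R1, s ≠ 0 := fun s hs' => (lt_of_lt_of_le hL0 hs'.1).ne'
  have hcd : ContinuousOn (fun s => 2 * p.g s * (p.wt s - p.e s * Real.sin (p.f s)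
      - (4 + p.a s) * Real.cos (p.f s) * p.g s / s)) (Icc (ep1 / om) R1) := by
    apply ContinuousOn.mul (continuous_const.mul hs.cg).continuousOn
    apply ContinuousOn.sub hcG.continuousOn
    exact ((((continuous_const.add hs.ca).mul hcc).mul hs.cg).continuousOn).div
      continuous_id.continuousOn hne
  have hint : IntervalIntegrable (fun s => 2 * p.g s * (p.wt s - p.e s * Real.sin (p.f s)
      - (4 + p.a s) * Real.cos (p.f s) * p.g s / s)) volume (ep1 / om) R1 :=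
    ContinuousOn.intervalIntegrable (by rw [uIcc_of_le hLR]; exact hcd)
  have h1 : ∫ s in (ep1 / om)..R1, 2 * p.g s * (p.wt s - p.e s * Real.sin (p.f s)
      - (4 + p.a s) * Real.cos (p.f s) * p.g s / s) = p.g R1 ^ 2 - p.g (ep1 / om) ^ 2 := by
    apply intervalIntegral.integral_eq_sub_of_hasDerivAt
    · intro s hs'
      rw [uIcc_of_le hLR] at hs'
      have hs0 : 0 < s := lt_of_lt_of_le hL0 hs'.1
      have h2 := (hs.dg s hs0).pow 2
      refine h2.congr_deriv ?_
      simp only [Nat.cast_ofNat]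
      ring
    · exact hint
  have hcz : ContinuousOn (fun s => s * (p.g s / s) ^ 2) (Icc (ep1 / om) R1) :=
    continuous_id.continuousOn.mul
      ((hs.cg.continuousOn.div continuous_id.continuousOn hne).pow 2)
  have hiz : IntervalIntegrable (fun s => 5 * (s * (p.g s / s) ^ 2)) volume (ep1 / om) R1 :=
    ContinuousOn.intervalIntegrable (by rw [uIcc_of_le hLR]; exact continuousOn_const.mul hcz)
  have hcg0 : Continuous (fun s => s * (p.wt s - p.e s * Real.sin (p.f s)) ^ 2) :=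
    continuous_id.mul (hcG.pow 2)
  have h2 : ∫ s in (ep1 / om)..R1, 2 * p.g s * (p.wt s - p.e s * Real.sin (p.f s)
      - (4 + p.a s) * Real.cos (p.f s) * p.g s / s) ≤
      ∫ s in (ep1 / om)..R1, (s * (p.wt s - p.e s * Real.sin (p.f s)) ^ 2
        - 5 * (s * (p.g s / s) ^ 2)) := by
    apply intervalIntegral.integral_mono_on hLR hint
      ((hcg0.intervalIntegrable _ _).sub hiz)
    intro s hs'
    have hs0 : 0 < s := lt_of_lt_of_le hL0 hs'.1
    have h3 := StFar_mc hs hy hg s hs'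
    set G := p.wt s - p.e s * Real.sin (p.f s) with hG
    set m := (4 + p.a s) * Real.cos (p.f s) with hm
    have h4 : 0 ≤ (s * G - p.g s) ^ 2 / s := by positivity
    have h5 : (s * G - p.g s) ^ 2 / s = s * G ^ 2 - 2 * p.g s * G + p.g s ^ 2 / s := by
      field_simp
      ring
    have h6 : s * (p.g s / s) ^ 2 = p.g s ^ 2 / s := by
      field_simp
    have h7 : 2 * p.g s * (G - m * p.g s / s) = 2 * p.g s * G - 2 * m * (p.g s ^ 2 / s) := by
      ring
    rw [h6, h7]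
    have h8 : 0 ≤ p.g s ^ 2 / s := by positivity
    rw [h5] at h4
    nlinarith [mul_nonneg (sub_nonneg.2 h3) h8]
  rw [intervalIntegral.integral_sub (hcg0.intervalIntegrable _ _) hiz,
    intervalIntegral.integral_const_mul, h1, hs.gR] at h2
  have h3 := StFar_G0 hs hy hg
  have h4 := StFar_gL hs hy hg
  have hLam := StFar_Lam hg
  have h5 : p.g (ep1 / om) ^ 2 ≤ (251 * Lam R1 p om lam) ^ 2 := by
    rw [← sq_abs]
    exact pow_le_pow_left₀ (abs_nonneg _) h4 2
  nlinarith [mul_nonneg hLam hLam]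

end H72GS
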