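import Pool.Agent.H72.GS.StN

/-!
# StG: refined shape, using the second order energy

`chi = √X`, `Lam = chi + om² lam`, `L = ep1 / om`, `b = om lam ≤ eps = 10⁻²²`.
* `chi_le`: `X ≤ Gam² om⁴ N ≤ 3 Gam² om⁴ lam²`, `√3 · 1.3·10⁷ ≤ 3·10⁷`.
  Consequences: `chi lam ≤ 3·10⁷ b²`, `chi ≤ 3·10⁷ b om`, `Lam ≤ 4·10⁷ b om ≤ 10⁻¹⁴ om`.
* `sqrt_om_le`: from `b_lo`: `√om ≤ 2 om² lam` (`1 ≤ 3 om³ lam²`).
* `cos_far`: for `lam ≤ r ≤ 2 lam`: `|u| ≤ (lam/r)³ + (9/5) chi (r - lam) ≤ 1` because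
  `1 - (lam/r)³ ≥ (r-lam)/(2 lam)` and `(18/5) chi lam ≤ 1`; for `r ≥ 2 lam`: `|u| ≤ 1/8 + eps`.
  (use `far0` with `|w| ≤ chi`: `r⁻³ ∫ s³ chi ≤ chi (r-lam)` and `≤ chi r / 4`.)
* `far2`: `|tan (f/2)| ≤ (lam/r)³ + chi r / 2`;
  `near2`: `|tan ((π-f)/2)| ≤ (r/lam)³ + chi r` (`r³ ∫_r^lam s⁻³ ≤ r/2`).
* `I_sin2`: `∫_0^L r sin² f ≤ lam²/2 + 8 ∫_lam^L ((lam/r)⁶ + chi² r²/4) r
  ≤ 2.5 lam² + chi² L⁴/2`, `chi² L⁴ ≤ 9·10¹⁴ om⁴ lam² · 10⁻¹⁶ / om⁴`.
* `I_sin2_far`: `∫_L^{R1} r sin² f ≤ 8 ∫ ((lam/r)⁶ + eps²) r`.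
* `sin_far`: `|sin f| ≤ 2((lam/L)³ + eps)`, `lam/L = 10⁴ b`.
* `sin_L`: `4 om |sin f(L)| ≤ 8 om ((lam/L)³ + chi L/2)`, `8 om (10⁴ b)³ ≤ b om`,
  `4 om chi L = 4·10⁻⁴ chi`.
-/

namespace H72GS

open Set MeasureTheory intervalIntegral

variable {R1 : ℝ} {p : Pre} {om lam : ℝ}

/-- square root of the second order energy -/
noncomputable def chi (R1 : ℝ) (p : Pre) : ℝ := Real.sqrt (p.X R1)

/-- `Lam = chi + om² lam` -/
noncomputable def Lam (R1 : ℝ) (p : Pre) (om lam : ℝ) : ℝ := chi R1 p + om ^ 2 * lam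

theorem chi_nonneg : 0 ≤ chi R1 p := Real.sqrt_nonneg _

theorem chi_sq (hs : IsSlice R1 p) (hy : Hyp R1 p om) : chi R1 p ^ 2 = p.X R1 :=
  Real.sq_sqrt (X_nonneg hs hy.en)

private lemma StG_om_pos (hy : Hyp R1 p om) : 0 < om :=
  lt_of_lt_of_le (by positivity) hy.hom

theorem chi_le (hs : IsSlice R1 p) (hy : Hyp R1 p om) (hg : Geo R1 p om lam) :
    chi R1 p ≤ 3 * 10 ^ 7 * om ^ 2 * lam := by
  have ho := StG_om_pos hy
  have hl := hg.lam_pos
  unfold chi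
  rw [Real.sqrt_le_iff]
  refine ⟨by positivity, ?_⟩
  have h1 := hy.hX
  have h2 := hg.N_hi
  have h3 : Gam ^ 2 * om ^ 4 * p.N R1 ≤ Gam ^ 2 * om ^ 4 * (3 * lam ^ 2) :=
    mul_le_mul_of_nonneg_left h2 (by positivity)
  refine h1.trans (h3.trans ?_)
  unfold Gam
  have h4 : 0 ≤ om ^ 4 * lam ^ 2 := by positivity
  nlinarith

theorem Lam_le (hs : IsSlice R1 p) (hy : Hyp R1 p om) (hg : Geo R1 p om lam) :
    Lam R1 p om lam ≤ 4 * 10 ^ 7 * om ^ 2 * lam := by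
  have ho := StG_om_pos hy
  have hl := hg.lam_pos
  have h1 := chi_le hs hy hg
  have h4 : 0 ≤ om ^ 2 * lam := by positivity
  unfold Lam
  linarith

theorem Lam_small (hs : IsSlice R1 p) (hy : Hyp R1 p om) (hg : Geo R1 p om lam) :
    Lam R1 p om lam ≤ om / 10 ^ 14 := by
  have ho := StG_om_pos hy
  have h1 := Lam_le hs hy hg
  have h2 := hg.b_le
  have h3 : om * (om * lam) ≤ om * eps := mul_le_mul_of_nonneg_left h2 ho.le
  unfold eps at h3
  have h4 : om * (1 / 10 ^ 22) = om / 10 ^ 22 := by ring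
  rw [h4] at h3
  have h5 : (4 : ℝ) * 10 ^ 7 * om ^ 2 * lam = 4 * 10 ^ 7 * (om * (om * lam)) := by ring
  rw [h5] at h1
  have h6 : 4 * 10 ^ 7 * (om / 10 ^ 22) ≤ om / 10 ^ 14 := by
    rw [← sub_nonneg]
    have : om / 10 ^ 14 - 4 * 10 ^ 7 * (om / 10 ^ 22) = om * (6 / 10 ^ 15) := by ring
    rw [this]; positivity
  linarith

theorem sqrt_om_le (hy : Hyp R1 p om) (hg : Geo R1 p om lam) :
    Real.sqrt om ≤ 2 * om ^ 2 * lam := by
  have ho := StG_om_pos hy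
  have hl := hg.lam_pos
  rw [Real.sqrt_le_iff]
  refine ⟨by positivity, ?_⟩
  have h1 := hg.b_lo
  have h2 : om * 1 ≤ om * (3 * om ^ 3 * lam ^ 2) := mul_le_mul_of_nonneg_left h1 ho.le
  have h3 : 0 ≤ om ^ 4 * lam ^ 2 := by positivity
  nlinarith

/-- `om² lam` is huge -/
theorem om2lam_ge (hy : Hyp R1 p om) (hg : Geo R1 p om lam) : 10 ^ 29 ≤ om ^ 2 * lam := by
  have ho := StG_om_pos hy
  have hl := hg.lam_pos
  have h1 := hg.b_lo
  have h2 : om * 1 ≤ om * (3 * om ^ 3 * lam ^ 2) := mul_le_mul_of_nonneg_left h1 ho.le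
  have h0 := hy.hom
  have h3 : ((10 : ℝ) ^ 29) ^ 2 ≤ (om ^ 2 * lam) ^ 2 := by
    have e : (om ^ 2 * lam) ^ 2 = om * (3 * om ^ 3 * lam ^ 2) / 3 := by ring
    rw [e, ← pow_mul, le_div_iff₀ (by norm_num)]
    calc (10 : ℝ) ^ (29 * 2) * 3 ≤ 10 ^ 60 := by norm_num
      _ ≤ om * 1 := by linarith
      _ ≤ _ := h2
  exact (le_abs_self _).trans (abs_le_of_sq_le_sq h3 (by positivity))

theorem L_pos (hy : Hyp R1 p om) : 0 < ep1 / om := by
  have ho := StG_om_pos hy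
  unfold ep1
  positivity

theorem L_le (hs : IsSlice R1 p) (hy : Hyp R1 p om) : ep1 / om ≤ R1 / 2 := by
  have ho := StG_om_pos hy
  have h0 := hy.hom
  have h1 := hs.R1ge
  rw [div_le_iff₀ ho]
  have h2 : (1 / 10 ^ 50 : ℝ) / 2 * 10 ^ 60 ≤ R1 / 2 * om :=
    mul_le_mul (by linarith) h0 (by positivity) (by linarith [hs.R1pos])
  refine le_trans ?_ h2
  unfold ep1
  norm_num

theorem lam_le_L (hy : Hyp R1 p om) (hg : Geo R1 p om lam) : 10 ^ 17 * lam ≤ ep1 / om := by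
  have ho := StG_om_pos hy
  have h := hg.b_le
  rw [le_div_iff₀ ho]
  unfold eps at h
  unfold ep1
  have : 10 ^ 17 * lam * om = 10 ^ 17 * (om * lam) := by ring
  rw [this]
  calc (10 : ℝ) ^ 17 * (om * lam) ≤ 10 ^ 17 * (1 / 10 ^ 22) :=
        mul_le_mul_of_nonneg_left h (by positivity)
    _ ≤ 1 / 10 ^ 4 := by norm_num

private lemma StG_chi_lam (hs : IsSlice R1 p) (hy : Hyp R1 p om) (hg : Geo R1 p om lam) :
    (18 / 5) * (chi R1 p * lam) ≤ 1 := by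
  have ho := StG_om_pos hy
  have hl := hg.lam_pos
  have h1 := chi_le hs hy hg
  have h2 := hg.b_le
  have h3 : (om * lam) * (om * lam) ≤ eps * eps :=
    mul_le_mul h2 h2 (by positivity) (by unfold eps; positivity)
  have h4 : chi R1 p * lam ≤ 3 * 10 ^ 7 * om ^ 2 * lam * lam :=
    mul_le_mul_of_nonneg_right h1 hl.le
  have h5 : 3 * 10 ^ 7 * om ^ 2 * lam * lam = 3 * 10 ^ 7 * ((om * lam) * (om * lam)) := by ring
  rw [h5] at h4
  have h6 : 3 * 10 ^ 7 * ((om * lam) * (om * lam)) ≤ 3 * 10 ^ 7 * (eps * eps) :=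
    mul_le_mul_of_nonneg_left h3 (by positivity)
  have h7 : (18 / 5 : ℝ) * (3 * 10 ^ 7 * (eps * eps)) ≤ 1 := by
    unfold eps; norm_num
  linarith

private lemma StG_cos_nonneg {x : ℝ} (hx : |x| < 2) (ht : |Real.tan (x / 2)| ≤ 1) :
    0 ≤ Real.cos x := by
  have h3 : (3 : ℝ) < Real.pi := Real.pi_gt_three
  rw [abs_lt] at hx
  have hc : 0 < Real.cos (x / 2) :=
    Real.cos_pos_of_mem_Ioo ⟨by linarith [hx.1], by linarith [hx.2]⟩
  have e1 : Real.tan (x / 2) * Real.cos (x / 2) = Real.sin (x / 2) := Real.tan_mul_cos hc.ne'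
  have e2 : Real.cos x = Real.cos (x / 2) ^ 2 - Real.sin (x / 2) ^ 2 := by
    have := Real.cos_sq' (x / 2)
    have h4 := Real.cos_two_mul (x / 2)
    rw [show 2 * (x / 2) = x by ring] at h4
    linarith
  rw [e2, ← e1]
  have h5 : Real.tan (x / 2) ^ 2 ≤ 1 := by
    rw [← sq_abs]
    exact pow_le_one₀ (abs_nonneg _) ht
  have h6 : 0 ≤ Real.cos (x / 2) ^ 2 := sq_nonneg _
  nlinarith

private lemma StG_w (hs : IsSlice R1 p) (hy : Hyp R1 p om) {s : ℝ} (h0 : 0 ≤ s) (h1 : s ≤ R1) :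
    |p.w s| ≤ chi R1 p := w_abs hs hy.en s ⟨h0, h1⟩

private lemma StG_int_far (hs : IsSlice R1 p) (hy : Hyp R1 p om) (h0 : 0 < lam) {r : ℝ}
    (hr : r ∈ Icc lam R1) :
    ∫ s in lam..r, s ^ 3 * |p.w s| ≤ r ^ 3 * chi R1 p * (r - lam) := by
  have h1 : ∫ s in lam..r, s ^ 3 * |p.w s| ≤ ∫ _ in lam..r, r ^ 3 * chi R1 p := by
    refine integral_mono_on hr.1 ?_ ?_ ?_
    · exact ((continuous_pow 3).mul hs.cw.abs).intervalIntegrable _ _
    · exact continuous_const.intervalIntegrable _ _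
    · intro s hs'
      have hs0 : 0 ≤ s := h0.le.trans hs'.1
      exact mul_le_mul (pow_le_pow_left₀ hs0 hs'.2 3) (StG_w hs hy hs0 (hs'.2.trans hr.2))
        (abs_nonneg _) (by have := h0.le.trans hr.1; positivity)
  rw [intervalIntegral.integral_const, smul_eq_mul] at h1
  linarith

private lemma StG_int_far2 (hs : IsSlice R1 p) (hy : Hyp R1 p om) (h0 : 0 < lam) {r : ℝ}
    (hr : r ∈ Icc lam R1) :
    ∫ s in lam..r, s ^ 3 * |p.w s| ≤ chi R1 p * r ^ 4 / 4 := by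
  have h1 : ∫ s in lam..r, s ^ 3 * |p.w s| ≤ ∫ s in lam..r, s ^ 3 * chi R1 p := by
    refine integral_mono_on hr.1 ?_ ?_ ?_
    · exact ((continuous_pow 3).mul hs.cw.abs).intervalIntegrable _ _
    · exact ((continuous_pow 3).mul continuous_const).intervalIntegrable _ _
    · intro s hs'
      have hs0 : 0 ≤ s := h0.le.trans hs'.1
      exact mul_le_mul_of_nonneg_left (StG_w hs hy hs0 (hs'.2.trans hr.2)) (by positivity)
  rw [intervalIntegral.integral_mul_const, integral_pow] at h1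
  have h2 : 0 ≤ lam ^ 4 * chi R1 p := mul_nonneg (by positivity) chi_nonneg
  push_cast at h1
  norm_num at h1
  linarith

private lemma StG_int_near (hs : IsSlice R1 p) (hy : Hyp R1 p om) (h1 : lam < R1) {r : ℝ}
    (hr : r ∈ Ioc 0 lam) :
    ∫ s in r..lam, |p.w s| / s ^ 3 ≤ chi R1 p / r ^ 3 * (lam - r) := by
  have hc := chi_nonneg (R1 := R1) (p := p)
  have h1 : ∫ s in r..lam, |p.w s| / s ^ 3 ≤ ∫ _ in r..lam, chi R1 p / r ^ 3 := by
    refine integral_mono_on hr.2 ?_ ?_ ?_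
    · apply ContinuousOn.intervalIntegrable
      refine hs.cw.abs.continuousOn.div (continuous_pow 3).continuousOn ?_
      intro s hs'
      rw [uIcc_of_le hr.2] at hs'
      have : 0 < s := hr.1.trans_le hs'.1
      positivity
    · exact continuous_const.intervalIntegrable _ _
    · intro s hs'
      have hs0 : 0 < s := hr.1.trans_le hs'.1
      have hr0 := hr.1
      refine div_le_div₀ hc (StG_w hs hy hs0.le (hs'.2.trans h1.le)) (by positivity) ?_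
      exact pow_le_pow_left₀ hr0.le hs'.1 3
  rw [intervalIntegral.integral_const, smul_eq_mul] at h1
  linarith

private lemma StG_int_near2 (hs : IsSlice R1 p) (hy : Hyp R1 p om) (h1 : lam < R1) {r : ℝ}
    (hr : r ∈ Ioc 0 lam) :
    ∫ s in r..lam, |p.w s| / s ^ 3 ≤ chi R1 p * (1 / (2 * r ^ 2)) := by
  have hc := chi_nonneg (R1 := R1) (p := p)
  have hr0 := hr.1
  have hl0 : 0 < lam := hr0.trans_le hr.2
  have h0n : (0 : ℝ) ∉ uIcc r lam := by
    rw [uIcc_of_le hr.2]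
    intro h
    exact absurd h.1 (not_le.mpr hr0)
  have h1 : ∫ s in r..lam, |p.w s| / s ^ 3 ≤ ∫ s in r..lam, chi R1 p * s ^ (-3 : ℤ) := by
    refine integral_mono_on hr.2 ?_ ?_ ?_
    · apply ContinuousOn.intervalIntegrable
      refine hs.cw.abs.continuousOn.div (continuous_pow 3).continuousOn ?_
      intro s hs'
      rw [uIcc_of_le hr.2] at hs'
      have : 0 < s := hr.1.trans_le hs'.1
      positivity
    · exact (intervalIntegral.intervalIntegrable_zpow (Or.inr h0n)).const_mul _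
    · intro s hs'
      have hs0 : 0 < s := hr.1.trans_le hs'.1
      rw [div_eq_mul_inv]
      have e : (s ^ 3)⁻¹ = s ^ (-3 : ℤ) := by
        rw [zpow_neg]; norm_cast
      rw [e]
      exact mul_le_mul_of_nonneg_right (StG_w hs hy hs0.le (hs'.2.trans h1.le)) (by positivity)
  rw [intervalIntegral.integral_const_mul, integral_zpow (Or.inr ⟨by norm_num, h0n⟩)] at h1
  refine h1.trans (mul_le_mul_of_nonneg_left ?_ hc)
  have e1 : ((-3 : ℤ) + 1) = -2 := by norm_num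
  rw [e1]
  have e2 : ∀ x : ℝ, x ^ (-2 : ℤ) = 1 / x ^ 2 := by
    intro x
    rw [zpow_neg, one_div]; norm_cast
  rw [e2, e2]
  have h3 : 0 < 1 / lam ^ 2 := by positivity
  have h4 : 1 / (2 * r ^ 2) = (1 / r ^ 2) / 2 := by field_simp
  rw [h4]
  have e7 : (((-3 : ℤ) : ℝ) + 1) = -2 := by norm_num
  rw [e7, div_neg, ← neg_div]
  linarith

theorem cos_far (hs : IsSlice R1 p) (hy : Hyp R1 p om) (hg : Geo R1 p om lam) :
    ∀ r ∈ Icc lam R1, 0 ≤ Real.cos (p.f r) := by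
  intro r hr
  have hl := hg.lam_pos
  have hr0 : 0 < r := hl.trans_le hr.1
  obtain ⟨h1, h2⟩ := far0 hs hy.en hl hg.lam_lt hg.f_lam r hr
  apply StG_cos_nonneg h1
  rcases le_total r (2 * lam) with h | h
  · refine h2.trans ?_
    have h3 := StG_int_far hs hy hl hr
    have h4 := StG_chi_lam hs hy hg
    have hc := chi_nonneg (R1 := R1) (p := p)
    have h5 : (9 / 5) * (1 / r ^ 3) * ∫ s in lam..r, s ^ 3 * |p.w s| ≤
        (9 / 5) * (1 / r ^ 3) * (r ^ 3 * chi R1 p * (r - lam)) :=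
      mul_le_mul_of_nonneg_left h3 (by positivity)
    have e5 : (9 / 5) * (1 / r ^ 3) * (r ^ 3 * chi R1 p * (r - lam)) =
        (9 / 5) * (chi R1 p * (r - lam)) := by
      field_simp
    rw [e5] at h5
    set t := lam / r with ht
    have ht0 : 0 < t := by positivity
    have ht1 : t ≤ 1 := by rw [ht, div_le_one hr0]; exact hr.1
    have ht3 : t ^ 3 ≤ t := by nlinarith [mul_nonneg ht0.le (sub_nonneg.mpr ht1), mul_pos ht0 ht0]
    have htr : t * r = lam := by rw [ht]; field_simp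
    have h6 : (9 / 5) * (chi R1 p * (r - lam)) ≤ 1 - t := by
      have e6 : r - lam = (1 - t) * r := by rw [sub_mul, htr, one_mul]
      rw [e6]
      have h7 : (9 / 5) * (chi R1 p * r) ≤ 1 := by
        have : chi R1 p * r ≤ chi R1 p * (2 * lam) := mul_le_mul_of_nonneg_left h hc
        linarith
      have h8 : (1 - t) * ((9 / 5) * (chi R1 p * r)) ≤ (1 - t) * 1 :=
        mul_le_mul_of_nonneg_left h7 (by linarith)
      linarith
    linarith
  · refine (far1 hs hy.en hl hg.lam_lt hg.f_lam r hr).trans ?_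
    have h3 : lam / r ≤ 1 / 2 := by
      rw [div_le_div_iff₀ hr0 (by norm_num)]; linarith
    have h4 : (lam / r) ^ 3 ≤ (1 / 2) ^ 3 := pow_le_pow_left₀ (by positivity) h3 3
    unfold eps
    norm_num at h4 ⊢
    linarith

private lemma StG_sq {u : ℝ} (h : |u| ≤ 1 / 8 + eps) : 7 / 8 ≤ 1 - 2 * u ^ 2 := by
  have h1 : |u| ≤ 1 / 5 := h.trans (by unfold eps; norm_num)
  have h2 : u ^ 2 ≤ (1 / 5) ^ 2 := by
    rw [← sq_abs]
    exact pow_le_pow_left₀ (abs_nonneg _) h1 2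
  norm_num at h2
  linarith

theorem cos_far2 (hs : IsSlice R1 p) (hy : Hyp R1 p om) (hg : Geo R1 p om lam) :
    ∀ r ∈ Icc (2 * lam) R1, 7 / 8 ≤ Real.cos (p.f r) := by
  intro r hr
  have hl := hg.lam_pos
  have hr' : r ∈ Icc lam R1 := ⟨by linarith [hr.1], hr.2⟩
  have hr0 : 0 < r := hl.trans_le hr'.1
  obtain ⟨h1, h2⟩ := far0 hs hy.en hl hg.lam_lt hg.f_lam r hr'
  refine le_trans ?_ (cos_ge_tan h1)
  apply StG_sq
  refine (far1 hs hy.en hl hg.lam_lt hg.f_lam r hr').trans ?_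
  have h3 : lam / r ≤ 1 / 2 := by
    rw [div_le_div_iff₀ hr0 (by norm_num)]; linarith [hr.1]
  have h4 : (lam / r) ^ 3 ≤ (1 / 2) ^ 3 := pow_le_pow_left₀ (by positivity) h3 3
  norm_num at h4
  linarith

theorem cos_near (hs : IsSlice R1 p) (hy : Hyp R1 p om) (hg : Geo R1 p om lam) :
    ∀ r ∈ Ioc 0 lam, Real.cos (p.f r) ≤ 0 := by
  intro r hr
  have hl := hg.lam_pos
  have hr0 : 0 < r := hr.1
  obtain ⟨h1, h2⟩ := near0 hs hy.en hl hg.lam_lt hg.f_lam r hr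
  have key : 0 ≤ Real.cos (Real.pi - p.f r) := by
    apply StG_cos_nonneg h1
    refine h2.trans ?_
    have h3 := StG_int_near hs hy hg.lam_lt hr
    have h4 := StG_chi_lam hs hy hg
    have hc := chi_nonneg (R1 := R1) (p := p)
    have h5 : (9 / 5) * r ^ 3 * ∫ s in r..lam, |p.w s| / s ^ 3 ≤
        (9 / 5) * r ^ 3 * (chi R1 p / r ^ 3 * (lam - r)) :=
      mul_le_mul_of_nonneg_left h3 (by positivity)
    have e5 : (9 / 5) * r ^ 3 * (chi R1 p / r ^ 3 * (lam - r)) =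
        (9 / 5) * (chi R1 p * (lam - r)) := by
      field_simp
    rw [e5] at h5
    set t := r / lam with ht
    have ht0 : 0 < t := by positivity
    have ht1 : t ≤ 1 := by rw [ht, div_le_one hl]; exact hr.2
    have ht3 : t ^ 3 ≤ t := by nlinarith [mul_nonneg ht0.le (sub_nonneg.mpr ht1), mul_pos ht0 ht0]
    have htr : t * lam = r := by rw [ht]; field_simp
    have h6 : (9 / 5) * (chi R1 p * (lam - r)) ≤ 1 - t := by
      have e6 : lam - r = (1 - t) * lam := by rw [sub_mul, htr, one_mul]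
      rw [e6]
      have hcl : 0 ≤ chi R1 p * lam := mul_nonneg hc hl.le
      have h7 : (9 / 5) * (chi R1 p * lam) ≤ 1 := by linarith
      have h8 : (1 - t) * ((9 / 5) * (chi R1 p * lam)) ≤ (1 - t) * 1 :=
        mul_le_mul_of_nonneg_left h7 (by linarith)
      linarith
    linarith
  rw [Real.cos_pi_sub] at key
  linarith

theorem cos_near2 (hs : IsSlice R1 p) (hy : Hyp R1 p om) (hg : Geo R1 p om lam) :
    ∀ r ∈ Ioc 0 (lam / 2), Real.cos (p.f r) ≤ -(7 / 8) := by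
  intro r hr
  have hl := hg.lam_pos
  have hr0 : 0 < r := hr.1
  have hr' : r ∈ Ioc 0 lam := ⟨hr.1, by linarith [hr.2]⟩
  obtain ⟨h1, h2⟩ := near0 hs hy.en hl hg.lam_lt hg.f_lam r hr'
  have key : 7 / 8 ≤ Real.cos (Real.pi - p.f r) := by
    refine le_trans ?_ (cos_ge_tan h1)
    apply StG_sq
    refine (near1 hs hy.en hl hg.lam_lt hg.f_lam r hr').trans ?_
    have h3 : r / lam ≤ 1 / 2 := by
      rw [div_le_div_iff₀ hl (by norm_num)]; linarith [hr.2]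
    have h4 : (r / lam) ^ 3 ≤ (1 / 2) ^ 3 := pow_le_pow_left₀ (by positivity) h3 3
    norm_num at h4
    linarith
  rw [Real.cos_pi_sub] at key
  linarith

theorem far2 (hs : IsSlice R1 p) (hy : Hyp R1 p om) (hg : Geo R1 p om lam) :
    ∀ r ∈ Icc lam R1, |Real.tan (p.f r / 2)| ≤ (lam / r) ^ 3 + chi R1 p * r / 2 := by
  intro r hr
  have hl := hg.lam_pos
  have hr0 : 0 < r := hl.trans_le hr.1
  obtain ⟨h1, h2⟩ := far0 hs hy.en hl hg.lam_lt hg.f_lam r hr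
  refine h2.trans ?_
  have h3 := StG_int_far2 hs hy hl hr
  have h5 : (9 / 5) * (1 / r ^ 3) * ∫ s in lam..r, s ^ 3 * |p.w s| ≤
      (9 / 5) * (1 / r ^ 3) * (chi R1 p * r ^ 4 / 4) :=
    mul_le_mul_of_nonneg_left h3 (by positivity)
  have e5 : (9 / 5) * (1 / r ^ 3) * (chi R1 p * r ^ 4 / 4) = (9 / 20) * (chi R1 p * r) := by
    field_simp
    ring
  rw [e5] at h5
  have hc : 0 ≤ chi R1 p * r := mul_nonneg chi_nonneg hr0.le
  linarith

theorem near2 (hs : IsSlice R1 p) (hy : Hyp R1 p om) (hg : Geo R1 p om lam) :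
    ∀ r ∈ Ioc 0 lam, |Real.tan ((Real.pi - p.f r) / 2)| ≤ (r / lam) ^ 3 + chi R1 p * r := by
  intro r hr
  have hl := hg.lam_pos
  have hr0 : 0 < r := hr.1
  obtain ⟨h1, h2⟩ := near0 hs hy.en hl hg.lam_lt hg.f_lam r hr
  refine h2.trans ?_
  have h3 := StG_int_near2 hs hy hg.lam_lt hr
  have h5 : (9 / 5) * r ^ 3 * ∫ s in r..lam, |p.w s| / s ^ 3 ≤
      (9 / 5) * r ^ 3 * (chi R1 p * (1 / (2 * r ^ 2))) :=
    mul_le_mul_of_nonneg_left h3 (by positivity)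
  have e5 : (9 / 5) * r ^ 3 * (chi R1 p * (1 / (2 * r ^ 2))) = (9 / 10) * (chi R1 p * r) := by
    field_simp
    ring
  rw [e5] at h5
  have hc : 0 ≤ chi R1 p * r := mul_nonneg chi_nonneg hr0.le
  linarith

end H72GS
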