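import Pool.Agent.H72.GS.StG

/-!
# StH (only `I_sin2, I_sin2_all, sin_far, sin_L`)

`chi = √X`, `Lam = chi + om² lam`, `L = ep1 / om`, `b = om lam ≤ eps = 10⁻²²`.
* `chi_le`: `X ≤ Gam² om⁴ N ≤ 3 Gam² om⁴ lam²`, `√3 · 1.3·10⁷ ≤ 3·10⁷`.
  Consequences: `chi lam ≤ 3·10⁷ b²`, `chi ≤ 3·10⁷ b om`, `Lam ≤ 4·10⁷ b om ≤ 10⁻¹⁴ om`.
* `sqrt_om_le`: from `b_lo`: `√om ≤ 2 om² lam` (`1 ≤ 3 om³ lam²`).
* `cos_far`: for `lam ≤ r ≤ 2 lam`: `|u| ≤ (lam/r)³ + (9/5) chi (r - lam) ≤ 1` because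
  `1 - (lam/r)³ ≥ (r-lam)/(2 lam)` and `(18/5) chi lam ≤ 1`; for `r ≥ 2 lam`: `|u| ≤ 1/8 + eps`.
  (use `far0` with `|w| ≤ chi`: `r⁻³ ∫ s³ chi ≤ chi (r-lam)` and `≤ chi r / 4`.)
* `far2`: `|tan (f/2)| ≤ (lam/r)³ + chi r / 2`;
  `near2`: `|tan ((π-f)/2)| ≤ (r/lam)³ + chi r` (`r³ ∫_r^lam s⁻³ ≤ r/2`).
* `I_sin2`: `∫_0^L r sin² f ≤ lam²/2 + 8 ∫_lam^L ((lam/r)⁶ + chi² r²/4) r
  ≤ 2.5 lam² + chi² L⁴/2`, `chi² L⁴ ≤ 9·10¹⁴ om⁴ lam² · 10⁻¹⁶ / om⁴`.
* `I_sin2_far`: `∫_L^{R1} r sin² f ≤ 8 ∫ ((lam/r)⁶ + eps²) r`.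
* `sin_far`: `|sin f| ≤ 2((lam/L)³ + eps)`, `lam/L = 10⁴ b`.
* `sin_L`: `4 om |sin f(L)| ≤ 8 om ((lam/L)³ + chi L/2)`, `8 om (10⁴ b)³ ≤ b om`,
  `4 om chi L = 4·10⁻⁴ chi`.
-/

namespace H72GS

open Set MeasureTheory intervalIntegral

variable {R1 : ℝ} {p : Pre} {om lam : ℝ}

private lemma stH_sin (hs : IsSlice R1 p) (hy : Hyp R1 p om) (hg : Geo R1 p om lam) :
    ∀ r ∈ Icc lam R1, |Real.sin (p.f r)| ≤ 2 * ((lam / r) ^ 3 + chi R1 p * r / 2) := by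
  intro r hr
  have h1 := (far0 hs hy.en hg.lam_pos hg.lam_lt hg.f_lam r hr).1
  have h2 := sin_le_tan h1
  have h3 := far2 hs hy hg r hr
  linarith

private lemma stH_om (hy : Hyp R1 p om) : 0 < om := lt_of_lt_of_le (by norm_num) hy.hom

private lemma stH_pt (hs : IsSlice R1 p) (hy : Hyp R1 p om) (hg : Geo R1 p om lam) :
    ∀ r ∈ Icc lam R1, r * Real.sin (p.f r) ^ 2 ≤
      8 * lam ^ 6 / r ^ 5 + 2 * chi R1 p ^ 2 * r ^ 3 := by
  intro r hr
  have hr0 : 0 < r := lt_of_lt_of_le hg.lam_pos hr.1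
  have h1 := stH_sin hs hy hg r hr
  have h0 : 0 ≤ |Real.sin (p.f r)| := abs_nonneg _
  have h2 : |Real.sin (p.f r)| ^ 2 ≤ (2 * ((lam / r) ^ 3 + chi R1 p * r / 2)) ^ 2 :=
    pow_le_pow_left₀ h0 h1 2
  rw [sq_abs] at h2
  have h3 : (2 * ((lam / r) ^ 3 + chi R1 p * r / 2)) ^ 2 ≤
      8 * (lam / r) ^ 6 + 2 * chi R1 p ^ 2 * r ^ 2 := by
    have e : (lam / r) ^ 6 = ((lam / r) ^ 3) ^ 2 := by ring
    rw [e]
    nlinarith [sq_nonneg ((lam / r) ^ 3 - chi R1 p * r / 2)]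
  calc r * Real.sin (p.f r) ^ 2 ≤ r * (8 * (lam / r) ^ 6 + 2 * chi R1 p ^ 2 * r ^ 2) :=
        mul_le_mul_of_nonneg_left (le_trans h2 h3) hr0.le
    _ = 8 * lam ^ 6 / r ^ 5 + 2 * chi R1 p ^ 2 * r ^ 3 := by
        field_simp

theorem I_sin2 (hs : IsSlice R1 p) (hy : Hyp R1 p om) (hg : Geo R1 p om lam) :
    ∫ r in (0 : ℝ)..(ep1 / om), r * Real.sin (p.f r) ^ 2 ≤ 3 * lam ^ 2 := by
  have hLR := L_le hs hy
  have hlamL := lam_le_L hy hg
  have hlam := hg.lam_pos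
  have hom := stH_om hy
  have hchi := chi_le hs hy hg
  have hchi0 : 0 ≤ chi R1 p := chi_nonneg
  have hR := hs.R1pos
  have hLom : (ep1 / om) * om = 1 / 10 ^ 4 := by
    unfold ep1
    field_simp
  have hLpos : 0 < ep1 / om := L_pos hy
  set L := ep1 / om with hL
  have hlamL' : lam ≤ L := by
    have : lam ≤ 10 ^ 17 * lam := by nlinarith
    linarith
  have hcf := hs.cf
  have hcont : Continuous (fun r => r * Real.sin (p.f r) ^ 2) := by fun_prop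
  have hsplit : ∫ r in (0 : ℝ)..L, r * Real.sin (p.f r) ^ 2 =
      (∫ r in (0 : ℝ)..lam, r * Real.sin (p.f r) ^ 2)
        + ∫ r in lam..L, r * Real.sin (p.f r) ^ 2 :=
    (intervalIntegral.integral_add_adjacent_intervals (hcont.intervalIntegrable _ _)
      (hcont.intervalIntegrable _ _)).symm
  have p1 : ∫ r in (0 : ℝ)..lam, r * Real.sin (p.f r) ^ 2 ≤ lam ^ 2 / 2 := by
    have : ∫ r in (0 : ℝ)..lam, r * Real.sin (p.f r) ^ 2 ≤ ∫ r in (0 : ℝ)..lam, r := by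
      apply intervalIntegral.integral_mono_on hlam.le (hcont.intervalIntegrable _ _)
      · exact continuous_id.intervalIntegrable _ _
      · intro r hr
        have h1 : Real.sin (p.f r) ^ 2 ≤ 1 := Real.sin_sq_le_one _
        nlinarith [hr.1]
    have e : ∫ r in (0 : ℝ)..lam, r = lam ^ 2 / 2 := by
      rw [integral_id]; ring
    linarith
  have p2 : ∫ r in lam..L, r * Real.sin (p.f r) ^ 2 ≤ 2 * lam ^ 2 + chi R1 p ^ 2 * L ^ 4 / 2 := by
    have hne : ∀ r ∈ Icc lam L, r ^ 5 ≠ 0 := fun r hr => by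
      have : 0 < r := lt_of_lt_of_le hlam hr.1
      positivity
    have hcb : ContinuousOn (fun r : ℝ => 8 * lam ^ 6 / r ^ 5 + 2 * chi R1 p ^ 2 * r ^ 3)
        (Icc lam L) := by
      apply ContinuousOn.add
      · exact ContinuousOn.div (by fun_prop) (by fun_prop) hne
      · fun_prop
    have hib : IntervalIntegrable (fun r : ℝ => 8 * lam ^ 6 / r ^ 5 + 2 * chi R1 p ^ 2 * r ^ 3)
        volume lam L := hcb.intervalIntegrable_of_Icc hlamL'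
    have h1 : ∫ r in lam..L, r * Real.sin (p.f r) ^ 2 ≤
        ∫ r in lam..L, (8 * lam ^ 6 / r ^ 5 + 2 * chi R1 p ^ 2 * r ^ 3) := by
      apply intervalIntegral.integral_mono_on hlamL' (hcont.intervalIntegrable _ _) hib
      intro r hr
      exact stH_pt hs hy hg r ⟨hr.1, by linarith [hr.2]⟩
    have h2 : ∫ r in lam..L, (8 * lam ^ 6 / r ^ 5 + 2 * chi R1 p ^ 2 * r ^ 3) =
        (-2 * lam ^ 6 / L ^ 4 + chi R1 p ^ 2 * L ^ 4 / 2)
          - (-2 * lam ^ 6 / lam ^ 4 + chi R1 p ^ 2 * lam ^ 4 / 2) := by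
      apply intervalIntegral.integral_eq_sub_of_hasDerivAt (f := fun r =>
        -2 * lam ^ 6 / r ^ 4 + chi R1 p ^ 2 * r ^ 4 / 2) _ hib
      intro r hr
      rw [uIcc_of_le hlamL'] at hr
      have hr0 : 0 < r := lt_of_lt_of_le hlam hr.1
      have d1 : HasDerivAt (fun x : ℝ => x ^ 4) (4 * r ^ 3) r := by
        simpa using hasDerivAt_pow 4 r
      have d2 := ((hasDerivAt_const r (-2 * lam ^ 6)).div d1 (by positivity))
      have d3 : HasDerivAt (fun x : ℝ => chi R1 p ^ 2 * x ^ 4 / 2)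
          (chi R1 p ^ 2 * (4 * r ^ 3) / 2) r := (d1.const_mul _).div_const 2
      refine (d2.add d3).congr_deriv ?_
      field_simp
      ring
    have h3 : -2 * lam ^ 6 / L ^ 4 ≤ 0 := by
      have : 0 ≤ 2 * lam ^ 6 / L ^ 4 := by positivity
      have e : -2 * lam ^ 6 / L ^ 4 = -(2 * lam ^ 6 / L ^ 4) := by ring
      linarith
    have h4 : -2 * lam ^ 6 / lam ^ 4 = -2 * lam ^ 2 := by
      field_simp
    have h5 : 0 ≤ chi R1 p ^ 2 * lam ^ 4 / 2 := by positivity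
    rw [h2, h4] at h1
    linarith
  have p3 : chi R1 p ^ 2 * L ^ 4 ≤ (9 / 100) * lam ^ 2 := by
    have h1 : chi R1 p ^ 2 ≤ (3 * 10 ^ 7 * om ^ 2 * lam) ^ 2 := pow_le_pow_left₀ hchi0 hchi 2
    calc chi R1 p ^ 2 * L ^ 4 ≤ (3 * 10 ^ 7 * om ^ 2 * lam) ^ 2 * L ^ 4 :=
          mul_le_mul_of_nonneg_right h1 (by positivity)
      _ = 9 * 10 ^ 14 * (L * om) ^ 4 * lam ^ 2 := by ring
      _ = (9 / 100) * lam ^ 2 := by rw [hLom]; norm_num
  rw [hsplit]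
  have : 0 ≤ lam ^ 2 := by positivity
  linarith

theorem sin_far (hs : IsSlice R1 p) (hy : Hyp R1 p om) (hg : Geo R1 p om lam) :
    ∀ r ∈ Icc (ep1 / om) R1, |Real.sin (p.f r)| ≤ 3 * eps := by
  intro r hr
  have hlamL := lam_le_L hy hg
  have hlam := hg.lam_pos
  have hLpos : 0 < ep1 / om := L_pos hy
  have hr0 : 0 < r := lt_of_lt_of_le hLpos hr.1
  have hlr : 10 ^ 17 * lam ≤ r := le_trans hlamL hr.1
  have hlr' : lam ≤ r := by nlinarith
  have hmem : r ∈ Icc lam R1 := ⟨hlr', hr.2⟩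
  have h1 := (far0 hs hy.en hg.lam_pos hg.lam_lt hg.f_lam r hmem).1
  have h2 := sin_le_tan h1
  have h3 := far1 hs hy.en hg.lam_pos hg.lam_lt hg.f_lam r hmem
  have h4 : lam / r ≤ 1 / 10 ^ 17 := by
    rw [div_le_div_iff₀ hr0 (by norm_num)]
    linarith
  have h5 : (lam / r) ^ 3 ≤ (1 / 10 ^ 17) ^ 3 := pow_le_pow_left₀ (by positivity) h4 3
  have h6 : (1 / 10 ^ 17 : ℝ) ^ 3 ≤ eps / 2 := by unfold eps; norm_num
  linarith

theorem I_sin2_all (hs : IsSlice R1 p) (hy : Hyp R1 p om) (hg : Geo R1 p om lam) :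
    ∫ r in (0 : ℝ)..R1, r * Real.sin (p.f r) ^ 2 ≤ 1 / 10 ^ 40 := by
  have hLR := L_le hs hy
  have hlam := hg.lam_pos
  have hom := stH_om hy
  have hR := hs.R1pos
  have hR1 := hs.R1le
  have hLpos : 0 < ep1 / om := L_pos hy
  have hI := I_sin2 hs hy hg
  have hfar := sin_far hs hy hg
  set L := ep1 / om with hL
  have hcf := hs.cf
  have hcont : Continuous (fun r => r * Real.sin (p.f r) ^ 2) := by fun_prop
  have hsplit : ∫ r in (0 : ℝ)..R1, r * Real.sin (p.f r) ^ 2 =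
      (∫ r in (0 : ℝ)..L, r * Real.sin (p.f r) ^ 2)
        + ∫ r in L..R1, r * Real.sin (p.f r) ^ 2 :=
    (intervalIntegral.integral_add_adjacent_intervals (hcont.intervalIntegrable _ _)
      (hcont.intervalIntegrable _ _)).symm
  have hLR' : L ≤ R1 := by linarith
  have p2 : ∫ r in L..R1, r * Real.sin (p.f r) ^ 2 ≤ 9 * eps ^ 2 := by
    have h1 : ∫ r in L..R1, r * Real.sin (p.f r) ^ 2 ≤ ∫ r in L..R1, 9 * eps ^ 2 := by
      apply intervalIntegral.integral_mono_on hLR' (hcont.intervalIntegrable _ _)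
      · exact continuous_const.intervalIntegrable _ _
      · intro r hr
        have h2 := hfar r hr
        have h3 : |Real.sin (p.f r)| ^ 2 ≤ (3 * eps) ^ 2 := pow_le_pow_left₀ (abs_nonneg _) h2 2
        rw [sq_abs] at h3
        have hr0 : 0 ≤ r := by linarith [hr.1]
        have hr1 : r ≤ 1 := by linarith [hr.2]
        have h4 : 0 ≤ Real.sin (p.f r) ^ 2 := sq_nonneg _
        nlinarith
    rw [intervalIntegral.integral_const, smul_eq_mul] at h1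
    have h5 : R1 - L ≤ 1 := by linarith
    have h6 : 0 ≤ 9 * eps ^ 2 := by positivity
    nlinarith
  have p3 : lam ≤ eps / 10 ^ 60 := by
    have h1 := hg.b_le
    rw [le_div_iff₀ (by norm_num)]
    have h2 : 10 ^ 60 * lam ≤ om * lam := mul_le_mul_of_nonneg_right hy.hom hlam.le
    linarith
  have p4 : lam ^ 2 ≤ (eps / 10 ^ 60) ^ 2 := pow_le_pow_left₀ hlam.le p3 2
  have p5 : 3 * (eps / 10 ^ 60) ^ 2 + 9 * eps ^ 2 ≤ 1 / 10 ^ 40 := by
    unfold eps; norm_num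
  rw [hsplit]
  linarith

theorem sin_L (hs : IsSlice R1 p) (hy : Hyp R1 p om) (hg : Geo R1 p om lam) :
    4 * om * |Real.sin (p.f (ep1 / om))| ≤ Lam R1 p om lam := by
  have hLR := L_le hs hy
  have hlamL := lam_le_L hy hg
  have hlam := hg.lam_pos
  have hom := stH_om hy
  have hchi0 : 0 ≤ chi R1 p := chi_nonneg
  have hR := hs.R1pos
  have hb := hg.b_le
  have hLom : (ep1 / om) * om = 1 / 10 ^ 4 := by
    unfold ep1
    field_simp
  have hLpos : 0 < ep1 / om := L_pos hy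
  have hquot : lam / (ep1 / om) = 10 ^ 4 * (om * lam) := by
    unfold ep1
    field_simp
  set L := ep1 / om with hL
  have hlamL' : lam ≤ L := by nlinarith
  have h1 := stH_sin hs hy hg L ⟨hlamL', by linarith⟩
  rw [hquot] at h1
  have hb0 : 0 ≤ om * lam := by positivity
  have hb2 : (om * lam) ^ 2 ≤ eps ^ 2 := pow_le_pow_left₀ hb0 hb 2
  have h2 : 4 * om * |Real.sin (p.f L)| ≤
      4 * om * (2 * ((10 ^ 4 * (om * lam)) ^ 3 + chi R1 p * L / 2)) :=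
    mul_le_mul_of_nonneg_left h1 (by positivity)
  have h3 : 4 * om * (2 * ((10 ^ 4 * (om * lam)) ^ 3 + chi R1 p * L / 2)) =
      (8 * 10 ^ 12 * (om * lam) ^ 2) * (om * (om * lam)) + 4 * (L * om) * chi R1 p := by ring
  have h4 : 8 * 10 ^ 12 * (om * lam) ^ 2 ≤ 1 := by
    have : 8 * 10 ^ 12 * eps ^ 2 ≤ 1 := by unfold eps; norm_num
    nlinarith
  have h5 : (8 * 10 ^ 12 * (om * lam) ^ 2) * (om * (om * lam)) ≤ 1 * (om * (om * lam)) :=
    mul_le_mul_of_nonneg_right h4 (by positivity)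
  rw [hLom] at h3
  unfold Lam
  have h6 : om * (om * lam) = om ^ 2 * lam := by ring
  linarith

end H72GS
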