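import Pool.Agent.H72.GS.StF
import Pool.Agent.H72.GS.Cut

/-!
# StN1 (only `N_lo`): two sided bounds for `N`, smallness of `b = om * lam`

On `[lam, 1.1 lam]`: `|f'| ≤ |w| + 4.01 / lam`, `∫_lam^{1.1 lam} |w| ≤ eps` (`pwlog`), so
`|f - π/2| ≤ 0.42`, hence `sin f ≥ 9/10`, `cos f ≤ 0.42 ≤ 1 - 2 qq`; the integrand of `N` is
nonnegative (`Th_mul_sin_nonneg`), so `N ≥ (81/100) · (0.21/2) lam² ≥ lam²/16`.
(`1.1 lam ≤ R1`: otherwise `f(R1) = 0` contradicts `sin f ≥ 9/10` on `[lam, R1]`.)
-/

namespace H72GS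

open Set MeasureTheory intervalIntegral

variable {R1 : ℝ} {p : Pre} {lam : ℝ}

/-- the angle stays close to `π/2` just right of `lam` -/
theorem StN1_close (hs : IsSlice R1 p) (hE : p.En R1 ≤ eps ^ 2) (h0 : 0 < lam)
    (hf : p.f lam = Real.pi / 2) {r : ℝ} (hr1 : lam ≤ r) (hr2 : r ≤ 11 / 10 * lam)
    (hr3 : r ≤ R1) : |p.f r - Real.pi / 2| ≤ 42 / 100 := by
  have hpos : ∀ s ∈ Icc lam r, 0 < s := fun s hs' => lt_of_lt_of_le h0 hs'.1
  have hcont : ContinuousOn (fun s => p.w s - (4 + p.a s) * Real.sin (p.f s) / s) (Icc lam r) := by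
    apply ContinuousOn.sub hs.cw.continuousOn
    apply ContinuousOn.div
    · exact ((continuous_const.add hs.ca).mul (Real.continuous_sin.comp hs.cf)).continuousOn
    · exact continuousOn_id
    · intro s hs'
      exact (hpos s hs').ne'
  have hint : IntervalIntegrable (fun s => p.w s - (4 + p.a s) * Real.sin (p.f s) / s)
      volume lam r := by
    apply ContinuousOn.intervalIntegrable
    rw [uIcc_of_le hr1]
    exact hcont
  have hftc : ∫ s in lam..r, (p.w s - (4 + p.a s) * Real.sin (p.f s) / s) = p.f r - p.f lam := by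
    apply integral_eq_sub_of_hasDerivAt _ hint
    intro s hs'
    rw [uIcc_of_le hr1] at hs'
    exact hs.df s (hpos s hs')
  have hw : ∫ s in lam..r, |p.w s| ≤ eps := by
    have h1 := pwlog h0 hr1 (by linarith) (G := p.w) hs.cw.continuousOn
    have h2 : ∫ s in lam..r, s * p.w s ^ 2 ≤ ∫ s in (0 : ℝ)..R1, s * p.w s ^ 2 := by
      apply int_mono_set (a := 0) (b := R1) h0.le hr1 hr3
      · exact (continuous_id.mul (hs.cw.pow 2)).continuousOn
      · intro x hx
        exact mul_nonneg hx.1 (sq_nonneg _)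
    have h3 := (En_parts hs hE).2.1
    have h4 : Real.sqrt (∫ s in lam..r, s * p.w s ^ 2) ≤ eps := by
      apply Real.sqrt_le_iff.mpr
      exact ⟨by unfold eps; norm_num, h2.trans h3⟩
    exact h1.trans h4
  have hb : |∫ s in lam..r, (p.w s - (4 + p.a s) * Real.sin (p.f s) / s)|
      ≤ ∫ s in lam..r, (|p.w s| + (401 / 100) / lam) := by
    have h1 := norm_integral_le_integral_norm (μ := volume)
      (f := fun s => p.w s - (4 + p.a s) * Real.sin (p.f s) / s) hr1
    rw [Real.norm_eq_abs] at h1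
    refine h1.trans ?_
    apply integral_mono_on hr1
    · exact hint.norm
    · exact (hs.cw.abs.add continuous_const).intervalIntegrable _ _
    · intro s hs'
      have hsp := hpos s hs'
      rw [Real.norm_eq_abs]
      have ha := a_abs hs hE s ⟨hsp.le, hs'.2.trans hr3⟩
      have h2 : |(4 + p.a s) * Real.sin (p.f s) / s| ≤ (401 / 100) / lam := by
        rw [abs_div, abs_mul, abs_of_pos hsp]
        have h3 : |4 + p.a s| ≤ 401 / 100 := by
          rw [abs_le] at ha ⊢
          constructor <;> linarith [ha.1, ha.2]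
        have h4 : |Real.sin (p.f s)| ≤ 1 := Real.abs_sin_le_one _
        have h5 : |4 + p.a s| * |Real.sin (p.f s)| ≤ 401 / 100 := by
          calc |4 + p.a s| * |Real.sin (p.f s)| ≤ (401 / 100) * 1 :=
                mul_le_mul h3 h4 (abs_nonneg _) (by norm_num)
            _ = _ := by ring
        exact div_le_div₀ (by norm_num) h5 h0 hs'.1
      calc |p.w s - (4 + p.a s) * Real.sin (p.f s) / s|
          ≤ |p.w s| + |(4 + p.a s) * Real.sin (p.f s) / s| := abs_sub _ _
        _ ≤ _ := by linarith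
  have hb2 : ∫ s in lam..r, (|p.w s| + (401 / 100) / lam)
      = (∫ s in lam..r, |p.w s|) + (r - lam) * ((401 / 100) / lam) := by
    rw [integral_add (hs.cw.abs.intervalIntegrable _ _) (continuous_const.intervalIntegrable _ _)]
    rw [intervalIntegral.integral_const, smul_eq_mul]
  have hb3 : (r - lam) * ((401 / 100) / lam) ≤ 401 / 1000 := by
    rw [← mul_div_assoc, div_le_iff₀ h0]
    nlinarith
  rw [hftc, hf] at hb
  have he : eps ≤ 1 / 100 := by unfold eps; norm_num
  linarith

theorem StN1_sin {x : ℝ} (h : |x - Real.pi / 2| ≤ 42 / 100) : 9 / 10 ≤ Real.sin x := by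
  have h1 : Real.sin x = Real.cos (x - Real.pi / 2) := by
    rw [Real.cos_sub_pi_div_two]
  rw [h1]
  have h2 := Real.one_sub_sq_div_two_le_cos (x := x - Real.pi / 2)
  have h3 : (x - Real.pi / 2) ^ 2 ≤ (42 / 100) ^ 2 := by
    rw [← sq_abs]
    exact pow_le_pow_left₀ (abs_nonneg _) h 2
  nlinarith

theorem StN1_cos {x : ℝ} (h : |x - Real.pi / 2| ≤ 42 / 100) : Real.cos x ≤ 42 / 100 := by
  have h1 : Real.cos x = Real.sin (Real.pi / 2 - x) := by
    rw [Real.sin_pi_div_two_sub]
  rw [h1]
  have h2 : |Real.sin (Real.pi / 2 - x)| ≤ |Real.pi / 2 - x| := Real.abs_sin_le_abs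
  rw [abs_sub_comm] at h
  exact (le_abs_self _).trans (h2.trans h)

theorem N_lo (hs : IsSlice R1 p) (hE : p.En R1 ≤ eps ^ 2) (h0 : 0 < lam)
    (h1 : lam < R1) (hf : p.f lam = Real.pi / 2) : lam ^ 2 / 16 ≤ p.N R1 := by
  have hR : 11 / 10 * lam < R1 := by
    by_contra hcon
    push Not at hcon
    have h2 := StN1_close hs hE h0 hf h1.le hcon le_rfl
    have h3 := StN1_sin h2
    rw [hs.fR, Real.sin_zero] at h3
    norm_num at h3
  have hcI : Continuous (fun r => r * Th (p.f r) * Real.sin (p.f r)) :=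
    (continuous_id.mul (continuous_Th.comp hs.cf)).mul (Real.continuous_sin.comp hs.cf)
  have h2 : ∫ r in lam..(11 / 10 * lam), r * Th (p.f r) * Real.sin (p.f r) ≤ p.N R1 := by
    unfold Pre.N
    apply int_mono_set (a := 0) (b := R1) h0.le (by linarith) hR.le hcI.continuousOn
    intro x hx
    rw [mul_assoc]
    exact mul_nonneg hx.1 (Th_mul_sin_nonneg _)
  have h3 : ∫ r in lam..(11 / 10 * lam), (81 / 100) * r
      ≤ ∫ r in lam..(11 / 10 * lam), r * Th (p.f r) * Real.sin (p.f r) := by
    apply integral_mono_on (by linarith)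
    · exact (continuous_const.mul continuous_id).intervalIntegrable _ _
    · exact hcI.intervalIntegrable _ _
    · intro r hr
      have hcl := StN1_close hs hE h0 hf hr.1 hr.2 (hr.2.trans hR.le)
      have hsin := StN1_sin hcl
      have hcos := StN1_cos hcl
      have hhc : hc (Real.cos (p.f r)) = 1 := by
        apply hc_one
        have : qq ≤ 1 / 10 := by unfold qq; norm_num
        linarith
      unfold Th
      rw [hhc]
      have hrp : 0 < r := lt_of_lt_of_le h0 hr.1
      have : (81 / 100 : ℝ) ≤ Real.sin (p.f r) * Real.sin (p.f r) := by nlinarith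
      nlinarith
  have h4 : ∫ r in lam..(11 / 10 * lam), (81 / 100) * r = (81 / 100) * ((21 / 100) / 2) * lam ^ 2 := by
    rw [intervalIntegral.integral_const_mul, integral_id]
    ring
  rw [h4] at h3
  nlinarith [sq_nonneg lam]

end H72GS
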