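import Pool.Agent.H72.GS.StFar

/-!
# StY1: the easy terms of `dX`

All integrals over `0..R1`.  `L = ep1/om`, `Xl = ∫_0^L r (wt² + wr² + w1²)`.
* `I1 = ∫ 2 μ s g r w1²`: on `[0,L]`, `2 μ |s g| ≤ 2·4.0001·4.01 om ≤ 33 om`; on `[L,R1]`,
  `2 μ |s g| ≤ 8.1·900 eps Lam ≤ om/10²⁰`, and `∫ r w1² ≤ X/8`.
* `I2 = ∫ 2 (μ - c) e w²`: `w² = r · r w1²`, `r |e| ≤ R1 · 4 om² lam`: `om² lam ≤ eps om`.
* `I3 = ∫ r s g w²`: `w² = r² w1²`, `|s g| ≤ 5 om`, `r² ≤ 10⁻⁶`.
* `I4 = ∫ 2 wt μ s w²`: `|w| ≤ chi ≤ Lam ≤ om/10¹⁴`, `∫ |wt||w| = ∫ r |wt||w1| ≤ X/5`.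
* `I5 = ∫ 4 r wt c (e g - w y)`: `|e| ≤ 4 om² lam`, `∫ r |wt||g| ≤ chi eps`;
  `r |wt||w||y| = r |wt||w1| |r y|`, `|r y| ≤ om/10¹²`.
-/

namespace H72GS

open Set MeasureTheory intervalIntegral

variable {R1 : ℝ} {p : Pre} {om lam : ℝ}

/-- the coefficient `4 + a` -/
theorem StY1_mu (hs : IsSlice R1 p) (hy : Hyp R1 p om) :
    ∀ r ∈ Icc 0 R1, |4 + p.a r| ≤ 401 / 100 := by
  intro r hr
  have h := abs_le.1 (a_abs hs hy.en r hr)
  rw [abs_le]
  constructor <;> linarith [h.1, h.2]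

theorem StY1_prod {x y K : ℝ} (hx : |x| ≤ K) (hy : 0 ≤ y) : x * y ≤ K * y :=
  mul_le_mul_of_nonneg_right ((le_abs_self x).trans hx) hy

theorem StY1_om (hy : Hyp R1 p om) : 0 < om := lt_of_lt_of_le (by positivity) hy.hom

/-- integral monotonicity for continuous integrands on `[a, b]` -/
theorem StY1_mono {a b : ℝ} (hab : a ≤ b) {F G : ℝ → ℝ} (hF : Continuous F) (hG : Continuous G)
    (h : ∀ r ∈ Icc a b, F r ≤ G r) : ∫ r in a..b, F r ≤ ∫ r in a..b, G r :=
  integral_mono_on hab (hF.intervalIntegrable _ _) (hG.intervalIntegrable _ _) h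

theorem StY1_om2lam (hy : Hyp R1 p om) (hg : Geo R1 p om lam) : om ^ 2 * lam ≤ eps * om := by
  have h := hg.b_le
  have h0 := StY1_om hy
  nlinarith

theorem I1_le (hs : IsSlice R1 p) (hy : Hyp R1 p om) (hg : Geo R1 p om lam) :
    ∫ r in (0 : ℝ)..R1, 2 * (4 + p.a r) * Real.sin (p.f r) * p.g r * r * p.w1 r ^ 2
      ≤ 33 * om * p.Xl (ep1 / om) + om * p.X R1 / 10 ^ 5 := by
  have cf := hs.cf
  have ca := hs.ca
  have cg := hs.cg
  have cw1 := hs.cw1
  have cwt := hs.cwt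
  have cwr := hs.cwr
  have hL := L_pos hy
  have hLR := L_le hs hy
  have hR := hs.R1pos
  have hLR' : ep1 / om ≤ R1 := by linarith
  have hom := StY1_om hy
  have cF : Continuous fun r => 2 * (4 + p.a r) * Real.sin (p.f r) * p.g r * r * p.w1 r ^ 2 := by
    fun_prop
  rw [← integral_add_adjacent_intervals (cF.intervalIntegrable 0 (ep1 / om))
    (cF.intervalIntegrable (ep1 / om) R1)]
  have h1 : ∫ r in (0 : ℝ)..(ep1 / om), 2 * (4 + p.a r) * Real.sin (p.f r) * p.g r * r * p.w1 r ^ 2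
      ≤ 33 * om * p.Xl (ep1 / om) := by
    unfold Pre.Xl
    rw [← intervalIntegral.integral_const_mul]
    refine StY1_mono hL.le cF (by fun_prop) fun r hr => ?_
    have hr' : r ∈ Icc 0 R1 := ⟨hr.1, hr.2.trans hLR'⟩
    have h2 := StY1_mu hs hy r hr'
    have h3 := sg_near hs hy hg r hr
    have h4 : |2 * (4 + p.a r) * (Real.sin (p.f r) * p.g r)| ≤ 33 * om := by
      rw [abs_mul, abs_mul, abs_mul, abs_of_pos (by norm_num : (0:ℝ) < 2)]
      have h5 : |4 + p.a r| * (|Real.sin (p.f r)| * |p.g r|) ≤ 401 / 100 * (401 / 100 * om) :=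
        mul_le_mul h2 h3 (by positivity) (by norm_num)
      nlinarith
    have h6 : 0 ≤ r * p.w1 r ^ 2 := mul_nonneg hr.1 (sq_nonneg _)
    have h7 := StY1_prod h4 h6
    have h8 : 0 ≤ r * (p.wt r ^ 2 + p.wr r ^ 2) := mul_nonneg hr.1 (by positivity)
    have h9 : 0 ≤ om * (r * (p.wt r ^ 2 + p.wr r ^ 2)) := mul_nonneg hom.le h8
    nlinarith
  have h2 : ∫ r in (ep1 / om)..R1, 2 * (4 + p.a r) * Real.sin (p.f r) * p.g r * r * p.w1 r ^ 2
      ≤ om * p.X R1 / 10 ^ 5 := by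
    have h3 : ∫ r in (ep1 / om)..R1, 2 * (4 + p.a r) * Real.sin (p.f r) * p.g r * r * p.w1 r ^ 2
        ≤ ∫ r in (ep1 / om)..R1, (om / 10 ^ 5) * (r * p.w1 r ^ 2) := by
      refine StY1_mono hLR' cF (by fun_prop) fun r hr => ?_
      have hr' : r ∈ Icc 0 R1 := ⟨hL.le.trans hr.1, hr.2⟩
      have h2 := StY1_mu hs hy r hr'
      have h3 := sg_far hs hy hg r hr
      have hLam := Lam_small hs hy hg
      have h4 : |2 * (4 + p.a r) * (Real.sin (p.f r) * p.g r)| ≤ om / 10 ^ 5 := by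
        rw [abs_mul, abs_mul, abs_mul, abs_of_pos (by norm_num : (0:ℝ) < 2)]
        have h5 : |4 + p.a r| * (|Real.sin (p.f r)| * |p.g r|) ≤
            401 / 100 * (900 * eps * Lam R1 p om lam) :=
          mul_le_mul h2 h3 (by positivity) (by norm_num)
        have h6 : (900 * eps) * Lam R1 p om lam ≤ (900 * eps) * (om / 10 ^ 14) :=
          mul_le_mul_of_nonneg_left hLam (by unfold eps; norm_num)
        have h7 : (900 * eps) * (om / 10 ^ 14) ≤ om / 10 ^ 10 := by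
          unfold eps
          nlinarith
        nlinarith
      have h6 : 0 ≤ r * p.w1 r ^ 2 := mul_nonneg hr'.1 (sq_nonneg _)
      have h7 := StY1_prod h4 h6
      nlinarith
    have h4 : ∫ r in (ep1 / om)..R1, r * p.w1 r ^ 2 ≤ ∫ r in (0:ℝ)..R1, r * p.w1 r ^ 2 :=
      int_mono_set hL.le hLR' le_rfl (Continuous.continuousOn (by fun_prop))
        fun x hx => mul_nonneg hx.1 (sq_nonneg _)
    have h5 := (X_parts hs hy.en).2.2
    have h6 := X_nonneg hs hy.en
    rw [intervalIntegral.integral_const_mul] at h3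
    have h7 : (om / 10 ^ 5) * (∫ r in (ep1 / om)..R1, r * p.w1 r ^ 2) ≤
        (om / 10 ^ 5) * (p.X R1 / 8) :=
      mul_le_mul_of_nonneg_left (h4.trans h5) (by positivity)
    have h8 : 0 ≤ om * p.X R1 := mul_nonneg hom.le h6
    nlinarith
  linarith

theorem I2_le (hs : IsSlice R1 p) (hy : Hyp R1 p om) (hg : Geo R1 p om lam) :
    ∫ r in (0 : ℝ)..R1, 2 * ((4 + p.a r) - Real.cos (p.f r)) * p.e r * p.w r ^ 2
      ≤ om * p.X R1 / 10 ^ 5 := by
  have cf := hs.cf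
  have ca := hs.ca
  have ce := hs.ce
  have cw := hs.cw
  have cw1 := hs.cw1
  have hR := hs.R1pos
  have hR1 := hs.R1le
  have hom := StY1_om hy
  have h3 : ∫ r in (0:ℝ)..R1, 2 * ((4 + p.a r) - Real.cos (p.f r)) * p.e r * p.w r ^ 2
      ≤ ∫ r in (0:ℝ)..R1, (om / 10 ^ 5) * (r * p.w1 r ^ 2) := by
    refine StY1_mono hR.le (by fun_prop) (by fun_prop) fun r hr => ?_
    have h2 := StY1_mu hs hy r hr
    have he := e_abs hs hy hg r hr
    have h2' : |(4 + p.a r) - Real.cos (p.f r)| ≤ 6 := by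
      have := Real.abs_cos_le_one (p.f r)
      calc |(4 + p.a r) - Real.cos (p.f r)| ≤ |4 + p.a r| + |Real.cos (p.f r)| := abs_sub _ _
        _ ≤ 6 := by linarith
    have h4 : |2 * ((4 + p.a r) - Real.cos (p.f r)) * p.e r * r| ≤ om / 10 ^ 5 := by
      rw [abs_mul, abs_mul, abs_mul, abs_of_pos (by norm_num : (0:ℝ) < 2), abs_of_nonneg hr.1]
      have h5 : |(4 + p.a r) - Real.cos (p.f r)| * |p.e r| ≤ 6 * (4 * om ^ 2 * lam) :=
        mul_le_mul h2' he (abs_nonneg _) (by norm_num)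
      have h6 := StY1_om2lam hy hg
      have h7 : 6 * (4 * om ^ 2 * lam) ≤ om / 10 ^ 10 := by
        have : eps * om ≤ om / 10 ^ 20 := by
          unfold eps
          nlinarith
        nlinarith
      have h8 : r ≤ 1 := by linarith [hr.2]
      have h9 : 0 ≤ |(4 + p.a r) - Real.cos (p.f r)| * |p.e r| := by positivity
      calc 2 * |(4 + p.a r) - Real.cos (p.f r)| * |p.e r| * r
          = 2 * (|(4 + p.a r) - Real.cos (p.f r)| * |p.e r|) * r := by ring
        _ ≤ 2 * (|(4 + p.a r) - Real.cos (p.f r)| * |p.e r|) * 1 :=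
            mul_le_mul_of_nonneg_left h8 (by positivity)
        _ ≤ om / 10 ^ 5 := by nlinarith
    have h6 : 0 ≤ r * p.w1 r ^ 2 := mul_nonneg hr.1 (sq_nonneg _)
    have h7 := StY1_prod h4 h6
    calc 2 * ((4 + p.a r) - Real.cos (p.f r)) * p.e r * p.w r ^ 2
        = (2 * ((4 + p.a r) - Real.cos (p.f r)) * p.e r * r) * (r * p.w1 r ^ 2) := by
          rw [hs.hw1 r]; ring
      _ ≤ _ := h7
  have h5 := (X_parts hs hy.en).2.2
  have h6 := X_nonneg hs hy.en
  rw [intervalIntegral.integral_const_mul] at h3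
  have h7 : (om / 10 ^ 5) * (∫ r in (0:ℝ)..R1, r * p.w1 r ^ 2) ≤
      (om / 10 ^ 5) * (p.X R1 / 8) :=
    mul_le_mul_of_nonneg_left h5 (by positivity)
  have h8 : 0 ≤ om * p.X R1 := mul_nonneg hom.le h6
  nlinarith

theorem I3_le (hs : IsSlice R1 p) (hy : Hyp R1 p om) (hg : Geo R1 p om lam) :
    ∫ r in (0 : ℝ)..R1, r * Real.sin (p.f r) * p.g r * p.w r ^ 2 ≤ om * p.X R1 / 10 ^ 5 := by
  have cf := hs.cf
  have cg := hs.cg
  have cw := hs.cw
  have cw1 := hs.cw1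
  have hR := hs.R1pos
  have hR1 := hs.R1le
  have hom := StY1_om hy
  have h3 : ∫ r in (0:ℝ)..R1, r * Real.sin (p.f r) * p.g r * p.w r ^ 2
      ≤ ∫ r in (0:ℝ)..R1, (5 * om / 10 ^ 6) * (r * p.w1 r ^ 2) := by
    refine StY1_mono hR.le (by fun_prop) (by fun_prop) fun r hr => ?_
    have hgr := g_all hs hy hg r hr
    have h4 : |Real.sin (p.f r) * p.g r * r ^ 2| ≤ 5 * om / 10 ^ 6 := by
      rw [abs_mul, abs_mul, abs_of_nonneg (sq_nonneg r)]
      have h5 : |Real.sin (p.f r)| * |p.g r| ≤ 1 * (5 * om) :=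
        mul_le_mul (Real.abs_sin_le_one _) hgr (abs_nonneg _) (by norm_num)
      have h6 : r ^ 2 ≤ (1 / 1000) ^ 2 := pow_le_pow_left₀ hr.1 (hr.2.trans hR1) 2
      calc |Real.sin (p.f r)| * |p.g r| * r ^ 2 ≤ (1 * (5 * om)) * (1 / 1000) ^ 2 :=
            mul_le_mul h5 h6 (sq_nonneg _) (by positivity)
        _ = 5 * om / 10 ^ 6 := by ring
    have h6 : 0 ≤ r * p.w1 r ^ 2 := mul_nonneg hr.1 (sq_nonneg _)
    have h7 := StY1_prod h4 h6
    calc r * Real.sin (p.f r) * p.g r * p.w r ^ 2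
        = (Real.sin (p.f r) * p.g r * r ^ 2) * (r * p.w1 r ^ 2) := by
          rw [hs.hw1 r]; ring
      _ ≤ _ := h7
  have h5 := (X_parts hs hy.en).2.2
  have h6 := X_nonneg hs hy.en
  rw [intervalIntegral.integral_const_mul] at h3
  have h7 : (5 * om / 10 ^ 6) * (∫ r in (0:ℝ)..R1, r * p.w1 r ^ 2) ≤
      (5 * om / 10 ^ 6) * (p.X R1 / 8) :=
    mul_le_mul_of_nonneg_left h5 (by positivity)
  have h8 : 0 ≤ om * p.X R1 := mul_nonneg hom.le h6
  nlinarith

theorem StY1_chi (hs : IsSlice R1 p) (hy : Hyp R1 p om) (hg : Geo R1 p om lam) :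
    chi R1 p ≤ om / 10 ^ 14 := by
  have h1 := Lam_small hs hy hg
  have h2 : 0 ≤ om ^ 2 * lam := mul_nonneg (sq_nonneg _) hg.lam_pos.le
  unfold Lam at h1
  linarith

theorem I4_le (hs : IsSlice R1 p) (hy : Hyp R1 p om) (hg : Geo R1 p om lam) :
    ∫ r in (0 : ℝ)..R1, 2 * p.wt r * ((4 + p.a r) * Real.sin (p.f r) * p.w r ^ 2)
      ≤ om * p.X R1 / 10 ^ 5 := by
  have cf := hs.cf
  have ca := hs.ca
  have cw := hs.cw
  have cw1 := hs.cw1
  have cwt := hs.cwt
  have hR := hs.R1pos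
  have hom := StY1_om hy
  have h3 : ∫ r in (0:ℝ)..R1, 2 * p.wt r * ((4 + p.a r) * Real.sin (p.f r) * p.w r ^ 2)
      ≤ ∫ r in (0:ℝ)..R1, (om / 10 ^ 5) * (r * (|p.wt r| * |p.w1 r|)) := by
    refine StY1_mono hR.le (by fun_prop) (by fun_prop) fun r hr => ?_
    have h2 := StY1_mu hs hy r hr
    have hw := w_abs hs hy.en r hr
    have hchi := StY1_chi hs hy hg
    have hw' : |p.w r| ≤ om / 10 ^ 14 := hw.trans hchi
    have hww : |p.w r| = r * |p.w1 r| := by
      rw [hs.hw1 r, abs_mul, abs_of_nonneg hr.1]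
    have h4 : |4 + p.a r| * |Real.sin (p.f r)| * |p.w r| ≤ 401 / 100 * 1 * (om / 10 ^ 14) :=
      mul_le_mul (mul_le_mul h2 (Real.abs_sin_le_one _) (abs_nonneg _) (by norm_num)) hw'
        (abs_nonneg _) (by norm_num)
    have h5 : 0 ≤ r * (|p.wt r| * |p.w1 r|) := mul_nonneg hr.1 (by positivity)
    calc 2 * p.wt r * ((4 + p.a r) * Real.sin (p.f r) * p.w r ^ 2)
        ≤ |2 * p.wt r * ((4 + p.a r) * Real.sin (p.f r) * p.w r ^ 2)| := le_abs_self _
      _ = 2 * (|4 + p.a r| * |Real.sin (p.f r)| * |p.w r|) * (|p.wt r| * |p.w r|) := by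
          rw [abs_mul, abs_mul, abs_mul, abs_mul, abs_pow, abs_of_pos (by norm_num : (0:ℝ) < 2)]
          ring
      _ = 2 * (|4 + p.a r| * |Real.sin (p.f r)| * |p.w r|) * (r * (|p.wt r| * |p.w1 r|)) := by
          congr 1
          rw [hww]
          ring
      _ ≤ (om / 10 ^ 5) * (r * (|p.wt r| * |p.w1 r|)) := by
          apply mul_le_mul_of_nonneg_right _ h5
          nlinarith
  have h5 := (X_prods hs hy.en).1
  have h6 := X_nonneg hs hy.en
  rw [intervalIntegral.integral_const_mul] at h3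
  have h7 : (om / 10 ^ 5) * (∫ r in (0:ℝ)..R1, r * (|p.wt r| * |p.w1 r|)) ≤
      (om / 10 ^ 5) * (p.X R1 / 5) :=
    mul_le_mul_of_nonneg_left h5 (by positivity)
  have h8 : 0 ≤ om * p.X R1 := mul_nonneg hom.le h6
  nlinarith

theorem I5_le (hs : IsSlice R1 p) (hy : Hyp R1 p om) (hg : Geo R1 p om lam) :
    ∫ r in (0 : ℝ)..R1, 2 * p.wt r * (2 * r * Real.cos (p.f r) * (p.e r * p.g r - p.w r * p.y r))
      ≤ om ^ 3 * lam * chi R1 p / 10 ^ 5 + om * p.X R1 / 10 ^ 5 := by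
  have cf := hs.cf
  have ca := hs.ca
  have cw := hs.cw
  have ce := hs.ce
  have cg := hs.cg
  have cy := hs.cy
  have cw1 := hs.cw1
  have cwt := hs.cwt
  have hR := hs.R1pos
  have hom := StY1_om hy
  have hlam := hg.lam_pos
  have h3 : ∫ r in (0:ℝ)..R1, 2 * p.wt r *
        (2 * r * Real.cos (p.f r) * (p.e r * p.g r - p.w r * p.y r))
      ≤ ∫ r in (0:ℝ)..R1, ((16 * om ^ 2 * lam) * (r * (|p.wt r| * |p.g r|)) +
          (4 * (om / 10 ^ 12)) * (r * (|p.wt r| * |p.w1 r|))) := by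
    refine StY1_mono hR.le (by fun_prop) (by fun_prop) fun r hr => ?_
    have he := e_abs hs hy hg r hr
    have hry := ry_abs hs hy r hr
    have hc := Real.abs_cos_le_one (p.f r)
    have h5 : 0 ≤ r * (|p.wt r| * |p.w1 r|) := mul_nonneg hr.1 (by positivity)
    have h5' : 0 ≤ r * (|p.wt r| * |p.g r|) := mul_nonneg hr.1 (by positivity)
    have e1 : 2 * p.wt r * (2 * r * Real.cos (p.f r) * (p.e r * p.g r - p.w r * p.y r)) =
        4 * r * p.wt r * Real.cos (p.f r) * p.e r * p.g r +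
          (-(4 * r * p.wt r * Real.cos (p.f r) * p.w r * p.y r)) := by ring
    rw [e1]
    refine add_le_add ?_ ?_
    · calc 4 * r * p.wt r * Real.cos (p.f r) * p.e r * p.g r
          ≤ |4 * r * p.wt r * Real.cos (p.f r) * p.e r * p.g r| := le_abs_self _
        _ = 4 * (|Real.cos (p.f r)| * |p.e r|) * (r * (|p.wt r| * |p.g r|)) := by
            rw [abs_mul, abs_mul, abs_mul, abs_mul, abs_mul, abs_of_nonneg hr.1,
              abs_of_pos (by norm_num : (0:ℝ) < 4)]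
            ring
        _ ≤ (16 * om ^ 2 * lam) * (r * (|p.wt r| * |p.g r|)) := by
            apply mul_le_mul_of_nonneg_right _ h5'
            have : |Real.cos (p.f r)| * |p.e r| ≤ 1 * (4 * om ^ 2 * lam) :=
              mul_le_mul hc he (abs_nonneg _) (by norm_num)
            linarith
    · calc -(4 * r * p.wt r * Real.cos (p.f r) * p.w r * p.y r)
          ≤ |-(4 * r * p.wt r * Real.cos (p.f r) * p.w r * p.y r)| := le_abs_self _
        _ = 4 * (|Real.cos (p.f r)| * |r * p.y r|) * (r * (|p.wt r| * |p.w1 r|)) := by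
            rw [abs_neg, hs.hw1 r, abs_mul, abs_mul, abs_mul, abs_mul, abs_mul, abs_mul, abs_mul,
              abs_of_nonneg hr.1, abs_of_pos (by norm_num : (0:ℝ) < 4)]
            ring
        _ ≤ (4 * (om / 10 ^ 12)) * (r * (|p.wt r| * |p.w1 r|)) := by
            apply mul_le_mul_of_nonneg_right _ h5
            have : |Real.cos (p.f r)| * |r * p.y r| ≤ 1 * (om / 10 ^ 12) :=
              mul_le_mul hc hry (abs_nonneg _) (by norm_num)
            linarith
  rw [intervalIntegral.integral_add (Continuous.intervalIntegrable (by fun_prop) _ _)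
    (Continuous.intervalIntegrable (by fun_prop) _ _), intervalIntegral.integral_const_mul,
    intervalIntegral.integral_const_mul] at h3
  have h5 := (X_prods hs hy.en).1
  have h6 := X_nonneg hs hy.en
  have h8 : 0 ≤ om * p.X R1 := mul_nonneg hom.le h6
  have h9 : ∫ r in (0:ℝ)..R1, r * (|p.wt r| * |p.g r|) ≤ chi R1 p * eps := by
    refine (csr le_rfl hR.le cwt.continuousOn cg.continuousOn).trans ?_
    refine mul_le_mul ?_ ?_ (Real.sqrt_nonneg _) chi_nonneg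
    · exact Real.sqrt_le_sqrt (X_parts hs hy.en).1
    · rw [Real.sqrt_le_left (by unfold eps; norm_num)]
      exact (En_parts hs hy.en).1
  have h10 : (16 * om ^ 2 * lam) * (∫ r in (0:ℝ)..R1, r * (|p.wt r| * |p.g r|)) ≤
      (16 * om ^ 2 * lam) * (chi R1 p * eps) :=
    mul_le_mul_of_nonneg_left h9 (by positivity)
  have h11 : (4 * (om / 10 ^ 12)) * (∫ r in (0:ℝ)..R1, r * (|p.wt r| * |p.w1 r|)) ≤
      (4 * (om / 10 ^ 12)) * (p.X R1 / 5) :=
    mul_le_mul_of_nonneg_left h5 (by positivity)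
  have h12 : (16 * om ^ 2 * lam) * (chi R1 p * eps) ≤ om ^ 3 * lam * chi R1 p / 10 ^ 5 := by
    have h13 : 16 * eps ≤ om / 10 ^ 5 := by
      have := hy.hom
      unfold eps
      norm_num at this ⊢
      linarith
    have h14 : 0 ≤ om ^ 2 * lam * chi R1 p := mul_nonneg (by positivity) chi_nonneg
    have h15 := mul_le_mul_of_nonneg_left h13 h14
    calc (16 * om ^ 2 * lam) * (chi R1 p * eps) = om ^ 2 * lam * chi R1 p * (16 * eps) := by ring
      _ ≤ om ^ 2 * lam * chi R1 p * (om / 10 ^ 5) := h15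
      _ = _ := by ring
  have h16 : (4 * (om / 10 ^ 12)) * (p.X R1 / 5) ≤ om * p.X R1 / 10 ^ 5 := by nlinarith
  linarith

end H72GS
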