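import Pool.Agent.H72.GS.Dyn

/-!
# Supp: finite speed of propagation

For `R2` large let `ψ(t,r) = pp (r - R0 - t) * pp (R2 - t - r)` (`pp u = (max 0 u)²`, `C¹`), so
`ψ_t = -A' B - A B'`, `ψ_r = A' B - A B'`, `|ψ_r| ≤ -ψ_t`.  Then
`d/dt ∫_0^{R2} ψ r (g²+e²+w²+y²)/2 = ∫ ψ_t r (..)/2 - ∫ ψ_r r (g w + e y) ≤ 0`
because `r (g g_t + e e_t + w w_t + y y_t) = (r (g w + e y))_r` (from `gt_eq, et_eq, wt_eq, yt_eq`).
At `t = 0` the integral vanishes (for `r ≥ R0`: `f = g = al = e = 0`, hence `s = 0`, `w = f_r = 0`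
for `r > R0`, `y = 0`).  Hence `g = e = w = y = 0` for `t ∈ [0,T]`, `R0 + t < r`; so
`f(t,r) = f(0,r) = 0`, `al(t,r) = 0` there; closure gives `r ≥ R0 + t`.
`supp_deriv`: time derivatives and `r`-derivatives vanish too on `r ≥ R0 + T`, `t ∈ [0,T]`
(for `r > R0 + T` directly, at `r = R0 + T` by continuity; at `t = 0, T` by continuity in `t`).
-/

namespace H72GS

open Set MeasureTheory intervalIntegral

theorem Supp_pp_cont : Continuous pp := by
  unfold pp
  fun_prop

theorem Supp_pp_nonneg (u : ℝ) : 0 ≤ pp u := by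
  unfold pp
  positivity

theorem Supp_pp_pos {u : ℝ} (hu : 0 < u) : 0 < pp u := by
  unfold pp
  rw [max_eq_right hu.le]
  positivity

theorem Supp_pp_zero {u : ℝ} (hu : u ≤ 0) : pp u = 0 := by
  unfold pp
  rw [max_eq_left hu]
  norm_num

theorem Supp_pp_deriv (u : ℝ) : HasDerivAt pp (2 * max 0 u) u := by
  refine hasDerivAt_of_hasDerivAt_of_ne' (f := pp) (g := fun u => 2 * max 0 u) (x := 0) ?_
    Supp_pp_cont.continuousAt (by fun_prop) u
  intro y hy
  rcases lt_or_gt_of_ne hy with h | h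
  · have h1 : HasDerivAt (fun _ : ℝ => (0 : ℝ)) 0 y := hasDerivAt_const y 0
    have h2 : (fun _ : ℝ => (0 : ℝ)) =ᶠ[nhds y] pp := by
      filter_upwards [Iio_mem_nhds h] with z hz
      exact (Supp_pp_zero (le_of_lt hz)).symm
    have h3 : (2 * max 0 y : ℝ) = 0 := by rw [max_eq_left h.le]; ring
    show HasDerivAt pp (2 * max 0 y) y
    rw [h3]
    exact h2.hasDerivAt_iff.mp h1
  · have h1 : HasDerivAt (fun z : ℝ => z ^ 2) (2 * y) y := by
      simpa using hasDerivAt_pow 2 y
    have h2 : (fun z : ℝ => z ^ 2) =ᶠ[nhds y] pp := by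
      filter_upwards [Ioi_mem_nhds h] with z hz
      show z ^ 2 = pp z
      unfold pp
      rw [max_eq_right (le_of_lt hz)]
    have h3 : (2 * max 0 y : ℝ) = 2 * y := by rw [max_eq_right h.le]
    show HasDerivAt pp (2 * max 0 y) y
    rw [h3]
    exact h2.hasDerivAt_iff.mp h1

/-- the weight -/
noncomputable def Supp_psi (R0 K t r : ℝ) : ℝ := pp (r - R0 - t) * pp (K - t - r)

/-- time derivative of the weight -/
noncomputable def Supp_psit (R0 K t r : ℝ) : ℝ :=
  -(2 * max 0 (r - R0 - t)) * pp (K - t - r) - pp (r - R0 - t) * (2 * max 0 (K - t - r))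

/-- radial derivative of the weight -/
noncomputable def Supp_psir (R0 K t r : ℝ) : ℝ :=
  (2 * max 0 (r - R0 - t)) * pp (K - t - r) - pp (r - R0 - t) * (2 * max 0 (K - t - r))

theorem Supp_psi_cont (R0 K : ℝ) : Continuous (fun p : ℝ × ℝ => Supp_psi R0 K p.1 p.2) := by
  unfold Supp_psi pp
  fun_prop

theorem Supp_psit_cont (R0 K : ℝ) : Continuous (fun p : ℝ × ℝ => Supp_psit R0 K p.1 p.2) := by
  unfold Supp_psit pp
  fun_prop

theorem Supp_psir_cont (R0 K : ℝ) : Continuous (fun p : ℝ × ℝ => Supp_psir R0 K p.1 p.2) := by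
  unfold Supp_psir pp
  fun_prop

theorem Supp_psi_dt (R0 K t r : ℝ) :
    HasDerivAt (fun s => Supp_psi R0 K s r) (Supp_psit R0 K t r) t := by
  have h1 : HasDerivAt (fun s : ℝ => r - R0 - s) (-1) t := by
    simpa using (hasDerivAt_id t).const_sub (r - R0)
  have h2 : HasDerivAt (fun s : ℝ => K - s - r) (-1) t := by
    simpa using ((hasDerivAt_id t).const_sub K).sub_const r
  have h3 := (Supp_pp_deriv (r - R0 - t)).comp t h1
  have h4 := (Supp_pp_deriv (K - t - r)).comp t h2
  have h5 := h3.mul h4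
  unfold Supp_psi Supp_psit
  refine h5.congr_deriv ?_
  simp only [Function.comp]
  ring

theorem Supp_psi_dr (R0 K t r : ℝ) :
    HasDerivAt (fun x => Supp_psi R0 K t x) (Supp_psir R0 K t r) r := by
  have h1 : HasDerivAt (fun x : ℝ => x - R0 - t) 1 r := by
    simpa using ((hasDerivAt_id r).sub_const R0).sub_const t
  have h2 : HasDerivAt (fun x : ℝ => K - t - x) (-1) r := by
    simpa using (hasDerivAt_id r).const_sub (K - t)
  have h3 := (Supp_pp_deriv (r - R0 - t)).comp r h1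
  have h4 := (Supp_pp_deriv (K - t - r)).comp r h2
  have h5 := h3.mul h4
  unfold Supp_psi Supp_psir
  refine h5.congr_deriv ?_
  simp only [Function.comp]
  ring

theorem Supp_psi_nonneg (R0 K t r : ℝ) : 0 ≤ Supp_psi R0 K t r :=
  mul_nonneg (Supp_pp_nonneg _) (Supp_pp_nonneg _)

theorem Supp_psi_abs (R0 K t r : ℝ) : |Supp_psir R0 K t r| ≤ -Supp_psit R0 K t r := by
  unfold Supp_psir Supp_psit
  have h1 : 0 ≤ (2 * max 0 (r - R0 - t)) * pp (K - t - r) :=
    mul_nonneg (by positivity) (Supp_pp_nonneg _)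
  have h2 : 0 ≤ pp (r - R0 - t) * (2 * max 0 (K - t - r)) :=
    mul_nonneg (Supp_pp_nonneg _) (by positivity)
  rw [abs_le]
  constructor <;> linarith

namespace Rad

variable {T R0 : ℝ} (R : Rad T R0)

/-- energy density -/
noncomputable def Supp_q (t r : ℝ) : ℝ :=
  (R.g t r ^ 2 + R.e t r ^ 2 + R.w t r ^ 2 + R.y t r ^ 2) / 2

/-- flux -/
noncomputable def Supp_j (t r : ℝ) : ℝ := R.g t r * R.w t r + R.e t r * R.y t r

/-- time derivative of the density -/
noncomputable def Supp_qt (t r : ℝ) : ℝ :=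
  R.g t r * dt R.g t r + R.e t r * dt R.e t r + R.w t r * dt R.w t r + R.y t r * dt R.y t r

/-- radial derivative of the flux -/
noncomputable def Supp_jr (t r : ℝ) : ℝ :=
  dr R.g t r * R.w t r + R.g t r * dr R.w t r + (dr R.e t r * R.y t r + R.e t r * dr R.y t r)

theorem Supp_q_cont : Continuous (fun p : ℝ × ℝ => R.Supp_q p.1 p.2) := by
  have h1 := R.g_sm.cont
  have h2 := R.e_sm.cont
  have h3 := R.w_sm.cont
  have h4 := R.y_sm.cont
  unfold Supp_q
  fun_prop

theorem Supp_j_cont : Continuous (fun p : ℝ × ℝ => R.Supp_j p.1 p.2) := by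
  have h1 := R.g_sm.cont
  have h2 := R.e_sm.cont
  have h3 := R.w_sm.cont
  have h4 := R.y_sm.cont
  unfold Supp_j
  fun_prop

theorem Supp_qt_cont : Continuous (fun p : ℝ × ℝ => R.Supp_qt p.1 p.2) := by
  have h1 := R.g_sm.cont
  have h2 := R.e_sm.cont
  have h3 := R.w_sm.cont
  have h4 := R.y_sm.cont
  have h5 := R.g_sm.dt.cont
  have h6 := R.e_sm.dt.cont
  have h7 := R.w_sm.dt.cont
  have h8 := R.y_sm.dt.cont
  unfold Supp_qt
  fun_prop

theorem Supp_jr_cont : Continuous (fun p : ℝ × ℝ => R.Supp_jr p.1 p.2) := by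
  have h1 := R.g_sm.cont
  have h2 := R.e_sm.cont
  have h3 := R.w_sm.cont
  have h4 := R.y_sm.cont
  have h5 := R.g_sm.dr.cont
  have h6 := R.e_sm.dr.cont
  have h7 := R.w_sm.dr.cont
  have h8 := R.y_sm.dr.cont
  unfold Supp_jr
  fun_prop

theorem Supp_q_nonneg (t r : ℝ) : 0 ≤ R.Supp_q t r := by
  unfold Supp_q
  positivity

theorem Supp_j_le (t r : ℝ) : |R.Supp_j t r| ≤ R.Supp_q t r := by
  unfold Supp_q Supp_j
  rw [abs_le]
  constructor
  · nlinarith [sq_nonneg (R.g t r + R.w t r), sq_nonneg (R.e t r + R.y t r)]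
  · nlinarith [sq_nonneg (R.g t r - R.w t r), sq_nonneg (R.e t r - R.y t r)]

theorem Supp_q_dt (t r : ℝ) : HasDerivAt (fun s => R.Supp_q s r) (R.Supp_qt t r) t := by
  have h1 := R.g_sm.hasDerivAt_t t r
  have h2 := R.e_sm.hasDerivAt_t t r
  have h3 := R.w_sm.hasDerivAt_t t r
  have h4 := R.y_sm.hasDerivAt_t t r
  have h5 := ((((h1.pow 2).add (h2.pow 2)).add (h3.pow 2)).add (h4.pow 2)).div_const 2
  unfold Supp_q Supp_qt
  refine h5.congr_deriv ?_
  push_cast
  ring

theorem Supp_j_dr (t r : ℝ) : HasDerivAt (fun x => R.Supp_j t x) (R.Supp_jr t r) r := by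
  have h1 := R.g_sm.hasDerivAt_r t r
  have h2 := R.e_sm.hasDerivAt_r t r
  have h3 := R.w_sm.hasDerivAt_r t r
  have h4 := R.y_sm.hasDerivAt_r t r
  have h5 := (h1.mul h3).add (h2.mul h4)
  unfold Supp_j Supp_jr
  exact h5

/-- conservation law -/
theorem Supp_cons {t : ℝ} (ht : t ∈ Icc 0 T) {r : ℝ} (hr : 0 ≤ r) :
    r * R.Supp_qt t r = R.Supp_j t r + r * R.Supp_jr t r := by
  unfold Supp_qt Supp_j Supp_jr
  rw [R.gt_eq ht hr, R.et_eq ht hr, R.wt_eq t r, R.yt_eq t r]
  have h1 := R.r_w1 t r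
  have h2 := R.r_g1 t r
  have h3 := R.r_e1 t r
  linear_combination (R.g t r * (1 - R.mu t r * R.c t r)) * h1
    + (R.w t r * (R.mu t r * R.c t r)) * h2 + R.y t r * h3

/-- weighted energy -/
noncomputable def Supp_E (K t : ℝ) : ℝ := ∫ r in (0 : ℝ)..K, Supp_psi R0 K t r * (r * R.Supp_q t r)

theorem Supp_E_deriv (K t : ℝ) : HasDerivAt (R.Supp_E K)
    (∫ r in (0 : ℝ)..K, (Supp_psit R0 K t r * (r * R.Supp_q t r)
      + Supp_psi R0 K t r * (r * R.Supp_qt t r))) t := by
  have hp := Supp_psi_cont R0 K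
  have hpt := Supp_psit_cont R0 K
  have hq := R.Supp_q_cont
  have hqt := R.Supp_qt_cont
  refine hasDerivAt_int (F := fun t r => Supp_psi R0 K t r * (r * R.Supp_q t r))
    (F' := fun t r => Supp_psit R0 K t r * (r * R.Supp_q t r)
      + Supp_psi R0 K t r * (r * R.Supp_qt t r)) ?_ ?_ ?_ 0 K t
  · intro s
    have h1 : Continuous (fun r : ℝ => Supp_psi R0 K s r) :=
      hp.comp (Continuous.prodMk continuous_const continuous_id)
    have h2 : Continuous (fun r : ℝ => R.Supp_q s r) :=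
      hq.comp (Continuous.prodMk continuous_const continuous_id)
    exact h1.mul (continuous_id.mul h2)
  · exact (hpt.mul (continuous_snd.mul hq)).add (hp.mul (continuous_snd.mul hqt))
  · intro s r
    have h1 := Supp_psi_dt R0 K s r
    have h2 := (R.Supp_q_dt s r).const_mul r
    exact h1.mul h2

theorem Supp_E_deriv_nonpos {K t : ℝ} (hK : 0 ≤ K) (ht : t ∈ Icc 0 T) :
    (∫ r in (0 : ℝ)..K, (Supp_psit R0 K t r * (r * R.Supp_q t r)
      + Supp_psi R0 K t r * (r * R.Supp_qt t r))) ≤ 0 := by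
  have hp : Continuous (fun r : ℝ => Supp_psi R0 K t r) :=
    (Supp_psi_cont R0 K).comp (Continuous.prodMk continuous_const continuous_id)
  have hpt : Continuous (fun r : ℝ => Supp_psit R0 K t r) :=
    (Supp_psit_cont R0 K).comp (Continuous.prodMk continuous_const continuous_id)
  have hpr : Continuous (fun r : ℝ => Supp_psir R0 K t r) :=
    (Supp_psir_cont R0 K).comp (Continuous.prodMk continuous_const continuous_id)
  have hq : Continuous (fun r : ℝ => R.Supp_q t r) :=
    R.Supp_q_cont.comp (Continuous.prodMk continuous_const continuous_id)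
  have hqt : Continuous (fun r : ℝ => R.Supp_qt t r) :=
    R.Supp_qt_cont.comp (Continuous.prodMk continuous_const continuous_id)
  have hj : Continuous (fun r : ℝ => R.Supp_j t r) :=
    R.Supp_j_cont.comp (Continuous.prodMk continuous_const continuous_id)
  have hjr : Continuous (fun r : ℝ => R.Supp_jr t r) :=
    R.Supp_jr_cont.comp (Continuous.prodMk continuous_const continuous_id)
  -- the total derivative integrates to zero
  have hF : ∀ r : ℝ, HasDerivAt (fun x => Supp_psi R0 K t x * (x * R.Supp_j t x))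
      (Supp_psir R0 K t r * (r * R.Supp_j t r)
        + Supp_psi R0 K t r * (R.Supp_j t r + r * R.Supp_jr t r)) r := by
    intro r
    have h1 := Supp_psi_dr R0 K t r
    have h2 := (hasDerivAt_id r).mul (R.Supp_j_dr t r)
    have h3 := h1.mul h2
    refine h3.congr_deriv ?_
    simp only [id, Pi.mul_apply]
    ring
  have hint : (∫ r in (0 : ℝ)..K, (Supp_psir R0 K t r * (r * R.Supp_j t r)
        + Supp_psi R0 K t r * (R.Supp_j t r + r * R.Supp_jr t r))) = 0 := by
    rw [intervalIntegral.integral_eq_sub_of_hasDerivAt (fun r _ => hF r)]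
    · have h1 : Supp_psi R0 K t K = 0 := by
        unfold Supp_psi
        rw [Supp_pp_zero (u := K - t - K) (by linarith [ht.1])]
        ring
      rw [h1]
      ring
    · apply Continuous.intervalIntegrable
      exact (hpr.mul (continuous_id.mul hj)).add (hp.mul (hj.add (continuous_id.mul hjr)))
  refine le_trans (intervalIntegral.integral_mono_on hK ?_ ?_ ?_) hint.le
  · apply Continuous.intervalIntegrable
    exact (hpt.mul (continuous_id.mul hq)).add (hp.mul (continuous_id.mul hqt))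
  · apply Continuous.intervalIntegrable
    exact (hpr.mul (continuous_id.mul hj)).add (hp.mul (hj.add (continuous_id.mul hjr)))
  · intro r hr
    rw [R.Supp_cons ht hr.1]
    have h1 := Supp_psi_abs R0 K t r
    have h2 := R.Supp_j_le t r
    have h3 := R.Supp_q_nonneg t r
    have h4 : |Supp_psir R0 K t r * R.Supp_j t r| ≤ -Supp_psit R0 K t r * R.Supp_q t r := by
      rw [abs_mul]
      exact mul_le_mul h1 h2 (abs_nonneg _) ((abs_nonneg _).trans h1)
    have h5 := (abs_le.mp h4).1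
    have h6 : 0 ≤ r * (Supp_psir R0 K t r * R.Supp_j t r - Supp_psit R0 K t r * R.Supp_q t r) :=
      mul_nonneg hr.1 (by linarith)
    nlinarith [h6]

theorem Supp_init {r : ℝ} (hr : R0 < r) : R.Supp_q 0 r = 0 := by
  have hr0 : 0 < r := R.hR0.trans hr
  have hf : R.f 0 r = 0 := R.f_init r hr.le
  have hg : R.g 0 r = 0 := R.g_init r hr.le
  have he : R.e 0 r = 0 := R.e_init r
  have hs : R.s 0 r = 0 := by unfold Rad.s; rw [hf, Real.sin_zero]
  have hc : R.c 0 r = 1 := by unfold Rad.c; rw [hf, Real.cos_zero]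
  have hfr : dr R.f 0 r = 0 := by
    unfold dr
    have : (fun x => R.f 0 x) =ᶠ[nhds r] (fun _ => (0 : ℝ)) := by
      filter_upwards [Ioi_mem_nhds hr] with x hx
      exact R.f_init x (le_of_lt hx)
    rw [this.deriv_eq]
    simp
  have halr : dr R.al 0 r = 0 := by
    unfold dr
    have : (fun x => R.al 0 x) = (fun _ => (0 : ℝ)) := by
      ext x
      exact R.al_init x
    rw [this]
    simp
  have hS1 : R.S1 0 r = 0 := by
    have h := R.r_S1 0 r
    rw [hs] at h
    exact (mul_eq_zero.mp h).resolve_left hr0.ne'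
  have hal1 : R.al1 0 r = 0 := by
    have h := R.r_al1 0 r
    rw [R.al_init] at h
    exact (mul_eq_zero.mp h).resolve_left hr0.ne'
  have hw : R.w 0 r = 0 := by
    unfold Rad.w
    rw [hfr, hS1]
    ring
  have hy : R.y 0 r = 0 := by
    unfold Rad.y
    rw [hal1, halr, hc]
    ring
  unfold Supp_q
  rw [hg, he, hw, hy]
  norm_num

theorem Supp_E_zero (K : ℝ) : R.Supp_E K 0 = 0 := by
  unfold Supp_E
  have : (fun r : ℝ => Supp_psi R0 K 0 r * (r * R.Supp_q 0 r)) = fun _ => 0 := by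
    ext r
    rcases le_or_gt r R0 with h | h
    · have h1 : Supp_psi R0 K 0 r = 0 := by
        unfold Supp_psi
        rw [Supp_pp_zero (u := r - R0 - 0) (by linarith)]
        ring
      rw [h1]
      ring
    · rw [R.Supp_init h]
      ring
  rw [this]
  simp

theorem Supp_E_nonneg {K : ℝ} (hK : 0 ≤ K) (t : ℝ) : 0 ≤ R.Supp_E K t := by
  unfold Supp_E
  apply intervalIntegral.integral_nonneg hK
  intro r hr
  exact mul_nonneg (Supp_psi_nonneg _ _ _ _) (mul_nonneg hr.1 (R.Supp_q_nonneg t r))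

theorem Supp_E_le {K : ℝ} (hK : 0 ≤ K) {t : ℝ} (ht : t ∈ Icc 0 T) : R.Supp_E K t = 0 := by
  have hanti : AntitoneOn (R.Supp_E K) (Icc 0 T) := by
    apply antitoneOn_of_deriv_nonpos (convex_Icc 0 T)
    · intro s _
      exact (R.Supp_E_deriv K s).continuousAt.continuousWithinAt
    · intro s _
      exact (R.Supp_E_deriv K s).differentiableAt.differentiableWithinAt
    · intro s hs
      rw [interior_Icc] at hs
      rw [(R.Supp_E_deriv K s).deriv]
      exact R.Supp_E_deriv_nonpos hK ⟨hs.1.le, hs.2.le⟩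
  have h1 := hanti (show (0 : ℝ) ∈ Icc 0 T from ⟨le_refl _, R.hT.le⟩) ht ht.1
  rw [R.Supp_E_zero] at h1
  exact le_antisymm h1 (R.Supp_E_nonneg hK t)

theorem Supp_q_zero {t : ℝ} (ht : t ∈ Icc 0 T) {r : ℝ} (hr : R0 + t < r) :
    R.Supp_q t r = 0 := by
  have hr0 : 0 < r := by
    have := R.hR0
    have := ht.1
    linarith
  have hq : Continuous (fun r : ℝ => R.Supp_q t r) :=
    R.Supp_q_cont.comp (Continuous.prodMk continuous_const continuous_id)
  set K : ℝ := r + t + 1 with hKdef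
  have hK : 0 ≤ K := by
    have := ht.1
    linarith
  have hp : Continuous (fun r : ℝ => Supp_psi R0 K t r) :=
    (Supp_psi_cont R0 K).comp (Continuous.prodMk continuous_const continuous_id)
  have hE := R.Supp_E_le hK ht
  unfold Supp_E at hE
  by_contra hne
  have hqpos : 0 < R.Supp_q t r := lt_of_le_of_ne (R.Supp_q_nonneg t r) (Ne.symm hne)
  have hpos : 0 < ∫ r in (0 : ℝ)..K, Supp_psi R0 K t r * (r * R.Supp_q t r) := by
    apply intervalIntegral.integral_pos (by linarith [ht.1])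
    · exact (hp.mul (continuous_id.mul hq)).continuousOn
    · intro x hx
      exact mul_nonneg (Supp_psi_nonneg _ _ _ _) (mul_nonneg hx.1.le (R.Supp_q_nonneg t x))
    · refine ⟨r, ⟨hr0.le, by linarith [ht.1]⟩, ?_⟩
      have h1 : 0 < Supp_psi R0 K t r := by
        unfold Supp_psi
        exact mul_pos (Supp_pp_pos (by linarith)) (Supp_pp_pos (by linarith))
      exact mul_pos h1 (mul_pos hr0 hqpos)
  linarith

theorem Supp_four {t : ℝ} (ht : t ∈ Icc 0 T) {r : ℝ} (hr : R0 + t < r) :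
    R.g t r = 0 ∧ R.e t r = 0 ∧ R.w t r = 0 ∧ R.y t r = 0 := by
  have h := R.Supp_q_zero ht hr
  unfold Supp_q at h
  refine ⟨?_, ?_, ?_, ?_⟩ <;>
  · apply pow_eq_zero_iff (n := 2) (by norm_num) |>.mp
    nlinarith [sq_nonneg (R.g t r), sq_nonneg (R.e t r), sq_nonneg (R.w t r),
      sq_nonneg (R.y t r)]

/-- a function with vanishing derivative on `[0,t]` -/
theorem Supp_const {u u' : ℝ → ℝ} (hu : ∀ x, HasDerivAt u (u' x) x) {t : ℝ} (ht : 0 ≤ t)
    (h : ∀ x ∈ Icc 0 t, u' x = 0) : u t = u 0 := by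
  have := constant_of_has_deriv_right_zero (f := u) (a := 0) (b := t)
    (fun x _ => (hu x).continuousAt.continuousWithinAt)
    (fun x hx => by
      have h1 := (hu x).hasDerivWithinAt (s := Ici x)
      rw [h x ⟨hx.1, hx.2.le⟩] at h1
      exact h1)
  exact this t ⟨ht, le_refl _⟩

theorem Supp_f {t : ℝ} (ht : t ∈ Icc 0 T) {r : ℝ} (hr : R0 + t < r) : R.f t r = 0 := by
  have h := Supp_const (u := fun s => R.f s r) (u' := fun s => dt R.f s r)
    (fun x => R.sf.hasDerivAt_t x r) ht.1 (by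
      intro x hx
      exact (R.Supp_four (t := x) ⟨hx.1, hx.2.trans ht.2⟩ (by linarith [hx.2])).1)
  rw [h]
  exact R.f_init r (by linarith [ht.1])

theorem Supp_al {t : ℝ} (ht : t ∈ Icc 0 T) {r : ℝ} (hr : R0 + t < r) : R.al t r = 0 := by
  have h := Supp_const (u := fun s => R.al s r) (u' := fun s => dt R.al s r)
    (fun x => R.sal.hasDerivAt_t x r) ht.1 (by
      intro x hx
      exact (R.Supp_four (t := x) ⟨hx.1, hx.2.trans ht.2⟩ (by linarith [hx.2])).2.1)
  rw [h]
  exact R.al_init r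

/-- closure in `r` -/
theorem Supp_closure {u : ℝ → ℝ} (hu : Continuous u) {a : ℝ} (h : ∀ x, a < x → u x = 0) :
    ∀ x, a ≤ x → u x = 0 := by
  intro x hx
  have h1 : IsClosed {x | u x = 0} := isClosed_eq hu continuous_const
  have h2 : closure (Ioi a) ⊆ {x | u x = 0} := by
    apply closure_minimal _ h1
    intro y hy
    exact h y hy
  rw [closure_Ioi] at h2
  exact h2 hx

theorem supp {t : ℝ} (ht : t ∈ Icc 0 T) {r : ℝ} (hr : R0 + T ≤ r) :
    R.f t r = 0 ∧ R.al t r = 0 ∧ R.g t r = 0 ∧ R.e t r = 0 ∧ R.w t r = 0 ∧ R.y t r = 0 := by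
  have hr' : R0 + t ≤ r := by linarith [ht.2]
  refine ⟨?_, ?_, ?_, ?_, ?_, ?_⟩
  · exact Supp_closure (R.sf.cont_r t) (fun x hx => R.Supp_f ht hx) r hr'
  · exact Supp_closure (R.sal.cont_r t) (fun x hx => R.Supp_al ht hx) r hr'
  · exact Supp_closure (R.g_sm.cont_r t) (fun x hx => (R.Supp_four ht hx).1) r hr'
  · exact Supp_closure (R.e_sm.cont_r t) (fun x hx => (R.Supp_four ht hx).2.1) r hr'
  · exact Supp_closure (R.w_sm.cont_r t) (fun x hx => (R.Supp_four ht hx).2.2.1) r hr'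
  · exact Supp_closure (R.y_sm.cont_r t) (fun x hx => (R.Supp_four ht hx).2.2.2) r hr'

end Rad

end H72GS
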