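import Pool.Agent.H72.GS.Supp

/-!
# SuppD: derivatives vanish outside the support

For `r > R0 + T`, `t ∈ [0,T]`: the functions vanish near `r`, so `r`-derivatives vanish; for
`t ∈ (0,T)` they vanish near `t`, so time derivatives vanish; the end points `t = 0, T` and
`r = R0 + T` by continuity (`Sm.cont`).
-/

namespace H72GS

open Set MeasureTheory intervalIntegral

/-- a function vanishing on a set with unique derivatives has zero derivative there -/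
theorem SuppD_zero {u : ℝ → ℝ} {u' x : ℝ} {S : Set ℝ} (hS : UniqueDiffWithinAt ℝ S x)
    (hx : x ∈ S) (hu : HasDerivAt u u' x) (h : ∀ z ∈ S, u z = 0) : u' = 0 := by
  have h1 : HasDerivWithinAt u u' S x := hu.hasDerivWithinAt
  have h2 : HasDerivWithinAt (fun _ : ℝ => (0 : ℝ)) 0 S x := hasDerivWithinAt_const x S 0
  have h3 : HasDerivWithinAt u 0 S x := h2.congr (fun z hz => h z hz) (h x hx)
  exact hS.eq_deriv S h1 h3

theorem SuppD_t {u : ℝ → ℝ → ℝ} (hu : Sm u) {T t r : ℝ} (hT : 0 < T) (ht : t ∈ Icc 0 T)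
    (h : ∀ s ∈ Icc 0 T, u s r = 0) : dt u t r = 0 :=
  SuppD_zero (uniqueDiffOn_Icc hT t ht) ht (hu.hasDerivAt_t t r) h

theorem SuppD_r {u : ℝ → ℝ → ℝ} (hu : Sm u) {a t r : ℝ} (hr : a ≤ r)
    (h : ∀ x, a ≤ x → u t x = 0) : dr u t r = 0 :=
  SuppD_zero (uniqueDiffOn_Ici a r hr) (show r ∈ Ici a from hr) (hu.hasDerivAt_r t r)
    (fun x hx => h x hx)

namespace Rad

variable {T R0 : ℝ} (R : Rad T R0)

theorem supp_deriv {t : ℝ} (ht : t ∈ Icc 0 T) {r : ℝ} (hr : R0 + T ≤ r) :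
    dt R.w t r = 0 ∧ dr R.w t r = 0 ∧ dt R.y t r = 0 ∧ dr R.y t r = 0 ∧ dt R.g t r = 0 ∧
      dt R.e t r = 0 ∧ dt (dt R.w) t r = 0 := by
  have hwt : ∀ s ∈ Icc 0 T, dt R.w s r = 0 := fun s hs =>
    SuppD_t R.w_sm R.hT hs (fun s' hs' => (R.supp hs' hr).2.2.2.2.1)
  refine ⟨hwt t ht, ?_, ?_, ?_, ?_, ?_, ?_⟩
  · exact SuppD_r R.w_sm hr (fun x hx => (R.supp ht hx).2.2.2.2.1)
  · exact SuppD_t R.y_sm R.hT ht (fun s' hs' => (R.supp hs' hr).2.2.2.2.2)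
  · exact SuppD_r R.y_sm hr (fun x hx => (R.supp ht hx).2.2.2.2.2)
  · exact SuppD_t R.g_sm R.hT ht (fun s' hs' => (R.supp hs' hr).2.2.1)
  · exact SuppD_t R.e_sm R.hT ht (fun s' hs' => (R.supp hs' hr).2.2.2.1)
  · exact SuppD_t R.w_sm.dt R.hT ht hwt

end Rad

end H72GS
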