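import Pool.Agent.H72.GS.FOa
import Pool.Agent.H72.GS.FOb
import Pool.Agent.H72.GS.SH

/-!
# Uniq: uniqueness in temporal gauge

`δ_j = UU c p j - UU c' p j`, `e = Σ_j δ_j²`,
`q1 = 2 Σ_i δ_{3+i} δ_{6+i} + 2 δ_15 δ_16`, `q2 = 2 Σ_i δ_{3+i} δ_{9+i} - 2 δ_14 δ_16`.
`∂_t e - ∂_1 q1 - ∂_2 q2` contains no derivatives of `δ`: it is
`2 Σ δ_i δ_{3+i} + 2 Σ δ_{3+i} (ΔK_i) + 2 δ_12 δ_14 + 2 δ_13 δ_15 - 2 δ_14 ΔJ_1 - 2 δ_15 ΔJ_2
 - 2 δ_17 ΔJ_0`  (using `pd_comm`), bounded by `C e` on compact sets (`Kf_lip`, `Jf_lip`,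
`(Σ|δ_j|)² ≤ 18 e`).  For `|ν| ≤ 1`: `ν·q = 2 Σ δ_{3+i} (ν1 δ_{6+i} + ν2 δ_{9+i})
+ 2 δ_16 (ν1 δ_15 - ν2 δ_14) ≤ e`.  At `t = 0` the spatial derivatives agree because the functions do.
-/

namespace H72GS

open Set
open scoped ContDiff

theorem Uniq_sum18 (g : Fin 18 → ℝ) : ∑ j, g j = g 0 + g 1 + g 2 + g 3 + g 4 + g 5 + g 6 + g 7
    + g 8 + g 9 + g 10 + g 11 + g 12 + g 13 + g 14 + g 15 + g 16 + g 17 := by
  rw [Fin.sum_univ_def]
  simp [List.finRange_succ]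
  ring

/-- component function of the first order variables -/
noncomputable def Uniq_U (c : Config) (j : Fin 18) : Pt → ℝ := fun p => UU c p j

variable {c c' : Config} {b : ℝ}

theorem Uniq_smooth (hc : c.Temporal b) (j : Fin 18) : ContDiff ℝ ∞ (Uniq_U c j) := by
  have hφ := hc.hφ
  have hA := hc.hA
  fin_cases j
  · exact hφ 0
  · exact hφ 1
  · exact hφ 2
  · exact pd_smooth (hφ 0) 0
  · exact pd_smooth (hφ 1) 0
  · exact pd_smooth (hφ 2) 0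
  · exact pd_smooth (hφ 0) 1
  · exact pd_smooth (hφ 1) 1
  · exact pd_smooth (hφ 2) 1
  · exact pd_smooth (hφ 0) 2
  · exact pd_smooth (hφ 1) 2
  · exact pd_smooth (hφ 2) 2
  · exact hA 1
  · exact hA 2
  · exact pd_smooth (hA 1) 0
  · exact pd_smooth (hA 2) 0
  · exact (pd_smooth (hA 2) 1).sub (pd_smooth (hA 1) 2)
  · exact (pd_smooth (hA 1) 1).add (pd_smooth (hA 2) 2)

/-- the evolution equations, for abstract component functions -/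
structure Uniq_E (d : Fin 18 → Pt → ℝ) (K J : Fin 3 → ℝ) (p : Pt) : Prop where
  e0 : pd 0 (d 0) p = d 3 p
  e1 : pd 0 (d 1) p = d 4 p
  e2 : pd 0 (d 2) p = d 5 p
  e3 : pd 0 (d 3) p = pd 1 (d 6) p + pd 2 (d 9) p + K 0
  e4 : pd 0 (d 4) p = pd 1 (d 7) p + pd 2 (d 10) p + K 1
  e5 : pd 0 (d 5) p = pd 1 (d 8) p + pd 2 (d 11) p + K 2
  e6 : pd 0 (d 6) p = pd 1 (d 3) p
  e7 : pd 0 (d 7) p = pd 1 (d 4) p
  e8 : pd 0 (d 8) p = pd 1 (d 5) p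
  e9 : pd 0 (d 9) p = pd 2 (d 3) p
  e10 : pd 0 (d 10) p = pd 2 (d 4) p
  e11 : pd 0 (d 11) p = pd 2 (d 5) p
  e12 : pd 0 (d 12) p = d 14 p
  e13 : pd 0 (d 13) p = d 15 p
  e14 : pd 0 (d 14) p = -pd 2 (d 16) p - J 1
  e15 : pd 0 (d 15) p = pd 1 (d 16) p - J 2
  e16 : pd 0 (d 16) p = pd 1 (d 15) p - pd 2 (d 14) p
  e17 : pd 0 (d 17) p = -J 0

theorem Uniq_eqs (hc : c.Temporal b) {p : Pt} (hp : p ∈ hslab b) :
    Uniq_E (Uniq_U c) (fun i => Kf i (UU c p)) (fun μ => Jf μ (UU c p)) p where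
  e0 := rfl
  e1 := rfl
  e2 := rfl
  e3 := phi_tt hc hp 0
  e4 := phi_tt hc hp 1
  e5 := phi_tt hc hp 2
  e6 := pd_comm (hc.hφ 0) 0 1 p
  e7 := pd_comm (hc.hφ 1) 0 1 p
  e8 := pd_comm (hc.hφ 2) 0 1 p
  e9 := pd_comm (hc.hφ 0) 0 2 p
  e10 := pd_comm (hc.hφ 1) 0 2 p
  e11 := pd_comm (hc.hφ 2) 0 2 p
  e12 := rfl
  e13 := rfl
  e14 := E1_t hc hp
  e15 := E2_t hc hp
  e16 := by
    have h1 := pd_sub (pd_smooth (hc.hA 2) 1) (pd_smooth (hc.hA 1) 2) 0 p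
    have h2 := pd_comm (hc.hA 2) 0 1 p
    have h3 := pd_comm (hc.hA 1) 0 2 p
    rw [h2, h3] at h1
    exact h1
  e17 := div_t hc hp

/-- difference of the component functions -/
noncomputable def Uniq_d (c c' : Config) (j : Fin 18) : Pt → ℝ :=
  fun p => Uniq_U c j p - Uniq_U c' j p

theorem Uniq_d_smooth (hc : c.Temporal b) (hc' : c'.Temporal b) (j : Fin 18) :
    ContDiff ℝ ∞ (Uniq_d c c' j) := (Uniq_smooth hc j).sub (Uniq_smooth hc' j)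

theorem Uniq_pd (hc : c.Temporal b) (hc' : c'.Temporal b) (j : Fin 18) (μ : Fin 3) (p : Pt) :
    pd μ (Uniq_d c c' j) p = pd μ (Uniq_U c j) p - pd μ (Uniq_U c' j) p :=
  pd_sub (Uniq_smooth hc j) (Uniq_smooth hc' j) μ p

theorem Uniq_deqs (hc : c.Temporal b) (hc' : c'.Temporal b) {p : Pt} (hp : p ∈ hslab b) :
    Uniq_E (Uniq_d c c') (fun i => Kf i (UU c p) - Kf i (UU c' p))
      (fun μ => Jf μ (UU c p) - Jf μ (UU c' p)) p := by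
  have h := Uniq_eqs hc hp
  have h' := Uniq_eqs hc' hp
  have hd := Uniq_pd hc hc'
  constructor
  · rw [hd, h.e0, h'.e0]; rfl
  · rw [hd, h.e1, h'.e1]; rfl
  · rw [hd, h.e2, h'.e2]; rfl
  · rw [hd, hd, hd, h.e3, h'.e3]; ring
  · rw [hd, hd, hd, h.e4, h'.e4]; ring
  · rw [hd, hd, hd, h.e5, h'.e5]; ring
  · rw [hd, hd, h.e6, h'.e6]
  · rw [hd, hd, h.e7, h'.e7]
  · rw [hd, hd, h.e8, h'.e8]
  · rw [hd, hd, h.e9, h'.e9]
  · rw [hd, hd, h.e10, h'.e10]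
  · rw [hd, hd, h.e11, h'.e11]
  · rw [hd, h.e12, h'.e12]; rfl
  · rw [hd, h.e13, h'.e13]; rfl
  · rw [hd, hd, h.e14, h'.e14]; ring
  · rw [hd, hd, h.e15, h'.e15]; ring
  · rw [hd, hd, hd, h.e16, h'.e16]; ring
  · rw [hd, h.e17, h'.e17]; ring

theorem Uniq_pd_sumsq {d : Fin 18 → Pt → ℝ} (hd : ∀ j, ContDiff ℝ ∞ (d j)) (μ : Fin 3) (p : Pt) :
    pd μ (fun q => ∑ j, d j q ^ 2) p = ∑ j, 2 * d j p * pd μ (d j) p := by
  have h : ∀ j, HasFDerivAt (fun q => d j q ^ 2) ((2 * d j p) • fderiv ℝ (d j) p) p := by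
    intro j
    have h1 := (((hd j).differentiable (by simp)) p).hasFDerivAt.pow 2
    simpa using h1
  have hs := HasFDerivAt.fun_sum (u := Finset.univ) (fun j _ => h j)
  unfold pd
  rw [hs.fderiv]
  simp

theorem Uniq_pd_q {a b' c d e f g h : Pt → ℝ} (ha : ContDiff ℝ ∞ a) (hb : ContDiff ℝ ∞ b')
    (hc : ContDiff ℝ ∞ c) (hd : ContDiff ℝ ∞ d) (he : ContDiff ℝ ∞ e) (hf : ContDiff ℝ ∞ f)
    (hg : ContDiff ℝ ∞ g) (hh : ContDiff ℝ ∞ h) (μ : Fin 3) (p : Pt) (s : ℝ) :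
    pd μ (fun q => 2 * (a q * b' q + c q * d q + e q * f q + s * (g q * h q))) p
      = 2 * (pd μ a p * b' p + a p * pd μ b' p + pd μ c p * d p + c p * pd μ d p
        + pd μ e p * f p + e p * pd μ f p + s * (pd μ g p * h p + g p * pd μ h p)) := by
  have D : ∀ {u : Pt → ℝ}, ContDiff ℝ ∞ u → HasFDerivAt u (fderiv ℝ u p) p := fun hu =>
    ((hu.differentiable (by simp)) p).hasFDerivAt
  have h1 := (((((D ha).mul (D hb)).add ((D hc).mul (D hd))).add ((D he).mul (D hf))).add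
    (((D hg).mul (D hh)).const_mul s)).const_mul 2
  have h2 : HasFDerivAt (fun q => 2 * (a q * b' q + c q * d q + e q * f q + s * (g q * h q))) _ p :=
    h1
  unfold pd
  rw [h2.fderiv]
  simp
  ring

theorem Uniq_id {d : Fin 18 → Pt → ℝ} (hd : ∀ j, ContDiff ℝ ∞ (d j)) {K J : Fin 3 → ℝ} {p : Pt}
    (hE : Uniq_E d K J p) :
    pd 0 (fun q => ∑ j, d j q ^ 2) p
      - pd 1 (fun q => 2 * (d 3 q * d 6 q + d 4 q * d 7 q + d 5 q * d 8 q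
        + 1 * (d 15 q * d 16 q))) p
      - pd 2 (fun q => 2 * (d 3 q * d 9 q + d 4 q * d 10 q + d 5 q * d 11 q
        + (-1) * (d 14 q * d 16 q))) p
      = 2 * (d 0 p * d 3 p + d 1 p * d 4 p + d 2 p * d 5 p + d 12 p * d 14 p + d 13 p * d 15 p)
        + 2 * (d 3 p * K 0 + d 4 p * K 1 + d 5 p * K 2 - d 14 p * J 1 - d 15 p * J 2
          - d 17 p * J 0) := by
  rw [Uniq_pd_sumsq hd, Uniq_pd_q (hd 3) (hd 6) (hd 4) (hd 7) (hd 5) (hd 8) (hd 15) (hd 16),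
    Uniq_pd_q (hd 3) (hd 9) (hd 4) (hd 10) (hd 5) (hd 11) (hd 14) (hd 16), Uniq_sum18]
  rw [hE.e0, hE.e1, hE.e2, hE.e3, hE.e4, hE.e5, hE.e6, hE.e7, hE.e8, hE.e9, hE.e10, hE.e11,
    hE.e12, hE.e13, hE.e14, hE.e15, hE.e16, hE.e17]
  ring

theorem Uniq_bound (x : Fin 18 → ℝ) {K J : Fin 3 → ℝ} {C : ℝ} (hC : 0 ≤ C)
    (hK : ∀ i, |K i| ≤ C * ∑ j, |x j|) (hJ : ∀ i, |J i| ≤ C * ∑ j, |x j|) :
    |2 * (x 0 * x 3 + x 1 * x 4 + x 2 * x 5 + x 12 * x 14 + x 13 * x 15)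
        + 2 * (x 3 * K 0 + x 4 * K 1 + x 5 * K 2 - x 14 * J 1 - x 15 * J 2 - x 17 * J 0)|
      ≤ (1 + 36 * C) * ∑ j, x j ^ 2 := by
  set T := ∑ j, |x j| with hT
  have hT0 : 0 ≤ T := Finset.sum_nonneg (fun j _ => abs_nonneg _)
  have hT2 : T ^ 2 ≤ 18 * ∑ j, x j ^ 2 := by
    have h1 := sq_sum_le_card_mul_sum_sq (s := (Finset.univ : Finset (Fin 18)))
      (f := fun j => |x j|)
    simpa using h1
  have h1 : |2 * (x 0 * x 3 + x 1 * x 4 + x 2 * x 5 + x 12 * x 14 + x 13 * x 15)|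
      ≤ ∑ j, x j ^ 2 := by
    rw [Uniq_sum18, abs_le]
    constructor
    · nlinarith [sq_nonneg (x 0 + x 3), sq_nonneg (x 1 + x 4), sq_nonneg (x 2 + x 5),
        sq_nonneg (x 12 + x 14), sq_nonneg (x 13 + x 15), sq_nonneg (x 6), sq_nonneg (x 7),
        sq_nonneg (x 8), sq_nonneg (x 9), sq_nonneg (x 10), sq_nonneg (x 11), sq_nonneg (x 16),
        sq_nonneg (x 17)]
    · nlinarith [sq_nonneg (x 0 - x 3), sq_nonneg (x 1 - x 4), sq_nonneg (x 2 - x 5),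
        sq_nonneg (x 12 - x 14), sq_nonneg (x 13 - x 15), sq_nonneg (x 6), sq_nonneg (x 7),
        sq_nonneg (x 8), sq_nonneg (x 9), sq_nonneg (x 10), sq_nonneg (x 11), sq_nonneg (x 16),
        sq_nonneg (x 17)]
  have hm : ∀ (a k : ℝ), |k| ≤ C * T → |a * k| ≤ |a| * (C * T) := by
    intro a k hk
    rw [abs_mul]
    exact mul_le_mul_of_nonneg_left hk (abs_nonneg _)
  have h2 : |2 * (x 3 * K 0 + x 4 * K 1 + x 5 * K 2 - x 14 * J 1 - x 15 * J 2 - x 17 * J 0)|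
      ≤ 2 * (C * T) * T := by
    have a3 := abs_le.mp (hm (x 3) (K 0) (hK 0))
    have a4 := abs_le.mp (hm (x 4) (K 1) (hK 1))
    have a5 := abs_le.mp (hm (x 5) (K 2) (hK 2))
    have a14 := abs_le.mp (hm (x 14) (J 1) (hJ 1))
    have a15 := abs_le.mp (hm (x 15) (J 2) (hJ 2))
    have a17 := abs_le.mp (hm (x 17) (J 0) (hJ 0))
    have hS : |x 3| + |x 4| + |x 5| + |x 14| + |x 15| + |x 17| ≤ T := by
      rw [hT, Uniq_sum18]
      have hn : ∀ j, 0 ≤ |x j| := fun j => abs_nonneg _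
      linarith [hn 0, hn 1, hn 2, hn 6, hn 7, hn 8, hn 9, hn 10, hn 11, hn 12, hn 13, hn 16]
    have hS2 := mul_le_mul_of_nonneg_left hS (mul_nonneg hC hT0)
    rw [abs_le]
    constructor <;> nlinarith
  calc _ ≤ ∑ j, x j ^ 2 + 2 * (C * T) * T := (abs_add_le _ _).trans (add_le_add h1 h2)
    _ = ∑ j, x j ^ 2 + 2 * C * T ^ 2 := by ring
    _ ≤ ∑ j, x j ^ 2 + 2 * C * (18 * ∑ j, x j ^ 2) := by gcongr
    _ = (1 + 36 * C) * ∑ j, x j ^ 2 := by ring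

theorem Uniq_flux (x : Fin 18 → ℝ) {ν1 ν2 : ℝ} (hν : ν1 ^ 2 + ν2 ^ 2 ≤ 1) :
    ν1 * (2 * (x 3 * x 6 + x 4 * x 7 + x 5 * x 8 + 1 * (x 15 * x 16)))
      + ν2 * (2 * (x 3 * x 9 + x 4 * x 10 + x 5 * x 11 + (-1) * (x 14 * x 16)))
      ≤ ∑ j, x j ^ 2 := by
  have hcs : ∀ a a' : ℝ, (ν1 * a + ν2 * a') ^ 2 ≤ a ^ 2 + a' ^ 2 := by
    intro a a'
    have h1 : (ν1 * a + ν2 * a') ^ 2 ≤ (ν1 ^ 2 + ν2 ^ 2) * (a ^ 2 + a' ^ 2) := by
      nlinarith [sq_nonneg (ν1 * a' - ν2 * a)]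
    have h2 : (ν1 ^ 2 + ν2 ^ 2) * (a ^ 2 + a' ^ 2) ≤ 1 * (a ^ 2 + a' ^ 2) :=
      mul_le_mul_of_nonneg_right hν (by positivity)
    linarith
  rw [Uniq_sum18]
  nlinarith [hcs (x 6) (x 9), hcs (x 7) (x 10), hcs (x 8) (x 11), hcs (x 15) (-x 14),
    sq_nonneg (x 3 - (ν1 * x 6 + ν2 * x 9)), sq_nonneg (x 4 - (ν1 * x 7 + ν2 * x 10)),
    sq_nonneg (x 5 - (ν1 * x 8 + ν2 * x 11)), sq_nonneg (x 16 - (ν1 * x 15 + ν2 * -x 14)),
    sq_nonneg (x 0), sq_nonneg (x 1), sq_nonneg (x 2), sq_nonneg (x 12), sq_nonneg (x 13),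
    sq_nonneg (x 17)]

theorem Uniq_tan {u v : Pt → ℝ} (hu : ContDiff ℝ ∞ u) (hv : ContDiff ℝ ∞ v)
    (h : ∀ x y, u (pt0 x y) = v (pt0 x y)) (x y : ℝ) :
    pd 1 u (pt0 x y) = pd 1 v (pt0 x y) ∧ pd 2 u (pt0 x y) = pd 2 v (pt0 x y) := by
  have e1 : ∀ s, Function.update (pt0 x y) 1 s = pt0 s y := by
    intro s
    ext i
    fin_cases i <;> simp [pt0]
  have e2 : ∀ s, Function.update (pt0 x y) 2 s = pt0 x s := by
    intro s
    ext i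
    fin_cases i <;> simp [pt0]
  constructor
  · have h1 := hasDerivAt_pd hu 1 (pt0 x y) x
    have h2 := hasDerivAt_pd hv 1 (pt0 x y) x
    simp only [e1] at h1 h2
    have h3 : (fun s => u (pt0 s y)) = fun s => v (pt0 s y) := funext (fun s => h s y)
    rw [h3] at h1
    exact h1.unique h2
  · have h1 := hasDerivAt_pd hu 2 (pt0 x y) y
    have h2 := hasDerivAt_pd hv 2 (pt0 x y) y
    simp only [e2] at h1 h2
    have h3 : (fun s => u (pt0 x s)) = fun s => v (pt0 x s) := funext (fun s => h x s)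
    rw [h3] at h1
    exact h1.unique h2

theorem Uniq_init (hc : c.Temporal b) (hc' : c'.Temporal b)
    (h0 : ∀ x y, (∀ i, c.φ (pt0 x y) i = c'.φ (pt0 x y) i ∧
        pd 0 (fun p => c.φ p i) (pt0 x y) = pd 0 (fun p => c'.φ p i) (pt0 x y)) ∧
      ∀ μ, c.A μ (pt0 x y) = c'.A μ (pt0 x y) ∧
        pd 0 (c.A μ) (pt0 x y) = pd 0 (c'.A μ) (pt0 x y)) (x y : ℝ) (j : Fin 18) :
    Uniq_d c c' j (pt0 x y) = 0 := by
  have hφt : ∀ i, pd 1 (fun p => c.φ p i) (pt0 x y) = pd 1 (fun p => c'.φ p i) (pt0 x y) ∧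
      pd 2 (fun p => c.φ p i) (pt0 x y) = pd 2 (fun p => c'.φ p i) (pt0 x y) := fun i =>
    Uniq_tan (hc.hφ i) (hc'.hφ i) (fun x y => ((h0 x y).1 i).1) x y
  have hAt : ∀ μ, pd 1 (c.A μ) (pt0 x y) = pd 1 (c'.A μ) (pt0 x y) ∧
      pd 2 (c.A μ) (pt0 x y) = pd 2 (c'.A μ) (pt0 x y) := fun μ =>
    Uniq_tan (hc.hA μ) (hc'.hA μ) (fun x y => ((h0 x y).2 μ).1) x y
  obtain ⟨h1, h2⟩ := h0 x y
  apply sub_eq_zero.mpr
  fin_cases j
  · exact (h1 0).1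
  · exact (h1 1).1
  · exact (h1 2).1
  · exact (h1 0).2
  · exact (h1 1).2
  · exact (h1 2).2
  · exact (hφt 0).1
  · exact (hφt 1).1
  · exact (hφt 2).1
  · exact (hφt 0).2
  · exact (hφt 1).2
  · exact (hφt 2).2
  · exact (h2 1).1
  · exact (h2 2).1
  · exact (h2 1).2
  · exact (h2 2).2
  · exact congrArg₂ (fun a b : ℝ => a - b) (hAt 2).1 (hAt 1).2
  · exact congrArg₂ (fun a b : ℝ => a + b) (hAt 1).1 (hAt 2).2

theorem Uniq_rem (hc : c.Temporal b) (hc' : c'.Temporal b) {K : Set Pt} (hK : IsCompact K)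
    (hKb : K ⊆ hslab b) :
    ∃ C, ∀ p ∈ K, |pd 0 (fun q => ∑ j, Uniq_d c c' j q ^ 2) p
      - pd 1 (fun q => 2 * (Uniq_d c c' 3 q * Uniq_d c c' 6 q + Uniq_d c c' 4 q * Uniq_d c c' 7 q
        + Uniq_d c c' 5 q * Uniq_d c c' 8 q + 1 * (Uniq_d c c' 15 q * Uniq_d c c' 16 q))) p
      - pd 2 (fun q => 2 * (Uniq_d c c' 3 q * Uniq_d c c' 9 q + Uniq_d c c' 4 q * Uniq_d c c' 10 q
        + Uniq_d c c' 5 q * Uniq_d c c' 11 q
        + (-1) * (Uniq_d c c' 14 q * Uniq_d c c' 16 q))) p|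
      ≤ C * ∑ j, Uniq_d c c' j p ^ 2 := by
  have hU : Continuous (UU c) := continuous_pi (fun j => (Uniq_smooth hc j).continuous)
  have hU' : Continuous (UU c') := continuous_pi (fun j => (Uniq_smooth hc' j).continuous)
  obtain ⟨M1, hM1⟩ := hK.exists_bound_of_continuousOn hU.continuousOn
  obtain ⟨M2, hM2⟩ := hK.exists_bound_of_continuousOn hU'.continuousOn
  obtain ⟨C1, hC1, hKf⟩ := Kf_lip (max M1 M2)
  obtain ⟨C2, hC2, hJf⟩ := Jf_lip (max M1 M2)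
  refine ⟨1 + 36 * (C1 + C2), fun p hp => ?_⟩
  have hb1 : ∀ j, |UU c p j| ≤ max M1 M2 := fun j =>
    ((norm_le_pi_norm (UU c p) j).trans (hM1 p hp)).trans (le_max_left _ _)
  have hb2 : ∀ j, |UU c' p j| ≤ max M1 M2 := fun j =>
    ((norm_le_pi_norm (UU c' p) j).trans (hM2 p hp)).trans (le_max_right _ _)
  have hT0 : 0 ≤ ∑ j, |UU c p j - UU c' p j| := Finset.sum_nonneg (fun j _ => abs_nonneg _)
  have hK1 : ∀ i, |Kf i (UU c p) - Kf i (UU c' p)|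
      ≤ (C1 + C2) * ∑ j, |UU c p j - UU c' p j| := fun i =>
    (hKf _ _ hb1 hb2 i).trans (mul_le_mul_of_nonneg_right (by linarith) hT0)
  have hJ1 : ∀ i, |Jf i (UU c p) - Jf i (UU c' p)|
      ≤ (C1 + C2) * ∑ j, |UU c p j - UU c' p j| := fun i =>
    (hJf _ _ hb1 hb2 i).trans (mul_le_mul_of_nonneg_right (by linarith) hT0)
  have h1 := Uniq_id (Uniq_d_smooth hc hc') (Uniq_deqs hc hc' (hKb hp))
  rw [h1]
  have h2 : ∀ j, UU c p j - UU c' p j = Uniq_d c c' j p := fun j => rfl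
  simp only [h2] at hK1 hJ1
  exact Uniq_bound (fun j => Uniq_d c c' j p) (K := fun i => Kf i (UU c p) - Kf i (UU c' p))
    (J := fun i => Jf i (UU c p) - Jf i (UU c' p)) (add_nonneg hC1 hC2) hK1 hJ1

theorem uniq {c c' : Config} {b : ℝ} (hc : c.Temporal b) (hc' : c'.Temporal b)
    (h0 : ∀ x y, (∀ i, c.φ (pt0 x y) i = c'.φ (pt0 x y) i ∧
        pd 0 (fun p => c.φ p i) (pt0 x y) = pd 0 (fun p => c'.φ p i) (pt0 x y)) ∧
      ∀ μ, c.A μ (pt0 x y) = c'.A μ (pt0 x y) ∧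
        pd 0 (c.A μ) (pt0 x y) = pd 0 (c'.A μ) (pt0 x y)) :
    ∀ p ∈ hslab b, c.φ p = c'.φ p ∧ ∀ μ, c.A μ p = c'.A μ p := by
  set d := Uniq_d c c' with hdd
  have hd : ∀ j, ContDiff ℝ ∞ (d j) := Uniq_d_smooth hc hc'
  have hd1 : ∀ j, ContDiff ℝ 1 (d j) := fun j => (hd j).of_le (by exact_mod_cast le_top)
  have he : ∀ p ∈ hslab b, (fun q => ∑ j, d j q ^ 2) p = 0 := by
    apply sh (b := b) (e := fun q => ∑ j, d j q ^ 2)
      (q1 := fun q => 2 * (d 3 q * d 6 q + d 4 q * d 7 q + d 5 q * d 8 q + 1 * (d 15 q * d 16 q)))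
      (q2 := fun q => 2 * (d 3 q * d 9 q + d 4 q * d 10 q + d 5 q * d 11 q
        + (-1) * (d 14 q * d 16 q)))
    · exact ContDiff.sum (fun j _ => (hd1 j).pow 2)
    · exact contDiff_const.mul (((((hd1 3).mul (hd1 6)).add ((hd1 4).mul (hd1 7))).add
        ((hd1 5).mul (hd1 8))).add (contDiff_const.mul ((hd1 15).mul (hd1 16))))
    · exact contDiff_const.mul (((((hd1 3).mul (hd1 9)).add ((hd1 4).mul (hd1 10))).add
        ((hd1 5).mul (hd1 11))).add (contDiff_const.mul ((hd1 14).mul (hd1 16))))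
    · intro p _
      exact Finset.sum_nonneg (fun j _ => sq_nonneg _)
    · intro p _ ν1 ν2 hν
      exact Uniq_flux (fun j => d j p) hν
    · intro K hK hKb
      exact Uniq_rem hc hc' hK hKb
    · intro x y
      apply Finset.sum_eq_zero
      intro j _
      rw [hdd, Uniq_init hc hc' h0 x y j]
      norm_num
  intro p hp
  have h1 := he p hp
  have h2 : ∀ j, d j p = 0 := by
    intro j
    have h3 := (Finset.sum_eq_zero_iff_of_nonneg (fun j _ => sq_nonneg (d j p))).mp h1 j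
      (Finset.mem_univ j)
    exact pow_eq_zero_iff (two_ne_zero) |>.mp h3
  constructor
  · ext i
    fin_cases i
    · exact sub_eq_zero.mp (h2 0)
    · exact sub_eq_zero.mp (h2 1)
    · exact sub_eq_zero.mp (h2 2)
  · intro μ
    fin_cases μ
    · exact (hc.A0 p).trans (hc'.A0 p).symm
    · exact sub_eq_zero.mp (h2 12)
    · exact sub_eq_zero.mp (h2 13)

end H72GS
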